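import Pool.Agent.Lib.MP_356dfe_ag.S.Basic

-- part Pool.Agent.Lib.MP_356dfe_ag.S.PInvM
section

/-! Invariance of integrals; partitions of unity. -/

set_option autoImplicit false

open Set Filter Topology Metric MeasureTheory
open scoped ContDiff ComplexConjugate Matrix Pointwise

noncomputable section

namespace Pool.Agent.Lib.MP_356dfe_ag.S

variable {G Z : Type} [Group G] [TopologicalSpace Z] [T2Space Z] [MulAction G Z]
  [MeasurableSpace Z] [BorelSpace Z] {m n : ℕ} {Γ : Geo G Z m n}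

namespace PInvM

omit [T2Space Z] in
theorem mp (g : G) : MeasurePreserving (fun z : Z => g • z) Γ.A.μ Γ.A.μ := by
  have hm := (Γ.cont g).measurable
  refine ⟨hm, ?_⟩
  unfold KA.μ
  rw [Measure.map_sum hm.aemeasurable]
  conv_rhs => rw [← Measure.sum_comp_equiv (MulAction.toPerm g)]
  congr 1
  funext l
  have h1 : AEMeasurable (Γ.A.e l).symm (volume.restrict (ball 0 4)) :=
    ContinuousOn.aemeasurable (Γ.A.tgt l ▸ (Γ.A.e l).continuousOn_symm) measurableSet_ball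
  rw [AEMeasurable.map_map_of_aemeasurable hm.aemeasurable
    (h1.mono_ac (withDensity_absolutelyContinuous _ _))]
  simp only [Function.comp_apply, MulAction.toPerm_apply, KA.met, Γ.ty_sm]
  congr 1
  funext x
  exact (Γ.symm_sm g l x).symm

omit [T2Space Z] in
theorem int (g : G) (F : Z → ℝ) : ∫ z, F (g • z) ∂Γ.A.μ = ∫ z, F z ∂Γ.A.μ :=
  (mp g).integral_comp (Homeomorph.measurableEmbedding
    ⟨MulAction.toPerm g, Γ.cont g, Γ.cont g⁻¹⟩) F

omit [T2Space Z] in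
theorem ev (h : Γ.A.Std) (hi : Γ.Inv) (g : G) (C : Set Z) (k : ℕ) (ξ : FF Z) (f : Z → ℝ)
    (L : List (F1 (Vx G m))) (hξ : Γ.A.In C k ξ) (hL : ∀ a ∈ L, ∀ z, Γ.A.At1 a z) :
    Γ.A.ev (actF g ξ) (act0 g f) (L.map (act1 g)) = Γ.A.ev ξ f L := by
  rw [← KA.evL_apply, actF, KA.evL, Finsupp.linearCombination_mapDomain,
    Finsupp.linearCombination_apply]
  refine Finsupp.sum_congr fun q hq => congrArg (ξ q * ·) ?_
  simp only [Function.comp_apply]
  rw [← int g]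
  refine integral_congr_ae (Eventually.of_forall fun z => ?_)
  have e : L.map (act1 g) ++ (q.2.map (act0 g)).map Γ.A.d = (L ++ q.2.map Γ.A.d).map (act1 g) := by
    simp only [List.map_append, List.map_map]
    congr 2
    funext U
    exact hi.d g U
  simp only [act0, inv_smul_smul]
  rw [e, hi.Dt g _ z]
  intro a ha
  rcases List.mem_append.1 ha with ha | ha
  · exact hL a ha z
  · obtain ⟨p, hp, rfl⟩ := List.mem_map.1 ha
    exact (h.bas.s1_d p z ((hξ q hq).2.2.2 p hp z)).1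

end PInvM

theorem invm (h : Γ.A.Std) (hi : Γ.Inv) : Γ.InvM := by
  refine ⟨PInvM.mp, PInvM.int, PInvM.ev h hi, fun g C k ξ f L hξ hL => ?_⟩
  have e : (L.map (act0 g)).map Γ.A.d = (L.map Γ.A.d).map (act1 g) := by
    simp only [List.map_map]
    congr 1
    funext U
    exact hi.d g U
  unfold KA.cur
  rw [e]
  refine PInvM.ev h hi g C k ξ f _ hξ fun a ha z => ?_
  obtain ⟨p, hp, rfl⟩ := List.mem_map.1 ha
  exact (h.bas.s1_d p z (hL p hp z)).1

theorem part (h : Γ.Std) : Γ.PartE := by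
  classical
  intro a' ha'
  have := h.std.bump.lc
  obtain ⟨C, hC, hcov⟩ := h.inv.cocpt
  have hρ : Continuous Γ.ρ :=
    continuous_iff_continuousAt.2 fun z => h.std.bas.sm_cont _ z (Γ.nbh.sm z)
  have hK : IsCompact (C ∩ {z | a' ≤ Γ.ρ z}) := hC.inter_right (isClosed_le continuous_const hρ)
  obtain ⟨s, hs⟩ := hK.elim_finite_subcover Γ.V Γ.V_op fun z hz => by
    rw [Γ.V_cov]
    exact lt_of_lt_of_le ha' hz.2
  obtain ⟨χ, h1, h2⟩ := h.std.bump.part _ s _ Γ.V hK Γ.V_op hs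
  let β : Vx G n → Z → ℝ := fun l =>
    ∑ l' ∈ s.filter fun l' => l'.2 = l.2, act0 (l.1 * l'.1⁻¹) (χ l')
  have b1 : ∀ l, Γ.A.D (β l) ∧ tsupport (β l) ⊆ Γ.V l := fun l => by
    refine Finset.sum_induction _ (fun U => Γ.A.D U ∧ tsupport U ⊆ Γ.V l)
      (fun U U' hU hU' => ⟨⟨fun z => (hU.1.1 z).add (hU'.1.1 z), hU.1.2.add hU'.1.2⟩,
        (tsupport_add U U').trans (union_subset hU.2 hU'.2)⟩)
      ⟨⟨fun z => KA.sm_const 0 z, HasCompactSupport.zero⟩, by simp⟩ fun l' hl' => ?_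
    obtain ⟨h3, h4⟩ := h.inv.dd (l.1 * l'.1⁻¹) _ (h1 l').1
    refine ⟨h3, ?_⟩
    rw [h4]
    rintro _ ⟨z, hz, rfl⟩
    have h5 := (Γ.V_sm (l.1 * l'.1⁻¹) l' z).2 ((h1 l').2.2 hz)
    have h6 : (l.1 * l'.1⁻¹) • l' = l :=
      Prod.ext (inv_mul_cancel_right _ _) (Finset.mem_filter.1 hl').2
    rwa [h6] at h5
  have b2 : ∀ l z, 0 ≤ β l z := fun l z => by
    simp only [β, Finset.sum_apply]
    exact Finset.sum_nonneg fun l' _ => (h1 l').2.1 _
  have b3 : ∀ (g : G) l z, β (g • l) (g • z) = β l z := fun g l z => by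
    simp only [β, Finset.sum_apply, act0, Vx.smul_fst, Vx.smul_snd, mul_inv_rev, mul_smul,
      inv_smul_smul]
  have b4 : ∀ l ∈ s, ∀ z, χ l z ≤ β l z := fun l hl z => by
    simp only [β, Finset.sum_apply]
    refine le_trans ?_ (Finset.single_le_sum (f := fun l' => act0 (l.1 * l'.1⁻¹) (χ l') z)
      (s := s.filter fun l' => l'.2 = l.2) (a := l)
      (fun l' _ => (h1 l').2.1 _) (Finset.mem_filter.2 ⟨hl, rfl⟩))
    simp [act0]
  have b5 : ∀ z, ∃ t : Finset (Vx G n), ∀ᶠ w in 𝓝 z, (Function.support fun l => β l w) ⊆ t := by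
    intro z
    obtain ⟨K, hK1, hK2⟩ := exists_compact_mem_nhds z
    refine ⟨(h.inv.lfV K hK1).toFinset, mem_of_superset hK2 fun w hw l hl => ?_⟩
    simpa using ⟨w, (b1 l).2 (subset_tsupport _ hl), hw⟩
  let B : Z → ℝ := fun z => ∑ᶠ l, β l z
  have c1 : Γ.A.SM B := fun z => by
    obtain ⟨t, ht⟩ := b5 z
    exact (KA.sm_sum (s := t) fun l _ => (b1 l).1.1 z).congr
      (ht.mono fun w hw => finsum_eq_sum_of_support_subset _ hw)
  have c2 : ∀ (g : G) z, B (g • z) = B z := fun g z =>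
    (finsum_comp_equiv (MulAction.toPerm g)).symm.trans (finsum_congr fun l => b3 g l z)
  have c3 : ∀ z, 0 ≤ B z := fun z => finsum_nonneg fun l => b2 l z
  have c4 : ∀ z, a' < Γ.ρ z → 1 ≤ B z := fun z hz => by
    obtain ⟨g, w, hw, rfl⟩ := hcov z
    obtain ⟨t, ht⟩ := b5 w
    have h3 : w ∈ C ∩ {z | a' ≤ Γ.ρ z} := ⟨hw, hz.le.trans_eq (Γ.ρ_sm g w)⟩
    have h4 : B w = ∑ l ∈ s ∪ t, β l w := finsum_eq_sum_of_support_subset _
      (ht.self_of_nhds.trans (Finset.coe_subset.2 Finset.subset_union_right))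
    rw [c2, h4, ← h2.self_of_nhdsSet w h3]
    exact (Finset.sum_le_sum fun l hl => b4 l hl w).trans
      (Finset.sum_le_sum_of_subset_of_nonneg Finset.subset_union_left fun l _ _ => b2 l w)
  let ζ : ℝ → ℝ := fun t => (t + expNegInvGlue (1 - t))⁻¹
  have z1 : ∀ t, 0 ≤ t → ContDiffAt ℝ ∞ ζ t := fun t ht => by
    refine (contDiffAt_id.add (expNegInvGlue.contDiff.contDiffAt.comp t
      (contDiffAt_const.sub contDiffAt_id))).inv (ne_of_gt ?_)
    rcases lt_or_ge t 1 with h3 | h3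
    · exact add_pos_of_nonneg_of_pos ht (expNegInvGlue.pos_of_pos (sub_pos.2 h3))
    · exact add_pos_of_pos_of_nonneg (one_pos.trans_le h3) (expNegInvGlue.nonneg _)
  refine ⟨fun l => β l * (ζ ∘ B), fun l => ⟨⟨fun z => ((b1 l).1.1 z).mul
    ((c1 z).comp (z1 _ (c3 z))), (b1 l).1.2.mul_right⟩, tsupport_mul_subset_left.trans (b1 l).2⟩,
    fun g l => funext fun z => ?_, fun z hz => ?_⟩
  · obtain ⟨z, rfl⟩ := (MulAction.bijective g).2 z
    simp only [act0, Pi.mul_apply, Function.comp_apply, inv_smul_smul, b3, c2]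
  · have h3 := c4 z hz
    simp only [Pi.mul_apply, Function.comp_apply]
    rw [← finsum_mul]
    simp only [ζ, expNegInvGlue.zero_of_nonpos (sub_nonpos.2 h3), add_zero]
    exact mul_inv_cancel₀ (one_pos.trans_le h3).ne'

end Pool.Agent.Lib.MP_356dfe_ag.S
end
end

-- part Pool.Agent.Lib.MP_356dfe_ag.S.PSum
section

/-! Square summable combinations. -/

set_option autoImplicit false

open Set Filter Topology Metric MeasureTheory
open scoped ContDiff ComplexConjugate Matrix Pointwise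

noncomputable section

namespace Pool.Agent.Lib.MP_356dfe_ag.S

variable {G Z : Type} [Group G] [TopologicalSpace Z] [T2Space Z] [MulAction G Z]
  [MeasurableSpace Z] [BorelSpace Z] {m n : ℕ} {Γ : Geo G Z m n}

namespace PSum

theorem bil {M ι : Type} [AddCommGroup M] [Module ℝ M] (φ : M →ₗ[ℝ] M →ₗ[ℝ] ℝ) (s : Finset ι)
    (c : ι → ℝ) (a : ι → M) {B : ℝ} (h : ∀ i ∈ s, ∀ j ∈ s, |φ (a i) (a j)| ≤ B) (hB : 0 ≤ B) :
    |φ (∑ i ∈ s, c i • a i) (∑ i ∈ s, c i • a i)| ≤ B * s.card * ∑ i ∈ s, c i ^ 2 := by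
  simp only [map_sum, map_smul, LinearMap.sum_apply, LinearMap.smul_apply, smul_eq_mul]
  calc _ ≤ ∑ j ∈ s, |c j| * ∑ i ∈ s, |c i| * B := by
        refine (Finset.abs_sum_le_sum_abs _ _).trans (Finset.sum_le_sum fun j hj => ?_)
        rw [abs_mul]
        refine mul_le_mul_of_nonneg_left ((Finset.abs_sum_le_sum_abs _ _).trans
          (Finset.sum_le_sum fun i hi => ?_)) (abs_nonneg _)
        rw [abs_mul]
        exact mul_le_mul_of_nonneg_left (h i hi j hj) (abs_nonneg _)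
    _ = B * (∑ i ∈ s, |c i|) ^ 2 := by
        rw [← Finset.sum_mul, ← Finset.sum_mul]; ring
    _ ≤ B * (s.card * ∑ i ∈ s, |c i| ^ 2) := mul_le_mul_of_nonneg_left sq_sum_le_card_mul_sum_sq hB
    _ = _ := by simp only [sq_abs, mul_assoc]

/-- the inner product of one-forms as a bilinear map -/
def n1L (g : M2) : E2 →ₗ[ℝ] E2 →ₗ[ℝ] ℝ :=
  LinearMap.mk₂ ℝ (n1 g) (add_n1 g) (smul_n1 g) (n1_add g) (n1_smul g)

/-- the inner product of two-forms as a bilinear map -/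
def ipL (g : M2) : M2 →ₗ[ℝ] M2 →ₗ[ℝ] ℝ :=
  LinearMap.mk₂ ℝ (ip g) (fun S T U => by simp only [ip, tr_add, add_md]; ring)
    (fun t S T => by simp only [ip, tr_smul, smul_md, smul_eq_mul]; ring)
    (fun S T U => by simp only [ip, tr_add, md_add]; ring)
    (fun t S T => by simp only [ip, tr_smul, md_smul, smul_eq_mul]; ring)

omit [T2Space Z] [MeasurableSpace Z] [BorelSpace Z] in
theorem bdd {ι : Type} (s : Finset ι) {C : Set Z} (hC : IsCompact C) (q : ι → ι → Z → ℝ)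
    (h : ∀ i ∈ s, ∀ j ∈ s, Continuous (q i j)) :
    ∃ B, 0 ≤ B ∧ ∀ z ∈ C, ∀ i ∈ s, ∀ j ∈ s, |q i j z| ≤ B := by
  obtain ⟨B, hB⟩ := hC.exists_bound_of_continuousOn (f := fun z => ∑ i ∈ s, ∑ j ∈ s, |q i j z|)
    (continuous_finsetSum _ fun i hi => continuous_finsetSum _ fun j hj =>
      (h i hi j hj).abs).continuousOn
  refine ⟨max B 0, le_max_right _ _, fun z hz i hi j hj => le_trans ?_
    (((le_abs_self _).trans (hB z hz)).trans (le_max_left _ _))⟩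
  exact (Finset.single_le_sum (f := fun j => |q i j z|) (fun _ _ => abs_nonneg _) hj).trans
    (Finset.single_le_sum (f := fun i => ∑ j ∈ s, |q i j z|)
      (fun _ _ => Finset.sum_nonneg fun _ _ => abs_nonneg _) hi)

variable {ι : Type} [MulAction G ι] {𝒮 : Set ι} {w : ι → F1 (Vx G m)}

theorem intg (h : Γ.Std) (ho : Orb G 𝒮) {c : ι → ℝ} (hc : Summable fun i => c i ^ 2) {C : Set Z}
    (hC : IsCompact C) (hcov : ∀ z, ∃ g : G, z ∈ g • C) {F : Z → ℝ} (hF : Continuous F)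
    {s : Finset ι} (hs : ∀ i ∈ s, i ∈ 𝒮) {B : ℝ}
    (hB : ∀ g : G, ∀ z ∈ C, |F (g • z)| ≤ B * ∑ i ∈ s, c (g • i) ^ 2) : Integrable F Γ.A.μ := by
  have := Γ.cntG
  have := h.std.meas.fin
  have h1 : ∀ g : G, IsCompact (g • C) := fun g => hC.image (Γ.cont g)
  rw [← integrableOn_univ, ← eq_univ_of_forall (s := ⋃ g : G, g • C) fun z => mem_iUnion.2 (hcov z)]
  refine integrableOn_iUnion_of_summable_integral_norm
    (fun g => hF.continuousOn.integrableOn_compact (h1 g)) ?_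
  have h2 : Summable fun g : G => B * (∑ i ∈ s, c (g • i) ^ 2) * Γ.A.μ.real C :=
    ((summable_sum fun i hi => hc.comp_injective (i := fun g : G => g • i) fun g g' e => by
      have := ho.free i (hs i hi) (g'⁻¹ * g) (by rw [mul_smul, show g • i = g' • i from e,
        inv_smul_smul])
      exact (inv_mul_eq_one.1 this).symm).mul_left B).mul_right _
  refine h2.of_nonneg_of_le (fun g => integral_nonneg fun _ => norm_nonneg _) fun g => ?_
  have h3 : Γ.A.μ.real (g • C) = Γ.A.μ.real C := by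
    rw [← preimage_smul_inv]
    exact (h.invm.mp g⁻¹).measureReal_preimage hC.measurableSet.nullMeasurableSet
  rw [← h3]
  refine (Real.le_norm_self _).trans (norm_setIntegral_le_of_norm_le_const (h1 g).measure_lt_top ?_)
  rintro _ ⟨z, hz, rfl⟩
  rw [norm_norm]
  exact hB g z hz

omit [T2Space Z] [BorelSpace Z] in
theorem loc (h : Γ.Std) (ho : Orb G 𝒮) (hw : Γ.Fam 𝒮 w) {K : Set Z} (hK : IsCompact K) :
    ∃ s : Finset ι, (∀ i ∈ s, i ∈ 𝒮 ∧ (Γ.A.sp1 (w i) ∩ K).Nonempty) ∧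
      ∀ c : ι → ℝ, (∀ i, c i ≠ 0 → i ∈ 𝒮) →
        ∀ z ∈ K, Γ.A.Eq1 (sumF c w) (∑ i ∈ s, c i • w i) z := by
  have h1 := (h.inv.fin ι 𝒮 (fun i => Γ.A.sp1 (w i)) ho fun i hi =>
    ⟨(hw.1 i hi).2, fun g => by rw [hw.2 i hi g, h.inv.sp1]⟩).1 K hK
  refine ⟨h1.toFinset, fun i hi => h1.mem_toFinset.1 hi, fun c hc z hz l hl => ?_⟩
  simp only [Finset.sum_apply, Pi.smul_apply]
  refine finsum_eq_sum_of_support_subset _ fun i hi => ?_
  exact h1.mem_toFinset.2 ⟨hc i (left_ne_zero_of_smul hi), z,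
    subset_closure fun e => right_ne_zero_of_smul hi (e l hl), hz⟩

omit [T2Space Z] [BorelSpace Z] in
theorem s1 (h : Γ.Std) (ho : Orb G 𝒮) (hw : Γ.Fam 𝒮 w) {c : ι → ℝ} (hc : ∀ i, c i ≠ 0 → i ∈ 𝒮)
    (z : Z) : Γ.A.S1 (sumF c w) z := by
  have := h.std.bump.lc
  obtain ⟨K, hK1, hK2⟩ := exists_compact_mem_nhds z
  obtain ⟨s, h1, h2⟩ := loc h ho hw hK1
  exact h.std.bas.s1_congr _ _ z (KA.s1_sum fun i hi => ((hw.1 i (h1 i hi).1).1 z).smul _)
    (mem_of_superset hK2 fun y hy => h2 c hc y hy)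

omit [T2Space Z] [MeasurableSpace Z] [BorelSpace Z] in
theorem shift (ho : Orb G 𝒮) (hw : Γ.Fam 𝒮 w) {c : ι → ℝ} (hc : ∀ i, c i ≠ 0 → i ∈ 𝒮) (g : G) :
    (∀ i, c (g • i) ≠ 0 → i ∈ 𝒮) ∧ sumF c w = act1 g (sumF (fun i => c (g • i)) w) := by
  have h1 : ∀ i, c (g • i) ≠ 0 → i ∈ 𝒮 := fun i hi => by
    simpa using ho.inv _ (hc _ hi) g⁻¹
  refine ⟨h1, funext fun l => funext fun x => ?_⟩
  refine (finsum_comp_equiv (MulAction.toPerm g)).symm.trans (finsum_congr fun i => ?_)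
  simp only [MulAction.toPerm_apply]
  by_cases e : c (g • i) = 0
  · rw [e, zero_smul, zero_smul]
  · rw [hw.2 i (h1 i e) g]
    rfl

omit [T2Space Z] [BorelSpace Z] [MulAction G ι] in
theorem bar_sum (h : Γ.Std) (s : Finset ι) (c : ι → ℝ) {z : Z} (hs : ∀ i ∈ s, Γ.A.S1 (w i) z) :
    Γ.A.v2 (bar (∑ i ∈ s, c i • w i)) z = ∑ i ∈ s, c i • Γ.A.v2 (bar (w i)) z := by
  classical
  induction s using Finset.induction_on with
  | empty =>
    rw [Finset.sum_empty, Finset.sum_empty, ← zero_smul ℝ (0 : F1 (Vx G m)), h.std.bas.bar_smul,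
      zero_smul]
    rfl
  | insert i s hi ih =>
    have h1 : ∀ j ∈ s, Γ.A.S1 (w j) z := fun j hj => hs j (Finset.mem_insert_of_mem hj)
    rw [Finset.sum_insert hi, Finset.sum_insert hi, h.std.bas.bar_add _ _ z
      ((hs i (Finset.mem_insert_self _ _)).smul _) (KA.s1_sum fun j hj => (h1 j hj).smul _),
      ih h1, h.std.bas.bar_smul]
    rfl

end PSum

theorem gsum (h : Γ.Std) : Γ.Sum := by
  intro ι _ 𝒮 w c ho hw hc
  have := h.std.bump.lc
  have hb := h.std.bas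
  refine ⟨fun K hK => ?_, PSum.s1 h ho hw hc, fun hs => ?_⟩
  · obtain ⟨s, h1, h2⟩ := PSum.loc h ho hw hK
    exact ⟨s, h1, h2 c hc⟩
  obtain ⟨C, hC, hcov⟩ := h.inv.cocpt
  obtain ⟨K, hK, hCK⟩ := exists_compact_superset hC
  obtain ⟨s, h1, h2⟩ := PSum.loc h ho hw hK
  have cont : ∀ U, Γ.A.SM U → Continuous U := fun U hU =>
    continuous_iff_continuousAt.2 fun z => hb.sm_cont _ z (hU z)
  have w1 : ∀ i ∈ s, ∀ z, Γ.A.S1 (w i) z := fun i hi => (hw.1 i (h1 i hi).1).1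
  have w2 : ∀ a, (∀ z, Γ.A.S1 a z) → ∀ z, Γ.A.S2 (bar a) z := fun a ha z =>
    hb.s2_bar a z (Eventually.of_forall ha)
  have a1 := PSum.s1 h ho hw hc
  constructor
  · obtain ⟨B, B0, hB⟩ := PSum.bdd s hC (fun i j => Γ.A.P (w i) (w j)) fun i hi j hj =>
      cont _ fun z => hb.P_sm _ _ z (Eventually.of_forall fun y => ⟨w1 i hi y, w1 j hj y⟩)
    refine PSum.intg h ho hs hC hcov (cont _ fun z => hb.P_sm _ _ z
      (Eventually.of_forall fun y => ⟨a1 y, a1 y⟩)) (fun i hi => (h1 i hi).1) (B := B * s.card)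
      fun g z hz => ?_
    obtain ⟨h3, h4⟩ := PSum.shift ho hw hc g
    rw [h4, h.inv.N g _ z (PSum.s1 h ho hw h3 z).1, KA.N, KA.P,
      (h2 _ h3 z (interior_subset (hCK hz))).v1, KA.v1_sum]
    exact PSum.bil (PSum.n1L (Γ.A.g z)) s _ (fun i => Γ.A.v1 (w i) z) (hB z hz) B0
  · obtain ⟨B, B0, hB⟩ := PSum.bdd s hC (fun i j => Γ.A.Tr (bar (w i)) * Γ.A.Tr (bar (w j)) -
      Γ.A.W (bar (w i)) (bar (w j))) fun i hi j hj => cont _ fun z =>
        ((hb.Tr_sm _ z (Eventually.of_forall (w2 _ (w1 i hi)))).mul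
          (hb.Tr_sm _ z (Eventually.of_forall (w2 _ (w1 j hj))))).sub
          (hb.W_sm _ _ z (Eventually.of_forall fun y => ⟨w2 _ (w1 i hi) y, w2 _ (w1 j hj) y⟩))
    refine PSum.intg h ho hs hC hcov (cont _ fun z => hb.NN_sm _ z
      (Eventually.of_forall (w2 _ a1))) (fun i hi => (h1 i hi).1) (B := B * s.card)
      fun g z hz => ?_
    obtain ⟨h3, h4⟩ := PSum.shift ho hw hc g
    have h5 : Γ.A.v2 (bar (sumF (fun i => c (g • i)) w)) z =
        Γ.A.v2 (bar (∑ i ∈ s, c (g • i) • w i)) z := hb.bar_congr _ _ z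
      (mem_of_superset (mem_interior_iff_mem_nhds.1 (hCK hz)) fun y hy => h2 _ h3 y hy) _
      (Γ.A.mem_i z)
    rw [h4, show bar (act1 g (sumF (fun i => c (g • i)) w)) =
      act1 g (bar (sumF (fun i => c (g • i)) w)) from rfl,
      h.inv.NN g _ z (w2 _ (PSum.s1 h ho hw h3) z).1, KA.NN, h5,
      PSum.bar_sum h s _ fun i hi => w1 i hi z]
    exact PSum.bil (PSum.ipL (Γ.A.g z)) s _ (fun i => Γ.A.v2 (bar (w i)) z) (hB z hz) B0

end Pool.Agent.Lib.MP_356dfe_ag.S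
end
end

-- part Pool.Agent.Lib.MP_356dfe_ag.S.PExt
section

/-! Equivariant extension. -/

set_option autoImplicit false

open Set Filter Topology Metric MeasureTheory
open scoped ContDiff ComplexConjugate Matrix Pointwise

noncomputable section

namespace Pool.Agent.Lib.MP_356dfe_ag.S

namespace PExt

/-- A linear choice of corrections. -/
theorem exists_lin {W : Type} [AddCommGroup W] [Module ℝ W] (E Q : Submodule ℝ W) :
    ∃ X : W →ₗ[ℝ] W, (∀ a, X a ∈ E) ∧ ∀ a, ∀ e ∈ E, a - e ∈ Q → a - X a ∈ Q := by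
  obtain ⟨s, hs⟩ := (Q.mkQ ∘ₗ E.subtype).rangeRestrict.exists_rightInverse_of_surjective
    (LinearMap.range_rangeRestrict _)
  obtain ⟨t, ht⟩ := LinearMap.exists_extend s
  refine ⟨E.subtype ∘ₗ t ∘ₗ Q.mkQ, fun a => (t _).2, fun a e he k => ?_⟩
  have h1 : Q.mkQ a ∈ LinearMap.range (Q.mkQ ∘ₗ E.subtype) :=
    ⟨⟨e, he⟩, ((Submodule.Quotient.eq Q).2 k).symm⟩
  have h2 := congrArg Subtype.val (LinearMap.congr_fun hs ⟨_, h1⟩)
  have h3 : t (Q.mkQ a) = s ⟨_, h1⟩ := LinearMap.congr_fun ht ⟨_, h1⟩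
  refine (Submodule.Quotient.eq Q).1 ?_
  rw [LinearMap.comp_apply, LinearMap.comp_apply, h3]
  exact h2.symm

theorem exists_cut {s t : ℝ} (h : s < t) :
    ∃ φ : ℝ → ℝ, ContDiff ℝ ∞ φ ∧ (∀ x ≤ s, φ x = 0) ∧ ∀ x, t ≤ x → φ x = 1 :=
  ⟨fun x => Real.smoothTransition ((x - s) / (t - s)),
    Real.smoothTransition.contDiff.comp ((contDiff_id.sub contDiff_const).div_const _),
    fun _ k => Real.smoothTransition.zero_of_nonpos
      (div_nonpos_of_nonpos_of_nonneg (sub_nonpos.2 k) (sub_pos.2 h).le),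
    fun _ k => Real.smoothTransition.one_of_one_le
      ((one_le_div (sub_pos.2 h)).2 (sub_le_sub_right k s))⟩

variable {G Z : Type} [Group G] [TopologicalSpace Z] [MulAction G Z] {m n : ℕ} {Γ : Geo G Z m n}
  {ι : Type} [MulAction G ι]

theorem sumF_eq {Λ : Type} (g : G) (F : Finset ι) (c : ι → ℝ) (t : ι → F1 Λ) (l : Λ) (x : E2)
    (h : ∀ j, c (g • j) ≠ 0 → t (g • j) l x ≠ 0 → j ∈ F) :
    sumF c t l x = ∑ j ∈ F, c (g • j) • t (g • j) l x := by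
  rw [sumF, ← finsum_comp_equiv (MulAction.toPerm g)]
  exact finsum_eq_sum_of_support_subset _ fun j hj =>
    h j (left_ne_zero_of_smul hj) (right_ne_zero_of_smul hj)

theorem exists_sheet (Γ : Geo G Z m n) : ∃ sh : Z → G, ∀ g z, g⁻¹ • z ∈ Γ.N → sh z = g := by
  choose! sh h1 h2 using Γ.sheet
  exact ⟨sh, fun g z k => (h2 z (by simpa only [Γ.ρ_sm] using Γ.nbh.sub _ k) g k).symm⟩

theorem ev_sheet {g : G} {z : Z} (h : g⁻¹ • z ∈ Γ.N) : ∀ᶠ y in 𝓝 z, g⁻¹ • y ∈ Γ.N :=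
  (Γ.nbh.op.preimage (Γ.cont g⁻¹)).mem_nhds h

/-- The corrected family. -/
def cor (Γ : Geo G Z m n) (κ : Z → ℝ) (sh : Z → G) (w u : ι → F1 (Vx G m)) (i : ι) :
    F1 (Vx G m) := fun l x => κ ((Γ.A.e l).symm x) • w i l x + (1 - κ ((Γ.A.e l).symm x)) •
      u ((sh ((Γ.A.e l).symm x))⁻¹ • i) ((sh ((Γ.A.e l).symm x))⁻¹ • l) x

variable {κ : Z → ℝ} {sh : Z → G} {w u : ι → F1 (Vx G m)} {i : ι} {z : Z} {l : Vx G m}

theorem cor_val (hl : z ∈ Γ.A.src l) : cor Γ κ sh w u i l (Γ.A.e l z) =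
    κ z • w i l (Γ.A.e l z) + (1 - κ z) • u ((sh z)⁻¹ • i) ((sh z)⁻¹ • l) (Γ.A.e l z) := by
  rw [cor, (Γ.A.e l).left_inv hl]

theorem cor_one (h : κ z = 1) : Γ.A.Eq1 (cor Γ κ sh w u i) (w i) z := fun l hl => by
  rw [cor_val hl, h, sub_self, one_smul, zero_smul, add_zero]

theorem cor_eqv (hs : ∀ g z, g⁻¹ • z ∈ Γ.N → sh z = g) (h1 : ∀ z, Γ.b ≤ Γ.ρ z → κ z = 1)
    (h2 : ∀ (g : G) z, κ (g • z) = κ z) (g : G) (hw : w (g • i) = act1 g (w i)) :
    cor Γ κ sh w u (g • i) = act1 g (cor Γ κ sh w u i) := by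
  funext l x
  simp only [cor, act1, hw, Γ.symm_sm, h2]
  generalize (Γ.A.e l).symm x = z
  rcases le_or_gt Γ.b (Γ.ρ z) with k | k
  · rw [h1 z k, sub_self, zero_smul, zero_smul]
  · obtain ⟨g', k', -⟩ := Γ.sheet z k
    rw [hs g' z k', hs (g⁻¹ * g') (g⁻¹ • z) (by rwa [mul_inv_rev, inv_inv, mul_smul, smul_inv_smul]),
      mul_inv_rev, inv_inv, mul_smul, mul_smul, smul_inv_smul]

end PExt

open PExt

variable {G Z : Type} [Group G] [TopologicalSpace Z] [T2Space Z] [MulAction G Z]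
  [MeasurableSpace Z] [BorelSpace Z] {m n : ℕ} {Γ : Geo G Z m n}

theorem gext (h : Γ.Std) (hs : Γ.Sum) (hl : Γ.A.Loc Γ.ρ Γ.a Γ.b Γ.N) : Γ.Ext := by
  classical
  intro ι _ 𝒮 w a₁ a₃ ho hw h1 h2 h3
  have B := h.std.bas
  have I := h.inv
  obtain ⟨b₁, k1, k2⟩ := exists_between h3
  obtain ⟨b₂, k3, k4⟩ := exists_between k1
  obtain ⟨a₅, k5, k6⟩ := exists_between k3
  obtain ⟨a₄, k7, k8⟩ := exists_between k5
  obtain ⟨φ, φ1, φ2, φ3⟩ := exists_cut k8
  obtain ⟨sh, hsh⟩ := exists_sheet Γ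
  have cρ : ∀ z, ContinuousAt Γ.ρ z := fun z => B.sm_cont _ z (Γ.nbh.sm z)
  have sκ : ∀ z, Γ.A.Sm (φ ∘ Γ.ρ) z := fun z => (Γ.nbh.sm z).comp φ1.contDiffAt
  have ex0 : ∀ z, Γ.A.Ex 0 z := fun z => zero_smul ℝ (Γ.A.d fun _ => 0) ▸
    B.ex_smul 0 _ z (KA.ex_d (Eventually.of_forall (KA.sm_const 0)))
  have fin := (I.fin ι 𝒮 (fun i => Γ.A.sp1 (w i)) ho fun i hi =>
    ⟨(hw.1 i hi).2, fun g => by rw [hw.2 i hi g, I.sp1]⟩).1 _ (Γ.nbh.cpt b₁ k2)
  obtain ⟨F, hF⟩ : ∃ F : Finset ι, ∀ i, i ∈ F ↔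
      i ∈ 𝒮 ∧ (Γ.A.sp1 (w i) ∩ (Γ.N ∩ {z | Γ.ρ z ≤ b₁})).Nonempty :=
    ⟨fin.toFinset, fun i => fin.mem_toFinset⟩
  obtain ⟨X, X1, X2⟩ := exists_lin (W := F1 (Vx G m))
    { carrier := {a | ∀ z ∈ Γ.N, Γ.ρ z < b₂ → Γ.A.Ex a z}
      zero_mem' := fun z _ _ => ex0 z
      add_mem' := fun p q z i j => B.ex_add _ _ z (p z i j) (q z i j)
      smul_mem' := fun c _ p z i j => B.ex_smul c _ z (p z i j) }
    { carrier := {a | ∀ z ∈ Γ.N, a₃ ≤ Γ.ρ z → Γ.ρ z < b₂ → Γ.A.Eq1 a 0 z}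
      zero_mem' := fun _ _ _ _ _ _ => rfl
      add_mem' := fun p q z i j k l hl => by
        rw [Pi.add_apply, Pi.add_apply, p z i j k l hl, q z i j k l hl]
        exact add_zero _
      smul_mem' := fun c _ p z i j k l hl => by
        rw [Pi.smul_apply, Pi.smul_apply, p z i j k l hl]
        exact smul_zero _ }
  obtain ⟨u, hu⟩ : ∃ u : ι → F1 (Vx G m), ∀ j, u j = if j ∈ F then X (w j) else 0 :=
    ⟨_, fun _ => rfl⟩
  have u1 : ∀ j, ∀ z ∈ Γ.N, Γ.ρ z < b₂ → Γ.A.Ex (u j) z := fun j z i k => by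
    rw [hu]
    split_ifs
    exacts [X1 _ z i k, ex0 z]
  have u2 : ∀ j l x, u j l x ≠ 0 → j ∈ F := fun j l x k => by_contra fun i => k (by
    rw [hu, if_neg i]; rfl)
  refine ⟨cor Γ (φ ∘ Γ.ρ) sh w u, ⟨fun i hi => ⟨fun z => ?_, ?_⟩, fun i hi g =>
    cor_eqv hsh (fun z k => φ3 _ (by linarith)) (fun g z => congrArg φ (Γ.ρ_sm g z)) g
      (hw.2 i hi g)⟩, fun c hc hx => ?_⟩
  · rcases lt_or_ge (Γ.ρ z) b₂ with k | k
    · obtain ⟨g, hg, -⟩ := Γ.sheet z (by linarith)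
      have e := I.s1 g _ _ (B.ex_s1 _ _ (u1 (g⁻¹ • i) _ hg (by rwa [Γ.ρ_sm])))
      rw [smul_inv_smul] at e
      refine B.s1_congr _ _ z ((B.s1_sm1 _ _ z (sκ z) ((hw.1 i hi).1 z)).add
        (B.s1_sm1 _ _ z ((KA.sm_const 1 z).sub (sκ z)) e))
        ((ev_sheet hg).mono fun y hy l hl => ?_)
      rw [cor_val hl, hsh g y hy]
      simp only [Pi.add_apply, KA.sm1, act1, (Γ.A.e l).left_inv hl, Pi.sub_apply]
    · exact B.s1_congr _ _ z ((hw.1 i hi).1 z)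
        (((cρ z).eventually (lt_mem_nhds (k6.trans_le k))).mono fun y hy => cor_one (φ3 _ hy.le))
  · have f : {g : G | g⁻¹ • i ∈ F}.Finite := F.finite_toSet.preimage fun g _ g' _ e => by
      have := ho.free i hi (g' * g⁻¹) (by rw [mul_smul, show g⁻¹ • i = g'⁻¹ • i from e,
        smul_inv_smul])
      exact (mul_inv_eq_one.1 this).symm
    have cp : IsCompact (Γ.A.sp1 (w i) ∪ ⋃ g ∈ {g : G | g⁻¹ • i ∈ F},
        (fun z : Z => g • z) '' (Γ.N ∩ {z | Γ.ρ z ≤ a₅})) := (hw.1 i hi).2.union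
      (f.isCompact_biUnion fun g _ => (Γ.nbh.cpt a₅ (by linarith)).image (Γ.cont g))
    refine cp.of_isClosed_subset isClosed_closure (closure_minimal (fun z hz => ?_) cp.isClosed)
    by_contra k
    rw [mem_union, not_or] at k
    have k0 : Γ.A.Eq1 (w i) 0 z := by_contra fun j => k.1 (subset_closure j)
    rcases le_or_gt a₅ (Γ.ρ z) with j | j
    · exact hz ((cor_one (κ := φ ∘ Γ.ρ) (z := z) (φ3 _ j)).trans k0)
    · obtain ⟨g, hg, -⟩ := Γ.sheet z (by linarith)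
      refine hz fun l hl => ?_
      have : u (g⁻¹ • i) (g⁻¹ • l) (Γ.A.e l z) = 0 := by_contra fun e => k.2 (mem_biUnion
        (u2 _ _ _ e) ⟨g⁻¹ • z, ⟨hg, by simpa only [mem_ofPred_eq, Γ.ρ_sm] using j.le⟩,
          smul_inv_smul g z⟩)
      rw [cor_val hl, hsh g z hg, this, k0 l hl]
      simp
  obtain ⟨θ, hθ⟩ : ∃ θ : G → F1 (Vx G m), ∀ g, θ g = ∑ j ∈ F, c (g • j) • w j := ⟨_, fun _ => rfl⟩
  have mem : ∀ (g : G) z l j, g⁻¹ • z ∈ Γ.N → Γ.ρ z ≤ b₁ → z ∈ Γ.A.src l → c (g • j) ≠ 0 →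
      w (g • j) l (Γ.A.e l z) ≠ 0 → j ∈ F := fun g z l j p q r s t => by
    have i : j ∈ 𝒮 := inv_smul_smul g j ▸ ho.inv _ (hc _ s) g⁻¹
    refine (hF j).2 ⟨i, g⁻¹ • z, subset_closure fun e => t ?_, p, by
      simpa only [mem_ofPred_eq, Γ.ρ_sm] using q⟩
    have := (I.eq1 g _ _ _).2 e
    rw [smul_inv_smul, ← hw.2 j i g] at this
    exact this l r
  have s1 : ∀ (g : G) z, g⁻¹ • z ∈ Γ.N → Γ.ρ z ≤ b₁ → Γ.A.Eq1 (sumF c w) (act1 g (θ g)) z :=
    fun g z p q l r => by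
      rw [sumF_eq g F c w l _ fun j => mem g z l j p q r, hθ]
      simp only [act1, Finset.sum_apply, Pi.smul_apply]
      exact Finset.sum_congr rfl fun j hj => by rw [hw.2 j ((hF j).1 hj).1 g, act1]
  have s2 : ∀ (g : G) z, g⁻¹ • z ∈ Γ.N → Γ.ρ z ≤ b₁ → ∀ l, z ∈ Γ.A.src l →
      sumF c (cor Γ (φ ∘ Γ.ρ) sh w u) l (Γ.A.e l z) = φ (Γ.ρ z) • act1 g (θ g) l (Γ.A.e l z) +
        (1 - φ (Γ.ρ z)) • act1 g (X (θ g)) l (Γ.A.e l z) := fun g z p q l r => by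
    rw [sumF_eq g F c _ l _ fun j s t => by_contra fun i => t (by
      rw [cor_val r, hsh g z p, inv_smul_smul,
        (by_contra fun e => i (mem g z l j p q r s e) : w (g • j) l (Γ.A.e l z) = 0),
        (by_contra fun e => i (u2 _ _ _ e) : u j (g⁻¹ • l) (Γ.A.e l z) = 0)]
      simp), hθ, map_sum]
    simp only [act1, Finset.sum_apply, Pi.smul_apply, map_smul, Finset.smul_sum,
      ← Finset.sum_add_distrib]
    refine Finset.sum_congr rfl fun j hj => ?_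
    rw [cor_val r, hsh g z p, inv_smul_smul, hu, if_pos hj, hw.2 j ((hF j).1 hj).1 g, act1,
      smul_add, smul_comm (c _), smul_comm (c _)]
    rfl
  have s3 : ∀ g : G, ∀ y ∈ Γ.N, a₃ ≤ Γ.ρ y → Γ.ρ y < b₂ → Γ.A.Eq1 (X (θ g)) (θ g) y := fun g => by
    obtain ⟨θ', t1, t2⟩ := hl a₁ a₃ b₂ b₁ h1 h2 k3 k4 k2.le (θ g) fun y p q r => by
      have e := I.ex g⁻¹ _ _ (hx (g • y) (by rwa [Γ.ρ_sm]))
      rw [inv_smul_smul] at e
      refine B.ex_congr _ _ y e ?_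
      filter_upwards [Γ.nbh.op.mem_nhds p, (cρ y).eventually (gt_mem_nhds r)] with y' p' r'
      rw [← I.eq1 g, show act1 g (act1 g⁻¹ (sumF c w)) = sumF c w from funext fun l => by
        simp only [act1, inv_inv, smul_inv_smul]]
      exact (s1 g _ (by rwa [inv_smul_smul]) (by rw [Γ.ρ_sm]; exact r'.le)).symm
    exact fun y p q r l k => (sub_eq_zero.1 (X2 (θ g) θ' t1
      (fun y p q r l k => sub_eq_zero.2 (t2 y p q r l k).symm) y p q r l k)).symm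
  have s4 : ∀ z, a₃ ≤ Γ.ρ z → Γ.A.Eq1 (sumF c (cor Γ (φ ∘ Γ.ρ) sh w u)) (sumF c w) z :=
    fun z p l r => by
      rcases le_or_gt a₅ (Γ.ρ z) with j | j
      · exact finsum_congr fun i => congrArg (c i • ·) (cor_one (κ := φ ∘ Γ.ρ) (z := z) (φ3 _ j) l r)
      · obtain ⟨g, hg, -⟩ := Γ.sheet z (by linarith)
        have e := (I.eq1 g _ _ _).2 (s3 g _ hg (by rwa [Γ.ρ_sm]) (by rw [Γ.ρ_sm]; linarith))
        rw [smul_inv_smul] at e
        rw [s2 g z hg (by linarith) l r, s1 g z hg (by linarith) l r, e l r, ← add_smul,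
          add_sub_cancel, one_smul]
  refine ⟨fun z => ?_, s4⟩
  rcases lt_or_ge (Γ.ρ z) a₄ with k | k
  · obtain ⟨g, hg, -⟩ := Γ.sheet z (by linarith)
    have e := I.ex g _ _ (X1 (θ g) _ hg (by rw [Γ.ρ_sm]; linarith))
    rw [smul_inv_smul] at e
    refine B.ex_congr _ _ z e ?_
    filter_upwards [ev_sheet hg, (cρ z).eventually (gt_mem_nhds k)] with y p q l r
    rw [s2 g y p (by linarith) l r, φ2 _ q.le, zero_smul, zero_add, sub_zero, one_smul]
  · exact B.ex_congr _ _ z (hx z (by linarith))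
      (((cρ z).eventually (lt_mem_nhds (k7.trans_le k))).mono fun y hy => s4 y hy.le)

end Pool.Agent.Lib.MP_356dfe_ag.S
end
end

-- part Pool.Agent.Lib.MP_356dfe_ag.S.PBnd
section

/-! Bounds for families of currents. -/

set_option autoImplicit false

open Set Filter Topology Metric MeasureTheory
open scoped ContDiff ComplexConjugate Matrix Pointwise

noncomputable section

namespace Pool.Agent.Lib.MP_356dfe_ag.S

namespace PBnd

theorem unif {G ι : Type} [Group G] [MulAction G ι] {𝒮 : Set ι} (h : Orb G 𝒮)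
    {P : ι → ℝ → Prop} (h1 : ∀ i B B', B ≤ B' → P i B → P i B')
    (h2 : ∀ j ∈ 𝒮, ∃ B, ∀ g : G, P (g • j) B) : ∃ B, 0 ≤ B ∧ ∀ i ∈ 𝒮, P i B := by
  obtain ⟨F, hF⟩ := h.fin
  choose! B hB using h2
  refine ⟨∑ j ∈ F, |B j|, Finset.sum_nonneg fun _ _ => abs_nonneg _, fun i hi => ?_⟩
  obtain ⟨g, j, hj, rfl⟩ := hF i hi
  exact h1 _ _ _ ((le_abs_self _).trans (Finset.single_le_sum (f := fun j => |B j|)
    (fun _ _ => abs_nonneg _) hj)) (hB j (by simpa using h.inv _ hi g⁻¹) g)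

theorem opt {a P Q I : ℝ} (hI : 0 ≤ I) (h : ∀ t > 0, a ≤ t * P + I / t * Q) :
    a ≤ (P + Q) * √I := by
  rcases hI.eq_or_lt with rfl | hI
  · rw [Real.sqrt_zero, mul_zero]
    refine ge_of_tendsto (f := fun t : ℝ => t * P) (x := 𝓝[>] 0) ?_
      (eventually_mem_nhdsWithin.mono fun t ht => by simpa using h t ht)
    simpa using (tendsto_nhdsWithin_of_tendsto_nhds (tendsto_id (x := 𝓝 (0 : ℝ)))).mul_const P
  · have := h _ (Real.sqrt_pos.2 hI)
    rw [Real.div_sqrt] at this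
    linarith

theorem schur1 {ι ι' : Type} {R : ι → ι' → Prop} [∀ i j, Decidable (R i j)] {y : ι → ℝ} {k : ℝ}
    (hy : Summable fun i => y i ^ 2) (h : ∀ i, {j | R i j}.Finite ∧ ({j | R i j}.ncard : ℝ) ≤ k) :
    Summable fun p : ι × ι' => if R p.1 p.2 then y p.1 ^ 2 else 0 := by
  have e : ∀ i, HasSum (fun j => if R i j then y i ^ 2 else 0) ({j | R i j}.ncard * y i ^ 2) := by
    intro i
    have := hasSum_sum_of_ne_finset_zero (L := .unconditional ι') (s := (h i).1.toFinset)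
      (f := fun j => if R i j then y i ^ 2 else 0) fun j hj => if_neg (by simpa using hj)
    rwa [Finset.sum_congr rfl (g := fun _ => y i ^ 2) fun j hj => if_pos (by simpa using hj),
      Finset.sum_const, nsmul_eq_mul, ← ncard_eq_toFinset_card _ (h i).1] at this
  refine (summable_prod_of_nonneg fun p => by dsimp only [Pi.zero_apply]; positivity).2
    ⟨fun i => (e i).summable, ?_⟩
  simp only [(e _).tsum_eq]
  exact (hy.mul_left k).of_nonneg_of_le (fun _ => by positivity) fun i =>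
    mul_le_mul_of_nonneg_right (h i).2 (sq_nonneg _)

theorem schur {ι ι' : Type} {R : ι → ι' → Prop} {y : ι → ℝ} {x : ι' → ℝ} {β : ι → ι' → ℝ}
    {k k' C : ℝ} (hy : Summable fun i => y i ^ 2) (hx : Summable fun i => x i ^ 2)
    (h : ∀ i, {j | R i j}.Finite ∧ ({j | R i j}.ncard : ℝ) ≤ k)
    (h' : ∀ j, {i | R i j}.Finite ∧ ({i | R i j}.ncard : ℝ) ≤ k')
    (h1 : ∀ i j, R i j → |β i j| ≤ C) (h2 : ∀ i j, ¬ R i j → y i * x j * β i j = 0) :
    Summable fun p : ι × ι' => y p.1 * x p.2 * β p.1 p.2 := by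
  classical
  have a1 := schur1 hy h
  have a2 := (schur1 (R := fun j i => R i j) hx h').prod_symm
  refine ((a1.add a2).mul_left C).of_norm_bounded fun p => ?_
  by_cases hp : R p.1 p.2
  · simp only [Prod.fst_swap, Prod.snd_swap, if_pos hp, Real.norm_eq_abs, abs_mul]
    have b1 := h1 _ _ hp
    have b2 : |y p.1| * |x p.2| ≤ y p.1 ^ 2 + x p.2 ^ 2 := by
      nlinarith [sq_abs (y p.1), sq_abs (x p.2), sq_nonneg (|y p.1| - |x p.2|),
        mul_nonneg (abs_nonneg (y p.1)) (abs_nonneg (x p.2))]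
    rw [mul_comm]
    exact mul_le_mul b1 b2 (by positivity) ((abs_nonneg _).trans b1)
  · simp [h2 _ _ hp, hp]

/-- the carrier of a formal form -/
def Kc {Z : Type} [TopologicalSpace Z] (ξ : FF Z) : Set Z := ⋃ q ∈ ξ.support, tsupport q.1

variable {G Z : Type} [Group G] [TopologicalSpace Z] [T2Space Z] [MulAction G Z]
  [MeasurableSpace Z] [BorelSpace Z] {m n : ℕ} {Γ : Geo G Z m n}

omit [T2Space Z] [MeasurableSpace Z] [BorelSpace Z] in
theorem Kc_cpt {ξ : FF Z} {k : ℕ} (hξ : Γ.A.In univ k ξ) : IsCompact (Kc ξ) :=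
  ξ.support.isCompact_biUnion fun q hq => (hξ q hq).1.2

omit [T2Space Z] [BorelSpace Z] in
theorem Kc_smul (h : Γ.Std) {ξ : FF Z} {k : ℕ} (hξ : Γ.A.In univ k ξ) (g : G) :
    Kc (actF g ξ) = g • Kc ξ := by
  classical
  have a1 : Function.Injective (act0 g : (Z → ℝ) → Z → ℝ) := fun U V e => funext fun z => by
    simpa [act0] using congrFun e (g • z)
  have a2 : Function.Injective fun q : (Z → ℝ) × List (Z → ℝ) =>
      (act0 g q.1, q.2.map (act0 g)) := fun q q' e =>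
    Prod.ext (a1 (congrArg Prod.fst e)) (a1.list_map (congrArg Prod.snd e))
  rw [Kc, Kc, actF, Finsupp.mapDomain_support_of_injective a2, Finset.set_biUnion_finset_image,
    smul_set_iUnion₂]
  exact iUnion₂_congr fun q hq => (h.inv.dd g _ (hξ q hq).1).2

omit [T2Space Z] [BorelSpace Z] in
theorem N_cont (h : Γ.Std) {b : F1 (Vx G m)} (hb : ∀ z, Γ.A.S1 b z) : Continuous (Γ.A.N b) :=
  continuous_iff_continuousAt.2 fun z => h.std.bas.sm_cont _ z
    (h.std.bas.P_sm b b z (.of_forall fun w => ⟨hb w, hb w⟩))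

omit [T2Space Z] [BorelSpace Z] in
theorem N_nn (h : Γ.Std) (b : F1 (Vx G m)) (z : Z) : 0 ≤ Γ.A.N b z :=
  h.std.alg.n1_nn _ _ (h.std.bas.pd z)

omit [T2Space Z] [MeasurableSpace Z] [BorelSpace Z] in
theorem N_zero {b : F1 (Vx G m)} {z : Z} (hz : z ∉ Γ.A.sp1 b) : Γ.A.N b z = 0 := by
  have : Γ.A.Eq1 b 0 z := not_not.1 fun h => hz (subset_closure h)
  rw [KA.N, KA.P, this.v1]
  exact n1_zero _ _

omit [T2Space Z] [BorelSpace Z] in
theorem one_term (h : Γ.Std) {q : (Z → ℝ) × List (Z → ℝ)} (h1 : Γ.A.D q.1)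
    (h2 : q.2.length + 1 = 4) (h3 : ∀ p ∈ q.2, Γ.A.SM p) : ∃ B, ∀ b z,
    |q.1 z * Γ.A.Dt ([b] ++ q.2.map Γ.A.d) z| ≤ B * √(Γ.A.N b z) := by
  obtain ⟨U, L⟩ := q
  obtain ⟨p₁, p₂, p₃, rfl⟩ := List.length_eq_three.1 (by simpa using h2 : L.length = 3)
  have c : ∀ p ∈ [p₁, p₂, p₃], Continuous fun z => √(Γ.A.N (Γ.A.d p) z) := fun p hp =>
    (N_cont h fun z => h.std.bas.s1_d _ z (h3 p hp z)).sqrt
  have cU : Continuous U := continuous_iff_continuousAt.2 fun z => h.std.bas.sm_cont _ z (h1.1 z)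
  obtain ⟨B, hB⟩ := (cU.mul (((continuous_const (y := (16 : ℝ))).mul (c p₁ (by simp))).mul
    ((c p₂ (by simp)).mul (c p₃ (by simp))))).bounded_above_of_compact_support h1.2.mul_right
  refine ⟨B, fun b z => ?_⟩
  have a1 : |Γ.A.Dt ([b] ++ [p₁, p₂, p₃].map Γ.A.d) z| ≤ 16 * √(Γ.A.N b z) *
      √(Γ.A.N (Γ.A.d p₁) z) * √(Γ.A.N (Γ.A.d p₂) z) * √(Γ.A.N (Γ.A.d p₃) z) :=
    h.std.alg.had _ _ _ _ _ (h.std.bas.pd z)
  have a2 := hB z
  rw [Real.norm_eq_abs, Pi.mul_apply, abs_mul, abs_of_nonneg (a := (_ * _ : Z → ℝ) z)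
    (by simp only [Pi.mul_apply]; positivity)] at a2
  simp only [Pi.mul_apply] at a2
  rw [abs_mul]
  refine (mul_le_mul_of_nonneg_left a1 (abs_nonneg _)).trans (le_of_eq_of_le (by ring)
    (mul_le_mul_of_nonneg_right a2 (Real.sqrt_nonneg _)))

theorem one_form (h : Γ.Std) {ξ : FF Z} (hξ : Γ.A.In univ 1 ξ) : ∃ B, ∀ b, (∀ z, Γ.A.S1 b z) →
    |Γ.A.ev ξ 1 [b]| ≤ B * ∫ z in Kc ξ, √(Γ.A.N b z) ∂Γ.A.μ := by
  have := h.std.meas.fin
  choose! B hB using fun q hq => one_term h (hξ q hq).1 (hξ q hq).2.2.1 (hξ q hq).2.2.2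
  refine ⟨∑ q ∈ ξ.support, |ξ q| * B q, fun b hb => ?_⟩
  rw [(h.evl.val _ _ ξ 1 [b] hξ (KA.sm_const 1) (by simpa using hb)).2,
    ← setIntegral_eq_integral_of_forall_compl_eq_zero (s := Kc ξ), ← integral_const_mul]
  · rw [← Real.norm_eq_abs]
    refine norm_integral_le_of_norm_le (Integrable.const_mul
      ((N_cont h hb).sqrt.continuousOn.integrableOn_compact (μ := Γ.A.μ) (Kc_cpt hξ)) _)
      (.of_forall fun z => ?_)
    rw [Pi.one_apply, one_mul, KA.val, Finsupp.sum, Finset.sum_mul]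
    refine (norm_sum_le _ _).trans (Finset.sum_le_sum fun q hq => ?_)
    rw [Real.norm_eq_abs, abs_mul, mul_assoc]
    exact mul_le_mul_of_nonneg_left (hB q hq b z) (abs_nonneg _)
  · refine fun z hz => mul_eq_zero_of_right _ (Finset.sum_eq_zero fun q hq => ?_)
    exact mul_eq_zero_of_right _ (mul_eq_zero_of_left
      (image_eq_zero_of_notMem_tsupport fun h' => hz (mem_biUnion hq h')) _)

theorem int_smul (h : Γ.Std) (g : G) {K : Set Z} (hK : IsCompact K) (F : Z → ℝ) :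
    ∫ z in g • K, F z ∂Γ.A.μ = ∫ z in K, F (g • z) ∂Γ.A.μ := by
  rw [← integral_indicator hK.measurableSet, ← integral_indicator
    (show IsCompact (g • K) from hK.image (Γ.cont g)).measurableSet, ← h.invm.int g]
  refine integral_congr_ae (.of_forall fun z => ?_)
  by_cases hz : z ∈ K
  · simp only [indicator_of_mem hz, indicator_of_mem (smul_mem_smul_set (a := g) hz)]
  · simp only [indicator_of_notMem hz,
      indicator_of_notMem (mt (smul_mem_smul_set_iff (a := g)).1 hz)]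

variable {ι : Type} [MulAction G ι] {𝒮 : Set ι} {ξ : ι → FF Z}

theorem est (h : Γ.Std) (ho : Orb G 𝒮)
    (hξ : ∀ i ∈ 𝒮, Γ.A.In univ 1 (ξ i) ∧ ∀ g : G, ξ (g • i) = actF g (ξ i)) :
    ∃ B, 0 ≤ B ∧ ∀ i ∈ 𝒮, Γ.A.μ.real (Kc (ξ i)) ≤ B ∧ ∀ b, (∀ z, Γ.A.S1 b z) →
      |Γ.A.ev (ξ i) 1 [b]| ≤ B * ∫ z in Kc (ξ i), √(Γ.A.N b z) ∂Γ.A.μ := by
  have mono : ∀ i B B', B ≤ B' → (∀ b, (∀ z, Γ.A.S1 b z) →
      |Γ.A.ev (ξ i) 1 [b]| ≤ B * ∫ z in Kc (ξ i), √(Γ.A.N b z) ∂Γ.A.μ) → ∀ b, (∀ z, Γ.A.S1 b z) →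
      |Γ.A.ev (ξ i) 1 [b]| ≤ B' * ∫ z in Kc (ξ i), √(Γ.A.N b z) ∂Γ.A.μ := fun i B B' e h b hb =>
    (h b hb).trans (mul_le_mul_of_nonneg_right e (integral_nonneg fun _ => Real.sqrt_nonneg _))
  refine unif ho (fun i B B' e h => ⟨h.1.trans e, mono i B B' e h.2⟩) fun j hj => ?_
  obtain ⟨h1, h2⟩ := hξ j hj
  obtain ⟨B, hB⟩ := one_form h h1
  refine ⟨max B (Γ.A.μ.real (Kc (ξ j))), fun g => ⟨le_max_of_le_right (le_of_eq ?_),
    mono _ B _ (le_max_left _ _) fun b hb => ?_⟩⟩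
  · simpa [h2, Kc_smul h h1] using int_smul h g (Kc_cpt h1) fun _ => 1
  · have a1 : ∀ z, Γ.A.S1 (act1 g⁻¹ b) z := fun z => by
      simpa using h.inv.s1 g⁻¹ b _ (hb (g • z))
    have a2 : ∀ z, Γ.A.N (act1 g⁻¹ b) z = Γ.A.N b (g • z) := fun z => by
      simpa using h.inv.N g⁻¹ b _ (hb (g • z)).1
    have a3 : act1 g (act1 g⁻¹ b) = b := funext fun l => by simp [act1]
    have a4 := h.invm.ev g _ _ (ξ j) 1 [act1 g⁻¹ b] h1 (by simpa using fun z => (a1 z).1)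
    rw [List.map_singleton, a3, show act0 g (1 : Z → ℝ) = 1 from rfl] at a4
    rw [h2, Kc_smul h h1, int_smul h g (Kc_cpt h1)]
    simpa only [a2, ← a4] using hB _ a1

omit [T2Space Z] [BorelSpace Z] in
theorem nbr (h : Γ.Std) {ι' : Type} [MulAction G ι'] {𝒮' : Set ι'} (ho : Orb G 𝒮)
    (ho' : Orb G 𝒮') {K : ι → Set Z} {K' : ι' → Set Z}
    (hK : ∀ i ∈ 𝒮, IsCompact (K i) ∧ ∀ g : G, K (g • i) = g • K i)
    (hK' : ∀ i ∈ 𝒮', IsCompact (K' i) ∧ ∀ g : G, K' (g • i) = g • K' i) : ∃ k : ℝ, ∀ i,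
      {j | i ∈ 𝒮 ∧ j ∈ 𝒮' ∧ (K i ∩ K' j).Nonempty}.Finite ∧
      ({j | i ∈ 𝒮 ∧ j ∈ 𝒮' ∧ (K i ∩ K' j).Nonempty}.ncard : ℝ) ≤ k := by
  obtain ⟨a1, a2⟩ := h.inv.fin ι' 𝒮' K' ho' hK'
  obtain ⟨k, a3, a4⟩ := unif (P := fun i B => ({j ∈ 𝒮' | (K' j ∩ K i).Nonempty}.ncard : ℝ) ≤ B) ho
    (fun i B B' e h => h.trans e) fun j hj => let ⟨k, hk⟩ := a2 _ (hK j hj).1
      ⟨k, fun g => (hK j hj).2 g ▸ Nat.cast_le.2 (hk g)⟩
  refine ⟨k, fun i => ?_⟩
  by_cases hi : i ∈ 𝒮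
  · simp only [hi, true_and, inter_comm (K i)]
    exact ⟨a1 _ (hK i hi).1, a4 i hi⟩
  · simpa [hi] using a3

theorem cover (h : Γ.Std) (ho : Orb G 𝒮) {K : ι → Set Z}
    (hK : ∀ i ∈ 𝒮, IsCompact (K i) ∧ ∀ g : G, K (g • i) = g • K i) : ∃ k : ℝ, ∀ F : Z → ℝ,
      (∀ z, 0 ≤ F z) → Integrable F Γ.A.μ → ∀ u : Finset ι, (∀ i ∈ u, i ∈ 𝒮) →
        ∑ i ∈ u, ∫ z in K i, F z ∂Γ.A.μ ≤ k * ∫ z, F z ∂Γ.A.μ := by
  classical
  obtain ⟨a1, a2⟩ := h.inv.fin ι 𝒮 K ho hK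
  obtain ⟨C, hC, a3⟩ := h.inv.cocpt
  obtain ⟨k, hk⟩ := a2 C hC
  refine ⟨k, fun F h0 hF u hu => ?_⟩
  rw [Finset.sum_congr rfl fun i hi => (integral_indicator (hK i (hu i hi)).1.measurableSet).symm,
    ← integral_finsetSum _ fun i hi => hF.indicator (hK i (hu i hi)).1.measurableSet,
    ← integral_const_mul]
  refine integral_mono (integrable_finsetSum _ fun i hi =>
    hF.indicator (hK i (hu i hi)).1.measurableSet) (hF.const_mul _) fun z => ?_
  obtain ⟨g, hg⟩ := a3 z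
  simp only [indicator_apply]
  rw [← Finset.sum_filter, Finset.sum_const, nsmul_eq_mul]
  refine mul_le_mul_of_nonneg_right (Nat.cast_le.2 (le_trans ?_ (hk g))) (h0 z)
  rw [← ncard_coe_finset]
  refine ncard_le_ncard (fun i hi => ?_) (a1 _ (hC.image (Γ.cont g)))
  have := Finset.mem_filter.1 hi
  exact ⟨hu i this.1, z, this.2, hg⟩

end PBnd

variable {G Z : Type} [Group G] [TopologicalSpace Z] [T2Space Z] [MulAction G Z]
  [MeasurableSpace Z] [BorelSpace Z] {m n : ℕ} {Γ : Geo G Z m n}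

open PBnd in
theorem bnd (h : Γ.Std) (hs : Γ.Sum) : Γ.Bnd := by
  classical
  intro ι _ 𝒮 ξ y ho hξ hy hy2
  have := h.std.meas.fin
  obtain ⟨B, hB0, hB⟩ := est h ho hξ
  have hK : ∀ i ∈ 𝒮, IsCompact (Kc (ξ i)) ∧ ∀ g : G, Kc (ξ (g • i)) = g • Kc (ξ i) := fun i hi =>
    ⟨Kc_cpt (hξ i hi).1, fun g => by rw [(hξ i hi).2, Kc_smul h (hξ i hi).1]⟩
  constructor
  · obtain ⟨k, hk⟩ := cover h ho hK
    refine ⟨B * B * ∑' i, y i ^ 2 + B * k, fun b hb hi => ?_⟩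
    have key : ∀ u : Finset ι, ∑ i ∈ u, ‖y i * Γ.A.ev (ξ i) 1 [b]‖ ≤
        (B * B * ∑' i, y i ^ 2 + B * k) * √(∫ z, Γ.A.N b z ∂Γ.A.μ) := fun u => by
      refine opt (integral_nonneg (N_nn h b)) fun t ht => ?_
      rw [← Finset.sum_filter_of_ne (p := (· ∈ 𝒮)) fun i _ e => hy i
        (left_ne_zero_of_mul (norm_ne_zero_iff.1 e))]
      have a1 : ∀ i ∈ u.filter (· ∈ 𝒮), ‖y i * Γ.A.ev (ξ i) 1 [b]‖ ≤ t * (B * B) * y i ^ 2 +
          B / t * ∫ z in Kc (ξ i), Γ.A.N b z ∂Γ.A.μ := fun i hi' => by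
        have hi' := (Finset.mem_filter.1 hi').2
        have c := (hK i hi').1
        have b0 : Integrable (fun _ => t * y i ^ 2) (Γ.A.μ.restrict (Kc (ξ i))) :=
          integrableOn_const c.measure_lt_top.ne
        have b1 : ∫ z in Kc (ξ i), |y i| * √(Γ.A.N b z) ∂Γ.A.μ ≤
            ∫ z in Kc (ξ i), (t * y i ^ 2 + t⁻¹ * Γ.A.N b z) ∂Γ.A.μ := by
          refine integral_mono (((N_cont h hb).sqrt.continuousOn.integrableOn_compact
            c).const_mul _) (b0.add (hi.integrableOn.const_mul _)) fun z => ?_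
          have d1 := Real.sq_sqrt (N_nn h b z)
          have d2 : 0 ≤ t⁻¹ * (t * |y i| - √(Γ.A.N b z)) ^ 2 := by positivity
          have d3 : 0 ≤ |y i| * √(Γ.A.N b z) := by positivity
          have d4 : t⁻¹ * (t * |y i| - √(Γ.A.N b z)) ^ 2 = t * |y i| ^ 2 +
            t⁻¹ * √(Γ.A.N b z) ^ 2 - 2 * (|y i| * √(Γ.A.N b z)) := by field_simp; ring
          rw [d4, d1, sq_abs] at d2
          dsimp only
          linarith
        rw [integral_const_mul, integral_add b0 (hi.integrableOn.const_mul _),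
          integral_const_mul _ (Γ.A.N b), setIntegral_const,
          smul_eq_mul] at b1
        have b2 := mul_le_mul_of_nonneg_left ((hB i hi').2 b hb) (abs_nonneg (y i))
        have b3 := mul_le_mul_of_nonneg_left b1 hB0
        have b4 := mul_le_mul_of_nonneg_right (hB i hi').1
          (show 0 ≤ B * (t * y i ^ 2) by positivity)
        rw [Real.norm_eq_abs, abs_mul, div_eq_mul_inv]
        linarith
      refine (Finset.sum_le_sum a1).trans ?_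
      rw [Finset.sum_add_distrib, ← Finset.mul_sum, ← Finset.mul_sum]
      have a2 := mul_le_mul_of_nonneg_left (hy2.sum_le_tsum (u.filter (· ∈ 𝒮))
        fun _ _ => sq_nonneg _) (show 0 ≤ t * (B * B) by positivity)
      have a3 := mul_le_mul_of_nonneg_left (hk _ (N_nn h b) hi (u.filter (· ∈ 𝒮))
        fun i hi => (Finset.mem_filter.1 hi).2) (show 0 ≤ B / t by positivity)
      exact (add_le_add a2 a3).trans_eq (by ring)
    have a := summable_of_sum_le (fun _ => norm_nonneg _) key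
    exact ⟨a.of_norm, (norm_tsum_le_tsum_norm a).trans (a.tsum_le_of_sum_le key)⟩
  · intro ι' _ 𝒮' w x ho' hw hx hx2
    have hK' : ∀ i ∈ 𝒮', IsCompact (Γ.A.sp1 (w i)) ∧
        ∀ g : G, Γ.A.sp1 (w (g • i)) = g • Γ.A.sp1 (w i) := fun i hi =>
      ⟨(hw.1 i hi).2, fun g => by rw [hw.2 i hi, h.inv.sp1]⟩
    obtain ⟨k, hk⟩ := nbr h ho ho' hK hK'
    obtain ⟨k', hk'⟩ := nbr h ho' ho hK' hK
    obtain ⟨B', hB0', hB'⟩ := unif (P := fun j B => ∀ z, ‖√(Γ.A.N (w j) z)‖ ≤ B) ho'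
      (fun i B B' e h z => (h z).trans e) fun j hj => by
        obtain ⟨C, hC⟩ := (N_cont h (hw.1 j hj).1).sqrt.bounded_above_of_compact_support
          (HasCompactSupport.intro (hw.1 j hj).2 fun z hz => by rw [N_zero hz, Real.sqrt_zero])
        refine ⟨C, fun g z => ?_⟩
        rw [hw.2 j hj, ← smul_inv_smul g z, h.inv.N g _ _ ((hw.1 j hj).1 _).1]
        exact hC _
    have z0 : ∀ i ∈ 𝒮, ∀ j, ¬ (i ∈ 𝒮 ∧ j ∈ 𝒮' ∧ (Kc (ξ i) ∩ Γ.A.sp1 (w j)).Nonempty) →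
        x j * Γ.A.ev (ξ i) 1 [w j] = 0 := fun i hi j hn => by
      by_cases hj : j ∈ 𝒮'
      · have := (hB i hi).2 _ (hw.1 j hj).1
        rw [setIntegral_eq_zero_of_forall_eq_zero fun z hz => by
          rw [N_zero fun hz' => hn ⟨hi, hj, z, hz, hz'⟩, Real.sqrt_zero], mul_zero] at this
        exact mul_eq_zero_of_right _ (abs_nonpos_iff.1 this)
      · exact mul_eq_zero_of_left (not_not.1 (mt (hx j) hj)) _
    have a := schur (β := fun i j => Γ.A.ev (ξ i) 1 [w j]) (C := B * (B' * B)) hy2 hx2 hk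
      (fun j => by simpa only [and_left_comm, inter_comm] using hk' j)
      (fun i j ⟨hi, hj, _⟩ => ((hB i hi).2 _ (hw.1 j hj).1).trans (mul_le_mul_of_nonneg_left
        ((le_abs_self _).trans ((norm_setIntegral_le_of_norm_le_const (hK i hi).1.measure_lt_top
          fun z _ => hB' j hj z).trans (mul_le_mul_of_nonneg_left (hB i hi).1 hB0'))) hB0))
      fun i j hn => by
        by_cases hi : i ∈ 𝒮
        · rw [mul_assoc, z0 i hi j hn, mul_zero]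
        · rw [not_not.1 (mt (hy i) hi), zero_mul, zero_mul]
    refine a.hasSum.trans_eq (congrArg 𝓝 (a.tsum_prod.trans (tsum_congr fun i => ?_)))
    by_cases hi : i ∈ 𝒮
    swap
    · simp [not_not.1 (mt (hy i) hi)]
    simp only [mul_assoc, tsum_mul_left]
    congr 1
    rw [tsum_eq_sum (s := (hk i).1.toFinset) fun j hj => z0 i hi j (by simpa using hj)]
    refine (h.evl.sum ι' _ x w _ _ _ (ξ i) 1 [] [] (hξ i hi).1 (KA.sm_const 1) (by simp)
      (fun j hj => (hw.1 j ((hk i).1.mem_toFinset.1 hj).2.1).1) fun q hq z hz l hl => ?_).symm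
    rw [Finset.sum_apply, Finset.sum_apply]
    refine finsum_eq_sum_of_support_subset _ fun j hj => (hk i).1.mem_toFinset.2
      ⟨hi, hx j (left_ne_zero_of_smul hj), z, mem_biUnion hq hz, subset_closure fun e => ?_⟩
    exact right_ne_zero_of_smul hj (e l hl)

end Pool.Agent.Lib.MP_356dfe_ag.S
end
end
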