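import Pool.Agent.Lib.MP_356dfe_ag.S.Basic

-- part Pool.Agent.Lib.MP_356dfe_ag.S.PConc
section

/-! No concentration along the curve. -/

set_option autoImplicit false

open Set Filter Topology Metric MeasureTheory
open scoped ContDiff ComplexConjugate Matrix Pointwise

noncomputable section

namespace Pool.Agent.Lib.MP_356dfe_ag.S

variable {Z Λ : Type} [TopologicalSpace Z] [T2Space Z] [MeasurableSpace Z] [BorelSpace Z]
  {A : KA Z Λ}

namespace PConc

theorem du_congr {u v : E2 → ℝ} {x : E2} (e : u =ᶠ[𝓝 x] v) : du u x = du v x := by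
  have : (fun y => (u y : ℂ)) =ᶠ[𝓝 x] fun y => (v y : ℂ) := e.mono fun y hy => by simp only [hy]
  funext j
  simp only [du, dh, this.fderiv_eq]

theorem dba_congr {a b : E2 → E2} {x : E2} (e : a =ᶠ[𝓝 x] b) : dba a x = dba b x := by
  ext j k
  have : (fun y => a y j) =ᶠ[𝓝 x] fun y => b y j := e.mono fun y hy => by simp only [hy]
  simp only [dba, Matrix.of_apply, db, this.fderiv_eq]

theorem lev_congr {u v : E2 → ℝ} {x : E2} (e : u =ᶠ[𝓝 x] v) : lev u x = lev v x :=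
  dba_congr (e.eventuallyEq_nhds.mono fun _ hy => du_congr hy)

theorem sm_nsq : ContDiff ℝ ∞ fun w : ℂ => Complex.normSq w := by
  simp only [Complex.normSq_eq_norm_sq]
  exact contDiff_norm_sq ℝ

theorem lev_log (c : Calc) (s : Finset (Fin 2)) {η u : E2 → ℝ} {x : E2}
    (hη : ContDiffAt ℝ ∞ η x) (hx : ∀ k ∈ s, x k ≠ 0)
    (e : ∀ᶠ y in 𝓝 x, u y = Real.log ((∏ k ∈ s, Complex.normSq (y k)) * Real.exp (η y))) :
    lev u x = lev η x := by
  set f : E2 → ℂ := fun y => ∏ k ∈ s, y k with hf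
  have an : ∀ y, AnalyticAt ℂ f y := fun y =>
    Finset.analyticAt_fun_prod s fun k _ =>
      (ContinuousLinearMap.proj (R := ℂ) (φ := fun _ : Fin 2 => ℂ) k).analyticAt y
  have h0 : f x ≠ 0 := Finset.prod_ne_zero_iff.2 hx
  have h1 : ∀ᶠ y in 𝓝 x, f y ≠ 0 := (an x).continuousAt.eventually_ne h0
  have e1 : u =ᶠ[𝓝 x] fun y => Real.log (Complex.normSq (f y)) + η y := by
    filter_upwards [e, h1] with y hy hy'
    rw [hy, ← map_prod, Real.log_mul (Complex.normSq_pos.2 hy').ne' (Real.exp_ne_zero _),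
      Real.log_exp]
  have hb : DifferentiableAt ℂ (fun y j => fderiv ℂ f y (Pi.single j 1) / f y) x :=
    differentiableAt_pi.2 fun j => by
      simp only [div_eq_mul_inv]
      exact ((an x).fderiv.differentiableAt.clm_apply (differentiableAt_const _)).mul
        ((an x).differentiableAt.inv h0)
  have e2 : du u =ᶠ[𝓝 x] fun y => (fun j => fderiv ℂ f y (Pi.single j 1) / f y) + du η y := by
    filter_upwards [e1.eventuallyEq_nhds, h1,
      (hη.of_le (m := 1) (by exact_mod_cast le_top)).eventually (by simp)] with y hy hy' hy''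
    have hd : DifferentiableAt ℝ (fun y => Real.log (Complex.normSq (f y))) y :=
      DifferentiableAt.log ((sm_nsq.differentiable (by simp) _).comp y
        ((an y).differentiableAt.restrictScalars ℝ)) (by simpa using hy')
    rw [du_congr hy, c.du_add _ _ _ hd (hy''.differentiableAt (by simp)),
      c.du_log _ _ (an y).differentiableAt hy']
    simp only [(c.dh_hol _ _ (an y).differentiableAt _).1]
  rw [lev, dba_congr e2, c.dba_add _ _ _ (hb.restrictScalars ℝ)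
    ((c.sm_du _ _ hη).differentiableAt (by simp)), c.dba_hol _ _ hb, zero_add, lev]

omit [T2Space Z] [MeasurableSpace Z] [BorelSpace Z]

theorem ev_ball {l : Λ} {z : Z} (hl : z ∈ A.src l) : ∀ᶠ x in 𝓝 (A.e l z), x ∈ ball (0 : E2) 4 :=
  isOpen_ball.mem_nhds (A.map_src hl)

theorem ev_src {l : Λ} {z : Z} (hl : z ∈ A.src l) : ∀ᶠ w in 𝓝 z, w ∈ A.src l :=
  (A.e l).open_source.mem_nhds hl

theorem cl2_congr {S T : F2 Λ} {z : Z} (hT : A.Cl2 T z)
    (e : ∀ᶠ w in 𝓝 z, ∀ l, w ∈ A.src l → S l (A.e l w) = T l (A.e l w)) : A.Cl2 S z := by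
  have e0 := e.self_of_nhds
  have e1 : ∀ l, z ∈ A.src l → ∀ j k, (fun x => S l x j k) =ᶠ[𝓝 (A.e l z)] fun x => T l x j k :=
    fun l hl j k => by
      filter_upwards [A.ev_symm hl e, ev_ball hl] with x hx hx'
      have := hx l (A.symm_mem l hx')
      rw [A.e_symm l hx'] at this
      rw [this]
  refine ⟨⟨fun l l' hl hl' => ?_, fun l hl j k => ?_⟩, fun l hl => ⟨?_, fun k => ?_⟩⟩
  · rw [e0 l hl, e0 l' hl']; exact hT.1.1 l l' hl hl'
  · exact (hT.1.2 l hl j k).congr_of_eventuallyEq (e1 l hl j k)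
  · rw [e0 l hl]; exact (hT.2 l hl).1
  · have := (hT.2 l hl).2 k
    simp only [dh, (e1 l hl _ _).fderiv_eq] at this ⊢
    exact this

theorem bd_congr (b : A.Bas) {U V : Z → ℝ} {z : Z} {c c' : ℝ}
    (e : ∀ᶠ w in 𝓝 z, U w = c * V w + c') {l : Λ} (hl : z ∈ A.src l) :
    bar (A.d U) l (A.e l z) = c • bar (A.d V) l (A.e l z) := by
  rw [b.bar_congr _ _ z (b.d_congr U (c • V) z c' e) l hl, b.d_smul, b.bar_smul]
  rfl

theorem v2_mul (b : A.Bas) {U V : Z → ℝ} {z : Z} (e : ∀ᶠ w in 𝓝 z, A.Sm U w ∧ A.Sm V w) :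
    A.v2 (bar (A.d (U * V))) z = U z • A.v2 (bar (A.d V)) z + ot (A.v1 (A.d V) z) (A.v1 (A.d U) z) +
      (V z • A.v2 (bar (A.d U)) z + ot (A.v1 (A.d U) z) (A.v1 (A.d V) z)) := by
  obtain ⟨hU, hV⟩ := e.self_of_nhds
  rw [← b.bar_sm1 _ _ _ hU (b.s1_d _ _ hV), ← b.bar_sm1 _ _ _ hV (b.s1_d _ _ hU),
    ← b.bar_add _ _ _ (b.s1_sm1 _ _ _ hU (b.s1_d _ _ hV)) (b.s1_sm1 _ _ _ hV (b.s1_d _ _ hU))]
  exact b.bar_congr _ _ z (e.mono fun w hw => b.d_mul _ _ w hw.1 hw.2) _ (A.mem_i z)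

theorem d_chain (c : Calc) {U : Z → ℝ} {z : Z} (hU : A.Sm U z) {φ : ℝ → ℝ}
    (hφ : ContDiff ℝ ∞ φ) : A.Eq1 (A.d (φ ∘ U)) (A.sm1 (deriv φ ∘ U) (A.d U)) z := fun l hl =>
  c.du_chain φ (U ∘ (A.e l).symm) _ (hφ.differentiable (by simp) _)
    ((hU l hl).differentiableAt (by simp))

theorem v2_chain (c : Calc) (b : A.Bas) {U : Z → ℝ} {z : Z} (e : ∀ᶠ w in 𝓝 z, A.Sm U w)
    {φ : ℝ → ℝ} (hφ : ContDiff ℝ ∞ φ) :
    A.v2 (bar (A.d (φ ∘ U))) z = deriv φ (U z) • A.v2 (bar (A.d U)) z +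
      deriv (deriv φ) (U z) • ot (A.v1 (A.d U) z) (A.v1 (A.d U) z) := by
  have hU := e.self_of_nhds
  have hφ' : ContDiff ℝ ∞ (deriv φ) := (contDiff_infty_iff_deriv.1 hφ).2
  have := b.bar_sm1 _ _ _ (hU.comp hφ'.contDiffAt) (b.s1_d _ _ hU)
  rw [(d_chain c hU hφ').v1, A.v1_sm1, ot_smul] at this
  rw [← Function.comp_apply (f := deriv φ), ← Function.comp_apply (f := deriv (deriv φ)), ← this]
  exact b.bar_congr _ _ z (e.mono fun w hw => d_chain c hw hφ) _ (A.mem_i z)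

variable {η : Λ → E2 → ℝ} {ϱ : Z → ℝ}

theorem eta_sm (hr : A.IsRho η ϱ) {l : Λ} {z : Z} (hl : z ∈ A.src l) :
    ContDiffAt ℝ ∞ (η l) (A.e l z) := (hr.1 l).contDiffAt (ev_ball hl)

theorem rho_ev (hr : A.IsRho η ϱ) {l : Λ} {z : Z} (hl : z ∈ A.src l) :
    ∀ᶠ x in 𝓝 (A.e l z), ϱ ((A.e l).symm x) =
      (∏ k ∈ A.act (A.ty l), Complex.normSq (x k)) * Real.exp (η l x) :=
  (ev_ball hl).mono fun x hx => by rw [hr.2 l _ (A.symm_mem l hx), A.e_symm l hx]

theorem rho_sm (hr : A.IsRho η ϱ) (z : Z) : A.Sm ϱ z := fun _ hl =>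
  ContDiffAt.congr_of_eventuallyEq ((contDiffAt_prod fun k _ =>
    (sm_nsq.comp (contDiff_apply ℝ ℂ k)).contDiffAt).mul (eta_sm hr hl).exp) (rho_ev hr hl)

theorem rho_nn (hr : A.IsRho η ϱ) (z : Z) : 0 ≤ ϱ z := by
  rw [hr.2 _ z (A.mem_i z)]
  exact mul_nonneg (Finset.prod_nonneg fun _ _ => Complex.normSq_nonneg _) (Real.exp_pos _).le

theorem rho_pos (hr : A.IsRho η ϱ) {z : Z} (hz : z ∉ A.E) : 0 < ϱ z := by
  rw [hr.2 _ z (A.mem_i z)]
  exact mul_pos (Finset.prod_pos fun k hk => Complex.normSq_pos.2 fun h0 =>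
    hz ((A.hE _ z (A.mem_i z)).2 ⟨k, hk, h0⟩)) (Real.exp_pos _)

theorem lam_sm (hr : A.IsRho η ϱ) {z : Z} (hz : z ∉ A.E) : A.Sm (Real.log ∘ ϱ) z :=
  (rho_sm hr z).comp (Real.contDiffAt_log.2 (rho_pos hr hz).ne')

theorem lam_ev (hE : IsClosed A.E) (hr : A.IsRho η ϱ) {z : Z} (hz : z ∉ A.E) :
    ∀ᶠ w in 𝓝 z, A.Sm (Real.log ∘ ϱ) w :=
  mem_of_superset (hE.isOpen_compl.mem_nhds hz) fun _ hw => lam_sm hr hw

theorem bar_lam (c : Calc) (hr : A.IsRho η ϱ) {l : Λ} {z : Z} (hz : z ∉ A.E) (hl : z ∈ A.src l) :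
    bar (A.d (Real.log ∘ ϱ)) l (A.e l z) = lev (η l) (A.e l z) :=
  lev_log c (A.act (A.ty l)) (eta_sm hr hl) (fun k hk h0 => hz ((A.hE l z hl).2 ⟨k, hk, h0⟩))
    ((rho_ev hr hl).mono fun _ hx => congrArg Real.log hx)

theorem v_ev {l : Λ} {z : Z} (hl : z ∈ A.src l) :
    (η l ∘ A.e l) ∘ (A.e l).symm =ᶠ[𝓝 (A.e l z)] η l :=
  (ev_ball hl).mono fun _ hx => congrArg (η l) (A.e_symm l hx)

theorem v_sm (b : A.Bas) (hr : A.IsRho η ϱ) {l : Λ} {z : Z} (hl : z ∈ A.src l) :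
    ∀ᶠ w in 𝓝 z, A.Sm (η l ∘ A.e l) w :=
  (ev_src hl).mono fun w hw => b.sm_of _ w l hw ((eta_sm hr hw).congr_of_eventuallyEq (v_ev hw))

theorem bar_v (c : Calc) (b : A.Bas) (u : A.Bump) (hr : A.IsRho η ϱ) {l l' : Λ} {z : Z}
    (hl : z ∈ A.src l) (hl' : z ∈ A.src l') :
    bar (A.d (η l ∘ A.e l)) l' (A.e l' z) = lev (η l') (A.e l' z) := by
  have off : ∀ᶠ w in 𝓝[A.Eᶜ] z,
      bar (A.d (η l ∘ A.e l)) l' (A.e l' w) = lev (η l') (A.e l' w) := by
    filter_upwards [nhdsWithin_le_nhds (ev_src hl), nhdsWithin_le_nhds (ev_src hl'),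
      self_mem_nhdsWithin] with w h1 h2 hw
    have e : bar (A.d (η l ∘ A.e l)) l (A.e l w) = lev (η l) (A.e l w) := lev_congr (v_ev h1)
    rw [(b.cl2_bar _ w (KA.ex_d (v_sm b hr h1))).1.1 l' l h2 h1, e, ← bar_lam c hr hw h1,
      ← (b.cl2_bar _ w (KA.ex_d (lam_ev u.clE hr hw))).1.1 l' l h2 h1, bar_lam c hr hw h2]
  have := mem_closure_iff_nhdsWithin_neBot.1 (u.dense z)
  have t : Tendsto (A.e l') (𝓝[A.Eᶜ] z) (𝓝 (A.e l' z)) :=
    ((A.e l').continuousAt hl').tendsto.mono_left nhdsWithin_le_nhds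
  ext j k
  exact tendsto_nhds_unique_of_eventuallyEq
    (((b.cl2_bar _ z (KA.ex_d (v_sm b hr hl))).1.2 l' hl' j k).continuousAt.tendsto.comp t)
    ((c.sm_dba _ _ (c.sm_du _ _ (eta_sm hr hl')) j k).continuousAt.tendsto.comp t)
    (off.mono fun w hw => congrFun (congrFun hw j) k)

open Classical in
/-- the conjugate derivative of `d (κ log ϱ)`, extended over the curve -/
def Th (A : KA Z Λ) (η : Λ → E2 → ℝ) (ϱ κ : Z → ℝ) : F2 Λ := fun l x =>
  if (A.e l).symm x ∈ A.E then κ ((A.e l).symm x) • lev (η l) x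
  else bar (A.d (κ * (Real.log ∘ ϱ))) l x

variable {κ : Z → ℝ}

theorem th_on {l : Λ} {z : Z} (hz : z ∈ A.E) (hl : z ∈ A.src l) :
    Th A η ϱ κ l (A.e l z) = κ z • lev (η l) (A.e l z) := by
  rw [Th, (A.e l).left_inv hl, if_pos hz]

theorem th_off {l : Λ} {z : Z} (hz : z ∉ A.E) (hl : z ∈ A.src l) :
    Th A η ϱ κ l (A.e l z) = bar (A.d (κ * (Real.log ∘ ϱ))) l (A.e l z) := by
  rw [Th, (A.e l).left_inv hl, if_neg hz]

theorem th_loc (c : Calc) (b : A.Bas) (hr : A.IsRho η ϱ) {l : Λ} {z : Z} {t : ℝ}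
    (e : ∀ᶠ w in 𝓝 z, κ w = t) (hl : z ∈ A.src l) :
    Th A η ϱ κ l (A.e l z) = t • lev (η l) (A.e l z) := by
  by_cases hz : z ∈ A.E
  · rw [th_on hz hl, e.self_of_nhds]
  · rw [th_off hz hl, ← bar_lam c hr hz hl]
    exact bd_congr b (c' := 0) (e.mono fun w hw => by rw [Pi.mul_apply, hw, add_zero]) hl

theorem th_cl (c : Calc) (b : A.Bas) (u : A.Bump) (hr : A.IsRho η ϱ) (hκ : A.SM κ)
    (hE : ∀ y ∈ A.E, ∀ᶠ w in 𝓝 y, κ w = κ y) (z : Z) : A.Cl2 (Th A η ϱ κ) z := by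
  by_cases hz : z ∈ A.E
  · refine cl2_congr (b.cl2_bar _ z (b.ex_smul (κ z) _ z (KA.ex_d (v_sm b hr (A.mem_i z))))) ?_
    filter_upwards [(hE z hz).eventually_nhds, ev_src (A.mem_i z)] with w hw hw' l hl
    rw [th_loc c b hr hw hl, b.bar_smul, ← bar_v c b u hr hw' hl]
    rfl
  · refine cl2_congr (b.cl2_bar _ z (KA.ex_d
      ((lam_ev u.clE hr hz).mono fun w hw => (hκ w).mul hw))) ?_
    filter_upwards [u.clE.isOpen_compl.mem_nhds hz] with w hw l hl
    exact th_off hw hl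

theorem ev_zero {z : Z} (hz : z ∉ tsupport κ) : ∀ᶠ w in 𝓝 z, κ w = 0 :=
  notMem_tsupport_iff_eventuallyEq.1 hz

theorem phi_sm {ε : ℝ} (hε : 0 < ε) : ContDiff ℝ ∞ fun t => Real.log (Real.exp t + ε) :=
  (Real.contDiff_exp.add contDiff_const).log fun t => (add_pos (Real.exp_pos t) hε).ne'

theorem phi_d {ε : ℝ} (hε : 0 < ε) :
    deriv (fun t => Real.log (Real.exp t + ε)) = fun t => Real.exp t / (Real.exp t + ε) :=
  funext fun t =>
    (((Real.hasDerivAt_exp t).add_const ε).log (add_pos (Real.exp_pos t) hε).ne').deriv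

theorem phi_dd {ε : ℝ} (hε : 0 < ε) (t : ℝ) :
    deriv (fun t => Real.exp t / (Real.exp t + ε)) t = ε * Real.exp t / (Real.exp t + ε) ^ 2 := by
  rw [((Real.hasDerivAt_exp t).fun_div ((Real.hasDerivAt_exp t).add_const ε)
    (add_pos (Real.exp_pos t) hε).ne').deriv]
  congr 1
  ring

theorem key (c : Calc) (b : A.Bas) (u : A.Bump) (hr : A.IsRho η ϱ) (hκ : A.SM κ) (S : F2 Λ)
    {ε : ℝ} (hε : 0 < ε) {z : Z} (hz : z ∉ A.E) :
    κ z * (ε * ϱ z / (ϱ z + ε) ^ 2) * A.W S (OT (A.d (Real.log ∘ ϱ)) (A.d (Real.log ∘ ϱ))) z =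
      A.W S (bar (A.d (κ * fun w => Real.log (ϱ w + ε)))) z -
        (ϱ z / (ϱ z + ε) * (A.W S (Th A η ϱ κ) z - Real.log (ϱ z) * A.W S (bar (A.d κ)) z) +
          Real.log (ϱ z + ε) * A.W S (bar (A.d κ)) z) := by
  have ev := lam_ev u.clE hr hz
  have hz' := Real.exp_log (rho_pos hr hz)
  have e1 : A.v2 (bar (A.d (κ * fun w => Real.log (ϱ w + ε)))) z =
      (1 : ℝ) • A.v2 (bar (A.d (κ * ((fun t => Real.log (Real.exp t + ε)) ∘ Real.log ∘ ϱ)))) z :=
    bd_congr b (c' := 0) (mem_of_superset (u.clE.isOpen_compl.mem_nhds hz) fun w hw => by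
      simp [Real.exp_log (rho_pos hr hw)]) (A.mem_i z)
  rw [one_smul, v2_mul b (ev.mono fun w hw => ⟨hκ w, hw.comp (phi_sm hε).contDiffAt⟩),
    v2_chain c b ev (phi_sm hε), (d_chain c ev.self_of_nhds (phi_sm hε)).v1, A.v1_sm1,
    phi_d hε, phi_dd hε] at e1
  have e2 : A.v2 (Th A η ϱ κ) z = A.v2 (bar (A.d (κ * (Real.log ∘ ϱ)))) z := th_off hz (A.mem_i z)
  rw [v2_mul b (ev.mono fun w hw => ⟨hκ w, hw⟩)] at e2
  simp only [KA.W, e1, e2, md_add, md_smul, smul_add, ot_smul, smul_ot, Function.comp_apply, hz',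
    KA.v2_OT]
  ring

theorem W_cont (b : A.Bas) {S T : F2 Λ} (hS : ∀ z, A.Cl2 S z) (hT : ∀ z, A.Cl2 T z) :
    Continuous (A.W S T) := continuous_iff_continuousAt.2 fun z =>
  b.sm_cont _ z (b.W_sm S T z (Eventually.of_forall fun w => ⟨(hS w).1, (hT w).1⟩))

theorem W_zero {S T : F2 Λ} {z : Z} (h : ∀ l, z ∈ A.src l → T l (A.e l z) = 0) :
    A.W S T z = 0 := by
  rw [KA.W, show A.v2 T z = 0 from h _ (A.mem_i z), md_zero, zero_div]

theorem sp_cpt {T : F2 Λ} (hκ : HasCompactSupport κ)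
    (h : ∀ z ∉ tsupport κ, ∀ l, z ∈ A.src l → T l (A.e l z) = 0) : IsCompact (A.sp2 T) :=
  hκ.of_isClosed_subset isClosed_closure (closure_minimal
    (fun z ⟨l, hl, h0⟩ => by_contra fun hz => h0 (h z hz l hl)) (isClosed_tsupport κ))

theorem bound {r ε p q : ℝ} (hr : 0 < r) (h0 : 0 < ε) (h1 : ε < 1) :
    ‖r / (r + ε) * (p - Real.log r * q) + Real.log (r + ε) * q‖ ≤
      ‖p‖ + 2 * ‖Real.log r * q‖ + ‖r * q‖ := by
  have a1 : |r / (r + ε)| ≤ 1 := by
    rw [abs_of_pos (by positivity), div_le_one (by positivity)]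
    linarith
  have a2 : |Real.log (r + ε)| ≤ |Real.log r| + |r| := by
    have b1 : Real.log r ≤ Real.log (r + ε) := Real.log_le_log hr (by linarith)
    have b2 := Real.log_le_sub_one_of_pos (show 0 < r + ε by positivity)
    rw [abs_le]
    constructor
    · linarith [neg_abs_le (Real.log r), abs_nonneg r]
    · linarith [abs_nonneg (Real.log r), le_abs_self r]
  simp only [Real.norm_eq_abs]
  refine (abs_add_le _ _).trans ?_
  rw [abs_mul, abs_mul, abs_mul r]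
  have a3 := mul_le_mul_of_nonneg_right a1 (abs_nonneg (p - Real.log r * q))
  have a4 := mul_le_mul_of_nonneg_right a2 (abs_nonneg q)
  have a5 := abs_sub p (Real.log r * q)
  have a6 := abs_mul (Real.log r) q
  nlinarith

end PConc

open PConc in
theorem conc (h : A.Std) (h1 : A.GS1) (hi : A.HI) : A.Conc := by
  intro η ϱ hr a ha ia κ hκ k0 hE
  obtain ⟨al, c, b, u, m⟩ := h
  have := m.fin
  have hS := b.cl2_ot a ha
  have ae : ∀ᵐ z ∂A.μ, z ∉ A.E := measure_eq_zero_iff_ae_notMem.1 m.nul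
  have cr : Continuous ϱ := continuous_iff_continuousAt.2 fun z => b.sm_cont _ z (rho_sm hr z)
  have int : ∀ F : Z → ℝ, Continuous F → (∀ z ∉ tsupport κ, F z = 0) → Integrable F A.μ :=
    fun F hF h0 => hF.integrable_of_hasCompactSupport (HasCompactSupport.intro hκ.2 h0)
  set P := A.W (OT a a) (Th A η ϱ κ) with hP
  set Q := A.W (OT a a) (bar (A.d κ)) with hQ
  have tz : ∀ z ∉ tsupport κ, ∀ l, z ∈ A.src l → Th A η ϱ κ l (A.e l z) = 0 := fun z hz l hl => by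
    rw [th_loc c b hr (ev_zero hz) hl, zero_smul]
  have cP : Continuous P := W_cont b hS (th_cl c b u hr hκ.1 hE)
  have zP : ∀ z ∉ tsupport κ, P z = 0 := fun z hz => W_zero (tz z hz)
  have iP : ∫ z, P z ∂A.μ = 0 := hi a ha ia _ (th_cl c b u hr hκ.1 hE) (sp_cpt hκ.2 tz)
  have cQ : Continuous Q := W_cont b hS fun z => b.cl2_bar _ z (KA.ex_d (.of_forall hκ.1))
  have qz : ∀ z t, (∀ᶠ w in 𝓝 z, κ w = t) → Q z = 0 := fun z t e => W_zero fun l hl => by
    rw [bd_congr b (V := κ) (c := 0) (c' := t) (e.mono fun w hw => by simp [hw]) hl, zero_smul]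
  have zQ : ∀ z ∉ tsupport κ, Q z = 0 := fun z hz => qz z 0 (ev_zero hz)
  have cL : Continuous fun z => Real.log (ϱ z) * Q z := continuous_iff_continuousAt.2 fun z => by
    by_cases hz : z ∈ A.E
    · exact (continuousAt_const (y := (0 : ℝ))).congr
        ((hE z hz).eventually_nhds.mono fun w hw => by simp [qz w _ hw])
    · exact (cr.continuousAt.log (rho_pos hr hz).ne').mul cQ.continuousAt
  set F : ℝ → Z → ℝ := fun ε z =>
    ϱ z / (ϱ z + ε) * (P z - Real.log (ϱ z) * Q z) + Real.log (ϱ z + ε) * Q z with hF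
  have ne : ∀ ε > 0, ∀ z, ϱ z + ε ≠ 0 := fun ε hε z =>
    (add_pos_of_nonneg_of_pos (rho_nn hr z) hε).ne'
  have cF : ∀ ε > 0, Continuous (F ε) := fun ε hε =>
    ((cr.div (cr.add continuous_const) (ne ε hε)).mul (cP.sub cL)).add
      (((cr.add continuous_const).log (ne ε hε)).mul cQ)
  have lim : Tendsto (fun ε => ∫ z, F ε z ∂A.μ) (𝓝[>] 0) (𝓝 (∫ z, P z ∂A.μ)) := by
    refine tendsto_integral_filter_of_dominated_convergence
      (fun z => ‖P z‖ + 2 * ‖Real.log (ϱ z) * Q z‖ + ‖ϱ z * Q z‖) ?_ ?_ ?_ ?_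
    · filter_upwards [self_mem_nhdsWithin] with ε hε
      exact (cF ε hε).aestronglyMeasurable
    · filter_upwards [Ioo_mem_nhdsGT one_pos] with ε hε
      filter_upwards [ae] with z hz
      exact bound (rho_pos hr hz) hε.1 hε.2
    · exact ((int P cP zP).norm.add ((int _ cL fun z hz => by simp [zQ z hz]).norm.const_mul 2)).add
        (int _ (cr.mul cQ) fun z hz => by simp [zQ z hz]).norm
    · filter_upwards [ae] with z hz
      have hz' := (rho_pos hr hz).ne'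
      have t : ContinuousAt (fun ε => F ε z) 0 := by
        simp only [hF]
        fun_prop (disch := simpa using hz')
      have e : F 0 z = P z := by simp [hF, hz']
      exact e ▸ t.tendsto.mono_left nhdsWithin_le_nhds
  rw [iP] at lim
  have lim' := ENNReal.tendsto_ofReal lim.neg
  rw [neg_zero, ENNReal.ofReal_zero] at lim'
  refine lim'.congr' ?_
  filter_upwards [self_mem_nhdsWithin] with ε hε
  have hT : ∀ z, A.Cl2 (bar (A.d (κ * fun w => Real.log (ϱ w + ε)))) z := fun z =>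
    b.cl2_bar _ z (KA.ex_d (.of_forall fun w => (hκ.1 w).mul
      (((rho_sm hr w).add (KA.sm_const ε w)).comp (Real.contDiffAt_log.2 (ne ε hε w)))))
  have zT : ∀ z ∉ tsupport κ, ∀ l, z ∈ A.src l →
      bar (A.d (κ * fun w => Real.log (ϱ w + ε))) l (A.e l z) = 0 := fun z hz l hl => by
    rw [bd_congr b (V := κ) (c := 0) (c' := 0) ((ev_zero hz).mono fun w hw => by simp [hw]) hl,
      zero_smul]
  have iT := int _ (W_cont b hS hT) fun z hz => W_zero (zT z hz)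
  have iF := int _ (cF ε hε) fun z hz => by simp [hF, zP z hz, zQ z hz]
  have e := ae.mono fun z hz => key c b u hr hκ.1 (OT a a) hε hz
  rw [← ofReal_integral_eq_lintegral_ofReal ((iT.sub iF).congr (e.mono fun _ h => h.symm)),
    integral_congr_ae e, integral_sub iT iF, hi a ha ia _ hT (sp_cpt hκ.2 zT), zero_sub]
  refine .of_forall fun z => mul_nonneg (mul_nonneg (k0 z)
    (div_nonneg (mul_nonneg (le_of_lt hε) (rho_nn hr z)) (sq_nonneg _))) ?_
  rw [KA.W, A.v2_OT, A.v2_OT, al.md_ot_ot]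
  exact div_nonneg (Complex.normSq_nonneg _) (b.pd z).2.2.le

end Pool.Agent.Lib.MP_356dfe_ag.S
end
end

-- part Pool.Agent.Lib.MP_356dfe_ag.S.PEV
section

/-! Vanishing along the curve. -/

set_option autoImplicit false

open Set Filter Topology Metric MeasureTheory
open scoped ContDiff ComplexConjugate Matrix Pointwise

noncomputable section

namespace Pool.Agent.Lib.MP_356dfe_ag.S

namespace PEV

theorem du_congr {u v : E2 → ℝ} {x : E2} (h : ∀ᶠ y in 𝓝 x, u y = v y) : du u x = du v x := by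
  funext j
  simp only [du, dh]
  rw [Filter.EventuallyEq.fderiv_eq (f₁ := fun y => (u y : ℂ)) (f := fun y => (v y : ℂ))
    (h.mono fun y hy => congrArg Complex.ofReal hy)]

theorem cd_log {x : E2} {j : Fin 2} (h : x j ≠ 0) :
    ContDiffAt ℝ ∞ (fun y : E2 => Real.log (Complex.normSq (y j))) x := by
  refine ContDiffAt.log ?_ (mt Complex.normSq_eq_zero.1 h)
  simp only [Complex.normSq_eq_norm_sq]
  exact (contDiff_norm_sq ℝ).contDiffAt.comp x (contDiffAt_apply ℝ ℂ j x)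

theorem du_log (hc : Calc) {x : E2} {j : Fin 2} (h : x j ≠ 0) :
    du (fun y : E2 => Real.log (Complex.normSq (y j))) x = Pi.single j (x j)⁻¹ := by
  have d : DifferentiableAt ℂ (fun y : E2 => y j) x := differentiableAt_apply j x
  rw [hc.du_log _ x d h]
  funext i
  rw [(hc.dh_hol _ x d i).1, (hasFDerivAt_apply (𝕜 := ℂ) j x).fderiv]
  by_cases e : i = j
  · simp [e]
  · simp [e, Ne.symm e]

theorem eq_rev {j k : Fin 2} (h : j ≠ k) : j = k.rev := by
  revert j k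
  decide

end PEV

variable {Z Λ : Type} [TopologicalSpace Z] [T2Space Z] [MeasurableSpace Z] [BorelSpace Z]
  {A : KA Z Λ}

theorem evv (h : A.Std) (hs : Shell) (hr : ∃ η ϱ, A.IsRho η ϱ) (hc : A.Conc) (hk : A.EK) :
    A.EV := by
  obtain ⟨η, ϱ, hr⟩ := hr
  intro a ha hi l k hl x hx x0
  by_contra x1
  have kr : k ≠ k.rev := by
    clear * -
    revert k
    decide
  have ca : ∀ y ∈ ball (0 : E2) 4, ContinuousAt (a l) y := fun y hy =>
    (ha.2 l).continuousOn.continuousAt (isOpen_ball.mem_nhds hy)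
  obtain ⟨y, hy, y0, y1, y2⟩ : ∃ y ∈ ball (0 : E2) 4, y k = 0 ∧ a l y k.rev ≠ 0 ∧ y k.rev ≠ 0 := by
    have t : Tendsto (Function.update x k.rev) (𝓝 (x k.rev)) (𝓝 x) := by
      simpa using (continuous_const.update k.rev continuous_id : Continuous
        fun t => Function.update x k.rev (id t)).tendsto (x k.rev)
    obtain ⟨w, w1, w2⟩ := (dense_compl_singleton (0 : ℂ)).inter_nhds_nonempty (t.eventually
      (Eventually.and (isOpen_ball.mem_nhds hx)
        ((((continuous_apply k.rev).continuousAt.comp (ca x hx))).eventually_ne x1)))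
    exact ⟨_, w2.1, by rw [Function.update_of_ne kr, x0], w2.2, by simpa using w1⟩
  obtain ⟨θ, hθ⟩ : ∃ θ : E2 → ℝ, θ = fun y => η l y + ∑ j ∈ (A.act (A.ty l)).erase k,
    Real.log (Complex.normSq (y j)) := ⟨_, rfl⟩
  have t1 : ∀ w ∈ ball (0 : E2) 4, w k.rev ≠ 0 → ContDiffAt ℝ ∞ θ w := fun w hw w1 =>
    hθ ▸ ((hr.1 l).contDiffAt (isOpen_ball.mem_nhds hw)).add (ContDiffAt.sum fun j hj =>
      PEV.cd_log (PEV.eq_rev (Finset.ne_of_mem_erase hj) ▸ w1))
  have t2 : ∀ w ∈ ball (0 : E2) 4, w k.rev ≠ 0 →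
      ϱ ((A.e l).symm w) = Complex.normSq (w k) * Real.exp (θ w) := fun w hw w1 => by
    rw [hr.2 l _ (A.symm_mem l hw), A.e_symm l hw, hθ, Real.exp_add, Real.exp_sum,
      ← Finset.mul_prod_erase _ _ hl, mul_assoc, mul_comm (Real.exp _)]
    congr 2
    exact Finset.prod_congr rfl fun j hj => (Real.exp_log (Complex.normSq_pos.2
      (PEV.eq_rev (Finset.ne_of_mem_erase hj) ▸ w1))).symm
  have dp : ∀ w ∈ ball (0 : E2) 4, 0 < dt (A.met l w) := fun w hw => (A.pos _ w hw).2.2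
  have ne : ∀ (w : E2) j, w j ≠ 0 → ∀ᶠ v : E2 in 𝓝 w, v j ≠ 0 := fun w j e =>
    (continuous_apply j).continuousAt.eventually_ne e
  have t3 : ∀ w ∈ ball (0 : E2) 4, w k.rev ≠ 0 → w k ≠ 0 → ∀ᶠ v in 𝓝 w,
      ((Real.log ∘ ϱ) ∘ (A.e l).symm) v = θ v + Real.log (Complex.normSq (v k)) :=
    fun w hw w1 w2 => by
      filter_upwards [isOpen_ball.mem_nhds hw, ne w _ w1, ne w _ w2] with v v0 v1 v2
      rw [Function.comp_apply, Function.comp_apply, t2 v v0 v1,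
        Real.log_mul (mt Complex.normSq_eq_zero.1 v2) (Real.exp_ne_zero _), Real.log_exp, add_comm]
  have t4 : ∀ w ∈ ball (0 : E2) 4, w k.rev ≠ 0 → w k ≠ 0 →
      A.W (OT a a) (OT (A.d (Real.log ∘ ϱ)) (A.d (Real.log ∘ ϱ))) ((A.e l).symm w) *
        dt (A.met l w) = md (ot (a l w) (a l w))
          (ot (du θ w + Pi.single k (w k)⁻¹) (du θ w + Pi.single k (w k)⁻¹)) :=
    fun w hw w1 w2 => by
      have m := A.symm_mem l hw
      have s1 := (h.bas.ex_s1 a _ (ha.1 ((A.e l).symm w))).1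
      have s2 := (h.bas.s1_d _ _ (h.bas.sm_of (Real.log ∘ ϱ) _ l m ((A.e_symm l hw).symm ▸
        ((t1 w hw w1).add (PEV.cd_log w2)).congr_of_eventuallyEq (t3 w hw w1 w2)))).1
      rw [h.bas.W_eq _ _ _ l (h.bas.at2_ot _ _ _ s1 s1) (h.bas.at2_ot _ _ _ s2 s2) m,
        A.e_symm l hw, div_mul_cancel₀ _ (dp w hw).ne', ← PEV.du_log h.clc w2,
        ← h.clc.du_add _ _ _ ((t1 w hw w1).differentiableAt (by simp))
          ((PEV.cd_log w2).differentiableAt (by simp)), ← PEV.du_congr (t3 w hw w1 w2)]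
      rfl
  have m := A.symm_mem l hy
  obtain ⟨κ, k1, k2, k3, k4⟩ := hk _ ((A.hE l _ m).2 ⟨k, hl, (A.e_symm l hy).symm ▸ y0⟩)
  obtain ⟨r, r0, r1⟩ := Metric.eventually_nhds_iff_ball.1 ((A.e_symm l hy ▸ A.ev_symm m k3).and
    ((ne y _ y2).and (isOpen_ball.mem_nhds hy)))
  obtain ⟨c, c0, c1⟩ := hs θ (du θ) (a l) y k (t1 y hy y2).continuousAt
    (h.clc.sm_du _ _ (t1 y hy y2)).continuousAt (ca y hy) y0 y1 r r0
  refine (ENNReal.ofReal_pos.2 c0).not_ge (ge_of_tendsto (hc η ϱ hr a ha hi κ k1 k2 k4)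
    (c1.mono fun ε e => e.trans (le_trans ?_
      (setLIntegral_le_lintegral ((A.e l).symm '' ball y r) _))))
  rw [h.meas.lint l _ measurableSet_ball fun w hw => (r1 w hw).2.2]
  refine setLIntegral_mono' measurableSet_ball fun w hw => ?_
  obtain ⟨w0, w1, w2⟩ := r1 w hw
  by_cases w3 : w k = 0
  · simp [w3]
  · rw [← ENNReal.ofReal_mul' (dp w w2).le, w0, one_mul, t2 w w2 w1, ← t4 w w2 w1 w3,
      ← mul_assoc]

end Pool.Agent.Lib.MP_356dfe_ag.S
end
end

-- part Pool.Agent.Lib.MP_356dfe_ag.S.PLoc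
section

/-! Extension of closed forms over the curve. -/

set_option autoImplicit false

open Set Filter Topology Metric MeasureTheory
open scoped ContDiff ComplexConjugate Matrix Pointwise

noncomputable section

namespace Pool.Agent.Lib.MP_356dfe_ag.S

variable {Z Λ : Type} [TopologicalSpace Z] [T2Space Z] [MeasurableSpace Z] [BorelSpace Z]
  {A : KA Z Λ}

namespace PLoc

omit [T2Space Z] [MeasurableSpace Z] [BorelSpace Z] in
/-- the difference of two primitives off the curve is constant near every point -/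
theorem ext_const (hn : NF) {f : Z → Z → ℝ} {O O' : Set Z} {g g' : Z → ℝ} (hO : IsOpen O)
    (hO' : IsOpen O') (hg : Prim (O \ A.E) f g) (hg' : Prim (O' \ A.E) f g') {z : Z}
    (hz : z ∈ O) (hz' : z ∈ O') : ∃ c, ∀ᶠ w in 𝓝 z, w ∉ A.E → g w = g' w + c := by
  have hl := A.mem_i z
  generalize A.i z = l at hl
  have h1 : ∀ᶠ x in 𝓝 (A.e l z), x ∈ ball (0 : E2) 4 ∧ (A.e l).symm x ∈ O ∩ O' :=
    (isOpen_ball.eventually_mem (A.map_src hl)).and
      (A.ev_symm hl ((hO.inter hO').eventually_mem ⟨hz, hz'⟩))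
  obtain ⟨δ, hδ, h2⟩ := Metric.eventually_nhds_iff_ball.1 h1
  have key : ∀ x ∈ {x ∈ ball (A.e l z) δ | ∀ k ∈ A.act (A.ty l), x k ≠ 0},
      ∀ y ∈ {x ∈ ball (A.e l z) δ | ∀ k ∈ A.act (A.ty l), x k ≠ 0},
      g ((A.e l).symm x) - g' ((A.e l).symm x) = g ((A.e l).symm y) - g' ((A.e l).symm y) := by
    intro x hx y hy
    refine (hn.conn (A.e l z) δ (A.act (A.ty l))).induction₂'
      (fun x y => g ((A.e l).symm x) - g' ((A.e l).symm x) =
        g ((A.e l).symm y) - g' ((A.e l).symm y)) (fun x hx => ?_) (fun _ _ _ _ _ _ => Eq.trans) hx hy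
    obtain ⟨k1, k2⟩ := h2 x hx.1
    have k3 := A.symm_mem l k1
    have k4 : (A.e l).symm x ∉ A.E := fun j => by
      obtain ⟨k, hk, e⟩ := (A.hE l _ k3).1 j
      exact hx.2 k hk (A.e_symm l k1 ▸ e)
    obtain ⟨c, hc⟩ := hg _ ⟨k2.1, k4⟩
    obtain ⟨c', hc'⟩ := hg' _ ⟨k2.2, k4⟩
    have k5 := A.ev_symm k3 (hc.and hc')
    rw [A.e_symm l k1] at k5
    have k6 := k5.self_of_nhds
    filter_upwards [nhdsWithin_le_nhds k5] with y hy
    rw [hy.1, hy.2, k6.1, k6.2]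
    constructor <;> ring
  have h3 : ∀ᶠ w in 𝓝 z, w ∈ A.src l ∧ A.e l w ∈ ball (A.e l z) δ :=
    ((A.e l).open_source.eventually_mem hl).and
      (((A.e l).continuousAt hl).eventually (ball_mem_nhds _ hδ))
  by_cases h4 : {x ∈ ball (A.e l z) δ | ∀ k ∈ A.act (A.ty l), x k ≠ 0}.Nonempty
  · obtain ⟨y, hy⟩ := h4
    refine ⟨g ((A.e l).symm y) - g' ((A.e l).symm y), h3.mono fun w hw j => ?_⟩
    have := key _ ⟨hw.2, fun k hk e => j ((A.hE l w hw.1).2 ⟨k, hk, e⟩)⟩ y hy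
    rw [(A.e l).left_inv hw.1] at this
    linarith
  · exact ⟨0, h3.mono fun w hw j =>
      (h4 ⟨_, hw.2, fun k hk e => j ((A.hE l w hw.1).2 ⟨k, hk, e⟩)⟩).elim⟩

omit [MeasurableSpace Z] [BorelSpace Z] in
/-- a chart at a point of the curve lies in the sheet -/
theorem src_sub {ρ : Z → ℝ} {a b : ℝ} {N : Set Z} (hb : Nbh A ρ a b N) (hρ : Continuous ρ)
    {l : Λ} (hl : (A.act (A.ty l)).Nonempty) {y : Z} (hy : y ∈ A.src l) (hN : y ∈ N) :
    A.src l ⊆ N := by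
  have h1 : IsPreconnected (A.src l) := by
    rw [KA.src, ← (A.e l).symm_image_target_eq_source]
    refine IsPreconnected.image ?_ _ (A.e l).continuousOn_symm
    rw [A.tgt]
    exact (convex_ball _ _).isPreconnected
  refine (h1.subset_left_of_subset_union (u := N ∩ {z | ρ z < a}) (v := (N ∩ {z | ρ z ≤ a})ᶜ)
    (hb.op.inter (isOpen_lt hρ continuous_const)) (hb.cpt a hb.lt).isClosed.isOpen_compl
    (disjoint_left.2 fun z j k => k ⟨j.1, (show ρ z < a from j.2).le⟩) (fun z hz => ?_)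
    ⟨y, hy, hN, hb.small l hl y hy⟩).trans inter_subset_left
  by_cases k : z ∈ N
  · exact .inl ⟨k, hb.small l hl z hz⟩
  · exact .inr fun j => k j.1

omit [T2Space Z] [BorelSpace Z] in
/-- gluing of local primitives -/
theorem glue (h : A.Std) (hn : NF) {f : Z → Z → ℝ} {K : Set Z} (hK : IsCompact K)
    (O : Z → Set Z) (g G : Z → Z → ℝ) (hO : ∀ y, IsOpen (O y)) (hm : ∀ y ∈ K, y ∈ O y)
    (hg : ∀ y, Prim (O y \ A.E) f (g y)) (hG : ∀ y, ∀ w ∈ O y, A.Sm (G y) w) {O₂ : Set Z}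
    (h2 : IsOpen O₂) (hs : O₂ ⊆ K) : ∃ v : Z → Z → ℝ, LPS O₂ v ∧
      (∀ y ∈ O₂, ∀ᶠ w in 𝓝 y, A.Sm (v y) w) ∧
      ∀ y ∈ O₂, y ∉ A.E → (∀ j, y ∈ O j → G j = g j) → ∀ᶠ w in 𝓝 y, v y w = g y w := by
  have ex : ∀ j k z, ∃ c, z ∈ O j → z ∈ O k → ∀ᶠ w in 𝓝 z, w ∉ A.E → g j w = g k w + c :=
    fun j k z => by
      by_cases e : z ∈ O j ∧ z ∈ O k
      · obtain ⟨c, hc⟩ := ext_const hn (hO j) (hO k) (hg j) (hg k) e.1 e.2
        exact ⟨c, fun _ _ => hc⟩
      · exact ⟨0, fun i i' => (e ⟨i, i'⟩).elim⟩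
  choose c hc using ex
  have uq : ∀ (z : Z) (p : Prop), (∀ᶠ w in 𝓝 z, w ∉ A.E → p) → p := fun z p e => by
    obtain ⟨w, k1, k2⟩ := ((mem_closure_iff_frequently.1 (h.bump.dense z)).and_eventually e).exists
    exact k2 k1
  have lc : ∀ j k z, z ∈ O j → z ∈ O k → ∀ᶠ w in 𝓝 z, c j k w = c j k z := fun j k z i i' => by
    filter_upwards [(hc j k z i i').eventually_nhds, (hO j).mem_nhds i, (hO k).mem_nhds i']
      with w k1 k2 k3
    refine uq w _ ?_
    filter_upwards [k1, hc j k w k2 k3] with x e1 e2 hx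
    linarith [e1 hx, e2 hx]
  have co : ∀ j k k' z, z ∈ O j → z ∈ O k → z ∈ O k' → c j k' z = c j k z + c k k' z :=
    fun j k k' z i i' i'' => by
      refine uq z _ ?_
      filter_upwards [hc j k z i i', hc j k' z i i'', hc k k' z i' i''] with x e1 e2 e3 hx
      linarith [e1 hx, e2 hx, e3 hx]
  obtain ⟨s, hs'⟩ := hK.elim_finite_subcover O hO fun y hy => mem_iUnion.2 ⟨y, hm y hy⟩
  obtain ⟨χ, h3, h4⟩ := h.bump.part Z s K O hK hO hs'
  have h5 : ∀ y ∈ O₂, ∀ᶠ w in 𝓝 y, ∑ j ∈ s, χ j w = 1 := fun y hy =>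
    h4.filter_mono (nhds_le_nhdsSet (hs hy))
  have z0 : ∀ j w, w ∉ tsupport (χ j) → ∀ᶠ x in 𝓝 w, χ j x = 0 := fun j w e =>
    notMem_tsupport_iff_eventuallyEq.1 e
  refine ⟨fun y w => ∑ j ∈ s, χ j w * (G j w - c j y w), fun y hy => ?_, fun y hy => ?_,
    fun y hy hE e => ?_⟩
  · filter_upwards [(hO y).mem_nhds (hm y (hs hy)), h2.mem_nhds hy] with y' k1 k2
    have k3 := hm y' (hs k2)
    refine ⟨c y y' y', ?_⟩
    filter_upwards [(hO y).mem_nhds k1, (hO y').mem_nhds k3, h5 y' k2, lc y y' y' k1 k3]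
      with w e1 e2 e3 e4
    rw [← e4, ← one_mul (c y y' w), ← e3, Finset.sum_mul, ← Finset.sum_add_distrib]
    refine Finset.sum_congr rfl fun j _ => ?_
    by_cases e5 : χ j w = 0
    · simp [e5]
    · rw [co j y y' w ((h3 j).2.2 (subset_tsupport _ e5)) e1 e2]
      ring
  · filter_upwards [(hO y).mem_nhds (hm y (hs hy))] with w k1
    refine KA.sm_sum fun j _ => ?_
    by_cases e : w ∈ tsupport (χ j)
    · have k2 := (h3 j).2.2 e
      exact ((h3 j).1.1 w).mul ((hG j w k2).sub ((KA.sm_const (c j y w) w).congr (lc j y w k2 k1)))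
    · exact (KA.sm_const 0 w).congr ((z0 j w e).mono fun x hx => by simp [hx])
  · have k1 := hm y (hs hy)
    have k2 : ∀ j ∈ s, ∀ᶠ w in 𝓝 y, χ j w * (G j w - c j y w) = χ j w * g y w := fun j _ => by
      by_cases e1 : y ∈ O j
      · filter_upwards [h.bump.clE.isOpen_compl.mem_nhds hE, hc j y y e1 k1, lc j y y e1 k1]
          with w e2 e3 e4
        rw [e j e1, e3 e2, e4]
        ring
      · exact (z0 j y fun i => e1 ((h3 j).2.2 i)).mono fun x hx => by simp [hx]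
    filter_upwards [(eventually_all_finset s).2 k2, h5 y hy] with w e1 e2
    rw [Finset.sum_congr rfl e1, ← Finset.sum_mul, e2, one_mul]

end PLoc

theorem loc (h : A.Std) (hn : NF) {ρ : Z → ℝ} {a b : ℝ} {N : Set Z} (hb : Nbh A ρ a b N)
    (hr : A.Res ρ a N) : A.Loc ρ a b N := by
  intro a₁ a₃ b₂ b₁ h1 h2 h3 h4 h5 θ hθ
  have hρ : Continuous ρ := continuous_iff_continuousAt.2 fun z => h.bas.sm_cont ρ z (hb.sm z)
  obtain ⟨a₂, h6, h7⟩ := exists_between h2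
  obtain ⟨r, r1, r2, r3⟩ := hb.ret a₁ a₂ h1 h6 (by linarith)
  have olt : ∀ t, IsOpen (N ∩ {z | ρ z < t}) := fun t => hb.op.inter (isOpen_lt hρ continuous_const)
  have ogt : ∀ t, IsOpen {z | t < ρ z} := fun t => isOpen_lt continuous_const hρ
  obtain ⟨u, u1, u2⟩ := h.bas.lps_ex θ (N ∩ {z | ρ z < b₁} ∩ {z | a₁ < ρ z})
    ((olt _).inter (ogt _)) fun z hz => hθ z hz.1.1 hz.2 hz.1.2
  have oW : IsOpen ((N ∩ {z | ρ z < b₁}) \ A.E) := (olt _).sdiff h.bump.clE
  have rc : ∀ z ∈ (N ∩ {z | ρ z < b₁}) \ A.E, ContinuousAt r z := fun z hz =>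
    r1.continuousAt ((hb.op.sdiff h.bump.clE).mem_nhds ⟨hz.1.1, hz.2⟩)
  have hf : LPS ((N ∩ {z | ρ z < b₁}) \ A.E) fun y w => u (r y) (r w) := fun y hy => by
    obtain ⟨k1, k2, k3⟩ := r2 y ⟨hy.1.1, hy.2⟩
    have k4 : ρ (r y) < b₁ := by
      rcases lt_or_ge (ρ y) a₂ with e | e
      · linarith [k3 e]
      · rw [r3 y hy.1.1 e]
        exact hy.1.2
    filter_upwards [(rc y hy).eventually (u1 _ ⟨⟨k1, k4⟩, k2⟩), oW.mem_nhds hy] with y' ⟨c, hc⟩ k5
    exact ⟨c, (rc y' k5).eventually hc⟩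
  have nE : ∀ z, a₂ < ρ z → z ∉ A.E := fun z e j => by
    have := (hb.zero z).2 j
    linarith [hb.pos]
  have up : ∀ (g : Z → ℝ) (z : Z) (c : ℝ), z ∈ N → a₂ < ρ z →
      (∀ᶠ w in 𝓝 z, g w = u (r z) (r w) + c) → ∀ᶠ w in 𝓝 z, g w = u z w + c :=
    fun g z c k1 k2 k3 => by
      filter_upwards [k3, hb.op.mem_nhds k1, (ogt a₂).mem_nhds k2] with w e1 e2 e3
      rw [e1, r3 z k1 k2.le, r3 w e2 (le_of_lt e3)]
  have ex0 : ∀ y ∈ N ∩ {z | ρ z < b₁}, ∃ (O : Set Z) (g : Z → ℝ), IsOpen O ∧ y ∈ O ∧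
      Prim (O \ A.E) (fun y w => u (r y) (r w)) g := fun y hy => by
    by_cases e : y ∈ A.E
    · have hl := A.mem_i y
      obtain ⟨k, hk, -⟩ := (A.hE _ y hl).1 e
      obtain ⟨F, hF⟩ := hr _ (fun z hz => hf z ⟨⟨hz.1.1, by
        have : ρ z < a := hz.1.2
        change ρ z < b₁
        linarith⟩, hz.2⟩) _ (PLoc.src_sub hb hρ ⟨k, hk⟩ hl hy.1) ⟨k, hk⟩
      exact ⟨_, F, (A.e _).open_source, hl, hF⟩
    · obtain ⟨O, k1, k2, k3⟩ := eventually_nhds_iff.1 (hf y ⟨hy, e⟩)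
      exact ⟨O, _, k2, k3, fun z hz => k1 z hz.1⟩
  have ex1 : ∀ y, ∃ (O : Set Z) (g G : Z → ℝ), IsOpen O ∧ (y ∈ N ∩ {z | ρ z ≤ b₂} → y ∈ O) ∧
      Prim (O \ A.E) (fun y w => u (r y) (r w)) g ∧ (∀ w ∈ O, A.Sm G w) ∧
      ∀ w ∈ O, a₃ ≤ ρ w → G = g := fun y => by
    by_cases hy : y ∈ N ∩ {z | ρ z ≤ b₂}
    swap
    · exact ⟨∅, 0, 0, isOpen_empty, fun j => (hy j).elim, fun _ j => j.1.elim, fun _ j => j.elim,
        fun _ j => j.elim⟩
    have hy' : y ∈ N ∩ {z | ρ z < b₁} := ⟨hy.1, lt_of_le_of_lt hy.2 h4⟩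
    obtain ⟨O, g, k1, k2, k3⟩ := ex0 y hy'
    rcases lt_or_ge (ρ y) a₃ with e | e
    · exact ⟨O ∩ (N ∩ {z | ρ z < a₃}), g, fun _ => 0, k1.inter (olt _), fun _ => ⟨k2, hy.1, e⟩,
        fun z hz => k3 z ⟨hz.1.1, hz.2⟩, fun w _ => KA.sm_const 0 w,
        fun w hw j => (not_lt.2 j hw.2.2).elim⟩
    · refine ⟨O ∩ (N ∩ {z | ρ z < b₁} ∩ {z | a₂ < ρ z}), g, g, k1.inter ((olt _).inter (ogt _)),
        fun _ => ⟨k2, hy', h7.trans_le e⟩, fun z hz => k3 z ⟨hz.1.1, hz.2⟩, fun w hw => ?_,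
        fun _ _ _ => rfl⟩
      obtain ⟨c, hc⟩ := k3 w ⟨hw.1, nE w hw.2.2⟩
      exact ((u2 w ⟨hw.2.1, h6.trans hw.2.2⟩).self_of_nhds.1.add (KA.sm_const c w)).congr
        (up g w c hw.2.1.1 hw.2.2 hc)
  choose O g G o1 o2 o3 o4 o5 using ex1
  obtain ⟨v, v1, v2, v3⟩ := PLoc.glue h hn (hb.cpt b₂ (h4.trans_le h5)) O g G o1 o2 o3 o4
    (olt b₂) fun z hz => ⟨hz.1, (show ρ z < b₂ from hz.2).le⟩
  obtain ⟨θ', hθ'⟩ := h.bas.ex_lps v _ (olt b₂) v1 v2
  refine ⟨θ', fun z k1 k2 => ⟨v z, (v2 z ⟨k1, k2⟩).and (hθ' z ⟨k1, k2⟩)⟩, fun z k1 k2 k3 => ?_⟩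
  have k4 : a₂ < ρ z := h7.trans_le k2
  obtain ⟨c, hc⟩ := o3 z z ⟨o2 z ⟨k1, k3.le⟩, nE z k4⟩
  have k5 : ∀ᶠ w in 𝓝 z, v z w = u z w + c := by
    filter_upwards [v3 z ⟨k1, k3⟩ (nE z k4) fun j e => o5 j z e k2, up _ z c k1 k4 hc] with w e1 e2
    rw [e1, e2]
  exact ((hθ' z ⟨k1, k3⟩).self_of_nhds.trans (h.bas.d_congr _ _ z c k5).self_of_nhds).trans
    (u2 z ⟨⟨k1, k3.trans h4⟩, h6.trans k4⟩).self_of_nhds.2.symm

end Pool.Agent.Lib.MP_356dfe_ag.S
end
end

-- part Pool.Agent.Lib.MP_356dfe_ag.S.PCl3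
section

/-! Weakly closed forms. -/

set_option autoImplicit false

open Set Filter Topology Metric MeasureTheory
open scoped ContDiff ComplexConjugate Matrix Pointwise

noncomputable section

namespace Pool.Agent.Lib.MP_356dfe_ag.S

namespace PCl3

theorem cont_fd {f : E2 → ℝ} (hf : ContDiff ℝ ∞ f) (v : E2) :
    Continuous fun x => fderiv ℝ f x v :=
  (hf.continuous_fderiv (by simp)).clm_apply continuous_const

theorem int1 {u f : E2 → ℝ} (hu : CS u) (hf : Continuous f) (v : E2) :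
    Integrable fun x => fderiv ℝ u x v * f x :=
  ((cont_fd hu.1 v).mul hf).integrable_of_hasCompactSupport (hu.2.fderiv_apply ℝ v).mul_right

theorem int2 {u f : E2 → ℝ} (hu : CS u) (hf : Continuous f) : Integrable fun x => u x * f x :=
  (hu.1.continuous.mul hf).integrable_of_hasCompactSupport hu.2.mul_right

theorem ibp {u f : E2 → ℝ} (hu : CS u) (hf : ContDiff ℝ ∞ f) (v : E2) :
    ∫ x, u x * fderiv ℝ f x v = -∫ x, fderiv ℝ u x v * f x :=
  integral_mul_fderiv_eq_neg_fderiv_mul_of_integrable (int1 hu hf.continuous v)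
    (int2 hu (cont_fd hf v)) (int2 hu hf.continuous)
    (fun x _ => hu.1.differentiable (by simp) x) fun x _ => hf.differentiable (by simp) x

theorem weak {f g : E2 → ℝ} (hf : ContDiff ℝ ∞ f) (hg : ContDiff ℝ ∞ g) {v w : E2} {B : Set E2}
    (hB : IsOpen B) (h : ∀ u, CS u → tsupport u ⊆ B →
      ∫ x, (fderiv ℝ u x v * f x - fderiv ℝ u x w * g x) = 0) :
    ∀ x ∈ B, fderiv ℝ f x v = fderiv ℝ g x w := by
  have hc : Continuous fun x => fderiv ℝ f x v - fderiv ℝ g x w := (cont_fd hf v).sub (cont_fd hg w)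
  have h1 := hB.ae_eq_zero_of_integral_contDiff_smul_eq_zero (μ := volume)
    (hc.locallyIntegrable.locallyIntegrableOn B) fun u hu hu' hs => by
      have hcs : CS u := ⟨hu, hu'⟩
      have h2 := h u hcs hs
      rw [integral_sub (int1 hcs hf.continuous v) (int1 hcs hg.continuous w)] at h2
      simp only [smul_eq_mul, mul_sub]
      rw [integral_sub (int2 hcs (cont_fd hf v)) (int2 hcs (cont_fd hg w)), ibp hcs hf, ibp hcs hg]
      linarith
  have h2 : EqOn (fun x => fderiv ℝ f x v - fderiv ℝ g x w) (fun _ => 0) B :=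
    Measure.eqOn_open_of_ae_eq (μ := volume) ((ae_restrict_iff' hB.measurableSet).2 h1) hB
      hc.continuousOn continuousOn_const
  exact fun x hx => sub_eq_zero.1 (h2 hx)

/-- the real coefficients as a linear map -/
def rcL (q : Fin 4) : E2 →L[ℝ] ℝ :=
  LinearMap.toContinuousLinearMap
    { toFun := fun a => rc a q
      map_add' := fun a b => congrFun (rc_add a b) q
      map_smul' := fun t a => congrFun (rc_smul t a) q }

theorem rc_sm {b : E2 → E2} (hb : ContDiff ℝ ∞ b) (q : Fin 4) :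
    ContDiff ℝ ∞ fun x => rc (b x) q := (rcL q).contDiff.comp hb

theorem rc_fd {b : E2 → E2} {x : E2} (hb : DifferentiableAt ℝ b x) (q : Fin 4) (v : E2) :
    fderiv ℝ (fun y => rc (b y) q) x v = rc (fderiv ℝ b x v) q := by
  have h : HasFDerivAt (fun y => rc (b y) q) ((rcL q).comp (fderiv ℝ b x)) x :=
    (rcL q).hasFDerivAt.comp x hb.hasFDerivAt
  rw [h.fderiv]
  rfl

theorem co_sm (i : Fin 4) : ContDiff ℝ ∞ fun x => co x i := by
  have h : ∀ k : Fin 2, ContDiff ℝ ∞ fun x : E2 => x k := fun k => contDiff_apply ℝ ℂ k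
  fin_cases i
  · exact Complex.reCLM.contDiff.comp (h 0)
  · exact Complex.imCLM.contDiff.comp (h 0)
  · exact Complex.reCLM.contDiff.comp (h 1)
  · exact Complex.imCLM.contDiff.comp (h 1)

theorem c1_of {b : E2 → E2} {x : E2} (hb : DifferentiableAt ℝ b x)
    (h : ∀ p q, p < q → rc (fderiv ℝ b x (bv p)) q = rc (fderiv ℝ b x (bv q)) p) : C1 b x := by
  have e : ∀ (j : Fin 2) (v : E2), fderiv ℝ (fun y => b y j) x v = fderiv ℝ b x v j := fun j v => by
    rw [(hasFDerivAt_pi'.1 hb.hasFDerivAt j).fderiv]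
    rfl
  have h01 := h 0 1 (by decide)
  have h02 := h 0 2 (by decide)
  have h03 := h 0 3 (by decide)
  have h12 := h 1 2 (by decide)
  have h13 := h 1 3 (by decide)
  have h23 := h 2 3 (by decide)
  unfold C1 dba
  simp only [dh, db, e]
  change -2 * (fderiv ℝ b x (Pi.single 0 1) 0).im =
    2 * (fderiv ℝ b x (Pi.single 0 Complex.I) 0).re at h01
  change 2 * (fderiv ℝ b x (Pi.single 0 1) 1).re = 2 * (fderiv ℝ b x (Pi.single 1 1) 0).re at h02
  change -2 * (fderiv ℝ b x (Pi.single 0 1) 1).im =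
    2 * (fderiv ℝ b x (Pi.single 1 Complex.I) 0).re at h03
  change 2 * (fderiv ℝ b x (Pi.single 0 Complex.I) 1).re =
    -2 * (fderiv ℝ b x (Pi.single 1 1) 0).im at h12
  change -2 * (fderiv ℝ b x (Pi.single 0 Complex.I) 1).im =
    -2 * (fderiv ℝ b x (Pi.single 1 Complex.I) 0).im at h13
  change -2 * (fderiv ℝ b x (Pi.single 1 1) 1).im =
    2 * (fderiv ℝ b x (Pi.single 1 Complex.I) 1).re at h23
  constructor
  · apply Complex.ext <;> simp <;> linarith
  · ext j k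
    fin_cases j <;> fin_cases k <;> apply Complex.ext <;> simp <;> linarith

theorem det_pair (p q : Fin 4) (h : p < q) : ∃ i j : Fin 4, ∀ v w : Fin 4 → ℝ,
    det4 [v, Pi.single i 1, Pi.single j 1, w] = v p * w q - v q * w p := by
  have key : ∀ (i j : Fin 4) (v w : Fin 4 → ℝ), det4 [v, Pi.single i 1, Pi.single j 1, w] =
      Matrix.det (Matrix.of ![v, Pi.single i 1, Pi.single j 1, w]) := fun _ _ _ _ => rfl
  fin_cases p <;> fin_cases q <;> simp at h
  · exact ⟨2, 3, fun v w => by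
      simp [key, Matrix.det_succ_row_zero, Fin.sum_univ_succ, Fin.succAbove]; ring⟩
  · exact ⟨3, 1, fun v w => by
      simp [key, Matrix.det_succ_row_zero, Fin.sum_univ_succ, Fin.succAbove]; ring⟩
  · exact ⟨1, 2, fun v w => by
      simp [key, Matrix.det_succ_row_zero, Fin.sum_univ_succ, Fin.succAbove]; ring⟩
  · exact ⟨0, 3, fun v w => by
      simp [key, Matrix.det_succ_row_zero, Fin.sum_univ_succ, Fin.succAbove]; ring⟩
  · exact ⟨2, 0, fun v w => by
      simp [key, Matrix.det_succ_row_zero, Fin.sum_univ_succ, Fin.succAbove]; ring⟩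
  · exact ⟨0, 1, fun v w => by
      simp [key, Matrix.det_succ_row_zero, Fin.sum_univ_succ, Fin.succAbove]; ring⟩

theorem flat {b : E2 → E2} (hb : ContDiff ℝ ∞ b) {B : Set E2} (hB : IsOpen B)
    (h : ∀ u, CS u → tsupport u ⊆ B → ∀ i j,
      ∫ x, det4 [gr u x, Pi.single i 1, Pi.single j 1, rc (b x)] = 0) : ∀ x ∈ B, C1 b x := by
  intro x hx
  have hd : DifferentiableAt ℝ b x := hb.differentiable (by simp) x
  refine c1_of hd fun p q hpq => ?_
  obtain ⟨i, j, hij⟩ := det_pair p q hpq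
  rw [← rc_fd hd, ← rc_fd hd]
  refine weak (rc_sm hb q) (rc_sm hb p) hB (fun u hu hs => ?_) x hx
  have := h u hu hs i j
  simpa only [hij, gr] using this

theorem c1_congr {a b : E2 → E2} {x : E2} (e : a =ᶠ[𝓝 x] b) (h : C1 b x) : C1 a x := by
  have e' : ∀ j, fderiv ℝ (fun y => a y j) x = fderiv ℝ (fun y => b y j) x := fun j =>
    EventuallyEq.fderiv_eq (e.mono fun y hy => congrFun hy j)
  unfold C1 dba at h ⊢
  simpa only [dh, db, e'] using h

theorem du_congr {u v : E2 → ℝ} {x : E2} (e : u =ᶠ[𝓝 x] v) : du u x = du v x := by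
  have e' : fderiv ℝ (fun y => (u y : ℂ)) x = fderiv ℝ (fun y => (v y : ℂ)) x :=
    EventuallyEq.fderiv_eq (e.mono fun y hy => congrArg Complex.ofReal hy)
  funext j
  simp only [du, dh, e']

variable {Z Λ : Type} [TopologicalSpace Z] {A : KA Z Λ}

theorem ext_symm (l : Λ) (u : E2 → ℝ) {x : E2} (hx : x ∈ ball (0 : E2) 4) :
    A.ext l u ∘ (A.e l).symm =ᶠ[𝓝 x] u :=
  (isOpen_ball.eventually_mem hx).mono fun y hy => by
    rw [Function.comp_apply, KA.ext, indicator_of_mem (A.symm_mem l hy), A.e_symm l hy]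

theorem rc_d (hc : Calc) (l : Λ) {u v : E2 → ℝ} {x : E2} (hx : x ∈ ball (0 : E2) 4)
    (e : u =ᶠ[𝓝 x] v) (hv : DifferentiableAt ℝ v x) : rc (A.d (A.ext l u) l x) = gr v x := by
  rw [KA.d, du_congr ((ext_symm l u hx).trans e), hc.rc_du v x hv]

end PCl3

variable {Z Λ : Type} [TopologicalSpace Z] [T2Space Z] [MeasurableSpace Z] [BorelSpace Z]
  {A : KA Z Λ}

open PCl3 in
theorem cl3 (h : A.Std) : A.Cl3 := by
  intro θ O hO hθ H
  refine h.bas.ex_of θ O hO hθ fun z hz l hl => ?_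
  have hW : ∀ᶠ x in 𝓝 (A.e l z), x ∈ ball (0 : E2) 4 ∧ (A.e l).symm x ∈ O :=
    (isOpen_ball.eventually_mem (A.map_src hl)).and (A.ev_symm hl (hO.eventually_mem hz))
  generalize A.e l z = x₀ at hW
  obtain ⟨R, hR, hW⟩ := Metric.eventually_nhds_iff_ball.1 hW
  let χ : ContDiffBump x₀ := ⟨R / 4, R / 2, by linarith, by linarith⟩
  have hχ : tsupport χ ⊆ ball x₀ R := by
    rw [χ.tsupport_eq]
    exact closedBall_subset_ball (by change R / 2 < R; linarith)
  have hB : ball x₀ (R / 4) ⊆ ball x₀ R := ball_subset_ball (by linarith)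
  have h1 : ∀ x ∈ ball x₀ (R / 4), ∀ᶠ y in 𝓝 x, χ y = 1 := fun x hx =>
    χ.eventuallyEq_one_of_mem_ball hx
  have hS : ∀ x ∈ ball x₀ R, A.S1 θ ((A.e l).symm x) := fun x hx => hθ _ (hW x hx).2
  have hb : ContDiff ℝ ∞ fun x => χ x • θ l x := by
    rw [contDiff_iff_contDiffAt]
    intro x
    by_cases hx : x ∈ tsupport χ
    · have h2 := (hS x (hχ hx)).2 l (A.symm_mem l (hW x (hχ hx)).1)
      rw [A.e_symm l (hW x (hχ hx)).1] at h2
      exact χ.contDiffAt.smul h2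
    · refine (contDiffAt_const (c := 0)).congr_of_eventuallyEq
        ((notMem_tsupport_iff_eventuallyEq.1 hx).mono fun y hy => ?_)
      change χ y • θ l y = 0
      rw [hy, Pi.zero_apply, zero_smul]
  have hg : ∀ i, A.D (A.ext l fun x => χ x * co x i) := fun i =>
    (h.bump.ext_D l _ ⟨χ.contDiff.mul (co_sm i), χ.hasCompactSupport.mul_right⟩
      (((tsupport_mul_subset_left (f := χ)).trans hχ).trans fun x hx => (hW x hx).1)).1
  refine c1_congr (b := fun x => χ x • θ l x)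
    ((h1 x₀ (mem_ball_self (by linarith))).mono fun y hy => by simp only [hy, one_smul])
    (flat hb isOpen_ball (B := ball x₀ (R / 4)) (fun u hu hs i j => ?_) x₀
      (mem_ball_self (by linarith)))
  have hB4 : ball x₀ (R / 4) ⊆ ball (0 : E2) 4 := fun x hx => (hW x (hB hx)).1
  obtain ⟨hf, hf'⟩ := h.bump.ext_D l u hu (hs.trans hB4)
  have h2 := H _ _ _ hf (by
    rw [hf']
    rintro _ ⟨x, hx, rfl⟩
    exact (hW x (hB (hs hx))).2) (hg i).1 (hg j).1
  rw [← setIntegral_eq_integral_of_forall_compl_eq_zero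
    (s := (A.e l).symm '' ball x₀ (R / 4)) (fun w hw => ?_),
    (h.meas.int l _ measurableSet_ball hB4 _).2] at h2
  · rw [← setIntegral_eq_integral_of_forall_compl_eq_zero (s := ball x₀ (R / 4)) (fun x hx => ?_),
      ← h2]
    · refine setIntegral_congr_fun measurableSet_ball fun x hx => ?_
      have hx4 := hB4 hx
      have hpos : dt (A.met l x) ≠ 0 := (A.pos (A.ty l) x hx4).2.2.ne'
      have hco : ∀ i, rc (A.d (A.ext l fun x => χ x * co x i) l x) = Pi.single i 1 := fun i => by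
        rw [rc_d h.clc l hx4 (v := fun y => co y i)
          ((h1 x hx).mono fun y hy => by simp only [hy, one_mul])
          ((co_sm i).differentiable (by simp) x), h.clc.gr_co]
      change _ = A.Dt _ ((A.e l).symm x) * dt (A.met l x)
      rw [h.bas.Dt_eq _ _ l ?_ (A.symm_mem l hx4), A.e_symm l hx4, div_mul_cancel₀ _ hpos]
      · simp only [List.map_cons, List.map_nil]
        rw [hco, hco, rc_d h.clc l hx4 EventuallyEq.rfl (hu.1.differentiable (by simp) x),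
          (h1 x hx).self_of_nhds, one_smul]
      · intro a ha
        simp only [List.mem_cons, List.not_mem_nil, or_false] at ha
        rcases ha with rfl | rfl | rfl | rfl
        · exact (h.bas.s1_d _ _ (hf.1 _)).1
        · exact (h.bas.s1_d _ _ ((hg i).1 _)).1
        · exact (h.bas.s1_d _ _ ((hg j).1 _)).1
        · exact (hS x (hB hx)).1
    · refine det4_zero ?_
      have : gr u x = 0 := funext fun k =>
        image_eq_zero_of_notMem_tsupport (f := fun y => fderiv ℝ u y (bv k))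
          fun h' => hx (hs (tsupport_fderiv_apply_subset ℝ _ h'))
      rw [this]
      exact List.mem_cons_self
  · have h3 : A.Eq1 (A.d (A.ext l u)) 0 w := by
      by_contra h'
      exact hw (image_mono hs (hf' ▸ (h.bas.L_D _ hf).2.2 (subset_closure h')))
    rw [KA.Dt, det4_zero, zero_div]
    simp only [List.map_cons]
    rw [h3.v1]
    exact List.mem_cons.2 (Or.inl rc_zero.symm)

end Pool.Agent.Lib.MP_356dfe_ag.S
end
end
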