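import Pool.Agent.Lib.MP_356dfe_ag.S.Basic

-- part Pool.Agent.Lib.MP_356dfe_ag.S.PH1
section

/-! Degree one and degrees above four. -/

set_option autoImplicit false

open Set Filter Topology Metric MeasureTheory
open scoped ContDiff ComplexConjugate Matrix Pointwise

noncomputable section

namespace Pool.Agent.Lib.MP_356dfe_ag.S

variable {G Z : Type} [Group G] [TopologicalSpace Z] [T2Space Z] [MulAction G Z]
  [MeasurableSpace Z] [BorelSpace Z] {m n : ℕ} {Γ : Geo G Z m n}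

namespace PH1

section Comb

variable {𝒜 : Set (Finset (Vx G n))} {c : Finset (Vx G n) → ℝ}

/-- the alternating form of a cochain on edges -/
def cc (c : Finset (Vx G n) → ℝ) (i j : Vx G n) : ℝ := sg j (insert j {i}) * c (insert j {i})

/-- the sum of a table over the two orientations of an edge -/
def ww {M : Type} [AddCommGroup M] [Module ℝ M] (t : Vx G n → Vx G n → M) (σ : Finset (Vx G n)) :
    M := ∑ j ∈ σ, ∑ i ∈ σ.erase j, sg j σ • t i j

omit [Group G] in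
theorem cc_self (hc : ∀ σ, c σ ≠ 0 → σ.card = 2) (i : Vx G n) : cc c i i = 0 := by
  have : c (insert i {i}) = 0 := by
    by_contra h
    simpa using hc _ h
  rw [cc, this, mul_zero]

omit [Group G] in
theorem eq_pair {σ : Finset (Vx G n)} (h : σ.card = 2) {i j : Vx G n} (hj : j ∈ σ) (hi : i ∈ σ)
    (hij : i ≠ j) : σ = insert j {i} :=
  (Finset.eq_of_subset_of_card_le (Finset.insert_subset hj (Finset.singleton_subset_iff.2 hi))
    (by rw [h, Finset.card_pair hij.symm])).symm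

omit [Group G] in
theorem ww_out {M : Type} [AddCommGroup M] [Module ℝ M] (hc : ∀ σ, c σ ≠ 0 → σ.card = 2)
    {S : Finset (Vx G n)} {t : Vx G n → Vx G n → M} (ht : ∀ i j, t i j ≠ 0 → i ∈ S ∧ j ∈ S) :
    ∀ σ ∉ S.powerset, c σ • ww t σ = 0 := by
  intro σ hσ
  by_cases h : c σ = 0
  · rw [h, zero_smul]
  rw [ww, Finset.sum_eq_zero, smul_zero]
  refine fun j hj => Finset.sum_eq_zero fun i hi => ?_
  have : t i j = 0 := by
    by_contra h'
    rw [eq_pair (hc σ h) hj (Finset.mem_of_mem_erase hi) (Finset.ne_of_mem_erase hi)] at hσ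
    exact hσ (Finset.mem_powerset.2
      (Finset.insert_subset (ht i j h').2 (Finset.singleton_subset_iff.2 (ht i j h').1)))
  rw [this, smul_zero]

omit [Group G] in
theorem ww_sum {M : Type} [AddCommGroup M] [Module ℝ M] (hc : ∀ σ, c σ ≠ 0 → σ.card = 2)
    (S : Finset (Vx G n)) (t : Vx G n → Vx G n → M) :
    ∑ σ ∈ S.powerset, c σ • ww t σ = ∑ i ∈ S, ∑ j ∈ S, cc c i j • t i j := by
  have e : ∀ σ ∈ S.powerset, c σ • ww t σ = ∑ j ∈ S, ∑ i ∈ S,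
      if j ∈ σ ∧ i ∈ σ.erase j then (sg j σ * c σ) • t i j else 0 := fun σ hσ => by
    have hs := Finset.mem_powerset.1 hσ
    rw [ww, Finset.smul_sum, ← Finset.sum_subset hs fun j _ hj => by simp [hj]]
    refine Finset.sum_congr rfl fun j hj => ?_
    rw [Finset.smul_sum, ← Finset.sum_subset ((σ.erase_subset j).trans hs) fun i _ hi =>
      if_neg fun h => hi h.2]
    exact Finset.sum_congr rfl fun i hi => by rw [if_pos ⟨hj, hi⟩, smul_smul, mul_comm]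
  rw [Finset.sum_congr rfl e, Finset.sum_comm, Finset.sum_comm (s := S) (t := S)]
  refine Finset.sum_congr rfl fun j hj => ?_
  rw [Finset.sum_comm]
  refine Finset.sum_congr rfl fun i hi => ?_
  by_cases hij : i = j
  · rw [hij, cc_self hc, zero_smul]
    exact Finset.sum_eq_zero fun σ _ => if_neg fun h => Finset.notMem_erase j σ h.2
  rw [Finset.sum_eq_single (insert j {i}), if_pos (by simp [hij]), cc]
  · intro σ _ hne
    split_ifs with h
    · have : c σ = 0 := by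
        by_contra h'
        exact hne (eq_pair (hc σ h') h.1 (Finset.mem_of_mem_erase h.2) hij)
      rw [this, mul_zero, zero_smul]
    · rfl
  · exact fun h => (h (Finset.mem_powerset.2
      (Finset.insert_subset hj (Finset.singleton_subset_iff.2 hi)))).elim

omit [Group G] in
theorem sg_prod (j : Vx G n) (σ : Finset (Vx G n)) :
    sg j σ = ∏ i ∈ σ, if i.2 < j.2 then -1 else 1 := by
  rw [← Finset.prod_filter, Finset.prod_const, sg]

theorem cc_cocycle (h : Cx 𝒜) (hc : ∀ σ, c σ ≠ 0 → σ.card = 2) (h0 : ∀ σ ∈ 𝒜, cob c σ = 0)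
    {k i j : Vx G n} (hm : insert k (insert i {j}) ∈ 𝒜) : cc c i j = cc c k j - cc c k i := by
  have hn : ∀ a ∈ insert k (insert i ({j} : Finset _)), ∀ b ∈ insert k (insert i ({j} : Finset _)),
      a ≠ b → (if b.2 < a.2 then (-1 : ℝ) else 1) = -if a.2 < b.2 then -1 else 1 :=
    fun a ha b hb hab => by
      rcases lt_or_gt_of_ne fun e => hab (h.inj _ hm a ha b hb e) with h' | h'
      · rw [if_pos h', if_neg h'.not_gt, neg_neg]
      · rw [if_pos h', if_neg h'.not_gt]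
  by_cases hij : i = j
  · rw [hij, cc_self hc, sub_self]
  by_cases hki : k = i
  · rw [hki, cc_self hc, sub_zero]
  have p2 : ∀ a b : Vx G n, a ≠ b →
      cc c a b = (if a.2 < b.2 then (-1 : ℝ) else 1) * c (insert a {b}) := fun a b hab => by
    rw [cc, Finset.pair_comm b a, sg_insert (by simpa using hab), sg_single, mul_one]
  have h1 := hn k (by simp) i (by simp) hki
  by_cases hkj : k = j
  · subst hkj
    rw [cc_self hc, p2 _ _ hij, p2 _ _ hki, h1, Finset.pair_comm i k]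
    ring
  have h2 := hn k (by simp) j (by simp) hkj
  have h3 := hn i (by simp) j (by simp) hij
  have n1 : k ∉ insert i ({j} : Finset _) := by simp [hki, hkj]
  have n2 : i ∉ ({j} : Finset _) := by simpa using hij
  have e1 : (insert k (insert i {j}) : Finset _).erase i = insert k {j} := by
    rw [Finset.erase_insert_of_ne hki, Finset.erase_insert n2]
  have e2 : (insert k (insert i {j}) : Finset _).erase j = insert k {i} := by
    rw [Finset.erase_insert_of_ne hkj, Finset.pair_comm i j,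
      Finset.erase_insert (by simpa using Ne.symm hij)]
  have := h0 _ hm
  rw [cob, Finset.sum_insert n1, Finset.sum_insert n2, Finset.sum_singleton, e1, e2,
    Finset.erase_insert n1] at this
  simp only [sg_prod, Finset.prod_insert n1, Finset.prod_insert n2, Finset.prod_singleton,
    lt_irrefl, if_false, h1, h2, h3] at this
  rw [p2 _ _ hij, p2 _ _ hkj, p2 _ _ hki]
  split_ifs at this ⊢ <;> linarith

theorem nb_sum (h : Cx 𝒜) (hc : ∀ σ, c σ ≠ 0 → σ ∈ 𝒜 ∧ σ.card = 2) {S : Finset (Vx G n)}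
    {t : Vx G n → Vx G n → ℝ} (ht : ∀ i j, t i j ≠ 0 → i ∈ S ∧ j ∈ S) :
    ∑ᶠ i, ∑ j ∈ nb 𝒜 {i}, cc c i j • t i j = ∑ i ∈ S, ∑ j ∈ S, cc c i j • t i j := by
  rw [finsum_eq_sum_of_support_subset (s := S)]
  · refine Finset.sum_congr rfl fun i _ => ?_
    rw [← Finset.sum_subset (Finset.inter_subset_left (s₂ := S)),
      ← Finset.sum_subset (Finset.inter_subset_right (s₁ := nb 𝒜 {i}) (s₂ := S))]
    · intro j hj hj'
      have : c (insert j {i}) = 0 := by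
        by_contra h'
        refine hj' (Finset.mem_inter.2 ⟨(h.mem_nb (Finset.singleton_nonempty i)).2
          ⟨fun e => ?_, (hc _ h').1⟩, hj⟩)
        have := (hc _ h').2
        rw [Finset.insert_eq_of_mem e] at this
        simp at this
      rw [cc, this, mul_zero, zero_smul]
    · intro j hj hj'
      rw [not_not.1 fun h' => hj' (Finset.mem_inter.2 ⟨hj, (ht i j h').2⟩), smul_zero]
  · intro i hi
    by_contra hi'
    exact hi (Finset.sum_eq_zero fun j _ => by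
      rw [not_not.1 fun h' => hi' (ht i j h').1, smul_zero])

end Comb

omit [T2Space Z] [BorelSpace Z]

section Cal

omit [MeasurableSpace Z]

variable {Λ : Type} {A : KA Z Λ}

theorem d_zero (h : A.Bas) : A.d 0 = 0 := by
  simpa using h.d_smul 0 0

theorem d_sum (h : A.Bas) {ι : Type} (s : Finset ι) (t : ι → ℝ) {U : ι → Z → ℝ} {z : Z}
    (hU : ∀ i, A.Sm (U i) z) : A.Sm (∑ i ∈ s, t i • U i) z ∧
      A.Eq1 (A.d (∑ i ∈ s, t i • U i)) (∑ i ∈ s, t i • A.d (U i)) z := by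
  classical
  induction s using Finset.induction_on with
  | empty => exact ⟨KA.sm_const 0 z, fun l _ => by rw [Finset.sum_empty, d_zero h]; rfl⟩
  | insert i s hi ih =>
    have h1 : A.Sm (t i • U i) z := (KA.sm_const (t i) z).mul (hU i)
    rw [Finset.sum_insert hi, Finset.sum_insert hi]
    refine ⟨h1.add ih.1, fun l hl => ?_⟩
    rw [h.d_add _ _ z h1 ih.1 l hl, h.d_smul]
    simp only [Pi.add_apply, ih.2 l hl]

theorem d_const (h : A.Bas) {U : Z → ℝ} {z : Z} {c : ℝ} (hU : ∀ᶠ w in 𝓝 z, U w = c) :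
    A.Eq1 (A.d U) 0 z :=
  d_zero h ▸ (h.d_congr U 0 z c (by simpa using hU)).self_of_nhds

end Cal

variable (Γ) in
/-- the elementary form of an edge -/
def wf (ψ : Vx G n → Z → ℝ) : Finset (Vx G n) → F1 (Vx G m) :=
  ww fun i j => Γ.A.sm1 (ψ i) (Γ.A.d (ψ j))

variable {a₀ : ℝ} {ψ : Vx G n → Z → ℝ} {c : Finset (Vx G n) → ℝ}

omit [MeasurableSpace Z] in
theorem wf_apply (σ : Finset (Vx G n)) (l : Vx G m) (x : E2) : wf Γ ψ σ l x =
    ww (fun i j => ψ i ((Γ.A.e l).symm x) • Γ.A.d (ψ j) l x) σ := by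
  simp only [wf, ww, Finset.sum_apply, Pi.smul_apply, KA.sm1]

omit [MeasurableSpace Z] in
theorem ev_zero (hψ : Γ.Part a₀ ψ) {l : Vx G n} {z : Z} (hz : z ∉ Γ.V l) :
    ∀ᶠ w in 𝓝 z, ψ l w = 0 :=
  notMem_tsupport_iff_eventuallyEq.1 fun h => hz ((hψ.1 l).2 h)

theorem s1_el (h : Γ.Std) (hψ : Γ.Part a₀ ψ) (i j : Vx G n) (z : Z) :
    Γ.A.S1 (Γ.A.sm1 (ψ i) (Γ.A.d (ψ j))) z :=
  h.std.bas.s1_sm1 _ _ z ((hψ.1 i).1.1 z) (h.std.bas.s1_d _ z ((hψ.1 j).1.1 z))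

theorem fam [T2Space Z] (h : Γ.Std) (hψ : Γ.Part a₀ ψ) (𝒮 : Set (Finset (Vx G n))) :
    Γ.Fam 𝒮 (wf Γ ψ) := by
  refine ⟨fun σ _ => ⟨fun z => KA.s1_sum fun j _ => KA.s1_sum fun i _ =>
    (s1_el h hψ i j z).smul _, ?_⟩, fun σ _ g => ?_⟩
  · refine (σ.isCompact_biUnion fun i _ => (hψ.1 i).1.2.isCompact).closure_of_subset
      fun z hz => ?_
    by_contra hc
    refine hz fun l hl => ?_
    rw [wf_apply, (Γ.A.e l).left_inv hl]
    refine Finset.sum_eq_zero fun j _ => Finset.sum_eq_zero fun i hi => ?_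
    have : ψ i z = 0 := image_eq_zero_of_notMem_tsupport fun h' =>
      hc (mem_iUnion₂.2 ⟨i, Finset.mem_of_mem_erase hi, h'⟩)
    simp only [this, zero_smul, smul_zero]
  · have inj : Function.Injective fun l : Vx G n => g • l := MulAction.injective g
    have e : ∀ (τ : Finset (Vx G n)) (f : Vx G n → F1 (Vx G m)),
        ∑ j ∈ g • τ, f j = ∑ j ∈ τ, f (g • j) := fun τ f => by
      rw [Finset.smul_finset_def, Finset.sum_image inj.injOn]
    have e' : ∀ j, (g • σ).erase (g • j) = g • σ.erase j := fun j => by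
      rw [Finset.smul_finset_def, Finset.smul_finset_def, Finset.image_erase inj]
    simp only [wf, ww, e, e', sg_smul, hψ.2.1, h.inv.d, h.inv.sm1]
    funext l
    simp only [act1, Finset.sum_apply, Pi.smul_apply]

theorem ex (h : Γ.Std) (hψ : Γ.Part a₀ ψ) (ha : Γ.a ≤ a₀) (hc : L2 Γ.𝒜 2 c)
    (h0 : ∀ σ ∈ Γ.𝒜, cob c σ = 0) (z : Z) (hz : a₀ < Γ.ρ z) : Γ.A.Ex (sumF c (wf Γ ψ)) z := by
  have B := h.std.bas
  obtain ⟨k, hk⟩ := mem_iUnion.1 (Γ.V_cov.ge (ha.trans_lt hz))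
  have hO : IsOpen (Γ.V k ∩ {w | a₀ < Γ.ρ w}) := (Γ.V_op k).inter (isOpen_lt continuous_const
    (continuous_iff_continuousAt.2 fun w => B.sm_cont _ w (Γ.nbh.sm w)))
  set s := insert k (nb Γ.𝒜 {k})
  have hs : ∀ w ∈ Γ.V k, ∀ i, w ∈ Γ.V i → i ∈ s := fun w hw i hi => by
    by_cases e : i = k
    · exact Finset.mem_insert.2 (Or.inl e)
    · refine Finset.mem_insert_of_mem ((h.inv.cxA.mem_nb (Finset.singleton_nonempty k)).2
        ⟨by simpa using e, Finset.insert_nonempty _ _, w, ?_⟩)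
      simp [VV, hi, hw]
  have h1 : ∀ w ∈ Γ.V k ∩ {w | a₀ < Γ.ρ w}, ∑ i ∈ s, ψ i w = 1 := fun w hw => by
    rw [← hψ.2.2 w hw.2, finsum_eq_sum_of_support_subset]
    exact fun i hi => hs w hw.1 i ((hψ.1 i).2 (subset_tsupport _ hi))
  refine ⟨∑ j ∈ s, cc c k j • ψ j, ?_⟩
  filter_upwards [hO.mem_nhds ⟨hk, hz⟩] with w hw
  have hd := fun t => d_sum B s t (U := ψ) (z := w) fun i => (hψ.1 i).1.1 w
  refine ⟨(hd _).1, fun l hl => ?_⟩
  have h2 : ∑ j ∈ s, Γ.A.d (ψ j) l (Γ.A.e l w) = 0 := by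
    have := (hd fun _ => 1).2 l hl
    rw [d_const B (c := 1) ((hO.eventually_mem hw).mono fun v hv => by simpa using h1 v hv) l hl]
      at this
    simpa using this.symm
  have h3 : ∀ i j, ψ i w • Γ.A.d (ψ j) l (Γ.A.e l w) ≠ 0 → w ∈ Γ.V i ∧ w ∈ Γ.V j :=
    fun i j hne => by
      refine ⟨by_contra fun hi => hne ?_, by_contra fun hj => hne ?_⟩
      · rw [(ev_zero hψ hi).self_of_nhds, zero_smul]
      · rw [d_const B (ev_zero hψ hj) l hl]
        exact smul_zero _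
  have hc2 : ∀ σ, c σ ≠ 0 → σ.card = 2 := fun σ hσ => (hc.1 σ hσ).2
  rw [(hd _).2 l hl, sumF]
  simp only [wf_apply, (Γ.A.e l).left_inv hl]
  rw [finsum_eq_sum_of_support_subset (s := s.powerset) _ fun σ hσ => by_contra fun h' =>
    hσ (ww_out hc2 (fun i j hne => ⟨hs w hw.1 i (h3 i j hne).1, hs w hw.1 j (h3 i j hne).2⟩) σ h'),
    ww_sum hc2]
  have h4 : ∀ i j, cc c i j • ψ i w • Γ.A.d (ψ j) l (Γ.A.e l w) =
      ψ i w • cc c k j • Γ.A.d (ψ j) l (Γ.A.e l w) -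
        (cc c k i * ψ i w) • Γ.A.d (ψ j) l (Γ.A.e l w) := fun i j => by
    rw [smul_comm (ψ i w), mul_smul, ← sub_smul]
    by_cases hne : ψ i w • Γ.A.d (ψ j) l (Γ.A.e l w) = 0
    · rw [hne, smul_zero, smul_zero]
    · rw [cc_cocycle h.inv.cxA hc2 h0 (k := k) ⟨Finset.insert_nonempty _ _, w, by
        simp [VV, hw.1, h3 i j hne]⟩]
  simp only [h4, Finset.sum_sub_distrib, ← Finset.smul_sum, h2, smul_zero,
    sub_zero, ← Finset.sum_smul, h1 w hw, one_smul, Finset.sum_apply, Pi.smul_apply]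

theorem fib (h : Γ.Std) (hψ : Γ.Part a₀ ψ) (hc : L2 Γ.𝒜 2 c) {ξ : FF Z} {k : ℕ}
    (hξ : Γ.A.In univ k ξ) :
    HasSum (fun σ => c σ * Γ.A.ev ξ 1 [wf Γ ψ σ]) (GW Γ.𝒜 ψ c 1 (Γ.A.cur ξ)) := by
  have hK : IsCompact (⋃ q ∈ ξ.support, tsupport q.1) :=
    ξ.support.isCompact_biUnion fun q hq => (hξ q hq).1.2.isCompact
  have hS := h.inv.lfV _ hK
  have ht : ∀ i j, Γ.A.cur ξ (ψ i) [ψ j] ≠ 0 → i ∈ hS.toFinset ∧ j ∈ hS.toFinset :=
    fun i j hne => by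
      have N := (h.evl.cur _ _ _ hξ).nul (ψ i) (hψ.1 i).1.1 [ψ j] (by simpa using (hψ.1 j).1.1)
      simp only [Finite.mem_toFinset, mem_ofPred_eq]
      refine ⟨by_contra fun hi => hne (N fun x hx => Or.inl ?_),
        by_contra fun hj => hne (N fun x hx => Or.inr ⟨ψ j, List.mem_singleton_self _, ?_⟩)⟩
      · exact ev_zero hψ fun hx' => hi ⟨x, hx', hx⟩
      · have := ev_zero hψ fun hx' => hj ⟨x, hx', hx⟩
        rwa [this.self_of_nhds]
  have e : ∀ σ, Γ.A.ev ξ 1 [wf Γ ψ σ] = ww (fun i j => Γ.A.cur ξ (ψ i) [ψ j]) σ := fun σ => by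
    have := h.evl.sum _ (σ.sigma fun j => σ.erase j) (fun p => sg p.1 σ)
      (fun p => Γ.A.sm1 (ψ p.2) (Γ.A.d (ψ p.1))) (wf Γ ψ σ) _ _ ξ 1 [] [] hξ h.evl.cls.one
      (by simp) (fun p _ => s1_el h hψ _ _) fun _ _ _ _ _ _ => by rw [wf, ww, Finset.sum_sigma']
    simp only [h.evl.mul _ _ _ _ _ _ _ _ hξ, one_mul] at this
    rw [ww, Finset.sum_sigma']
    exact this
  have hc2 : ∀ σ, c σ ≠ 0 → σ.card = 2 := fun σ hσ => (hc.1 σ hσ).2
  have e' : GW Γ.𝒜 ψ c 1 (Γ.A.cur ξ) =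
      ∑ᶠ i, ∑ j ∈ nb Γ.𝒜 {i}, cc c i j • Γ.A.cur ξ (ψ i) [ψ j] := by
    simp only [GW, Pr, cc, mul_smul]
  rw [e', nb_sum h.inv.cxA hc.1 ht, ← ww_sum hc2]
  simp only [e]
  exact hasSum_sum_of_ne_finset_zero (ww_out hc2 ht)

end PH1

theorem h1 (h : Γ.Std) (hc : Γ.CubeE) (hp : Γ.PartE) (hz : Γ.ZC) (hg : Γ.Gbd) (hq : Γ.Pair) :
    H1 Γ.𝒜 := by
  obtain ⟨γ, a', b', hγ, hl⟩ := hc
  obtain ⟨a₀, h0, h1⟩ := exists_between hl.1
  obtain ⟨ψ, hψ⟩ := hp a₀ h0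
  intro c z hc hz' hcc hzz
  have H := hz γ a' b' a₀ ψ hγ hl h1.le hψ 1 c z hc hz' hcc fun τ hτ => Or.inl (hzz τ hτ)
  have hO : Orb G {σ | σ ∈ Γ.𝒜 ∧ σ.card = 2} :=
    ⟨fun σ hσ g => ⟨h.inv.orb.inv σ hσ.1 g, (Finset.card_smul_finset g σ).trans hσ.2⟩,
      fun σ hσ => h.inv.orb.free σ hσ.1, h.inv.orb.fin.imp fun F hF σ hσ => hF σ hσ.1⟩
  have P := hq _ _ _ _ (Gam γ) z (PH1.wf Γ ψ) c a₀ a' hO
    (fun σ hσ => ⟨by simpa [hσ.2] using ((hg γ hγ).1 σ hσ.1).1, ((hg γ hγ).1 σ hσ.1).2⟩)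
    hz'.1 hz'.2 hO (PH1.fam h hψ _) hc.1 hc.2 h0.le h1 (hl.2.1.trans hl.2.2.1)
    (PH1.ex h hψ h0.le hc hcc)
    (fun U hU => (hg γ hγ).2 0 z hz' U [] hU (by simp) fun τ hτ => Or.inl (hzz τ hτ))
    fun σ hσ p hp b => by
      rw [← KA.valL_apply, Gam, map_sum]
      refine Finset.sum_eq_zero fun i hi => Finset.sum_eq_zero fun q hq => ?_
      have : q.1 p = 0 := image_eq_zero_of_notMem_tsupport fun h' => hp.not_gt
        (hl.2.2.2 σ (hz'.1 σ hσ).1 {i} (Finset.singleton_subset_iff.2 hi)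
          (Finset.singleton_nonempty i) q hq p h').1
      simp [this]
  refine H.unique (P.prod_fiberwise fun σ => ?_)
  by_cases hσ : z σ = 0
  · simp [hσ]
  · simpa only [mul_assoc] using
      (PH1.fib h hψ hc ((hg γ hγ).1 σ (hz'.1 σ hσ).1).1).mul_left (z σ)

theorem h5 (h : Γ.Std) (hc : Γ.CubeE) (hp : Γ.PartE) (hz : Γ.ZC) (hg : Γ.Gbd) :
    ∀ k, 6 ≤ k → HR Γ.𝒜 Γ.ℬ k := by
  obtain ⟨γ, a', b', hγ, hl⟩ := hc
  obtain ⟨ψ, hψ⟩ := hp a' hl.1
  intro k hk c z hc hz' hB hcc hzz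
  obtain ⟨q, rfl⟩ : ∃ q, k = q + 1 := ⟨k - 1, by omega⟩
  have H := hz γ a' b' a' ψ hγ hl le_rfl hψ q c z hc hz' hcc fun τ hτ =>
    (em (τ ∈ Γ.ℬ)).elim (fun h' => Or.inr ⟨h', hB⟩) fun h' => Or.inl (hzz τ hτ h')
  refine H.unique (hasSum_zero.congr_fun ?_)
  intro σ
  by_cases hσ : z σ = 0
  · rw [hσ, zero_mul]
  · have := ((hg γ hγ).1 σ (hz'.1 σ hσ).1).1.eq_zero (by have := (hz'.1 σ hσ).2; omega)
    rw [this, GW, finsum_eq_zero_of_forall_eq_zero fun i => Pr_zero q _ fun _ _ => rfl, mul_zero]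

end Pool.Agent.Lib.MP_356dfe_ag.S
end
end

-- part Pool.Agent.Lib.MP_356dfe_ag.S.PH3
section

/-! Degree three. -/

set_option autoImplicit false

open Set Filter Topology Metric MeasureTheory
open scoped ContDiff ComplexConjugate Matrix Pointwise

noncomputable section

namespace Pool.Agent.Lib.MP_356dfe_ag.S

namespace PH3

section Abs

variable {G : Type} [Group G] {n : ℕ} {𝒜 : Set (Finset (Vx G n))}
  {X M M' : Type} [AddCommGroup M] [Module ℝ M] [AddCommGroup M'] [Module ℝ M']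
  {ψ : Vx G n → X → ℝ}

/-- the form of one simplex, paired with `T` -/
def W (𝒜 : Set (Finset (Vx G n))) (ψ : Vx G n → X → ℝ) (q : ℕ) (τ : Finset (Vx G n))
    (T : (X → ℝ) → List (X → ℝ) → M) : M := ∑ i ∈ τ, Pr 𝒜 ψ (Pi.single τ 1) q {i} (T (ψ i))

omit [Group G] in
theorem W_map (φ : M →ₗ[ℝ] M') (q : ℕ) (τ : Finset (Vx G n)) (T : (X → ℝ) → List (X → ℝ) → M) :
    φ (W 𝒜 ψ q τ T) = W 𝒜 ψ q τ fun f L => φ (T f L) := by
  simp only [W, map_sum, Pr_map]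

omit [Group G] in
theorem W_congr {q : ℕ} (τ : Finset (Vx G n)) {T T' : (X → ℝ) → List (X → ℝ) → M}
    (h : ∀ i (js : List (Vx G n)), js.length = q → T (ψ i) (js.map ψ) = T' (ψ i) (js.map ψ)) :
    W 𝒜 ψ q τ T = W 𝒜 ψ q τ T' := Finset.sum_congr rfl fun i _ => Pr_congr q _ (h i)

omit [Group G] in
theorem W_add (q : ℕ) (τ : Finset (Vx G n)) (T T' : (X → ℝ) → List (X → ℝ) → M) :
    W 𝒜 ψ q τ (fun f L => T f L + T' f L) = W 𝒜 ψ q τ T + W 𝒜 ψ q τ T' := by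
  simp only [W, Pr_add, Finset.sum_add_distrib]

omit [Group G] in
theorem W_neg (q : ℕ) (τ : Finset (Vx G n)) (T : (X → ℝ) → List (X → ℝ) → M) :
    W 𝒜 ψ q τ (fun f L => -T f L) = -W 𝒜 ψ q τ T := (W_map (-LinearMap.id) q τ T).symm

omit [Group G] in
theorem Pr_ind {P : M → Prop} (h0 : P 0) (ha : ∀ x y, P x → P y → P (x + y))
    (hs : ∀ (t : ℝ) x, P x → P (t • x)) {c : Finset (Vx G n) → ℝ} (k : ℕ) :
    ∀ (τ : Finset (Vx G n)) (F : List (X → ℝ) → M),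
    (∀ js : List (Vx G n), js.length = k → P (F (js.map ψ))) → P (Pr 𝒜 ψ c k τ F) := by
  induction k with
  | zero => exact fun τ F h => hs _ _ (h [] rfl)
  | succ k ih =>
    exact fun τ F h => Finset.sum_induction _ P ha h0 fun j _ => hs _ _
      (ih _ _ fun js hjs => h (j :: js) (congrArg (· + 1) hjs))

omit [Group G] in
theorem Pr_out {τ : Finset (Vx G n)} {l : Vx G n} (hl : l ∉ τ) (k : ℕ) :
    ∀ (ρ : Finset (Vx G n)) (F : List (X → ℝ) → M), l ∈ ρ →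
    Pr 𝒜 ψ (Pi.single τ 1) k ρ F = 0 := by
  induction k with
  | zero =>
    intro ρ F h
    rw [Pr, Pi.single_eq_of_ne (ne_of_mem_of_not_mem' h hl), zero_smul]
  | succ k ih =>
    exact fun ρ F h => Finset.sum_eq_zero fun j _ => by
      rw [ih _ _ (Finset.mem_insert_of_mem h), smul_zero]

omit [Group G] in
theorem Pr_hit {τ : Finset (Vx G n)} {l : Vx G n} (hl : l ∈ τ) (k : ℕ) :
    ∀ (ρ : Finset (Vx G n)) (F : List (X → ℝ) → M), l ∉ ρ → (∀ L, ψ l ∈ L → F L = 0) →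
    Pr 𝒜 ψ (Pi.single τ 1) k ρ F = 0 := by
  induction k with
  | zero =>
    intro ρ F h _
    rw [Pr, Pi.single_eq_of_ne (ne_of_mem_of_not_mem' hl h).symm, zero_smul]
  | succ k ih =>
    refine fun ρ F h hF => Finset.sum_eq_zero fun j _ => ?_
    by_cases e : l = j
    · subst e
      rw [Pr_zero (F := fun L => F (ψ l :: L)) k _ fun js _ => hF _ List.mem_cons_self, smul_zero]
    · rw [ih _ _ (fun h' => (Finset.mem_insert.1 h').elim e h)
        fun L hL => hF _ (List.mem_cons_of_mem _ hL), smul_zero]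

omit [Group G] in
theorem W_hit {τ : Finset (Vx G n)} {l : Vx G n} (hl : l ∈ τ) (q : ℕ)
    {T : (X → ℝ) → List (X → ℝ) → M} (h : ∀ L, T (ψ l) L = 0) (h' : ∀ f L, ψ l ∈ L → T f L = 0) :
    W 𝒜 ψ q τ T = 0 := by
  refine Finset.sum_eq_zero fun i _ => ?_
  by_cases e : l = i
  · exact Pr_zero q _ fun js _ => e ▸ h _
  · exact Pr_hit hl q _ _ (fun h'' => e (Finset.mem_singleton.1 h'')) (h' _)

theorem W_smul (h : Cx 𝒜) (g : G) (q : ℕ) (τ : Finset (Vx G n))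
    {T T' : (X → ℝ) → List (X → ℝ) → M} (e : ∀ i (js : List (Vx G n)),
      T (ψ (g • i)) ((js.map (g • ·)).map ψ) = T' (ψ i) (js.map ψ)) :
    W 𝒜 ψ q (g • τ) T = W 𝒜 ψ q τ T' := by
  have hd : (fun σ => (Pi.single (g • τ) 1 : Finset (Vx G n) → ℝ) (g • σ)) = Pi.single τ 1 := by
    ext σ
    simp only [Pi.single_apply, smul_left_cancel_iff]
  rw [W, W, ← hd]
  generalize (Pi.single (g • τ) 1 : Finset (Vx G n) → ℝ) = c
  rw [Finset.smul_finset_def, Finset.sum_image (MulAction.injective g).injOn]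
  refine Finset.sum_congr rfl fun i _ => ?_
  rw [← Finset.smul_finset_singleton, Pr_smul h g q _ (Finset.singleton_nonempty i) _ _ (e i)]

theorem gw_sum (c : Finset (Vx G n) → ℝ) (q : ℕ) {T : (X → ℝ) → List (X → ℝ) → ℝ}
    (I : Finset (Vx G n)) (h : ∀ i ∉ I, ∀ js : List (Vx G n), T (ψ i) (js.map ψ) = 0) :
    HasSum (fun τ => c τ * W 𝒜 ψ q τ T) (GW 𝒜 ψ c q T) := by
  have h0 : ∀ (c : Finset (Vx G n) → ℝ), ∀ i ∉ I, Pr 𝒜 ψ c q {i} (T (ψ i)) = 0 :=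
    fun c i hi => Pr_zero q _ fun js _ => h i hi js
  choose s hs using Pr_fin (𝒜 := 𝒜) (ψ := ψ) (M := ℝ) q
  have hW : ∀ τ, W 𝒜 ψ q τ T = ∑ i ∈ I, Pr 𝒜 ψ (Pi.single τ 1) q {i} (T (ψ i)) := fun τ =>
    (Finset.sum_subset Finset.subset_union_left fun i _ hi =>
      Pr_out hi q _ _ (Finset.mem_singleton_self i)).trans
      (Finset.sum_subset Finset.subset_union_right fun i _ hi => h0 _ i hi).symm
  have hsub : ∀ i ∈ I, s {i} ⊆ I.biUnion fun i => s {i} := fun i hi =>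
    Finset.subset_biUnion_of_mem (fun i => s {i}) hi
  have : GW 𝒜 ψ c q T = ∑ τ ∈ I.biUnion fun i => s {i}, c τ * W 𝒜 ψ q τ T := by
    rw [GW, finsum_eq_sum_of_support_subset (s := I) _ fun i hi => by
      by_contra hi'; exact hi (h0 c i hi')]
    simp only [hW, Finset.mul_sum]
    rw [Finset.sum_comm]
    exact Finset.sum_congr rfl fun i hi => hs _ _ (hsub i hi) c _
  rw [this]
  refine hasSum_sum_of_ne_finset_zero fun τ hτ => ?_
  rw [hW, Finset.sum_eq_zero, mul_zero]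
  intro i hi
  rw [hs _ _ (hsub i hi)]
  exact Finset.sum_eq_zero fun σ hσ => by
    rw [Pi.single_eq_of_ne (ne_of_mem_of_not_mem hσ hτ), zero_smul]

variable [TopologicalSpace X] {𝒮 : Set (X → ℝ)} {K : Set X} {T : (X → ℝ) → List (X → ℝ) → ℝ}

theorem nul_of {f : X → ℝ} (h : ∀ x ∈ K, x ∉ tsupport f) (L : List (X → ℝ)) : Nul K f L :=
  fun x hx => Or.inl (notMem_tsupport_iff_eventuallyEq.1 (h x hx))

theorem gw_cur {V : Vx G n → Set X} (hψ : ∀ l, ψ l ∈ 𝒮 ∧ tsupport (ψ l) ⊆ V l)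
    (hK : {l | (V l ∩ K).Nonempty}.Finite) (hT : Cur 𝒮 K T) (c : Finset (Vx G n) → ℝ) (q : ℕ) :
    HasSum (fun τ => c τ * W 𝒜 ψ q τ T) (GW 𝒜 ψ c q T) :=
  gw_sum c q hK.toFinset fun i hi _ => hT.nul _ (hψ i).1 _
    (List.forall_mem_map.2 fun j _ => (hψ j).1)
    (nul_of (fun x hx hx' => hi (hK.mem_toFinset.2 ⟨x, (hψ i).2 hx', hx⟩)) _)

theorem cur_bd (h : Cls 𝒮) (hT : Cur 𝒮 K T) : Cur 𝒮 K fun f L => T 1 (f :: L) where
  add f hf f' hf' L hL := hT.slot 1 h.one f hf f' hf' [] L (by simp) hL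
  slot f hf g hg g' hg' L L' hL hL' :=
    hT.slot 1 h.one g hg g' hg' (f :: L) L' (List.forall_mem_cons.2 ⟨hf, hL⟩) hL'
  nul f hf L hL hN := hT.nul 1 h.one _ (List.forall_mem_cons.2 ⟨hf, hL⟩) fun x hx =>
    Or.inr ((hN x hx).elim (fun e => ⟨f, List.mem_cons_self, e.mono fun _ hw =>
      hw.trans e.self_of_nhds.symm⟩) fun ⟨g, hg, e⟩ => ⟨g, List.mem_cons_of_mem _ hg, e⟩)

end Abs

section An

variable {Z Λ : Type} [TopologicalSpace Z] {A : KA Z Λ}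

theorem dt_zero {L : List (F1 Λ)} {a : F1 Λ} {z : Z} (ha : a ∈ L) (h : A.Eq1 a 0 z) :
    A.Dt L z = 0 := by
  rw [KA.Dt, det4_zero, zero_div]
  exact List.mem_map.2 ⟨a, ha, (congrArg rc h.v1).trans rc_zero⟩

theorem d_out (hb : A.Bas) {U : Z → ℝ} (hU : A.D U) {z : Z} (h : z ∉ tsupport U) :
    A.Eq1 (A.d U) 0 z := by
  by_contra h'
  exact h ((hb.L_D U hU).2.2 (subset_closure h'))

theorem s1_map (hb : A.Bas) {L : List (Z → ℝ)} (h : ∀ p ∈ L, A.SM p) :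
    ∀ a ∈ L.map A.d, ∀ z, A.S1 a z := List.forall_mem_map.2 fun p hp z => hb.s1_d p z (h p hp z)

theorem in_single {C : Set Z} {k : ℕ} {f : Z → ℝ} {L : List (Z → ℝ)} (hf : A.D f)
    (hC : tsupport f ⊆ C) (hk : L.length + k = 4) (hL : ∀ p ∈ L, A.SM p) :
    A.In C k (Finsupp.single (f, L) 1) := fun q hq => by
  obtain rfl := Finset.mem_singleton.1 (Finsupp.support_single_subset hq)
  exact ⟨hf, hC, hk, hL⟩

theorem in_cpt {C : Set Z} {k : ℕ} {ξ : FF Z} (h : A.In C k ξ) :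
    IsCompact (⋃ q ∈ ξ.support, tsupport q.1) ∧ ⋃ q ∈ ξ.support, tsupport q.1 ⊆ C :=
  ⟨ξ.support.isCompact_biUnion fun q hq => (h q hq).1.2,
    iUnion₂_subset fun q hq => (h q hq).2.1⟩

theorem dt_sum {ι : Type} (s : Finset ι) (c : ι → ℝ) (w : ι → F1 Λ) (b : F1 Λ) (L : List (F1 Λ))
    {z : Z} (h : A.v1 b z = ∑ i ∈ s, c i • A.v1 (w i) z) :
    A.Dt (L ++ [b]) z = ∑ i ∈ s, c i * A.Dt (L ++ [w i]) z := by
  have : rc (A.v1 b z) = ∑ i ∈ s, c i • rc (A.v1 (w i) z) := by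
    rw [h]
    exact (map_sum (AddMonoidHom.mk' rc rc_add) _ _).trans
      (Finset.sum_congr rfl fun i _ => rc_smul _ _)
  simp only [KA.Dt, List.map_append, List.map_cons, List.map_nil, this, det4_sum, det4_smul,
    Finset.sum_div, mul_div_assoc]

theorem dt_move (a : F1 Λ) {L : List (F1 Λ)} (h : L.length = 3) (z : Z) :
    A.Dt (a :: L) z = -A.Dt (L ++ [a]) z := by
  have := det4_move [] (L.map fun a => rc (A.v1 a z)) [] (rc (A.v1 a z))
  simp only [List.nil_append, List.append_nil, List.length_map, h] at this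
  simp only [KA.Dt, List.map_append, List.map_cons, List.map_nil, this]
  ring

variable [MeasurableSpace Z] [BorelSpace Z]

theorem intg (h : A.Std) {f : Z → ℝ} (hf : A.D f) {L : List (Z → ℝ)} (hL : ∀ p ∈ L, A.SM p) :
    Integrable (fun z => f z * A.Dt (L.map A.d) z) A.μ := by
  have := h.meas.fin
  refine Continuous.integrable_of_hasCompactSupport (continuous_iff_continuousAt.2 fun z => ?_)
    hf.2.mul_right
  exact (h.bas.sm_cont _ _ (hf.1 z)).mul (h.bas.sm_cont _ _ (h.bas.Dt_sm _ z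
    (.of_forall fun w a ha => s1_map h.bas hL a ha w)))

omit [BorelSpace Z] in
theorem cur_single (U : Z → ℝ) (L : List (Z → ℝ)) : A.cur (Finsupp.single (U, []) 1) 1 L =
    ∫ z, U z * A.Dt (L.map A.d) z ∂A.μ := by
  simp [KA.cur, KA.ev_single]

omit [BorelSpace Z] in
theorem ev_one (f : Z → ℝ) (L : List (Z → ℝ)) (b : F1 Λ) :
    A.ev (Finsupp.single (f, L) 1) 1 [b] = ∫ z, f z * A.Dt (b :: L.map A.d) z ∂A.μ := by
  simp [KA.ev_single]

theorem stokes (h : A.Std) (h4 : A.GS4) {f U : Z → ℝ} (hf : A.D f) (hU : A.D U)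
    {L : List (Z → ℝ)} (hL : ∀ p ∈ L, A.SM p) : ∫ z, f z * A.Dt (A.d U :: L.map A.d) z ∂A.μ =
      -∫ z, U z * A.Dt ((f :: L).map A.d) z ∂A.μ := by
  have h0 := h4 (f * U) L ⟨fun z => (hf.1 z).mul (hU.1 z), hf.2.mul_right⟩ hL
  rw [eq_neg_iff_add_eq_zero, ← h0]
  refine (integral_add (intg h hf (List.forall_mem_cons.2 ⟨hU.1, hL⟩))
    (intg h hU (List.forall_mem_cons.2 ⟨hf.1, hL⟩))).symm.trans (integral_congr_ae
      (.of_forall fun z => ?_))
  have e := (h.bas.d_mul f U z (hf.1 z) (hU.1 z)).v1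
  have e1 := det4_add [] ((L.map A.d).map fun a => rc (A.v1 a z))
  have e2 := det4_smul [] ((L.map A.d).map fun a => rc (A.v1 a z))
  simp only [List.nil_append] at e1 e2
  simp only [KA.Dt, List.map_cons, e, KA.v1_add, KA.v1_sm1, rc_add, rc_smul, e1, e2]
  ring

omit [BorelSpace Z] in
theorem cur_th (h : A.Std) (he : A.Evl) {ξ : FF Z} (hξ : A.In univ 3 ξ) {f : Z → ℝ} (hf : A.SM f)
    {L : List (Z → ℝ)} (hL : ∀ p ∈ L, A.SM p) :
    Integrable (fun z => f z * A.Dt (L.map A.d ++ [A.th ξ]) z) A.μ ∧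
      A.cur ξ f L = ∫ z, f z * A.Dt (L.map A.d ++ [A.th ξ]) z ∂A.μ := by
  simpa only [KA.cur, (he.th _ ξ hξ).2.2] using he.val _ _ ξ f _ hξ hf (s1_map h.bas hL)

end An

variable {G Z : Type} [Group G] [TopologicalSpace Z] [T2Space Z] [MulAction G Z]
  [MeasurableSpace Z] [BorelSpace Z] {m n : ℕ} {Γ : Geo G Z m n}

/-- the Whitney form of a simplex -/
def Wh (Γ : Geo G Z m n) (ψ : Vx G n → Z → ℝ) (τ : Finset (Vx G n)) : FF Z :=
  W Γ.𝒜 ψ 3 τ fun f L => Finsupp.single (f, L) 1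

variable {a' : ℝ} {ψ : Vx G n → Z → ℝ}

omit [T2Space Z] [BorelSpace Z] [MeasurableSpace Z] in
theorem sm_map (hψ : Γ.Part a' ψ) (js : List (Vx G n)) : ∀ p ∈ js.map ψ, Γ.A.SM p :=
  List.forall_mem_map.2 fun j _ => (hψ.1 j).1.1

omit [T2Space Z] [BorelSpace Z] [MeasurableSpace Z] in
theorem wh_in (hψ : Γ.Part a' ψ) (τ : Finset (Vx G n)) : Γ.A.In univ 1 (Wh Γ ψ τ) :=
  KA.in_sum fun i _ => Pr_ind (KA.in_zero _ _) (fun _ _ => KA.In.add) (fun t _ h => h.smul t) 3 _ _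
    fun js hjs => in_single (hψ.1 i).1 (subset_univ _) (by rw [List.length_map, hjs])
      (sm_map hψ js)

omit [T2Space Z] [BorelSpace Z] [MeasurableSpace Z] in
theorem wh_smul (h : Cx Γ.𝒜) (hψ : Γ.Part a' ψ) (τ : Finset (Vx G n)) (g : G) :
    Wh Γ ψ (g • τ) = actF g (Wh Γ ψ τ) := by
  refine Eq.trans ?_ (W_map (Finsupp.lmapDomain ℝ ℝ fun q : (Z → ℝ) × List (Z → ℝ) =>
    (act0 g q.1, q.2.map (act0 g))) 3 τ _).symm
  refine W_smul h g 3 τ fun i js => ?_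
  simp only [Finsupp.lmapDomain_apply, Finsupp.mapDomain_single, List.map_map, hψ.2.1,
    Function.comp_def]

omit [T2Space Z] [BorelSpace Z] in
theorem wh_ev (τ : Finset (Vx G n)) (b : F1 (Vx G m)) : Γ.A.ev (Wh Γ ψ τ) 1 [b] =
    W Γ.𝒜 ψ 3 τ fun f L => ∫ z, f z * Γ.A.Dt (b :: L.map Γ.A.d) z ∂Γ.A.μ :=
  (W_map (Γ.A.evL 1 [b]) 3 τ _).trans (W_congr τ fun _ _ _ => ev_one _ _ b)

omit [T2Space Z] [BorelSpace Z] in
theorem wh_val (h : Γ.Std) (hψ : Γ.Part a' ψ) {τ : Finset (Vx G n)} {z : Z}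
    (hz : z ∉ VV Γ.V τ) (b : F1 (Vx G m)) : Γ.A.val (Wh Γ ψ τ) [b] z = 0 := by
  obtain ⟨l, hl, hz⟩ : ∃ l ∈ τ, z ∉ Γ.V l := by simpa [VV] using hz
  have hz' : z ∉ tsupport (ψ l) := fun e => hz ((hψ.1 l).2 e)
  refine (W_map (Γ.A.valL [b] z) 3 τ _).trans (W_hit hl 3 (fun L => ?_) fun f L hL => ?_)
  · simp [KA.valL, image_eq_zero_of_notMem_tsupport hz']
  · rw [KA.valL, Finsupp.linearCombination_single, dt_zero (List.mem_append_right _
      (List.mem_map_of_mem hL)) (d_out h.std.bas (hψ.1 l).1 hz'), mul_zero, smul_zero]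

omit [T2Space Z] [BorelSpace Z] in
theorem wh_th (h : Γ.Std) (hψ : Γ.Part a' ψ) (τ : Finset (Vx G n)) {ξ : FF Z}
    (hξ : Γ.A.In univ 3 ξ) : Γ.A.ev (Wh Γ ψ τ) 1 [Γ.A.th ξ] = -W Γ.𝒜 ψ 3 τ (Γ.A.cur ξ) := by
  rw [wh_ev, ← W_neg]
  refine W_congr τ fun i js hjs => ?_
  rw [(cur_th h.std h.evl hξ (hψ.1 i).1.1 (sm_map hψ js)).2, ← integral_neg]
  refine integral_congr_ae (.of_forall fun z => ?_)
  simp only [dt_move _ (show ((js.map ψ).map Γ.A.d).length = 3 by simpa using hjs), mul_neg]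

omit [T2Space Z] [BorelSpace Z] in
theorem rho_cont (h : Γ.Std) : Continuous Γ.ρ :=
  continuous_iff_continuousAt.2 fun z => h.std.bas.sm_cont _ _ (Γ.nbh.sm z)

omit [T2Space Z] in
theorem wh_d (h : Γ.Std) (hzz : ZZ) (h4 : Γ.A.GS4) (hψ : Γ.Part a' ψ) (ha : a' < Γ.b)
    {c : Finset (Vx G n) → ℝ} (hc : ∀ σ ∈ Γ.ℬ, c σ = 0) (hc' : ∀ σ ∈ Γ.𝒜, cob c σ = 0)
    {U : Z → ℝ} (hU : Γ.A.D U) : HasSum (fun τ => c τ * Γ.A.ev (Wh Γ ψ τ) 1 [Γ.A.d U]) 0 := by
  have hψ' : ∀ l, ψ l ∈ {U | Γ.A.SM U} ∧ tsupport (ψ l) ⊆ Γ.V l :=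
    fun l => ⟨(hψ.1 l).1.1, (hψ.1 l).2⟩
  have o1 : IsOpen {z | a' < Γ.ρ z} := isOpen_lt continuous_const (rho_cont h)
  have o2 : IsOpen {z | Γ.ρ z < Γ.b} := isOpen_lt (rho_cont h) continuous_const
  have zig := hzz G Z n _ Γ.𝒜 Γ.V ψ _ c 3 h.evl.cls h.inv.cxA Γ.V_op o1 (fun σ h1 h2 => ⟨h1, h2⟩)
    hψ' hψ.2.2 h.inv.lfV fun σ hσ _ => hc' σ hσ
  obtain ⟨χ, hχ, hχ1⟩ := h.std.bump.part Bool Finset.univ (tsupport U)
    (fun t => cond t {z | a' < Γ.ρ z} {z | Γ.ρ z < Γ.b}) hU.2 (fun t => by cases t <;> assumption)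
    fun z _ => by
      rcases lt_or_ge a' (Γ.ρ z) with e | e
      · exact mem_iUnion₂.2 ⟨true, Finset.mem_univ _, e⟩
      · exact mem_iUnion₂.2 ⟨false, Finset.mem_univ _, e.trans_lt ha⟩
  have hD : ∀ t, Γ.A.D (χ t * U) := fun t =>
    ⟨fun z => ((hχ t).1.1 z).mul (hU.1 z), hU.2.mul_left⟩
  have hin : ∀ t, Γ.A.In (cond t {z | a' < Γ.ρ z} {z | Γ.ρ z < Γ.b}) 4
      (Finsupp.single (χ t * U, []) 1) := fun t =>
    in_single (hD t) (tsupport_mul_subset_left.trans (hχ t).2.2) rfl (by simp)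
  have hcur := fun t => h.evl.cur _ _ _ (hin t)
  have hsum := fun t => gw_cur (𝒜 := Γ.𝒜) hψ' (h.inv.lfV _ (in_cpt (hin t)).1)
    (cur_bd h.evl.cls (hcur t)) c 3
  have h1 := hsum true
  have h2 := hsum false
  rw [zig.bd _ _ (hcur true) (in_cpt (hin true)).1 (in_cpt (hin true)).2] at h1
  rw [(zig.van _ (fun σ e e' => hc σ ⟨e, e'⟩) _ _ (cur_bd h.evl.cls (hcur false))
    (in_cpt (hin false)).2).2] at h2
  have := (h1.add h2).neg
  rw [add_zero, neg_zero] at this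
  refine this.congr_fun fun τ => ?_
  rw [← mul_add, ← mul_neg, ← W_add, ← W_neg, wh_ev]
  refine congrArg (c τ * ·) (W_congr τ fun i js _ => ?_)
  have hL := List.forall_mem_cons.2 ⟨(hψ.1 i).1.1, sm_map hψ js⟩
  rw [stokes h.std h4 (hψ.1 i).1 hU (sm_map hψ js), cur_single, cur_single,
    ← integral_add (intg h.std (hD _) hL) (intg h.std (hD _) hL)]
  refine congrArg Neg.neg (integral_congr_ae (.of_forall fun z => ?_))
  by_cases hz : z ∈ tsupport U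
  · have := hχ1.self_of_nhdsSet z hz
    simp only [Fintype.univ_bool, Finset.mem_singleton, Bool.true_eq_false, not_false_eq_true,
      Finset.sum_insert, Finset.sum_singleton] at this
    simp only [Pi.mul_apply]
    rw [← add_mul, ← add_mul, this, one_mul]
  · simp [image_eq_zero_of_notMem_tsupport hz]

omit [T2Space Z] [BorelSpace Z] in
theorem orb4 (h : Γ.Std) : Orb G {σ ∈ Γ.𝒜 | σ.card = 4} :=
  ⟨fun σ hσ g => ⟨h.inv.orb.inv σ hσ.1 g, (Finset.card_smul_finset g σ).trans hσ.2⟩,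
    fun σ hσ => h.inv.orb.free σ hσ.1, h.inv.orb.fin.imp fun _ e σ hσ => e σ hσ.1⟩

variable {γ : Finset (Vx G n) → Finset (Vx G n) → FF Z} {b' : ℝ}

omit [T2Space Z] [BorelSpace Z] in
theorem gam_in (hg : Γ.Gbd) (hγ : Γ.Cube γ) {σ : Finset (Vx G n)} (hσ : σ ∈ Γ.𝒜 ∧ σ.card = 4) :
    Γ.A.In univ 3 (Gam γ σ) := by
  simpa only [hσ.2] using ((hg γ hγ).1 σ hσ.1).1

omit [T2Space Z] [BorelSpace Z] in
theorem fam (h : Γ.Std) (hg : Γ.Gbd) (hγ : Γ.Cube γ) :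
    Γ.Fam {σ ∈ Γ.𝒜 | σ.card = 4} fun σ => Γ.A.th (Gam γ σ) :=
  ⟨fun σ hσ => (h.evl.th _ _ (gam_in hg hγ hσ)).1, fun σ hσ g => by
    simp only [((hg γ hγ).1 σ hσ.1).2 g, h.inv.th]⟩

omit [T2Space Z] [BorelSpace Z] in
theorem closed (h : Γ.Std) (hg : Γ.Gbd) (hs : Γ.Sum) (hl : Γ.A.Cl3) (hγ : Γ.Cube γ)
    (hv : Γ.Lev γ a' b') {z : Finset (Vx G n) → ℝ} (hz : L2 Γ.𝒜 4 z)
    (hb : ∀ τ ∈ Γ.𝒜, τ ∉ Γ.ℬ → bdy Γ.𝒜 z τ = 0) :
    ∀ y, b' < Γ.ρ y → Γ.A.Ex (sumF z fun σ => Γ.A.th (Gam γ σ)) y := by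
  have hF := fam h hg hγ
  refine hl _ {y | b' < Γ.ρ y} (isOpen_lt continuous_const (rho_cont h))
    (fun y _ => (hs _ _ _ z (orb4 h) hF hz.1).2.1 y) fun f g g' hf hO h1 h2 => ?_
  have hL : ∀ p ∈ [g, g'], Γ.A.SM p := by simp [h1, h2]
  have hL' : ∀ p ∈ [f, g, g'], Γ.A.SM p := List.forall_mem_cons.2 ⟨hf.1, hL⟩
  have h0 := (hg γ hγ).2 2 z hz f [g, g'] hf hL fun τ hτ => by
    refine (em (τ ∈ Γ.ℬ)).symm.imp (hb τ hτ) fun hB => ?_
    refine (h.evl.cur _ _ _ ((hg γ hγ).1 τ hτ).1).nul f hf.1 _ hL (nul_of (fun x hx hx' => ?_) _)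
    obtain ⟨q, hq, hx⟩ := mem_iUnion₂.1 hx
    obtain ⟨i, hi, hq⟩ := Finsupp.mem_support_finsetSum q hq
    exact lt_asymm (hO hx') ((hv.2.2.2 τ hτ {i} (Finset.singleton_subset_iff.2 hi)
      (Finset.singleton_nonempty i) q hq x hx).2 hB)
  have hS := (h.inv.fin _ _ (fun σ => Γ.A.sp1 (Γ.A.th (Gam γ σ))) (orb4 h) fun σ hσ =>
    ⟨(hF.1 σ hσ).2, fun g => by simp only [← h.inv.sp1, ← hF.2 σ hσ g]⟩).1 _ hf.2
  have hout : ∀ σ ∉ hS.toFinset, z σ ≠ 0 → ∀ y ∈ tsupport f, Γ.A.Eq1 (Γ.A.th (Gam γ σ)) 0 y :=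
    fun σ hσ e y hy => by
      by_contra e'
      exact hσ (hS.mem_toFinset.2 ⟨hz.1 σ e, y, subset_closure e', hy⟩)
  have hdf : ∀ (b : F1 (Vx G m)), ∀ y ∉ tsupport f,
      Γ.A.Dt ([f, g, g'].map Γ.A.d ++ [b]) y = 0 := fun b y hy =>
    dt_zero List.mem_cons_self (d_out h.std.bas hf hy)
  have hth := fun σ (hσ : σ ∈ hS.toFinset) => cur_th h.std h.evl
    (gam_in hg hγ (hS.mem_toFinset.1 hσ).1) (f := 1) (KA.sm_const 1) hL'
  simp only [Pi.one_apply, one_mul] at hth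
  rw [tsum_eq_sum (s := hS.toFinset) fun σ hσ => ?_, Finset.sum_congr rfl fun σ hσ =>
    (congrArg (z σ * ·) (hth σ hσ).2).trans (integral_const_mul _ _).symm,
    ← integral_finsetSum _ fun σ hσ => (hth σ hσ).1.const_mul _] at h0
  · refine (integral_congr_ae (.of_forall fun y => ?_)).trans h0
    by_cases hy : y ∈ tsupport f
    · refine dt_sum _ z _ _ ([f, g, g'].map Γ.A.d) (finsum_eq_sum_of_support_subset _ fun σ hσ => ?_)
      by_contra e
      by_cases e' : z σ = 0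
      · exact hσ (by simp only [e', zero_smul])
      · exact hσ (by simp only [hout σ e e' y hy _ (Γ.A.mem_i y), Pi.zero_apply, smul_zero])
    · exact (hdf _ y hy).trans (Finset.sum_eq_zero fun σ _ => by rw [hdf _ y hy, mul_zero]).symm
  · by_cases e : z σ = 0
    · rw [e, zero_mul]
    · rw [(cur_th h.std h.evl (gam_in hg hγ (hz.1 σ e)) (f := 1) (KA.sm_const 1) hL').2,
        integral_congr_ae (g := 0) (.of_forall fun y => ?_), integral_zero', mul_zero]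
      by_cases hy : y ∈ tsupport f
      · simp only [dt_zero (List.mem_append_right _ List.mem_cons_self) (hout σ hσ e y hy),
          mul_zero, Pi.zero_apply]
      · simp only [hdf _ y hy, mul_zero, Pi.zero_apply]

end PH3

open PH3

variable {G Z : Type} [Group G] [TopologicalSpace Z] [T2Space Z] [MulAction G Z]
  [MeasurableSpace Z] [BorelSpace Z] {m n : ℕ} {Γ : Geo G Z m n}

theorem h3 (h : Γ.Std) (hc : Γ.CubeE) (hp : Γ.PartE) (hz : Γ.ZC) (hg : Γ.Gbd) (hq : Γ.Pair)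
    (hs : Γ.Sum) (hzz : ZZ) (h4 : Γ.A.GS4) (hl : Γ.A.Cl3) : HR Γ.𝒜 Γ.ℬ 4 := by
  intro c z hc2 hz2 hcB hcob hbd
  obtain ⟨γ, a', b', hγ, hv⟩ := hc
  obtain ⟨ψ, hψ⟩ := hp a' hv.1
  have h1 := hz γ a' b' a' ψ hγ hv le_rfl hψ 3 c z hc2 hz2 hcob fun τ hτ =>
    (em (τ ∈ Γ.ℬ)).symm.imp (hbd τ hτ) fun e => ⟨e, hcB⟩
  have h2 := hq _ _ Γ.𝒜 _ (Wh Γ ψ) c _ z b' ((b' + Γ.b) / 2) h.inv.orb
    (fun τ _ => ⟨wh_in hψ τ, wh_smul h.inv.cxA hψ τ⟩) (fun τ e => (hc2.1 τ e).1) hc2.2 (orb4 h)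
    (fam h hg hγ) hz2.1 hz2.2 (hv.1.trans hv.2.1).le (by linarith [hv.2.2.1])
    (by linarith [hv.2.2.1]) (closed h hg hs hl hγ hv hz2 hbd)
    (fun U hU => (wh_d h hzz h4 hψ (hv.2.1.trans hv.2.2.1) hcB hcob hU).tsum_eq)
    fun τ e y hy b => wh_val h hψ (fun e' => e (hcB τ ⟨(hc2.1 τ e).1.1, y, e',
      show Γ.ρ y < Γ.b by linarith [hv.2.2.1]⟩)) b
  have h3 := ((Equiv.prodComm _ _).hasSum_iff.2 h2).prod_fiberwise
    (g := fun σ => -(z σ * GW Γ.𝒜 ψ c 3 (Γ.A.cur (Gam γ σ)))) fun σ => by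
      by_cases e : z σ = 0
      · simp [e]
      · have hin := gam_in hg hγ (hz2.1 σ e)
        refine ((gw_cur (𝒜 := Γ.𝒜) (fun l => ⟨(hψ.1 l).1.1, (hψ.1 l).2⟩)
          (h.inv.lfV _ (in_cpt hin).1) (h.evl.cur _ _ _ hin) c 3).mul_left (z σ)).neg.congr_fun
          fun τ => ?_
        simp only [Function.comp_apply, Equiv.prodComm_apply, Prod.swap_prod_mk, wh_th h hψ τ hin]
        ring
  exact neg_eq_zero.1 (h1.neg.unique h3)

end Pool.Agent.Lib.MP_356dfe_ag.S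
end
end

-- part Pool.Agent.Lib.MP_356dfe_ag.S.PCvx
section

/-! Embeddings and convex charts. -/

set_option autoImplicit false

open Set Filter Topology Metric MeasureTheory
open scoped ContDiff ComplexConjugate Matrix Pointwise

noncomputable section

namespace Pool.Agent.Lib.MP_356dfe_ag.S

namespace PCvx

theorem of_mono {W : Set E2} (hW : Convex ℝ W) {g : E2 → ℝ} {g' : E2 → E2 →L[ℝ] ℝ}
    (hg : ∀ u ∈ W, HasFDerivAt g (g' u) u) (hm : ∀ u ∈ W, ∀ v ∈ W, g' u (v - u) ≤ g' v (v - u)) :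
    ConvexOn ℝ W g := by
  refine ⟨hW, fun u hu v hv a b ha hb hab => ?_⟩
  have m : ∀ t ∈ Icc (0 : ℝ) 1, u + t • (v - u) ∈ W := fun t ht => hW.add_smul_sub_mem hu hv ht
  have d : ∀ t ∈ Icc (0 : ℝ) 1,
      HasDerivAt (fun t : ℝ => g (u + t • (v - u))) (g' (u + t • (v - u)) (v - u)) t := fun t ht => by
    have := (hg _ (m t ht)).comp_hasDerivAt t (((hasDerivAt_id t).smul_const (v - u)).const_add u)
    rwa [one_smul] at this
  have c : ConvexOn ℝ (Icc (0 : ℝ) 1) fun t : ℝ => g (u + t • (v - u)) := by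
    refine MonotoneOn.convexOn_of_deriv (convex_Icc 0 1)
      (fun t ht => (d t ht).continuousAt.continuousWithinAt)
      (fun t ht => (d t (interior_subset ht)).differentiableAt.differentiableWithinAt)
      fun s hs t ht hst => ?_
    rcases hst.eq_or_lt with rfl | hst
    · rfl
    have := hm _ (m s (interior_subset hs)) _ (m t (interior_subset ht))
    rw [add_sub_add_left_eq_sub, ← sub_smul, map_smul, map_smul] at this
    rw [(d s (interior_subset hs)).deriv, (d t (interior_subset ht)).deriv]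
    exact le_of_mul_le_mul_left this (sub_pos.2 hst)
  have := c.2 (left_mem_Icc.2 zero_le_one) (right_mem_Icc.2 zero_le_one) ha hb hab
  obtain rfl : a = 1 - b := by linarith
  have e : (1 - b) • u + b • v = u + b • (v - u) := by module
  simpa [e] using this

variable {F : Type} [NormedAddCommGroup F] [InnerProductSpace ℝ F]

theorem inn {p e₁ e₂ w e₃ : F} (h₁ : ‖e₁‖ ≤ ‖p‖ / 4) (h₂ : ‖e₂‖ ≤ ‖p‖ / 4)
    (h₃ : ‖w‖ * ‖e₃‖ ≤ ‖p‖ ^ 2 / 4) : 0 ≤ inner ℝ (p + e₁) (p + e₂) + inner ℝ w e₃ := by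
  rw [inner_add_left, inner_add_right, inner_add_right, real_inner_self_eq_norm_sq]
  have a := (abs_le.1 (abs_real_inner_le_norm p e₂)).1
  have b := (abs_le.1 (abs_real_inner_le_norm e₁ p)).1
  have c := (abs_le.1 (abs_real_inner_le_norm e₁ e₂)).1
  have d := (abs_le.1 (abs_real_inner_le_norm w e₃)).1
  nlinarith [norm_nonneg p, norm_nonneg e₁, norm_nonneg e₂,
    mul_le_mul h₁ h₂ (norm_nonneg _) (by positivity)]

theorem flat {Ψ : E2 → F} {u₀ : E2} (h : ContDiffAt ℝ ∞ Ψ u₀)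
    (hi : Function.Injective (fderiv ℝ Ψ u₀)) : ∃ δ > 0, ∃ N ∈ 𝓝 u₀, ∀ W ⊆ N, Convex ℝ W →
      ∀ y ∈ ball (Ψ u₀) δ, ConvexOn ℝ W fun u => ‖Ψ u - y‖ ^ 2 := by
  obtain ⟨C, hC, hA⟩ := (fderiv ℝ Ψ u₀).toLinearMap.exists_antilipschitzWith
    (LinearMap.ker_eq_bot.2 hi)
  have hC' : (0 : ℝ) < C := hC
  have hD : ContDiffAt ℝ 1 (fderiv ℝ Ψ) u₀ :=
    (h.fderiv_right (m := ∞) le_rfl).of_le (by exact_mod_cast le_top)
  obtain ⟨K, t, ht, hK⟩ := hD.exists_lipschitzOnWith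
  have hδ : (0 : ℝ) < 1 / (8 * (K + 1) * C ^ 2) := by positivity
  have e1 : ∀ᶠ u in 𝓝 u₀, DifferentiableAt ℝ Ψ u :=
    ((h.of_le (m := 1) (by exact_mod_cast le_top)).eventually (by simp)).mono fun u hu =>
      hu.differentiableAt one_ne_zero
  have e2 := hD.continuousAt.eventually (closedBall_mem_nhds _ (show (0 : ℝ) < 1 / (4 * C) by
    positivity))
  have e3 := h.continuousAt.eventually (ball_mem_nhds _ hδ)
  refine ⟨_, hδ, _, (e1.and (e2.and (e3.and ht))), fun W hW cW y hy => of_mono cW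
    (fun u hu => ((hW hu).1.hasFDerivAt.sub_const y).norm_sq) fun u hu v hv => ?_⟩
  have n : ‖v - u‖ ≤ C * ‖fderiv ℝ Ψ u₀ (v - u)‖ := ZeroHomClass.bound_of_antilipschitz _ hA _
  have q : 1 / (4 * C) * ‖v - u‖ ≤ ‖fderiv ℝ Ψ u₀ (v - u)‖ / 4 :=
    (mul_le_mul_of_nonneg_left n (by positivity)).trans_eq (by field_simp)
  have b : ∀ x ∈ W, ‖fderiv ℝ Ψ x - fderiv ℝ Ψ u₀‖ ≤ 1 / (4 * C) := fun x hx =>
    mem_closedBall_iff_norm.1 (hW hx).2.1
  have w : ‖Ψ u - y‖ ≤ 2 * (1 / (8 * (K + 1) * C ^ 2)) := by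
    have := dist_triangle_right (Ψ u) y (Ψ u₀)
    rw [dist_eq_norm] at this
    linarith [mem_ball.1 (hW hu).2.2.1, mem_ball.1 hy]
  have l : ‖(fderiv ℝ Ψ v - fderiv ℝ Ψ u) (v - u)‖ ≤ (K + 1) * (C * ‖fderiv ℝ Ψ u₀ (v - u)‖) ^ 2 := by
    refine (ContinuousLinearMap.le_opNorm _ _).trans ?_
    have := hK.norm_sub_le (hW hv).2.2.2 (hW hu).2.2.2
    calc _ ≤ K * ‖v - u‖ * ‖v - u‖ := by gcongr
      _ = K * ‖v - u‖ ^ 2 := by ring
      _ ≤ _ := by gcongr; linarith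
  have := inn ((cW.norm_image_sub_le_of_norm_fderiv_le' (fun x hx => (hW hx).1) b hu hv).trans q)
    ((((fderiv ℝ Ψ v - fderiv ℝ Ψ u₀).le_opNorm (v - u)).trans
      (mul_le_mul_of_nonneg_right (b v hv) (norm_nonneg _))).trans q)
    ((mul_le_mul w l (norm_nonneg _) (by positivity)).trans_eq (by field_simp; ring))
  have s : Ψ v - Ψ u = (Ψ v - y) - (Ψ u - y) := by abel
  simp only [add_sub_cancel, sub_apply] at this
  rw [s, inner_sub_left, inner_sub_right] at this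
  simp only [smul_apply, ContinuousLinearMap.comp_apply, innerSL_apply_apply, nsmul_eq_mul,
    Nat.cast_ofNat]
  linarith

theorem straight {f : E2 → ℝ} {u₀ : E2} (h0 : u₀ ∈ ball (0 : E2) 4)
    (hf : ∀ u ∈ ball (0 : E2) 4, ContDiffAt ℝ ∞ f u) (hL : fderiv ℝ f u₀ ≠ 0) :
    ∃ τ : OpenPartialHomeomorph E2 E2, u₀ ∈ τ.source ∧ (∀ u ∈ τ.source, ContDiffAt ℝ ∞ τ u) ∧
      (∀ w ∈ τ.target, ContDiffAt ℝ ∞ τ.symm w) ∧
      HasFDerivAt τ.symm (ContinuousLinearMap.id ℝ E2) (τ u₀) ∧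
      ∃ L : E2 →L[ℝ] ℝ, ∀ w ∈ τ.target, f (τ.symm w) = L w := by
  obtain ⟨v, hv⟩ : ∃ v, fderiv ℝ f u₀ v = 1 := by
    obtain ⟨v, hv⟩ := DFunLike.ne_iff.1 hL
    exact ⟨(fderiv ℝ f u₀ v)⁻¹ • v, by rw [map_smul]; exact inv_mul_cancel₀ hv⟩
  set L := fderiv ℝ f u₀ with hLd
  let T : E2 → E2 := fun u => u + (f u - L u) • v
  have hT : ∀ u ∈ ball (0 : E2) 4, ContDiffAt ℝ ∞ T u := fun u hu =>
    contDiffAt_id.add (((hf u hu).sub L.contDiff.contDiffAt).smul contDiffAt_const)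
  have hT' : HasFDerivAt T (ContinuousLinearEquiv.refl ℝ E2 : E2 →L[ℝ] E2) u₀ := by
    have := (hasFDerivAt_id u₀).add
      ((((hf _ h0).differentiableAt (by simp)).hasFDerivAt.sub L.hasFDerivAt).smul_const v)
    rw [← hLd, sub_self, ContinuousLinearMap.zero_smulRight, add_zero] at this
    exact this
  have hD : ContDiffAt ℝ 0 (fderiv ℝ T) u₀ := (hT _ h0).fderiv_right (by exact_mod_cast le_top)
  obtain ⟨O, h1, h2, h3⟩ := _root_.eventually_nhds_iff.1 ((hD.continuousAt.eventually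
    ((ContinuousLinearEquiv.isOpen (𝕜 := ℝ) (E := E2) (F := E2)).mem_nhds
      ⟨_, hT'.fderiv.symm⟩)).and (isOpen_ball.mem_nhds h0))
  let τ := ((hT _ h0).toOpenPartialHomeomorph T hT' (by simp)).restrOpen O h2
  have m : u₀ ∈ τ.source := ⟨(hT _ h0).mem_toOpenPartialHomeomorph_source hT' (by simp), h3⟩
  refine ⟨τ, m, fun u hu => hT u (h1 u hu.2).2, fun w hw => ?_, ?_, L, fun w hw => ?_⟩
  · obtain ⟨⟨e, he⟩, hb⟩ := h1 _ (τ.map_target hw).2
    exact τ.contDiffAt_symm hw (f₀' := e)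
      (he ▸ ((hT _ hb).differentiableAt (by simp)).hasFDerivAt) (hT _ hb)
  · exact τ.hasFDerivAt_symm (f' := ContinuousLinearEquiv.refl ℝ E2) (τ.map_source m)
      (by rw [τ.left_inv m]; exact hT')
  · conv_rhs => rw [← τ.right_inv hw]
    change _ = L (T _)
    simp [T, hv]

theorem inj {Ψ : E2 → F} {R : F → E2} {x : E2} (h : DifferentiableAt ℝ Ψ x)
    (hR : DifferentiableAt ℝ R (Ψ x)) (e : ∀ᶠ u in 𝓝 x, R (Ψ u) = u) :
    Function.Injective (fderiv ℝ Ψ x) := by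
  have := (hR.hasFDerivAt.comp x h.hasFDerivAt).unique ((hasFDerivAt_id x).congr_of_eventuallyEq e)
  exact Function.LeftInverse.injective (g := fderiv ℝ R (Ψ x)) fun v => DFunLike.congr_fun this v

theorem sum_co (x : E2) : ∑ i, co x i • bv i = x := by
  ext k
  fin_cases k <;> apply Complex.ext <;> simp [Fin.sum_univ_four, co, bv]

theorem sm_co (i : Fin 4) : ContDiff ℝ ∞ fun x => co x i := by
  have a : ∀ k, ContDiff ℝ ∞ fun x : E2 => (x k).re := fun k =>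
    Complex.reCLM.contDiff.comp (contDiff_apply ℝ ℂ k)
  have b : ∀ k, ContDiff ℝ ∞ fun x : E2 => (x k).im := fun k =>
    Complex.imCLM.contDiff.comp (contDiff_apply ℝ ℂ k)
  fin_cases i
  exacts [a 0, b 0, a 1, b 1]

theorem trans {Z Λ : Type} [TopologicalSpace Z] (A : KA Z Λ) {l l' : Λ} {z : Z} (h : z ∈ A.src l)
    (h' : z ∈ A.src l') : ContDiffAt ℝ ∞ (A.e l' ∘ (A.e l).symm) (A.e l z) :=
  (A.an l l' z h h').contDiffAt.restrict_scalars ℝ

end PCvx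

open PCvx

variable {Z Λ : Type} [TopologicalSpace Z] [T2Space Z] {A : KA Z Λ}

theorem emb [CompactSpace Z] (h : A.Bas) (hb : A.Bump) :
    ∃ (F : Type) (_ : NormedAddCommGroup F) (_ : InnerProductSpace ℝ F) (Φ : Z → F), A.Emb Φ := by
  have : Finite Λ := finite_univ_iff.1 ((hb.lf univ isCompact_univ).subset fun l _ =>
    ⟨_, A.symm_mem l (mem_ball_self (by norm_num)), trivial⟩)
  have := Fintype.ofFinite Λ
  let β : ContDiffBump (0 : E2) := ⟨1, 2, one_pos, one_lt_two⟩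
  let u : Option (Fin 4) → E2 → ℝ := fun o x => β x * o.elim 1 (co x)
  have hu : ∀ l o, A.D (A.ext l (u o)) := fun l o => (hb.ext_D l (u o)
    ⟨β.contDiff.mul (by cases o; exacts [contDiff_const, sm_co _]), β.hasCompactSupport.mul_right⟩
    ((tsupport_mul_subset_left (f := β)).trans (β.tsupport_eq ▸ closedBall_subset_ball
      (by norm_num [β])))).1
  let Φ : Z → EuclideanSpace ℝ (Λ × Option (Fin 4)) := fun z =>
    WithLp.toLp 2 fun p => A.ext p.1 (u p.2) z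
  have v : ∀ l o z, z ∈ A.src l → β (A.e l z) = 1 → Φ z (l, o) = o.elim 1 (co (A.e l z)) :=
    fun l o z hz h1 => (indicator_of_mem hz fun w => u o (A.e l w)).trans
      (by simp only [u, h1, one_mul])
  have o1 : ∀ x ∈ ball (0 : E2) 1, β x = 1 := fun x hx =>
    β.one_of_mem_closedBall (ball_subset_closedBall hx)
  have q : ∀ l z, z ∈ A.src l → β (A.e l z) = 1 → ∑ i, Φ z (l, some i) • bv i = A.e l z :=
    fun l z hz h1 => by simp only [v l _ z hz h1, Option.elim, sum_co]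
  refine ⟨_, inferInstance, inferInstance, Φ, fun z z' e => ?_, fun l z hz => ?_⟩
  · have a : A.ext (A.i z) (u none) z' = 1 :=
      (e ▸ v _ none z (A.mem_i z) (o1 _ (A.ball_i z)) : Φ z' (A.i z, none) = 1)
    have m : z' ∈ A.src (A.i z) := mem_of_indicator_ne_zero (a.trans_ne one_ne_zero)
    refine (A.e _).injOn (A.mem_i z) m ?_
    rw [← q _ z (A.mem_i z) (o1 _ (A.ball_i z)), e,
      q _ z' m ((mul_one _).symm.trans ((indicator_of_mem m _).symm.trans a))]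
  have s : ContDiffAt ℝ ∞ (Φ ∘ (A.e l).symm) (A.e l z) :=
    contDiffAt_euclidean.2 fun p => (hu p.1 p.2).1 z l hz
  refine ⟨s, inj (R := (A.e l ∘ (A.e (A.i z)).symm) ∘ fun w => ∑ i, w (A.i z, some i) • bv i)
    (s.differentiableAt (by simp)) (DifferentiableAt.comp _ ?_ (by fun_prop)) ?_⟩
  · rw [Function.comp_apply, (A.e l).left_inv hz, q _ z (A.mem_i z) (o1 _ (A.ball_i z))]
    exact (trans A (A.mem_i z) hz).differentiableAt (by simp)
  filter_upwards [A.ev_symm hz (((A.e _).open_source.eventually_mem (A.mem_i z)).and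
    (((A.e _).continuousAt (A.mem_i z)).eventually (isOpen_ball.mem_nhds (A.ball_i z)))),
    isOpen_ball.mem_nhds (A.map_src hz)] with x h1 h2
  simp only [Function.comp_apply]
  rw [q _ _ h1.1 (o1 _ h1.2), (A.e _).left_inv h1.1, A.e_symm l h2]

theorem cvx (h : A.Bas) : A.Cvx := by
  intro F _ _ Φ ρ a b hΦ hρ ha hb x
  obtain ⟨l, hl, τ, h0, h1, h2, h3, h4⟩ : ∃ l, x ∈ A.src l ∧ ∃ τ : OpenPartialHomeomorph E2 E2,
      A.e l x ∈ τ.source ∧ (∀ u ∈ τ.source, ContDiffAt ℝ ∞ τ u) ∧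
      (∀ w ∈ τ.target, ContDiffAt ℝ ∞ τ.symm w) ∧
      HasFDerivAt τ.symm (ContinuousLinearMap.id ℝ E2) (τ (A.e l x)) ∧
      ((∃ L : E2 →L[ℝ] ℝ, ∀ w ∈ τ.target, (ρ ∘ (A.e l).symm) (τ.symm w) = L w) ∨
        (ρ x ≠ a ∧ ρ x ≠ b)) := by
    by_cases hx : ρ x ≠ a ∧ ρ x ≠ b
    · exact ⟨_, A.mem_i x, .refl _, trivial, fun _ _ => contDiffAt_id, fun _ _ => contDiffAt_id,
        hasFDerivAt_id _, .inr hx⟩
    obtain ⟨l, hl, hL⟩ := (not_and_or.1 hx).elim (fun e => ha x (not_not.1 e))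
      fun e => hb x (not_not.1 e)
    obtain ⟨τ, t0, t1, t2, t3, t4⟩ := straight (A.map_src hl)
      (fun u hu => A.e_symm l hu ▸ hρ _ l (A.symm_mem l hu)) hL
    exact ⟨l, hl, τ, t0, t1, t2, t3, .inl t4⟩
  let κ := (A.e l).trans τ
  have m : x ∈ κ.source := ⟨hl, h0⟩
  have p := hΦ.2 l x hl
  rw [← τ.left_inv h0] at p
  obtain ⟨δ, hδ, N, hN, hc⟩ := flat (p.1.comp _ (h2 _ (τ.map_source h0))) (by
    rw [((p.1.differentiableAt (by simp)).hasFDerivAt.comp _ h3).fderiv]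
    exact p.2)
  have c : ContinuousAt (ρ ∘ κ.symm) (κ x) :=
    (h.sm_cont ρ x (hρ x)).comp_of_eq (κ.continuousAt_symm (κ.map_source m)) (κ.left_inv m)
  have e : ∀ᶠ w in 𝓝 (κ x), ρ x ≠ a ∧ ρ x ≠ b → ρ (κ.symm w) ≠ a ∧ ρ (κ.symm w) ≠ b := by
    refine eventually_imp_distrib_left.2 fun hx => ?_
    rw [← κ.left_inv m] at hx
    exact (c.eventually_ne hx.1).and (c.eventually_ne hx.2)
  obtain ⟨r, hr, hW⟩ := Metric.eventually_nhds_iff_ball.1
    (e.and ((κ.open_target.eventually_mem (κ.map_source m)).and hN))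
  refine ⟨κ, ball (κ x) r, δ, fun l' z hz hz' => ⟨?_, ?_⟩, m, mem_ball_self hr, isOpen_ball,
    convex_ball _ _, fun w hw => (hW w hw).2.1, hδ, fun y hy => hc _ (fun w hw => (hW w hw).2.2)
      (convex_ball _ _) y ?_, h4.imp (fun ⟨L, hL⟩ => ?_) fun hx w hw => (hW w hw).1 hx⟩
  · refine ContDiffAt.comp (g := τ) _ ?_ (trans A hz' hz.1)
    rw [(A.e l').left_inv hz']
    exact h1 _ hz.2
  · refine ContDiffAt.comp (g := A.e l' ∘ (A.e l).symm) (f := τ.symm) _ ?_ (h2 _ (τ.map_source hz.2))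
    rw [show τ.symm (κ z) = A.e l z from τ.left_inv hz.2]
    exact trans A hz.1 hz'
  · rw [Function.comp_apply, τ.left_inv h0, Function.comp_apply, (A.e l).left_inv hl]
    exact hy
  · have q : EqOn L (ρ ∘ κ.symm) (ball (κ x) r) := fun w hw => (hL w (hW w hw).2.1.1).symm
    exact ⟨(L.toLinearMap.convexOn (convex_ball _ _)).congr q,
      (L.toLinearMap.concaveOn (convex_ball _ _)).congr q⟩

end Pool.Agent.Lib.MP_356dfe_ag.S
end
end
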