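import Pool.Agent.Lib.MP_356dfe_ag.S.Basic

-- part Pool.Agent.Lib.MP_356dfe_ag.S.PMean
section

/-! Mean value inequality and concentration on shells. -/

set_option autoImplicit false

open Set Filter Topology Metric MeasureTheory
open scoped ContDiff ComplexConjugate Matrix Pointwise

noncomputable section

namespace Pool.Agent.Lib.MP_356dfe_ag.S

namespace PMean

theorem rot (x : E2) (θ : ℝ) :
    MeasurePreserving (fun y : E2 => x + circleMap 0 1 θ • y) volume volume :=
  (measurePreserving_add_left volume x).comp (volume_preserving_pi fun _ : Fin 2 =>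
    (rotation ⟨circleMap 0 1 θ, circleMap_mem_sphere 0 zero_le_one θ⟩).measurePreserving)

theorem circ {g : E2 → ℂ} {x y : E2} {r : ℝ} (hg : DifferentiableOn ℂ g (ball x (2 * r)))
    (hy : y ∈ ball (0 : E2) r) : ENNReal.ofReal (2 * Real.pi) * ‖g x‖ₑ ≤
      ∫⁻ θ in Ioc 0 (2 * Real.pi), ‖g (x + circleMap 0 1 θ • y)‖ₑ := by
  rw [mem_ball_zero_iff] at hy
  have hd : DifferentiableOn ℂ (fun t : ℂ => g (x + t • y)) (closure (ball 0 |1|)) := by
    refine hg.comp (by fun_prop) fun t ht => ?_
    have := closure_ball_subset_closedBall ht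
    rw [mem_closedBall_zero_iff, abs_one] at this
    rw [mem_ball_iff_norm, add_sub_cancel_left, norm_smul]
    nlinarith [norm_nonneg y, norm_nonneg t]
  have e := hd.diffContOnCl.circleAverage
  rw [Real.circleAverage_def, zero_smul, add_zero,
    intervalIntegral.integral_of_le Real.two_pi_pos.le] at e
  refine le_of_eq_of_le ?_ (enorm_integral_le_lintegral_enorm _)
  rw [← e, ← Real.enorm_eq_ofReal Real.two_pi_pos.le, ← enorm_smul,
    smul_inv_smul₀ Real.two_pi_pos.ne']

theorem sub {g : E2 → ℂ} {x : E2} {r : ℝ} (hr : 0 < r)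
    (hg : DifferentiableOn ℂ g (ball x (2 * r))) :
    ‖g x‖ₑ * volume (ball (0 : E2) r) ≤ ∫⁻ y in ball x r, ‖g y‖ₑ := by
  classical
  have hF : Measurable ((ball x r).indicator fun y => ‖g y‖ₑ) :=
    ((hg.continuousOn.mono (ball_subset_ball (by linarith))).enorm).measurable_piecewise
      continuousOn_const measurableSet_ball
  rw [← lintegral_indicator measurableSet_ball, ← ENNReal.mul_le_mul_iff_right
    (ENNReal.ofReal_pos.2 Real.two_pi_pos).ne' ENNReal.ofReal_ne_top, ← mul_assoc,
    ← setLIntegral_const]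
  calc _ ≤ ∫⁻ y in ball (0 : E2) r, ∫⁻ θ in Ioc 0 (2 * Real.pi),
        (ball x r).indicator (fun y => ‖g y‖ₑ) (x + circleMap 0 1 θ • y) := by
        refine setLIntegral_mono' measurableSet_ball fun y hy => (circ hg hy).trans_eq ?_
        refine lintegral_congr fun θ => (indicator_of_mem ?_ fun y => ‖g y‖ₑ).symm
        simpa [norm_smul] using hy
    _ ≤ ∫⁻ y, ∫⁻ θ in Ioc 0 (2 * Real.pi),
        (ball x r).indicator (fun y => ‖g y‖ₑ) (x + circleMap 0 1 θ • y) :=
        setLIntegral_le_lintegral _ _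
    _ = _ := by
        have hc : Continuous fun p : E2 × ℝ => x + circleMap 0 1 p.2 • p.1 := by fun_prop
        rw [lintegral_lintegral_swap (by exact (hF.comp hc.measurable).aemeasurable)]
        simp only [(rot x _).lintegral_comp hF]
        rw [setLIntegral_const, Real.volume_Ioc, sub_zero, mul_comm]

theorem vol (x₀ : E2) (k : Fin 2) {ε δ : ℝ} (hε : 0 < ε) :
    volume (univ.pi (Function.update (fun j => ball (x₀ j) δ) k (ball 0 √ε \ {0}))) =
      ENNReal.ofReal ε * (ENNReal.ofReal δ ^ 2 * NNReal.pi ^ 2) := by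
  have e : volume (ball (0 : ℂ) √ε \ {0}) = ENNReal.ofReal ε * NNReal.pi := by
    rw [measure_sdiff_null (measure_singleton _), Complex.volume_ball,
      ← ENNReal.ofReal_pow (Real.sqrt_nonneg _), Real.sq_sqrt hε.le]
  rw [volume_pi_pi, Fin.prod_univ_two]
  fin_cases k <;> simp only [Fin.zero_eta, Fin.mk_one, Function.update_self, ne_eq, one_ne_zero,
    zero_ne_one, not_false_eq_true, Function.update_of_ne, e, Complex.volume_ball] <;> ring

end PMean

open PMean in
theorem mean : Mean := by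
  intro r hr
  refine ⟨(volume (ball (0 : E2) r)).toReal⁻¹, fun h x hh => ?_⟩
  have h0 : 0 < (volume (ball (0 : E2) r)).toReal :=
    ENNReal.toReal_pos (measure_ball_pos _ _ hr).ne' measure_ball_lt_top.ne
  have hi : IntegrableOn (fun y => h y ^ 2) (ball x r) :=
    (((hh.pow 2).continuousOn.mono (closedBall_subset_ball (by linarith))).integrableOn_compact
      (isCompact_closedBall x r)).mono_set ball_subset_closedBall
  have := sub hr (hh.fun_pow 2)
  rw [← ofReal_integral_norm_eq_lintegral_enorm hi] at this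
  have := ENNReal.toReal_le_of_le_ofReal (integral_nonneg fun _ => norm_nonneg _) this
  rw [ENNReal.toReal_mul, toReal_enorm] at this
  rw [le_inv_mul_iff₀ h0, mul_comm]
  simpa only [norm_pow] using this

open PMean in
theorem shell (ha : Alg) : Shell := by
  intro η β a x₀ k hη hβ hc h0 h1 r hr
  set G : E2 → ℂ := fun x => x k * (a x 0 * β x 1 - a x 1 * β x 0) +
    (a x 0 * (Pi.single k 1 : E2) 1 - a x 1 * (Pi.single k 1 : E2) 0) with hG
  set Ψ : E2 → ℝ := fun x => Real.exp (η x) * Complex.normSq (G x) / (Real.exp (η x) + 1) ^ 2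
    with hΨ
  have G0 : G x₀ ≠ 0 := by
    simp only [hG, h0]
    fin_cases k <;> simpa using h1
  have c1 := continuousAt_pi.1 hc
  have c2 := continuousAt_pi.1 hβ
  have cG : ContinuousAt G x₀ :=
    ((continuousAt_apply k x₀).mul (((c1 0).mul (c2 1)).sub ((c1 1).mul (c2 0)))).add
      (((c1 0).mul continuousAt_const).sub ((c1 1).mul continuousAt_const))
  have cΨ : ContinuousAt Ψ x₀ :=
    (hη.rexp.mul (Complex.continuous_normSq.continuousAt.comp cG)).div
      ((hη.rexp.add continuousAt_const).pow 2) (by positivity)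
  have Ψ0 : 0 < Ψ x₀ := div_pos (mul_pos (Real.exp_pos _) (Complex.normSq_pos.2 G0)) (by positivity)
  obtain ⟨δ, hδ, hb⟩ := Metric.eventually_nhds_iff_ball.1
    ((cΨ.eventually (lt_mem_nhds (half_lt_self Ψ0))).and (ball_mem_nhds x₀ hr))
  refine ⟨Ψ x₀ / 2 * (δ ^ 2 * Real.pi ^ 2), by positivity, ?_⟩
  filter_upwards [Ioo_mem_nhdsGT (show 0 < δ ^ 2 by positivity)] with ε hε
  obtain ⟨hε, hε'⟩ := hε
  have hs : √ε < δ := Real.sqrt_lt' hδ |>.2 hε'
  have sb : univ.pi (Function.update (fun j => ball (x₀ j) δ) k (ball 0 √ε \ {0})) ⊆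
      ball x₀ δ := fun x hx => by
    rw [ball_pi _ hδ]
    intro j _
    have := hx j trivial
    by_cases e : j = k
    · subst e
      rw [Function.update_self] at this
      exact ball_subset_ball hs.le (h0.symm ▸ this.1 : x j ∈ ball (x₀ j) √ε)
    · rwa [Function.update_of_ne e] at this
  refine le_trans ?_ (lintegral_mono_set (sb.trans fun x hx => (hb x hx).2))
  refine le_trans (le_of_eq ?_) (setLIntegral_mono' (f := fun _ => ENNReal.ofReal (Ψ x₀ / 2 / ε))
    (MeasurableSet.univ_pi fun j => ?_) fun x hx => ENNReal.ofReal_le_ofReal ?_)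
  · rw [setLIntegral_const, vol x₀ k hε, ← mul_assoc (ENNReal.ofReal _),
      ← ENNReal.ofReal_mul (by positivity),
      div_mul_cancel₀ _ hε.ne', ENNReal.ofReal_mul (by positivity),
      ENNReal.ofReal_mul (by positivity), ENNReal.ofReal_pow hδ.le,
      ENNReal.ofReal_pow Real.pi_pos.le, ← NNReal.coe_real_pi, ENNReal.ofReal_coe_nnreal]
  · by_cases e : j = k
    · subst e
      rw [Function.update_self]
      exact measurableSet_ball.diff (measurableSet_singleton _)
    · rw [Function.update_of_ne e]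
      exact measurableSet_ball
  have hk := hx k trivial
  rw [Function.update_self] at hk
  have k0 : x k ≠ 0 := hk.2
  have k1 : 0 < Complex.normSq (x k) := Complex.normSq_pos.2 k0
  have k2 : Complex.normSq (x k) < ε := by
    rw [Complex.normSq_eq_norm_sq]
    exact (Real.lt_sqrt (norm_nonneg _)).1 (mem_ball_zero_iff.1 hk.1)
  have e : a x 0 * (β x + Pi.single k (x k)⁻¹ : E2) 1 - a x 1 * (β x + Pi.single k (x k)⁻¹ : E2) 0 =
      G x / x k := by
    simp only [hG, Pi.add_apply, Pi.single_apply]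
    split_ifs <;> field_simp <;> ring
  have p := Real.exp_pos (η x)
  have q := Complex.normSq_nonneg (G x)
  rw [ha.md_ot_ot, e, map_div₀]
  calc Ψ x₀ / 2 / ε ≤ Ψ x / ε := div_le_div_of_nonneg_right (hb x (sb hx)).1.le hε.le
    _ = ε * Real.exp (η x) * Complex.normSq (G x) / (ε * Real.exp (η x) + ε) ^ 2 := by
      simp only [hΨ]
      field_simp
    _ ≤ ε * Real.exp (η x) * Complex.normSq (G x) /
        (Complex.normSq (x k) * Real.exp (η x) + ε) ^ 2 := by gcongr
    _ = _ := by field_simp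

end Pool.Agent.Lib.MP_356dfe_ag.S
end
end

-- part Pool.Agent.Lib.MP_356dfe_ag.S.PWeak
section

/-! Weak limits of derivatives. -/

set_option autoImplicit false

open Set Filter Topology Metric MeasureTheory
open scoped ContDiff ComplexConjugate Matrix Pointwise

noncomputable section

namespace Pool.Agent.Lib.MP_356dfe_ag.S

namespace PWeak

variable {O K : Set E2} {ψ φ : E2 → ℝ} {u h : E2 → ℂ} {b : ℕ → E2 → ℂ}

theorem supp (h0 : ∀ x, x ∉ K → ψ x = 0) (u : E2 → ℂ) :
    Function.support (fun x => ψ x • u x) ⊆ K := fun x hx => by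
  by_contra h
  exact hx (by simp only [h0 x h, zero_smul])

theorem int (hK : IsCompact K) (hψ : Continuous ψ) (h0 : ∀ x, x ∉ K → ψ x = 0)
    (hu : ContinuousOn u K) : Integrable fun x => ψ x • u x :=
  (integrableOn_iff_integrable_of_support_subset (supp h0 u)).1
    ((hψ.continuousOn.smul hu).integrableOn_compact hK)

theorem lim0 (hK : IsCompact K) (hψ : Continuous ψ) (h0 : ∀ x, x ∉ K → ψ x = 0)
    (hb : ∀ n, ContinuousOn (b n) K) (hl : Tendsto (fun n => ∫ x in K, ‖b n x‖ ^ 2) atTop (𝓝 0)) :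
    Tendsto (fun n => ∫ x, ψ x • b n x) atTop (𝓝 0) := by
  refine NormedAddGroup.tendsto_nhds_zero.2 fun ε hε => ?_
  have c0 : 0 ≤ ∫ x in K, ψ x ^ 2 := integral_nonneg fun x => sq_nonneg _
  generalize hC : ∫ x in K, ψ x ^ 2 = C at c0
  obtain ⟨δ, d0, d1⟩ : ∃ δ > 0, δ * (C + 1) < ε :=
    ⟨ε / (C + 2), by positivity, by rw [div_mul_eq_mul_div, div_lt_iff₀ (by positivity)]; nlinarith⟩
  filter_upwards [hl.eventually (gt_mem_nhds (mul_pos d0 d0))] with n hn
  have i1 : IntegrableOn (fun x => ψ x ^ 2) K := (hψ.pow 2).continuousOn.integrableOn_compact hK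
  have i2 : IntegrableOn (fun x => ‖b n x‖ ^ 2) K := ((hb n).norm.pow 2).integrableOn_compact hK
  rw [← setIntegral_eq_integral_of_forall_compl_eq_zero (s := K)
    fun x hx => by rw [h0 x hx, zero_smul]]
  refine (norm_integral_le_of_norm_le ((i1.const_mul δ).add (i2.const_mul δ⁻¹))
    (.of_forall fun x => ?_)).trans_lt ?_
  · rw [norm_smul, Pi.add_apply, Real.norm_eq_abs, ← sq_abs (ψ x)]
    have a0 := abs_nonneg (ψ x)
    have a1 := norm_nonneg (b n x)
    generalize |ψ x| = s at a0
    generalize ‖b n x‖ = t at a1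
    rw [← mul_le_mul_iff_right₀ d0, mul_add, mul_inv_cancel_left₀ d0.ne']
    nlinarith [sq_nonneg (δ * s - t), mul_nonneg (mul_nonneg d0.le a0) a1]
  · simp only [Pi.add_apply]
    rw [integral_add (i1.const_mul δ) (i2.const_mul δ⁻¹), integral_const_mul, integral_const_mul,
      hC]
    have := (inv_mul_lt_iff₀ d0).2 hn
    linarith

theorem lim (hK : IsCompact K) (hψ : Continuous ψ) (h0 : ∀ x, x ∉ K → ψ x = 0)
    (hb : ∀ n, ContinuousOn (b n) K) (hh : ContinuousOn h K)
    (hl : Tendsto (fun n => ∫ x in K, ‖b n x - h x‖ ^ 2) atTop (𝓝 0)) :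
    Tendsto (fun n => ∫ x, ψ x • b n x) atTop (𝓝 (∫ x, ψ x • h x)) := by
  refine tendsto_sub_nhds_zero_iff.1 ((lim0 hK hψ h0 (b := fun n x => b n x - h x)
    (fun n => (hb n).sub hh) hl).congr fun n => ?_)
  simp only [smul_sub]
  exact integral_sub (int hK hψ h0 (hb n)) (int hK hψ h0 hh)

theorem cont_fd (hO : IsOpen O) (hu : ContDiffOn ℝ 1 u O) (v : E2) :
    ContinuousOn (fun x => fderiv ℝ u x v) O :=
  (hu.continuousOn_fderiv_of_isOpen hO le_rfl).clm_apply continuousOn_const

theorem cont_dh (hO : IsOpen O) (hu : ContDiffOn ℝ 1 u O) (i : Fin 2) :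
    ContinuousOn (fun x => dh u x i) O :=
  ((cont_fd hO hu _).sub (continuousOn_const.mul (cont_fd hO hu _))).div_const _

theorem z0 (φ : E2 → ℝ) : ∀ x, x ∉ tsupport φ → φ x = 0 := fun _ => image_eq_zero_of_notMem_tsupport

theorem z1 (φ : E2 → ℝ) (v : E2) : ∀ x, x ∉ tsupport φ → fderiv ℝ φ x v = 0 := fun x hx => by
  rw [image_eq_zero_of_notMem_tsupport fun k => hx (tsupport_fderiv_subset ℝ k)]
  rfl

theorem c1 (hφ : CS φ) (v : E2) : Continuous fun x => fderiv ℝ φ x v :=
  (hφ.1.continuous_fderiv (by simp)).clm_apply continuous_const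

theorem ibp (hO : IsOpen O) (hφ : CS φ) (hs : tsupport φ ⊆ O) (hu : ContDiffOn ℝ 1 u O) (v : E2) :
    ∫ x, φ x • fderiv ℝ u x v = -∫ x, fderiv ℝ φ x v • u x :=
  integral_smul_fderiv_eq_neg_fderiv_smul_of_integrable
    (int hφ.2 (c1 hφ v) (z1 φ v) (hu.continuousOn.mono hs))
    (int hφ.2 hφ.1.continuous (z0 φ) ((cont_fd hO hu v).mono hs))
    (int hφ.2 hφ.1.continuous (z0 φ) (hu.continuousOn.mono hs))
    (fun x _ => hφ.1.differentiable (by simp) x)
    fun x hx => (hu.differentiableOn one_ne_zero).differentiableAt (hO.mem_nhds (hs hx))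

theorem int_dh (hO : IsOpen O) (hφ : CS φ) (hs : tsupport φ ⊆ O) (hu : ContDiffOn ℝ 1 u O)
    (i : Fin 2) : ∫ x, φ x • dh u x i = (-(∫ x, fderiv ℝ φ x (Pi.single i 1) • u x) -
      Complex.I * -∫ x, fderiv ℝ φ x (Pi.single i Complex.I) • u x) / 2 := by
  have i1 := fun v => int hφ.2 hφ.1.continuous (z0 φ) ((cont_fd hO hu v).mono hs)
  rw [← ibp hO hφ hs hu, ← ibp hO hφ hs hu, ← integral_const_mul,
    ← integral_sub (i1 _) ((i1 _).const_mul _), ← integral_div]
  refine integral_congr_ae (.of_forall fun x => ?_)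
  simp only [dh, Complex.real_smul]
  ring

theorem lim_dh (hO : IsOpen O) (hφ : CS φ) (hs : tsupport φ ⊆ O) (hb : ∀ n, ContDiffOn ℝ 1 (b n) O)
    (hh : ContDiffOn ℝ 1 h O) (hl : LL O b h) (i : Fin 2) :
    Tendsto (fun n => ∫ x, φ x • dh (b n) x i) atTop (𝓝 (∫ x, φ x • dh h x i)) := by
  have k := fun v => (lim hφ.2 (c1 hφ v) (z1 φ v) (fun n => (hb n).continuousOn.mono hs)
    (hh.continuousOn.mono hs) (hl _ hφ.2 hs)).neg
  simp only [int_dh hO hφ hs (hb _), int_dh hO hφ hs hh]
  exact ((k _).sub ((k _).const_mul _)).div_const _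

end PWeak

open PWeak in
theorem weak : Weak := by
  intro O b c h h' i j hO hb hc hh hh' l1 l2 l3 x hx
  have k := (cont_dh hO hh i).sub (cont_dh hO hh' j)
  refine sub_eq_zero.1 (Measure.eqOn_open_of_ae_eq (μ := volume) (g := fun _ => 0)
    ((ae_restrict_iff' hO.measurableSet).2 (hO.ae_eq_zero_of_integral_contDiff_smul_eq_zero
      (k.locallyIntegrableOn hO.measurableSet) fun φ h1 h2 hs => ?_)) hO k continuousOn_const hx)
  have i1 : ∀ {u}, ContDiffOn ℝ 1 u O → ∀ i, Integrable fun x => φ x • dh u x i :=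
    fun hu i => int h2 h1.continuous (z0 φ) ((cont_dh hO hu i).mono hs)
  have t1 := (lim_dh hO ⟨h1, h2⟩ hs hb hh l1 i).sub (lim_dh hO ⟨h1, h2⟩ hs hc hh' l2 j)
  have t2 := lim0 h2 h1.continuous (z0 φ) (b := fun n x => dh (b n) x i - dh (c n) x j)
    (fun n => ((cont_dh hO (hb n) i).sub (cont_dh hO (hc n) j)).mono hs)
    (by simpa only [Pi.zero_apply, sub_zero] using l3 _ h2 hs)
  simp only [smul_sub, integral_sub (i1 (hb _) i) (i1 (hc _) j)] at t2
  simp only [Pi.sub_apply, smul_sub, integral_sub (i1 hh i) (i1 hh' j)]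
  exact tendsto_nhds_unique t1 t2

end Pool.Agent.Lib.MP_356dfe_ag.S
end
end

-- part Pool.Agent.Lib.MP_356dfe_ag.S.PPrim
section

/-! Primitives on simply connected spaces. -/

set_option autoImplicit false

open Set Filter Topology Metric MeasureTheory
open scoped ContDiff ComplexConjugate Matrix Pointwise

noncomputable section

namespace Pool.Agent.Lib.MP_356dfe_ag.S

theorem primS : PrimS := by
  intro Y V _ _ _ _ f hf
  let : TopologicalSpace V := ⊥
  have : DiscreteTopology V := ⟨rfl⟩
  let B : FiberBundleCore Y Y V :=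
    { baseSet := fun y => interior {y' | ∃ c, ∀ᶠ w in 𝓝 y', f y w = f y' w + c}
      isOpen_baseSet := fun _ => isOpen_interior
      indexAt := id
      mem_baseSet_at := fun y => mem_interior_iff_mem_nhds.2 (hf y trivial)
      coordChange := fun i j x v => v + (f i x - f j x)
      coordChange_self := fun i x _ v => by simp
      continuousOn_coordChange := fun i j p hp => by
        obtain ⟨c, hc⟩ := interior_subset hp.1.1
        obtain ⟨c', hc'⟩ := interior_subset hp.1.2
        refine ContinuousAt.continuousWithinAt (ContinuousAt.congr (f := fun q => q.2 + (c - c'))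
          (((continuous_of_discreteTopology (f := fun v : V => v + (c - c'))).comp
            continuous_snd).continuousAt) ?_)
        refine (continuousAt_fst.eventually (hc.and hc')).mono fun q hq => ?_
        simp only [hq.1, hq.2, add_sub_add_left_eq_sub]
      coordChange_comp := fun i j k x _ v => by simp only [add_assoc, sub_add_sub_cancel] }
  have cov : IsCoveringMap B.proj :=
    IsFiberBundle.isCoveringMap fun x => ⟨B.localTriv x, B.mem_baseSet_at x⟩
  obtain ⟨y₀⟩ : Nonempty Y := inferInstance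
  obtain ⟨s, ⟨-, hs⟩, -⟩ := cov.existsUnique_continuousMap_lifts (ContinuousMap.id Y) y₀
    ⟨y₀, (0 : V)⟩ rfl
  have hs : ∀ w, (s w).1 = w := congrFun hs
  let t : Y → V := fun w => (s w).2
  refine ⟨fun w => f w w + t w, fun y _ => ⟨(B.localTriv y (s y)).2, ?_⟩⟩
  have h1 : ContinuousAt (fun w => (B.localTriv y (s w)).2) y :=
    continuousAt_snd.comp (((B.localTriv y).continuousAt (by
      rw [B.mem_localTriv_source, hs]; exact B.mem_baseSet_at y)).comp s.continuous.continuousAt)
  refine (h1.eventually ((isOpen_discrete {(B.localTriv y (s y)).2}).mem_nhds rfl)).mono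
    fun w hw => ?_
  rw [← (show (B.localTriv y (s w)).2 = (B.localTriv y (s y)).2 from hw)]
  change f w w + t w = f y w + (t w + (f (s w).1 (s w).1 - f y (s w).1))
  rw [hs]
  abel

end Pool.Agent.Lib.MP_356dfe_ag.S
end
end

-- part Pool.Agent.Lib.MP_356dfe_ag.S.PNF
section

/-! Normal forms on punctured polydiscs. -/

set_option autoImplicit false

open Set Filter Topology Metric MeasureTheory
open scoped ContDiff ComplexConjugate Matrix Pointwise

noncomputable section

namespace Pool.Agent.Lib.MP_356dfe_ag.S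

namespace PNF

theorem loc_const {X : Type} [TopologicalSpace X] {W : Set X} (hW : IsPreconnected W) (h : X → ℝ)
    (hl : ∀ y ∈ W, ∃ c, ∀ᶠ w in 𝓝 y, h w = c) {x y : X} (hx : x ∈ W) (hy : y ∈ W) : h x = h y := by
  refine hW.induction₂' (fun a b => h a = h b) (fun a ha => ?_)
    (fun _ _ _ _ _ _ e e' => e.trans e') hx hy
  obtain ⟨c, hc⟩ := hl a ha
  refine (hc.filter_mono nhdsWithin_le_nhds).mono fun b hb => ?_
  rw [hb, hc.self_of_nhds]
  exact ⟨rfl, rfl⟩

theorem disc_conn (c : ℂ) {δ : ℝ} (hδ : 0 < δ) : IsPreconnected {z ∈ ball c δ | z ≠ 0} := by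
  let e : OpenPartialHomeomorph ℂ ℂ := OpenPartialHomeomorph.univBall c δ
  have hs : e.source = univ := OpenPartialHomeomorph.univBall_source c δ
  have ht : e.target = ball c δ := OpenPartialHomeomorph.univBall_target c hδ
  have hi : Function.Injective e := injOn_univ.1 (hs ▸ e.injOn)
  have hc : Continuous e := continuousOn_univ.1 (hs ▸ e.continuousOn)
  have h1 : (e ⁻¹' {0}).Countable := (countable_singleton 0).preimage hi
  have h2 := (h1.isConnected_compl_of_one_lt_rank (by simp)).isPreconnected.image e hc.continuousOn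
  convert h2 using 1
  ext z
  constructor
  · rintro ⟨h3, h4⟩
    have h5 := e.right_inv (ht ▸ h3)
    exact ⟨e.symm z, fun h => h4 (h5.symm.trans h), h5⟩
  · rintro ⟨w, hw, rfl⟩
    exact ⟨ht ▸ e.map_source (hs ▸ mem_univ w), hw⟩

theorem conn (x₀ : E2) (δ : ℝ) (s : Finset (Fin 2)) :
    IsPreconnected {x ∈ ball x₀ δ | ∀ k ∈ s, x k ≠ 0} := by
  rcases le_or_gt δ 0 with hδ | hδ
  · simp [ball_eq_empty.2 hδ, isPreconnected_empty]
  have e : {x ∈ ball x₀ δ | ∀ k ∈ s, x k ≠ 0} =
      univ.pi fun k => {z ∈ ball (x₀ k) δ | k ∈ s → z ≠ 0} := by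
    ext x
    simp only [ball_pi _ hδ, mem_ofPred_eq, Set.mem_pi, mem_univ, true_imp_iff, forall_and]
  rw [e]
  refine isPreconnected_univ_pi fun k => ?_
  by_cases hk : k ∈ s
  · simpa only [hk, true_imp_iff] using disc_conn (x₀ k) hδ
  · simpa only [hk, false_imp_iff, sep_true] using (convex_ball (x₀ k) δ).isPreconnected

theorem wind (x₀ : E2) (k : Fin 2) (δ r : ℝ) (g : E2 → ℝ) (h0 : x₀ k = 0) (hδ : 0 < δ)
    (h : Prim {x ∈ ball x₀ δ | x k ≠ 0} (fun y x => r * Complex.arg (x k / y k)) g) : r = 0 := by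
  let γ : ℝ → E2 := fun t => x₀ + Pi.single k ((δ / 2 : ℝ) * Complex.exp (t * Complex.I))
  have hk : ∀ t, γ t k = (δ / 2 : ℝ) * Complex.exp (t * Complex.I) := fun t => by simp [γ, h0]
  have hδ' : ((δ / 2 : ℝ) : ℂ) ≠ 0 := Complex.ofReal_ne_zero.2 (by positivity)
  have hc : Continuous γ := by
    refine continuous_const.add (continuous_pi fun j => ?_)
    by_cases e : j = k
    · subst e
      simp only [Pi.single_eq_same]
      fun_prop
    · simp only [Pi.single_eq_of_ne e]
      fun_prop
  have hm : ∀ t, γ t ∈ {x ∈ ball x₀ δ | x k ≠ 0} := fun t => by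
    refine ⟨?_, by rw [hk]; exact mul_ne_zero hδ' (Complex.exp_ne_zero _)⟩
    rw [mem_ball_iff_norm, add_sub_cancel_left, Pi.norm_single, norm_mul,
      Complex.norm_exp_ofReal_mul_I, Complex.norm_real, Real.norm_of_nonneg (by positivity)]
    linarith
  have key := loc_const isPreconnected_univ (fun t => g (γ t) - r * t) (fun t _ => by
    obtain ⟨c, hc'⟩ := h _ (hm t)
    refine ⟨c - r * t, ?_⟩
    filter_upwards [hc.continuousAt.eventually hc', ball_mem_nhds t Real.pi_pos] with u h1 h2
    rw [mem_ball, Real.dist_eq, abs_lt] at h2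
    have h3 : γ u k / γ t k = Complex.exp ((u - t : ℝ) * Complex.I) := by
      rw [hk, hk, mul_div_mul_left _ _ hδ', ← Complex.exp_sub]
      congr 1
      push_cast
      ring
    rw [h1, h3, Complex.exp_mul_I, Complex.arg_cos_add_sin_mul_I ⟨h2.1, h2.2.le⟩]
    ring) (mem_univ 0) (mem_univ (2 * Real.pi))
  have e : γ (2 * Real.pi) = γ 0 := by simp [γ]
  rw [e] at key
  have : r * (2 * Real.pi) = 0 := by linarith
  exact (mul_eq_zero.1 this).resolve_right (by positivity)

/-- primitives on open convex sets -/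
theorem prim_convex (hp : PrimS) {W : Set E2} (ho : IsOpen W) (hc : Convex ℝ W) (hn : W.Nonempty)
    {f : E2 → E2 → ℝ} (hf : LPS W f) : ∃ F, Prim W f F := by
  classical
  have := hc.contractibleSpace hn
  have := hc.locallyPathConnectedSpace
  have hv : ∀ y : W, Tendsto Subtype.val (𝓝 y) (𝓝 y.1) := fun y =>
    continuous_subtype_val.continuousAt
  obtain ⟨F, hF⟩ := hp W ℝ (fun y w => f y w) fun y _ =>
    ((hv y).eventually (hf y y.2)).mono fun y' ⟨c, h⟩ => ⟨c, (hv y').eventually h⟩
  refine ⟨fun w => if h : w ∈ W then F ⟨w, h⟩ else 0, fun y hy => ?_⟩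
  obtain ⟨c, h⟩ := hF ⟨y, hy⟩ (mem_univ _)
  refine ⟨c, ?_⟩
  rw [← ho.isOpenEmbedding_subtypeVal.map_nhds_eq ⟨y, hy⟩, eventually_map]
  exact h.mono fun w hw => (dif_pos w.2).trans hw

/-- the universal cover -/
def W (s : Finset (Fin 2)) : Set E2 :=
  univ.pi fun k => if k ∈ s then {z : ℂ | z.re < Real.log 4} else ball 0 4

/-- the covering map -/
def p (s : Finset (Fin 2)) (w : E2) : E2 := fun k => if k ∈ s then Complex.exp (w k) else w k

/-- a local section -/
def L (s : Finset (Fin 2)) (y x : E2) : E2 := fun k =>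
  if k ∈ s then Complex.log (y k) + Complex.log (x k / y k) else x k

/-- a generator of the deck group -/
def τ (k : Fin 2) : E2 := Pi.single k (2 * Real.pi * Complex.I)

variable {s : Finset (Fin 2)}

theorem W_open : IsOpen (W s) := isOpen_set_pi finite_univ fun k _ => by
  split_ifs
  · exact isOpen_lt Complex.continuous_re continuous_const
  · exact isOpen_ball

theorem W_convex : Convex ℝ (W s) := convex_pi fun k _ => by
  split_ifs
  · exact convex_halfSpace_re_lt _
  · exact convex_ball _ _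

theorem p_cont : Continuous (p s) := continuous_pi fun k => by
  unfold p
  split_ifs <;> fun_prop

theorem mem_W {w : E2} : w ∈ W s ↔ p s w ∈ ball (0 : E2) 4 := by
  rw [ball_pi _ (by norm_num : (0 : ℝ) < 4)]
  refine forall_congr' fun k => imp_congr_right fun _ => ?_
  by_cases hk : k ∈ s
  · simp only [p, if_pos hk, mem_ofPred_eq, Pi.zero_apply, mem_ball_zero_iff, Complex.norm_exp]
    exact Real.lt_log_iff_exp_lt (by norm_num)
  · simp only [p, if_neg hk, Pi.zero_apply]

theorem p_ne (w : E2) {k : Fin 2} (hk : k ∈ s) : p s w k ≠ 0 := by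
  simp only [p, if_pos hk]
  exact Complex.exp_ne_zero _

theorem p_L {y x : E2} (hy : ∀ k ∈ s, y k ≠ 0) (hx : ∀ k ∈ s, x k ≠ 0) : p s (L s y x) = x := by
  funext k
  by_cases hk : k ∈ s
  · simp only [p, L, if_pos hk]
    rw [Complex.exp_add, Complex.exp_log (hy k hk),
      Complex.exp_log (div_ne_zero (hx k hk) (hy k hk)), mul_div_cancel₀ _ (hy k hk)]
  · simp only [p, L, if_neg hk]

theorem L_cont {y : E2} (hy : ∀ k ∈ s, y k ≠ 0) : ContinuousAt (L s y) y :=
  continuousAt_pi.2 fun k => by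
    unfold L
    split_ifs with hk
    · refine continuousAt_const.add
        (ContinuousAt.clog ((continuous_apply k).continuousAt.div_const _) ?_)
      rw [div_self (hy k hk)]
      exact Complex.one_mem_slitPlane
    · exact (continuous_apply k).continuousAt

theorem p_τ (w : E2) {k : Fin 2} (hk : k ∈ s) (n : ℤ) : p s (w + n • τ k) = p s w := by
  funext j
  by_cases e : j = k
  · subst e
    simp only [p, if_pos hk, τ, Pi.add_apply, Pi.smul_apply, Pi.single_eq_same]
    exact Complex.exp_eq_exp_iff_exists_int.2 ⟨n, by rw [zsmul_eq_mul]⟩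
  · simp only [p, τ, Pi.add_apply, Pi.smul_apply, Pi.single_eq_of_ne e, smul_zero, add_zero]

theorem W_τ {w : E2} (hw : w ∈ W s) {k : Fin 2} (hk : k ∈ s) (n : ℤ) : w + n • τ k ∈ W s := by
  rw [mem_W, p_τ w hk]
  exact mem_W.1 hw

/-- a function invariant under the generators is constant on the fibres -/
theorem fibre {G : E2 → ℝ} (hG : ∀ k ∈ s, ∀ w ∈ W s, G (w + τ k) = G w) {w w' : E2}
    (hw : w ∈ W s) (e : p s w' = p s w) : G w' = G w := by
  have h1 : ∀ k ∈ s, ∀ w ∈ W s, ∀ n : ℤ, G (w + n • τ k) = G w := by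
    intro k hk w hw n
    induction n using Int.induction_on with
    | zero => simp
    | succ n ih => rw [add_smul, one_smul, ← add_assoc, hG k hk _ (W_τ hw hk n), ih]
    | pred n ih =>
      rw [← hG k hk _ (W_τ hw hk _), ← ih, sub_smul, one_smul, add_assoc, sub_add_cancel]
  have h2 : ∀ (n : Fin 2 → ℤ) (t : Finset (Fin 2)), t ⊆ s →
      w + ∑ k ∈ t, n k • τ k ∈ W s ∧ G (w + ∑ k ∈ t, n k • τ k) = G w := by
    intro n t
    induction t using Finset.induction_on with
    | empty => exact fun _ => by simpa using hw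
    | insert k t hk ih =>
      intro h
      obtain ⟨h3, h4⟩ := ih ((Finset.subset_insert _ _).trans h)
      have hs := h (Finset.mem_insert_self k t)
      rw [Finset.sum_insert hk, add_comm (n k • τ k), ← add_assoc]
      exact ⟨W_τ h3 hs _, (h1 k hs _ h3 _).trans h4⟩
  have h3 : ∀ k, ∃ n : ℤ, k ∈ s → w' k = w k + n * (2 * Real.pi * Complex.I) := fun k => by
    by_cases hk : k ∈ s
    · have := congrFun e k
      simp only [p, if_pos hk] at this
      exact (Complex.exp_eq_exp_iff_exists_int.1 this).imp fun _ h _ => h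
    · exact ⟨0, fun h => absurd h hk⟩
  choose n hn using h3
  have h4 : w' = w + ∑ k ∈ s, n k • τ k := by
    funext j
    simp only [Pi.add_apply, Finset.sum_apply, Pi.smul_apply, τ, Pi.single_apply, smul_ite,
      smul_zero, Finset.sum_ite_eq]
    split_ifs with hj
    · rw [hn j hj, zsmul_eq_mul]
    · have := congrFun e j
      simp only [p, if_neg hj] at this
      rw [this, add_zero]
  rw [h4]
  exact (h2 n s subset_rfl).2

theorem ex (hp : PrimS) (s : Finset (Fin 2)) (f : E2 → E2 → ℝ)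
    (hf : LPS {x ∈ ball (0 : E2) 4 | ∀ k ∈ s, x k ≠ 0} f) :
    ∃ r g, Prim {x ∈ ball (0 : E2) 4 | ∀ k ∈ s, x k ≠ 0} (fun y x => f y x - AG r s y x) g := by
  have hv : ∀ y, Tendsto (p s) (𝓝 y) (𝓝 (p s y)) := fun y => p_cont.continuousAt
  have h1 : ∀ k ∈ s, (1 : E2) k ≠ 0 := fun _ _ => one_ne_zero
  have h0 : L s 1 1 ∈ W s := by
    rw [mem_W, p_L h1 h1, mem_ball_zero_iff, norm_one]
    norm_num
  obtain ⟨F, hF⟩ := prim_convex hp W_open W_convex ⟨_, h0⟩ (f := fun y w => f (p s y) (p s w))
    fun y hy => ((hv y).eventually (hf _ ⟨mem_W.1 hy, fun _ => p_ne y⟩)).mono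
      fun y' ⟨c, h⟩ => ⟨c, (hv y').eventually h⟩
  have hτ : ∀ k ∈ s, ∀ w ∈ W s, F (w + τ k) - F w = F (L s 1 1 + τ k) - F (L s 1 1) := by
    intro k hk w hw
    refine loc_const W_convex.isPreconnected (fun w => F (w + τ k) - F w) (fun y hy => ?_) hw h0
    have e : ∀ w, p s (w + τ k) = p s w := fun w => by simpa using p_τ w hk 1
    obtain ⟨c, hc⟩ := hF y hy
    obtain ⟨c', hc'⟩ := hF (y + τ k) (by simpa using W_τ hy hk 1)
    refine ⟨c' - c, ?_⟩
    filter_upwards [hc, (continuous_add_const (τ k)).continuousAt.eventually hc'] with w h2 h3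
    rw [h2, h3, e, e]
    ring
  let r : Fin 2 → ℝ := fun k => (F (L s 1 1 + τ k) - F (L s 1 1)) / (2 * Real.pi)
  let G : E2 → ℝ := fun w => F w - ∑ k ∈ s, r k * (w k).im
  have hG : ∀ k ∈ s, ∀ w ∈ W s, G (w + τ k) = G w := by
    intro k hk w hw
    have e : ∑ j ∈ s, r j * ((w + τ k) j).im =
        ∑ j ∈ s, r j * (w j).im + r k * (2 * Real.pi) := by
      simp only [Pi.add_apply, Complex.add_im, mul_add, Finset.sum_add_distrib, τ, Pi.single_apply,
        apply_ite Complex.im, Complex.zero_im, mul_ite, mul_zero, Finset.sum_ite_eq', if_pos hk]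
      simp
    have e' : r k * (2 * Real.pi) = F (w + τ k) - F w := by
      rw [hτ k hk w hw]
      exact div_mul_cancel₀ _ (by positivity)
    simp only [G, e, e']
    ring
  refine ⟨r, fun x => G (L s 1 x), fun y hy => ?_⟩
  have hy' : L s y y ∈ W s := by
    rw [mem_W, p_L hy.2 hy.2]
    exact hy.1
  obtain ⟨c, hc⟩ := hF _ hy'
  refine ⟨c - ∑ k ∈ s, r k * Complex.arg (y k), ?_⟩
  have hne : ∀ᶠ x in 𝓝 y, ∀ k ∈ s, x k ≠ 0 := (eventually_all_finset s).2 fun k hk =>
    (continuous_apply k).continuousAt.eventually_ne (hy.2 k hk)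
  filter_upwards [hne, (L_cont hy.2).eventually hc,
    (L_cont hy.2).eventually (W_open.mem_nhds hy')] with x h2 h3 h4
  rw [fibre hG h4 ((p_L h1 h2).trans (p_L hy.2 h2).symm)]
  have e : ∑ k ∈ s, r k * (L s y x k).im =
      ∑ k ∈ s, r k * Complex.arg (y k) + AG r s y x := by
    rw [AG, ← Finset.sum_add_distrib]
    refine Finset.sum_congr rfl fun k hk => ?_
    simp only [L, if_pos hk, Complex.add_im, Complex.log_im, mul_add]
  simp only [G, e, h3, p_L hy.2 hy.2, p_L hy.2 h2]
  ring

end PNF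

theorem nf (hp : PrimS) : NF := ⟨PNF.ex hp, PNF.wind, PNF.conn⟩

end Pool.Agent.Lib.MP_356dfe_ag.S
end
end

-- part Pool.Agent.Lib.MP_356dfe_ag.S.PDegF
section

/-! The residue inequality on a disc. -/

set_option autoImplicit false

open Set Filter Topology Metric MeasureTheory
open scoped ContDiff ComplexConjugate Matrix Pointwise

noncomputable section

namespace Pool.Agent.Lib.MP_356dfe_ag.S

namespace PDegF

theorem intg {𝕜 : Type} [RCLike 𝕜] {a g : ℂ → 𝕜} {K : Set ℂ} (hK : IsCompact K)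
    (ha : Continuous a) (hs : Function.support a ⊆ K) (hg : ContinuousOn g K) :
    Integrable fun w => a w * g w :=
  (integrableOn_iff_integrable_of_support_subset (s := K) fun _ hw =>
    hs (left_ne_zero_of_mul hw)).1 ((ha.continuousOn.mul hg).integrableOn_compact hK)

theorem cont_fd {V : ℂ → ℝ} (hV : ContDiff ℝ ∞ V) (v : ℂ) : Continuous fun w => fderiv ℝ V w v :=
  (hV.continuous_fderiv (by simp)).clm_apply continuous_const

theorem supp_fd (V : ℂ → ℝ) (v : ℂ) :
    Function.support (fun w => fderiv ℝ V w v) ⊆ tsupport V :=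
  (subset_tsupport _).trans (tsupport_fderiv_apply_subset ℝ v)

theorem sm (V G : ℂ → ℝ) (hV : ContDiff ℝ ∞ V) (hc : HasCompactSupport V)
    (hs : tsupport V ⊆ ball 0 4) (hG : ContDiffOn ℝ ∞ G (ball 0 4)) :
    ∫ w, (d1 V w * conj (d1 G w)).im = 0 := by
  have h1 : ContDiffOn ℝ ∞ (fderiv ℝ G) (ball 0 4) := hG.fderiv_of_isOpen isOpen_ball (by simp)
  have h2 : ∀ v, ContDiffOn ℝ ∞ (fun w => fderiv ℝ G w v) (ball 0 4) := fun v =>
    h1.clm_apply contDiffOn_const
  have h3 : ∀ u v, ContinuousOn (fun w => fderiv ℝ (fun z => fderiv ℝ G z v) w u) (ball 0 4) :=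
    fun u v => ((h2 v).continuousOn_fderiv_of_isOpen isOpen_ball (by simp)).clm_apply
      continuousOn_const
  have i1 : ∀ u v, Integrable fun w => fderiv ℝ V w u * fderiv ℝ G w v := fun u v =>
    intg hc (cont_fd hV u) (supp_fd V u) ((h2 v).continuousOn.mono hs)
  have p : ∀ u v, ∫ w, V w * fderiv ℝ (fun z => fderiv ℝ G z v) w u =
      -∫ w, fderiv ℝ V w u * fderiv ℝ G w v := fun u v =>
    integral_mul_fderiv_eq_neg_fderiv_mul_of_integrable (i1 u v)
      (intg hc hV.continuous (subset_tsupport _) ((h3 u v).mono hs))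
      (intg hc hV.continuous (subset_tsupport _) ((h2 v).continuousOn.mono hs))
      (fun x _ => hV.differentiable (by simp) x)
      (fun x hx => ((h2 v).contDiffAt (isOpen_ball.mem_nhds (hs hx))).differentiableAt (by simp))
  have q : ∀ w, V w * fderiv ℝ (fun z => fderiv ℝ G z Complex.I) w 1 =
      V w * fderiv ℝ (fun z => fderiv ℝ G z 1) w Complex.I := by
    intro w
    by_cases hw : V w = 0
    · rw [hw, zero_mul, zero_mul]
    have hb := isOpen_ball.mem_nhds (hs (subset_tsupport _ hw))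
    have hd := ((h1.contDiffAt hb).differentiableAt (by simp)).hasFDerivAt
    have e : ∀ v u, fderiv ℝ (fun z => fderiv ℝ G z v) w u = fderiv ℝ (fderiv ℝ G) w u v := by
      intro v u
      rw [(hd.clm_apply (hasFDerivAt_const v w)).fderiv]
      simp
    rw [e, e, (((hG.contDiffAt hb).of_le (m := 2) (WithTop.coe_le_coe.2 le_top)).isSymmSndFDerivAt
      (by simp)).eq]
  have r : ∀ w, (d1 V w * conj (d1 G w)).im =
      (fderiv ℝ V w 1 * fderiv ℝ G w Complex.I - fderiv ℝ V w Complex.I * fderiv ℝ G w 1) / 4 := by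
    intro w
    simp [d1, Complex.div_re, Complex.div_im, Complex.normSq_apply]
    ring
  simp only [r]
  have s1 := p 1 Complex.I
  have s2 := p Complex.I 1
  simp only [q] at s1
  rw [integral_div, integral_sub (i1 _ _) (i1 _ _)]
  linarith

theorem cont_d1 {V : ℂ → ℝ} (hV : ContDiff ℝ ∞ V) : Continuous (d1 V) :=
  ((Complex.continuous_ofReal.comp (cont_fd hV 1)).sub
    (continuous_const.mul (Complex.continuous_ofReal.comp (cont_fd hV _)))).div_const 2

theorem supp_d1 (V : ℂ → ℝ) : Function.support (d1 V) ⊆ tsupport V := fun w hw => by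
  by_contra h
  have h0 : fderiv ℝ V w = 0 := by
    by_contra h1
    exact h (support_fderiv_subset ℝ h1)
  exact hw (by simp [d1, h0])

/-- holomorphic functions are orthogonal to the derivative -/
theorem hol {V : ℂ → ℝ} (hV : ContDiff ℝ ∞ V) (hc : HasCompactSupport V) {U : Set ℂ}
    (hU : IsOpen U) (hs : tsupport V ⊆ U) {f : ℂ → ℂ} (hf : DifferentiableOn ℂ f U) :
    Integrable (fun w => d1 V w * conj (f w)) ∧ ∫ w, d1 V w * conj (f w) = 0 := by
  have c0 : ContinuousOn (fun w => conj (f w)) (tsupport V) :=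
    Complex.continuous_conj.comp_continuousOn (hf.continuousOn.mono hs)
  refine ⟨intg hc (cont_d1 hV) (supp_d1 V) c0, ?_⟩
  have hd : ∀ w ∈ U, HasFDerivAt (fun z => conj (f z))
      (Complex.conjCLE.toContinuousLinearMap.comp
        ((ContinuousLinearMap.toSpanSingleton ℂ (deriv f w)).restrictScalars ℝ)) w := fun w hw =>
    Complex.conjCLE.toContinuousLinearMap.hasFDerivAt.comp w
      ((hf.differentiableAt (hU.mem_nhds hw)).hasDerivAt.hasFDerivAt.restrictScalars ℝ)
  have e1 : ∀ v, ∀ w ∈ U, fderiv ℝ (fun z => conj (f z)) w v = conj v * conj (deriv f w) := by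
    intro v w hw
    rw [(hd w hw).fderiv]
    simp
  have e2 : ∀ v w, fderiv ℝ (fun z => (V z : ℂ)) w v = (fderiv ℝ V w v : ℝ) := by
    intro v w
    have := Complex.ofRealCLM.hasFDerivAt.comp w (hV.differentiable (by simp) w).hasFDerivAt
    have e : (fun z => (V z : ℂ)) = Complex.ofRealCLM ∘ V := rfl
    rw [e, this.fderiv]
    simp
  have cV : Continuous fun z => (V z : ℂ) := Complex.continuous_ofReal.comp hV.continuous
  have sV : Function.support (fun z => (V z : ℂ)) ⊆ tsupport V := fun w hw =>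
    subset_tsupport _ fun h => hw (by simp [h])
  have c1 : ContinuousOn (fun w => conj (deriv f w)) (tsupport V) :=
    Complex.continuous_conj.comp_continuousOn ((hf.deriv hU).continuousOn.mono hs)
  have i1 : ∀ v, Integrable fun w => ((fderiv ℝ V w v : ℝ) : ℂ) * conj (f w) := fun v =>
    intg hc (Complex.continuous_ofReal.comp (cont_fd hV v))
      (fun w hw => supp_fd V v fun h => hw (by simp only [h, Complex.ofReal_zero])) c0
  have p : ∀ v, conj v * ∫ w, (V w : ℂ) * conj (deriv f w) =
      -∫ w, ((fderiv ℝ V w v : ℝ) : ℂ) * conj (f w) := by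
    intro v
    have k : ∀ w, (V w : ℂ) * fderiv ℝ (fun z => conj (f z)) w v =
        conj v * ((V w : ℂ) * conj (deriv f w)) := by
      intro w
      by_cases hw : V w = 0
      · simp [hw]
      · rw [e1 v w (hs (subset_tsupport _ hw))]; ring
    have := integral_mul_fderiv_eq_neg_fderiv_mul_of_integrable (μ := volume)
      (f := fun z => (V z : ℂ)) (g := fun z => conj (f z)) (v := v)
      (by simpa only [e2] using i1 v)
      (by simpa only [k] using (intg hc cV sV c1).const_mul _)
      (intg hc cV sV c0)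
      (fun x _ => Complex.ofRealCLM.differentiableAt.comp x (hV.differentiable (by simp) x))
      (fun x hx => (hd x (hs (closure_minimal sV isClosed_closure hx))).differentiableAt)
    simp only [k, e2] at this
    rwa [integral_const_mul] at this
  have r : ∀ w, d1 V w * conj (f w) = (((fderiv ℝ V w 1 : ℝ) : ℂ) * conj (f w) -
      Complex.I * (((fderiv ℝ V w Complex.I : ℝ) : ℂ) * conj (f w))) / 2 := by
    intro w
    simp only [d1]
    ring
  simp only [r]
  rw [integral_div, integral_sub (i1 _) ((i1 _).const_mul _), integral_const_mul]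
  have s1 := p 1
  have s2 := p Complex.I
  rw [map_one, one_mul] at s1
  rw [Complex.conj_I] at s2
  have hI := Complex.I_mul_I
  linear_combination (1 / 2) * s1 - (Complex.I / 2) * s2 -
    (1 / 2) * (∫ w, (V w : ℂ) * conj (deriv f w)) * hI

/-- the argument of the bump function -/
def qq (p : ℂ) (a : ℝ) (w : ℂ) : ℝ := 2 - ((w - p).re ^ 2 + (w - p).im ^ 2) / a

theorem qq_eq (p : ℂ) (a : ℝ) (w : ℂ) : qq p a w = 2 - ‖w - p‖ ^ 2 / a := by
  rw [qq, Complex.sq_norm, Complex.normSq_apply]; ring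

theorem qq_sm (p : ℂ) (a : ℝ) : ContDiff ℝ ∞ (qq p a) := by
  have h : ContDiff ℝ ∞ fun w : ℂ => w - p := contDiff_id.sub contDiff_const
  exact contDiff_const.sub ((((Complex.reCLM.contDiff.comp h).pow 2).add
    ((Complex.imCLM.contDiff.comp h).pow 2)).div_const a)

theorem d1_bump (p : ℂ) (a : ℝ) (w : ℂ) : d1 (fun z => Real.smoothTransition (qq p a z)) w =
    -((deriv Real.smoothTransition (qq p a w) / a : ℝ) : ℂ) * conj (w - p) := by
  have h : HasFDerivAt (fun w : ℂ => w - p) (ContinuousLinearMap.id ℝ ℂ) w :=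
    (hasFDerivAt_id w).sub_const p
  have h1 := (((Complex.reCLM.hasFDerivAt.comp w h).pow 2).add
    ((Complex.imCLM.hasFDerivAt.comp w h).pow 2)).mul_const a⁻¹
  have h2 := (h1.const_sub 2).congr_of_eventuallyEq (f₁ := qq p a)
    (Eventually.of_forall fun z => by simp [qq, div_eq_mul_inv])
  have h3 := ((Real.smoothTransition.contDiff (n := 1)).differentiable (by simp)
    (qq p a w)).hasDerivAt.comp_hasFDerivAt w h2
  have e : (fun z => Real.smoothTransition (qq p a z)) = Real.smoothTransition ∘ qq p a := rfl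
  rw [d1, e, h3.fderiv, div_eq_mul_inv _ a]
  generalize a⁻¹ = b
  apply Complex.ext <;> simp <;> ring

theorem deriv_st {t : ℝ} (ht : t < 0) : deriv Real.smoothTransition t = 0 := by
  have : Real.smoothTransition =ᶠ[𝓝 t] fun _ => 0 :=
    (gt_mem_nhds ht).mono fun s hs => Real.smoothTransition.zero_of_nonpos hs.le
  rw [this.deriv_eq, deriv_const]

/-- a bump function at a zero -/
theorem bump {h : ℂ → ℂ} {p : ℂ} (ha : AnalyticAt ℂ h p) (h0 : h p = 0)
    (hn : ¬∀ᶠ z in 𝓝 p, h z = 0) {U : Set ℂ} (hU : U ∈ 𝓝 p) :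
    ∃ B : ℂ → ℝ, ContDiff ℝ ∞ B ∧ HasCompactSupport B ∧ tsupport B ⊆ U ∧
      (∀ᶠ w in 𝓝 p, B w = 1) ∧ (∀ w ∈ tsupport B, h w = 0 → w = p) ∧
      Integrable (fun w => d1 B w * conj (deriv h w / h w)) ∧
      (∫ w, d1 B w * conj (deriv h w / h w)).re < 0 := by
  obtain ⟨n, u, hu, hu0, hh⟩ := ha.exists_eventuallyEq_pow_smul_nonzero_iff.2 hn
  have hn0 : n ≠ 0 := by
    rintro rfl
    exact hu0 (by simpa [h0] using hh.self_of_nhds.symm)
  obtain ⟨r, hr, hb⟩ := Metric.eventually_nhds_iff_ball.1 (hh.and (hu.eventually_analyticAt.and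
    ((hu.continuousAt.eventually_ne hu0).and hU)))
  set a : ℝ := (r / 2) ^ 2 / 2 with haa
  have a0 : 0 < a := by positivity
  have hq : ∀ w, w ∉ closedBall p (r / 2) → qq p a w < 0 := by
    intro w hw
    rw [mem_closedBall, dist_eq_norm, not_le] at hw
    rw [qq_eq, sub_neg, lt_div_iff₀ a0, haa]
    nlinarith
  have hsub : closedBall p (r / 2) ⊆ ball p r := closedBall_subset_ball (by linarith)
  set B : ℂ → ℝ := fun z => Real.smoothTransition (qq p a z) with hB
  have hBs : ContDiff ℝ ∞ B := Real.smoothTransition.contDiff.comp (qq_sm p a)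
  have hT : tsupport B ⊆ closedBall p (r / 2) := closure_minimal (fun w hw => by
    by_contra h1
    exact hw (Real.smoothTransition.zero_of_nonpos (hq w h1).le)) isClosed_closedBall
  have hC : HasCompactSupport B := (isCompact_closedBall p _).of_isClosed_subset
    (isClosed_tsupport _) hT
  set ψ : ℂ → ℝ := fun w => deriv Real.smoothTransition (qq p a w) / a with hψ
  have ψc : Continuous ψ := (((Real.smoothTransition.contDiff (n := 1)).continuous_deriv
    (by simp)).comp (qq_sm p a).continuous).div_const a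
  have ψ0 : ∀ w, w ∉ closedBall p (r / 2) → ψ w = 0 := fun w hw => by
    simp only [hψ, deriv_st (hq w hw), zero_div]
  have ψs : HasCompactSupport ψ := HasCompactSupport.intro (isCompact_closedBall p _) ψ0
  have ψp : 0 < ∫ w, ψ w := by
    obtain ⟨t, ht, h1⟩ := exists_deriv_eq_slope Real.smoothTransition zero_lt_one
      Real.smoothTransition.continuous.continuousOn
      ((Real.smoothTransition.contDiff (n := 1)).differentiable (by simp)).differentiableOn
    have e : qq p a (p + (√(a * (2 - t)) : ℝ)) = t := by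
      rw [qq_eq, add_sub_cancel_left, Complex.norm_real, Real.norm_eq_abs, sq_abs,
        Real.sq_sqrt (mul_nonneg a0.le (by linarith [ht.2]))]
      field_simp
      ring
    refine ψc.integral_pos_of_hasCompactSupport_nonneg_nonzero ψs
      (fun w => div_nonneg Real.smoothTransition.monotone.deriv_nonneg a0.le)
      (x := p + (√(a * (2 - t)) : ℝ)) ?_
    simp only [hψ, e, h1]
    simp [a0.ne']
  have hf : DifferentiableOn ℂ (fun w => deriv u w / u w) (ball p r) := fun w hw =>
    ((hb w hw).2.1.deriv.differentiableAt.div (hb w hw).2.1.differentiableAt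
      (hb w hw).2.2.1).differentiableWithinAt
  obtain ⟨i1, i2⟩ := hol hBs hC isOpen_ball (hT.trans hsub) hf
  have iψ : Integrable fun w => -(n : ℂ) * (ψ w : ℂ) :=
    ((ψc.integrable_of_hasCompactSupport ψs).ofReal).const_mul _
  have key : (fun w => d1 B w * conj (deriv h w / h w)) =ᵐ[volume] fun w =>
      -(n : ℂ) * (ψ w : ℂ) + d1 B w * conj (deriv u w / u w) := by
    have : ∀ᵐ w : ℂ, w ≠ p := by
      rw [ae_iff]; simp
    filter_upwards [this] with w hw
    have hd : d1 B w = -(ψ w : ℂ) * conj (w - p) := d1_bump p a w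
    by_cases hw2 : w ∈ closedBall p (r / 2)
    · have hw3 := hsub hw2
      have e : h =ᶠ[𝓝 w] fun z => (z - p) ^ n * u z :=
        (isOpen_ball.eventually_mem hw3).mono fun z hz => (hb z hz).1
      have hd2 : HasDerivAt (fun z => (z - p) ^ n * u z)
          ((n : ℂ) * (w - p) ^ (n - 1) * 1 * u w + (w - p) ^ n * deriv u w) w :=
        (((hasDerivAt_id w).sub_const p).pow n).mul (hb w hw3).2.1.differentiableAt.hasDerivAt
      have w0 : w - p ≠ 0 := sub_ne_zero.2 hw
      have u0 : u w ≠ 0 := (hb w hw3).2.2.1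
      have e2 : deriv h w / h w = n / (w - p) + deriv u w / u w := by
        rw [e.deriv_eq, hd2.deriv, e.self_of_nhds]
        obtain ⟨m, rfl⟩ := Nat.exists_eq_succ_of_ne_zero hn0
        simp only [Nat.succ_sub_one, pow_succ]
        field_simp
      have w1 : conj (w - p) ≠ 0 := (map_ne_zero _).2 w0
      rw [e2, map_add, mul_add, map_div₀, map_natCast]
      congr 1
      rw [hd]
      field_simp
    · rw [hd, ψ0 w hw2]
      simp
  refine ⟨B, hBs, hC, fun w hw => (hb w (hsub (hT hw))).2.2.2, ?_, fun w hw h1 => ?_,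
    (iψ.add i1).congr key.symm, ?_⟩
  · have : ∀ᶠ w in 𝓝 p, 1 < qq p a w :=
      (qq_sm p a).continuous.continuousAt.eventually (lt_mem_nhds (by simp [qq]))
    exact this.mono fun w hw => Real.smoothTransition.one_of_one_le hw.le
  · have h2 := hb w (hsub (hT hw))
    rw [h2.1, smul_eq_mul, mul_eq_zero] at h1
    exact sub_eq_zero.1 (pow_eq_zero_iff hn0 |>.1 (h1.resolve_right h2.2.2.1))
  · rw [integral_congr_ae key, integral_add iψ i1, i2, add_zero, integral_const_mul,
      integral_complex_ofReal]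
    have : (0 : ℝ) < n := Nat.cast_pos.2 (Nat.pos_of_ne_zero hn0)
    simp only [neg_mul, Complex.neg_re, Complex.mul_re,
      Complex.natCast_re, Complex.ofReal_re, Complex.natCast_im, Complex.ofReal_im, mul_zero,
      sub_zero, Left.neg_neg_iff]
    positivity

theorem d1_add {W B : ℂ → ℝ} (hW : ContDiff ℝ ∞ W) (hB : ContDiff ℝ ∞ B) (c : ℝ) (w : ℂ) :
    d1 (fun z => W z + c * B z) w = d1 W w + c * d1 B w := by
  have := (hW.differentiable (by simp) w).hasFDerivAt.add
    ((hB.differentiable (by simp) w).hasFDerivAt.const_mul c)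
  have e : (fun z => W z + c * B z) = W + fun z => c * B z := rfl
  simp only [d1]
  rw [e, this.fderiv]
  simp
  ring

theorem main {h : ℂ → ℂ} (hh : DifferentiableOn ℂ h (ball 0 4))
    (hn : ∀ p ∈ ball (0 : ℂ) 4, ¬∀ᶠ z in 𝓝 p, h z = 0) (s : Finset ℂ) :
    ∀ V : ℂ → ℝ, ContDiff ℝ ∞ V → HasCompactSupport V → tsupport V ⊆ ball 0 4 →
      (∀ p ∈ ball (0 : ℂ) 4, h p = 0 → 0 ≤ V p ∧ (V p ≠ 0 → p ∈ s) ∧ ∀ᶠ w in 𝓝 p, V w = V p) →
      Integrable (fun w => d1 V w * conj (deriv h w / h w)) ∧
      (∫ w, d1 V w * conj (deriv h w / h w)).re ≤ 0 ∧ ∀ p ∈ ball (0 : ℂ) 4, h p = 0 → 0 < V p →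
        (∫ w, d1 V w * conj (deriv h w / h w)).re < 0 := by
  classical
  induction s using Finset.induction_on with
  | empty =>
    intro V hV hc hs hz
    have h0 : ∀ p ∈ ball (0 : ℂ) 4, h p = 0 → V p = 0 := fun p hp h1 => by
      by_contra h2
      simpa using (hz p hp h1).2.1 h2
    have hU : IsOpen (ball (0 : ℂ) 4 ∩ h ⁻¹' {0}ᶜ) :=
      hh.continuousOn.isOpen_inter_preimage isOpen_ball isOpen_compl_singleton
    have hsub : tsupport V ⊆ ball (0 : ℂ) 4 ∩ h ⁻¹' {0}ᶜ := fun w hw => ⟨hs hw, fun h1 => by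
      have h2 := (hz w (hs hw) h1).2.2
      rw [h0 w (hs hw) h1] at h2
      exact notMem_tsupport_iff_eventuallyEq.2 h2 hw⟩
    obtain ⟨i1, i2⟩ := hol hV hc hU hsub (f := fun w => deriv h w / h w)
      (((hh.deriv isOpen_ball).mono inter_subset_left).div (hh.mono inter_subset_left)
        fun w hw => hw.2)
    exact ⟨i1, by rw [i2]; simp, fun p hp h1 h2 => absurd (h0 p hp h1) h2.ne'⟩
  | insert p s _ ih =>
    intro V hV hc hs hz
    by_cases hp : p ∈ ball (0 : ℂ) 4 ∧ h p = 0
    swap
    · refine ih V hV hc hs fun q hq h1 => ⟨(hz q hq h1).1, fun h2 => ?_, (hz q hq h1).2.2⟩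
      refine (Finset.mem_insert.1 ((hz q hq h1).2.1 h2)).resolve_left ?_
      rintro rfl
      exact hp ⟨hq, h1⟩
    obtain ⟨B, b1, b2, b3, b4, b5, b6, b7⟩ := bump (hh.analyticAt (isOpen_ball.mem_nhds hp.1))
      hp.2 (hn p hp.1) (isOpen_ball.mem_nhds hp.1)
    have hB : ∀ q, h q = 0 → q ≠ p → ∀ᶠ w in 𝓝 q, B w = 0 := fun q h1 h2 =>
      notMem_tsupport_iff_eventuallyEq.1 fun h3 => h2 (b5 q h3 h1)
    set W : ℂ → ℝ := fun z => V z - V p * B z with hW
    have hWs : ContDiff ℝ ∞ W := hV.sub (contDiff_const.mul b1)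
    have hT : tsupport W ⊆ tsupport V ∪ tsupport B := closure_minimal (fun w hw => by
      by_contra h1
      rw [mem_union, not_or] at h1
      exact hw (by simp [hW, image_eq_zero_of_notMem_tsupport h1.1,
        image_eq_zero_of_notMem_tsupport h1.2])) ((isClosed_tsupport _).union (isClosed_tsupport _))
    obtain ⟨i1, i2, i3⟩ := ih W hWs ((hc.union b2).of_isClosed_subset (isClosed_tsupport _) hT)
      (hT.trans (union_subset hs b3)) fun q hq h1 => by
        by_cases h2 : q = p
        · subst h2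
          have e : W q = 0 := by simp [hW, b4.self_of_nhds]
          refine ⟨e.ge, fun h3 => absurd e h3, ?_⟩
          filter_upwards [b4, (hz q hq h1).2.2] with w k1 k2
          rw [e]
          simp [hW, k1, k2]
        · have e : W q = V q := by simp [hW, (hB q h1 h2).self_of_nhds]
          refine ⟨e ▸ (hz q hq h1).1, fun h3 => (Finset.mem_insert.1 ((hz q hq h1).2.1
            (e ▸ h3))).resolve_left h2, ?_⟩
          filter_upwards [hB q h1 h2, (hz q hq h1).2.2] with w k1 k2
          rw [e]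
          simp [hW, k1, k2]
    have e : (fun w => d1 V w * conj (deriv h w / h w)) = fun w =>
        d1 W w * conj (deriv h w / h w) + (V p : ℂ) * (d1 B w * conj (deriv h w / h w)) := by
      funext w
      have : V = fun z => W z + V p * B z := funext fun z => by simp [hW]
      rw [← mul_assoc, ← add_mul, ← d1_add hWs b1, ← this]
    have v0 := (hz p hp.1 hp.2).1
    rw [e, integral_add i1 (b6.const_mul _), integral_const_mul, Complex.add_re,
      Complex.re_ofReal_mul]
    refine ⟨i1.add (b6.const_mul _), by nlinarith, fun q hq h1 h2 => ?_⟩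
    by_cases h3 : q = p
    · subst h3
      nlinarith
    · have e : W q = V q := by simp [hW, (hB q h1 h3).self_of_nhds]
      have := i3 q hq h1 (e ▸ h2)
      nlinarith

end PDegF

theorem degF : DegF := by
  refine ⟨PDegF.sm, fun V h hV hc hs h0 hh ⟨w₀, hw₀, hne⟩ hz => ?_⟩
  have ha := hh.analyticOnNhd isOpen_ball
  have hn : ∀ p ∈ ball (0 : ℂ) 4, ¬∀ᶠ z in 𝓝 p, h z = 0 := fun p hp h1 =>
    hne (ha.eqOn_zero_of_preconnected_of_eventuallyEq_zero (convex_ball _ _).isPreconnected hp h1
      hw₀)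
  obtain ⟨t, -, ht⟩ := hc.isCompact.elim_nhds_subcover (fun p => {z | z ≠ p → h z ≠ 0})
    fun p hp => eventually_nhdsWithin_iff.1
      ((ha p (hs hp)).eventually_eq_zero_or_eventually_ne_zero.resolve_left (hn p (hs hp)))
  obtain ⟨i1, i2, i3⟩ := PDegF.main hh hn t V hV hc hs fun p hp h1 => ⟨h0 p, fun h2 => by
    obtain ⟨q, hq, h3⟩ := mem_iUnion₂.1 (ht (subset_tsupport _ h2))
    have : p = q := by
      by_contra h4
      exact h3 h4 h1
    exact this ▸ hq, hz p hp h1⟩
  have e : ∫ w, (d1 V w * conj (deriv h w / h w)).re =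
      (∫ w, d1 V w * conj (deriv h w / h w)).re := Complex.reCLM.integral_comp_comm i1
  rw [e]
  exact ⟨i2, i3⟩

end Pool.Agent.Lib.MP_356dfe_ag.S
end
end
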