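import Pool.Agent.Lib.MP_356dfe_ag.S.Basic

-- part Pool.Agent.Lib.MP_356dfe_ag.S.PSt1
section

/-! Stokes formula of first order and a priori estimates. -/

set_option autoImplicit false

open Set Filter Topology Metric MeasureTheory
open scoped ContDiff ComplexConjugate Matrix Pointwise

noncomputable section

namespace Pool.Agent.Lib.MP_356dfe_ag.S

namespace PSt1

variable {f g : E2 → ℂ} {x : E2}

theorem dh_congr (h : f =ᶠ[𝓝 x] g) (j : Fin 2) : dh f x j = dh g x j := by
  rw [dh, dh, h.fderiv_eq]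

theorem dh_zero (j : Fin 2) : dh (fun _ => 0) x j = 0 := by simp [dh]

theorem dh_sub (hf : DifferentiableAt ℝ f x) (hg : DifferentiableAt ℝ g x) (j : Fin 2) :
    dh (fun y => f y - g y) x j = dh f x j - dh g x j := by
  simp only [dh, fderiv_fun_sub hf hg, _root_.sub_apply]; ring

theorem dh_mul (hf : DifferentiableAt ℝ f x) (hg : DifferentiableAt ℝ g x) (j : Fin 2) :
    dh (fun y => f y * g y) x j = f x * dh g x j + g x * dh f x j := by
  simp only [dh, fderiv_fun_mul hf hg, _root_.add_apply, _root_.smul_apply, smul_eq_mul]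
  ring

theorem fderiv_conj (f : E2 → ℂ) (x v : E2) :
    fderiv ℝ (fun y => conj (f y)) x v = conj (fderiv ℝ f x v) :=
  congrArg (· v) (Complex.conjCLE.comp_fderiv (f := f) (x := x))

theorem dh_conj (f : E2 → ℂ) (x : E2) (j : Fin 2) :
    dh (fun y => conj (f y)) x j = conj (db f x j) := by
  simp only [dh, db, fderiv_conj, map_div₀, map_add, map_mul, Complex.conj_I, map_ofNat]; ring

theorem int_fderiv (hf : ContDiff ℝ 1 f) (hs : HasCompactSupport f) (v : E2) :
    Integrable fun x => fderiv ℝ f x v :=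
  ((hf.continuous_fderiv one_ne_zero).clm_apply continuous_const).integrable_of_hasCompactSupport
    (hs.fderiv_apply ℝ v)

theorem integral_fderiv (hf : ContDiff ℝ 1 f) (hs : HasCompactSupport f) (v : E2) :
    ∫ x, fderiv ℝ f x v = 0 := by
  have h := integral_mul_fderiv_eq_neg_fderiv_mul_of_integrable (μ := (volume : Measure E2))
    (f := fun _ => (1 : ℂ)) (g := f) (v := v) (by simp) (by simpa using int_fderiv hf hs v)
    (by simpa using hf.continuous.integrable_of_hasCompactSupport hs)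
    (fun _ _ => differentiableAt_const _) fun y _ => hf.differentiable one_ne_zero y
  simpa using h

theorem int_dh (hf : ContDiff ℝ 1 f) (hs : HasCompactSupport f) (j : Fin 2) :
    Integrable fun x => dh f x j :=
  ((int_fderiv hf hs _).sub ((int_fderiv hf hs _).const_mul _)).div_const 2

theorem integral_dh (hf : ContDiff ℝ 1 f) (hs : HasCompactSupport f) (j : Fin 2) :
    ∫ x, dh f x j = 0 := by
  simp only [dh]
  rw [integral_div, integral_sub (int_fderiv hf hs _) ((int_fderiv hf hs _).const_mul _),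
    integral_const_mul, integral_fderiv hf hs, integral_fderiv hf hs]
  simp

variable {U : E2 → ℝ} {O : Set E2}

theorem cut_zero (h : x ∉ tsupport U) (f : E2 → ℂ) :
    (fun y => (U y : ℂ) * f y) =ᶠ[𝓝 x] fun _ => 0 :=
  (notMem_tsupport_iff_eventuallyEq.1 h).mono fun y hy => by simp [hy]

theorem c_real {n : WithTop ℕ∞} (hu : ContDiffAt ℝ n U x) :
    ContDiffAt ℝ n (fun y => (U y : ℂ)) x :=
  Complex.ofRealCLM.contDiff.contDiffAt.comp x hu

theorem cut_sm (hU : CS U) (hO : IsOpen O) (hs : tsupport U ⊆ O) (hf : ContDiffOn ℝ ∞ f O) :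
    ContDiff ℝ 1 fun y => (U y : ℂ) * f y := by
  refine ContDiff.of_le (n := ∞) (contDiff_iff_contDiffAt.2 fun x => ?_) (by simp)
  by_cases h : x ∈ tsupport U
  · exact (c_real hU.1.contDiffAt).mul (hf.contDiffAt (hO.mem_nhds (hs h)))
  · exact contDiffAt_const.congr_of_eventuallyEq (cut_zero h f)

theorem cut_cs (hU : CS U) (f : E2 → ℂ) : HasCompactSupport fun y => (U y : ℂ) * f y :=
  HasCompactSupport.intro hU.2 fun _ h => (cut_zero h f).eq_of_nhds

theorem du_zero (h : x ∉ tsupport U) : du U x = 0 := funext fun j =>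
  (dh_congr ((notMem_tsupport_iff_eventuallyEq.1 h).mono fun y hy => by simp [hy]) j).trans
    (dh_zero j)

theorem du_const {c : ℝ} (h : U =ᶠ[𝓝 x] fun _ => c) : du U x = 0 := funext fun j =>
  (dh_congr (g := fun _ => (c : ℂ)) (h.mono fun y hy => by simp [hy]) j).trans (by simp [dh])

theorem lev_zero (h : x ∉ tsupport U) : lev U x = 0 := by
  have h1 : ∀ᶠ y in 𝓝 x, du U y = 0 :=
    ((isClosed_tsupport U).isOpen_compl.eventually_mem h).mono fun y hy => du_zero hy
  ext j k
  have h2 : (fun y => du U y j) =ᶠ[𝓝 x] fun _ => 0 := h1.mono fun y hy => by simp [hy]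
  simp [lev, dba, db, h2.fderiv_eq]

theorem sm_conj {b : E2 → E2} (hb : ContDiffOn ℝ ∞ b O) (k : Fin 2) :
    ContDiffOn ℝ ∞ (fun y => conj (b y k)) O :=
  Complex.conjCLE.contDiff.comp_contDiffOn (contDiffOn_pi.1 hb k)

theorem st1' : St1 := by
  intro U T b O hU hO hs hT h2 hb hh
  have s0 : ContDiffOn ℝ ∞ (fun y => T y 1 1 * conj (b y 0) - T y 1 0 * conj (b y 1)) O :=
    ((hT 1 1).mul (sm_conj hb 0)).sub ((hT 1 0).mul (sm_conj hb 1))
  have s1 : ContDiffOn ℝ ∞ (fun y => T y 0 0 * conj (b y 1) - T y 0 1 * conj (b y 0)) O :=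
    ((hT 0 0).mul (sm_conj hb 1)).sub ((hT 0 1).mul (sm_conj hb 0))
  have key : ∀ x, md (T x) (ot (du U x) (b x)) + U x * md (T x) (dba b x) = Complex.reCLM
      (dh (fun y => (U y : ℂ) * (T y 1 1 * conj (b y 0) - T y 1 0 * conj (b y 1))) x 0 +
      dh (fun y => (U y : ℂ) * (T y 0 0 * conj (b y 1) - T y 0 1 * conj (b y 0))) x 1) := by
    intro x
    by_cases h : x ∈ tsupport U
    · have hx := hO.mem_nhds (hs h)
      have dU : DifferentiableAt ℝ (fun y => (U y : ℂ)) x :=
        (c_real hU.1.contDiffAt).differentiableAt (by simp)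
      have dT : ∀ j k, DifferentiableAt ℝ (fun y => T y j k) x := fun j k =>
        ((hT j k).contDiffAt hx).differentiableAt (by simp)
      have dB : ∀ k, DifferentiableAt ℝ (fun y => conj (b y k)) x := fun k =>
        ((sm_conj hb k).contDiffAt hx).differentiableAt (by simp)
      have eB : ∀ j k, dh (fun y => conj (b y k)) x j = dba b x j k := fun j k => by
        rw [dh_conj]; exact (hh x (hs h)).apply j k
      rw [dh_mul dU ((s0.contDiffAt hx).differentiableAt (by simp)),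
        dh_mul dU ((s1.contDiffAt hx).differentiableAt (by simp)),
        dh_sub ((dT _ _).fun_mul (dB _)) ((dT _ _).fun_mul (dB _)),
        dh_sub ((dT _ _).fun_mul (dB _)) ((dT _ _).fun_mul (dB _)),
        dh_mul (dT _ _) (dB _), dh_mul (dT _ _) (dB _), dh_mul (dT _ _) (dB _),
        dh_mul (dT _ _) (dB _), eB, eB, eB, eB, h2 x (hs h) 0, h2 x (hs h) 1, md, md,
        ← Complex.re_ofReal_mul, ← Complex.add_re, Complex.reCLM_apply]
      congr 1
      simp only [ot, du, Matrix.of_apply]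
      ring
    · rw [dh_congr (cut_zero h _), dh_congr (cut_zero h _), dh_zero, dh_zero, du_zero h, zero_ot,
        md_zero, image_eq_zero_of_notMem_tsupport h]
      simp
  have i0 := int_dh (cut_sm hU hO hs s0) (cut_cs hU _) 0
  have i1 := int_dh (cut_sm hU hO hs s1) (cut_cs hU _) 1
  simp only [key]
  refine (Complex.reCLM.integral_comp_comm (i0.add i1)).trans ?_
  simp only [Pi.add_apply]
  rw [integral_add i0 i1,
    integral_dh (cut_sm hU hO hs s0) (cut_cs hU _), integral_dh (cut_sm hU hO hs s1) (cut_cs hU _)]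
  simp

theorem two_le : (2 : WithTop ℕ∞) ≤ ∞ := WithTop.coe_le_coe.2 (le_top (a := (2 : ℕ∞)))

theorem cont_md {S T : E2 → M2} (hS : ∀ j k, Continuous fun x => S x j k)
    (hT : ∀ j k, Continuous fun x => T x j k) : Continuous fun x => md (S x) (T x) :=
  Complex.continuous_re.comp (((((hS 0 0).mul (hT 1 1)).add ((hS 1 1).mul (hT 0 0))).sub
    ((hS 0 1).mul (hT 1 0))).sub ((hS 1 0).mul (hT 0 1)))

theorem int_of {F : E2 → ℝ} (hU : CS U) (hF : Continuous F) (h : ∀ x ∉ tsupport U, F x = 0) :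
    Integrable F :=
  hF.integrable_of_hasCompactSupport (HasCompactSupport.intro hU.2 h)

end PSt1

open PSt1

theorem st1 (hc : Calc) : St1 := by
  have _ := hc
  exact st1'

theorem pe2 (ha : Alg) (hc : Calc) (h1 : St1) : PE2 := by
  intro g M u hg hM hu
  have sd : ContDiff ℝ ∞ (du u) :=
    contDiff_iff_contDiffAt.2 fun x => hc.sm_du u x hu.1.contDiffAt
  have sl : ∀ j k, ContDiff ℝ ∞ fun x => lev u x j k := fun j k =>
    contDiff_iff_contDiffAt.2 fun x => hc.sm_dba _ x sd.contDiffAt j k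
  have c1 : ∀ x, C1 (du u) x := fun x => hc.c1_du u x (hu.1.contDiffAt.of_le two_le)
  have c2 : ∀ x, C2 (lev u) x := fun x =>
    hc.c2_dba _ x (sd.contDiffAt.of_le two_le) (Eventually.of_forall c1)
  have ct : Continuous fun x => tr g (lev u x) :=
    (cont_md (S := fun _ => g) (fun _ _ => continuous_const) fun j k =>
      (sl j k).continuous).div_const _
  have cn : Continuous fun x => n1 g (du u x) (du u x) :=
    (cont_md (S := fun _ => g) (T := fun x => ot (du u x) (du u x)) (fun _ _ => continuous_const)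
      fun j k => ((continuous_apply j).comp sd.continuous).mul
        (Complex.continuous_conj.comp ((continuous_apply k).comp sd.continuous))).div_const _
  have cm : Continuous fun x => md (lev u x) (lev u x) :=
    cont_md (fun j k => (sl j k).continuous) fun j k => (sl j k).continuous
  have iA : Integrable fun x => u x ^ 2 := int_of hu (hu.1.continuous.pow 2) fun x h => by
    simp [image_eq_zero_of_notMem_tsupport h]
  have iB : Integrable fun x => n1 g (du u x) (du u x) := int_of hu cn fun x h => by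
    rw [du_zero h, n1_zero]
  have iC : Integrable fun x => tr g (lev u x) ^ 2 := int_of hu (ct.pow 2) fun x h => by
    simp [lev_zero h, tr_zero]
  have iD : Integrable fun x => u x * tr g (lev u x) := int_of hu (hu.1.continuous.mul ct)
    fun x h => by simp [lev_zero h, tr_zero]
  have iE : Integrable fun x => md (lev u x) (lev u x) := int_of hu cm fun x h => by
    rw [lev_zero h, md_zero]
  have eD : ∫ x, u x * tr g (lev u x) = -∫ x, n1 g (du u x) (du u x) := by
    have h := h1 u (fun _ => g) (du u) univ hu isOpen_univ (subset_univ _)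
      (fun _ _ => contDiffOn_const) (fun x _ k => by simp [dh]) sd.contDiffOn fun x _ => (c1 x).2
    have h' : ∫ x, (n1 g (du u x) (du u x) + u x * tr g (lev u x)) = 0 := by
      have e : ∀ x, n1 g (du u x) (du u x) + u x * tr g (lev u x) =
          (md g (ot (du u x) (du u x)) + u x * md g (dba (du u) x)) / dt g := fun x => by
        rw [n1, tr, lev, add_div, mul_div_assoc]
      simp only [e]
      rw [integral_div, h, zero_div]
    rw [integral_add iB iD] at h'
    linarith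
  have eE : ∫ x, md (lev u x) (lev u x) = 0 := by
    obtain ⟨R, hR0, hR⟩ := hu.2.isCompact.isBounded.subset_ball_lt 0 (0 : E2)
    let β : ContDiffBump (0 : E2) := ⟨R, R + 1, hR0, by linarith⟩
    have h := h1 β (lev u) (du u) univ ⟨β.contDiff, β.hasCompactSupport⟩ isOpen_univ
      (subset_univ _) (fun j k => (sl j k).contDiffOn) (fun x _ => c2 x) sd.contDiffOn
      fun x _ => (c1 x).2
    rw [← h]
    refine integral_congr_ae (Eventually.of_forall fun x => ?_)
    by_cases hx : x ∈ tsupport u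
    · have h3 := β.eventuallyEq_one_of_mem_ball (hR hx)
      simp only
      rw [du_const (c := 1) h3, zero_ot, md_zero, h3.eq_of_nhds]
      simp [lev]
    · simp only
      rw [lev_zero hx, zero_md, zero_md, zero_md]
      simp
  have eI : ∫ x, ip g (lev u x) (lev u x) = ∫ x, tr g (lev u x) ^ 2 := by
    simp only [ip, ← sq]
    rw [integral_sub iC (iE.div_const _), integral_div, eE]
    simp
  have eS : ∫ x, (M * u x - tr g (lev u x)) ^ 2 = M ^ 2 * (∫ x, u x ^ 2) +
      2 * M * (∫ x, n1 g (du u x) (du u x)) + ∫ x, tr g (lev u x) ^ 2 := by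
    have e : ∀ x, (M * u x - tr g (lev u x)) ^ 2 =
        M ^ 2 * u x ^ 2 - 2 * M * (u x * tr g (lev u x)) + tr g (lev u x) ^ 2 := fun x => by ring
    simp only [e]
    have i2 : Integrable fun x => M ^ 2 * u x ^ 2 - 2 * M * (u x * tr g (lev u x)) :=
      (iA.const_mul _).sub (iD.const_mul _)
    rw [integral_add i2 iC, integral_sub (iA.const_mul _) (iD.const_mul _), integral_const_mul, integral_const_mul, eD]
    ring
  have pA : 0 ≤ M ^ 2 * ∫ x, u x ^ 2 :=
    mul_nonneg (sq_nonneg _) (integral_nonneg fun x => sq_nonneg _)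
  have pB : 0 ≤ M * ∫ x, n1 g (du u x) (du u x) :=
    mul_nonneg hM.le (integral_nonneg fun x => ha.n1_nn g _ hg)
  have pC : 0 ≤ ∫ x, tr g (lev u x) ^ 2 := integral_nonneg fun x => sq_nonneg _
  rw [eI, eS]
  refine ⟨?_, ?_, ?_⟩ <;> linarith

end Pool.Agent.Lib.MP_356dfe_ag.S
end
end

-- part Pool.Agent.Lib.MP_356dfe_ag.S.PSt4
section

/-! Stokes formula for determinants. -/

set_option autoImplicit false

open Set Filter Topology Metric MeasureTheory
open scoped ContDiff ComplexConjugate Matrix Pointwise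

noncomputable section

namespace Pool.Agent.Lib.MP_356dfe_ag.S

namespace PSt4

/-- a minor of order three -/
def m3 (b c d : Fin 4 → ℝ) (i j k : Fin 4) : ℝ :=
  b i * (c j * d k - c k * d j) - b j * (c i * d k - c k * d i) + b k * (c i * d j - c j * d i)

theorem det4_exp (a b c d : Fin 4 → ℝ) : det4 [a, b, c, d] =
    a 0 * m3 b c d 1 2 3 - a 1 * m3 b c d 0 2 3 + a 2 * m3 b c d 0 1 3 - a 3 * m3 b c d 0 1 2 := by
  simp only [det4, m3, Matrix.det_succ_row_zero, Fin.sum_univ_succ]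
  simp [Fin.succAbove]
  ring

theorem der {V : E2 → ℝ} {B C D : E2 → Fin 4 → ℝ} {x : E2} {V' : E2 →L[ℝ] ℝ}
    {B' C' D' : Fin 4 → E2 →L[ℝ] ℝ} (hV : HasFDerivAt V V' x)
    (hB : ∀ i, HasFDerivAt (fun y => B y i) (B' i) x)
    (hC : ∀ i, HasFDerivAt (fun y => C y i) (C' i) x)
    (hD : ∀ i, HasFDerivAt (fun y => D y i) (D' i) x) (i j k : Fin 4) (v : E2) :
    fderiv ℝ (fun y => V y * m3 (B y) (C y) (D y) i j k) x v =
      V' v * m3 (B x) (C x) (D x) i j k + V x * (m3 (fun i => B' i v) (C x) (D x) i j k +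
        m3 (B x) (fun i => C' i v) (D x) i j k + m3 (B x) (C x) (fun i => D' i v) i j k) := by
  have m : ∀ j k, HasFDerivAt (fun y => C y j * D y k - C y k * D y j) _ x := fun j k =>
    ((hC j).fun_mul (hD k)).fun_sub ((hC k).fun_mul (hD j))
  have h := hV.fun_mul ((((hB i).fun_mul (m j k)).fun_sub ((hB j).fun_mul (m i k))).fun_add
    ((hB k).fun_mul (m i j)))
  simp only [m3]
  rw [h.fderiv]
  simp only [_root_.add_apply, _root_.sub_apply, _root_.smul_apply, smul_eq_mul]
  ring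

theorem int_zero {u : E2 → ℝ} (h : ContDiff ℝ 1 u) (hc : HasCompactSupport u) (v : E2) :
    Integrable (fun x => fderiv ℝ u x v) ∧ ∫ x, fderiv ℝ u x v = 0 := by
  have h1 : Integrable fun x => fderiv ℝ u x v :=
    ((h.continuous_fderiv one_ne_zero).clm_apply continuous_const).integrable_of_hasCompactSupport
      (hc.fderiv_apply ℝ v)
  refine ⟨h1, ?_⟩
  have := integral_mul_fderiv_eq_neg_fderiv_mul_of_integrable (μ := volume)
    (f := fun _ : E2 => (1 : ℝ)) (g := u) (v := v) (by simp) (by simpa using h1)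
    (by simpa using h.continuous.integrable_of_hasCompactSupport hc)
    (fun _ _ => differentiableAt_const _) fun x _ => h.differentiable one_ne_zero x
  simpa using this

theorem gr_sm {p : E2 → ℝ} {x : E2} (h : ContDiffAt ℝ ∞ p x) (i : Fin 4) :
    ContDiffAt ℝ 1 (fun y => gr p y i) x :=
  (h.fderiv_right (m := 1) (by norm_cast)).clm_apply contDiffAt_const

theorem gr_der {p : E2 → ℝ} {x : E2} (h : ContDiffAt ℝ ∞ p x) :
    ∃ P : Fin 4 → E2 →L[ℝ] ℝ, (∀ i, HasFDerivAt (fun y => gr p y i) (P i) x) ∧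
      ∀ i j, P i (bv j) = P j (bv i) :=
  ⟨fun i => (ContinuousLinearMap.apply ℝ ℝ (bv i)).comp (fderiv ℝ (fderiv ℝ p) x),
    fun i => (ContinuousLinearMap.apply ℝ ℝ (bv i)).hasFDerivAt.comp x
      ((h.fderiv_right (m := 1) (by norm_cast)).differentiableAt one_ne_zero).hasFDerivAt,
    fun i j => h.isSymmSndFDerivAt (by simp; norm_cast) _ _⟩

end PSt4

open PSt4 in
theorem st4 : St4 := by
  intro V L O hV hO hs hL
  by_cases hl : L.length = 3
  swap
  · rw [integral_congr_ae (g := fun _ => 0)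
      (Eventually.of_forall fun x => det4_len (by simpa using hl)), integral_zero]
  obtain ⟨b, c, d, rfl⟩ := List.length_eq_three.1 hl
  have hb : ∀ x ∈ tsupport V, ContDiffAt ℝ ∞ b x := fun x hx =>
    (hL b (by simp)).contDiffAt (hO.mem_nhds (hs hx))
  have hc : ∀ x ∈ tsupport V, ContDiffAt ℝ ∞ c x := fun x hx =>
    (hL c (by simp)).contDiffAt (hO.mem_nhds (hs hx))
  have hd : ∀ x ∈ tsupport V, ContDiffAt ℝ ∞ d x := fun x hx =>
    (hL d (by simp)).contDiffAt (hO.mem_nhds (hs hx))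
  let u : Fin 4 → Fin 4 → Fin 4 → E2 → ℝ := fun i j k y =>
    V y * m3 (gr b y) (gr c y) (gr d y) i j k
  have h0 : ∀ i j k, ∀ x ∉ tsupport V, u i j k =ᶠ[𝓝 x] fun _ => 0 := fun i j k x hx =>
    (notMem_tsupport_iff_eventuallyEq.1 hx).mono fun y hy => mul_eq_zero_of_left hy _
  have hu : ∀ i j k v, Integrable (fun x => fderiv ℝ (u i j k) x v) ∧
      ∫ x, fderiv ℝ (u i j k) x v = 0 := fun i j k => by
    refine int_zero (contDiff_iff_contDiffAt.2 fun x => ?_) hV.2.mul_right
    by_cases hx : x ∈ tsupport V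
    · have h1 := gr_sm (hb x hx)
      have h2 := gr_sm (hc x hx)
      have h3 := gr_sm (hd x hx)
      have m : ∀ j k, ContDiffAt ℝ 1 (fun y => gr c y j * gr d y k - gr c y k * gr d y j) x :=
        fun j k => ((h2 j).mul (h3 k)).sub ((h2 k).mul (h3 j))
      exact (hV.1.contDiffAt.of_le (by norm_cast)).mul
        ((((h1 i).mul (m j k)).sub ((h1 j).mul (m i k))).add ((h1 k).mul (m i j)))
    · exact contDiffAt_const.congr_of_eventuallyEq (h0 i j k x hx)
  have key : ∀ x, det4 ([V, b, c, d].map fun p => gr p x) =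
      fderiv ℝ (u 1 2 3) x (bv 0) - fderiv ℝ (u 0 2 3) x (bv 1) + fderiv ℝ (u 0 1 3) x (bv 2) -
        fderiv ℝ (u 0 1 2) x (bv 3) := by
    intro x
    simp only [List.map_cons, List.map_nil, det4_exp]
    by_cases hx : x ∈ tsupport V
    · obtain ⟨B, h1, s1⟩ := gr_der (hb x hx)
      obtain ⟨C, h2, s2⟩ := gr_der (hc x hx)
      obtain ⟨D, h3, s3⟩ := gr_der (hd x hx)
      have h4 := (hV.1.differentiable (by simp) x).hasFDerivAt
      simp only [u, der h4 h1 h2 h3]
      simp only [m3, s1 1 0, s1 2 0, s1 3 0, s1 2 1, s1 3 1, s1 3 2,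
        s2 1 0, s2 2 0, s2 3 0, s2 2 1, s2 3 1, s2 3 2, s3 1 0, s3 2 0, s3 3 0, s3 2 1, s3 3 1,
        s3 3 2]
      have e : ∀ i, fderiv ℝ V x (bv i) = gr V x i := fun _ => rfl
      simp only [e]
      ring
    · simp [(h0 _ _ _ x hx).fderiv_eq, gr, fderiv_of_notMem_tsupport ℝ hx]
  simp only [key]
  rw [integral_sub, integral_add, integral_sub (hu _ _ _ _).1 (hu _ _ _ _).1]
  · simp only [(hu _ _ _ _).2, sub_zero, add_zero]
  · exact (hu _ _ _ _).1.sub (hu _ _ _ _).1
  · exact (hu _ _ _ _).1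
  · exact ((hu _ _ _ _).1.sub (hu _ _ _ _).1).add (hu _ _ _ _).1
  · exact (hu _ _ _ _).1

end Pool.Agent.Lib.MP_356dfe_ag.S
end
end

-- part Pool.Agent.Lib.MP_356dfe_ag.S.PE1
section

/-! Density for constant coefficients. -/

set_option autoImplicit false

open Set Filter Topology Metric MeasureTheory
open scoped ContDiff ComplexConjugate Matrix Pointwise

noncomputable section

namespace Pool.Agent.Lib.MP_356dfe_ag.S

namespace PE1a

open scoped Convolution

/-- directional derivative -/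
def p (w : E2) (u : E2 → ℝ) (x : E2) : ℝ := fderiv ℝ u x w

theorem p_sm {u : E2 → ℝ} (h : ContDiff ℝ ∞ u) (w : E2) : ContDiff ℝ ∞ (p w u) :=
  (h.fderiv_right (m := ∞) le_rfl).clm_apply contDiff_const

theorem p_cs {u : E2 → ℝ} (h : CS u) (w : E2) : CS (p w u) := ⟨p_sm h.1 w, h.2.fderiv_apply ℝ w⟩

theorem pp_eq {u : E2 → ℝ} (h : ContDiff ℝ ∞ u) (v w x : E2) :
    p v (p w u) x = fderiv ℝ (fderiv ℝ u) x v w := by
  have hd : DifferentiableAt ℝ (fderiv ℝ u) x :=
    (h.fderiv_right (m := ∞) le_rfl).differentiable (by simp) x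
  unfold p
  rw [fderiv_clm_apply hd (differentiableAt_const _)]
  simp

theorem lev_eq {u : E2 → ℝ} (h : ContDiff ℝ ∞ u) (x : E2) (j k : Fin 2) :
    lev u x j k = ((p (Pi.single k 1) (p (Pi.single j 1) u) x -
      Complex.I * p (Pi.single k 1) (p (Pi.single j Complex.I) u) x) / 2 + Complex.I *
      ((p (Pi.single k Complex.I) (p (Pi.single j 1) u) x -
        Complex.I * p (Pi.single k Complex.I) (p (Pi.single j Complex.I) u) x) / 2)) / 2 := by
  have e1 : ∀ {v : E2 → ℝ}, ContDiff ℝ ∞ v → ∀ y,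
      HasFDerivAt (fun y => (v y : ℂ)) (Complex.ofRealCLM.comp (fderiv ℝ v y)) y := fun hv y =>
    Complex.ofRealCLM.hasFDerivAt.comp y (hv.differentiable (by simp) y).hasFDerivAt
  have e2 : (fun y => du u y j) = fun y =>
      ((p (Pi.single j 1) u y : ℂ) - Complex.I * p (Pi.single j Complex.I) u y) * (1 / 2) := by
    funext y
    simp only [du, dh, (e1 h y).fderiv, div_eq_mul_inv, one_mul]
    rfl
  have e3 := (((e1 (p_sm h (Pi.single j 1)) x).sub
    ((e1 (p_sm h (Pi.single j Complex.I)) x).const_mul Complex.I)).mul_const (1 / 2 : ℂ)).fderiv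
  simp only [lev, dba, Matrix.of_apply, db, e2]
  erw [e3]
  simp [p]
  ring

theorem tr_eq {g : M2} (hg : PD g) : ∃ (c : Fin 4 → ℝ) (w : Fin 4 → E2), (∀ s, 0 ≤ c s) ∧
    ∀ u, ContDiff ℝ ∞ u → ∀ x, tr g (lev u x) = ∑ s, c s * p (w s) (p (w s) u) x := by
  obtain ⟨hh, h0, hd⟩ := hg
  have e10 : g 1 0 = conj (g 0 1) := (hh.apply 1 0).symm
  have e00 : (g 0 0).im = 0 := by
    have := congrArg Complex.im (hh.apply 0 0)
    simp at this
    linarith
  have e11 : (g 1 1).im = 0 := by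
    have := congrArg Complex.im (hh.apply 1 1)
    simp at this
    linarith
  have edt : dt g = (g 0 0).re * (g 1 1).re - ((g 0 1).re ^ 2 + (g 0 1).im ^ 2) := by
    simp [dt, md, e10, e00, e11]
    ring
  refine ⟨![1 / (4 * (g 0 0).re * dt g), 1 / (4 * (g 0 0).re * dt g), 1 / (4 * (g 0 0).re),
      1 / (4 * (g 0 0).re)],
    ![-(g 0 1).re • (Pi.single 0 1 : E2) + (g 0 1).im • (Pi.single 0 Complex.I : E2) +
        (g 0 0).re • (Pi.single 1 1 : E2),
      -(g 0 1).im • (Pi.single 0 1 : E2) + -(g 0 1).re • (Pi.single 0 Complex.I : E2) +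
        (g 0 0).re • (Pi.single 1 Complex.I : E2),
      Pi.single 0 1, Pi.single 0 Complex.I], fun s => ?_, fun u hu x => ?_⟩
  · fin_cases s <;> simp <;> positivity
  have hs : ∀ v w, fderiv ℝ (fderiv ℝ u) x v w = fderiv ℝ (fderiv ℝ u) x w v :=
    (hu.contDiffAt.isSymmSndFDerivAt (by
      rw [minSmoothness_of_isRCLikeNormedField]; exact WithTop.coe_le_coe.2 le_top)).eq
  simp only [tr, md, lev_eq hu, pp_eq hu, Fin.sum_univ_four, Matrix.cons_val, map_add, map_smul,
    _root_.add_apply, _root_.smul_apply, smul_eq_mul, e10]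
  rw [hs (Pi.single 0 Complex.I) (Pi.single 0 1), hs (Pi.single 1 1) (Pi.single 0 1),
    hs (Pi.single 1 Complex.I) (Pi.single 0 1), hs (Pi.single 1 1) (Pi.single 0 Complex.I),
    hs (Pi.single 1 Complex.I) (Pi.single 0 Complex.I), hs (Pi.single 1 Complex.I) (Pi.single 1 1)]
  generalize fderiv ℝ (fderiv ℝ u) x = B
  simp [e00, e11]
  field_simp
  rw [edt]
  ring

/-- the operator -/
def Lo (c : Fin 4 → ℝ) (w : Fin 4 → E2) (M : ℝ) (u : E2 → ℝ) (x : E2) : ℝ :=
  M * u x - ∑ s, c s * p (w s) (p (w s) u) x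

variable {c : Fin 4 → ℝ} {w : Fin 4 → E2} {M : ℝ}

theorem p_add {u v : E2 → ℝ} (h : ContDiff ℝ ∞ u) (h' : ContDiff ℝ ∞ v) (w : E2) :
    p w (u + v) = p w u + p w v := funext fun x => by
  simp only [p, Pi.add_apply]
  rw [fderiv_add (h.differentiable (by simp) x) (h'.differentiable (by simp) x)]
  rfl

theorem p_smul (t : ℝ) (u : E2 → ℝ) (w : E2) : p w (t • u) = t • p w u := funext fun x => by
  simp only [p, Pi.smul_apply]
  rw [fderiv_const_smul_field]
  rfl

theorem Lo_add {u v : E2 → ℝ} (h : ContDiff ℝ ∞ u) (h' : ContDiff ℝ ∞ v) :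
    Lo c w M (u + v) = Lo c w M u + Lo c w M v := funext fun x => by
  simp only [Lo, p_add h h', p_add (p_sm h _) (p_sm h' _), Pi.add_apply, mul_add,
    Finset.sum_add_distrib]
  ring

theorem Lo_smul (t : ℝ) (u : E2 → ℝ) : Lo c w M (t • u) = t • Lo c w M u := funext fun x => by
  simp only [Lo, p_smul, Pi.smul_apply, smul_eq_mul, mul_sub, Finset.mul_sum, mul_left_comm t]

theorem Lo_cs {u : E2 → ℝ} (h : CS u) : CS (Lo c w M u) := by
  have : Lo c w M u = M • u - ∑ s, c s • p (w s) (p (w s) u) := by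
    funext x
    simp [Lo]
  rw [this]
  exact CSm.sub_mem (CSm.smul_mem M h)
    (CSm.sum_mem fun s _ => CSm.smul_mem _ (p_cs (p_cs h _) _))

theorem cs_ref {φ : E2 → ℝ} (h : CS φ) (x : E2) : CS fun y => φ (x - y) :=
  ⟨h.1.comp (contDiff_const.sub contDiff_id), h.2.comp_homeomorph (Homeomorph.subLeft x)⟩

theorem p_ref {φ : E2 → ℝ} (h : ContDiff ℝ ∞ φ) (w x : E2) :
    p w (fun y => φ (x - y)) = (-1 : ℝ) • fun y => p w φ (x - y) := funext fun y => by
  have := ((h.differentiable (by simp) (x - y)).hasFDerivAt.comp y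
    ((hasFDerivAt_id y).const_sub x)).fderiv
  simp only [p]
  erw [this]
  simp

theorem Lo_ref {φ : E2 → ℝ} (h : ContDiff ℝ ∞ φ) (x y : E2) :
    Lo c w M (fun y => φ (x - y)) y = Lo c w M φ (x - y) := by
  simp only [Lo, p_ref h, p_smul, p_ref (p_sm h _), smul_smul]
  simp

/-- convolution -/
def cv (f φ : E2 → ℝ) : E2 → ℝ := f ⋆[ContinuousLinearMap.mul ℝ ℝ, volume] φ

theorem cv_apply (f φ : E2 → ℝ) (x : E2) : cv f φ x = ∫ y, f y * φ (x - y) := rfl

variable {f φ : E2 → ℝ}

theorem cv_sm (hf : LocallyIntegrable f) (h : CS φ) : ContDiff ℝ ∞ (cv f φ) :=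
  h.2.contDiff_convolution_right (n := ⊤) _ hf h.1

theorem p_cv (hf : LocallyIntegrable f) (h : CS φ) (w : E2) : p w (cv f φ) = cv f (p w φ) := by
  funext x
  rw [p, cv, (h.2.hasFDerivAt_convolution_right _ hf (h.1.of_le (by simp)) x).fderiv,
    convolution_precompR_apply _ hf (h.2.fderiv ℝ) (h.1.continuous_fderiv (by simp))]
  rfl

theorem cv_int (hf : LocallyIntegrable f) (h : CS φ) (x : E2) :
    Integrable fun y => f y * φ (x - y) :=
  h.2.convolutionExists_right (ContinuousLinearMap.mul ℝ ℝ) hf h.1.continuous x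

theorem Lo_cv (hf : LocallyIntegrable f) (h : CS φ) (x : E2) :
    Lo c w M (cv f φ) x = cv f (Lo c w M φ) x := by
  simp only [Lo, p_cv hf h, p_cv hf (p_cs h _), cv_apply, mul_sub, Finset.mul_sum, mul_left_comm (f _)]
  rw [integral_sub ((cv_int hf h x).const_mul M) (integrable_finsetSum _ fun s _ =>
    (cv_int hf (p_cs (p_cs h _) _) x).const_mul _), integral_finsetSum _ fun s _ =>
    (cv_int hf (p_cs (p_cs h _) _) x).const_mul _]
  simp only [integral_const_mul]

theorem pp_nonpos {v : E2 → ℝ} (h : ContDiff ℝ ∞ v) {x : E2} (hx : ∀ y, v y ≤ v x) (w : E2) :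
    p w (p w v) x ≤ 0 := by
  have e : ∀ {u : E2 → ℝ}, ContDiff ℝ ∞ u → ∀ t : ℝ,
      HasDerivAt (fun t : ℝ => u (x + t • w)) (p w u (x + t • w)) t := fun hu t => by
    have h1 : HasDerivAt (fun t : ℝ => x + t • w) w t := by
      simpa using ((hasDerivAt_id t).smul_const w).const_add x
    exact (hu.differentiable (by simp) _).hasFDerivAt.comp_hasDerivAt t h1
  have e1 : deriv (fun t : ℝ => v (x + t • w)) = fun t => p w v (x + t • w) :=
    funext fun t => (e h t).deriv
  have e2 : deriv (deriv fun t : ℝ => v (x + t • w)) 0 = p w (p w v) x := by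
    rw [e1, (e (p_sm h w) 0).deriv, zero_smul, add_zero]
  have hm : IsLocalMax (fun t : ℝ => v (x + t • w)) 0 :=
    Eventually.of_forall fun t => by simpa using hx _
  by_contra h0
  rw [not_le, ← e2] at h0
  have h1 := eventuallyEq_of_isMinFilter_of_isMaxFilter
    (isLocalMin_of_deriv_deriv_pos h0 hm.deriv_eq_zero (e h 0).continuousAt) hm
  rw [h1.deriv.deriv_eq] at h0
  simp at h0

theorem decay (hf : MemLp f 2 volume) (h : CS φ) {ε : ℝ} (hε : 0 < ε) :
    ∀ᶠ x in cocompact E2, cv f φ x ≤ ε := by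
  have : (cocompact E2).IsCountablyGenerated := by
    rw [← cobounded_eq_cocompact, ← comap_norm_atTop]; infer_instance
  have hl := hf.locallyIntegrable one_le_two
  have h2 : Integrable fun y => f y ^ 2 := hf.integrable_sq
  obtain ⟨C, hC⟩ := h.1.continuous.bounded_above_of_compact_support h.2
  have hc : ∀ x, Continuous fun y => |φ (x - y)| := fun x => (cs_ref h x).1.continuous.abs
  have hb : ∀ x y, ‖f y ^ 2 * |φ (x - y)|‖ ≤ f y ^ 2 * C := fun x y => by
    rw [norm_mul, Real.norm_of_nonneg (sq_nonneg _), Real.norm_eq_abs, abs_abs]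
    exact mul_le_mul_of_nonneg_left (hC _) (sq_nonneg _)
  have hm : ∀ x, AEStronglyMeasurable (fun y => f y ^ 2 * |φ (x - y)|) volume := fun x =>
    h2.1.mul (hc x).aestronglyMeasurable
  have h3 : Tendsto (fun x => ∫ y, f y ^ 2 * |φ (x - y)|) (cocompact E2) (𝓝 (∫ _ : E2, (0 : ℝ))) := by
    refine tendsto_integral_filter_of_dominated_convergence (fun y => f y ^ 2 * C)
      (Eventually.of_forall hm) (Eventually.of_forall fun x => Eventually.of_forall (hb x))
      (h2.mul_const C) (Eventually.of_forall fun y => tendsto_const_nhds.congr' ?_)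
    have h4 := h.2.comp_homeomorph (Homeomorph.subRight y)
    rw [hasCompactSupport_iff_eventuallyEq, coclosedCompact_eq_cocompact] at h4
    filter_upwards [h4] with x hx
    simp [show φ (x - y) = 0 from hx]
  rw [integral_zero] at h3
  have hI : 0 ≤ ∫ y, |φ y| := integral_nonneg fun _ => abs_nonneg _
  set δ := ε / (2 * ((∫ y, |φ y|) + 1)) with hδ
  have hδ0 : 0 < δ := by positivity
  filter_upwards [h3.eventually_le_const (show 0 < ε / 2 * δ by positivity)] with x hx
  have i1 : Integrable fun y => |φ (x - y)| :=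
    ((cs_ref h x).1.continuous.integrable_of_hasCompactSupport (cs_ref h x).2).abs
  have i2 : Integrable fun y => f y ^ 2 * |φ (x - y)| :=
    (h2.mul_const C).mono' (hm x) (Eventually.of_forall (hb x))
  have h5 : cv f φ x ≤ ∫ y, (δ * |φ (x - y)| + δ⁻¹ * (f y ^ 2 * |φ (x - y)|)) := by
    refine integral_mono (cv_int hl h x) ((i1.const_mul _).add (i2.const_mul _)) fun y => ?_
    have h6 : |f y| ≤ δ + δ⁻¹ * f y ^ 2 := by
      rw [← sq_abs, ← sub_nonneg]
      have : δ + δ⁻¹ * |f y| ^ 2 - |f y| = δ⁻¹ * ((|f y| - δ / 2) ^ 2 + 3 / 4 * δ ^ 2) := by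
        field_simp; ring
      rw [this]
      positivity
    refine (le_abs_self (f y * φ (x - y))).trans ?_
    rw [abs_mul]
    exact (mul_le_mul_of_nonneg_right h6 (abs_nonneg _)).trans (le_of_eq (by ring))
  rw [integral_add (i1.const_mul _) (i2.const_mul _), integral_const_mul, integral_const_mul,
    integral_sub_left_eq_self (fun y => |φ y|)] at h5
  have h7 : δ * ∫ y, |φ y| ≤ ε / 2 := by
    rw [hδ, div_mul_eq_mul_div, div_le_div_iff₀ (by positivity) two_pos]
    nlinarith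
  have h8 : δ⁻¹ * ∫ y, f y ^ 2 * |φ (x - y)| ≤ ε / 2 := by
    rw [inv_mul_le_iff₀ hδ0, mul_comm]
    exact hx
  linarith

theorem zero_of_orth (hc : ∀ s, 0 ≤ c s) (hM : 0 < M) (hf : MemLp f 2 volume)
    (h0 : ∀ u, CS u → ∫ y, f y * Lo c w M u y = 0) : ∀ᵐ x, f x = 0 := by
  have hl := hf.locallyIntegrable one_le_two
  have key : ∀ φ, CS φ → ∀ x, cv f φ x ≤ 0 := fun φ h x => by
    by_contra hx
    rw [not_le] at hx
    obtain ⟨z, hz⟩ := (cv_sm hl h).continuous.exists_forall_ge' x (decay hf h hx)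
    have h1 : Lo c w M (cv f φ) z = 0 := by
      rw [Lo_cv hl h, cv_apply, ← h0 _ (cs_ref h z)]
      simp only [Lo_ref h.1]
    have h2 : ∑ s, c s * p (w s) (p (w s) (cv f φ)) z ≤ 0 := Finset.sum_nonpos fun s _ =>
      mul_nonpos_of_nonneg_of_nonpos (hc s) (pp_nonpos (cv_sm hl h) hz _)
    have h3 := mul_pos hM (hx.trans_le (hz x))
    rw [Lo] at h1
    linarith
  refine ae_eq_zero_of_integral_contDiff_smul_eq_zero hl fun φ h h' => ?_
  have h1 := key _ (cs_ref ⟨h, h'⟩ 0) 0
  have h2 := key _ (CSm.neg_mem (cs_ref ⟨h, h'⟩ 0)) 0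
  simp only [cv_apply, zero_sub, neg_neg, Pi.neg_apply, mul_neg, integral_neg] at h1 h2
  simp only [smul_eq_mul, mul_comm (φ _)]
  linarith

/-- the range of the operator -/
def Rg (c : Fin 4 → ℝ) (w : Fin 4 → E2) (M : ℝ) : Submodule ℝ (Lp ℝ 2 (volume : Measure E2)) where
  carrier := {F | ∃ u, CS u ∧ F =ᵐ[volume] Lo c w M u}
  zero_mem' := ⟨(0 : ℝ) • 0, CSm.smul_mem 0 CSm.zero_mem, by
    rw [Lo_smul, zero_smul]; exact Lp.coeFn_zero _ _ _⟩
  add_mem' := by
    rintro F G ⟨u, hu, e⟩ ⟨v, hv, e'⟩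
    exact ⟨u + v, CSm.add_mem hu hv, Lo_add hu.1 hv.1 ▸ (Lp.coeFn_add F G).trans (e.add e')⟩
  smul_mem' := by
    rintro t F ⟨u, hu, e⟩
    exact ⟨t • u, CSm.smul_mem t hu, Lo_smul t u ▸ (Lp.coeFn_smul t F).trans (e.const_smul t)⟩

theorem Rg_dense (hc : ∀ s, 0 ≤ c s) (hM : 0 < M) : (Rg c w M).topologicalClosure = ⊤ := by
  rw [Submodule.topologicalClosure_eq_top_iff, Submodule.eq_bot_iff]
  intro F hF
  refine Lp.eq_zero_iff_ae_eq_zero.2 (zero_of_orth (w := w) hc hM (Lp.memLp F) fun u hu => ?_)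
  have h1 : MemLp (Lo c w M u) 2 volume :=
    (Lo_cs hu).1.continuous.memLp_of_hasCompactSupport (Lo_cs hu).2
  have h2 := hF h1.toLp ⟨u, hu, h1.coeFn_toLp⟩
  rw [L2.inner_def] at h2
  rw [← h2]
  refine integral_congr_ae ?_
  filter_upwards [h1.coeFn_toLp] with y hy
  simp [hy]

end PE1a

open PE1a in
theorem pe1 (ha : Alg) (hc : Calc) : PE1 := by
  intro g M f hg hM hf η hη
  obtain ⟨c, w, hc, e⟩ := tr_eq hg
  have h1 : hf.toLp ∈ closure (Rg c w M : Set (Lp ℝ 2 (volume : Measure E2))) := by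
    rw [← Submodule.topologicalClosure_coe, Rg_dense hc hM]
    trivial
  obtain ⟨F, ⟨u, hu, hF⟩, h2⟩ := Metric.mem_closure_iff.1 h1 √η (Real.sqrt_pos.2 hη)
  refine ⟨u, hu, ?_⟩
  rw [dist_comm, dist_eq_norm] at h2
  have h3 := (Real.lt_sqrt (norm_nonneg _)).1 h2
  rw [← real_inner_self_eq_norm_sq, L2.inner_def] at h3
  refine le_of_eq_of_le (integral_congr_ae ?_) h3.le
  filter_upwards [Lp.coeFn_sub F hf.toLp, hF, hf.coeFn_toLp] with y h4 h5 h6
  rw [h4, Pi.sub_apply, h5, h6, e u hu.1, real_inner_self_eq_norm_sq, Real.norm_eq_abs, sq_abs, Lo]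

end Pool.Agent.Lib.MP_356dfe_ag.S
end
end

-- part Pool.Agent.Lib.MP_356dfe_ag.S.PE3
section

/-! Local decay of weak solutions. -/

set_option autoImplicit false

open Set Filter Topology Metric MeasureTheory
open scoped ContDiff ComplexConjugate Matrix Pointwise

noncomputable section

namespace Pool.Agent.Lib.MP_356dfe_ag.S

namespace PE3A

theorem du_ev {u : E2 → ℝ} {x : E2} (h : ∀ᶠ y in 𝓝 x, u y = 0) : du u x = 0 := by
  have e : (fun y => (u y : ℂ)) =ᶠ[𝓝 x] fun _ => 0 := h.mono fun y hy => by simp [hy]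
  funext j
  simp [du, dh, e.fderiv_eq]

theorem lev_ev {u : E2 → ℝ} {x : E2} (h : ∀ᶠ y in 𝓝 x, u y = 0) : lev u x = 0 := by
  ext j k
  have e : (fun y => du u y j) =ᶠ[𝓝 x] fun _ => 0 :=
    h.eventually_nhds.mono fun y hy => by simp [du_ev hy]
  simp [lev, dba, db, e.fderiv_eq]

theorem ev_zero {u : E2 → ℝ} {x : E2} (h : x ∉ tsupport u) : ∀ᶠ y in 𝓝 x, u y = 0 :=
  notMem_tsupport_iff_eventuallyEq.mp h

theorem md_sq (D S : M2) :
    md D S ^ 2 ≤ (∑ j, ∑ k, ‖D j k‖ ^ 2) * ∑ j, ∑ k, ‖S j k‖ ^ 2 := by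
  have h : |md D S| ≤ ‖D 0 0‖ * ‖S 1 1‖ + ‖D 1 1‖ * ‖S 0 0‖ + ‖D 0 1‖ * ‖S 1 0‖ +
      ‖D 1 0‖ * ‖S 0 1‖ := by
    refine (Complex.abs_re_le_norm _).trans ?_
    refine (norm_sub_le _ _).trans (add_le_add ((norm_sub_le _ _).trans (add_le_add
      ((norm_add_le _ _).trans (add_le_add ?_ ?_)) ?_)) ?_) <;> rw [norm_mul]
  have h2 := pow_le_pow_left₀ (abs_nonneg _) h 2
  rw [sq_abs] at h2
  refine h2.trans ?_
  simp only [Fin.sum_univ_two]
  generalize ‖D 0 0‖ = a, ‖D 0 1‖ = b, ‖D 1 0‖ = c, ‖D 1 1‖ = d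
  generalize ‖S 0 0‖ = p, ‖S 0 1‖ = q, ‖S 1 0‖ = r, ‖S 1 1‖ = s
  nlinarith [sq_nonneg (a * p - d * s), sq_nonneg (a * r - b * s), sq_nonneg (a * q - c * s),
    sq_nonneg (d * r - b * p), sq_nonneg (d * q - c * p), sq_nonneg (b * q - c * r)]

theorem young {F h T R E₁ E₂ E₃ I u N ε C₁ C₂ : ℝ} (hε : 0 < ε)
    (hT : T = F * R + F * E₁ - h * E₂ - h * E₃) (h1 : F = 0 ∨ E₁ ^ 2 ≤ I / 16) (hI : 0 ≤ I)
    (h2 : E₂ ^ 2 ≤ C₁ * u ^ 2) (h3 : E₃ ^ 2 ≤ C₂ * N) :
    F ^ 2 / 2 ≤ T + (R - F) ^ 2 + I / 16 + 2 * ε * h ^ 2 + C₁ / (4 * ε) * u ^ 2 +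
      C₂ / (4 * ε) * N := by
  have a1 : -(F ^ 2 / 4) - I / 16 ≤ F * E₁ := by
    rcases h1 with h1 | h1
    · rw [h1]; simp; linarith
    · nlinarith [sq_nonneg (F / 2 + E₁)]
  have key : ∀ E B : ℝ, E ^ 2 ≤ B → h * E ≤ ε * h ^ 2 + B / (4 * ε) := by
    intro E B hE
    have : h * E ≤ ε * h ^ 2 + E ^ 2 / (4 * ε) := by
      have e : ε * h ^ 2 + E ^ 2 / (4 * ε) - h * E = (2 * ε * h - E) ^ 2 / (4 * ε) := by
        field_simp; ring
      have : 0 ≤ (2 * ε * h - E) ^ 2 / (4 * ε) := by positivity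
      linarith
    have h4 : E ^ 2 / (4 * ε) ≤ B / (4 * ε) := by gcongr
    linarith
  have a2 := key _ _ h2
  have a3 := key _ _ h3
  have e2 : C₁ / (4 * ε) * u ^ 2 = C₁ * u ^ 2 / (4 * ε) := by ring
  have e3 : C₂ / (4 * ε) * N = C₂ * N / (4 * ε) := by ring
  rw [e2, e3, hT]
  nlinarith [sq_nonneg (F / 2 + (R - F))]

variable (hc : Calc)
include hc

theorem c_du {u : E2 → ℝ} (hu : ContDiff ℝ ∞ u) : Continuous (du u) :=
  continuous_iff_continuousAt.mpr fun x => (hc.sm_du u x hu.contDiffAt).continuousAt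

theorem c_lev {u : E2 → ℝ} (hu : ContDiff ℝ ∞ u) (j k : Fin 2) :
    Continuous fun x => lev u x j k :=
  continuous_iff_continuousAt.mpr fun x =>
    (hc.sm_dba (du u) x (hc.sm_du u x hu.contDiffAt) j k).continuousAt

theorem lev_herm {u : E2 → ℝ} (hu : ContDiff ℝ ∞ u) (x : E2) : (lev u x).IsHermitian :=
  (hc.c1_du u x (hu.contDiffAt.of_le (by norm_cast))).2

theorem lev_mul {χ u : E2 → ℝ} (hχ : ContDiff ℝ ∞ χ) (hu : ContDiff ℝ ∞ u) (x : E2) :
    lev (fun y => χ y * u y) x = χ x • lev u x + ot (du u x) (du χ x) +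
      (u x • lev χ x + ot (du χ x) (du u x)) := by
  have d : ∀ {v : E2 → ℝ}, ContDiff ℝ ∞ v → ∀ y, DifferentiableAt ℝ v y := fun hv y =>
    hv.differentiable (by simp) y
  have d' : ∀ {v : E2 → ℝ}, ContDiff ℝ ∞ v → ∀ y, DifferentiableAt ℝ (du v) y := fun hv y =>
    (hc.sm_du _ y hv.contDiffAt).differentiableAt (by simp)
  have e : du (fun y => χ y * u y) = fun y => χ y • du u y + u y • du χ y :=
    funext fun y => hc.du_mul χ u y (d hχ y) (d hu y)
  rw [lev, e, hc.dba_add (fun y => χ y • du u y) (fun y => u y • du χ y) x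
    ((d hχ x).smul (d' hu x)) ((d hu x).smul (d' hχ x)),
    hc.dba_smul _ _ x (d hχ x) (d' hu x), hc.dba_smul _ _ x (d hu x) (d' hχ x)]
  rfl

theorem c_tr {g : E2 → M2} {K : Set E2} (hg : ∀ j k, ContinuousOn (fun x => g x j k) K)
    (hp : ∀ x ∈ K, PD (g x)) {u : E2 → ℝ} (hu : ContDiff ℝ ∞ u) :
    ContinuousOn (fun x => tr (g x) (lev u x)) K := by
  have hl : ∀ j k, ContinuousOn (fun x => lev u x j k) K := fun j k =>
    (c_lev hc hu j k).continuousOn
  refine ContinuousOn.div ?_ ?_ fun x hx => (hp x hx).2.2.ne'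
  · exact Complex.continuous_re.comp_continuousOn (((((hg 0 0).mul (hl 1 1)).add
      ((hg 1 1).mul (hl 0 0))).sub ((hg 0 1).mul (hl 1 0))).sub ((hg 1 0).mul (hl 0 1)))
  · exact (Complex.continuous_re.comp_continuousOn (((((hg 0 0).mul (hg 1 1)).add
      ((hg 1 1).mul (hg 0 0))).sub ((hg 0 1).mul (hg 1 0))).sub
      ((hg 1 0).mul (hg 0 1)))).div_const 2

theorem int_ip (g : M2) {u : E2 → ℝ} (hu : CS u) :
    Integrable fun x => ip g (lev u x) (lev u x) := by
  refine Continuous.integrable_of_hasCompactSupport ?_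
    (HasCompactSupport.intro hu.2 fun x hx => ?_)
  · have hl := c_lev hc hu.1
    have h00 := hl 0 0
    have h01 := hl 0 1
    have h10 := hl 1 0
    have h11 := hl 1 1
    unfold ip tr md
    fun_prop
  · rw [lev_ev (ev_zero hx), ip, tr_zero, md_zero]; simp

theorem int_n1 (g : M2) {u : E2 → ℝ} (hu : CS u) :
    Integrable fun x => n1 g (du u x) (du u x) := by
  refine Continuous.integrable_of_hasCompactSupport ?_
    (HasCompactSupport.intro hu.2 fun x hx => ?_)
  · have hl := c_du hc hu.1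
    unfold n1 md ot
    simp only [Matrix.of_apply]
    fun_prop
  · rw [du_ev (ev_zero hx), n1_zero]

theorem mem_R (g : M2) (M : ℝ) {u : E2 → ℝ} (hu : CS u) :
    MemLp (fun x => M * u x - tr g (lev u x)) 2 volume := by
  refine Continuous.memLp_of_hasCompactSupport ?_
    (HasCompactSupport.intro hu.2 fun x hx => ?_)
  · have hl := c_lev hc hu.1
    have h00 := hl 0 0
    have h01 := hl 0 1
    have h10 := hl 1 0
    have h11 := hl 1 1
    have hu' := hu.1.continuous
    unfold tr md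
    fun_prop
  · rw [lev_ev (ev_zero hx), tr_zero, image_eq_zero_of_notMem_tsupport hx]; simp

omit hc in
theorem near (ha : Alg) {g : E2 → M2} (hg : ∀ j k, ContinuousOn (fun x => g x j k) (ball 0 4))
    (hp : ∀ x ∈ ball (0 : E2) 4, PD (g x)) {x₀ : E2} (hx : x₀ ∈ ball (0 : E2) 4) :
    ∀ᶠ x in 𝓝 x₀, ∀ S : M2, S.IsHermitian →
      (tr (g x₀) S - tr (g x) S) ^ 2 ≤ ip (g x₀) S S / 16 := by
  obtain ⟨c, hc0, hcm⟩ := ha.cmp {x₀} g isCompact_singleton
    (fun j k => continuousOn_singleton _ _) (fun x hx' => by rw [hx']; exact hp x₀ hx)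
  have hS := (hcm x₀ rfl).2.2.2
  have hga : ∀ j k, ContinuousAt (fun x => g x j k) x₀ := fun j k =>
    (hg j k).continuousAt (isOpen_ball.mem_nhds hx)
  have hdt : ContinuousAt (fun x => dt (g x)) x₀ := by
    have h00 := hga 0 0
    have h01 := hga 0 1
    have h10 := hga 1 0
    have h11 := hga 1 1
    unfold dt md
    fun_prop
  have hD : ContinuousAt (fun x => ∑ j, ∑ k,
      ‖((dt (g x₀))⁻¹ • g x₀ - (dt (g x))⁻¹ • g x) j k‖ ^ 2) x₀ := by
    refine tendsto_finsetSum _ fun j _ => tendsto_finsetSum _ fun k _ => ?_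
    refine ContinuousAt.pow (f := fun x => ‖((dt (g x₀))⁻¹ • g x₀ - (dt (g x))⁻¹ • g x) j k‖)
      (ContinuousAt.norm ?_) 2
    simp only [Matrix.sub_apply, Matrix.smul_apply]
    exact continuousAt_const.sub ((hdt.inv₀ (hp x₀ hx).2.2.ne').smul (hga j k))
  have hev := hD.eventually (gt_mem_nhds (a := c / 16) (by simp; positivity))
  filter_upwards [hev] with x hxx S hS'
  have e : tr (g x₀) S - tr (g x) S = md ((dt (g x₀))⁻¹ • g x₀ - (dt (g x))⁻¹ • g x) S := by
    rw [sub_md, smul_md, smul_md, tr, tr]; ring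
  rw [e]
  refine (md_sq _ _).trans ?_
  have h0 : 0 ≤ ∑ j, ∑ k, ‖S j k‖ ^ 2 := by positivity
  have := mul_le_mul_of_nonneg_right hxx.le h0
  have h2 := (hS S hS').1
  linarith

theorem loc (ha : Alg) (h1 : PE1) (h2 : PE2) {g : E2 → M2}
    (hg : ∀ j k, ContinuousOn (fun x => g x j k) (ball 0 4))
    (hp : ∀ x ∈ ball (0 : E2) 4, PD (g x)) {x₀ : E2} (hx : x₀ ∈ closedBall (0 : E2) 1) :
    ∃ δ > 0, ball x₀ δ ⊆ ball 0 2 ∧ ∀ q > 0, ∃ M₀, ∀ M ≥ M₀, ∀ h : E2 → ℝ,
      MemLp h 2 (volume.restrict (ball 0 2)) →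
      (∀ U, CS U → tsupport U ⊆ ball 0 2 →
        ∫ x in ball 0 2, h x * (M * U x - tr (g x) (lev U x)) = 0) →
      ∫ x in ball x₀ δ, h x ^ 2 ≤ q * ∫ x in ball 0 2, h x ^ 2 := by
  have hK4 : closedBall (0 : E2) 2 ⊆ ball 0 4 := closedBall_subset_ball (by norm_num)
  have hxK : x₀ ∈ closedBall (0 : E2) 2 := closedBall_subset_closedBall (by norm_num) hx
  have hK : IsCompact (closedBall (0 : E2) 2) := isCompact_closedBall _ _
  have hgK : ∀ j k, ContinuousOn (fun x => g x j k) (closedBall 0 2) := fun j k =>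
    (hg j k).mono hK4
  have hpK : ∀ x ∈ closedBall (0 : E2) 2, PD (g x) := fun x hx => hp x (hK4 hx)
  have hg0 := hpK x₀ hxK
  obtain ⟨r, hr, hnear⟩ := Metric.eventually_nhds_iff_ball.mp (near ha hg hp (hK4 hxK))
  obtain ⟨δ, hδ, hδr, hδ1⟩ : ∃ δ > 0, 2 * δ < r ∧ 2 * δ < 1 :=
    ⟨min r 1 / 4, by positivity, by linarith [min_le_left r 1], by linarith [min_le_right r 1]⟩
  have hsub : closedBall x₀ (2 * δ) ⊆ ball 0 2 := fun y hy => by
    rw [mem_closedBall] at hx hy
    rw [mem_ball]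
    linarith [dist_triangle y x₀ 0]
  let χ : ContDiffBump x₀ := ⟨δ, 2 * δ, hδ, by linarith⟩
  have hχ : ContDiff ℝ ∞ χ := χ.contDiff
  have hχs : tsupport χ = closedBall x₀ (2 * δ) := χ.tsupport_eq
  obtain ⟨c, hc0, hcm⟩ := ha.cmp _ g hK hgK hpK
  obtain ⟨B₁, hB₁⟩ := hK.exists_bound_of_continuousOn (c_tr hc hgK hpK hχ)
  obtain ⟨B₂, hB₂⟩ := hK.exists_bound_of_continuousOn (c_du hc hχ).continuousOn
  refine ⟨δ, hδ, (ball_subset_closedBall.trans (closedBall_subset_closedBall (by linarith))).trans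
    hsub, fun q hq => ?_⟩
  set ε := q / 8 with hε
  have hε0 : 0 < ε := by positivity
  set K₁ := B₁ ^ 2 / (4 * ε) with hK₁
  set K₂ := 4 * (c⁻¹ * c⁻¹) * (c⁻¹ * B₂ ^ 2) / (4 * ε) with hK₂
  have hK₁0 : 0 ≤ K₁ := by positivity
  have hK₂0 : 0 ≤ K₂ := by positivity
  refine ⟨1 + 16 * (K₁ + K₂), fun M hM h hh hw => ?_⟩
  have hM1 : 1 ≤ M := by linarith
  have hM0 : 0 < M := by linarith
  set F : E2 → ℝ := (ball (0 : E2) 2).indicator fun x => χ x * h x with hF
  have hFm : MemLp F 2 volume := by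
    rw [hF, memLp_indicator_iff_restrict measurableSet_ball]
    refine hh.of_le (hχ.continuous.aestronglyMeasurable.mul hh.1) (ae_of_all _ fun x => ?_)
    rw [norm_mul, Real.norm_of_nonneg χ.nonneg]
    exact mul_le_of_le_one_left (norm_nonneg _) χ.le_one
  have hF2 : Integrable fun x => F x ^ 2 := hFm.integrable_sq
  have hh2 : IntegrableOn (fun x => h x ^ 2) (ball 0 2) := hh.integrable_sq
  have : IsFiniteMeasure (volume.restrict (ball (0 : E2) 2)) :=
    ⟨by rw [Measure.restrict_apply_univ]; exact measure_ball_lt_top⟩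
  have hh1 : IntegrableOn h (ball 0 2) := hh.integrable (by norm_num)
  have main : ∀ η > 0, ∫ x, F x ^ 2 ≤ q * (∫ x in ball 0 2, h x ^ 2) + 5 * η := by
    intro η hη
    obtain ⟨u, hu, hue⟩ := h1 (g x₀) M F hg0 hM0 hFm η hη
    obtain ⟨e1, e2, e3⟩ := h2 (g x₀) M u hg0 hM0 hu
    have hU : CS fun y => χ y * u y := ⟨hχ.mul hu.1, hu.2.mul_left⟩
    have hUs : tsupport (fun y => χ y * u y) ⊆ ball 0 2 :=
      (tsupport_mul_subset_left.trans hχs.le).trans hsub
    have hT := hw _ hU hUs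
    have iT : IntegrableOn (fun x => h x * (M * (χ x * u x) -
        tr (g x) (lev (fun y => χ y * u y) x))) (ball 0 2) :=
      hh1.mul_continuousOn_of_subset ((continuous_const.mul hU.1.continuous).continuousOn.sub
        (c_tr hc hgK hpK hU.1)) measurableSet_ball hK ball_subset_closedBall
    have mR := mem_R hc (g x₀) M hu
    have iR := mR.integrable_sq
    have iRF : Integrable fun x => (M * u x - tr (g x₀) (lev u x) - F x) ^ 2 :=
      (mR.sub hFm).integrable_sq
    have iI := int_ip hc (g x₀) hu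
    have iN := int_n1 hc (g x₀) hu
    have iu : Integrable fun x => u x ^ 2 :=
      (hu.1.continuous.memLp_of_hasCompactSupport hu.2 (p := 2) (μ := volume)).integrable_sq
    have hI0 : ∀ x, 0 ≤ ip (g x₀) (lev u x) (lev u x) := fun x =>
      ha.ip_nn _ _ hg0 (lev_herm hc hu.1 x)
    have hN0 : ∀ x, 0 ≤ n1 (g x₀) (du u x) (du u x) := fun x => ha.n1_nn _ _ hg0
    have pt : ∀ x ∈ ball (0 : E2) 2, F x ^ 2 / 2 ≤ h x * (M * (χ x * u x) -
        tr (g x) (lev (fun y => χ y * u y) x)) + (M * u x - tr (g x₀) (lev u x) - F x) ^ 2 +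
        ip (g x₀) (lev u x) (lev u x) / 16 + 2 * ε * h x ^ 2 + K₁ * u x ^ 2 +
        K₂ * n1 (g x₀) (du u x) (du u x) := by
      intro x hxb
      have hxK' : x ∈ closedBall (0 : E2) 2 := ball_subset_closedBall hxb
      have eF : F x = χ x * h x := by rw [hF, indicator_of_mem hxb]
      refine young (E₁ := tr (g x₀) (lev u x) - tr (g x) (lev u x))
        (E₂ := u x * tr (g x) (lev χ x)) (E₃ := 2 * n1 (g x) (du u x) (du χ x)) hε0 ?_ ?_
        (hI0 x) ?_ ?_
      · rw [lev_mul hc hχ hu.1, tr_add, tr_add, tr_add, tr_smul, tr_smul, tr_ot, tr_ot, eF,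
          ha.n1_comm _ (du χ x) _ (hpK x hxK')]
        ring
      · by_cases hxr : x ∈ ball x₀ r
        · exact Or.inr (hnear x hxr _ (lev_herm hc hu.1 x))
        · refine Or.inl ?_
          rw [eF, χ.zero_of_le_dist ?_, zero_mul]
          rw [mem_ball, not_lt] at hxr
          change 2 * δ ≤ _
          linarith
      · have := hB₁ x hxK'
        rw [Real.norm_eq_abs] at this
        have h3 := pow_le_pow_left₀ (abs_nonneg _) this 2
        rw [sq_abs] at h3
        rw [mul_pow, mul_comm]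
        exact mul_le_mul_of_nonneg_right h3 (sq_nonneg _)
      · have hcs := pow_le_pow_left₀ (abs_nonneg _)
          (ha.n1_cs (g x) (du u x) (du χ x) (hpK x hxK')) 2
        have n1a := ha.n1_nn (g x) (du u x) (hpK x hxK')
        have n1b := ha.n1_nn (g x) (du χ x) (hpK x hxK')
        rw [sq_abs, mul_pow, Real.sq_sqrt n1a, Real.sq_sqrt n1b] at hcs
        have hci : 0 < c⁻¹ := inv_pos.mpr hc0
        have b1 : n1 (g x) (du u x) (du u x) ≤ c⁻¹ * c⁻¹ * n1 (g x₀) (du u x) (du u x) := by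
          have p1 := ((hcm x hxK').2.2.1 (du u x)).2
          have p2 := ((hcm x₀ hxK).2.2.1 (du u x)).1
          have p3 : ‖du u x‖ ^ 2 ≤ c⁻¹ * n1 (g x₀) (du u x) (du u x) := by
            rw [← div_eq_inv_mul, le_div_iff₀ hc0]; linarith
          have := mul_le_mul_of_nonneg_left p3 hci.le
          linarith
        have b2 : n1 (g x) (du χ x) (du χ x) ≤ c⁻¹ * B₂ ^ 2 :=
          ((hcm x hxK').2.2.1 (du χ x)).2.trans (mul_le_mul_of_nonneg_left
            (pow_le_pow_left₀ (norm_nonneg _) (hB₂ x hxK') 2) hci.le)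
        have := mul_le_mul b1 b2 n1b (mul_nonneg (by positivity) (hN0 x))
        nlinarith
    have iA := iT.add iRF.integrableOn
    have iB := iA.add (iI.div_const 16).integrableOn
    have iC := iB.add (hh2.const_mul (2 * ε))
    have iD := iC.add (iu.const_mul K₁).integrableOn
    have hint := setIntegral_mono_on (hF2.div_const 2).integrableOn
      (iD.add (iN.const_mul K₂).integrableOn) measurableSet_ball pt
    rw [integral_add' iD (iN.const_mul K₂).integrableOn,
      integral_add' iC (iu.const_mul K₁).integrableOn,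
      integral_add' iB (hh2.const_mul (2 * ε)),
      integral_add' iA (iI.div_const 16).integrableOn, integral_add' iT iRF.integrableOn, hT,
      integral_div, integral_div, integral_const_mul, integral_const_mul,
      integral_const_mul] at hint
    have eF : ∫ x in ball 0 2, F x ^ 2 = ∫ x, F x ^ 2 :=
      setIntegral_eq_integral_of_forall_compl_eq_zero fun x hx => by
        rw [hF, indicator_of_notMem hx]; simp
    have l1 := setIntegral_le_integral (s := ball 0 2) iRF (ae_of_all _ fun x => sq_nonneg _)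
    have l2 := setIntegral_le_integral (s := ball 0 2) iI (ae_of_all _ hI0)
    have l3 := setIntegral_le_integral (s := ball 0 2) iu (ae_of_all _ fun x => sq_nonneg _)
    have l4 := setIntegral_le_integral (s := ball 0 2) iN (ae_of_all _ hN0)
    have l5 : ∫ x, (M * u x - tr (g x₀) (lev u x)) ^ 2 ≤ 2 * (∫ x, F x ^ 2) + 2 * η := by
      have := integral_mono iR ((hF2.const_mul 2).add (iRF.const_mul 2)) fun x => by
        simp only [Pi.add_apply]
        nlinarith [sq_nonneg (M * u x - tr (g x₀) (lev u x) - 2 * F x)]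
      rw [integral_add' (hF2.const_mul 2) (iRF.const_mul 2), integral_const_mul,
        integral_const_mul] at this
      linarith
    have u0 : 0 ≤ ∫ x, u x ^ 2 := integral_nonneg fun x => sq_nonneg _
    have n0 : 0 ≤ ∫ x, n1 (g x₀) (du u x) (du u x) := integral_nonneg hN0
    rw [eF] at hint
    generalize ∫ x, u x ^ 2 = a at *
    generalize ∫ x, n1 (g x₀) (du u x) (du u x) = n at *
    generalize ∫ x, (M * u x - tr (g x₀) (lev u x)) ^ 2 = ρ at *
    have l6 : K₁ * a + K₂ * n ≤ ρ / 16 := by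
      have q1 : M * a ≤ ρ := by nlinarith [mul_nonneg hM0.le u0]
      have hρ : 0 ≤ ρ := le_trans (mul_nonneg hM0.le u0) q1
      have q2 : M * (K₁ * a + K₂ * n) ≤ M * (ρ / 16) := by
        have := mul_le_mul_of_nonneg_left q1 hK₁0
        have := mul_le_mul_of_nonneg_left e2 hK₂0
        have := mul_le_mul_of_nonneg_right hM hρ
        nlinarith
      exact le_of_mul_le_mul_left q2 hM0
    have l7 := mul_le_mul_of_nonneg_left l3 hK₁0
    have l8 := mul_le_mul_of_nonneg_left l4 hK₂0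
    have : q = 8 * ε := by rw [hε]; ring
    rw [this]
    linarith
  have fin : ∫ x, F x ^ 2 ≤ q * ∫ x in ball 0 2, h x ^ 2 := by
    refine le_of_forall_pos_le_add fun η hη => ?_
    have := main (η / 5) (by positivity)
    linarith
  refine le_trans ?_ fin
  refine le_trans (le_of_eq ?_) (setIntegral_le_integral (s := ball x₀ δ) hF2
    (ae_of_all _ fun x => sq_nonneg _))
  refine setIntegral_congr_fun measurableSet_ball fun x hxb => ?_
  have hb : x ∈ closedBall x₀ δ := ball_subset_closedBall hxb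
  rw [hF, indicator_of_mem (hsub (closedBall_subset_closedBall (by linarith) hb)),
    χ.one_of_mem_closedBall hb, one_mul]

end PE3A

theorem pe3 (ha : Alg) (hc : Calc) (h1 : PE1) (h2 : PE2) : PE3 := by
  intro g hg hp q hq
  have H := fun (x : E2) (hx : x ∈ closedBall (0 : E2) 1) => PE3A.loc hc ha h1 h2 hg hp hx
  choose! δ hδ hsub hloc using H
  obtain ⟨t, ht, hcov⟩ := (isCompact_closedBall (0 : E2) 1).elim_nhds_subcover
    (fun x => ball x (δ x)) fun x hx => ball_mem_nhds x (hδ x hx)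
  have H2 := fun (x : E2) (hx : x ∈ closedBall (0 : E2) 1) =>
    hloc x hx (q / (t.card + 1)) (by positivity)
  choose! M₀ hM₀ using H2
  refine ⟨∑ x ∈ t, |M₀ x|, fun M hM h hh hw => ?_⟩
  have hh2 : IntegrableOn (fun x => h x ^ 2) (ball 0 2) := hh.integrable_sq
  have h0 : 0 ≤ ∫ x in ball 0 2, h x ^ 2 := integral_nonneg fun x => sq_nonneg _
  have hi : ∀ x ∈ t, Integrable ((ball x (δ x)).indicator fun y => h y ^ 2) := fun x hx =>
    (integrable_indicator_iff measurableSet_ball).mpr (hh2.mono_set (hsub x (ht x hx)))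
  have s1 : ∫ x in ball 0 1, h x ^ 2 ≤ ∑ x ∈ t, ∫ y in ball x (δ x), h y ^ 2 := by
    have e : ∑ x ∈ t, ∫ y in ball x (δ x), h y ^ 2 =
        ∫ y, ∑ x ∈ t, (ball x (δ x)).indicator (fun y => h y ^ 2) y := by
      rw [integral_finsetSum _ hi]
      exact Finset.sum_congr rfl fun x _ => (integral_indicator measurableSet_ball).symm
    rw [e, ← integral_indicator measurableSet_ball]
    refine integral_mono ((integrable_indicator_iff measurableSet_ball).mpr
      (hh2.mono_set (ball_subset_ball (by norm_num)))) (integrable_finsetSum _ hi) fun y => ?_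
    have nn : ∀ x ∈ t, 0 ≤ (ball x (δ x)).indicator (fun y => h y ^ 2) y := fun x _ =>
      indicator_nonneg (fun _ _ => sq_nonneg _) y
    by_cases hy : y ∈ ball (0 : E2) 1
    · obtain ⟨x, hx, hyx⟩ := mem_iUnion₂.mp (hcov (ball_subset_closedBall hy))
      have := Finset.single_le_sum nn hx
      rw [indicator_of_mem hyx] at this
      simpa only [indicator_of_mem hy] using this
    · simpa only [indicator_of_notMem hy] using Finset.sum_nonneg nn
  have s2 : ∑ x ∈ t, ∫ y in ball x (δ x), h y ^ 2 ≤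
      t.card • (q / (t.card + 1) * ∫ x in ball 0 2, h x ^ 2) :=
    Finset.sum_le_card_nsmul _ _ _ fun x hx => hM₀ x (ht x hx) M
      (((le_abs_self _).trans (Finset.single_le_sum (f := fun x => |M₀ x|)
        (fun _ _ => abs_nonneg _) hx)).trans hM) h hh hw
  refine s1.trans (s2.trans ?_)
  rw [nsmul_eq_mul, ← mul_assoc]
  refine mul_le_mul_of_nonneg_right ?_ h0
  rw [mul_div_assoc', div_le_iff₀ (by positivity)]
  nlinarith

end Pool.Agent.Lib.MP_356dfe_ag.S
end
end
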