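import Pool.Agent.Lib.MP_356dfe_ag.S.Basic

/-! Euler characteristic of Hilbert complexes. -/

set_option autoImplicit false

open Set Filter Topology Metric MeasureTheory
open scoped ContDiff ComplexConjugate Matrix Pointwise

noncomputable section

namespace Pool.Agent.Lib.MP_356dfe_ag.S

namespace PEul

variable {G F H : Type} [Group G] [Fintype F] [NormedAddCommGroup H] [InnerProductSpace ℝ H]
  [CompleteSpace H] (b : HilbertBasis (G × F) ℝ H)

theorem dim_nn (V : Submodule ℝ H) : 0 ≤ dimG b V := Finset.sum_nonneg fun _ _ => sq_nonneg _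

theorem dim_mono {V W : Submodule ℝ H} (h : V ≤ W.topologicalClosure) : dimG b V ≤ dimG b W := by
  have h' : V.topologicalClosure ≤ W.topologicalClosure :=
    V.topologicalClosure_minimal h W.isClosed_topologicalClosure
  refine Finset.sum_le_sum fun i _ => pow_le_pow_left₀ (norm_nonneg _) ?_ 2
  have := V.topologicalClosure.norm_starProjection_apply_le
    (W.topologicalClosure.starProjection (b (1, i)))
  rwa [← ContinuousLinearMap.comp_apply, Submodule.starProjection_comp_starProjection_of_le h']
    at this

theorem dim_bot : dimG b ⊥ = 0 := Finset.sum_eq_zero fun i _ => by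
  have : (⊥ : Submodule ℝ H).topologicalClosure ≤ ⊥ :=
    Submodule.topologicalClosure_minimal _ le_rfl isClosed_singleton
  rw [(Submodule.mem_bot ℝ).1 (this (Submodule.starProjection_apply_mem _ _)), norm_zero,
    zero_pow two_ne_zero]

end PEul

open PEul in
theorem eul (h : RN) : Eul := by
  intro G F H _ _ _ _ _ b u hu T V k hT hV hc hk h0
  have R := fun q => h G F H b u hu T (V q) hT (hV q)
  have hle : ∀ q, (V q).map T.toLinearMap ≤ V (q + 1) ⊓ LinearMap.ker T.toLinearMap := by
    rintro q _ ⟨x, hx, rfl⟩
    exact hc q x hx
  have hge : ∀ q, Even q → V (q + 1) ⊓ LinearMap.ker T.toLinearMap ≤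
      ((V q).map T.toLinearMap).topologicalClosure := fun q hq x hx => by
    have hcl : ((V q).map T.toLinearMap).topologicalClosure ≤
        V (q + 1) ⊓ LinearMap.ker T.toLinearMap :=
      Submodule.topologicalClosure_minimal _ (hle q) ((hV (q + 1)).1.inter T.isClosed_ker)
    have hm := ((V q).map T.toLinearMap).topologicalClosure.starProjection_apply_mem x
    have h1 := Submodule.sub_mem _ hx (hcl hm)
    have h2 := h0 q hq _ h1.1 h1.2 fun y hy => Submodule.inner_left_of_mem_orthogonal
      (Submodule.le_topologicalClosure _ (Submodule.mem_map_of_mem (f := T.toLinearMap) hy))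
      (((V q).map T.toLinearMap).topologicalClosure.sub_starProjection_mem_orthogonal x)
    rw [sub_eq_zero.1 h2]
    exact hm
  have key : ∀ j, 0 ≤ ∑ q ∈ Finset.range (j + 1), (-1) ^ q * dimG b (V q) -
      (-1) ^ j * dimG b ((V j).map T.toLinearMap) := fun j => by
    induction j with
    | zero =>
      have := dim_nn b (V 0 ⊓ LinearMap.ker T.toLinearMap)
      rw [Finset.sum_range_one, R 0]
      linarith
    | succ j ih =>
      rw [Finset.sum_range_succ, R (j + 1), pow_succ]
      rcases Nat.even_or_odd j with hj | hj
      · have := dim_mono b (hge j hj)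
        rw [hj.neg_one_pow] at ih ⊢
        linarith
      · have := dim_mono b ((hle j).trans (Submodule.le_topologicalClosure _))
        rw [hj.neg_one_pow] at ih ⊢
        linarith
  cases k with
  | zero => exact (Finset.sum_range_zero _).ge
  | succ k =>
    have := key k
    rwa [le_bot_iff.1 (((hle k).trans inf_le_left).trans hk.le), dim_bot, mul_zero, sub_zero]
      at this

end Pool.Agent.Lib.MP_356dfe_ag.S
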