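import Pool.Agent.Lib.MP_356dfe_ag.S.Basic

/-! Positivity of the Fubini and Study form. -/

set_option autoImplicit false

open Set Filter Topology Metric MeasureTheory
open scoped ContDiff ComplexConjugate Matrix Pointwise

noncomputable section

namespace Pool.Agent.Lib.MP_356dfe_ag.S

namespace PFS

variable {ι : Type} [Fintype ι]

/-- the Hermitian product -/
def hp (a b : ι → ℂ) : ℂ := ∑ i, a i * conj (b i)

theorem hp_conj (a b : ι → ℂ) : conj (hp a b) = hp b a := by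
  simp [hp, mul_comm]

theorem hp_self (a : ι → ℂ) : hp a a = ((∑ i, ‖a i‖ ^ 2 : ℝ) : ℂ) := by
  simp [hp, Complex.mul_conj, Complex.normSq_eq_norm_sq]

theorem sq_pos {a : ι → ℂ} (h : a ≠ 0) : 0 < ∑ i, ‖a i‖ ^ 2 := by
  obtain ⟨i, hi⟩ := Function.ne_iff.1 h
  exact Finset.sum_pos' (fun _ _ => by positivity)
    ⟨i, Finset.mem_univ i, pow_pos (norm_pos_iff.2 hi) 2⟩

theorem hp_sub (c d c' d' : ℂ) (a b a' b' : ι → ℂ) :
    hp (c • a - d • b) (c' • a' - d' • b') = c * conj c' * hp a a' - c * conj d' * hp a b' -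
      d * conj c' * hp b a' + d * conj d' * hp b b' := by
  simp only [hp, Finset.mul_sum, ← Finset.sum_sub_distrib, ← Finset.sum_add_distrib]
  refine Finset.sum_congr rfl fun i _ => ?_
  simp only [Pi.sub_apply, Pi.smul_apply, smul_eq_mul, map_sub, map_mul]
  ring

theorem gram {t : Fin 2 → ι → ℂ} (ht : ∀ c d : ℂ, c • t 1 - d • t 0 = 0 → c = 0 ∧ d = 0) {r : ℝ}
    (hr : 0 < r) {g : M2} (hg : ∀ j k, g j k = r * hp (t j) (t k)) : PD g := by
  have h0 : t 0 ≠ 0 := fun e => one_ne_zero (ht 0 1 (by simp [e])).2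
  obtain ⟨A, hA, e0⟩ : ∃ A : ℝ, 0 < A ∧ hp (t 0) (t 0) = A := ⟨_, sq_pos h0, hp_self _⟩
  obtain ⟨C, e1⟩ : ∃ C : ℝ, hp (t 1) (t 1) = C := ⟨_, hp_self _⟩
  have h1 : (A : ℂ) • t 1 - hp (t 1) (t 0) • t 0 ≠ 0 := fun e =>
    hA.ne' (Complex.ofReal_eq_zero.1 (ht _ _ e).1)
  have h2 := hp_self ((A : ℂ) • t 1 - hp (t 1) (t 0) • t 0)
  have h3 := sq_pos h1
  generalize ∑ i, ‖((A : ℂ) • t 1 - hp (t 1) (t 0) • t 0) i‖ ^ 2 = D at h2 h3
  rw [hp_sub, ← hp_conj (t 1) (t 0), e0, e1, Complex.conj_ofReal] at h2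
  have h4 : ((A * (A * C - Complex.normSq (hp (t 1) (t 0))) : ℝ) : ℂ) = D := by
    rw [← h2]; push_cast; rw [← Complex.mul_conj]; ring
  have h5 : 0 < A * C - Complex.normSq (hp (t 1) (t 0)) :=
    (mul_pos_iff_of_pos_left hA).1 ((Complex.ofReal_injective h4).symm ▸ h3)
  refine ⟨Matrix.IsHermitian.ext fun j k => ?_, ?_, ?_⟩
  · rw [hg, hg, Complex.star_def, map_mul, Complex.conj_ofReal, hp_conj]
  · rw [hg, e0, ← Complex.ofReal_mul, Complex.ofReal_re]
    positivity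
  · have h6 : g 0 0 * g 1 1 + g 1 1 * g 0 0 - g 0 1 * g 1 0 - g 1 0 * g 0 1 =
        ((2 * r ^ 2 * (A * C - Complex.normSq (hp (t 1) (t 0))) : ℝ) : ℂ) := by
      simp only [hg]
      rw [← hp_conj (t 1) (t 0), e0, e1]; push_cast; rw [← Complex.mul_conj]; ring
    rw [dt, md, h6, Complex.ofReal_re]
    positivity

theorem fd {f g : E2 → ι → ℂ} {y : E2} (hf : DifferentiableAt ℂ f y) (hg : DifferentiableAt ℂ g y) :
    DifferentiableAt ℝ (fun y => hp (f y) (g y)) y ∧ ∀ v, fderiv ℝ (fun y => hp (f y) (g y)) y v =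
      hp (f y) (fderiv ℂ g y v) + hp (fderiv ℂ f y v) (g y) := by
  have h1 := fun i => (hasFDerivAt_pi'.1 (hf.hasFDerivAt.restrictScalars ℝ) i).mul
    (Complex.conjCLE.toContinuousLinearMap.hasFDerivAt.comp y
      (hasFDerivAt_pi'.1 (hg.hasFDerivAt.restrictScalars ℝ) i))
  have h2 := HasFDerivAt.fun_sum (u := Finset.univ) fun i _ => h1 i
  have h3 : HasFDerivAt (fun y => hp (f y) (g y)) _ y := h2
  refine ⟨h3.differentiableAt, fun v => ?_⟩
  rw [h3.fderiv]
  simp [hp, Finset.sum_add_distrib, mul_comm]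

theorem single_I (j : Fin 2) : (Pi.single j Complex.I : E2) = Complex.I • Pi.single j 1 := by
  rw [← Pi.single_smul, smul_eq_mul, mul_one]

theorem hp_smul (c : ℂ) (a b : ι → ℂ) : hp (c • a) b = c * hp a b ∧ hp a (c • b) = conj c * hp a b := by
  simp [hp, Finset.mul_sum, mul_assoc, mul_left_comm]

theorem dh_hp {f g : E2 → ι → ℂ} {y : E2} (hf : DifferentiableAt ℂ f y)
    (hg : DifferentiableAt ℂ g y) (j : Fin 2) :
    dh (fun y => hp (f y) (g y)) y j = hp (fderiv ℂ f y (Pi.single j 1)) (g y) ∧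
      db (fun y => hp (f y) (g y)) y j = hp (f y) (fderiv ℂ g y (Pi.single j 1)) := by
  rw [dh, db, (fd hf hg).2, (fd hf hg).2, single_I, map_smul, map_smul, (hp_smul _ _ _).1,
    (hp_smul _ _ _).2, Complex.conj_I]
  constructor
  · linear_combination (1 / 2 : ℂ) * (hp (f y) (fderiv ℂ g y (Pi.single j 1)) -
      hp (fderiv ℂ f y (Pi.single j 1)) (g y)) * Complex.I_mul_I
  · linear_combination (-1 / 2 : ℂ) * (hp (f y) (fderiv ℂ g y (Pi.single j 1)) -
      hp (fderiv ℂ f y (Pi.single j 1)) (g y)) * Complex.I_mul_I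

end PFS

open PFS in
theorem fs (hc : Calc) : FS := by
  intro N s x hs h0 hi
  set Q : E2 → ℝ := fun y => ∑ i, ‖s y i‖ ^ 2 with hQ
  have hQs : ∀ y, ((Q y : ℝ) : ℂ) = hp (s y) (s y) := fun y => (hp_self _).symm
  have hQd : ∀ y, DifferentiableAt ℂ s y → DifferentiableAt ℝ Q y := fun y hy => by
    have h1 := Complex.reCLM.differentiableAt.comp y (fd hy hy).1
    refine h1.congr_of_eventuallyEq (Eventually.of_forall fun z => ?_)
    simp [← hQs]
  set a : E2 → E2 := fun y j => hp (fderiv ℂ s y (Pi.single j 1)) (s y) with ha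
  have hdu : ∀ y, DifferentiableAt ℂ s y → du Q y = a y := fun y hy => by
    funext j
    simp only [du, hQs]
    exact (dh_hp hy hy j).1
  have hx := hs.differentiableAt
  have hp0 : 0 < Q x := sq_pos h0
  have h1 : du (fun y => Real.log (Q y)) =ᶠ[𝓝 x] fun y => (Q y)⁻¹ • a y := by
    filter_upwards [hs.eventually_analyticAt,
      (hQd x hx).continuousAt.eventually_ne hp0.ne'] with y k1 k2
    rw [hc.du_chain Real.log Q y (Real.differentiableAt_log k2) (hQd y k1.differentiableAt),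
      Real.deriv_log, hdu y k1.differentiableAt]
  have h2 : ∀ j, DifferentiableAt ℂ (fun y => fderiv ℂ s y (Pi.single j 1)) x := fun j =>
    hs.fderiv.differentiableAt.clm_apply (differentiableAt_const _)
  have h3 : DifferentiableAt ℝ a x := differentiableAt_pi.2 fun j => (fd (h2 j) hx).1
  have h4 : lev (fun y => Real.log (Q y)) x = dba (fun y => (Q y)⁻¹ • a y) x := by
    ext j k
    have : (fun y => du (fun y => Real.log (Q y)) y j) =ᶠ[𝓝 x] fun y => ((Q y)⁻¹ • a y) j :=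
      h1.mono fun y hy => congrFun hy j
    simp only [lev, dba, db, Matrix.of_apply, this.fderiv_eq]
  have h5 : du (fun y => (Q y)⁻¹) x = (-(Q x ^ 2)⁻¹) • a x := by
    rw [hc.du_chain (fun t => t⁻¹) Q x (differentiableAt_inv hp0.ne') (hQd x hx), deriv_inv,
      hdu x hx]
  rw [h4, hc.dba_smul (fun y => (Q y)⁻¹) a x ((hQd x hx).inv hp0.ne') h3, h5]
  have hq : ((Q x : ℝ) : ℂ) ≠ 0 := Complex.ofReal_ne_zero.2 hp0.ne'
  refine gram (t := fun j => (1 : ℂ) • fderiv ℂ s x (Pi.single j 1) - (a x j / Q x) • s x)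
    (fun c d e => ?_) (inv_pos.2 hp0) fun j k => ?_
  · have h6 := hi (c • Pi.single 1 1 - d • Pi.single 0 1)
      (c * (a x 1 / Q x) - d * (a x 0 / Q x)) (by
        rw [map_sub, map_smul, map_smul, ← sub_eq_zero, ← e]
        module)
    exact ⟨by simpa using congrFun h6 1, by simpa using congrFun h6 0⟩
  · have h6 : dba a x j k = hp (fderiv ℂ s x (Pi.single j 1)) (fderiv ℂ s x (Pi.single k 1)) :=
      (dh_hp (h2 j) hx k).2
    have h7 : hp (s x) (fderiv ℂ s x (Pi.single k 1)) = conj (a x k) := (hp_conj _ _).symm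
    have h8 : hp (fderiv ℂ s x (Pi.single j 1)) (s x) = a x j := rfl
    rw [hp_sub, ← h6, h7, h8, ← hQs, ot_smul]
    simp only [Matrix.add_apply, Matrix.smul_apply, ot, Matrix.of_apply, Complex.real_smul,
      map_one, map_div₀, Complex.conj_ofReal]
    push_cast
    field_simp
    ring

end Pool.Agent.Lib.MP_356dfe_ag.S
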