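import Pool.Agent.Lib.MP_356dfe_ag.S.Basic

-- part Pool.Agent.Lib.MP_356dfe_ag.S.PKos
section

/-! Exactness of the Koszul complex. -/

set_option autoImplicit false

open Set Filter Topology Metric MeasureTheory
open scoped ContDiff ComplexConjugate Matrix Pointwise

noncomputable section

namespace Pool.Agent.Lib.MP_356dfe_ag.S

namespace PKos

/-- the sign of `j` in `S` -/
def sn (j : Fin 4) (S : Finset (Fin 4)) : ℤ := (-1) ^ (S.filter fun i => i < j).card

theorem sn_a : ∀ (t j : Fin 4) (S : Finset (Fin 4)), t ∉ S → j ∈ S →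
    sn j S * sn t (S.erase j) = -(sn t S * sn j (insert t S)) := by decide

theorem sn_b : ∀ (t : Fin 4) (S : Finset (Fin 4)), sn t S * sn t (S.erase t) = 1 := by decide

theorem sn_c : ∀ (t : Fin 4) (S : Finset (Fin 4)), sn t S * sn t (insert t S) = 1 := by decide

variable {R : Type} [AddCommGroup R] {D H P : Fin 4 → R →+ R}

/-- the projection in one variable -/
def pr (P : Fin 4 → R →+ R) (t : Fin 4) (η : Finset (Fin 4) → R) (S : Finset (Fin 4)) : R :=
  if t ∈ S then P t (η S) else 0

/-- the homotopy in one variable -/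
def ho (H : Fin 4 → R →+ R) (t : Fin 4) (η : Finset (Fin 4) → R) (S : Finset (Fin 4)) : R :=
  if t ∈ S then 0 else sn t S • H t (η (insert t S))

theorem dK_eq (η : Finset (Fin 4) → R) (S : Finset (Fin 4)) :
    dK D η S = ∑ j ∈ S, sn j S • D j (η (S.erase j)) := rfl

theorem coc (h : Kz D H P) {η : Finset (Fin 4) → R} (hη : ∀ S, dK D η S = 0) (t : Fin 4)
    (S : Finset (Fin 4)) : dK D (pr P t η) S = 0 := by
  by_cases ht : t ∈ S
  · rw [← map_zero (P t), ← hη S, dK_eq, dK_eq, map_sum]
    refine Finset.sum_congr rfl fun j _ => ?_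
    rw [map_zsmul, pr]
    by_cases e : j = t
    · rw [e, if_neg (Finset.notMem_erase t S), map_zero, h.pd]
    · rw [if_pos (Finset.mem_erase.2 ⟨Ne.symm e, ht⟩), h.dp j t _ e]
  · refine Finset.sum_eq_zero fun j _ => ?_
    rw [pr, if_neg fun h' => ht (Finset.mem_of_mem_erase h'), map_zero, smul_zero]

theorem hom (h : Kz D H P) {η : Finset (Fin 4) → R} (hη : ∀ S, dK D η S = 0) (t : Fin 4)
    (S : Finset (Fin 4)) : dK D (ho H t η) S = η S - pr P t η S := by
  rw [dK_eq, pr]
  by_cases ht : t ∈ S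
  · rw [if_pos ht, Finset.sum_eq_single_of_mem t ht, ho, if_neg (Finset.notMem_erase t S),
      map_zsmul, smul_smul, sn_b, one_smul, Finset.insert_erase ht, h.dh]
    intro j _ e
    rw [ho, if_pos (Finset.mem_erase.2 ⟨Ne.symm e, ht⟩), map_zero, smul_zero]
  · have h1 := congrArg (fun x => sn t S • H t x) (hη (insert t S))
    simp only [dK_eq, Finset.sum_insert ht, map_add, map_sum, map_zsmul, smul_add, Finset.smul_sum,
      smul_smul, sn_c, one_smul, Finset.erase_insert ht, h.hd, map_zero, smul_zero] at h1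
    rw [if_neg ht, sub_zero, eq_neg_of_add_eq_zero_left h1, ← Finset.sum_neg_distrib]
    refine Finset.sum_congr rfl fun j hj => ?_
    have e : j ≠ t := fun e => ht (e ▸ hj)
    rw [ho, if_neg fun h' => ht (Finset.mem_of_mem_erase h'), map_zsmul, smul_smul,
      sn_a t j S ht hj, neg_smul, h.dh' j t _ e, Finset.erase_insert_of_ne e.symm]

theorem step (h : Kz D H P) {η : Finset (Fin 4) → R} (hη : ∀ S, dK D η S = 0) (t : Fin 4)
    (h' : ∃ ζ, ∀ S, dK D ζ S = pr P t η S) : ∃ ζ, ∀ S, dK D ζ S = η S := by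
  obtain ⟨ζ, hζ⟩ := h'
  refine ⟨ho H t η + ζ, fun S => ?_⟩
  rw [← sub_add_cancel (η S) (pr P t η S), ← hom h hη, ← hζ]
  simp only [dK_eq, Pi.add_apply, map_add, smul_add, Finset.sum_add_distrib]

end PKos

open PKos in
theorem kos : Kos := by
  intro R _ D H P h η hη h0
  have h3 := coc h hη 3
  have h2 := coc h h3 2
  have h1 := coc h h2 1
  refine step h hη 3 (step h h3 2 (step h h2 1 (step h h1 0 ⟨0, fun S => ?_⟩)))
  have e : ∀ S : Finset (Fin 4), 0 ∈ S → 1 ∈ S → 2 ∈ S → 3 ∈ S → S = Finset.univ := by decide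
  have : dK D 0 S = 0 := by simp [dK_eq]
  rw [this]
  simp only [pr]
  split_ifs with a b c d
  · rw [e S a b c d, h0]
  all_goals simp

end Pool.Agent.Lib.MP_356dfe_ag.S
end
end

-- part Pool.Agent.Lib.MP_356dfe_ag.S.PFibi
section

/-! Integration along lines. -/

set_option autoImplicit false

open Set Filter Topology Metric MeasureTheory
open scoped ContDiff ComplexConjugate Matrix Pointwise

noncomputable section

namespace Pool.Agent.Lib.MP_356dfe_ag.S

namespace PFibi

/-- the coordinate functionals -/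
def cl : Fin 4 → E2 →L[ℝ] ℝ :=
  ![Complex.reCLM.comp (ContinuousLinearMap.proj 0), Complex.imCLM.comp (ContinuousLinearMap.proj 0),
    Complex.reCLM.comp (ContinuousLinearMap.proj 1), Complex.imCLM.comp (ContinuousLinearMap.proj 1)]

theorem cl_self (i : Fin 4) : cl i (bv i) = 1 := by fin_cases i <;> simp [cl, bv]

theorem cl_ne {i j : Fin 4} (h : i ≠ j) : cl i (bv j) = 0 := by
  fin_cases i <;> fin_cases j <;> first | exact absurd rfl h | simp [cl, bv]

theorem eq_bv (x : E2) :
    x = 0 + cl 0 x • bv 0 + cl 1 x • bv 1 + cl 2 x • bv 2 + cl 3 x • bv 3 := by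
  ext k
  fin_cases k <;> apply Complex.ext <;> simp [cl, bv]

/-- a bump on the line -/
def bb : ContDiffBump (0 : ℝ) := ⟨1, 2, one_pos, one_lt_two⟩

/-- the bump with integral one -/
def be : ℝ → ℝ := bb.normed volume

theorem be_sm : ContDiff ℝ ∞ be := bb.contDiff_normed

theorem be_int : ∫ t, be t = 1 := bb.integral_normed

theorem be_nn (t : ℝ) : 0 ≤ be t := bb.nonneg_normed t

theorem be_ne {t : ℝ} : be t ≠ 0 ↔ |t| < 2 := by
  have h : t ∈ Function.support be ↔ t ∈ ball (0 : ℝ) 2 := by
    rw [be, bb.support_normed_eq]; rfl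
  simpa using h

/-- the integral over the whole line -/
def Q (i : Fin 4) (u : E2 → ℝ) (x : E2) : ℝ := ∫ t : ℝ, u (x + t • bv i)

/-- the integral over the half line -/
def J (i : Fin 4) (u : E2 → ℝ) (x : E2) : ℝ := ∫ t in Iic (0 : ℝ), u (x + t • bv i)

/-- invariance under translations along a basis vector -/
def Inv (i : Fin 4) (g : E2 → ℝ) : Prop := ∀ x (s : ℝ), g (x + s • bv i) = g x

theorem cl_line (i : Fin 4) (x : E2) (t : ℝ) : cl i (x + t • bv i) = cl i x + t := by
  rw [map_add, map_smul, cl_self, smul_eq_mul, mul_one]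

theorem cl_line' {i j : Fin 4} (h : i ≠ j) (x : E2) (t : ℝ) : cl i (x + t • bv j) = cl i x := by
  rw [map_add, map_smul, cl_ne h, smul_zero, add_zero]

theorem bd_of {u : E2 → ℝ} (h : HasCompactSupport u) : ∃ M, ∀ x, u x ≠ 0 → ‖x‖ ≤ M := by
  obtain ⟨M, hM⟩ := h.isCompact.isBounded.exists_norm_le
  exact ⟨M, fun x hx => hM x (subset_tsupport _ hx)⟩

theorem cs_of {u : E2 → ℝ} {M : ℝ} (h : ∀ x, u x ≠ 0 → ‖x‖ ≤ M) : HasCompactSupport u :=
  HasCompactSupport.intro (isCompact_closedBall 0 M) fun x hx => by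
    by_contra h'
    exact hx (mem_closedBall_zero_iff.2 (h x h'))

theorem abs_le_of {i : Fin 4} {x : E2} {t M : ℝ} (h : ‖x + t • bv i‖ ≤ M) :
    |cl i x + t| ≤ ‖cl i‖ * M := by
  rw [← cl_line]
  exact ((cl i).le_opNorm _).trans (mul_le_mul_of_nonneg_left h (norm_nonneg _))

theorem norm_le_of {i : Fin 4} {x : E2} {t M r : ℝ} (h : ‖x + t • bv i‖ ≤ M) (hr : |cl i x| ≤ r) :
    ‖x‖ ≤ M + (‖cl i‖ * M + r) * ‖bv i‖ := by
  have h1 := abs_le_of h
  have h2 : |t| ≤ ‖cl i‖ * M + r := by
    have := abs_sub (cl i x + t) (cl i x)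
    rw [add_sub_cancel_left] at this
    linarith
  have h3 : ‖x‖ ≤ ‖x + t • bv i‖ + ‖t • bv i‖ := by
    simpa using norm_sub_le (x + t • bv i) (t • bv i)
  rw [norm_smul, Real.norm_eq_abs] at h3
  have := mul_le_mul_of_nonneg_right h2 (norm_nonneg (bv i))
  linarith

theorem line_sm {u : E2 → ℝ} (h : CS u) (i : Fin 4) (x : E2) :
    ContDiff ℝ ∞ fun t : ℝ => u (x + t • bv i) :=
  h.1.comp (contDiff_const.add (contDiff_id.smul contDiff_const))

theorem line_cs {u : E2 → ℝ} (h : CS u) (i : Fin 4) (x : E2) :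
    HasCompactSupport fun t : ℝ => u (x + t • bv i) := by
  obtain ⟨M, hM⟩ := bd_of h.2
  refine HasCompactSupport.intro (isCompact_closedBall 0 (‖cl i‖ * M + |cl i x|)) fun t ht => ?_
  by_contra h'
  refine ht (mem_closedBall_zero_iff.2 ?_)
  have h1 := abs_le_of (hM _ h')
  have := abs_sub (cl i x + t) (cl i x)
  rw [add_sub_cancel_left] at this
  rw [Real.norm_eq_abs]
  linarith

theorem line_int {u : E2 → ℝ} (h : CS u) (i : Fin 4) (x : E2) :
    Integrable fun t : ℝ => u (x + t • bv i) :=
  (line_sm h i x).continuous.integrable_of_hasCompactSupport (line_cs h i x)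

theorem line_der {u : E2 → ℝ} (h : Differentiable ℝ u) (i : Fin 4) (x : E2) (t : ℝ) :
    HasDerivAt (fun t : ℝ => u (x + t • bv i)) (gr u (x + t • bv i) i) t := by
  have h1 : HasDerivAt (fun t : ℝ => x + t • bv i) (bv i) t := by
    simpa using ((hasDerivAt_id t).smul_const (bv i)).const_add x
  exact (h _).hasFDerivAt.comp_hasDerivAt t h1

theorem sm_int {u : E2 → ℝ} (h : CS u) (i : Fin 4) {κ : ℝ → ℝ} (hκ : LocallyIntegrable κ) :
    ContDiff ℝ ∞ fun x => ∫ t, κ t * u (x + t • bv i) := by
  obtain ⟨M, hM⟩ := bd_of h.2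
  refine contDiff_iff_contDiffAt.2 fun x₀ => ?_
  have key := contDiffOn_convolution_right_with_param_comp (n := ⊤) (μ := volume)
    (ContinuousLinearMap.mul ℝ ℝ) (s := ball (0 : E2) (‖x₀‖ + 1)) (v := fun _ => (0 : ℝ))
    contDiffOn_const (f := κ) (g := fun p t => u (p + (-t) • bv i))
    (k := closedBall 0 (‖cl i‖ * M + ‖cl i‖ * (‖x₀‖ + 1))) isOpen_ball (isCompact_closedBall _ _)
    (fun p t hp ht => by
      by_contra h'
      refine ht (mem_closedBall_zero_iff.2 ?_)
      have h1 := abs_le_of (hM _ h')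
      have h2 : |cl i p| ≤ ‖cl i‖ * (‖x₀‖ + 1) := ((cl i).le_opNorm _).trans
        (mul_le_mul_of_nonneg_left (mem_ball_zero_iff.1 hp).le (norm_nonneg _))
      have := abs_sub (cl i p + -t) (cl i p)
      rw [add_sub_cancel_left, abs_neg] at this
      rw [Real.norm_eq_abs]
      linarith) hκ
    (h.1.comp (contDiff_fst.add (contDiff_snd.neg.smul contDiff_const))).contDiffOn
  have h2 := key.contDiffAt (isOpen_ball.mem_nhds (mem_ball_zero_iff.2 (lt_add_one ‖x₀‖)))
  simpa [convolution] using h2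

theorem Q_sm {u : E2 → ℝ} (h : CS u) (i : Fin 4) : ContDiff ℝ ∞ (Q i u) := by
  have := sm_int h i (locallyIntegrable_const (1 : ℝ))
  simp only [one_mul] at this
  exact this

theorem J_sm {u : E2 → ℝ} (h : CS u) (i : Fin 4) : ContDiff ℝ ∞ (J i u) := by
  have := sm_int h i ((locallyIntegrable_const (1 : ℝ)).indicator (measurableSet_Iic (a := (0 : ℝ))))
  convert this using 2 with x
  rw [J, ← integral_indicator measurableSet_Iic]
  refine integral_congr_ae (Eventually.of_forall fun t => ?_)
  by_cases ht : t ∈ Iic (0 : ℝ) <;> simp [ht]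

theorem Q_inv (i : Fin 4) (u : E2 → ℝ) : Inv i (Q i u) := fun x s => by
  rw [Q, Q, ← integral_add_left_eq_self (fun t : ℝ => u (x + t • bv i)) s]
  simp only [add_smul, add_assoc]

theorem Inv.Q {j : Fin 4} {g : E2 → ℝ} (h : Inv j g) (i : Fin 4) : Inv j (Q i g) := fun x s => by
  simp only [PFibi.Q, add_right_comm x (s • bv j), h _ s]

theorem Inv.be {i j : Fin 4} (h : i ≠ j) : Inv j fun x => be (cl i x) := fun x s => by
  simp only [cl_line' h]

theorem Inv.mul {j : Fin 4} {f g : E2 → ℝ} (h : Inv j f) (h' : Inv j g) :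
    Inv j fun x => f x * g x := fun x s => by simp only [h x s, h' x s]

theorem Inv.gr {j : Fin 4} {g : E2 → ℝ} (h : Inv j g) (i : Fin 4) : Inv j fun x => gr g x i :=
  fun x s => by
    have e : (fun y => g (y + s • bv j)) = g := funext fun y => h y s
    simp only [S.gr]
    rw [← fderiv_comp_add_right, e]

theorem Q_mul {i : Fin 4} {g : E2 → ℝ} (h : Inv i g) (u : E2 → ℝ) (x : E2) :
    Q i (fun y => g y * u y) x = g x * Q i u x := by
  simp only [Q, h x, integral_const_mul]

theorem Q_be (i : Fin 4) (x : E2) : Q i (fun y => be (cl i y)) x = 1 := by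
  simp only [Q, cl_line]
  rw [integral_add_left_eq_self be, be_int]

/-- the projection -/
def P (i : Fin 4) (u : E2 → ℝ) (x : E2) : ℝ := be (cl i x) * Q i u x

theorem P_fix {i : Fin 4} {g : E2 → ℝ} (h : Inv i g) :
    P i (fun x => be (cl i x) * g x) = fun x => be (cl i x) * g x := by
  funext x
  simp only [P, mul_comm (be _) (g _), Q_mul h, Q_be, mul_one]

theorem P_cs {u : E2 → ℝ} (h : CS u) (i : Fin 4) : CS (P i u) := by
  obtain ⟨M, hM⟩ := bd_of h.2
  refine ⟨(be_sm.comp (cl i).contDiff).mul (Q_sm h i),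
    cs_of (M := M + (‖cl i‖ * M + 2) * ‖bv i‖) fun x hx => ?_⟩
  obtain ⟨h1, h2⟩ := mul_ne_zero_iff.1 hx
  obtain ⟨t, ht⟩ : ∃ t : ℝ, u (x + t • bv i) ≠ 0 := by
    by_contra h3
    push Not at h3
    simp [Q, h3] at h2
  exact norm_le_of (hM _ ht) (be_ne.1 h1).le

theorem J_cs {u : E2 → ℝ} (h : CS u) {i : Fin 4} (h0 : ∀ x, Q i u x = 0) : CS (J i u) := by
  obtain ⟨M, hM⟩ := bd_of h.2
  refine ⟨J_sm h i, cs_of (M := M + (‖cl i‖ * M + ‖cl i‖ * M) * ‖bv i‖) fun x hx => ?_⟩
  obtain ⟨t, ht0, ht⟩ : ∃ t : ℝ, t ≤ 0 ∧ u (x + t • bv i) ≠ 0 := by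
    by_contra h3
    push Not at h3
    exact hx (setIntegral_eq_zero_of_forall_eq_zero h3)
  obtain ⟨s, hs0, hs⟩ : ∃ s : ℝ, 0 < s ∧ u (x + s • bv i) ≠ 0 := by
    by_contra h3
    push Not at h3
    have h4 := intervalIntegral.integral_Iic_add_Ioi (b := 0) (line_int h i x).integrableOn
      (line_int h i x).integrableOn
    rw [setIntegral_eq_zero_of_forall_eq_zero (t := Ioi 0) h3, add_zero] at h4
    exact hx (h4.trans (h0 x))
  have h1 := abs_le.1 (abs_le_of (hM _ ht))
  have h2 := abs_le.1 (abs_le_of (hM _ hs))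
  exact norm_le_of (hM _ ht) (abs_le.2 ⟨by linarith [h1.1], by linarith [h2.2]⟩)

theorem Q_sub_P {u : E2 → ℝ} (h : CS u) (i : Fin 4) (x : E2) : Q i (u - P i u) x = 0 := by
  have h1 : Q i (P i u) x = Q i u x := by
    have := Q_mul (Q_inv i u) (fun y => be (cl i y)) x
    rw [Q_be, mul_one] at this
    rw [← this]
    congr 1
    funext y
    exact mul_comm _ _
  rw [← sub_self (Q i u x)]
  nth_rewrite 2 [← h1]
  exact integral_sub (line_int h i x) (line_int (P_cs h i) i x)

theorem gr_J {u : E2 → ℝ} (h : CS u) (i : Fin 4) (x : E2) : gr (J i u) x i = u x := by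
  have h1 := line_der ((J_sm h i).differentiable (by simp)) i x 0
  have e : (fun s : ℝ => J i u (x + s • bv i)) =
      fun s => J i u x + ∫ t in (0 : ℝ)..s, u (x + t • bv i) := by
    funext s
    rw [← intervalIntegral.integral_Iic_sub_Iic (line_int h i x).integrableOn
      (line_int h i x).integrableOn, J, J, add_sub_cancel, ← integral_indicator measurableSet_Iic,
      ← integral_indicator measurableSet_Iic,
      ← integral_add_left_eq_self ((Iic s).indicator fun t : ℝ => u (x + t • bv i)) s]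
    refine integral_congr_ae (Eventually.of_forall fun t => ?_)
    by_cases ht : t ≤ 0 <;> simp [ht, add_smul, add_assoc]
  have h2 := ((line_sm h i x).continuous.integral_hasStrictDerivAt 0 0).hasDerivAt.const_add
    (J i u x)
  rw [e] at h1
  simpa using h1.unique h2

theorem gr_cs {u : E2 → ℝ} (h : CS u) (i : Fin 4) : CS fun x => gr u x i :=
  ⟨(h.1.fderiv_right (m := ∞) le_rfl).clm_apply contDiff_const, h.2.fderiv_apply ℝ (bv i)⟩

theorem Q_gr {u : E2 → ℝ} (h : CS u) (i : Fin 4) (x : E2) : Q i (fun y => gr u y i) x = 0 :=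
  integral_eq_zero_of_hasDerivAt_of_integrable (line_der (h.1.differentiable (by simp)) i x)
    (line_int (gr_cs h i) i x) (line_int h i x)

theorem J_gr {u : E2 → ℝ} (h : CS u) (i : Fin 4) (x : E2) : J i (fun y => gr u y i) x = u x := by
  have := (line_cs h i x).integral_Iic_deriv_eq ((line_sm h i x).of_le (by simp)) 0
  simp only [funext fun t => (line_der (h.1.differentiable (by simp)) i x t).deriv] at this
  simpa [J] using this

theorem int_gr {u : E2 → ℝ} (h : CS u) (i : Fin 4) : ∫ x, gr u x i = 0 := by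
  have := integral_mul_fderiv_eq_neg_fderiv_mul_of_integrable (μ := (volume : Measure E2))
    (f := fun _ => (1 : ℝ)) (g := u) (v := bv i) (by simp)
    (by simpa [gr] using (gr_cs h i).1.continuous.integrable_of_hasCompactSupport (gr_cs h i).2)
    (by simpa using h.1.continuous.integrable_of_hasCompactSupport h.2)
    (fun _ _ => differentiableAt_const _) fun x _ => h.1.differentiable (by simp) x
  simpa [gr] using this

theorem gr_gr {u : E2 → ℝ} (h : CS u) (i j : Fin 4) (x : E2) :
    gr (fun y => gr u y j) x i = gr (fun y => gr u y i) x j := by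
  have hd : DifferentiableAt ℝ (fderiv ℝ u) x :=
    (h.1.fderiv_right (m := ∞) le_rfl).differentiable (by simp) x
  have e : ∀ a b, gr (fun y => gr u y a) x b = fderiv ℝ (fderiv ℝ u) x (bv b) (bv a) := fun a b => by
    simp only [gr]
    rw [fderiv_clm_apply hd (differentiableAt_const _)]
    simp
  rw [e, e]
  exact (h.1.contDiffAt.isSymmSndFDerivAt (by
    rw [minSmoothness_of_isRCLikeNormedField]; exact WithTop.coe_le_coe.2 le_top)).eq _ _

theorem gr_P {u : E2 → ℝ} (h : CS u) {i j : Fin 4} (hij : i ≠ j) (x : E2) :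
    gr (P j u) x i = be (cl j x) * gr (Q j u) x i := by
  have h1 := line_der ((P_cs h j).1.differentiable (by simp)) i x 0
  have h2 := (line_der ((Q_sm h j).differentiable (by simp)) i x 0).const_mul (be (cl j x))
  simp only [P, cl_line' hij.symm] at h1
  simpa using h1.unique h2

/-- the derivative -/
def Dm (i : Fin 4) : CSm →+ CSm where
  toFun u := ⟨fun x => gr u.1 x i, gr_cs u.2 i⟩
  map_zero' := Subtype.ext (funext fun x => by simp [gr])
  map_add' u w := Subtype.ext (funext fun x => by
    simp only [gr, Submodule.coe_add, Pi.add_apply]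
    rw [fderiv_add (u.2.1.differentiable (by simp) x) (w.2.1.differentiable (by simp) x)]
    rfl)

/-- the projection -/
def Pm (i : Fin 4) : CSm →+ CSm where
  toFun u := ⟨P i u.1, P_cs u.2 i⟩
  map_zero' := Subtype.ext (funext fun x => by simp [P, Q])
  map_add' u w := Subtype.ext (funext fun x => by
    simp only [P, Q, Submodule.coe_add, Pi.add_apply]
    rw [integral_add (line_int u.2 i x) (line_int w.2 i x), mul_add])

/-- the homotopy -/
def Hm (i : Fin 4) : CSm →+ CSm where
  toFun u := ⟨J i (u - Pm i u).1, J_cs (u - Pm i u).2 (Q_sub_P u.2 i)⟩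
  map_zero' := Subtype.ext (funext fun x => by simp [J])
  map_add' u w := Subtype.ext (funext fun x => by
    have e : u + w - Pm i (u + w) = (u - Pm i u) + (w - Pm i w) := by rw [map_add]; abel
    simp only [e, J, Submodule.coe_add, Pi.add_apply]
    exact integral_add (line_int (u - Pm i u).2 i x).integrableOn
      (line_int (w - Pm i w).2 i x).integrableOn)

theorem dh (i : Fin 4) (u : CSm) : Dm i (Hm i u) = u - Pm i u :=
  Subtype.ext (funext fun x => gr_J (u - Pm i u).2 i x)

theorem pd (i : Fin 4) (u : CSm) : Pm i (Dm i u) = 0 :=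
  Subtype.ext (funext fun x => (congrArg (be (cl i x) * ·) (Q_gr u.2 i x)).trans (mul_zero _))

theorem hd (i : Fin 4) (u : CSm) : Hm i (Dm i u) = u := Subtype.ext (funext fun x => by
  change J i (Dm i u - Pm i (Dm i u)).1 x = _
  rw [pd, sub_zero]
  exact J_gr u.2 i x)

theorem dd (i j : Fin 4) (u : CSm) : Dm i (Dm j u) = Dm j (Dm i u) :=
  Subtype.ext (funext fun x => gr_gr u.2 i j x)

theorem fix {i : Fin 4} {u : CSm} {g : E2 → ℝ} (h : Inv i g) (e : ∀ x, u.1 x = be (cl i x) * g x) :
    Pm i u = u := Subtype.ext (by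
  change P i u.1 = u.1
  rw [funext e]
  exact P_fix h)

theorem split (i : Fin 4) (u : CSm) : u = Dm i (Hm i u) + Pm i u := by rw [dh, sub_add_cancel]

theorem dp {i j : Fin 4} (h : i ≠ j) (u : CSm) : Dm i (Pm j u) = Pm j (Dm i u) := by
  conv_rhs => rw [split j u, map_add, dd, map_add, pd, zero_add]
  exact (fix ((Q_inv j u.1).gr i) (gr_P u.2 h)).symm

theorem pp (i j : Fin 4) (u : CSm) : Pm i (Pm j u) = Pm j (Pm i u) := by
  by_cases h : i = j
  · rw [h]
  conv_lhs => rw [split i u, map_add, ← dp h, map_add, pd, zero_add]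
  refine fix (g := fun x => be (cl j x) * Q j (Q i u.1) x)
    ((Inv.be (Ne.symm h)).mul ((Q_inv i u.1).Q j)) fun x => ?_
  change be (cl j x) * Q j (fun y => be (cl i y) * Q i u.1 y) x = _
  rw [Q_mul (Inv.be h)]
  ring

theorem inj (i : Fin 4) {u w : CSm} (h : Dm i u = Dm i w) : u = w := by
  rw [← hd i u, h, hd]

theorem kz : Kz Dm Hm Pm where
  dh := dh
  hd := hd
  pd := pd
  dd := dd
  dh' i j u h := inj j (by rw [dd, dh, dh, map_sub, dp h])
  dp i j u h := dp h u
  hp i j u h := inj i (by rw [dh, dp h, dh, map_sub, pp])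
  pp := pp

theorem int_P (i : Fin 4) (u : CSm) : ∫ x, (Pm i u).1 x = ∫ x, u.1 x := by
  have I : ∀ w : CSm, Integrable w.1 := fun w =>
    w.2.1.continuous.integrable_of_hasCompactSupport w.2.2
  conv_rhs => rw [split i u]
  simp only [Submodule.coe_add, Pi.add_apply]
  rw [integral_add (I _) (I _)]
  exact ((congrArg (· + _) (int_gr (Hm i u).2 i)).trans (zero_add _)).symm

theorem pppp (u : CSm) : ∃ c : ℝ, ∀ x, (Pm 0 (Pm 1 (Pm 2 (Pm 3 u)))).1 x =
    c * (be (cl 0 x) * (be (cl 1 x) * (be (cl 2 x) * be (cl 3 x)))) := by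
  have e : ∀ {i j : Fin 4}, j ≠ i → ∀ g : E2 → ℝ,
      Q i (fun y => be (cl j y) * g y) = fun x => be (cl j x) * Q i g x :=
    fun h g => funext (Q_mul (Inv.be h) g)
  refine ⟨Q 0 (Q 1 (Q 2 (Q 3 u.1))) 0, fun x => ?_⟩
  have h0 : Q 0 (Q 1 (Q 2 (Q 3 u.1))) x = Q 0 (Q 1 (Q 2 (Q 3 u.1))) 0 := by
    conv_lhs => rw [eq_bv x]
    rw [(((Q_inv 3 u.1).Q 2).Q 1).Q 0, ((Q_inv 2 _).Q 1).Q 0, (Q_inv 1 _).Q 0, Q_inv 0]
  change be (cl 0 x) * Q 0 (fun x => be (cl 1 x) * Q 1 (fun x => be (cl 2 x) *
    Q 2 (fun x => be (cl 3 x) * Q 3 u.1 x) x) x) x = _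
  rw [e (i := 2) (j := 3) (by decide), e (i := 1) (j := 2) (by decide),
    e (i := 1) (j := 3) (by decide), e (i := 0) (j := 1) (by decide),
    e (i := 0) (j := 2) (by decide), e (i := 0) (j := 3) (by decide), ← h0]
  ring

end PFibi

open PFibi in
theorem fibi : Fibi := by
  refine ⟨Dm, Hm, Pm, kz, fun _ _ _ => rfl, fun u hu => ?_⟩
  obtain ⟨c, hc⟩ := pppp u
  rw [← int_P 3, ← int_P 2, ← int_P 1, ← int_P 0] at hu
  set w := Pm 0 (Pm 1 (Pm 2 (Pm 3 u)))
  by_cases h0 : c = 0
  · exact Subtype.ext (funext fun x => by rw [hc, h0, zero_mul]; rfl)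
  exfalso
  have h1 : 0 < ∫ x, c * w.1 x := by
    refine (continuous_const.mul w.2.1.continuous).integral_pos_of_hasCompactSupport_nonneg_nonzero
      w.2.2.mul_left (fun x => ?_) (x := 0) ?_
    · rw [hc, ← mul_assoc]
      exact mul_nonneg (mul_self_nonneg c) (mul_nonneg (be_nn _) (mul_nonneg (be_nn _)
        (mul_nonneg (be_nn _) (be_nn _))))
    · have : be 0 ≠ 0 := be_ne.2 (by simp)
      simp [hc, h0, this]
  rw [integral_const_mul, hu, mul_zero] at h1
  exact lt_irrefl _ h1

end Pool.Agent.Lib.MP_356dfe_ag.S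
end
end

-- part Pool.Agent.Lib.MP_356dfe_ag.S.PFpl
section

/-! Poincare lemma with compact supports. -/

set_option autoImplicit false

open Set Filter Topology Metric MeasureTheory
open scoped ContDiff ComplexConjugate Matrix Pointwise

noncomputable section

namespace Pool.Agent.Lib.MP_356dfe_ag.S

namespace PFpl

/-- the increasing list of the elements of `S` -/
def lst (S : Finset (Fin 4)) : List (Fin 4) := (List.finRange 4).filter (· ∈ S)

/-- the basis vectors -/
def ee (j : Fin 4) : Fin 4 → ℝ := Pi.single j 1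

/-- the basis vectors with index in `S` -/
def eS (S : Finset (Fin 4)) : List (Fin 4 → ℝ) := (lst S).map ee

/-- the sign of `j` in `S` -/
def sn (j : Fin 4) (S : Finset (Fin 4)) : ℝ := (-1) ^ (S.filter fun i => i < j).card

theorem lst_len : ∀ S : Finset (Fin 4), (lst S).length = S.card := by decide

theorem lst_split : ∀ (j : Fin 4) (S : Finset (Fin 4)), j ∉ S →
    lst S = lst (S.filter fun i => i < j) ++ lst (S.filter fun i => j < i) ∧
    lst (insert j S) = lst (S.filter fun i => i < j) ++ j :: lst (S.filter fun i => j < i) := by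
  decide

theorem eS_len (S : Finset (Fin 4)) : (eS S).length = S.card := by
  rw [eS, List.length_map, lst_len]

theorem sn_ne (j : Fin 4) (S : Finset (Fin 4)) : sn j S ≠ 0 := pow_ne_zero _ (by norm_num)

theorem sn_erase (j : Fin 4) (S : Finset (Fin 4)) : sn j (S.erase j) = sn j S := by
  unfold sn
  congr 2
  ext i
  simp only [Finset.mem_filter, Finset.mem_erase]
  exact ⟨fun h => ⟨h.1.2, h.2⟩, fun h => ⟨⟨h.2.ne, h.1⟩, h.2⟩⟩

theorem key_not (A : List (Fin 4 → ℝ)) {j : Fin 4} {S : Finset (Fin 4)} (h : j ∉ S) :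
    det4 (A ++ ee j :: eS S) = sn j S * det4 (A ++ eS (insert j S)) := by
  obtain ⟨h1, h2⟩ := lst_split j S h
  rw [eS, eS, h1, h2, List.map_append, List.map_append, det4_move, List.length_map, lst_len,
    List.map_cons, List.append_assoc, sn]

theorem key_mem (A : List (Fin 4 → ℝ)) {j : Fin 4} {S : Finset (Fin 4)} (h : j ∈ S) :
    det4 (A ++ ee j :: eS S) = 0 := by
  obtain ⟨-, h2⟩ := lst_split j (S.erase j) (Finset.notMem_erase j S)
  rw [Finset.insert_erase h] at h2
  rw [eS, h2, List.map_append, det4_move, List.map_cons, det4_dup, mul_zero]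

theorem reidx (A : List (Fin 4 → ℝ)) (c : Finset (Fin 4) → Fin 4 → ℝ) :
    ∑ S, det4 (A ++ c S :: eS S) =
      ∑ S, (∑ j ∈ S, sn j S * c (S.erase j) j) * det4 (A ++ eS S) := by
  have h1 : ∀ S, det4 (A ++ c S :: eS S) = ∑ j, c S j * det4 (A ++ ee j :: eS S) := fun S => by
    have : c S = ∑ j, c S j • ee j := by
      ext i; simp [ee, Finset.sum_apply, Pi.single_apply]
    conv_lhs => rw [this]
    rw [det4_sum]
    exact Finset.sum_congr rfl fun j _ => det4_smul _ _ _ _
  have h2 : ∀ S : Finset (Fin 4), (∑ j ∈ S, sn j S * c (S.erase j) j) * det4 (A ++ eS S) =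
      ∑ j, if j ∈ S then sn j S * c (S.erase j) j * det4 (A ++ eS S) else 0 := fun S => by
    rw [Finset.sum_mul, ← Finset.sum_filter]
    congr 1
    ext j; simp
  simp only [h1, h2]
  rw [Finset.sum_comm]
  conv_rhs => rw [Finset.sum_comm]
  refine Finset.sum_congr rfl fun j _ => ?_
  rw [← Finset.sum_filter, ← Finset.sum_filter_add_sum_filter_not Finset.univ (fun S => j ∈ S),
    Finset.sum_eq_zero fun S hS => by rw [key_mem A (Finset.mem_filter.1 hS).2, mul_zero], zero_add]
  refine Finset.sum_nbij' (fun S => insert j S) (fun S => S.erase j) ?_ ?_ ?_ ?_ ?_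
  · intro S _; simp
  · intro S _; simp
  · intro S hS; exact Finset.erase_insert (Finset.mem_filter.1 hS).2
  · intro S hS; exact Finset.insert_erase (Finset.mem_filter.1 hS).2
  · intro S hS
    have h := (Finset.mem_filter.1 hS).2
    rw [key_not A h, ← sn_erase j (insert j S), Finset.erase_insert h]
    ring

/-- the coefficients of a wedge product -/
def wc : List (Fin 4 → ℝ) → Finset (Fin 4) → ℝ
  | [], S => if S = ∅ then 1 else 0
  | v :: Q, S => ∑ j ∈ S, sn j S * (wc Q (S.erase j) * v j)

theorem expand (Q : List (Fin 4 → ℝ)) : ∀ A : List (Fin 4 → ℝ),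
    det4 (A ++ Q) = ∑ S, wc Q S * det4 (A ++ eS S) := by
  induction Q with
  | nil =>
    intro A
    have : eS ∅ = [] := rfl
    simp [wc, this]
  | cons v Q ih =>
    intro A
    have h := ih (A ++ [v])
    simp only [List.append_assoc, List.singleton_append] at h
    rw [h]
    simp only [← det4_smul]
    rw [reidx A fun S => wc Q S • v]
    rfl

theorem wc_card (Q : List (Fin 4 → ℝ)) : ∀ S : Finset (Fin 4), S.card ≠ Q.length → wc Q S = 0 := by
  induction Q with
  | nil =>
    intro S h
    rw [wc, if_neg]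
    rintro rfl
    exact h rfl
  | cons v Q ih =>
    intro S h
    rw [wc]
    refine Finset.sum_eq_zero fun j hj => ?_
    rw [ih, zero_mul, mul_zero]
    have := Finset.card_erase_add_one hj
    rw [List.length_cons] at h
    omega

theorem sm_gr {p : E2 → ℝ} (h : ContDiff ℝ ∞ p) (i : Fin 4) : ContDiff ℝ ∞ fun x => gr p x i :=
  (contDiff_infty_iff_fderiv.1 h).2.clm_apply contDiff_const

theorem cont_gr {p : E2 → ℝ} (h : ContDiff ℝ ∞ p) : Continuous (gr p) :=
  continuous_pi fun i => (sm_gr h i).continuous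

theorem sm_wc (Q : List (E2 → ℝ)) (hQ : ∀ p ∈ Q, ContDiff ℝ ∞ p) : ∀ S : Finset (Fin 4),
    ContDiff ℝ ∞ fun x => wc (Q.map fun g => gr g x) S := by
  induction Q with
  | nil => intro S; exact contDiff_const
  | cons p Q ih =>
    intro S
    simp only [List.map_cons, wc]
    exact ContDiff.sum fun j _ => contDiff_const.mul
      ((ih (fun q hq => hQ q (List.mem_cons_of_mem _ hq)) _).mul
        (sm_gr (hQ p List.mem_cons_self) j))

theorem cont_det (L : List (E2 → ℝ)) (hL : ∀ p ∈ L, ContDiff ℝ ∞ p) (B : List (Fin 4 → ℝ)) :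
    Continuous fun x => det4 ((L.map fun g => gr g x) ++ B) := by
  have h : ∀ x, det4 ((L.map fun g => gr g x) ++ B) =
      (-1) ^ (L.length * B.length) * ∑ S, wc (L.map fun g => gr g x) S * det4 (B ++ eS S) := by
    intro x
    rw [← expand, ← List.length_map (as := L) fun g => gr g x]
    generalize (L.map fun g => gr g x) = M
    have : ∀ A : List (Fin 4 → ℝ),
        det4 (A ++ (M ++ B)) = (-1) ^ (M.length * B.length) * det4 (A ++ (B ++ M)) := by
      induction M with
      | nil => intro A; simp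
      | cons v M ih =>
        intro A
        have h1 := ih (A ++ [v])
        simp only [List.append_assoc, List.singleton_append] at h1
        rw [List.cons_append, h1, det4_move, List.length_cons, List.append_assoc, add_mul, one_mul,
          pow_add, mul_assoc]
    simpa using this []
  simp only [h]
  exact continuous_const.mul (continuous_finsetSum _ fun S _ =>
    (sm_wc L hL S).continuous.mul continuous_const)

/-- the coordinate functions -/
def cf (i : Fin 4) : E2 → ℝ := fun y => co y i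

theorem sm_cf (i : Fin 4) : ContDiff ℝ ∞ (cf i) := by
  have h1 : ∀ k : Fin 2, ContDiff ℝ ∞ fun y : E2 => (y k).re := fun k =>
    Complex.reCLM.contDiff.comp (contDiff_apply ℝ ℂ k)
  have h2 : ∀ k : Fin 2, ContDiff ℝ ∞ fun y : E2 => (y k).im := fun k =>
    Complex.imCLM.contDiff.comp (contDiff_apply ℝ ℂ k)
  fin_cases i
  · exact h1 0
  · exact h2 0
  · exact h1 1
  · exact h2 1

theorem sm_cfs (l : List (Fin 4)) : ∀ p ∈ l.map cf, ContDiff ℝ ∞ p := by
  intro p hp
  obtain ⟨i, -, rfl⟩ := List.mem_map.1 hp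
  exact sm_cf i

theorem gr_cfs (hc : Calc) (l : List (Fin 4)) (x : E2) :
    ((l.map cf).map fun g => gr g x) = l.map ee := by
  rw [List.map_map]
  exact List.map_congr_left fun i _ => hc.gr_co i x

theorem intg {u g : E2 → ℝ} (hu : CS u) (hg : Continuous g) : Integrable fun x => u x * g x :=
  (hu.1.continuous.mul hg).integrable_of_hasCompactSupport hu.2.mul_right

/-- integration against a continuous function -/
def Iv (g : E2 → ℝ) (hg : Continuous g) : CSm →ₗ[ℝ] ℝ where
  toFun u := ∫ x, u.1 x * g x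
  map_add' u v := by
    rw [← integral_add (intg u.2 hg) (intg v.2 hg)]
    exact integral_congr_ae (Eventually.of_forall fun x => add_mul _ _ _)
  map_smul' c u := by
    rw [RingHom.id_apply, smul_eq_mul, ← integral_const_mul]
    exact integral_congr_ae (Eventually.of_forall fun x => mul_assoc _ _ _)

/-- the current with coefficients `η` -/
def T (η : Finset (Fin 4) → CSm) (f : E2 → ℝ) (L : List (E2 → ℝ)) : ℝ :=
  ∑ S, ∫ x, (η S).1 x * (f x * det4 ((L.map fun g => gr g x) ++ eS S))

theorem T_eq (η : Finset (Fin 4) → CSm) {f : E2 → ℝ} {L : List (E2 → ℝ)} (hf : Continuous f)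
    (hL : ∀ p ∈ L, ContDiff ℝ ∞ p) : T η f L =
    ∫ x, f x * ∑ S, (η S).1 x * det4 ((L.map fun g => gr g x) ++ eS S) := by
  rw [T, ← integral_finsetSum _ fun S _ => intg (η S).2 (hf.fun_mul (cont_det L hL _))]
  refine integral_congr_ae (Eventually.of_forall fun x => ?_)
  simp only [Finset.mul_sum]
  exact Finset.sum_congr rfl fun S _ => by ring

theorem fev_eq (ξ : FF E2) (f : E2 → ℝ) (L : List (E2 → ℝ)) : fev ξ f L =
    Finsupp.linearCombination ℝ
      (fun q => ∫ x, f x * q.1 x * det4 ((L ++ q.2).map fun g => gr g x)) ξ := by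
  rw [Finsupp.linearCombination_apply]; rfl

theorem ex_T (k : ℕ) (ξ : FF E2) (h : FIn k ξ) : ∃ η : Finset (Fin 4) → CSm,
    (∀ S, S.card + k ≠ 4 → η S = 0) ∧
    ∀ f L, Continuous f → (∀ p ∈ L, ContDiff ℝ ∞ p) → fev ξ f L = T η f L := by
  let u : ξ.support → Finset (Fin 4) → CSm := fun q S =>
    ⟨fun x => q.1.1 x * wc (q.1.2.map fun g => gr g x) S,
      (h q.1 q.2).1.1.mul (sm_wc _ (h q.1 q.2).2.2 S), (h q.1 q.2).1.2.mul_right⟩
  refine ⟨fun S => ∑ q : ξ.support, ξ q.1 • u q S, fun S hS => ?_, fun f L hf hL => ?_⟩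
  · refine Finset.sum_eq_zero fun q _ => ?_
    have : u q S = 0 := Subtype.ext (funext fun x => by
      have := (h q.1 q.2).2.1
      change q.1.1 x * wc _ S = 0
      rw [wc_card, mul_zero]
      rw [List.length_map]; omega)
    rw [this, smul_zero]
  · have h1 : T (fun S => ∑ q : ξ.support, ξ q.1 • u q S) f L =
        ∑ q : ξ.support, ξ q.1 * T (u q) f L := by
      simp only [T, Finset.mul_sum]
      rw [Finset.sum_comm]
      refine Finset.sum_congr rfl fun S _ => ?_
      change Iv _ (hf.mul (cont_det L hL _)) _ = _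
      rw [map_sum]
      refine Finset.sum_congr rfl fun q _ => ?_
      rw [map_smul]; rfl
    rw [h1, fev, Finsupp.sum, ← Finset.sum_coe_sort]
    refine Finset.sum_congr rfl fun q _ => ?_
    congr 1
    rw [T_eq _ hf hL]
    refine integral_congr_ae (Eventually.of_forall fun x => ?_)
    simp only [List.map_append]
    rw [expand, mul_assoc, Finset.mul_sum]
    congr 1
    exact Finset.sum_congr rfl fun S _ => (mul_assoc _ _ _).symm

theorem gr_mul {f u : E2 → ℝ} (hf : ContDiff ℝ ∞ f) (hu : ContDiff ℝ ∞ u) (x : E2) :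
    gr (fun y => f y * u y) x = f x • gr u x + u x • gr f x := by
  ext i
  simp only [gr, Pi.add_apply, Pi.smul_apply, smul_eq_mul]
  rw [fderiv_fun_mul (hf.differentiable (by simp) x) (hu.differentiable (by simp) x)]
  simp

theorem dK_val {D : Fin 4 → CSm →+ CSm} (hD : ∀ i u x, (D i u).1 x = gr u.1 x i)
    (η : Finset (Fin 4) → CSm) (S : Finset (Fin 4)) (x : E2) :
    (dK D η S).1 x = ∑ j ∈ S, sn j S * gr (η (S.erase j)).1 x j := by
  rw [dK, Submodule.coe_sum, Finset.sum_apply]
  refine Finset.sum_congr rfl fun j _ => ?_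
  rw [← hD, Submodule.coe_smul_of_tower, Pi.smul_apply, zsmul_eq_mul, sn]
  push_cast
  rfl

theorem T_bd (hc : Calc) (h4 : St4) {D : Fin 4 → CSm →+ CSm}
    (hD : ∀ i u x, (D i u).1 x = gr u.1 x i) (η : Finset (Fin 4) → CSm) {f : E2 → ℝ}
    {L : List (E2 → ℝ)} (hf : ContDiff ℝ ∞ f) (hL : ∀ p ∈ L, ContDiff ℝ ∞ p) :
    T η 1 (f :: L) = (-1) ^ (L.length + 1) * T (dK D η) f L := by
  have hfL : ∀ p ∈ f :: L, ContDiff ℝ ∞ p := fun p hp =>
    (List.mem_cons.1 hp).elim (fun e => e ▸ hf) (hL p)
  have hi : ∀ S, Integrable fun x =>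
      f x * det4 ((L.map fun g => gr g x) ++ gr (η S).1 x :: eS S) := fun S => by
    have hc1 : Continuous fun x => det4 ((L.map fun g => gr g x) ++ gr (η S).1 x :: eS S) := by
      have := cont_det (L ++ [(η S).1]) (fun p hp => (List.mem_append.1 hp).elim (hL p)
        fun e => List.mem_singleton.1 e ▸ (η S).2.1) (eS S)
      simpa using this
    refine (hf.continuous.mul hc1).integrable_of_hasCompactSupport (HasCompactSupport.mul_left ?_)
    refine HasCompactSupport.intro (η S).2.2.isCompact fun x hx => det4_zero ?_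
    have : gr (η S).1 x = 0 := by
      ext i
      have : fderiv ℝ (η S).1 x = 0 := by
        by_contra h
        exact hx (support_fderiv_subset ℝ h)
      simp [gr, this]
    simp [this]
  have h1 : ∀ S, ∫ x, (η S).1 x * (1 * det4 (((f :: L).map fun g => gr g x) ++ eS S)) =
      (-1) ^ (L.length + 1) *
        ∫ x, f x * det4 ((L.map fun g => gr g x) ++ gr (η S).1 x :: eS S) := fun S => by
    have h := h4 (fun y => f y * (η S).1 y) (L ++ (lst S).map cf) univ
      ⟨hf.mul (η S).2.1, (η S).2.2.mul_left⟩ isOpen_univ (subset_univ _)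
      fun p hp => ((List.mem_append.1 hp).elim (hL p) (sm_cfs _ p)).contDiffOn
    have e : ∀ x, det4 (((fun y => f y * (η S).1 y) :: (L ++ (lst S).map cf)).map
        fun p => gr p x) = (-1) ^ L.length *
          (f x * det4 ((L.map fun g => gr g x) ++ gr (η S).1 x :: eS S)) +
          (η S).1 x * (1 * det4 (((f :: L).map fun g => gr g x) ++ eS S)) := fun x => by
      rw [List.map_cons, List.map_append, gr_cfs hc, gr_mul hf (η S).2.1]
      have a1 := det4_add [] ((L.map fun g => gr g x) ++ eS S) (f x • gr (η S).1 x)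
        ((η S).1 x • gr f x)
      have a2 := det4_move [] (L.map fun g => gr g x) (eS S) (gr (η S).1 x)
      rw [det4_smul, det4_smul, a2, List.length_map] at a1
      simp only [List.nil_append] at a1
      rw [List.map_cons, List.cons_append]
      exact a1.trans (by ring)
    simp only [e] at h
    rw [integral_add ((hi S).const_mul _)
      (intg (η S).2 (continuous_const.fun_mul (cont_det _ hfL _))), integral_const_mul] at h
    rw [pow_succ]
    linarith
  rw [T_eq (dK D η) hf.continuous hL, T]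
  simp only [Pi.one_apply, h1]
  rw [← Finset.mul_sum, ← integral_finsetSum _ fun S _ => hi S]
  congr 1
  refine integral_congr_ae (Eventually.of_forall fun x => ?_)
  simp only [dK_val hD]
  rw [← Finset.mul_sum, reidx _ fun S => gr (η S).1 x]

theorem det_univ : det4 (eS Finset.univ) = 1 := by
  have : eS Finset.univ = List.ofFn ee := rfl
  rw [this, det4_ofFn, ← Matrix.det_one (n := Fin 4)]
  congr 1
  ext i j
  simp [ee, Matrix.one_apply, Pi.single_apply, eq_comm]

theorem ex_test (n : ℕ) : ∀ S : Finset (Fin 4), n + S.card = 4 → ∃ l : List (Fin 4),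
    l.length = n ∧ det4 (l.map ee ++ eS S) ≠ 0 ∧ ∀ j ∉ S, j ∈ l := by
  induction n with
  | zero =>
    intro S h
    have : S = Finset.univ := Finset.eq_univ_of_card S (by simpa using h)
    subst this
    exact ⟨[], rfl, by simp [det_univ], fun j hj => absurd (Finset.mem_univ j) hj⟩
  | succ n ih =>
    intro S h
    have : S ≠ Finset.univ := by
      rintro rfl
      simp at h
    obtain ⟨j, hj⟩ : ∃ j, j ∉ S := by
      by_contra h'
      push Not at h'
      exact this (Finset.eq_univ_of_forall h')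
    obtain ⟨l, h1, h2, h3⟩ := ih (insert j S) (by rw [Finset.card_insert_of_notMem hj]; omega)
    refine ⟨l ++ [j], by simp [h1], ?_, fun i hi => ?_⟩
    · rw [List.map_append, List.append_assoc, List.map_singleton, List.singleton_append,
        key_not _ hj]
      exact mul_ne_zero (sn_ne _ _) h2
    · by_cases e : i = j
      · simp [e]
      · exact List.mem_append_left _ (h3 i (by simp [e, hi]))

theorem T_inj (hc : Calc) (θ : Finset (Fin 4) → CSm)
    (h : ∀ f L, ContDiff ℝ ∞ f → (∀ p ∈ L, ContDiff ℝ ∞ p) → T θ f L = 0)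
    (S : Finset (Fin 4)) : θ S = 0 := by
  have hS : S.card ≤ 4 := by simpa using S.card_le_univ
  obtain ⟨l, h1, h2, h3⟩ := ex_test (4 - S.card) S (by omega)
  have h0 := h (θ S).1 (l.map cf) (θ S).2.1 (sm_cfs l)
  simp only [T, gr_cfs hc] at h0
  rw [Finset.sum_eq_single S] at h0
  · simp only [← mul_assoc] at h0
    rw [integral_mul_const, mul_eq_zero, or_iff_left h2,
      integral_eq_zero_iff_of_nonneg (fun x => mul_self_nonneg _)
        (intg (θ S).2 (θ S).2.1.continuous)] at h0
    have := (Continuous.ae_eq_iff_eq volume ((θ S).2.1.continuous.mul (θ S).2.1.continuous)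
      continuous_const).1 h0
    exact Subtype.ext (funext fun x => mul_self_eq_zero.1 (congrFun this x))
  · intro S' _ hS'
    have : det4 (l.map ee ++ eS S') = 0 := by
      by_cases hs : S' ⊆ S
      · have := Finset.card_lt_card (Finset.ssubset_iff_subset_ne.2 ⟨hs, hS'⟩)
        refine det4_len ?_
        rw [List.length_append, List.length_map, eS_len]; omega
      · obtain ⟨j, hj, hj'⟩ := Finset.not_subset.1 hs
        obtain ⟨l₁, l₂, rfl⟩ := List.append_of_mem (h3 j hj')
        rw [List.map_append, List.map_cons, List.append_assoc, List.cons_append, det4_move,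
          key_mem _ hj, mul_zero]
    simp [this]
  · intro h'; exact absurd (Finset.mem_univ S) h'

end PFpl

open PFpl in
theorem fpl (hc : Calc) (h4 : St4) (hk : Kos) (hf : Fibi) : Fpl := by
  obtain ⟨D, H, P, hK, hD, hP⟩ := hf
  intro k ξ hξ hcl h0
  obtain ⟨η, hη, hT⟩ := ex_T k ξ hξ
  have hd : ∀ S, dK D η S = 0 := T_inj hc _ fun f L hf hL => by
    have h1 := hcl f L hf hL
    rw [hT 1 _ continuous_const fun p hp => (List.mem_cons.1 hp).elim (fun e => e ▸ hf) (hL p),
      T_bd hc h4 hD η hf hL] at h1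
    exact (mul_eq_zero.1 h1).resolve_left (pow_ne_zero _ (by norm_num))
  have hu : ∫ x, (η Finset.univ).1 x = 0 := by
    rw [hT 1 [] continuous_const (by simp), T, Finset.sum_eq_single Finset.univ] at h0
    · simpa [det_univ] using h0
    · intro S _ hS
      have : det4 (eS S) = 0 := det4_len (by
        rw [eS_len]
        exact fun e => hS (Finset.eq_univ_of_card S (by simpa using e)))
      simp [this]
    · intro h'; exact absurd (Finset.mem_univ _) h'
  obtain ⟨ζ, hζ⟩ := hk CSm D H P hK η hd (hP _ hu)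
  let ζ' : Finset (Fin 4) → CSm := fun S => if S.card + (k + 1) = 4 then ζ S else 0
  have hζ' : dK D ζ' = η := funext fun S => by
    by_cases e : S.card + k = 4
    · rw [← hζ S]
      refine Finset.sum_congr rfl fun j hj => ?_
      have := Finset.card_erase_add_one hj
      simp only [ζ']
      rw [if_pos (by omega)]
    · rw [hη S e]
      refine Finset.sum_eq_zero fun j hj => ?_
      have := Finset.card_erase_add_one hj
      simp only [ζ']
      rw [if_neg (by omega), map_zero, smul_zero]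
  refine ⟨∑ S ∈ Finset.univ.filter fun S : Finset (Fin 4) => S.card + (k + 1) = 4,
    Finsupp.single ((ζ S).1, (lst S).map cf) ((-1) ^ (k + 1)), ?_, fun f L hf hL => ?_⟩
  · refine Finset.sum_induction _ (FIn (k + 1)) (fun a b ha hb q hq => ?_) (fun q hq => ?_)
      fun S hS q hq => ?_
    · classical
      exact (Finset.mem_union.1 (Finsupp.support_add hq)).elim (ha q) (hb q)
    · simp at hq
    · rw [Finset.mem_singleton.1 (Finsupp.support_single_subset hq)]
      refine ⟨(ζ S).2, ?_, sm_cfs _⟩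
      rw [List.length_map, lst_len]
      exact (Finset.mem_filter.1 hS).2
  · have h1 : ∀ c : ℝ, fev (∑ S ∈ Finset.univ.filter fun S : Finset (Fin 4) => S.card + (k + 1) = 4,
        Finsupp.single ((ζ S).1, (lst S).map cf) c) 1 (f :: L) = c * T ζ' 1 (f :: L) := fun c => by
      rw [fev_eq, map_sum, T, Finset.mul_sum, Finset.sum_filter]
      refine Finset.sum_congr rfl fun S _ => ?_
      simp only [ζ']
      split_ifs with e
      · rw [Finsupp.linearCombination_single, smul_eq_mul]
        congr 1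
        refine integral_congr_ae (Eventually.of_forall fun x => ?_)
        simp only [List.map_append, gr_cfs hc, eS]
        ring
      · simp
    rw [h1, T_bd hc h4 hD ζ' hf hL, hζ', hT f L hf.continuous hL]
    by_cases e : L.length = k
    · rw [e, ← mul_assoc, ← pow_add, Even.neg_one_pow ⟨_, rfl⟩, one_mul]
    · have : T η f L = 0 := Finset.sum_eq_zero fun S _ => by
        by_cases e' : S.card + k = 4
        · have : ∀ x, det4 ((L.map fun g => gr g x) ++ eS S) = 0 := fun x => det4_len (by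
            rw [List.length_append, List.length_map, eS_len]; omega)
          simp [this]
        · simp [hη S e']
      simp [this]

end Pool.Agent.Lib.MP_356dfe_ag.S
end
end
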