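import Pool.Agent.Lib.MP_356dfe_ag.S.Basic

/-! Convex sets are diffeomorphic to the model space. -/

set_option autoImplicit false

open Set Filter Topology Metric MeasureTheory
open scoped ContDiff ComplexConjugate Matrix Pointwise

noncomputable section

namespace Pool.Agent.Lib.MP_356dfe_ag.S

namespace PGC

theorem le_fderiv {C : Set E2} {β : E2 → ℝ} (hc : ConvexOn ℝ C β) {x y : E2} (hx : x ∈ C)
    (hy : y ∈ C) {L : E2 →L[ℝ] ℝ} (hd : HasFDerivAt β L x) : β x - β y ≤ L (x - y) := by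
  have h1 : ConvexOn ℝ ((AffineMap.lineMap y x : ℝ →ᵃ[ℝ] E2) ⁻¹' C)
      (β ∘ (AffineMap.lineMap y x : ℝ →ᵃ[ℝ] E2)) := hc.comp_affineMap _
  have h2 : HasDerivAt (β ∘ (AffineMap.lineMap y x : ℝ →ᵃ[ℝ] E2)) (L (x - y)) 1 := by
    refine HasFDerivAt.comp_hasDerivAt (1 : ℝ) ?_ AffineMap.hasDerivAt_lineMap
    rwa [AffineMap.lineMap_apply_one]
  have := h1.slope_le_of_hasDerivAt (x := 0) (y := 1) (by simpa using hy) (by simpa using hx)
    one_pos h2
  simpa [slope_def_field] using this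

theorem main {C : Set E2} {β : E2 → ℝ} (ho : IsOpen C) (hc : ConvexOn ℝ C β)
    (hs : ContDiffOn ℝ ∞ β C) (hne : C.Nonempty)
    (hK : ∀ M, ∃ K, IsCompact K ∧ K ⊆ C ∧ ∀ x ∈ C, β x ≤ M → x ∈ K) :
    ∃ T : OpenPartialHomeomorph E2 E2, T.source = C ∧ T.target = univ ∧
      ContDiffOn ℝ ∞ T T.source ∧ ContDiff ℝ ∞ T.symm := by
  obtain ⟨x₀, h0, hmin⟩ : ∃ x₀ ∈ C, ∀ x ∈ C, β x₀ ≤ β x := by
    obtain ⟨x₁, h1⟩ := hne
    obtain ⟨K, k1, k2, k3⟩ := hK (β x₁)
    obtain ⟨x₀, h0, hm⟩ := k1.exists_isMinOn ⟨x₁, k3 x₁ h1 le_rfl⟩ (hs.continuousOn.mono k2)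
    refine ⟨x₀, k2 h0, fun x hx => ?_⟩
    rcases le_total (β x) (β x₁) with h | h
    · exact hm (k3 x hx h)
    · exact le_trans (hm (k3 x₁ h1 le_rfl)) h
  set T : E2 → E2 := fun x => (1 + β x - β x₀) • (x - x₀) with hT
  have hTs : ContDiffOn ℝ ∞ T C :=
    ((contDiffOn_const.add hs).sub contDiffOn_const).smul (contDiffOn_id.sub contDiffOn_const)
  have hl : ∀ x ∈ C, 1 ≤ 1 + β x - β x₀ := fun x hx => by linarith [hmin x hx]
  have hD : ∀ x ∈ C, ∃ L : E2 ≃L[ℝ] E2, HasFDerivAt T (L : E2 →L[ℝ] E2) x := by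
    intro x hx
    have h1 := ((hs.contDiffAt (ho.mem_nhds hx)).differentiableAt (by simp)).hasFDerivAt
    have h2 := ((h1.const_add 1).sub_const (β x₀)).smul ((hasFDerivAt_id x).sub_const x₀)
    have h3 := le_fderiv hc hx h0 h1
    have h4 := hl x hx
    generalize fderiv ℝ β x = D at h1 h2 h3
    set L := (1 + β x - β x₀) • ContinuousLinearMap.id ℝ E2 + D.smulRight (x - x₀) with hL
    have hi : Function.Injective (L : E2 →ₗ[ℝ] E2) := by
      rw [injective_iff_map_eq_zero]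
      intro v hv
      have h5 : (1 + β x - β x₀) • v + D v • (x - x₀) = 0 := hv
      have h6 := congrArg D h5
      rw [map_add, map_smul, map_smul, map_zero, smul_eq_mul, smul_eq_mul] at h6
      have h7 : D v = 0 := by
        have : D v * (1 + β x - β x₀ + D (x - x₀)) = 0 := by linarith
        exact (mul_eq_zero.1 this).resolve_right (by linarith [hmin x hx])
      rw [h7, zero_smul, add_zero] at h5
      exact (smul_eq_zero.1 h5).resolve_left (by linarith)
    exact ⟨(LinearEquiv.ofInjectiveEndo _ hi).toContinuousLinearEquiv, h2⟩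
  have half : ∀ x ∈ C, ∀ y ∈ C, T x = T y → β x ≤ β y → x = y := by
    intro x hx y hy h hxy
    have a1 := hl x hx
    have a2 := hl y hy
    have h' : (1 + β x - β x₀) • (x - x₀) = (1 + β y - β x₀) • (y - x₀) := h
    set t := (1 + β x - β x₀) / (1 + β y - β x₀) with ht
    have t0 : 0 ≤ t := by positivity
    have t1 : t ≤ 1 := (div_le_one (by linarith)).2 (by linarith)
    have e : y = (1 - t) • x₀ + t • x := by
      have : t • (x - x₀) = y - x₀ := by
        rw [ht, div_eq_inv_mul, mul_smul, h', smul_smul, inv_mul_cancel₀ (by linarith), one_smul]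
      rw [sub_smul, one_smul, sub_add, ← smul_sub, ← neg_sub x, smul_neg, this]
      abel
    have b1 := hc.2 h0 hx (sub_nonneg.2 t1) t0 (by ring)
    rw [← e, smul_eq_mul, smul_eq_mul] at b1
    have b2 : β y = β x := by
      refine le_antisymm (b1.trans ?_) hxy
      nlinarith [hmin x hx]
    rw [b2] at h'
    exact sub_left_injective (smul_right_injective E2 (by linarith) h')
  have hinj : InjOn T C := fun x hx y hy h => by
    rcases le_total (β x) (β y) with k | k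
    · exact half x hx y hy h k
    · exact (half y hy x hx h.symm k).symm
  have hmap : ∀ x ∈ C, map T (𝓝 x) = 𝓝 (T x) := fun x hx => by
    obtain ⟨L, hL⟩ := hD x hx
    exact ((hTs.contDiffAt (ho.mem_nhds hx)).hasStrictFDerivAt' hL (by simp)).map_nhds_eq_of_equiv
  have hopen : IsOpenMap (C.domRestrict T) := by
    rw [isOpenMap_iff_nhds_le]
    intro a
    change 𝓝 (T a) ≤ map (T ∘ Subtype.val) (𝓝 a)
    rw [← map_map, ho.isOpenEmbedding_subtypeVal.map_nhds_eq, hmap a a.2]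
  have hcl : IsClosed (T '' C) := by
    obtain ⟨δ, hδ, hb⟩ := Metric.eventually_nhds_iff.1
      ((hs.continuousOn.continuousAt (ho.mem_nhds h0)).eventually
        (gt_mem_nhds (lt_add_one (β x₀))))
    rw [← closure_subset_iff_isClosed]
    intro y hy
    obtain ⟨K, k1, k2, k3⟩ := hK (β x₀ + 1 + (‖y‖ + 1) / δ)
    have h1 : y ∈ closure (ball (0 : E2) (‖y‖ + 1) ∩ T '' C) :=
      isOpen_ball.inter_closure ⟨by simp, hy⟩
    have h2 : ball (0 : E2) (‖y‖ + 1) ∩ T '' C ⊆ T '' K := by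
      rintro _ ⟨h3, x, hx, rfl⟩
      refine ⟨x, k3 x hx ?_, rfl⟩
      have p : 0 ≤ (‖y‖ + 1) / δ := by positivity
      rcases lt_or_ge (dist x x₀) δ with h | h
      · linarith [hb h]
      · rw [mem_ball_zero_iff, hT, norm_smul, Real.norm_of_nonneg (by linarith [hl x hx]),
          ← dist_eq_norm] at h3
        have : 1 + β x - β x₀ ≤ (‖y‖ + 1) / δ := by
          rw [le_div_iff₀ hδ]
          nlinarith [hl x hx]
        linarith
    exact image_mono k2 ((k1.image_of_continuousOn (hTs.continuousOn.mono k2)).isClosed.closure_subset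
      (closure_mono h2 h1))
  have huniv : T '' C = univ := by
    refine IsClopen.eq_univ ⟨hcl, ?_⟩ (hne.image T)
    rw [← range_domRestrict]
    exact hopen.isOpen_range
  have hbij : BijOn T C univ := ⟨mapsTo_univ _ _, hinj, huniv.ge⟩
  let e := OpenPartialHomeomorph.ofContinuousOpenRestrict (hbij.toPartialEquiv T C univ)
    hTs.continuousOn hopen ho
  refine ⟨e, rfl, rfl, hTs, contDiff_iff_contDiffAt.2 fun a => ?_⟩
  have ha : e.symm a ∈ C := e.map_target (mem_univ a)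
  obtain ⟨L, hL⟩ := hD _ ha
  exact e.contDiffAt_symm (mem_univ a) hL (hTs.contDiffAt (ho.mem_nhds ha))

theorem inv_le {p q r a b : ℝ} (hp : 0 < p) (hq : 0 < q) (ha : 0 ≤ a) (hb : 0 ≤ b)
    (hab : a + b = 1) (h : a * p + b * q ≤ r) : r⁻¹ ≤ a * p⁻¹ + b * q⁻¹ := by
  have h1 := (convexOn_zpow (-1)).2 (mem_Ioi.2 hp) (mem_Ioi.2 hq) ha hb hab
  have h2 : 0 < a * p + b * q := (convex_Ioi (0 : ℝ)) (mem_Ioi.2 hp) (mem_Ioi.2 hq) ha hb hab
  simp only [smul_eq_mul, zpow_neg_one] at h1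
  exact (inv_anti₀ h2 h).trans h1

end PGC

theorem gc : GC := by
  intro W K s hW hK hKW hF hc hCK hne
  have hcv : Convex ℝ {u ∈ W | ∀ F ∈ s, F u < 0} := fun x hx y hy a b ha hb hab =>
    ⟨hc hx.1 hy.1 ha hb hab, fun F h =>
      ((hF F h).2.convex_lt 0 ⟨hx.1, hx.2 F h⟩ ⟨hy.1, hy.2 F h⟩ ha hb hab).2⟩
  refine PGC.main (β := fun x => ∑ F ∈ s, (-F x)⁻¹) ?_ ⟨hcv, fun x hx y hy a b ha hb hab => ?_⟩
    ?_ hne fun M => ?_
  · rw [isOpen_iff_mem_nhds]
    intro x hx
    have : ∀ᶠ u in 𝓝 x, ∀ F ∈ s, F u < 0 := (eventually_all_finset s).2 fun F h =>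
      ((hF F h).1.continuousOn.continuousAt (hW.mem_nhds hx.1)).eventually (gt_mem_nhds (hx.2 F h))
    filter_upwards [this, hW.mem_nhds hx.1] with u h1 h2 using ⟨h2, h1⟩
  · simp only [smul_eq_mul, Finset.mul_sum, ← Finset.sum_add_distrib]
    refine Finset.sum_le_sum fun F h => PGC.inv_le (neg_pos.2 (hx.2 F h)) (neg_pos.2 (hy.2 F h))
      ha hb hab ?_
    have := (hF F h).2.2 hx.1 hy.1 ha hb hab
    simp only [smul_eq_mul] at this
    linarith
  · exact ContDiffOn.sum fun F h => ((hF F h).1.mono fun _ hx => hx.1).neg.inv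
      fun x hx => (neg_pos.2 (hx.2 F h)).ne'
  · have hM : 0 < |M| + 1 := by positivity
    refine ⟨K ∩ ⋂ F ∈ s, K ∩ F ⁻¹' Iic (-(|M| + 1)⁻¹), hK.inter_right (isClosed_biInter fun F h =>
      ((hF F h).1.continuousOn.mono hKW).preimage_isClosed_of_isClosed hK.isClosed isClosed_Iic),
      fun x hx => ⟨hKW hx.1, fun F h => ?_⟩, fun x hx hb => ⟨hCK hx, mem_iInter₂.2 fun F h =>
        ⟨hCK hx, ?_⟩⟩⟩
    · exact lt_of_le_of_lt (mem_iInter₂.1 hx.2 F h).2 (neg_lt_zero.2 (inv_pos.2 hM))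
    · have h1 : (-F x)⁻¹ ≤ ∑ F ∈ s, (-F x)⁻¹ := Finset.single_le_sum (f := fun F => (-F x)⁻¹)
        (fun F h => (inv_pos.2 (neg_pos.2 (hx.2 F h))).le) h
      have h2 : (-F x)⁻¹ ≤ |M| + 1 := by linarith [le_abs_self M]
      have h3 := (inv_le_comm₀ (neg_pos.2 (hx.2 F h)) hM).1 h2
      change F x ≤ _
      linarith

end Pool.Agent.Lib.MP_356dfe_ag.S
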