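import Pool.Agent.Lib.MP_356dfe_ag.S.Basic

-- part Pool.Agent.Lib.MP_356dfe_ag.S.PGS
section

/-! Global Stokes formulas. -/

set_option autoImplicit false

open Set Filter Topology Metric MeasureTheory
open scoped ContDiff ComplexConjugate Matrix Pointwise

noncomputable section

namespace Pool.Agent.Lib.MP_356dfe_ag.S

variable {Z Λ : Type} [TopologicalSpace Z] [T2Space Z] [MeasurableSpace Z] [BorelSpace Z]
  {A : KA Z Λ}

namespace PGS

theorem duc {u v : E2 → ℝ} {x : E2} (h : u =ᶠ[𝓝 x] v) : du u x = du v x := by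
  have e : (fun y => (u y : ℂ)) =ᶠ[𝓝 x] fun y => (v y : ℂ) := h.mono fun y hy => by simp only [hy]
  funext j
  simp only [du, dh, e.fderiv_eq]

theorem du0 {u : E2 → ℝ} {x : E2} (h : u =ᶠ[𝓝 x] 0) : du u x = 0 := by
  rw [duc h]
  funext j
  simp [du, dh]

theorem grc {u v : E2 → ℝ} {x : E2} (h : u =ᶠ[𝓝 x] v) : gr u x = gr v x := by
  funext j
  simp only [gr, h.fderiv_eq]

theorem gr0 {u : E2 → ℝ} {x : E2} (h : u =ᶠ[𝓝 x] 0) : gr u x = 0 := by
  rw [grc h]
  funext j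
  simp [gr]

omit [T2Space Z] [MeasurableSpace Z] [BorelSpace Z] in
theorem v1d0 {U : Z → ℝ} {z : Z} (h : ∀ᶠ w in 𝓝 z, U w = 0) : A.v1 (A.d U) z = 0 :=
  du0 (A.ev_symm (A.mem_i z) h)

omit [T2Space Z] [MeasurableSpace Z] [BorelSpace Z] in
/-- a function with compact support in a chart, read in the chart -/
theorem chart {U : Z → ℝ} (hU : A.D U) {l : Λ} (hl : tsupport U ⊆ A.src l) :
    ∃ u, CS u ∧ tsupport u ⊆ ball 0 4 ∧ ∀ x ∈ ball (0 : E2) 4, u =ᶠ[𝓝 x] U ∘ (A.e l).symm := by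
  have hK : IsCompact (A.e l '' tsupport U) :=
    hU.2.isCompact.image_of_continuousOn ((A.e l).continuousOn.mono hl)
  have hb : A.e l '' tsupport U ⊆ ball 0 4 := by
    rintro _ ⟨z, hz, rfl⟩
    exact A.map_src (hl hz)
  have h0 : ∀ x ∉ A.e l '' tsupport U, (ball (0 : E2) 4).indicator (U ∘ (A.e l).symm) x = 0 := by
    intro x hx
    by_cases hx' : x ∈ ball (0 : E2) 4
    · rw [indicator_of_mem hx']
      exact image_eq_zero_of_notMem_tsupport (f := U) fun hz => hx ⟨_, hz, A.e_symm l hx'⟩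
    · exact indicator_of_notMem hx' _
  have he : ∀ x ∈ ball (0 : E2) 4,
      (ball (0 : E2) 4).indicator (U ∘ (A.e l).symm) =ᶠ[𝓝 x] U ∘ (A.e l).symm := fun x hx =>
    (isOpen_ball.eventually_mem hx).mono fun y hy => indicator_of_mem hy _
  refine ⟨_, ⟨contDiff_iff_contDiffAt.2 fun x => ?_, HasCompactSupport.intro hK h0⟩,
    (closure_minimal (Function.support_subset_iff'.2 h0) hK.isClosed).trans hb, he⟩
  by_cases hx : x ∈ ball (0 : E2) 4
  · have := hU.1 _ l (A.symm_mem l hx)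
    rw [A.e_symm l hx] at this
    exact this.congr_of_eventuallyEq (he x hx)
  · exact contDiffAt_const.congr_of_eventuallyEq
      ((hK.isClosed.isOpen_compl.eventually_mem fun h => hx (hb h)).mono h0)

/-- a local additive integrand whose integral vanishes in charts -/
theorem glue (h : A.Std) (F : (Z → ℝ) → Z → ℝ) (hs : ∀ U, A.SM U → A.SM (F U))
    (h0 : ∀ U z, (∀ᶠ w in 𝓝 z, U w = 0) → F U z = 0)
    (ha : ∀ U V z, A.Sm U z → A.Sm V z → F (U + V) z = F U z + F V z)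
    (hc : ∀ l U u, A.SM U → CS u → tsupport u ⊆ ball 0 4 →
      (∀ x ∈ ball (0 : E2) 4, u =ᶠ[𝓝 x] U ∘ (A.e l).symm) →
      ∫ x in ball 0 4, F U ((A.e l).symm x) * dt (A.met l x) = 0)
    {U : Z → ℝ} (hU : A.D U) : ∫ z, F U z ∂A.μ = 0 := by
  have := h.meas.fin
  have hz : ∀ V, ∀ z ∉ tsupport V, F V z = 0 := fun V z hz =>
    h0 V z (notMem_tsupport_iff_eventuallyEq.1 hz)
  have hi : ∀ V, A.D V → Integrable (F V) A.μ := fun V hV =>
    (continuous_iff_continuousAt.2 fun z => h.bas.sm_cont _ _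
      (hs V hV.1 z)).integrable_of_hasCompactSupport (HasCompactSupport.intro hV.2 (hz V))
  obtain ⟨s, hs'⟩ := h.bump.phi_sum _ hU.2
  have e : U = ∑ l ∈ s, A.phi l * U := by
    funext z
    rw [Finset.sum_apply]
    simp only [Pi.mul_apply, ← Finset.sum_mul]
    by_cases hz : z ∈ tsupport U
    · rw [hs'.self_of_nhdsSet z hz, one_mul]
    · rw [image_eq_zero_of_notMem_tsupport hz, mul_zero]
  rw [e]
  refine (Finset.sum_induction _ (fun V => A.D V ∧ ∫ z, F V z ∂A.μ = 0) ?_ ?_ ?_).2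
  · rintro V V' ⟨hV, e1⟩ ⟨hV', e2⟩
    refine ⟨⟨fun z => (hV.1 z).add (hV'.1 z), hV.2.add hV'.2⟩, ?_⟩
    simp only [fun z => ha V V' z (hV.1 z) (hV'.1 z)]
    rw [integral_add (hi V hV) (hi V' hV'), e1, e2, add_zero]
  · exact ⟨⟨KA.sm_const 0, HasCompactSupport.zero⟩, by
      simp only [fun z => h0 0 z (Eventually.of_forall fun _ => rfl), integral_zero]⟩
  · intro l _
    have hD : A.D (A.phi l * U) := ⟨fun z => ((h.bump.phi_D l).1.1 z).mul (hU.1 z), hU.2.mul_left⟩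
    have hl : tsupport (A.phi l * U) ⊆ (A.e l).symm '' ball 0 4 :=
      ((tsupport_mul_subset_left (f := A.phi l) (g := U)).trans (h.bump.phi_D l).2).trans
        (image_mono (ball_subset_ball (by norm_num)))
    obtain ⟨u, h1, h2, h3⟩ := chart hD (l := l) (hl.trans fun _ ⟨_, hx, e⟩ => e ▸ A.symm_mem l hx)
    refine ⟨hD, ?_⟩
    rw [← setIntegral_eq_integral_of_forall_compl_eq_zero fun z hz' => hz _ z fun h' => hz' (hl h'),
      (h.meas.int l _ measurableSet_ball Subset.rfl _).2]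
    exact hc l _ u hD.1 h1 h2 h3

omit [T2Space Z] [MeasurableSpace Z] [BorelSpace Z] in
theorem dt_ne (l : Λ) {x : E2} (hx : x ∈ ball (0 : E2) 4) : dt (A.met l x) ≠ 0 :=
  (A.pos _ x hx).2.2.ne'

end PGS

theorem gs1 (h : A.Std) (h1 : St1) : A.GS1 := by
  intro T b U hT hb hU
  have hb1 := fun z => h.bas.ex_s1 b z (hb z)
  have hb2 := fun z => (h.bas.cl2_bar b z (hb z)).1
  refine PGS.glue h (fun U z => A.W T (OT (A.d U) b) z + U z * A.W T (bar b) z) ?_ ?_ ?_ ?_ hU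
  · exact fun U hU z => (h.bas.W_sm _ _ z (Eventually.of_forall fun w =>
      ⟨(hT w).1, h.bas.s2_ot _ _ w (h.bas.s1_d U w (hU w)) (hb1 w)⟩)).add
        ((hU z).mul (h.bas.W_sm _ _ z (Eventually.of_forall fun w => ⟨(hT w).1, hb2 w⟩)))
  · intro U z hz
    simp only [KA.W, KA.v2_OT, PGS.v1d0 hz, hz.self_of_nhds, zero_ot, md_zero, zero_div, zero_mul,
      add_zero]
  · intro U V z hU hV
    simp only [KA.W, KA.v2_OT, (h.bas.d_add U V z hU hV).v1, KA.v1_add, add_ot, md_add,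
      Pi.add_apply]
    ring
  · intro l U u hU h2 h3 h4
    have k : ∀ {p : E2 → Prop}, (∀ z ∈ A.src l, p (A.e l z)) → ∀ x ∈ ball (0 : E2) 4, p x :=
      fun hp x hx => A.e_symm l hx ▸ hp _ (A.symm_mem l hx)
    refine (setIntegral_congr_fun measurableSet_ball fun x hx => ?_).trans
      ((setIntegral_eq_integral_of_forall_compl_eq_zero ?_).trans
      (h1 u (T l) (b l) _ h2 isOpen_ball h3
      (fun j i => k fun z hz => ((hT z).1.2 l hz j i).contDiffWithinAt)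
      (k fun z hz => ((hT z).2 l hz).2) (k fun z hz => ((hb1 z).2 l hz).contDiffWithinAt)
      (k fun z hz => (h.bas.ex_c1 b z (hb z) l hz).2)))
    · have hz := A.symm_mem l hx
      have := PGS.dt_ne (A := A) l hx
      rw [h.bas.W_eq _ _ _ l (hT _).1.1 (h.bas.s2_ot _ _ _ (h.bas.s1_d U _ (hU _)) (hb1 _)).1 hz,
        h.bas.W_eq _ _ _ l (hT _).1.1 (hb2 _).1 hz, A.e_symm l hx, PGS.duc (h4 x hx),
        (h4 x hx).self_of_nhds]
      simp only [OT, bar, KA.d, Function.comp_apply]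
      field_simp
    · intro x hx
      have h0 := notMem_tsupport_iff_eventuallyEq.1 fun h' => hx (h3 h')
      rw [PGS.du0 h0, h0.self_of_nhds, zero_ot, md_zero, Pi.zero_apply, zero_mul, add_zero]

theorem gs4 (h : A.Std) (h4 : St4) : A.GS4 := by
  intro V L hV hL
  have hS : ∀ U, A.SM U → ∀ z, ∀ a ∈ (U :: L).map A.d, A.S1 a z := fun U hU z a ha => by
    obtain ⟨p, hp, rfl⟩ := List.mem_map.1 ha
    exact h.bas.s1_d p z ((List.mem_cons.1 hp).elim (fun e => e ▸ hU z) fun hp => hL p hp z)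
  refine PGS.glue h (fun U z => A.Dt ((U :: L).map A.d) z) ?_ ?_ ?_ ?_ hV
  · exact fun U hU z => h.bas.Dt_sm _ z (Eventually.of_forall (hS U hU))
  · intro U z hz
    simp only [KA.Dt, List.map_cons, PGS.v1d0 hz, rc_zero]
    rw [det4_zero List.mem_cons_self, zero_div]
  · intro U V z hU hV
    simp only [KA.Dt, List.map_cons, (h.bas.d_add U V z hU hV).v1, KA.v1_add, rc_add]
    rw [← add_div]
    exact congrArg (· / _) (det4_add [] _ _ _)
  · intro l U u hU h1 h2 h3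
    have k : ∀ p, A.SM p → ∀ x ∈ ball (0 : E2) 4, ContDiffAt ℝ ∞ (p ∘ (A.e l).symm) x :=
      fun p hp x hx => A.e_symm l hx ▸ hp _ l (A.symm_mem l hx)
    refine (setIntegral_congr_fun measurableSet_ball fun x hx => ?_).trans
      ((setIntegral_eq_integral_of_forall_compl_eq_zero ?_).trans
      (h4 u (L.map fun p => p ∘ (A.e l).symm) _ h1 isOpen_ball h2 fun q hq => ?_))
    · have r : ∀ p, A.SM p → rc (A.d p l x) = gr (p ∘ (A.e l).symm) x := fun p hp =>
        h.clc.rc_du _ x ((k p hp x hx).differentiableAt (by simp))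
      rw [h.bas.Dt_eq _ _ l (fun a ha => (hS U hU _ a ha).1) (A.symm_mem l hx), A.e_symm l hx,
        div_mul_cancel₀ _ (PGS.dt_ne l hx)]
      simp only [List.map_cons, List.map_map, r U hU, PGS.grc (h3 x hx)]
      congr 2
      exact List.map_congr_left fun p hp => r p (hL p hp)
    · intro x hx
      refine det4_zero ?_
      rw [List.map_cons, PGS.gr0 (notMem_tsupport_iff_eventuallyEq.1 fun h' => hx (h2 h'))]
      exact List.mem_cons_self
    · obtain ⟨p, hp, rfl⟩ := List.mem_map.1 hq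
      exact fun x hx => (k p (hL p hp) x hx).contDiffWithinAt

end Pool.Agent.Lib.MP_356dfe_ag.S
end
end

-- part Pool.Agent.Lib.MP_356dfe_ag.S.PLA
section

/-! Density of the range of the resolvent. -/

set_option autoImplicit false

open Set Filter Topology Metric MeasureTheory
open scoped ContDiff ComplexConjugate Matrix Pointwise

noncomputable section

namespace Pool.Agent.Lib.MP_356dfe_ag.S

variable {Z Λ : Type} [TopologicalSpace Z] [T2Space Z] [MeasurableSpace Z] [BorelSpace Z]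
  {A : KA Z Λ}

namespace PLA

theorem du_congr {u v : E2 → ℝ} {x : E2} (h : u =ᶠ[𝓝 x] v) : du u x = du v x := by
  funext j
  have k : (fun y => (u y : ℂ)) =ᶠ[𝓝 x] fun y => (v y : ℂ) := h.mono fun _ e => congrArg _ e
  simp only [du, dh, k.fderiv_eq]

theorem lev_congr {u v : E2 → ℝ} {x : E2} (h : u =ᶠ[𝓝 x] v) : lev u x = lev v x := by
  have k : ∀ j, (fun y => du u y j) =ᶠ[𝓝 x] fun y => du v y j := fun j =>
    h.eventually_nhds.mono fun _ e => congrFun (du_congr e) j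
  ext j l
  simp only [lev, dba, db, Matrix.of_apply, (k j).fderiv_eq]

omit [T2Space Z] [BorelSpace Z] in
theorem L_smul (h : A.Std) (c : ℝ) (U : Z → ℝ) (z : Z) : A.L (c • U) z = c * A.L U z := by
  rw [KA.L, h.bas.d_smul, h.bas.bar_smul]
  exact tr_smul _ _ _

omit [T2Space Z] [BorelSpace Z] in
theorem L_add (h : A.Std) {U V : Z → ℝ} (hU : A.SM U) (hV : A.SM V) (z : Z) :
    A.L (U + V) z = A.L U z + A.L V z := by
  have k : A.v2 (bar (A.d (U + V))) z = A.v2 (bar (A.d U + A.d V)) z :=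
    h.bas.bar_congr _ _ z (.of_forall fun w => h.bas.d_add U V w (hU w) (hV w)) _ (A.mem_i z)
  rw [KA.L, KA.Tr, k, h.bas.bar_add _ _ z (h.bas.s1_d U z (hU z)) (h.bas.s1_d V z (hV z)), tr_add]
  rfl

omit [T2Space Z] [BorelSpace Z] in
theorem L_zero (h : A.Std) {U : Z → ℝ} {z : Z} (hz : z ∉ tsupport U) : A.L U z = 0 := by
  have k : A.v2 (bar (A.d U)) z = A.v2 (bar (A.d ((0 : ℝ) • U))) z :=
    lev_congr (A.ev_symm (A.mem_i z) (p := fun w => U w = ((0 : ℝ) • U) w)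
      ((notMem_tsupport_iff_eventuallyEq.1 hz).mono fun w e => by simpa using e))
  rw [KA.L, KA.Tr, k]
  exact (L_smul h 0 U z).trans (zero_mul _)

omit [T2Space Z] in
theorem memD (h : A.Std) {U : Z → ℝ} (hU : A.D U) : MemLp U 2 A.μ :=
  have := h.meas.fin
  (continuous_iff_continuousAt.2 fun z =>
    h.bas.sm_cont U z (hU.1 z)).memLp_of_hasCompactSupport hU.2

/-- the range of the operator -/
def Rg (h : A.Std) (ε : ℝ) : Submodule ℝ (Lp ℝ 2 A.μ) where
  carrier := {x | ∃ U, A.D U ∧ x =ᵐ[A.μ] fun z => ε * U z - A.L U z}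
  zero_mem' := ⟨0, ⟨fun z => KA.sm_const 0 z, HasCompactSupport.zero⟩,
    (Lp.coeFn_zero ℝ 2 A.μ).mono fun z e => by
      simpa [L_zero h (U := 0) (z := z) (by simp)] using e⟩
  add_mem' := by
    rintro x y ⟨U, hU, e⟩ ⟨V, hV, e'⟩
    refine ⟨U + V, ⟨fun z => (hU.1 z).add (hV.1 z), hU.2.add hV.2⟩, ?_⟩
    filter_upwards [Lp.coeFn_add x y, e, e'] with z h1 h2 h3
    rw [h1, Pi.add_apply, h2, h3, L_add h hU.1 hV.1, Pi.add_apply]
    ring
  smul_mem' := by
    rintro c x ⟨U, hU, e⟩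
    refine ⟨c • U, ⟨fun z => (KA.sm_const c z).mul (hU.1 z), hU.2.smul_left (f := fun _ => c)⟩, ?_⟩
    filter_upwards [Lp.coeFn_smul c x, e] with z h1 h2
    rw [h1, Pi.smul_apply, h2, L_smul h, Pi.smul_apply, smul_eq_mul, smul_eq_mul]
    ring

omit [T2Space Z] [BorelSpace Z] in
theorem inner_eq {x y : Lp ℝ 2 A.μ} {f g : Z → ℝ} (hx : x =ᵐ[A.μ] f) (hy : y =ᵐ[A.μ] g) :
    inner ℝ x y = ∫ z, f z * g z ∂A.μ := by
  rw [L2.inner_def]
  refine integral_congr_ae ?_
  filter_upwards [hx, hy] with z h1 h2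
  rw [h1, h2, real_inner_comm]
  rfl

omit [T2Space Z] [BorelSpace Z] in
theorem near (h : A.Std) {ε : ℝ} (k : (Rg h ε)ᗮ = ⊥) (x : Lp ℝ 2 A.μ) {η : ℝ} (hη : 0 < η) :
    ∃ y ∈ Rg h ε, ‖y - x‖ < η := by
  have h1 : x ∈ closure (Rg h ε : Set (Lp ℝ 2 A.μ)) :=
    (Submodule.topologicalClosure_eq_top_iff.2 k).ge Submodule.mem_top
  obtain ⟨y, h2, h3⟩ := Metric.mem_closure_iff.1 h1 η hη
  exact ⟨y, h2, by rwa [← dist_eq_norm, dist_comm]⟩

omit [T2Space Z] [BorelSpace Z] in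
theorem la_of (h : A.Std) {ε : ℝ} (k : (Rg h ε)ᗮ = ⊥) : A.LA ε := fun f hf η hη => by
  obtain ⟨y, ⟨U, hU, e⟩, h1⟩ := near h k (hf.toLp f) (Real.sqrt_pos.2 hη)
  have e2 : (y - hf.toLp f : Lp ℝ 2 A.μ) =ᵐ[A.μ] fun z => ε * U z - A.L U z - f z := by
    filter_upwards [Lp.coeFn_sub y (hf.toLp f), e, hf.coeFn_toLp] with z h1 h2 h3
    rw [h1, Pi.sub_apply, h2, h3]
  refine ⟨U, hU, ?_⟩
  simp only [sq]
  rw [← inner_eq e2 e2, real_inner_self_eq_norm_sq]
  exact ((Real.lt_sqrt (norm_nonneg _)).1 h1).le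

omit [T2Space Z] in
theorem neg (h : A.Std) (h1 : A.GS1) {U : Z → ℝ} (hU : A.D U) :
    ∫ z, U z * A.L U z ∂A.μ ≤ 0 := by
  have := h.meas.fin
  have s := fun z => h.bas.s1_d U z (hU.1 z)
  have i1 : Integrable (A.N (A.d U)) A.μ :=
    (continuous_iff_continuousAt.2 fun z => h.bas.sm_cont _ z
      (h.bas.P_sm _ _ z (.of_forall fun w => ⟨s w, s w⟩))).integrable_of_hasCompactSupport
      (hU.2.mono' fun z hz => by_contra fun k => hz (by
        have e : A.v1 (A.d U) z = du 0 _ := du_congr (A.ev_symm (A.mem_i z)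
          (p := fun w => U w = 0) (notMem_tsupport_iff_eventuallyEq.1 k))
        have e' : ∀ x, du 0 x = 0 := fun x => funext fun j => by simp [du, dh]
        rw [KA.P, e, e', n1_zero]))
  have i2 : Integrable (fun z => U z * A.L U z) A.μ :=
    (memD h hU).integrable_mul (memD h (h.bas.L_D U hU).1)
  refine (integral_mono i2 (i1.add i2) fun z => le_add_of_nonneg_left
    (h.alg.n1_nn _ _ (h.bas.pd z))).trans
    (h1 A.met (A.d U) U h.bas.cl2_met (fun z => KA.ex_d (.of_forall hU.1)) hU).le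

theorem down (h : A.Std) (h1 : A.GS1) {ε M : ℝ} (hε : 0 < ε) (hM : ε ≤ M)
    (k : (Rg h M)ᗮ = ⊥) : (Rg h ε)ᗮ = ⊥ := by
  refine (Submodule.eq_bot_iff _).2 fun x hx => norm_le_zero_iff.1 (le_of_forall_pos_le_add
    fun η hη => ?_)
  have M0 := hε.trans_le hM
  obtain ⟨y, ⟨U, hU, e⟩, h2⟩ := near h k x (η := ε * η / (2 * M)) (by positivity)
  obtain ⟨u, eu⟩ : ∃ u : Lp ℝ 2 A.μ, u =ᵐ[A.μ] U := ⟨_, (memD h hU).coeFn_toLp⟩
  obtain ⟨v, ev⟩ : ∃ v : Lp ℝ 2 A.μ, v =ᵐ[A.μ] A.L U :=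
    ⟨_, (memD h (h.bas.L_D U hU).1).coeFn_toLp⟩
  have c : ∀ t : ℝ, (t • u - v : Lp ℝ 2 A.μ) =ᵐ[A.μ] fun z => t * U z - A.L U z := fun t => by
    filter_upwards [Lp.coeFn_sub (t • u) v, Lp.coeFn_smul t u, eu, ev] with z h1 h2 h3 h4
    rw [h1, Pi.sub_apply, h2, Pi.smul_apply, h3, h4, smul_eq_mul]
  obtain rfl : y = M • u - v := Lp.ext (e.trans (c M).symm)
  have a1 : inner ℝ (ε • u - v) x = 0 := hx _ ⟨U, hU, c ε⟩
  have a2 : inner ℝ u v ≤ 0 := (inner_eq eu ev).trans_le (neg h h1 hU)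
  have a3 : M * ‖u‖ ≤ ‖M • u - v‖ := by
    refine (sq_le_sq₀ (by positivity) (norm_nonneg _)).1 ?_
    rw [norm_sub_sq_real, norm_smul, Real.norm_of_nonneg M0.le, real_inner_smul_left]
    nlinarith [sq_nonneg ‖v‖]
  have a4 : inner ℝ (M • u - v) x = (M - ε) * inner ℝ u x := by
    rw [inner_sub_left, real_inner_smul_left] at a1 ⊢
    linarith
  generalize M • u - v = y at *
  have a5 := neg_le_of_abs_le (abs_real_inner_le_norm (y - x) x)
  have a6 := mul_le_mul_of_nonneg_left (real_inner_le_norm u x) (sub_nonneg.2 hM)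
  have a7 := norm_le_norm_add_norm_sub' y x
  rw [inner_sub_left, real_inner_self_eq_norm_sq] at a5
  rw [lt_div_iff₀ (by positivity)] at h2
  rcases (norm_nonneg x).eq_or_lt with x0 | x0
  · linarith
  have a8 : ‖x‖ ≤ (M - ε) * ‖u‖ + ‖y - x‖ := le_of_mul_le_mul_right (by nlinarith) x0
  have a9 := mul_le_mul_of_nonneg_left (a3.trans a7) (sub_nonneg.2 hM)
  refine le_of_mul_le_mul_left ?_ hε
  nlinarith [mul_le_mul_of_nonneg_left a8 M0.le, mul_nonneg hε.le (norm_nonneg (y - x))]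

omit [TopologicalSpace Z] [T2Space Z] [MeasurableSpace Z] [BorelSpace Z] in
theorem cont (h : Calc) {u : E2 → ℝ} (hu : ContDiffOn ℝ ∞ u (ball 0 4)) (j k : Fin 2) :
    ContinuousOn (fun x => lev u x j k) (ball 0 4) := fun x hx =>
  (h.sm_dba _ x (h.sm_du u x (hu.contDiffAt (isOpen_ball.mem_nhds hx))) j
    k).continuousAt.continuousWithinAt

omit [TopologicalSpace Z] [T2Space Z] [MeasurableSpace Z] [BorelSpace Z] in
theorem cont_dt {g : E2 → M2} {K : Set E2} (h : ∀ j k, ContinuousOn (fun x => g x j k) K) :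
    ContinuousOn (fun x => dt (g x)) K :=
  (Complex.continuous_re.comp_continuousOn (((((h 0 0).mul (h 1 1)).add ((h 1 1).mul (h 0 0))).sub
    ((h 0 1).mul (h 1 0))).sub ((h 1 0).mul (h 0 1)))).div_const 2

/-- the estimate in one chart -/
theorem loc (h : A.Std) (h3 : PE3) (j : Fin A.m) {q : ℝ} (hq : 0 < q) : ∃ M₀, ∀ M ≥ M₀,
    ∀ x ∈ (Rg h M)ᗮ, ∀ l, A.ty l = j →
      ∫ z in (A.e l).symm '' ball 0 1, x z ^ 2 ∂A.μ ≤ q * ∫ z in A.src l, x z ^ 2 ∂A.μ := by
  have s1 : closedBall (0 : E2) 2 ⊆ ball 0 4 := closedBall_subset_ball (by norm_num)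
  have s2 : ball (0 : E2) 2 ⊆ ball 0 4 := ball_subset_closedBall.trans s1
  have s3 : ball (0 : E2) 1 ⊆ ball 0 2 := ball_subset_ball (by norm_num)
  have ct := cont h.clc (A.pot_sm j)
  obtain ⟨c, c0, hc⟩ := h.alg.cmp _ (lev (A.pot j)) (isCompact_closedBall 0 2)
    (fun a b => (ct a b).mono s1) fun x hx => A.pos j x (s1 hx)
  refine (h3 _ ct (A.pos j) (c * c * q) (by positivity)).imp fun M₀ k M hM x hx l hl => ?_
  subst hl
  have i0 : Integrable (fun z => x z ^ 2) A.μ := (Lp.memLp x).integrable_sq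
  have i1 := fun s hs k => h.meas.int l s hs k fun z => x z ^ 2
  have i2 := (i1 _ measurableSet_ball s2).1.1 i0.integrableOn
  have m1 : AEStronglyMeasurable (fun y => dt (A.met l y)) (volume.restrict (ball 0 2)) :=
    ((cont_dt ct).mono s2).aestronglyMeasurable measurableSet_ball
  have m2 : AEStronglyMeasurable (fun y => x ((A.e l).symm y)) (volume.restrict (ball 0 2)) :=
    ((Lp.stronglyMeasurable x).measurable.comp_aemeasurable (((A.e l).continuousOn_symm.mono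
      (A.tgt l ▸ s2)).aemeasurable measurableSet_ball)).aestronglyMeasurable
  have b1 : ∀ y ∈ ball (0 : E2) 2, c ≤ dt (A.met l y) ∧ dt (A.met l y) ≤ c⁻¹ := fun y hy =>
    ⟨(hc y (ball_subset_closedBall hy)).1, (hc y (ball_subset_closedBall hy)).2.1⟩
  have b2 : ∀ y ∈ ball (0 : E2) 2, c * (x ((A.e l).symm y) ^ 2 * dt (A.met l y)) ≤
      (x ((A.e l).symm y) * dt (A.met l y)) ^ 2 ∧ (x ((A.e l).symm y) * dt (A.met l y)) ^ 2 ≤
      c⁻¹ * (x ((A.e l).symm y) ^ 2 * dt (A.met l y)) := fun y hy => by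
    have := mul_nonneg (sq_nonneg (x ((A.e l).symm y))) (c0.le.trans (b1 y hy).1)
    exact ⟨(mul_le_mul_of_nonneg_right (b1 y hy).1 this).trans_eq (by ring),
      Eq.trans_le (by ring) (mul_le_mul_of_nonneg_right (b1 y hy).2 this)⟩
  have i3 : IntegrableOn (fun y => (x ((A.e l).symm y) * dt (A.met l y)) ^ 2) (ball 0 2) :=
    (i2.const_mul c⁻¹).mono' ((m2.mul m1).pow 2) (ae_restrict_of_forall_mem measurableSet_ball
      fun y hy => by
        rw [Real.norm_of_nonneg (sq_nonneg _)]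
        exact (b2 y hy).2)
  have k1 := k M hM (fun y => x ((A.e l).symm y) * dt (A.met l y))
    ((memLp_two_iff_integrable_sq (m2.mul m1)).2 i3) fun U hU hs => by
      obtain ⟨d1, d2⟩ := h.bump.ext_D l U hU (hs.trans s2)
      have m := ((memD h d1).const_mul M).sub (memD h (h.bas.L_D _ d1).1)
      have e := hx (m.toLp _) ⟨_, d1, m.coeFn_toLp⟩
      rw [real_inner_comm, inner_eq .rfl m.coeFn_toLp,
        ← setIntegral_eq_integral_of_forall_compl_eq_zero (s := (A.e l).symm '' ball 0 2)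
          fun z hz => by
            have t : z ∉ tsupport (A.ext l U) := fun t => hz (image_mono hs (d2 ▸ t))
            simp [L_zero h t, image_eq_zero_of_notMem_tsupport t],
        (h.meas.int l _ measurableSet_ball s2 _).2] at e
      refine Eq.trans (setIntegral_congr_fun measurableSet_ball fun y hy => ?_) e
      have y1 := A.symm_mem l (s2 hy)
      have y2 : ∀ w ∈ ball (0 : E2) 4, A.ext l U ((A.e l).symm w) = U w := fun w hw => by
        rw [KA.ext, indicator_of_mem (A.symm_mem l hw), A.e_symm l hw]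
      have y3 := h.bas.Tr_eq _ _ l (h.bas.cl2_bar _ _ (KA.ex_d (.of_forall d1.1))).1.1 y1
      rw [A.e_symm l (s2 hy)] at y3
      have y4 : bar (A.d (A.ext l U)) l y = lev U y :=
        lev_congr (eventually_of_mem (isOpen_ball.mem_nhds (s2 hy)) y2)
      simp only [Pi.sub_apply, KA.L, y3, y4, y2 y (s2 hy)]
      exact mul_right_comm _ _ _
  have k2 := setIntegral_mono_on ((i2.mono_set s3).const_mul c) (i3.mono_set s3)
    measurableSet_ball fun y hy => (b2 y (s3 hy)).1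
  have k3 := setIntegral_mono_on i3 (i2.const_mul c⁻¹) measurableSet_ball fun y hy => (b2 y hy).2
  rw [integral_const_mul, ← (i1 _ measurableSet_ball (s3.trans s2)).2] at k2
  rw [integral_const_mul, ← (i1 _ measurableSet_ball s2).2] at k3
  have k4 : ∫ z in (A.e l).symm '' ball 0 2, x z ^ 2 ∂A.μ ≤ ∫ z in A.src l, x z ^ 2 ∂A.μ :=
    setIntegral_mono_set i0.integrableOn (.of_forall fun _ => sq_nonneg _)
      (LE.le.eventuallyLE (image_subset_iff.2 fun y hy => A.symm_mem l (s2 hy)))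
  refine le_of_mul_le_mul_left (k2.trans (k1.trans ((mul_le_mul_of_nonneg_left (k3.trans
    (mul_le_mul_of_nonneg_left k4 (by positivity))) (by positivity)).trans_eq ?_))) c0
  field_simp

theorem big (h : A.Std) (h3 : PE3) (ε : ℝ) : ∃ M, ε ≤ M ∧ (Rg h M)ᗮ = ⊥ := by
  obtain ⟨k, hk⟩ := h.meas.sum
  have q0 : 0 < (2 * (|k| + 1))⁻¹ := by positivity
  choose M₀ hM using fun j => loc h h3 j q0
  obtain ⟨M, h1⟩ := Finite.exists_le M₀
  refine ⟨max ε M, le_max_left _ _, (Submodule.eq_bot_iff _).2 fun x hx => ?_⟩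
  have i0 : Integrable (fun z => x z ^ 2) A.μ := (Lp.memLp x).integrable_sq
  obtain ⟨s1, s2⟩ := hk _ (fun _ => sq_nonneg _) i0
  have n : ∀ μ : Measure Z, 0 ≤ᵐ[μ] fun z => x z ^ 2 := fun _ => .of_forall fun _ => sq_nonneg _
  have k1 := h.meas.cov fun z => ENNReal.ofReal (x z ^ 2)
  rw [← ofReal_integral_eq_lintegral_ofReal i0 (n _)] at k1
  have k2 := k1.trans (ENNReal.tsum_le_tsum fun l =>
    (ofReal_integral_eq_lintegral_ofReal i0.integrableOn (n _)).symm.trans_le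
      (ENNReal.ofReal_le_ofReal (hM _ _ ((h1 _).trans (le_max_right _ _)) x hx l rfl)))
  rw [← ENNReal.ofReal_tsum_of_nonneg (fun _ => mul_nonneg q0.le (integral_nonneg_of_ae (n _)))
    (s1.mul_left _), tsum_mul_left, ENNReal.ofReal_le_ofReal_iff (mul_nonneg q0.le
      (tsum_nonneg fun _ => integral_nonneg_of_ae (n _))), le_inv_mul_iff₀ (by positivity)] at k2
  have e : ∫ z, x z ^ 2 ∂A.μ = ‖x‖ ^ 2 := by
    simp only [sq (x _)]
    rw [← inner_eq .rfl .rfl, real_inner_self_eq_norm_sq]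
  rw [e] at k2 s2
  have k3 := mul_le_mul_of_nonneg_right (le_abs_self k) (sq_nonneg ‖x‖)
  have k4 := mul_nonneg (abs_nonneg k) (sq_nonneg ‖x‖)
  exact norm_eq_zero.1 (pow_eq_zero_iff two_ne_zero |>.1 (le_antisymm (by linarith) (sq_nonneg _)))

end PLA

theorem la (h : A.Std) (h3 : PE3) (h1 : A.GS1) : ∀ ε > 0, A.LA ε := fun ε hε =>
  let ⟨_, k1, k2⟩ := PLA.big h h3 ε
  PLA.la_of h (PLA.down h h1 hε k1 k2)

end Pool.Agent.Lib.MP_356dfe_ag.S
end
end

-- part Pool.Agent.Lib.MP_356dfe_ag.S.PHR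
section

/-! Holomorphic representatives. -/

set_option autoImplicit false

open Set Filter Topology Metric MeasureTheory
open scoped ContDiff ComplexConjugate Matrix Pointwise

noncomputable section

namespace Pool.Agent.Lib.MP_356dfe_ag.S

variable {Z Λ : Type} [TopologicalSpace Z] [T2Space Z] [MeasurableSpace Z] [BorelSpace Z]
  {A : KA Z Λ}

namespace PHR

omit [T2Space Z] [BorelSpace Z]

theorem d_zero (h : A.Std) : A.d 0 = 0 := by
  simpa using h.bas.d_smul 0 0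

theorem d_const (h : A.Std) {U : Z → ℝ} {z : Z} {c : ℝ} (e : ∀ᶠ w in 𝓝 z, U w = c) :
    ∀ᶠ w in 𝓝 z, A.Eq1 (A.d U) 0 w := by
  rw [← d_zero h]
  exact h.bas.d_congr U 0 z c (by simpa using e)

theorem herm (h : A.Std) {b : F1 Λ} {z : Z} (hb : A.Ex b z) : (A.v2 (bar b) z).IsHermitian :=
  ((h.bas.cl2_bar b z hb).2 _ (A.mem_i z)).1

theorem cont (h : A.Std) {U : Z → ℝ} (hU : ∀ z, A.Sm U z) : Continuous U :=
  continuous_iff_continuousAt.2 fun z => h.bas.sm_cont U z (hU z)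

theorem cont_N (h : A.Std) {b : F1 Λ} (hb : ∀ z, A.Ex b z) : Continuous (A.N b) :=
  cont h fun z => h.bas.P_sm b b z (.of_forall fun w => ⟨h.bas.ex_s1 b w (hb w), h.bas.ex_s1 b w (hb w)⟩)

theorem cont_NN (h : A.Std) {b : F1 Λ} (hb : ∀ z, A.Ex b z) : Continuous (A.NN (bar b)) :=
  cont h fun z => h.bas.NN_sm _ z (.of_forall fun w => (h.bas.cl2_bar b w (hb w)).1)

omit [MeasurableSpace Z] in
theorem ex_dd {U : Z → ℝ} (hU : A.D U) (z : Z) : A.Ex (A.d U) z :=
  KA.ex_d (.of_forall hU.1)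

end PHR

namespace PHR

theorem int_d (h : A.Std) {U : Z → ℝ} (hU : A.D U) :
    Integrable (A.N (A.d U)) A.μ ∧ Integrable (A.NN (bar (A.d U))) A.μ := by
  have := h.meas.fin
  have k : ∀ z ∉ tsupport U, ∀ᶠ w in 𝓝 z, A.Eq1 (A.d U) 0 w := fun z hz =>
    d_const h (notMem_tsupport_iff_eventuallyEq.1 hz)
  refine ⟨(cont_N h (ex_dd hU)).integrable_of_hasCompactSupport (.intro hU.2 fun z hz => ?_),
    (cont_NN h (ex_dd hU)).integrable_of_hasCompactSupport (.intro hU.2 fun z hz => ?_)⟩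
  · rw [KA.N, KA.P, (k z hz).self_of_nhds.v1]
    exact n1_zero _ _
  · have e : bar (0 : F1 Λ) = 0 := by simpa using h.bas.bar_smul 0 0
    rw [KA.NN, KA.v2, h.bas.bar_congr _ _ z (k z hz) _ (A.mem_i z), e]
    simp [ip, tr_zero, md_zero]

omit [T2Space Z] in
theorem int_add (h : A.Std) {a b : F1 Λ} (ha : ∀ z, A.Ex a z) (hb : ∀ z, A.Ex b z)
    (h1 : Integrable (A.N a) A.μ) (h2 : Integrable (A.NN (bar a)) A.μ)
    (h3 : Integrable (A.N b) A.μ) (h4 : Integrable (A.NN (bar b)) A.μ) :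
    Integrable (A.N (a + b)) A.μ ∧ Integrable (A.NN (bar (a + b))) A.μ := by
  have hab := fun z => h.bas.ex_add a b z (ha z) (hb z)
  refine ⟨((h1.const_mul 2).add (h3.const_mul 2)).mono' (cont_N h hab).aestronglyMeasurable
    (.of_forall fun z => ?_), ((h2.const_mul 2).add (h4.const_mul 2)).mono'
      (cont_NN h hab).aestronglyMeasurable (.of_forall fun z => ?_)⟩
  · rw [KA.N, KA.P, Real.norm_of_nonneg (h.alg.n1_nn _ _ (h.bas.pd z))]
    exact h.alg.n1_add _ _ _ (h.bas.pd z)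
  · rw [KA.NN, Real.norm_of_nonneg (h.alg.ip_nn _ _ (h.bas.pd z) (herm h (hab z))),
      h.bas.bar_add a b z (h.bas.ex_s1 a z (ha z)) (h.bas.ex_s1 b z (hb z))]
    exact h.alg.ip_add _ _ _ (h.bas.pd z) (herm h (ha z)) (herm h (hb z))

end PHR

theorem hri (h : A.Std) (h1 : A.GS1) : A.HRi := by
  intro b hb i1 i2
  have hT := fun z => h.bas.cl2_bar b z (hb z)
  have nn := fun z => h.alg.ip_nn _ _ (h.bas.pd z) (PHR.herm h (hb z))
  have cW : Continuous (A.W (bar b) (bar b)) :=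
    PHR.cont h fun z => h.bas.W_sm _ _ z (.of_forall fun w => ⟨(hT w).1, (hT w).1⟩)
  have iW : Integrable (A.W (bar b) (bar b)) A.μ :=
    (i2.const_mul 3).mono' cW.aestronglyMeasurable (.of_forall fun z => by
      have := h.alg.md_le _ _ _ (h.bas.pd z) (PHR.herm h (hb z)) (PHR.herm h (hb z))
      rwa [mul_assoc, Real.mul_self_sqrt (nn z)] at this)
  obtain ⟨χ, C, c1, c2⟩ := h.bump.cut
  have lim := tendsto_integral_of_dominated_convergence (μ := A.μ)
    (F := fun n z => A.W (bar b) (OT (A.d (χ n)) b) z + χ n z * A.W (bar b) (bar b) z)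
    (f := A.W (bar b) (bar b))
    (fun z => 3 * √C * (A.NN (bar b) z + A.N b z) + ‖A.W (bar b) (bar b) z‖)
    (fun n => ((PHR.cont h fun z => h.bas.W_sm _ _ z (.of_forall fun w => ⟨(hT w).1,
      h.bas.s2_ot _ _ w (h.bas.s1_d _ w ((c1 n).1.1 w)) (h.bas.ex_s1 b w (hb w))⟩)).add
        ((PHR.cont h (c1 n).1.1).mul cW)).aestronglyMeasurable)
    (((i2.add i1).const_mul _).add iW.norm)
    (fun n => .of_forall fun z => by
      obtain ⟨k1, k2, k3⟩ := (c1 n).2 z
      refine (norm_add_le _ _).trans (add_le_add ?_ ?_)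
      · have k4 := h.alg.md_ot_le _ _ (A.v1 (A.d (χ n)) z) (A.v1 b z) (h.bas.pd z)
          (PHR.herm h (hb z))
        have k5 := Real.sqrt_le_sqrt k3
        have k6 := Real.mul_self_sqrt (nn z)
        have k7 := Real.mul_self_sqrt (h.alg.n1_nn _ (A.v1 b z) (h.bas.pd z))
        refine k4.trans ?_
        change 3 * √(A.NN (bar b) z) * √(A.N (A.d (χ n)) z) * √(A.N b z) ≤ _
        change √(A.NN (bar b) z) * √(A.NN (bar b) z) = A.NN (bar b) z at k6
        change √(A.N b z) * √(A.N b z) = A.N b z at k7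
        have p1 := Real.sqrt_nonneg (A.NN (bar b) z)
        have p2 := Real.sqrt_nonneg (A.N b z)
        have p3 := Real.sqrt_nonneg (A.N (A.d (χ n)) z)
        generalize √(A.NN (bar b) z) = x, √(A.N b z) = y, √(A.N (A.d (χ n)) z) = u, √C = v at *
        rw [← k6, ← k7]
        have p4 : x * y ≤ x * x + y * y := by nlinarith [sq_nonneg (x - y), mul_nonneg p1 p2]
        calc _ = 3 * u * (x * y) := by ring
          _ ≤ _ := by gcongr; linarith
      · rw [norm_mul, Real.norm_of_nonneg k1]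
        exact mul_le_of_le_one_left (norm_nonneg _) k2)
    (.of_forall fun z => tendsto_const_nhds.congr' ((c2 z).mono fun n hn => by
      have e : A.v1 (A.d (χ n)) z = 0 := (PHR.d_const h hn).self_of_nhds.v1
      simp only [hn.self_of_nhds, one_mul, KA.W, KA.v2_OT, e, zero_ot, md_zero, zero_div, zero_add]))
  simp only [fun n => h1 _ b _ hT hb (c1 n).1] at lim
  have e := integral_add i2 iW
  rw [← tendsto_nhds_unique tendsto_const_nhds lim, add_zero] at e
  rw [← e]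
  refine integral_congr_ae (.of_forall fun z => ?_)
  simp only [KA.NN_eq_W]
  ring

theorem v1 (h : A.Std) (h1 : A.HRi) (h2 : A.Seq) (h3 : A.Lim) : A.V1 := by
  intro a ha i1 i2
  obtain ⟨U, u1, u2, u3⟩ := h2 a ha i1 i2
  have u4 : ∀ n, A.D ((-1 : ℝ) • U n) := fun n =>
    ⟨fun z => by simpa using ((u1 n).1 z).neg, by simpa using (u1 n).2.neg⟩
  have e : ∀ n, a - A.d (U n) = a + A.d ((-1 : ℝ) • U n) := fun n => by
    rw [h.bas.d_smul, neg_one_smul, sub_eq_add_neg]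
  have hb : ∀ n z, A.Ex (a - A.d (U n)) z := fun n z =>
    e n ▸ h.bas.ex_add _ _ z (ha z) (PHR.ex_dd (u4 n) z)
  have ib : ∀ n, Integrable (A.N (a - A.d (U n))) A.μ ∧
      Integrable (A.NN (bar (a - A.d (U n)))) A.μ := fun n =>
    e n ▸ PHR.int_add h ha (PHR.ex_dd (u4 n)) i1 i2 (PHR.int_d h (u4 n)).1 (PHR.int_d h (u4 n)).2
  obtain ⟨g, g1, g2, g3⟩ := h3 (fun n => a - A.d (U n)) hb (fun n => (ib n).1) (fun n => (ib n).2)
    (fun ε hε => by
      obtain ⟨k, hk⟩ := u2 ε hε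
      refine ⟨k, fun m hm n hn => ?_⟩
      rw [sub_sub_sub_cancel_left]
      exact hk n hn m hm)
    (u3.congr fun n => by
      rw [h1 _ (hb n) (ib n).1 (ib n).2]
      refine integral_congr_ae (.of_forall fun z => ?_)
      have k := h.bas.bar_add a _ z (h.bas.ex_s1 a z (ha z)) (h.bas.s1_d _ z ((u4 n).1 z))
      rw [← e, h.bas.d_smul, h.bas.bar_smul] at k
      have k2 : A.v2 ((-1 : ℝ) • bar (A.d (U n))) z = (-1 : ℝ) • A.v2 (bar (A.d (U n))) z := rfl
      simp only [KA.L, KA.Tr, k, k2, tr_add, tr_smul]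
      ring)
  refine ⟨g, g1, g2, fun η hη => ?_⟩
  obtain ⟨n, hn⟩ := (g3.eventually (eventually_le_nhds hη)).exists
  exact ⟨U n, u1 n, by rwa [sub_right_comm]⟩

theorem van (h : A.Std) (h1 : A.V1) (h2 : A.HZ) : A.Van := by
  intro a ha i1 i2 η hη
  obtain ⟨g, g1, g2, g3⟩ := h1 a ha i1 i2
  obtain ⟨U, u1, u2⟩ := g3 η hη
  refine ⟨U, u1, le_of_eq_of_le (integral_congr_ae (.of_forall fun z => ?_)) u2⟩
  have e : A.v1 g z = 0 := h.alg.n1_zero _ _ (h.bas.pd z) (h2 g g1 g2 z)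
  simp only [KA.N, KA.P, KA.v1_sub, e, sub_zero]

end Pool.Agent.Lib.MP_356dfe_ag.S
end
end

-- part Pool.Agent.Lib.MP_356dfe_ag.S.PSeq
section

/-! Minimizing sequences. -/

set_option autoImplicit false

open Set Filter Topology Metric MeasureTheory
open scoped ContDiff ComplexConjugate Matrix Pointwise

noncomputable section

namespace Pool.Agent.Lib.MP_356dfe_ag.S

variable {Z Λ : Type} [TopologicalSpace Z] [T2Space Z] [MeasurableSpace Z] [BorelSpace Z]
  {A : KA Z Λ}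

namespace PSeq

variable {a b : F1 Λ} {U V : Z → ℝ}

omit [T2Space Z] [BorelSpace Z] in
theorem cont (h : A.Std) (hU : A.SM U) : Continuous U :=
  continuous_iff_continuousAt.2 fun z => h.bas.sm_cont U z (hU z)

theorem int_D (h : A.Std) (hU : A.SM U) (hV : A.D V) : Integrable (fun z => V z * U z) A.μ := by
  have := h.meas.fin
  exact ((cont h hV.1).mul (cont h hU)).integrable_of_hasCompactSupport hV.2.mul_right

omit [T2Space Z] [MeasurableSpace Z] [BorelSpace Z] in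
theorem ex_d (hU : A.D U) (z : Z) : A.Ex (A.d U) z := KA.ex_d (.of_forall hU.1)

theorem int_P (h : A.Std) (hV : A.D V) (hb : ∀ z, A.Ex b z) : Integrable (A.P (A.d V) b) A.μ := by
  have := h.meas.fin
  refine (cont h fun z => h.bas.P_sm _ _ z (.of_forall fun w => ⟨h.bas.s1_d V w (hV.1 w),
    h.bas.ex_s1 b w (hb w)⟩)).integrable_of_hasCompactSupport
    (.intro (h.bas.L_D V hV).2.1.2 fun z hz => ?_)
  rw [KA.P, (show A.Eq1 (A.d V) 0 z from not_not.1 fun k => hz (subset_closure k)).v1]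
  exact zero_n1 _ _

omit [T2Space Z] [BorelSpace Z] in
theorem sm_Tr (h : A.Std) (hb : ∀ z, A.Ex b z) : A.SM (A.Tr (bar b)) := fun z =>
  h.bas.Tr_sm _ z (.of_forall fun w => (h.bas.cl2_bar b w (hb w)).1)

theorem gs (h : A.Std) (h1 : A.GS1) (hV : A.D V) (hb : ∀ z, A.Ex b z) :
    Integrable (fun z => A.P (A.d V) b z + V z * A.Tr (bar b) z) A.μ ∧
      ∫ z, (A.P (A.d V) b z + V z * A.Tr (bar b) z) ∂A.μ = 0 :=
  ⟨(int_P h hV hb).add (int_D h (sm_Tr h hb) hV), h1 _ b V h.bas.cl2_met hb hV⟩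

theorem int_N (h : A.Std) (ha : ∀ z, A.Ex a z) (h1 : Integrable (A.N a) A.μ) (hV : A.D V) :
    Integrable (A.N (a - A.d V)) A.μ := by
  refine ((h1.sub ((int_P h hV ha).const_mul 2)).add (int_P h hV (ex_d hV))).congr
    (.of_forall fun z => ?_)
  simp only [Pi.add_apply, Pi.sub_apply, KA.N, KA.P, KA.v1_sub, n1_sub, sub_n1,
    h.alg.n1_comm _ (A.v1 a z) (A.v1 (A.d V) z) (h.bas.pd z)]
  ring

theorem mem_D (h : A.Std) (hV : A.D V) : MemLp V 2 A.μ := by
  have := h.meas.fin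
  exact (cont h hV.1).memLp_of_hasCompactSupport hV.2

omit [T2Space Z] in
theorem mem_Tr (h : A.Std) (ha : ∀ z, A.Ex a z) (h1 : Integrable (A.NN (bar a)) A.μ) :
    MemLp (A.Tr (bar a)) 2 A.μ := by
  have c := cont h (sm_Tr h ha)
  refine (memLp_two_iff_integrable_sq c.aestronglyMeasurable).2 ((h1.const_mul 4).mono'
    (c.pow 2).aestronglyMeasurable (.of_forall fun z => ?_))
  have k := ((h.bas.cl2_bar a z (ha z)).2 _ (A.mem_i z)).1
  have k1 := pow_le_pow_left₀ (abs_nonneg _) (h.alg.tr_le _ _ (h.bas.pd z) k) 2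
  rw [mul_pow, Real.sq_sqrt (h.alg.ip_nn _ _ (h.bas.pd z) k)] at k1
  rw [norm_pow, Real.norm_eq_abs]
  exact k1.trans_eq (by norm_num; rfl)

theorem energy (h : A.Std) (h1 : A.GS1) (ha : ∀ z, A.Ex a z) (h2 : Integrable (A.N a) A.μ)
    (h3 : Integrable (A.NN (bar a)) A.μ) (hU : A.D U) (hV : A.D V) {ε : ℝ} (hε : 0 < ε) :
    ∫ z, A.N (a - A.d U) z ∂A.μ + ε * ∫ z, U z * U z ∂A.μ ≤
      ∫ z, A.N (a - A.d V) z ∂A.μ + ε * ∫ z, V z * V z ∂A.μ +
        (∫ z, (ε * U z - A.L U z - -A.Tr (bar a) z) ^ 2 ∂A.μ) / ε := by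
  obtain ⟨i1, e1⟩ := gs h h1 hV ha
  obtain ⟨i2, e2⟩ := gs h h1 hV (ex_d hU)
  obtain ⟨i3, e3⟩ := gs h h1 hU ha
  obtain ⟨i4, e4⟩ := gs h h1 hU (ex_d hU)
  have i5 := int_N h ha h2 hU
  have i6 := int_N h ha h2 hV
  have i7 := (int_D h hU.1 hU).const_mul ε
  have i8 := (int_D h hV.1 hV).const_mul ε
  have i9 : Integrable (fun z => (ε * U z - A.L U z - -A.Tr (bar a) z) ^ 2 / ε) A.μ :=
    ((((mem_D h hU).const_mul ε).sub (mem_D h (h.bas.L_D U hU).1)).sub
      (mem_Tr h ha h3).neg).integrable_sq.div_const ε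
  have k := integral_mono (i5.add i7) (((i6.add i8).add i9).add
    ((((i1.sub i2).sub i3).add i4).const_mul 2)) fun z => by
      have c := fun x y => h.alg.n1_comm _ x y (h.bas.pd z)
      have n := h.alg.n1_nn _ (A.v1 (A.d V) z - A.v1 (A.d U) z) (h.bas.pd z)
      have q := div_nonneg (sq_nonneg (ε * (V z - U z) + (ε * U z - A.L U z + A.Tr (bar a) z))) hε.le
      rw [show (ε * (V z - U z) + (ε * U z - A.L U z + A.Tr (bar a) z)) ^ 2 / ε =
        ε * (V z - U z) ^ 2 + 2 * (V z - U z) * (ε * U z - A.L U z + A.Tr (bar a) z) +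
          (ε * U z - A.L U z - -A.Tr (bar a) z) ^ 2 / ε by field_simp; ring] at q
      simp only [Pi.add_apply, Pi.sub_apply, KA.N, KA.P, KA.v1_sub, n1_sub, sub_n1, KA.L,
        c (A.v1 a z) (A.v1 (A.d V) z), c (A.v1 a z) (A.v1 (A.d U) z),
        c (A.v1 (A.d U) z) (A.v1 (A.d V) z)] at n q ⊢
      linarith
  rw [integral_add' i5 i7, integral_add' ((i6.add i8).add i9) ((((i1.sub i2).sub i3).add
    i4).const_mul 2), integral_add' (i6.add i8) i9, integral_add' i6 i8, integral_const_mul,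
    integral_const_mul, integral_const_mul, integral_div, integral_add' ((i1.sub i2).sub i3) i4,
    integral_sub' (i1.sub i2) i3, integral_sub' i1 i2, e1, e2, e3, e4] at k
  linarith

theorem para (h : A.Std) (ha : ∀ z, A.Ex a z) (h2 : Integrable (A.N a) A.μ) (hU : A.D U)
    (hV : A.D V) : ∃ W, A.D W ∧ ∫ z, A.N (A.d U - A.d V) z ∂A.μ = 2 * ∫ z, A.N (a - A.d U) z ∂A.μ +
      2 * ∫ z, A.N (a - A.d V) z ∂A.μ - 4 * ∫ z, A.N (a - A.d W) z ∂A.μ := by
  have hW : A.D ((1 / 2 : ℝ) • (U + V)) := ⟨fun z => (KA.sm_const _ z).mul ((hU.1 z).add (hV.1 z)),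
    (hU.2.add hV.2).smul_left (f := fun _ => (1 / 2 : ℝ))⟩
  have i1 := (int_N h ha h2 hU).const_mul 2
  have i2 := (int_N h ha h2 hV).const_mul 2
  have i3 : Integrable (fun z => 2 * A.N (a - A.d U) z + 2 * A.N (a - A.d V) z) A.μ := i1.add i2
  refine ⟨_, hW, ?_⟩
  rw [← integral_const_mul, ← integral_const_mul, ← integral_const_mul, ← integral_add i1 i2,
    ← integral_sub i3 ((int_N h ha h2 hW).const_mul 4)]
  refine integral_congr_ae (.of_forall fun z => ?_)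
  simp only [KA.N, KA.P, KA.v1_sub, h.bas.d_smul, KA.v1_smul,
    (h.bas.d_add U V z (hU.1 z) (hV.1 z)).v1, KA.v1_add, n1_sub, sub_n1, n1_smul, smul_n1, n1_add,
    add_n1]
  ring

end PSeq

open PSeq in
theorem sqn (h : A.Std) (h1 : A.GS1) (hl : ∀ ε > 0, A.LA ε) : A.Seq := by
  intro a ha h2 h3
  obtain ⟨S, hS⟩ : ∃ S, S = {t | ∃ V, A.D V ∧ t = ∫ z, A.N (a - A.d V) z ∂A.μ} := ⟨_, rfl⟩
  have s1 : ∀ V, A.D V → sInf S ≤ ∫ z, A.N (a - A.d V) z ∂A.μ := fun V hV =>
    csInf_le ⟨0, by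
      rintro t ht
      rw [hS] at ht
      obtain ⟨V, -, rfl⟩ := ht
      exact integral_nonneg fun z => h.alg.n1_nn _ _ (h.bas.pd z)⟩ (hS ▸ ⟨V, hV, rfl⟩)
  have key : ∀ δ > 0, ∃ U, A.D U ∧ ∫ z, A.N (a - A.d U) z ∂A.μ ≤ sInf S + 3 * δ ∧
      ∫ z, (A.Tr (bar a) z - A.L U z) ^ 2 ∂A.μ ≤ 8 * δ := fun δ d0 => by
    have s0 : S.Nonempty := by
      rw [hS]
      exact ⟨_, fun _ => 0, ⟨KA.sm_const 0, HasCompactSupport.zero⟩, rfl⟩
    obtain ⟨t, ht, k1⟩ := Real.lt_sInf_add_pos s0 d0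
    rw [hS] at ht
    obtain ⟨V, hV, rfl⟩ := ht
    have nn : ∀ U : Z → ℝ, 0 ≤ ∫ z, U z * U z ∂A.μ := fun U =>
      integral_nonneg fun _ => mul_self_nonneg _
    have v0 := nn V
    obtain ⟨ε, e0, e1, e2⟩ : ∃ ε > 0, ε ≤ 1 ∧ ε * ∫ z, V z * V z ∂A.μ ≤ δ := by
      refine ⟨δ / (∫ z, V z * V z ∂A.μ + δ), by positivity, div_le_one_of_le₀ (by linarith)
        (by positivity), ?_⟩
      rw [div_mul_eq_mul_div, div_le_iff₀ (by positivity)]
      nlinarith
    obtain ⟨U, hU, k2⟩ := hl ε e0 _ (mem_Tr h ha h3).neg _ (mul_pos d0 e0)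
    have k3 := energy h h1 ha h2 h3 hU hV e0
    have k4 := (div_le_iff₀ e0).2 k2
    have k5 := s1 U hU
    have k6 := mul_nonneg e0.le (nn U)
    have m1 := (mem_Tr h ha h3).sub (mem_D h (h.bas.L_D U hU).1)
    have i1 := ((((mem_D h hU).const_mul ε).sub (mem_D h (h.bas.L_D U hU).1)).sub
      (mem_Tr h ha h3).neg).integrable_sq.const_mul 2
    have i2 := (int_D h hU.1 hU).const_mul (2 * ε ^ 2)
    have k7 := integral_mono m1.integrable_sq (i1.add i2) fun z => by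
      simp only [Pi.add_apply, Pi.sub_apply, Pi.neg_apply]
      nlinarith [sq_nonneg (2 * ε * U z - A.L U z + A.Tr (bar a) z)]
    rw [integral_add' i1 i2, integral_const_mul, integral_const_mul] at k7
    simp only [Pi.sub_apply, Pi.neg_apply] at k2 k4 k7
    refine ⟨U, hU, by linarith, k7.trans ?_⟩
    have k8 : ε * ∫ z, U z * U z ∂A.μ ≤ 3 * δ := by linarith
    nlinarith [mul_le_mul e1 k8 k6 zero_le_one, mul_le_mul_of_nonneg_left e1 d0.le]
  choose U u1 u2 u3 using fun n : ℕ => key _ (Nat.one_div_pos_of_nat (n := n))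
  have t0 := tendsto_one_div_add_atTop_nhds_zero_nat (𝕜 := ℝ)
  refine ⟨U, u1, fun ε hε => ?_, squeeze_zero (fun _ => integral_nonneg fun _ => sq_nonneg _) u3
    (by simpa using t0.const_mul 8)⟩
  obtain ⟨k, hk⟩ := eventually_atTop.1 (t0.eventually_le_const (show 0 < ε / 12 by positivity))
  refine ⟨k, fun m hm n hn => ?_⟩
  obtain ⟨W, hW, e⟩ := para h ha h2 (u1 m) (u1 n)
  linarith [s1 W hW, u2 m, u2 n, hk m hm, hk n hn]

end Pool.Agent.Lib.MP_356dfe_ag.S
end
end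

-- part Pool.Agent.Lib.MP_356dfe_ag.S.PHI
section

/-! Sup bounds and the Hodge index identity. -/

set_option autoImplicit false

open Set Filter Topology Metric MeasureTheory
open scoped ContDiff ComplexConjugate Matrix Pointwise

noncomputable section

namespace Pool.Agent.Lib.MP_356dfe_ag.S

variable {Z Λ : Type} [TopologicalSpace Z] [T2Space Z] [MeasurableSpace Z] [BorelSpace Z]
  {A : KA Z Λ}

namespace PHI

theorem cmp (h : A.Std) : ∃ C, 0 ≤ C ∧ ∀ l, ∀ x ∈ closedBall (0 : E2) 3, 1 ≤ C * dt (A.met l x) ∧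
    ∀ a, ‖a‖ ^ 2 ≤ C * n1 (A.met l x) a a ∧ n1 (A.met l x) a a ≤ C * ‖a‖ ^ 2 := by
  have s4 : closedBall (0 : E2) 3 ⊆ ball 0 4 := closedBall_subset_ball (by norm_num)
  choose c c0 hc using fun j => h.alg.cmp (closedBall 0 3) (lev (A.pot j))
    (isCompact_closedBall 0 3) (fun i k x hx => (h.clc.sm_dba _ x (h.clc.sm_du _ x
      ((A.pot_sm j).contDiffAt (isOpen_ball.mem_nhds (s4 hx)))) i k).continuousAt.continuousWithinAt)
    fun x hx => A.pos j x (s4 hx)
  have le : ∀ j, (c j)⁻¹ ≤ ∑ j, (c j)⁻¹ := fun j =>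
    Finset.single_le_sum (fun i _ => (inv_pos.2 (c0 i)).le) (Finset.mem_univ j)
  refine ⟨∑ j, (c j)⁻¹, Finset.sum_nonneg fun i _ => (inv_pos.2 (c0 i)).le, fun l x hx => ?_⟩
  obtain ⟨h1, -, h2, -⟩ := hc (A.ty l) x hx
  have p := A.pos (A.ty l) x (s4 hx)
  exact ⟨((one_le_inv_mul₀ (c0 _)).2 h1).trans (mul_le_mul_of_nonneg_right (le _) p.2.2.le),
    fun a => ⟨((le_inv_mul_iff₀ (c0 _)).2 (h2 a).1).trans
      (mul_le_mul_of_nonneg_right (le _) (h.alg.n1_nn _ a p)),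
      (h2 a).2.trans (mul_le_mul_of_nonneg_right (le _) (sq_nonneg _))⟩⟩

theorem int_of (h : A.Std) {F : Z → ℝ} {K : Set Z} (hF : ∀ z, A.Sm F z) (hK : IsCompact K)
    (h0 : ∀ z ∉ K, F z = 0) : Integrable F A.μ :=
  have := h.meas.fin
  (continuous_iff_continuousAt.2 fun z => h.bas.sm_cont F z (hF z)).integrable_of_hasCompactSupport
    (HasCompactSupport.intro hK h0)

theorem loc (h : A.Std) {U : Z → ℝ} {z : Z} {c : ℝ} (hU : ∀ᶠ w in 𝓝 z, U w = c) :
    A.v1 (A.d U) z = 0 ∧ A.v2 (bar (A.d U)) z = 0 := by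
  have e := h.bas.d_congr U ((0 : ℝ) • U) z c (hU.mono fun w hw => by simp [hw])
  rw [h.bas.d_smul] at e
  refine ⟨by rw [e.self_of_nhds.v1, KA.v1_smul, zero_smul], ?_⟩
  rw [KA.v2, h.bas.bar_congr _ _ z e _ (A.mem_i z), h.bas.bar_smul, zero_smul]
  rfl

theorem W_comm (S T : F2 Λ) (z : Z) : A.W S T z = A.W T S z := by rw [KA.W, md_comm, KA.W]

theorem exact (h : A.Std) (h1 : A.GS1) {U : Z → ℝ} (hU : A.D U) {T : F2 Λ}
    (hT : ∀ z, A.Cl2 T z) :
    Integrable (A.W T (bar (A.d U))) A.μ ∧ ∫ z, A.W T (bar (A.d U)) z ∂A.μ = 0 := by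
  have ex : ∀ z, A.Ex (A.d U) z := fun z => KA.ex_d (Eventually.of_forall hU.1)
  have off : ∀ z ∉ tsupport U, A.W T (bar (A.d U)) z = 0 := fun z hz => by
    rw [KA.W, (loc h (notMem_tsupport_iff_eventuallyEq.1 hz)).2, md_zero, zero_div]
  refine ⟨int_of h (fun z => h.bas.W_sm _ _ z (Eventually.of_forall fun w =>
    ⟨(hT w).1, (h.bas.cl2_bar _ w (ex w)).1⟩)) hU.2 off, ?_⟩
  obtain ⟨χ, d, -, h2, -⟩ := h.bump.bump _ univ hU.2 isOpen_univ (subset_univ _)
  rw [← h1 T _ χ hT ex d]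
  congr 1
  funext z
  by_cases hz : z ∈ tsupport U
  · have h3 := h2.filter_mono (nhds_le_nhdsSet hz)
    rw [h3.self_of_nhds, one_mul, KA.W.eq_1 A T (OT _ _), KA.v2_OT, (loc h h3).1, zero_ot, md_zero,
      zero_div, zero_add]
  · rw [off z hz, mul_zero, add_zero, KA.W, KA.v2_OT,
      (loc h (notMem_tsupport_iff_eventuallyEq.1 hz)).1, ot_zero, md_zero, zero_div]

end PHI

open PHI

theorem mv (h : A.Std) (hm : Mean) : A.MV := by
  intro a ha hi
  obtain ⟨C, C0, hC⟩ := cmp h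
  obtain ⟨B, hB⟩ := hm 1 one_pos
  have nn : ∀ z, 0 ≤ A.N a z := fun z => h.alg.n1_nn _ _ (h.bas.pd z)
  have key : ∀ l, ∀ x ∈ ball (0 : E2) 1,
      ‖a l x‖ ^ 2 ≤ |B| * (C * C) * ∫ z in A.src l, A.N a z ∂A.μ := by
    intro l x hx
    have s : ∀ r : ℝ, ball x r ⊆ ball 0 (r + 1) := fun r =>
      ball_subset_ball' (by linarith [mem_ball.1 hx])
    have s3 : ball x 1 ⊆ closedBall 0 3 :=
      (s 1).trans (ball_subset_closedBall.trans (closedBall_subset_closedBall (by norm_num)))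
    have s4 : ball x 1 ⊆ ball 0 4 := (s 1).trans (ball_subset_ball (by norm_num))
    obtain ⟨i1, i2⟩ := h.meas.int l (ball x 1) measurableSet_ball s4 (A.N a)
    obtain ⟨k, hk⟩ : ∃ k, ‖a l x k‖ = ‖a l x‖ :=
      let ⟨k, hk⟩ := Finite.exists_max fun k => ‖a l x k‖
      ⟨k, (norm_le_pi_norm _ k).antisymm ((pi_norm_le_iff_of_nonneg (norm_nonneg _)).2 hk)⟩
    have e1 := hB (fun y => a l y k) x (differentiableOn_pi.1 ((ha.2 l).mono
      ((s _).trans (ball_subset_ball (by norm_num)))) k)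
    have e2 : ∫ y in ball x 1, ‖a l y k‖ ^ 2 ≤
        ∫ y in ball x 1, C * C * (A.N a ((A.e l).symm y) * dt (A.met l y)) := by
      refine integral_mono_of_nonneg (Eventually.of_forall fun y => sq_nonneg _)
        ((i1.1 hi.integrableOn).const_mul _) ?_
      filter_upwards [ae_restrict_mem measurableSet_ball] with y hy
      have at1 := (h.bas.ex_s1 a _ (ha.1 ((A.e l).symm y))).1
      have e3 := nn ((A.e l).symm y)
      obtain ⟨e4, e5⟩ := hC l y (s3 hy)
      rw [KA.N, h.bas.P_eq a a _ l at1 at1 (A.symm_mem l (s4 hy)), A.e_symm l (s4 hy)] at e3 ⊢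
      calc ‖a l y k‖ ^ 2 ≤ ‖a l y‖ ^ 2 := pow_le_pow_left₀ (norm_nonneg _) (norm_le_pi_norm _ k) 2
        _ ≤ C * n1 (A.met l y) (a l y) (a l y) := (e5 _).1
        _ ≤ C * n1 (A.met l y) (a l y) (a l y) * (C * dt (A.met l y)) :=
          le_mul_of_one_le_right (mul_nonneg C0 e3) e4
        _ = _ := by ring
    have e6 : ∫ z in (A.e l).symm '' ball x 1, A.N a z ∂A.μ ≤ ∫ z in A.src l, A.N a z ∂A.μ :=
      setIntegral_mono_set hi.integrableOn (Eventually.of_forall nn)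
        (LE.le.eventuallyLE (image_subset_iff.2 fun y hy => A.symm_mem l (s4 hy)))
    rw [integral_const_mul, ← i2] at e2
    rw [← hk, mul_assoc]
    exact e1.trans (mul_le_mul (le_abs_self B)
      (e2.trans (mul_le_mul_of_nonneg_left e6 (mul_nonneg C0 C0)))
      (integral_nonneg fun y => sq_nonneg _) (abs_nonneg B))
  refine ⟨⟨_, key⟩, C * (|B| * (C * C) * ∫ z, A.N a z ∂A.μ), fun z => ?_⟩
  refine (((hC (A.i z) _ (ball_subset_closedBall (ball_subset_ball (by norm_num)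
    (A.ball_i z)))).2 (A.v1 a z)).2).trans (mul_le_mul_of_nonneg_left ?_ C0)
  exact (key _ _ (A.ball_i z)).trans (mul_le_mul_of_nonneg_left
    (setIntegral_le_integral hi (Eventually.of_forall nn)) (by positivity))

theorem hi (h : A.Std) (h1 : A.GS1) (hl : A.LA 0) (hm : A.MV) : A.HI := by
  intro a ha hi T hT hK
  have hS := h.bas.cl2_ot a ha
  have off : ∀ z ∉ A.sp2 T, A.v2 T z = 0 := fun z hz =>
    by_contra fun e => hz (subset_closure ⟨_, A.mem_i z, e⟩)
  have iW : Integrable (A.W (OT a a) T) A.μ := int_of h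
    (fun z => h.bas.W_sm _ _ z (Eventually.of_forall fun w => ⟨(hS w).1, (hT w).1⟩)) hK
    fun z hz => by rw [KA.W, off z hz, md_zero, zero_div]
  have iT : Integrable (A.NN T) A.μ := int_of h
    (fun z => h.bas.NN_sm _ z (Eventually.of_forall fun w => (hT w).1)) hK
    fun z hz => by simp [KA.NN, off z hz, ip, tr_zero, md_zero]
  obtain ⟨C, hC⟩ := (hm a ha hi).2
  have nn : ∀ z, 0 ≤ A.N a z := fun z => h.alg.n1_nn _ _ (h.bas.pd z)
  have m2 : MemLp (A.N a) 2 A.μ := (memLp_two_iff_integrable_sq hi.1).2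
    ((hi.const_mul C).mono' (hi.1.pow 2) (Eventually.of_forall fun z => by
      rw [Real.norm_of_nonneg (sq_nonneg _), sq]
      exact mul_le_mul_of_nonneg_right (hC z) (nn z)))
  have key : ∀ ε > 0, |∫ z, A.W (OT a a) T z ∂A.μ| ≤ 3 / 2 * (1 + ∫ z, A.NN T z ∂A.μ) * ε := by
    intro ε hε
    obtain ⟨U, hU, h2⟩ := hl _ m2.neg (ε ^ 2) (by positivity)
    have hR := fun z => h.bas.cl2_bar _ z (KA.ex_d (Eventually.of_forall hU.1))
    have dL := (h.bas.L_D U hU).1
    have := h.meas.fin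
    have i0 := (m2.sub ((continuous_iff_continuousAt.2 fun z =>
      h.bas.sm_cont _ z (dL.1 z)).memLp_of_hasCompactSupport dL.2)).integrable_sq
    obtain ⟨i1, j1⟩ := exact h h1 hU hS
    obtain ⟨i2, j2⟩ := exact h h1 hU hR
    obtain ⟨i3, j3⟩ := exact h h1 hU hT
    have e : A.NN (OT a a - bar (A.d U)) = fun z => (A.N a - A.L U) z ^ 2 +
        (2 * A.W (OT a a) (bar (A.d U)) z - A.W (bar (A.d U)) (bar (A.d U)) z) := by
      funext z
      have e1 : md (A.v2 (OT a a) z) (A.v2 (OT a a) z) = 0 := by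
        rw [KA.v2_OT, h.alg.md_ot_ot, mul_comm, sub_self, map_zero]
      have e2 : tr (A.g z) (A.v2 (OT a a) z) = A.N a z := rfl
      simp only [KA.NN, ip, KA.v2_sub, tr_sub, md_sub, sub_md, e1, e2, KA.W, KA.L, KA.Tr,
        Pi.sub_apply, md_comm (A.v2 (bar (A.d U)) z) (A.v2 (OT a a) z)]
      ring
    have i4 : Integrable (fun z => 2 * A.W (OT a a) (bar (A.d U)) z -
      A.W (bar (A.d U)) (bar (A.d U)) z) A.μ := (i1.const_mul 2).sub i2
    have i5 : Integrable (A.NN (OT a a - bar (A.d U))) A.μ := e ▸ i0.add i4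
    have j5 : ∫ z, A.NN (OT a a - bar (A.d U)) z ∂A.μ ≤ ε ^ 2 := by
      rw [e, integral_add i0 i4, integral_sub (i1.const_mul 2) i2, integral_const_mul, j1, j2,
        mul_zero, sub_zero, add_zero]
      refine le_of_eq_of_le (congrArg _ (funext fun z => ?_)) h2
      simp only [Pi.sub_apply, Pi.neg_apply]
      ring
    have e3 : ∫ z, A.W (OT a a) T z ∂A.μ =
        ∫ z, (A.W (OT a a) T z - A.W T (bar (A.d U)) z) ∂A.μ := by
      rw [integral_sub iW i3, j3, sub_zero]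
    have e4 := norm_integral_le_of_norm_le (μ := A.μ)
      (f := fun z => A.W (OT a a) T z - A.W T (bar (A.d U)) z)
      (((i5.const_mul ε⁻¹).add (iT.const_mul ε)).const_mul (3 / 2))
      (Eventually.of_forall fun z => by
        have k1 : (A.v2 (OT a a - bar (A.d U)) z).IsHermitian :=
          ((hS z).2 _ (A.mem_i z)).1.sub ((hR z).2 _ (A.mem_i z)).1
        have k2 : (A.v2 T z).IsHermitian := ((hT z).2 _ (A.mem_i z)).1
        have k3 := h.alg.md_le _ _ _ (h.bas.pd z) k1 k2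
        have k4 := Real.sq_sqrt (h.alg.ip_nn _ _ (h.bas.pd z) k1)
        have k5 := Real.sq_sqrt (h.alg.ip_nn _ _ (h.bas.pd z) k2)
        rw [W_comm T, KA.W, KA.W, ← sub_div, ← sub_md, ← KA.v2_sub, Real.norm_eq_abs]
        refine k3.trans ?_
        rw [Pi.add_apply, KA.NN, KA.NN]
        nth_rw 2 [← k4, ← k5]
        generalize √(ip _ (A.v2 (OT a a - bar (A.d U)) z) _) = p
        generalize √(ip _ (A.v2 T z) _) = q
        have k6 := mul_nonneg (inv_pos.2 hε).le (sq_nonneg (p - ε * q))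
        have k7 : ε⁻¹ * (p - ε * q) ^ 2 = ε⁻¹ * p ^ 2 + ε * q ^ 2 - 2 * p * q := by
          field_simp
          ring
        linarith)
    simp only [Pi.add_apply] at e4
    rw [integral_const_mul, integral_add (i5.const_mul _) (iT.const_mul _), integral_const_mul,
      integral_const_mul, ← e3] at e4
    have e5 := (inv_mul_le_iff₀ hε).2 (j5.trans_eq (sq ε))
    rw [Real.norm_eq_abs] at e4
    linarith
  have t : Tendsto (fun ε : ℝ => 3 / 2 * (1 + ∫ z, A.NN T z ∂A.μ) * ε) (𝓝[>] 0) (𝓝 0) :=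
    (Continuous.tendsto' (by fun_prop) 0 0 (mul_zero _)).mono_left nhdsWithin_le_nhds
  exact abs_nonpos_iff.1 (ge_of_tendsto t (eventually_mem_nhdsWithin.mono key))

end Pool.Agent.Lib.MP_356dfe_ag.S
end
end
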