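import Pool.Agent.Lib.MP_356dfe_ag.S.Basic
import Pool.Agent.Lib.MP_7906d6_an.Holo

-- part Pool.Agent.Lib.MP_356dfe_ag.S.PLim
section

/-! Holomorphic limits. -/

set_option autoImplicit false

open Set Filter Topology Metric MeasureTheory
open scoped ContDiff ComplexConjugate Matrix Pointwise

noncomputable section

namespace Pool.Agent.Lib.MP_356dfe_ag.S

variable {Z Λ : Type} [TopologicalSpace Z] [T2Space Z] [MeasurableSpace Z] [BorelSpace Z]
  {A : KA Z Λ}

namespace PLim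

theorem norm_sq_le (u : E2) : ‖u‖ ^ 2 ≤ ‖u 0‖ ^ 2 + ‖u 1‖ ^ 2 := by
  rw [← Real.le_sqrt (norm_nonneg _) (by positivity)]
  refine (pi_norm_le_iff_of_nonneg (Real.sqrt_nonneg _)).2 fun j => Real.le_sqrt_of_sq_le ?_
  fin_cases j
  · exact le_add_of_nonneg_right (sq_nonneg _)
  · exact le_add_of_nonneg_left (sq_nonneg _)

theorem n1_pull (ha : Alg) {J g : M2} (h : 0 < dt (pull J g)) (u : E2) :
    n1 (pull J g) (u ᵥ* J) (u ᵥ* J) = n1 g u u := by
  have e : dt (pull J g) = Complex.normSq J.det * dt g := by rw [dt, ha.md_pull, dt, mul_div_assoc]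
  have h0 : Complex.normSq J.det ≠ 0 := fun h0 => by simp [e, h0] at h
  rw [n1, ha.ot_pull, ha.md_pull, e, mul_div_mul_left _ _ h0, n1]

omit [T2Space Z] [BorelSpace Z] in
theorem met_cont (h : A.Std) (l : Λ) (j k : Fin 2) :
    ContinuousOn (fun x => A.met l x j k) (ball 0 4) := fun x hx =>
  (h.clc.sm_dba _ x (h.clc.sm_du _ x ((A.pot_sm _).contDiffAt (isOpen_ball.mem_nhds hx))) j
    k).continuousAt.continuousWithinAt

omit [T2Space Z] [BorelSpace Z] in
theorem cmpK (h : A.Std) (l : Λ) {K : Set E2} (hK : IsCompact K) (h4 : K ⊆ ball 0 4) :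
    ∃ c > 0, ∀ x ∈ K, c ≤ dt (A.met l x) ∧ dt (A.met l x) ≤ c⁻¹ ∧
      (∀ a, c * ‖a‖ ^ 2 ≤ n1 (A.met l x) a a ∧ n1 (A.met l x) a a ≤ c⁻¹ * ‖a‖ ^ 2) ∧
      ∀ S : M2, S.IsHermitian → c * ∑ j, ∑ k, ‖S j k‖ ^ 2 ≤ ip (A.met l x) S S ∧
        ip (A.met l x) S S ≤ c⁻¹ * ∑ j, ∑ k, ‖S j k‖ ^ 2 :=
  h.alg.cmp K (A.met l) hK (fun j k => (met_cont h l j k).mono h4) fun x hx => A.pos _ x (h4 hx)

omit [T2Space Z] [BorelSpace Z] in
theorem down (h : A.Std) (l : Λ) {K : Set E2} (hK : IsCompact K) (h4 : K ⊆ ball 0 4) {c : ℝ}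
    (hc : 0 < c) (hd : ∀ x ∈ K, c ≤ dt (A.met l x)) {G : Z → ℝ}
    (hG : IntegrableOn G ((A.e l).symm '' K) A.μ) {f : E2 → ℝ} (f0 : ∀ x, 0 ≤ f x)
    (hf : ∀ x ∈ K, c * f x ≤ G ((A.e l).symm x)) :
    ∫ x in K, f x ≤ (c * c)⁻¹ * ∫ z in (A.e l).symm '' K, G z ∂A.μ := by
  obtain ⟨h1, h2⟩ := h.meas.int l K hK.measurableSet h4 G
  rw [le_inv_mul_iff₀ (by positivity), h2, ← integral_const_mul]
  refine integral_mono_of_nonneg (Eventually.of_forall fun x => ?_) (h1.1 hG)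
    (ae_restrict_of_forall_mem hK.measurableSet fun x hx => ?_)
  · have := f0 x
    positivity
  · have := mul_le_mul (hf x hx) (hd x hx) hc.le ((mul_nonneg hc.le (f0 x)).trans (hf x hx))
    linarith

omit [T2Space Z] [BorelSpace Z] in
theorem down' (h : A.Std) (l : Λ) {K : Set E2} (hK : IsCompact K) (h4 : K ⊆ ball 0 4) {c : ℝ}
    (hc : 0 < c) (hd : ∀ x ∈ K, c ≤ dt (A.met l x)) {G : Z → ℝ} (G0 : ∀ z, 0 ≤ G z)
    (hG : Integrable G A.μ) {f : E2 → ℝ} (f0 : ∀ x, 0 ≤ f x)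
    (hf : ∀ x ∈ K, c * f x ≤ G ((A.e l).symm x)) :
    ∫ x in K, f x ≤ (c * c)⁻¹ * ∫ z, G z ∂A.μ :=
  (down h l hK h4 hc hd hG.integrableOn f0 hf).trans (mul_le_mul_of_nonneg_left
    (setIntegral_le_integral hG (Eventually.of_forall G0)) (by positivity))

omit [T2Space Z] [BorelSpace Z] in
theorem up (h : A.Std) (l : Λ) {K : Set E2} (hK : IsCompact K) (h4 : K ⊆ ball 0 4)
    {u : ℕ → E2 → E2} (hu : ∀ n, ContinuousOn (u n) K)
    (hl : ∀ j, Tendsto (fun n => ∫ x in K, ‖u n x j‖ ^ 2) atTop (𝓝 0)) {F : ℕ → Z → ℝ}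
    (hF : ∀ n, ∀ x ∈ K, F n ((A.e l).symm x) = n1 (A.met l x) (u n x) (u n x)) :
    (∀ n, IntegrableOn (F n) ((A.e l).symm '' K) A.μ) ∧
      Tendsto (fun n => ∫ z in (A.e l).symm '' K, F n z ∂A.μ) atTop (𝓝 0) := by
  obtain ⟨c, hc, hcm⟩ := cmpK h l hK h4
  have hm := hK.measurableSet
  have hg := fun j k => (met_cont h l j k).mono h4
  have hu' : ∀ n j, ContinuousOn (fun x => u n x j) K := fun n => continuousOn_pi.1 (hu n)
  have e : ∀ n, ∀ x ∈ K, F n ((A.e l).symm x) * dt (A.met l x) =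
      md (A.met l x) (ot (u n x) (u n x)) := fun n x hx => by
    rw [hF n x hx, n1, div_mul_cancel₀ _ (hc.trans_le (hcm x hx).1).ne']
  have hi : ∀ n, IntegrableOn (fun x => F n ((A.e l).symm x) * dt (A.met l x)) K := fun n => by
    refine (ContinuousOn.congr ?_ (e n)).integrableOn_compact hK
    have := hu' n
    simp only [md, ot, Matrix.of_apply]
    fun_prop
  have hs : ∀ n j, IntegrableOn (fun x => ‖u n x j‖ ^ 2) K := fun n j =>
    ((hu' n j).norm.pow 2).integrableOn_compact hK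
  refine ⟨fun n => (h.meas.int l K hm h4 _).1.2 (hi n), ?_⟩
  have lim := ((hl 0).add (hl 1)).const_mul (c⁻¹ * c⁻¹)
  rw [add_zero, mul_zero] at lim
  refine squeeze_zero (fun n => ?_) (fun n => ?_) lim <;> rw [(h.meas.int l K hm h4 _).2]
  · refine setIntegral_nonneg hm fun x hx => mul_nonneg ?_ (hc.le.trans (hcm x hx).1)
    rw [hF n x hx]
    exact h.alg.n1_nn _ _ (A.pos _ x (h4 hx))
  · rw [← integral_add (hs n 0) (hs n 1), ← integral_const_mul]
    refine setIntegral_mono_on (hi n) (((hs n 0).add (hs n 1)).const_mul _) hm fun x hx => ?_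
    rw [hF n x hx, mul_right_comm]
    exact mul_le_mul (((hcm x hx).2.2.1 _).2.trans
      (mul_le_mul_of_nonneg_left (norm_sq_le _) (by positivity))) (hcm x hx).2.1
      (hc.le.trans (hcm x hx).1) (by positivity)

omit [T2Space Z] [BorelSpace Z] in
theorem N_nn (h : A.Std) (a : F1 Λ) (z : Z) : 0 ≤ A.N a z := h.alg.n1_nn _ _ (h.bas.pd z)

omit [T2Space Z] [BorelSpace Z] in
theorem N_tri (h : A.Std) (a b c : F1 Λ) (z : Z) :
    A.N (a - c) z ≤ 2 * A.N (a - b) z + 2 * A.N (b - c) z := by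
  rw [← sub_add_sub_cancel a b c]
  exact h.alg.n1_add _ _ _ (h.bas.pd z)

omit [T2Space Z] [BorelSpace Z] in
theorem N_cont (h : A.Std) {a : F1 Λ} (ha : ∀ z, A.S1 a z) : Continuous (A.N a) :=
  continuous_iff_continuousAt.2 fun z => h.bas.sm_cont _ z
    (h.bas.P_sm a a z (Eventually.of_forall fun w => ⟨ha w, ha w⟩))

omit [T2Space Z] in
theorem N_sub (h : A.Std) {a b : F1 Λ} (ha : ∀ z, A.S1 a z) (hb : ∀ z, A.S1 b z)
    (ia : Integrable (A.N a) A.μ) (ib : Integrable (A.N b) A.μ) :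
    Integrable (A.N (a - b)) A.μ := by
  refine ((ia.const_mul 2).add (ib.const_mul 2)).mono'
    (N_cont h fun z => (ha z).sub (hb z)).aestronglyMeasurable (Eventually.of_forall fun z => ?_)
  have h1 := N_tri h a 0 b z
  have h2 : A.N (0 - b) z = A.N b z := by
    rw [zero_sub, ← neg_one_smul ℝ b, KA.N, KA.P, KA.v1_smul, n1_smul, smul_n1, ← mul_assoc]
    exact (congrArg (· * _) (by norm_num)).trans (one_mul _)
  rw [h2, sub_zero] at h1
  rwa [Real.norm_of_nonneg (N_nn h _ z)]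

omit [T2Space Z] [BorelSpace Z] in
theorem N_chart (h : A.Std) {a : F1 Λ} (ha : ∀ z, A.S1 a z) (l : Λ) {x : E2}
    (hx : x ∈ ball (0 : E2) 4) : A.N a ((A.e l).symm x) = n1 (A.met l x) (a l x) (a l x) := by
  rw [KA.N, h.bas.P_eq a a _ l (ha _).1 (ha _).1 (A.symm_mem l hx), A.e_symm l hx]

omit [T2Space Z] [MeasurableSpace Z] [BorelSpace Z] in
theorem sm_chart {a : F1 Λ} (ha : ∀ z, A.S1 a z) (l : Λ) : ContDiffOn ℝ ∞ (a l) (ball 0 4) :=
  fun x hx => by
    have := (ha _).2 l (A.symm_mem l hx)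
    rw [A.e_symm l hx] at this
    exact this.contDiffWithinAt

theorem glob (h : A.Std) {f : Z → ℝ} (hf : Continuous f) (f0 : ∀ z, 0 ≤ f z) {I : ℝ}
    (hI : ∀ C, IsCompact C → ∫ z in C, f z ∂A.μ ≤ I) : Integrable f A.μ ∧ ∫ z, f z ∂A.μ ≤ I := by
  have := h.bump.lc
  have := h.bump.sc
  have := h.meas.fin
  have hc : AECover A.μ atTop (compactCovering Z) :=
    ⟨Eventually.of_forall fun z => by
      obtain ⟨n, hn⟩ := exists_mem_compactCovering z
      exact (eventually_ge_atTop n).mono fun m hm => compactCovering_subset Z hm hn,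
      fun n => (isCompact_compactCovering Z n).measurableSet⟩
  have hb := Eventually.of_forall (f := atTop) fun n => hI _ (isCompact_compactCovering Z n)
  have hi := hc.integrable_of_integral_bounded_of_nonneg_ae I
    (fun n => hf.continuousOn.integrableOn_compact (isCompact_compactCovering Z n))
    (Eventually.of_forall f0) hb
  exact ⟨hi, le_of_tendsto (hc.integral_tendsto_of_countably_generated hi) hb⟩

theorem cpt (h : A.Std) {f : ℕ → Z → ℝ} (hf : ∀ n, Continuous (f n)) (f0 : ∀ n z, 0 ≤ f n z)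
    (hl : ∀ l, Tendsto (fun n => ∫ z in (A.e l).symm '' closedBall 0 1, f n z ∂A.μ) atTop (𝓝 0))
    {C : Set Z} (hC : IsCompact C) : Tendsto (fun n => ∫ z in C, f n z ∂A.μ) atTop (𝓝 0) := by
  have := h.meas.fin
  have hi : ∀ n C, IsCompact C → IntegrableOn (f n) C A.μ := fun n C hC =>
    (hf n).continuousOn.integrableOn_compact hC
  have h0 : ∀ n C, 0 ≤ ∫ z in C, f n z ∂A.μ := fun n C => integral_nonneg (f0 n)
  obtain ⟨C', hC', h1, h2⟩ : ∃ C', IsCompact C' ∧ C ⊆ C' ∧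
      Tendsto (fun n => ∫ z in C', f n z ∂A.μ) atTop (𝓝 0) := by
    refine hC.induction_on (p := fun C => ∃ C', IsCompact C' ∧ C ⊆ C' ∧
      Tendsto (fun n => ∫ z in C', f n z ∂A.μ) atTop (𝓝 0)) ⟨∅, isCompact_empty, le_rfl, by simp⟩
      (fun s t hst ⟨C', a, b, c⟩ => ⟨C', a, hst.trans b, c⟩)
      (fun s t ⟨C', a, b, c⟩ ⟨C'', a', b', c'⟩ => ⟨C' ∪ C'', a.union a', union_subset_union b b',
        squeeze_zero (fun n => h0 n _) (fun n => ?_) ((c.add c').trans_eq (by rw [add_zero]))⟩)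
      fun z _ => ?_
    · rw [← integral_add_measure (hi n _ a) (hi n _ a')]
      exact integral_mono_measure (Measure.restrict_union_le _ _) (Eventually.of_forall (f0 n))
        (Integrable.add_measure (hi n _ a) (hi n _ a'))
    · refine ⟨(A.e (A.i z)).symm '' closedBall 0 1, mem_nhdsWithin_of_mem_nhds ?_, _,
        (isCompact_closedBall 0 1).image_of_continuousOn ((A.e _).continuousOn_symm.mono ?_),
        le_rfl, hl _⟩
      · filter_upwards [((A.e _).continuousAt (A.mem_i z)).eventually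
          (isOpen_ball.mem_nhds (A.ball_i z)), (A.e _).open_source.mem_nhds (A.mem_i z)]
          with w h1 h2 using ⟨_, ball_subset_closedBall h1, (A.e _).left_inv h2⟩
      · rw [A.tgt]
        exact closedBall_subset_ball (by norm_num)
  exact squeeze_zero (fun n => h0 n _) (fun n => setIntegral_mono_set (hi n _ hC')
    (Eventually.of_forall (f0 n)) h1.eventuallyLE) h2

omit [T2Space Z] [BorelSpace Z] in
theorem at1 (h : A.Std) {b : ℕ → F1 Λ} (hb : ∀ n z, A.S1 (b n) z) {a : F1 Λ}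
    (ha : ∀ l, ContinuousOn (a l) (ball 0 4))
    (hl : ∀ l j, LL (ball 0 4) (fun n x => b n l x j) fun x => a l x j) (z : Z) : A.At1 a z := by
  intro l l' h1 h2
  obtain ⟨K, hKn, hKs, hK⟩ := local_compact_nhds
    ((A.ev_symm h1 ((A.e l').open_source.mem_nhds h2)).and (isOpen_ball.mem_nhds (A.map_src h1)))
  have h4 : K ⊆ ball 0 4 := fun x hx => (hKs hx).2
  have hs : ∀ x ∈ K, (A.e l).symm x ∈ A.src l' := fun x hx => (hKs hx).1
  have an : ∀ x ∈ K, AnalyticAt ℂ (A.T l l') x := fun x hx => by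
    have := A.an l l' _ (A.symm_mem l (h4 hx)) (hs x hx)
    rwa [A.e_symm l (h4 hx)] at this
  have cT : ContinuousOn (A.T l l') K := fun x hx => (an x hx).continuousAt.continuousWithinAt
  have hK' := hK.image_of_continuousOn cT
  have h4' : A.T l l' '' K ⊆ ball 0 4 := forall_mem_image.2 fun x hx => A.map_src (hs x hx)
  have im : (A.e l').symm '' (A.T l l' '' K) = (A.e l).symm '' K := by
    rw [image_image]
    exact image_congr fun x hx => (A.e l').left_inv (hs x hx)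
  have key := fun l (K : Set E2) (hK : IsCompact K) (h4 : K ⊆ ball 0 4) => up h l hK h4
    (u := fun n x => b n l x - a l x)
    (fun n => ((sm_chart (hb n) l).continuousOn.sub (ha l)).mono h4) (fun j => hl l j K hK h4)
    (F := fun n w => n1 (A.met l (A.e l w)) (b n l (A.e l w) - a l (A.e l w))
      (b n l (A.e l w) - a l (A.e l w))) fun n x hx => by simp only [A.e_symm l (h4 hx)]
  obtain ⟨i1, t1⟩ := key l K hK h4
  obtain ⟨i2, t2⟩ := key l' _ hK' h4'
  rw [im] at i2 t2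
  obtain ⟨c, hc, hcm⟩ := cmpK h l hK h4
  have cδ : ContinuousOn (fun x => ‖a l' (A.T l l' x) ᵥ* jac (A.T l l') x - a l x‖ ^ 2) K := by
    refine (ContinuousOn.sub (continuousOn_pi.2 fun j => ?_) ((ha l).mono h4)).norm.pow 2
    simp only [Matrix.vecMul, dotProduct]
    exact continuousOn_finsetSum _ fun i _ => (continuousOn_pi.1 ((ha l').comp cT fun x hx =>
      h4' (mem_image_of_mem _ hx)) i).mul fun x hx =>
        (h.clc.sm_jac _ x (an x hx) i j).continuousAt.continuousWithinAt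
  have lim := ((t1.const_mul 2).add (t2.const_mul 2)).const_mul (c * c)⁻¹
  have z0 : ∫ x in K, ‖a l' (A.T l l' x) ᵥ* jac (A.T l l') x - a l x‖ ^ 2 ≤ 0 := by
    refine (ge_of_tendsto' lim fun n => ?_).trans_eq (by simp)
    rw [← integral_const_mul, ← integral_const_mul,
      ← integral_add ((i1 n).const_mul 2) ((i2 n).const_mul 2)]
    refine down h l hK h4 hc (fun x hx => (hcm x hx).1)
      (((i1 n).const_mul 2).add ((i2 n).const_mul 2)) (fun x => by positivity) fun x hx => ?_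
    have e1 := (hb n _).1 l l' (A.symm_mem l (h4 hx)) (hs x hx)
    have e2 := A.law l l' _ (A.symm_mem l (h4 hx)) (hs x hx)
    rw [A.e_symm l (h4 hx)] at e1 e2
    replace e1 : b n l x = b n l' (A.T l l' x) ᵥ* jac (A.T l l') x := e1
    replace e2 : A.met l x = pull (jac (A.T l l') x) (A.met l' (A.T l l' x)) := e2
    have pd : PD (A.met l x) := A.pos _ x (h4 hx)
    have e3 := n1_pull h.alg (e2 ▸ pd.2.2) (b n l' (A.T l l' x) - a l' (A.T l l' x))
    have e4 := h.alg.n1_add _ (b n l x - a l x)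
      ((-1 : ℝ) • (b n l' (A.T l l' x) - a l' (A.T l l' x)) ᵥ* jac (A.T l l') x) pd
    have e5 : b n l x - a l x +
        (-1 : ℝ) • (b n l' (A.T l l' x) - a l' (A.T l l' x)) ᵥ* jac (A.T l l') x =
        a l' (A.T l l' x) ᵥ* jac (A.T l l') x - a l x := by
      rw [neg_one_smul, Matrix.sub_vecMul, e1]
      abel
    rw [← e2] at e3
    rw [e5, n1_smul, smul_n1, e3] at e4
    refine ((hcm x hx).2.2.1 _).1.trans (e4.trans (le_of_eq ?_))
    simp only [Pi.add_apply, A.e_symm l (h4 hx), neg_mul, one_mul, neg_neg]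
    rfl
  have z1 := (setIntegral_eq_zero_iff_of_nonneg_ae (Eventually.of_forall fun x => by positivity)
    (cδ.integrableOn_compact hK)).1 (z0.antisymm (integral_nonneg fun x => by positivity))
  have z2 := Measure.eqOn_open_of_ae_eq (ae_restrict_of_ae_restrict_of_subset interior_subset z1)
    isOpen_interior (cδ.mono interior_subset) continuousOn_const (mem_interior_iff_mem_nhds.2 hKn)
  have z3 := sub_eq_zero.1 (norm_eq_zero.1 (pow_eq_zero_iff two_ne_zero |>.1 z2))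
  rw [← z3, KA.T, Function.comp_apply, (A.e l).left_inv h1]

end PLim

open PLim

theorem lim (h : A.Std) (hw : Weyl) (hw' : Weak) : A.Lim := by
  intro b hex hi hi' hc ht
  have hb : ∀ n z, A.S1 (b n) z := fun n z => h.bas.ex_s1 _ _ (hex n z)
  have hs : ∀ n l j, ContDiffOn ℝ 1 (fun x => b n l x j) (ball 0 4) := fun n l j =>
    contDiffOn_pi.1 ((sm_chart (hb n) l).of_le (by exact_mod_cast le_top)) j
  have key : ∀ l j, ∃ g, DifferentiableOn ℂ g (ball 0 4) ∧
      LL (ball 0 4) (fun n x => b n l x j) g := fun l j => by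
    refine hw _ _ isOpen_ball (fun n => hs n l j) (fun K hK h4 ε hε => ?_) fun k K hK h4 => ?_ <;>
      obtain ⟨c, c0, hcm⟩ := cmpK h l hK h4
    · obtain ⟨N, hN⟩ := hc (c * c * ε) (by positivity)
      refine ⟨N, fun m hm n hn => (down' h l hK h4 c0 (fun x hx => (hcm x hx).1) (N_nn h _)
        (N_sub h (hb m) (hb n) (hi m) (hi n)) (fun x => by positivity) fun x hx => ?_).trans ?_⟩
      · rw [N_chart h (fun z => (hb m z).sub (hb n z)) l (h4 hx)]
        exact le_trans (mul_le_mul_of_nonneg_left (pow_le_pow_left₀ (norm_nonneg _)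
          (norm_le_pi_norm ((b m - b n) l x) j) 2) c0.le) ((hcm x hx).2.2.1 _).1
      · rw [inv_mul_le_iff₀ (by positivity)]
        exact hN m hm n hn
    · refine squeeze_zero (fun n => integral_nonneg fun x => by positivity) (fun n => ?_)
        ((ht.const_mul (c * c)⁻¹).trans_eq (by rw [mul_zero]))
      have h2 := fun z => h.bas.cl2_bar _ z (hex n z)
      refine down' h l hK h4 c0 (fun x hx => (hcm x hx).1) (G := A.NN (bar (b n)))
        (fun z => h.alg.ip_nn _ _ (h.bas.pd z) ((h2 z).2 _ (A.mem_i z)).1) (hi' n)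
        (fun x => by positivity) fun x hx => ?_
      have h3 := ((h2 _).2 l (A.symm_mem l (h4 hx))).1
      rw [h.bas.NN_eq _ _ l (h2 _).1.1 (A.symm_mem l (h4 hx))]
      rw [A.e_symm l (h4 hx)] at h3 ⊢
      refine le_trans (mul_le_mul_of_nonneg_left ?_ c0.le) ((hcm x hx).2.2.2 _ h3).1
      rw [Pi.zero_apply, sub_zero]
      exact (Finset.single_le_sum (f := fun k => ‖bar (b n) l x j k‖ ^ 2)
        (fun _ _ => by positivity) (Finset.mem_univ k)).trans (Finset.single_le_sum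
          (f := fun j => ∑ k, ‖bar (b n) l x j k‖ ^ 2) (fun _ _ => by positivity)
          (Finset.mem_univ j))
  choose g hg hl using key
  obtain ⟨a, ha⟩ : ∃ a : F1 Λ, a = fun l x j => g l j x := ⟨_, rfl⟩
  have da : ∀ l, DifferentiableOn ℂ (a l) (ball 0 4) := fun l =>
    ha ▸ differentiableOn_pi.2 (hg l)
  have hl' : ∀ l j, LL (ball 0 4) (fun n x => b n l x j) fun x => a l x j := ha ▸ hl
  have sa : ∀ l, ContDiffOn ℝ ∞ (a l) (ball 0 4) := fun l => contDiffOn_infty.2 fun n =>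
    (MP_7906d6_an.contDiffOn_of_differentiableOn isOpen_ball n (da l)).restrict_scalars ℝ
  have s1 : ∀ z, A.S1 a z := fun z => ⟨at1 h hb (fun l => (da l).continuousOn) hl' z,
    fun l hz => (sa l).contDiffAt (isOpen_ball.mem_nhds (A.map_src hz))⟩
  have sa' : ∀ l j, ContDiffOn ℝ 1 (fun x => a l x j) (ball 0 4) := fun l j =>
    contDiffOn_pi.1 ((sa l).of_le (by exact_mod_cast le_top)) j
  have ex : ∀ z, A.Ex a z := fun z => h.bas.ex_of a univ isOpen_univ (fun z _ => s1 z)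
    (fun z _ l hz => ⟨hw' _ _ _ _ _ 0 1 isOpen_ball (fun n => hs n l 1) (fun n => hs n l 0)
      (sa' l 1) (sa' l 0) (hl' l 1) (hl' l 0) (fun K hK h4 => by
        refine tendsto_const_nhds.congr fun n => (setIntegral_eq_zero_of_forall_eq_zero
          fun x hx => ?_).symm
        have := (h.bas.ex_c1 _ _ (hex n _) l (A.symm_mem l (h4 hx))).1
        rw [A.e_symm l (h4 hx)] at this
        simp [this]) _ (A.map_src hz), by
      rw [h.clc.dba_hol _ _ ((da l).differentiableAt (isOpen_ball.mem_nhds (A.map_src hz)))]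
      exact Matrix.isHermitian_zero⟩) z trivial
  have sd : ∀ n z, A.S1 (b n - a) z := fun n z => (hb n z).sub (s1 z)
  have h14 : closedBall (0 : E2) 1 ⊆ ball 0 4 := closedBall_subset_ball (by norm_num)
  have tC : ∀ C, IsCompact C → Tendsto (fun n => ∫ z in C, A.N (b n - a) z ∂A.μ) atTop (𝓝 0) :=
    fun C hC => cpt h (fun n => N_cont h (sd n)) (fun n => N_nn h _) (fun l => (up h l
      (isCompact_closedBall 0 1) h14 (u := fun n => (b n - a) l)
      (fun n => (sm_chart (sd n) l).continuousOn.mono h14)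
      (fun j => hl' l j _ (isCompact_closedBall 0 1) h14)
      fun n x hx => N_chart h (sd n) l (h14 hx)).2) hC
  have fin : ∀ ε > 0, ∃ k, ∀ n ≥ k, Integrable (A.N (b n - a)) A.μ ∧
      ∫ z, A.N (b n - a) z ∂A.μ ≤ 2 * ε := fun ε hε => by
    obtain ⟨k, hk⟩ := hc ε hε
    refine ⟨k, fun n hn => glob h (N_cont h (sd n)) (N_nn h _) fun C hC => ?_⟩
    have := h.meas.fin
    refine (ge_of_tendsto (((tC C hC).const_mul 2).const_add (2 * ε))
      ((eventually_ge_atTop k).mono fun m hm => ?_)).trans_eq (by simp)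
    have i1 := N_sub h (hb n) (hb m) (hi n) (hi m)
    have i2 : IntegrableOn (A.N (b m - a)) C A.μ :=
      (N_cont h (sd m)).continuousOn.integrableOn_compact hC
    refine (integral_mono_of_nonneg (Eventually.of_forall (N_nn h _))
      ((i1.integrableOn.const_mul 2).add (i2.const_mul 2))
      (Eventually.of_forall (N_tri h (b n) (b m) a))).trans ?_
    simp only [Pi.add_apply]
    rw [integral_add (i1.integrableOn.const_mul 2) (i2.const_mul 2), integral_const_mul,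
      integral_const_mul]
    linarith [hk n hn m hm, setIntegral_le_integral (s := C) i1 (Eventually.of_forall (N_nn h _))]
  refine ⟨a, ⟨ex, da⟩, ?_, Metric.tendsto_atTop.2 fun ε hε => ?_⟩
  · obtain ⟨k, hk⟩ := fin 1 one_pos
    simpa only [sub_sub_cancel] using N_sub h (hb k) (sd k) (hi k) (hk k le_rfl).1
  · obtain ⟨k, hk⟩ := fin (ε / 4) (by positivity)
    refine ⟨k, fun n hn => ?_⟩
    rw [Real.dist_0_eq_abs, abs_of_nonneg (integral_nonneg (N_nn h _))]
    linarith [(hk n hn).2]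

end Pool.Agent.Lib.MP_356dfe_ag.S
end
end

-- part Pool.Agent.Lib.MP_356dfe_ag.S.PRho
section

/-! A square norm of the equation of the curve. -/

set_option autoImplicit false

open Set Filter Topology Metric MeasureTheory
open scoped ContDiff ComplexConjugate Matrix Pointwise

noncomputable section

namespace Pool.Agent.Lib.MP_356dfe_ag.S

namespace PRho

variable {Z Λ : Type} [TopologicalSpace Z] {A : KA Z Λ}

theorem sm_chart (h : A.Bas) {l : Λ} {w : Z} (hw : w ∈ A.src l) {f : E2 → ℝ}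
    (hf : ContDiffAt ℝ ∞ f (A.e l w)) : A.Sm (fun z => f (A.e l z)) w :=
  h.sm_of _ w l hw (hf.congr_of_eventuallyEq
    (((A.e l).eventually_right_inverse' hw).mono fun _ hx => congrArg f hx))

theorem cd_log {u : E2 → ℂ} {x : E2} (hu : ContDiffAt ℝ ∞ u x) (h0 : u x ≠ 0) :
    ContDiffAt ℝ ∞ (fun y => Real.log (Complex.normSq (u y))) x := by
  simp only [Complex.normSq_eq_norm_sq]
  exact (hu.norm_sq ℂ).log (pow_ne_zero 2 (norm_ne_zero_iff.2 h0))

theorem cd_hol {u : E2 → ℂ} {x : E2} (hu : ∀ᶠ y in 𝓝 x, DifferentiableAt ℂ u y) :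
    ∀ᶠ y in 𝓝 x, ContDiffAt ℝ ∞ u y := by
  obtain ⟨O, h1, h2, h3⟩ := _root_.eventually_nhds_iff.1 hu
  have h4 : ContDiffOn ℂ ∞ u O := contDiffOn_infty.2 fun n =>
    MP_7906d6_an.contDiffOn_of_differentiableOn h2 n fun y hy => (h1 y hy).differentiableWithinAt
  filter_upwards [h2.mem_nhds h3] with y hy
  exact (h4.contDiffAt (h2.mem_nhds hy)).restrict_scalars ℝ

variable (A) in
/-- a sum of logarithms of coordinates -/
def L (l : Λ) (t : Finset (Fin 2)) (w : Z) : ℝ := ∑ k ∈ t, Real.log (Complex.normSq (A.e l w k))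

theorem sm_L (h : A.Bas) {l : Λ} {t : Finset (Fin 2)} {w : Z} (hw : w ∈ A.src l)
    (h0 : ∀ k ∈ t, A.e l w k ≠ 0) : A.Sm (L A l t) w :=
  sm_chart h hw (f := fun x => ∑ k ∈ t, Real.log (Complex.normSq (x k)))
    (ContDiffAt.sum fun k hk => cd_log (contDiffAt_apply ℝ ℂ k _) (h0 k hk))

theorem ne_of_not {l : Λ} {w : Z} (hw : w ∈ A.src l) (hE : w ∉ A.E) :
    ∀ k ∈ A.act (A.ty l), A.e l w k ≠ 0 := fun k hk e => hE ((A.hE l w hw).2 ⟨k, hk, e⟩)

theorem one {l l' : Λ} {z : Z} (hz : z ∈ A.E) (h1 : z ∈ A.src l) (h2 : z ∈ A.src l')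
    (hl : l' ≠ l) : ∃ k ∈ A.act (A.ty l), A.e l z k = 0 ∧ ∀ᶠ w in 𝓝 z, w ∈ A.src l ∧
      (∀ j ∈ (A.act (A.ty l)).erase k, A.e l w j ≠ 0) ∧ (w ∈ A.E ↔ A.e l w k = 0) := by
  obtain ⟨k, hk, h0⟩ := (A.hE l z h1).1 hz
  have h3 : ∀ᶠ w in 𝓝 z, ∀ j ∈ (A.act (A.ty l)).erase k, A.e l w j ≠ 0 := by
    refine (eventually_all_finset _).2 fun j hj =>
      (continuousAt_pi.1 ((A.e l).continuousAt h1) j).eventually_ne fun e => hl ?_
    obtain ⟨j1, j2⟩ := Finset.mem_erase.1 hj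
    have h4 : ∀ i : Fin 2, i = j ∨ i = k := by omega
    have h5 : A.e l z = 0 := funext fun i => (h4 i).elim (· ▸ e) (· ▸ h0)
    refine A.node l l' (Finset.eq_univ_of_forall fun i => (h4 i).elim (· ▸ j2) (· ▸ hk)) ?_
    rw [← h5, (A.e l).left_inv h1]
    exact h2
  refine ⟨k, hk, h0, ?_⟩
  filter_upwards [(A.e l).open_source.mem_nhds h1, h3] with w w1 w2
  refine ⟨w1, w2, (A.hE l w w1).trans ⟨?_, fun e => ⟨k, hk, e⟩⟩⟩
  rintro ⟨j, hj, e⟩
  by_cases hjk : j = k
  · exact hjk ▸ e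
  · exact (w2 j (Finset.mem_erase.2 ⟨hjk, hj⟩) e).elim

theorem TT {l l' : Λ} {z : Z} (h1 : z ∈ A.src l) (h2 : z ∈ A.src l') :
    ∀ᶠ x in 𝓝 (A.e l z), A.T l' l (A.T l l' x) = x := by
  filter_upwards [A.ev_symm h1 ((A.e l').open_source.mem_nhds h2),
    (A.e l).eventually_right_inverse' h1] with x x1 x2
  simp only [KA.T, Function.comp_apply, (A.e l').left_inv x1, x2]

/-- off the curve, `f` agrees near `z` with a smooth function -/
def Ext (A : KA Z Λ) (f : Z → ℝ) (z : Z) : Prop :=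
  ∃ ν, ∀ᶠ w in 𝓝 z, A.Sm ν w ∧ (w ∉ A.E → f w = ν w)

theorem ext_L (h : A.Bas) (hE : IsClosed A.E) (hd : Div) {l l' : Λ} {z : Z} (h1 : z ∈ A.src l)
    (h2 : z ∈ A.src l') :
    Ext A (fun w => L A l' (A.act (A.ty l')) w - L A l (A.act (A.ty l)) w) z := by
  by_cases hl : l' = l
  · exact ⟨fun _ => 0, .of_forall fun w => ⟨KA.sm_const 0 w, fun _ => hl ▸ sub_self _⟩⟩
  by_cases hz : z ∈ A.E
  swap
  · refine ⟨L A l' (A.act (A.ty l')) - L A l (A.act (A.ty l)), ?_⟩
    filter_upwards [(A.e l).open_source.mem_nhds h1, (A.e l').open_source.mem_nhds h2,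
      hE.isOpen_compl.mem_nhds hz] with w w1 w2 w3
    exact ⟨(sm_L h w2 (ne_of_not w2 w3)).sub (sm_L h w1 (ne_of_not w1 w3)), fun _ => rfl⟩
  obtain ⟨k, hk, k0, a⟩ := one hz h1 h2 hl
  obtain ⟨k', hk', -, a'⟩ := one hz h2 h1 (Ne.symm hl)
  have e : A.T l l' (A.e l z) = A.e l' z := congrArg (A.e l') ((A.e l).left_inv h1)
  obtain ⟨u, u0, hu⟩ := hd.unit (A.T l l') (A.T l' l) (A.e l z) k k' (A.an l l' z h1 h2)
    (e ▸ A.an l' l z h2 h1) (TT h1 h2) (e ▸ TT h2 h1) k0 (by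
      filter_upwards [A.ev_symm h1 (a.and a'), (A.e l).eventually_right_inverse' h1] with x x1 x2
      exact x1.2.2.2.symm.trans (x1.1.2.2.trans (by rw [x2])))
  refine ⟨(fun w => Real.log (Complex.normSq (u (A.e l w)))) +
    (L A l' ((A.act (A.ty l')).erase k') - L A l ((A.act (A.ty l)).erase k)), ?_⟩
  filter_upwards [a, a', ((A.e l).continuousAt h1).eventually (hu.and ((cd_hol (hu.mono
    fun _ hx => hx.1)).and (hu.self_of_nhds.1.continuousAt.eventually_ne u0)))] with w w1 w2 w3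
  refine ⟨(sm_chart h w1.1 (cd_log w3.2.1 w3.2.2)).add ((sm_L h w2.1 w2.2.1).sub
    (sm_L h w1.1 w1.2.1)), fun hw => ?_⟩
  have e1 : A.e l' w k' = u (A.e l w) * A.e l w k := by
    rw [← w3.1.2, KA.T, Function.comp_apply, (A.e l).left_inv w1.1]
  simp only [L, Pi.add_apply, Pi.sub_apply]
  rw [← Finset.add_sum_erase _ _ hk, ← Finset.add_sum_erase _ _ hk', e1, map_mul,
    Real.log_mul (Complex.normSq_pos.2 w3.2.2).ne'
      (Complex.normSq_pos.2 fun e => hw (w1.2.2.2 e)).ne']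
  ring

theorem Ext.sum {ι : Type} {s : Finset ι} {f : ι → Z → ℝ} {z : Z} (h : ∀ i, Ext A (f i) z) :
    Ext A (fun w => ∑ i ∈ s, f i w) z := by
  choose ν hν using h
  exact ⟨fun w => ∑ i ∈ s, ν i w, ((eventually_all_finset s).2 fun i _ => hν i).mono fun w hw =>
    ⟨KA.sm_sum fun i hi => (hw i hi).1, fun e => Finset.sum_congr rfl fun i hi => (hw i hi).2 e⟩⟩

theorem Ext.extend (h : A.Bas) (hE : Dense A.Eᶜ) {f : Z → ℝ} {z : Z} (hf : Ext A f z) :
    A.Sm (extendFrom A.Eᶜ f) z ∧ (z ∉ A.E → extendFrom A.Eᶜ f z = f z) := by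
  obtain ⟨ν, hν⟩ := hf
  have e : ∀ᶠ w in 𝓝 z, extendFrom A.Eᶜ f w = ν w := hν.eventually_nhds.mono fun w hw =>
    extendFrom_eq (hE w) (((h.sm_cont ν w hw.self_of_nhds.1).tendsto.mono_left
      nhdsWithin_le_nhds).congr' (eventually_nhdsWithin_iff.2
        (hw.mono fun _ k k' => (k.2 k').symm)))
  exact ⟨hν.self_of_nhds.1.congr e, fun k => e.self_of_nhds.trans (hν.self_of_nhds.2 k).symm⟩

theorem fin (l : Λ) : ∃ s : Finset Λ, ∀ w ∈ A.src l, ∀ c : Λ → ℝ,
    ∑ᶠ l', A.phi l' w * c l' = ∑ l' ∈ s, A.phi l' w * c l' := by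
  obtain ⟨k, hk⟩ := A.mult
  obtain ⟨s, -, hs⟩ := hk l
  exact ⟨s, fun w hw c => finsum_eq_sum_of_support_subset _ fun l' hl' =>
    hs l' ⟨w, hw, mem_of_indicator_ne_zero (left_ne_zero_of_mul hl')⟩⟩

theorem ext_sum (h : A.Bas) (hb : A.Bump) (hd : Div) {l : Λ} {z : Z} (h1 : z ∈ A.src l) :
    Ext A (fun w => ∑ᶠ l', A.phi l' w *
      (L A l' (A.act (A.ty l')) w - L A l (A.act (A.ty l)) w)) z := by
  obtain ⟨s, hs⟩ := fin (A := A) l
  obtain ⟨ν, hν⟩ := Ext.sum (A := A) (z := z) (s := s) (f := fun l' w => A.phi l' w *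
      (L A l' (A.act (A.ty l')) w - L A l (A.act (A.ty l)) w)) fun l' => by
    by_cases h2 : z ∈ A.src l'
    · obtain ⟨ν, hν⟩ := ext_L h hb.clE hd h1 h2
      exact ⟨A.phi l' * ν, hν.mono fun w hw =>
        ⟨((hb.phi_D l').1.1 w).mul hw.1, fun e => congrArg (A.phi l' w * ·) (hw.2 e)⟩⟩
    · have h3 : z ∉ tsupport (A.phi l') := fun k => by
        obtain ⟨x, hx, rfl⟩ := (hb.phi_D l').2 k
        exact h2 (A.symm_mem l' (ball_subset_ball (by norm_num) hx))
      exact ⟨fun _ => 0, (notMem_tsupport_iff_eventuallyEq.1 h3).mono fun w hw =>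
        ⟨KA.sm_const 0 w, fun _ => mul_eq_zero_of_left hw _⟩⟩
  refine ⟨ν, ?_⟩
  filter_upwards [hν, (A.e l).open_source.mem_nhds h1] with w w1 w2
  exact ⟨w1.1, fun e => (hs w w2 _).trans (w1.2 e)⟩

end PRho

variable {Z Λ : Type} [TopologicalSpace Z] [T2Space Z] [MeasurableSpace Z] [BorelSpace Z]
  {A : KA Z Λ}

open PRho in
theorem rho (h : A.Std) (hd : Div) : ∃ η ϱ, A.IsRho η ϱ := by
  classical
  have key := fun (l : Λ) (z : Z) (hz : z ∈ A.src l) =>
    (ext_sum h.bas h.bump hd hz).extend h.bas h.bump.dense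
  refine ⟨fun l => extendFrom A.Eᶜ (fun w => ∑ᶠ l', A.phi l' w *
      (L A l' (A.act (A.ty l')) w - L A l (A.act (A.ty l)) w)) ∘ (A.e l).symm,
    fun z => if z ∈ A.E then 0 else Real.exp (∑ᶠ l', A.phi l' z * L A l' (A.act (A.ty l')) z),
    fun l x hx => ?_, fun l z hz => ?_⟩
  · have := (key l _ (A.symm_mem l hx)).1 l (A.symm_mem l hx)
    rw [A.e_symm l hx] at this
    exact this.contDiffWithinAt
  · by_cases hE : z ∈ A.E
    · obtain ⟨k, hk, e⟩ := (A.hE l z hz).1 hE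
      simp only [if_pos hE]
      rw [Finset.prod_eq_zero hk (by rw [e, map_zero]), zero_mul]
    · obtain ⟨s, hs⟩ := fin (A := A) l
      have e1 : ∑ l' ∈ s, A.phi l' z * 1 = 1 :=
        (hs z hz _).symm.trans (by simp only [mul_one]; exact A.ph_sum z)
      have e2 : ∏ k ∈ A.act (A.ty l), Complex.normSq (A.e l z k) =
          Real.exp (L A l (A.act (A.ty l)) z) := by
        rw [L, Real.exp_sum]
        exact Finset.prod_congr rfl fun k hk =>
          (Real.exp_log (Complex.normSq_pos.2 (ne_of_not hz hE k hk))).symm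
      simp only [if_neg hE, Function.comp_apply, (A.e l).left_inv hz]
      rw [(key l z hz).2 hE, e2, ← Real.exp_add, hs z hz, hs z hz]
      simp only [mul_one] at e1
      simp only [mul_sub, Finset.sum_sub_distrib, ← Finset.sum_mul, e1]
      congr 1
      ring

end Pool.Agent.Lib.MP_356dfe_ag.S
end
end

-- part Pool.Agent.Lib.MP_356dfe_ag.S.PFib
section

/-! No compact curves. -/

set_option autoImplicit false

open Set Filter Topology Metric MeasureTheory
open scoped ContDiff ComplexConjugate Matrix Pointwise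

noncomputable section

namespace Pool.Agent.Lib.MP_356dfe_ag.S

variable {Z Λ : Type} [TopologicalSpace Z] [T2Space Z] [MeasurableSpace Z] [BorelSpace Z]
  {A : KA Z Λ}

namespace PFib

omit [MeasurableSpace Z] [BorelSpace Z] in
/-- a minimal invariant compact set -/
theorem minimal (𝓗 : Set (Z → ℂ)) (hc : ∀ h ∈ 𝓗, Continuous h) {C : Set Z} (hC : IsCompact C)
    (hne : C.Nonempty) (N : Z → Set Z) (hN : ∀ z ∈ C, N z ⊆ C)
    (hm : ∀ z ∈ C, ∀ h ∈ 𝓗, (∀ y ∈ N z, ‖h y‖ ≤ ‖h z‖) → ∀ y ∈ N z, h y = h z) :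
    ∃ z ∈ C, ∀ h ∈ 𝓗, ∀ y ∈ N z, h y = h z := by
  obtain ⟨m, hmC, ⟨m1, m2, m3, m4⟩, m5⟩ := zorn_superset_nonempty
    {D : Set Z | D.Nonempty ∧ IsClosed D ∧ D ⊆ C ∧ ∀ z ∈ D, N z ⊆ D}
    (fun c hcS hch hcn => by
      have := hcn.to_subtype
      obtain ⟨D, hD⟩ := hcn
      refine ⟨⋂₀ c, ⟨IsCompact.nonempty_sInter_of_directed_nonempty_isCompact_isClosed
        (show IsChain (· ⊇ ·) c from hch.symm).directedOn (fun U hU => (hcS hU).1)
        (fun U hU => hC.of_isClosed_subset (hcS hU).2.1 (hcS hU).2.2.1) fun U hU => (hcS hU).2.1,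
        isClosed_sInter fun U hU => (hcS hU).2.1, (sInter_subset_of_mem hD).trans (hcS hD).2.2.1,
        fun z hz => subset_sInter fun U hU => (hcS hU).2.2.2 z (hz U hU)⟩,
        fun U hU => sInter_subset_of_mem hU⟩)
    C ⟨hne, hC.isClosed, Subset.rfl, hN⟩
  obtain ⟨z, hz⟩ := m1
  refine ⟨z, hmC hz, fun h hh y hy => ?_⟩
  obtain ⟨z₀, h0, h1⟩ := (hC.of_isClosed_subset m2 m3).exists_isMaxOn ⟨z, hz⟩
    (hc h hh).norm.continuousOn
  have := m5 (y := m ∩ h ⁻¹' {h z₀}) ⟨⟨z₀, h0, rfl⟩,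
    m2.inter (isClosed_singleton.preimage (hc h hh)), inter_subset_left.trans m3,
    fun w hw v hv => ⟨m4 w hw.1 hv, (hm w (m3 hw.1) h hh
      (fun u hu => (h1 (m4 w hw.1 hu)).trans_eq (congrArg norm hw.2.symm)) v hv).trans hw.2⟩⟩
    inter_subset_left
  exact (this (m4 z hz hy)).2.trans (this hz).2.symm

omit [T2Space Z] [MeasurableSpace Z] [BorelSpace Z] in
theorem disc {C : Set Z} {z : Z} (hd : A.Disc C z) : ∃ N : Set Z, N ⊆ C ∧
    (∃ᶠ y in 𝓝 z, y ∈ N ∧ y ≠ z) ∧ ∀ h, (∀ w, A.An h w) → (∀ y ∈ N, ‖h y‖ ≤ ‖h z‖) → ∀ y ∈ N, h y = h z := by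
  obtain ⟨γ, l, h0, h1, h2, h3, h4, h5⟩ := hd
  obtain ⟨δ, hδ, hb⟩ := Metric.eventually_nhds_iff_ball.1 (h4.and (h3.eventually_analyticAt.and
    (h2.eventually ((A.e l).open_source.mem_nhds (h0 ▸ h1))).eventually_nhds))
  refine ⟨γ '' ball 0 δ, by rintro _ ⟨t, ht, rfl⟩; exact (hb t ht).1, ?_, fun h hh hm => ?_⟩
  · refine (h0 ▸ h2.tendsto :).frequently ?_
    exact ((not_eventually.1 h5).and_eventually (ball_mem_nhds 0 hδ)).mono
      fun t ht => ⟨⟨t, ht.2, rfl⟩, h0 ▸ ht.1⟩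
  · rintro _ ⟨t, ht, rfl⟩
    rw [← h0] at hm ⊢
    refine Complex.eqOn_of_isPreconnected_of_isMaxOn_norm (f := h ∘ γ)
      (convex_ball 0 δ).isPreconnected isOpen_ball (fun u hu => ?_) (mem_ball_self hδ)
      (fun u hu => hm _ ⟨u, hu, rfl⟩) ht
    obtain ⟨-, b1, b2⟩ := hb u hu
    refine (((hh _ l b2.self_of_nhds).comp u b1.differentiableAt).congr_of_eventuallyEq
      (b2.mono fun v hv => ?_)).differentiableWithinAt
    simp only [Function.comp_apply, (A.e l).left_inv hv]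

/-- a holomorphic curve inside a regular fibre -/
theorem curve {f : E2 → ℂ} {x₀ : E2} (hf : ContDiffAt ℂ 1 f x₀) (h0 : fderiv ℂ f x₀ ≠ 0) :
    ∃ c : ℂ → E2, c 0 = x₀ ∧ AnalyticAt ℂ c 0 ∧ (∀ᶠ t in 𝓝 0, f (c t) = f x₀) ∧
      ¬∀ᶠ t in 𝓝 0, c t = x₀ := by
  have hd := (hf.differentiableAt one_ne_zero).hasFDerivAt
  generalize fderiv ℂ f x₀ = f' at h0 hd
  obtain ⟨v, hv⟩ : ∃ v, f' v = 1 := by
    obtain ⟨v, hv⟩ := DFunLike.ne_iff.1 h0
    exact ⟨(f' v)⁻¹ • v, by rw [map_smul, smul_eq_mul, inv_mul_cancel₀ hv]⟩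
  obtain ⟨u, hu, hu0⟩ := (Submodule.ne_bot_iff _).1
    ((f' : E2 →ₗ[ℂ] ℂ).ker_ne_bot_of_finrank_lt (by simp))
  have hu1 : f' u = 0 := hu
  let Φ : E2 → E2 := fun x => x + (f x - f x₀ - f' (x - x₀)) • v
  have e0 : Φ x₀ = x₀ := by simp [Φ]
  have c1 : ContDiffAt ℂ 1 Φ x₀ := contDiffAt_id.add (((hf.sub contDiffAt_const).sub
    (f'.contDiff.contDiffAt.comp x₀ (contDiffAt_id.sub contDiffAt_const))).smul contDiffAt_const)
  have d1 : HasFDerivAt Φ (ContinuousLinearEquiv.refl ℂ E2 : E2 →L[ℂ] E2) x₀ := by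
    have := (hasFDerivAt_id x₀).add (((hd.sub_const (f x₀)).sub
      (f'.hasFDerivAt.comp x₀ ((hasFDerivAt_id x₀).sub_const x₀))).smul_const v)
    refine this.congr_fderiv ?_
    ext1 y
    simp
  have g1 := c1.to_localInverse d1 one_ne_zero
  have g2 := c1.localInverse_apply_image d1 one_ne_zero
  have g3 : ∀ᶠ y in 𝓝 (Φ x₀), Φ (c1.localInverse d1 one_ne_zero y) = y :=
    (c1.hasStrictFDerivAt' d1 one_ne_zero).eventually_right_inverse
  generalize c1.localInverse d1 one_ne_zero = g at g1 g2 g3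
  rw [e0] at g1 g2 g3
  have t1 : Tendsto (fun t : ℂ => x₀ + t • u) (𝓝 0) (𝓝 x₀) :=
    Continuous.tendsto' (by fun_prop) _ _ (by simp)
  refine ⟨fun t => g (x₀ + t • u), by simp [g2], ?_, (t1.eventually g3).mono fun t ht => ?_,
    fun hc => ?_⟩
  · refine Complex.analyticAt_iff_eventually_differentiableAt.2
      ((t1.eventually (g1.eventually (by simp))).mono fun t ht => ?_)
    exact (ht.differentiableAt one_ne_zero).comp t (by fun_prop)
  · have := congrArg f' ht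
    simp only [Φ, map_add, map_smul, map_sub, hv, hu1, smul_eq_mul] at this
    linear_combination this
  · obtain ⟨t, ⟨a1, a2⟩, a3⟩ := (((hc.and (t1.eventually g3)).filter_mono
      (nhdsWithin_le_nhds (s := {0}ᶜ))).and self_mem_nhdsWithin).exists
    rw [show g (x₀ + t • u) = x₀ from a1, e0, left_eq_add, smul_eq_zero] at a2
    exact a2.elim a3 hu0

end PFib

theorem noc (h : A.Std) (hs : A.Sep) : A.NoCurve ∧ NoOpen Z := by
  have hc : ∀ f ∈ {f | ∀ w, A.An f w}, Continuous f := fun f hf =>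
    continuous_iff_continuousAt.2 fun w => h.bas.an_cont f w (hf w)
  constructor
  · intro C hC hne hE hd
    choose! N h1 h2 h3 using fun z hz => PFib.disc (hd z hz)
    obtain ⟨z, hz, h4⟩ := PFib.minimal _ hc hC hne N h1 fun z hz f hf => h3 z hz f hf
    obtain ⟨y, ⟨hy, e⟩, hy'⟩ := ((h2 z hz).and_eventually (hs z (disjoint_left.1 hE hz))).exists
    obtain ⟨f, hf, e'⟩ := hy' e
    exact e' (h4 f hf y hy).symm
  · intro C hC ho
    by_contra hne
    have hb : ∀ z ∈ C, ∃ δ > 0, ∀ x ∈ ball (A.e (A.i z) z) δ,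
        x ∈ ball (0 : E2) 4 ∧ (A.e (A.i z)).symm x ∈ C := fun z hz =>
      Metric.eventually_nhds_iff_ball.1 (Eventually.and
        (isOpen_ball.mem_nhds (A.map_src (A.mem_i z))) (A.ev_symm (A.mem_i z) (ho.mem_nhds hz)))
    choose! δ hδ hb using hb
    obtain ⟨z, hz, h4⟩ := PFib.minimal _ hc hC (nonempty_iff_ne_empty.2 hne)
      (fun z => (A.e (A.i z)).symm '' ball (A.e (A.i z) z) (δ z))
      (by rintro z hz _ ⟨x, hx, rfl⟩; exact (hb z hz x hx).2)
      (by
        rintro z hz f hf hm _ ⟨x, hx, rfl⟩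
        rw [← (A.e (A.i z)).left_inv (A.mem_i z)] at hm
        conv_rhs => rw [← (A.e (A.i z)).left_inv (A.mem_i z)]
        refine Complex.eqOn_of_isPreconnected_of_isMaxOn_norm (f := f ∘ (A.e (A.i z)).symm)
          (convex_ball _ _).isPreconnected isOpen_ball (fun u hu => ?_) (mem_ball_self (hδ z hz))
          (fun u hu => hm _ ⟨u, by rwa [(A.e (A.i z)).left_inv (A.mem_i z)], ?_⟩) hx
        · have := hf _ _ (A.symm_mem (A.i z) (hb z hz u hu).1)
          rw [A.e_symm _ (hb z hz u hu).1] at this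
          exact this.differentiableWithinAt
        · rw [(A.e (A.i z)).left_inv (A.mem_i z)])
    have hb := hb z hz
    have hδ := mem_ball_self (x := A.e (A.i z) z) (hδ z hz)
    generalize A.i z = l at h4 hb hδ
    have ht : ball (A.e l z) (δ z) ⊆ (A.e l).target := fun x hx => A.tgt l ▸ (hb x hx).1
    obtain ⟨_, ⟨x, hx, rfl⟩, hE⟩ := h.bump.dense.inter_open_nonempty _
      ((A.e l).symm.isOpen_image_of_subset_source isOpen_ball ht) ⟨_, _, hδ, rfl⟩
    obtain ⟨x', ⟨a1, a2⟩, a3⟩ := (infinite_of_mem_nhds x (inter_mem (isOpen_ball.mem_nhds hx)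
      (((A.e l).continuousAt_symm (ht hx)).preimage_mem_nhds (hs _ hE)))).nontrivial.exists_ne x
    obtain ⟨f, hf, e⟩ := a2 fun e => a3 ((A.e l).symm.injOn (ht a1) (ht hx) e)
    exact e ((h4 f hf _ ⟨x, hx, rfl⟩).trans (h4 f hf _ ⟨x', a1, rfl⟩).symm)

theorem fib (h : A.Std) (hs : Sard) (hn : A.NoCurve) : A.Fib := by
  intro O F S hO hF hS
  have := A.cnt
  have ho : ∀ l, IsOpen (ball (0 : E2) 4 ∩ (A.e l).symm ⁻¹' O) := fun l =>
    A.tgt l ▸ (A.e l).isOpen_inter_preimage_symm hO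
  have hd : ∀ l, DifferentiableOn ℂ (F ∘ (A.e l).symm) (ball (0 : E2) 4 ∩ (A.e l).symm ⁻¹' O) :=
    fun l x hx => by
      have := hF _ hx.2 l (A.symm_mem l hx.1)
      rw [A.e_symm l hx.1] at this
      exact this.differentiableWithinAt
  refine measure_mono_null (fun w hw => ?_) (measure_iUnion_null fun l => hs _ _ (ho l) (hd l))
  by_contra hc
  obtain ⟨h1, h2, h3⟩ := hS w hw
  refine hn _ h1 h2 h3 fun z hz => ?_
  have hl := A.mem_i z
  generalize A.i z = l at hl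
  have e := (A.e l).left_inv hl
  have hx : A.e l z ∈ ball (0 : E2) 4 ∩ (A.e l).symm ⁻¹' O :=
    ⟨A.map_src hl, by rw [mem_preimage, e]; exact hz.1⟩
  have ew : (F ∘ (A.e l).symm) (A.e l z) = w := by rw [Function.comp_apply, e]; exact hz.2
  obtain ⟨c, c0, c1, c2, c3⟩ := PFib.curve
    ((MP_7906d6_an.contDiffOn_of_differentiableOn (ho l) 1 (hd l)).contDiffAt
      ((ho l).mem_nhds hx)) fun h0 => hc (mem_iUnion.2 ⟨l, _, ⟨hx, h0⟩, ew⟩)
  have c4 : ∀ᶠ t in 𝓝 0, c t ∈ ball (0 : E2) 4 ∩ (A.e l).symm ⁻¹' O :=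
    c1.continuousAt.eventually ((ho l).mem_nhds (c0 ▸ hx))
  refine ⟨(A.e l).symm ∘ c, l, by rw [Function.comp_apply, c0, e], hl,
    ((A.e l).continuousAt_symm (c0 ▸ (A.e l).map_source hl)).comp c1.continuousAt,
    c1.congr (c4.mono fun t ht => (A.e_symm l ht.1).symm),
    (c4.and c2).mono fun t ht => ⟨ht.1.2, ht.2.trans ew⟩,
    fun h5 => c3 ((c4.and h5).mono fun t ht => ?_)⟩
  rw [← A.e_symm l ht.1.1, ← ht.2]
  rfl

end Pool.Agent.Lib.MP_356dfe_ag.S
end
end

-- part Pool.Agent.Lib.MP_356dfe_ag.S.PHZ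
section

/-! Square integrable holomorphic forms vanish. -/

set_option autoImplicit false

open Set Filter Topology Metric MeasureTheory
open scoped ContDiff ComplexConjugate Matrix Pointwise

noncomputable section

namespace Pool.Agent.Lib.MP_356dfe_ag.S

variable {Z Λ : Type} [TopologicalSpace Z] [T2Space Z] [MeasurableSpace Z] [BorelSpace Z]
  {A : KA Z Λ}

namespace PHZ

/-- the linear form with coefficients `b` -/
def cv (b : E2) : E2 →L[ℂ] ℂ := b 0 • ContinuousLinearMap.proj 0 + b 1 • ContinuousLinearMap.proj 1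

theorem cv_apply (b v : E2) : cv b v = b 0 * v 0 + b 1 * v 1 := rfl

theorem cv_ext {L : E2 →L[ℂ] ℂ} {b : E2} (h : ∀ j, L (Pi.single j 1) = b j) : L = cv b := by
  refine ContinuousLinearMap.ext fun v => ?_
  have : v = v 0 • (Pi.single 0 1 : E2) + v 1 • (Pi.single 1 1 : E2) := by
    funext j; fin_cases j <;> simp
  rw [cv_apply, ← h, ← h]
  conv_lhs => rw [this]
  rw [map_add, map_smul, map_smul, smul_eq_mul, smul_eq_mul, mul_comm, mul_comm (v 1)]

theorem norm_cv (b : E2) : ‖cv b‖ ≤ 2 * ‖b‖ := by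
  refine ContinuousLinearMap.opNorm_le_bound _ (by positivity) fun v => ?_
  have h1 := mul_le_mul (norm_le_pi_norm b 0) (norm_le_pi_norm v 0) (norm_nonneg _) (norm_nonneg _)
  have h2 := mul_le_mul (norm_le_pi_norm b 1) (norm_le_pi_norm v 1) (norm_nonneg _) (norm_nonneg _)
  rw [cv_apply]
  refine (norm_add_le _ _).trans ?_
  rw [norm_mul, norm_mul]
  linarith

theorem cont_cv : Continuous cv := by
  unfold cv
  fun_prop

theorem range_cv {b : E2} (hb : b ≠ 0) : (cv b).range = ⊤ := by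
  obtain ⟨j, hj⟩ := Function.ne_iff.1 hb
  have hj' : b j ≠ 0 := hj
  refine LinearMap.range_eq_top.2 fun w => ⟨Pi.single j (w / b j), ?_⟩
  change cv b _ = w
  rw [cv_apply]
  fin_cases j <;> simp at hj' ⊢ <;> field_simp

theorem ev_const {G : E2 → ℂ} {x : E2} (h : ∀ᶠ y in 𝓝 x, HasFDerivAt G (0 : E2 →L[ℂ] ℂ) y) :
    ∀ᶠ y in 𝓝 x, G y = G x := by
  obtain ⟨r, hr, h⟩ := eventually_nhds_iff_ball.1 h
  filter_upwards [ball_mem_nhds x hr] with y hy
  exact isOpen_ball.is_const_of_fderiv_eq_zero (𝕜 := ℂ) (convex_ball x r).isPreconnected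
    (fun u hu => (h u hu).differentiableAt.differentiableWithinAt) (fun u hu => (h u hu).fderiv)
    hy (mem_ball_self hr)

theorem axis {G : E2 → ℂ} {a : E2 → E2} {k : Fin 2}
    (h : ∀ x ∈ ball (0 : E2) 4, HasFDerivAt G (cv (a x)) x)
    (h0 : ∀ x ∈ ball (0 : E2) 4, x k = 0 → a x k.rev = 0) {x : E2} (hx : x ∈ ball (0 : E2) 4)
    (hk : x k = 0) : G x = G 0 := by
  have hd : ∀ t ∈ (fun t : ℂ => t • x) ⁻¹' ball 0 4, HasDerivAt (fun t : ℂ => G (t • x)) 0 t := by
    intro t ht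
    have h1 := (h _ ht).comp_hasDerivAt t ((hasDerivAt_id t).smul_const x)
    have h2 := h0 _ ht (by simp [hk])
    refine h1.congr_deriv ?_
    rw [one_smul, cv_apply]
    fin_cases k
    · rw [show x 0 = 0 from hk, show a (t • x) 1 = 0 from h2, mul_zero, zero_mul, add_zero]
    · rw [show x 1 = 0 from hk, show a (t • x) 0 = 0 from h2, mul_zero, zero_mul, add_zero]
  have := (isOpen_ball.preimage (by fun_prop)).is_const_of_deriv_eq_zero
    ((convex_ball (0 : E2) 4).is_linear_preimage (f := fun t : ℂ => t • x)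
      ⟨fun s t => add_smul s t x, fun c t => smul_assoc c t x⟩).isPreconnected
    (fun t ht => (hd t ht).differentiableAt.differentiableWithinAt) (fun t ht => (hd t ht).deriv)
    (x := 1) (y := 0) (by simpa using hx) (by simp)
  simpa using this

omit [T2Space Z] [MeasurableSpace Z] [BorelSpace Z] in
theorem ev_src {l : Λ} {z : Z} (h : z ∈ A.src l) : ∀ᶠ w in 𝓝 z, w ∈ A.src l :=
  (A.e l).open_source.mem_nhds h

omit [T2Space Z] [MeasurableSpace Z] [BorelSpace Z] in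
/-- local primitives in two charts differ by a constant -/
theorem compat {a : F1 Λ} (ha : ∀ z, A.At1 a z) {P : Λ → E2 → ℂ}
    (hP : ∀ l, ∀ x ∈ ball (0 : E2) 4, HasFDerivAt (P l) (cv (a l x)) x) {l l' : Λ} {z : Z}
    (h : z ∈ A.src l) (h' : z ∈ A.src l') :
    ∃ c, ∀ᶠ w in 𝓝 z, P l (A.e l w) = P l' (A.e l' w) + c := by
  have key : ∀ᶠ x in 𝓝 (A.e l z),
      HasFDerivAt (fun x => P l x - P l' (A.T l l' x)) (0 : E2 →L[ℂ] ℂ) x := by
    filter_upwards [A.ev_symm h (ev_src h'), isOpen_ball.mem_nhds (A.map_src h)] with x h1 h2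
    have h3 := A.symm_mem l h2
    have h4 := (A.an l l' _ h3 h1).differentiableAt.hasFDerivAt
    have h5 := ha _ l l' h3 h1
    rw [A.e_symm l h2] at h4 h5
    have h6 := (hP l' _ (A.map_src h1)).comp x h4
    rw [cv_ext (b := a l x) (L := ContinuousLinearMap.comp _ _) fun j => by
      rw [h5]
      simp only [Matrix.vecMul, dotProduct, Fin.sum_univ_two, jac, Matrix.of_apply]
      rfl] at h6
    have := (hP l x h2).fun_sub h6
    rw [sub_self] at this
    exact this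
  refine ⟨P l (A.e l z) - P l' (A.T l l' (A.e l z)), ?_⟩
  filter_upwards [((A.e l).continuousAt h).eventually (ev_const key), ev_src h] with w h1 h2
  rw [← h1, KA.T, Function.comp_apply, (A.e l).left_inv h2]
  ring

omit [T2Space Z] [BorelSpace Z] in
/-- the global primitive -/
theorem prim (h : A.Std) (he : A.EV) (hs : SC A.E) {a : F1 Λ} (ha : A.Hol1 a)
    (hi : Integrable (A.N a) A.μ) : ∃ F : Z → ℂ, (F '' A.E).Countable ∧
      ∀ l, ∀ x ∈ ball (0 : E2) 4, HasFDerivAt (F ∘ (A.e l).symm) (cv (a l x)) x := by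
  have h1 : ∀ l, ∃ P : E2 → ℂ, ∀ x ∈ ball (0 : E2) 4, HasFDerivAt P (cv (a l x)) x := fun l => by
    obtain ⟨P, p1, p2⟩ := h.clc.hpoin (ball 0 4) (a l) isOpen_ball (convex_ball _ _) (ha.2 l)
      fun x hx => by
        have := h.bas.ex_c1 a _ (ha.1 _) l (A.symm_mem l hx)
        rwa [A.e_symm l hx] at this
    refine ⟨P, fun x hx => ?_⟩
    have p3 := p1.differentiableAt (isOpen_ball.mem_nhds hx)
    rw [← cv_ext (L := fderiv ℂ P x) fun j => by rw [← (h.clc.dh_hol P x p3 j).1, p2 x hx]]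
    exact p3.hasFDerivAt
  choose P hP using h1
  have ht : ∀ z, A.At1 a z := fun z => (h.bas.ex_s1 a z (ha.1 z)).1
  have h2 : ∀ l, ∀ z ∈ A.src l, z ∈ A.E → P l (A.e l z) = P l 0 := fun l z hz hE => by
    obtain ⟨k, k1, k2⟩ := (A.hE l z hz).1 hE
    exact axis (hP l) (he a ha hi l k k1) (A.map_src hz) k2
  obtain ⟨F, f1, f2⟩ := hs (fun z w => P (A.i z) (A.e (A.i z) w))
    (fun y _ => (ev_src (A.mem_i y)).mono fun y' hy => compat ht hP hy (A.mem_i y'))
    fun z hz => (ev_src (A.mem_i z)).mono fun w hw hE => by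
      rw [h2 _ w hw hE, h2 _ z (A.mem_i z) hz]
  refine ⟨F, f2, fun l x hx => ?_⟩
  have h3 := A.symm_mem l hx
  obtain ⟨c, hc⟩ := f1 ((A.e l).symm x) trivial
  obtain ⟨c', hc'⟩ := compat ht hP (A.mem_i _) h3
  have h4 := A.ev_symm h3 (hc.and hc')
  rw [A.e_symm l hx] at h4
  refine ((hP l x hx).add_const (c' + c)).congr_of_eventuallyEq ?_
  filter_upwards [h4, isOpen_ball.mem_nhds hx] with y h5 h6
  rw [Function.comp_apply, h5.1, h5.2, A.e_symm l h6, add_assoc]

end PHZ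

open PHZ

theorem hz (h : A.Std) (hm : A.MV) (he : A.EV) (hf : A.Fib) (hs : SC A.E) : A.HZ := by
  intro a ha hi z₀
  by_contra hne
  have hcnt := A.cnt
  obtain ⟨F, f1, f2⟩ := prim h he hs ha hi
  have h14 : closedBall (0 : E2) 1 ⊆ ball 0 4 := closedBall_subset_ball (by norm_num)
  have hAn : ∀ z, A.An F z := fun z =>
    h.bas.an_of F z _ (A.mem_i z) (f2 _ _ (A.map_src (A.mem_i z))).differentiableAt
  have hF : Continuous F := continuous_iff_continuousAt.2 fun z => h.bas.an_cont F z (hAn z)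
  obtain ⟨⟨C, hC⟩, -⟩ := hm a ha hi
  obtain ⟨k, hk⟩ := h.meas.sum
  have hsum := ((hk (A.N a) (fun z => h.alg.n1_nn _ _ (h.bas.pd z)) hi).1.mul_left C).mul_left 4
  let r : Λ → ℝ := fun l => 2 * √(C * ∫ z in A.src l, A.N a z ∂A.μ)
  have hr : ∀ l, ∀ x ∈ ball (0 : E2) 1,
      F ((A.e l).symm x) ∈ closedBall (F ((A.e l).symm 0)) (r l) := fun l x hx => by
    have := (convex_ball (0 : E2) 1).norm_image_sub_le_of_norm_hasFDerivWithin_le (C := r l)
      (fun y hy => (f2 l y (h14 (ball_subset_closedBall hy))).hasFDerivWithinAt)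
      (fun y hy => (norm_cv _).trans
        (mul_le_mul_of_nonneg_left (Real.le_sqrt_of_sq_le (hC l y hy)) two_pos.le))
      (mem_ball_self one_pos) hx
    rw [sub_zero] at this
    exact mem_closedBall_iff_norm.2 (this.trans
      (mul_le_of_le_one_right (by positivity) (mem_ball_zero_iff.1 hx).le))
  have hfin : ∀ᵐ w, {l | w ∈ closedBall (F ((A.e l).symm 0)) (r l)}.Finite := by
    refine ae_finite_setOfPred_mem ?_
    simp only [Complex.volume_closedBall]
    rw [ENNReal.tsum_mul_right]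
    refine ENNReal.mul_ne_top ?_ ENNReal.coe_ne_top
    refine (tsum_congr fun l => ?_).trans_ne hsum.tsum_ofReal_ne_top
    rw [← ENNReal.ofReal_pow (by positivity), mul_pow,
      Real.sq_sqrt ((sq_nonneg _).trans (hC l 0 (mem_ball_self one_pos)))]
    norm_num
  have hS := hf univ F
    ((range F ∩ {w | {l | w ∈ closedBall (F ((A.e l).symm 0)) (r l)}.Finite}) \ F '' A.E)
    isOpen_univ (fun z _ => hAn z) (by
      rintro w ⟨⟨⟨z, hz⟩, h1⟩, h2⟩
      rw [univ_inter]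
      refine ⟨?_, ⟨z, hz⟩, disjoint_left.2 fun y hy hE => h2 ⟨y, hE, hy⟩⟩
      refine (Finite.isCompact_biUnion h1 fun l _ => (isCompact_closedBall (0 : E2) 1).image_of_continuousOn
        ((A.e l).continuousOn_symm.mono (A.tgt l ▸ h14))).of_isClosed_subset
        (isClosed_singleton.preimage hF) fun y hy => ?_
      obtain ⟨l, l1, l2⟩ := A.cov y
      have := hr l _ l2
      rw [(A.e l).left_inv l1, show F y = w from hy] at this
      exact mem_biUnion (x := l) this ⟨_, ball_subset_closedBall l2, (A.e l).left_inv l1⟩)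
  have hx := A.map_src (A.mem_i z₀)
  have hv : a (A.i z₀) (A.e (A.i z₀) z₀) ≠ 0 := fun e => hne (by
    change n1 _ (a (A.i z₀) (A.e (A.i z₀) z₀)) (a (A.i z₀) (A.e (A.i z₀) z₀)) = 0
    simp [e, n1, md, ot])
  have hmap := (hasStrictFDerivAt_of_hasFDerivAt_of_continuousAt
    (f' := fun x => cv (a (A.i z₀) x)) (mem_of_superset (isOpen_ball.mem_nhds hx) (f2 _))
    (cont_cv.continuousAt.comp
      ((ha.2 _).continuousOn.continuousAt (isOpen_ball.mem_nhds hx)))).map_nhds_eq_of_surj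
    (range_cv hv)
  have hpos : 0 < volume (range F) := by
    refine Measure.measure_pos_of_mem_nhds volume (x := (F ∘ (A.e (A.i z₀)).symm) (A.e (A.i z₀) z₀)) ?_
    rw [← hmap]
    exact mem_map.2 (univ_mem' fun x => ⟨_, rfl⟩)
  refine hpos.ne' (measure_mono_null (fun w hw => ?_)
    (measure_union_null (measure_union_null hS (f1.measure_zero volume)) hfin))
  by_cases h1 : w ∈ F '' A.E
  · exact Or.inl (Or.inr h1)
  by_cases h2 : {l | w ∈ closedBall (F ((A.e l).symm 0)) (r l)}.Finite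
  · exact Or.inl (Or.inl ⟨⟨hw, h2⟩, h1⟩)
  · exact Or.inr h2

end Pool.Agent.Lib.MP_356dfe_ag.S
end
end
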