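import Pool.Agent.Lib.MP_356dfe_ag.S.Basic

-- part Pool.Agent.Lib.MP_356dfe_ag.S.PCvk
section

/-! Change of variables. -/

set_option autoImplicit false

open Set Filter Topology Metric MeasureTheory
open scoped ContDiff ComplexConjugate Matrix Pointwise

noncomputable section

namespace Pool.Agent.Lib.MP_356dfe_ag.S

namespace PCvk

/-- the real coordinates as an equivalence -/
def coE : E2 ≃ₗ[ℝ] (Fin 4 → ℝ) where
  toFun := co
  invFun v := ![⟨v 0, v 1⟩, ⟨v 2, v 3⟩]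
  map_add' x y := by ext i; fin_cases i <;> simp [co]
  map_smul' a x := by ext i; fin_cases i <;> simp [co]
  left_inv x := by ext i; fin_cases i <;> rfl
  right_inv v := by ext i; fin_cases i <;> rfl

theorem basis_eq (i : Fin 4) : Module.Basis.ofEquivFun coE i = bv i := by
  rw [Module.Basis.coe_ofEquivFun]
  ext j
  fin_cases i <;> fin_cases j <;> apply Complex.ext <;> simp [coE, bv]

theorem det_comp {α : Type} (D : E2 →L[ℝ] E2) (φ : α → E2 →L[ℝ] ℝ) (L : List α) :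
    det4 (L.map fun p i => φ p (D (bv i))) = D.det * det4 (L.map fun p i => φ p (bv i)) := by
  by_cases h : L.length = 4
  · obtain ⟨v, rfl⟩ : ∃ v : Fin 4 → α, L = List.ofFn v :=
      ⟨fun i => L.get (i.cast h.symm), List.ext_get (by simp [h]) fun n _ _ => by
        rw [List.get_ofFn]; rfl⟩
    have e : ∀ Φ : E2 →ₗ[ℝ] (Fin 4 → ℝ), LinearMap.toMatrix (Module.Basis.ofEquivFun coE)
        (Pi.basisFun ℝ (Fin 4)) Φ = Matrix.of fun k i => Φ (bv i) k := fun Φ => by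
      ext k i
      rw [LinearMap.toMatrix_apply, basis_eq, Pi.basisFun_repr, Matrix.of_apply]
    have e2 := LinearMap.toMatrix_comp (Module.Basis.ofEquivFun coE) (Module.Basis.ofEquivFun coE)
      (Pi.basisFun ℝ (Fin 4)) (LinearMap.pi fun k => (φ (v k)).toLinearMap) D.toLinearMap
    rw [e, e] at e2
    have e3 := congrArg Matrix.det e2
    rw [Matrix.det_mul, LinearMap.det_toMatrix, mul_comm] at e3
    rw [List.map_ofFn, List.map_ofFn, det4_ofFn, det4_ofFn]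
    exact e3
  · rw [det4_len (by simpa using h), det4_len (by simpa using h), mul_zero]

theorem det_nonneg {T : E2 → E2} {x : E2} (h : DifferentiableAt ℂ T x) :
    0 ≤ (fderiv ℝ T x).det := by
  rw [h.fderiv_restrictScalars ℝ]
  have := LinearMap.det_restrictScalars (R := ℝ) (f := (fderiv ℂ T x).toLinearMap)
  rw [Algebra.norm_complex_apply] at this
  exact (Complex.normSq_nonneg _).trans_eq this.symm

theorem det_chain {f g h : E2 → E2} {y : E2} (hf : DifferentiableAt ℝ f y)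
    (hg : DifferentiableAt ℝ g (f y)) (e : h =ᶠ[𝓝 y] g ∘ f) :
    (fderiv ℝ h y).det = (fderiv ℝ g (f y)).det * (fderiv ℝ f y).det := by
  rw [e.fderiv_eq, fderiv_comp _ hg hf]
  exact LinearMap.det_comp _ _

variable {Z Λ : Type} [TopologicalSpace Z] {A : KA Z Λ} {κ : OpenPartialHomeomorph Z E2}

theorem cont (ht : κ.target = univ) : Continuous κ.symm :=
  continuousOn_univ.1 (ht ▸ κ.continuousOn_symm)

theorem mem (ht : κ.target = univ) (y : E2) : κ.symm y ∈ κ.source := κ.map_target (ht ▸ trivial)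

theorem inv (ht : κ.target = univ) (y : E2) : κ (κ.symm y) = y := κ.right_inv (ht ▸ trivial)

theorem ev (ht : κ.target = univ) {l : Λ} {y : E2} (hy : κ.symm y ∈ A.src l) :
    ∀ᶠ w in 𝓝 y, κ.symm w ∈ A.src l :=
  (cont ht).continuousAt.eventually ((A.e l).open_source.mem_nhds hy)

theorem sm (hκ : A.RCh κ) (ht : κ.target = univ) {l : Λ} {y : E2} (hy : κ.symm y ∈ A.src l) :
    ContDiffAt ℝ ∞ (A.e l ∘ κ.symm) y := by
  have := (hκ l _ (mem ht y) hy).2
  rwa [inv ht] at this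

theorem df (hκ : A.RCh κ) (ht : κ.target = univ) {l : Λ} {y : E2} (hy : κ.symm y ∈ A.src l) :
    DifferentiableAt ℝ (A.e l ∘ κ.symm) y := (sm hκ ht hy).differentiableAt (by simp)

theorem det_ne (hκ : A.RCh κ) (ht : κ.target = univ) {l : Λ} {y : E2} (hy : κ.symm y ∈ A.src l) :
    (fderiv ℝ (A.e l ∘ κ.symm) y).det ≠ 0 := fun h0 => by
  have := det_chain (h := id) (df hκ ht hy)
    ((hκ l _ (mem ht y) hy).1.differentiableAt (by simp)) ((ev ht hy).mono fun w hw => by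
      simp only [Function.comp_apply, (A.e l).left_inv hw, inv ht, id])
  rw [h0, mul_zero, fderiv_id] at this
  exact one_ne_zero (LinearMap.det_id.symm.trans this)

theorem det_mul_pos (hκ : A.RCh κ) (ht : κ.target = univ) {l l' : Λ} {y : E2}
    (hy : κ.symm y ∈ A.src l) (hy' : κ.symm y ∈ A.src l') :
    0 < (fderiv ℝ (A.e l' ∘ κ.symm) y).det * (fderiv ℝ (A.e l ∘ κ.symm) y).det := by
  have h1 := (A.an l l' _ hy hy').differentiableAt
  have h2 := det_chain (h := A.e l' ∘ κ.symm) (df hκ ht hy) (h1.restrictScalars ℝ)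
    ((ev ht hy).mono fun w hw => by simp only [Function.comp_apply, (A.e l).left_inv hw])
  refine lt_of_le_of_ne ?_ (mul_ne_zero (det_ne hκ ht hy') (det_ne hκ ht hy)).symm
  rw [h2, mul_assoc]
  exact mul_nonneg (det_nonneg h1) (mul_self_nonneg _)

theorem exists_sign (hκ : A.RCh κ) (ht : κ.target = univ) : ∃ s : ℝ, (s = 1 ∨ s = -1) ∧
    ∀ l y, κ.symm y ∈ A.src l →
      |(fderiv ℝ (A.e l ∘ κ.symm) y).det| = s * (fderiv ℝ (A.e l ∘ κ.symm) y).det := by
  have h1 : ∀ s : ℝ, IsOpen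
      {y | ∃ l, κ.symm y ∈ A.src l ∧ 0 < s * (fderiv ℝ (A.e l ∘ κ.symm) y).det} := fun s => by
    refine isOpen_iff_mem_nhds.2 fun y ⟨l, hy, h⟩ => ?_
    have h2 : ContinuousAt (fun w => s * (fderiv ℝ (A.e l ∘ κ.symm) w).det) y :=
      continuousAt_const.mul (ContinuousLinearMap.continuous_det.continuousAt.comp
        ((sm hκ ht hy).continuousAt_fderiv (by simp)))
    filter_upwards [ev ht hy, h2.eventually (lt_mem_nhds h)] with w h3 h4 using ⟨l, h3, h4⟩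
  have h2 : ∀ (s : ℝ) y l l', κ.symm y ∈ A.src l → κ.symm y ∈ A.src l' →
      0 < s * (fderiv ℝ (A.e l ∘ κ.symm) y).det → 0 < s * (fderiv ℝ (A.e l' ∘ κ.symm) y).det :=
    fun s y l l' hy hy' h => by
      have h3 := mul_pos h (det_mul_pos hκ ht hy hy')
      have h4 := mul_self_pos.2 (det_ne hκ ht hy)
      exact pos_of_mul_pos_left (by linarith) h4.le
  rcases isPreconnected_univ.subset_or_subset (h1 1) (h1 (-1))
    (Set.disjoint_left.2 fun y ⟨l, hy, h⟩ ⟨l', hy', h'⟩ => by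
      linarith [h2 _ y l l' hy hy' h]) (fun y _ => by
      rcases lt_or_gt_of_ne (det_ne hκ ht (A.mem_i (κ.symm y))) with h | h
      · exact .inr ⟨_, A.mem_i _, by linarith⟩
      · exact .inl ⟨_, A.mem_i _, by linarith⟩) with h | h
  · refine ⟨1, .inl rfl, fun l y hy => ?_⟩
    obtain ⟨l', hy', h'⟩ := h (mem_univ y)
    rw [one_mul, abs_of_pos (by linarith [h2 _ y l' l hy' hy h'])]
  · refine ⟨-1, .inr rfl, fun l y hy => ?_⟩
    obtain ⟨l', hy', h'⟩ := h (mem_univ y)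
    rw [neg_one_mul, abs_of_neg (by linarith [h2 _ y l' l hy' hy h'])]

variable [MeasurableSpace Z]

theorem loc (h : A.Std) (hκ : A.RCh κ) (ht : κ.target = univ) {s : ℝ} (hs : s = 1 ∨ s = -1) {l : Λ}
    (hl : ∀ y, κ.symm y ∈ A.src l →
      |(fderiv ℝ (A.e l ∘ κ.symm) y).det| = s * (fderiv ℝ (A.e l ∘ κ.symm) y).det)
    {G : Z → ℝ} {L : List (Z → ℝ)} (hL : ∀ p ∈ L, A.SM p)
    (hG : ∀ z, G z ≠ 0 → z ∈ A.src l ∧ z ∈ κ.source)
    (hi : Integrable (fun z => G z * A.Dt (L.map A.d) z) A.μ) :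
    Integrable (fun y => G (κ.symm y) * det4 (L.map fun p => gr (p ∘ κ.symm) y)) ∧
      ∫ z, G z * A.Dt (L.map A.d) z ∂A.μ =
        s * ∫ y, G (κ.symm y) * det4 (L.map fun p => gr (p ∘ κ.symm) y) := by
  have t1 : MeasurableSet (κ.symm ⁻¹' A.src l) :=
    ((A.e l).open_source.preimage (cont ht)).measurableSet
  have t2 : ∀ y ∈ κ.symm ⁻¹' A.src l, HasFDerivWithinAt (A.e l ∘ κ.symm)
      (fderiv ℝ (A.e l ∘ κ.symm) y) (κ.symm ⁻¹' A.src l) y := fun y hy =>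
    (df hκ ht hy).hasFDerivAt.hasFDerivWithinAt
  have t3 : InjOn (A.e l ∘ κ.symm) (κ.symm ⁻¹' A.src l) := fun y hy y' hy' e => by
    rw [← inv ht y, (A.e l).injOn hy hy' e, inv ht]
  obtain ⟨m1, m2⟩ := h.meas.int l _ (measurable_image_of_fderivWithin t1 t2 t3)
    (by rintro _ ⟨y, hy, rfl⟩; exact A.map_src hy) fun z => G z * A.Dt (L.map A.d) z
  have e1 : ∀ y ∈ κ.symm ⁻¹' A.src l, |(fderiv ℝ (A.e l ∘ κ.symm) y).det| •
      (G ((A.e l).symm ((A.e l ∘ κ.symm) y)) *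
        A.Dt (L.map A.d) ((A.e l).symm ((A.e l ∘ κ.symm) y)) * dt (A.met l ((A.e l ∘ κ.symm) y))) =
      s * (G (κ.symm y) * det4 (L.map fun p => gr (p ∘ κ.symm) y)) := fun y hy => by
    have a1 : dt (A.met l (A.e l (κ.symm y))) ≠ 0 := (A.pos _ _ (A.map_src hy)).2.2.ne'
    have a2 : ∀ p ∈ L, DifferentiableAt ℝ (p ∘ (A.e l).symm) (A.e l (κ.symm y)) := fun p hp =>
      (hL p hp _ l hy).differentiableAt (by simp)
    have a3 : (L.map fun p => gr (p ∘ κ.symm) y) = L.map fun p i =>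
        fderiv ℝ (p ∘ (A.e l).symm) (A.e l (κ.symm y)) (fderiv ℝ (A.e l ∘ κ.symm) y (bv i)) :=
      List.map_congr_left fun p hp => funext fun i => by
        have e : p ∘ κ.symm =ᶠ[𝓝 y] (p ∘ (A.e l).symm) ∘ A.e l ∘ κ.symm :=
          (ev ht hy).mono fun w hw => by simp only [Function.comp_apply, (A.e l).left_inv hw]
        rw [gr, e.fderiv_eq, fderiv_comp y (f := A.e l ∘ κ.symm) (a2 p hp) (df hκ ht hy)]
        rfl
    have a4 : ((L.map A.d).map fun a => rc (a l (A.e l (κ.symm y)))) =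
        L.map fun p i => fderiv ℝ (p ∘ (A.e l).symm) (A.e l (κ.symm y)) (bv i) := by
      rw [List.map_map]
      exact List.map_congr_left fun p hp => h.clc.rc_du _ _ (a2 p hp)
    rw [Function.comp_apply, (A.e l).left_inv hy, h.bas.Dt_eq _ _ l (fun a ha => by
      obtain ⟨p, hp, rfl⟩ := List.mem_map.1 ha
      exact (h.bas.s1_d p _ (hL p hp _)).1) hy, a3, a4, det_comp, hl y hy, mul_assoc,
      div_mul_cancel₀ _ a1, smul_eq_mul]
    ring
  have e2 : ∀ y, y ∉ κ.symm ⁻¹' A.src l →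
      G (κ.symm y) * det4 (L.map fun p => gr (p ∘ κ.symm) y) = 0 := fun y hy => by
    rw [not_not.1 fun e => hy (hG _ e).1, zero_mul]
  have s0 : s ≠ 0 := by rcases hs with rfl | rfl <;> norm_num
  constructor
  · have i1 := (integrableOn_image_iff_integrableOn_abs_det_fderiv_smul volume t1 t2 t3 _).1
      (m1.1 hi.integrableOn)
    have i2 := (integrable_const_mul_iff s0.isUnit _).1 (i1.congr_fun e1 t1)
    exact (integrableOn_iff_integrable_of_support_subset fun y hy =>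
      not_not.1 fun e => hy (e2 y e)).1 i2
  · rw [← setIntegral_eq_integral_of_forall_compl_eq_zero (s := (A.e l).symm '' _) fun z hz => ?_,
      m2, integral_image_eq_integral_abs_det_fderiv_smul volume t1 t2 t3,
      setIntegral_congr_fun t1 e1, integral_const_mul,
      setIntegral_eq_integral_of_forall_compl_eq_zero e2]
    refine mul_eq_zero_of_left (not_not.1 fun e => hz ?_) _
    obtain ⟨h1, h2⟩ := hG z e
    have h3 := κ.left_inv h2
    exact ⟨_, ⟨κ z, by rwa [mem_preimage, h3], rfl⟩, by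
      rw [Function.comp_apply, h3, (A.e l).left_inv h1]⟩

end PCvk

variable {Z Λ : Type} [TopologicalSpace Z] [T2Space Z] [MeasurableSpace Z] [BorelSpace Z]
  {A : KA Z Λ}

theorem cvk (h : A.Std) : A.Cvk := by
  intro κ hκ ht
  obtain ⟨s, hs, h1⟩ := PCvk.exists_sign hκ ht
  refine ⟨s, hs, fun F L hF hs' hL => ?_⟩
  obtain ⟨t, h2⟩ := h.bump.phi_sum _ hF.2
  have h3 : ∀ z, F z = ∑ l ∈ t, A.phi l z * F z := fun z => by
    rw [← Finset.sum_mul]
    by_cases hz : z ∈ tsupport F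
    · rw [h2.self_of_nhdsSet z hz, one_mul]
    · rw [image_eq_zero_of_notMem_tsupport hz, mul_zero]
  have := h.meas.fin
  have h4 : ∀ l, Integrable (fun z => A.phi l z * F z * A.Dt (L.map A.d) z) A.μ := fun l =>
    Continuous.integrable_of_hasCompactSupport (continuous_iff_continuousAt.2 fun z =>
      h.bas.sm_cont _ z ((((h.bump.phi_D l).1.1 z).mul (hF.1 z)).mul (h.bas.Dt_sm _ z
        (.of_forall fun w a ha => by
          obtain ⟨p, hp, rfl⟩ := List.mem_map.1 ha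
          exact h.bas.s1_d p _ (hL p hp _))))) hF.2.mul_left.mul_right
  have h5 := fun l => PCvk.loc h hκ ht hs (h1 l) hL (G := fun z => A.phi l z * F z) (fun z hz =>
    ⟨mem_of_indicator_ne_zero (left_ne_zero_of_mul hz),
      hs' (subset_tsupport _ (right_ne_zero_of_mul hz))⟩) (h4 l)
  calc _ = ∫ z, ∑ l ∈ t, A.phi l z * F z * A.Dt (L.map A.d) z ∂A.μ := by
        simp only [← Finset.sum_mul, ← h3]
    _ = s * ∫ y, ∑ l ∈ t, A.phi l (κ.symm y) * F (κ.symm y) *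
          det4 (L.map fun p => gr (p ∘ κ.symm) y) := by
        rw [integral_finsetSum _ fun l _ => h4 l, integral_finsetSum _ fun l _ => (h5 l).1,
          Finset.mul_sum]
        exact Finset.sum_congr rfl fun l _ => (h5 l).2
    _ = _ := by simp only [← Finset.sum_mul, ← h3]

end Pool.Agent.Lib.MP_356dfe_ag.S
end
end

-- part Pool.Agent.Lib.MP_356dfe_ag.S.PPlz
section

/-! Poincare lemma on good sets. -/

set_option autoImplicit false

open Set Filter Topology Metric MeasureTheory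
open scoped ContDiff ComplexConjugate Matrix Pointwise

noncomputable section

namespace Pool.Agent.Lib.MP_356dfe_ag.S

namespace PPlz

theorem fev_map {X : Type} (φ : (X → ℝ) × List (X → ℝ) → (E2 → ℝ) × List (E2 → ℝ)) (ξ : FF X)
    (f : E2 → ℝ) (L : List (E2 → ℝ)) : fev (ξ.mapDomain φ) f L = ξ.sum fun q c =>
      c * ∫ x, f x * (φ q).1 x * det4 ((L ++ (φ q).2).map fun g => gr g x) :=
  Finsupp.sum_mapDomain_index (fun _ => zero_mul _) fun _ _ _ => add_mul _ _ _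

theorem mem_map {α β : Type} {φ : α → β} {ξ : α →₀ ℝ} {b : β} (h : b ∈ (ξ.mapDomain φ).support) :
    ∃ a ∈ ξ.support, φ a = b := by
  classical
  exact Finset.mem_image.1 (Finsupp.mapDomain_support h)

theorem gr_cut {ρ : E2 → ℝ} {x : E2} (h : ∀ᶠ y in 𝓝 x, ρ y = 1) (L : List (E2 → ℝ)) :
    ((L.map (ρ * ·)).map fun g => gr g x) = L.map fun g => gr g x := by
  rw [List.map_map]
  refine List.map_congr_left fun p _ => funext fun i => ?_
  have e : ρ * p =ᶠ[𝓝 x] p := h.mono fun y hy => by simp [hy]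
  simp only [Function.comp, gr, e.fderiv_eq]

theorem cut {η : FF E2} {ρ : E2 → ℝ}
    (h : ∀ q ∈ η.support, ∀ x ∈ tsupport q.1, ∀ᶠ y in 𝓝 x, ρ y = 1) (f : E2 → ℝ)
    (L : List (E2 → ℝ)) : fev η f (L.map (ρ * ·)) = fev η f L ∧
      fev (η.mapDomain fun q => (ρ * q.1, q.2.map (ρ * ·))) f L = fev η f L := by
  rw [fev_map]
  constructor <;> refine Finsupp.sum_congr fun q hq => ?_ <;> congr 2 <;> funext x <;>
    by_cases hx : q.1 x = 0
  · simp [hx]
  · simp only [List.map_append, gr_cut (h q hq x (subset_tsupport _ hx))]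
  · simp [hx]
  · have := h q hq x (subset_tsupport _ hx)
    simp only [List.map_append, gr_cut this, Pi.mul_apply, this.self_of_nhds, one_mul]

theorem unit (s : ℝ) : ∃ η, FIn 0 η ∧ fev η 1 [] = s := by
  let b : ContDiffBump (0 : E2) := ⟨1, 2, one_pos, one_lt_two⟩
  let r : Fin 2 → E2 →L[ℝ] ℝ := fun j => Complex.reCLM.comp (ContinuousLinearMap.proj j)
  let m : Fin 2 → E2 →L[ℝ] ℝ := fun j => Complex.imCLM.comp (ContinuousLinearMap.proj j)
  refine ⟨Finsupp.single (b.normed volume, [r 0, m 0, r 1, m 1]) s, fun q hq => ?_, ?_⟩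
  · rw [Finset.mem_singleton.1 (Finsupp.support_single_subset hq)]
    refine ⟨⟨b.contDiff_normed, b.hasCompactSupport_normed⟩, rfl, fun p hp => ?_⟩
    simp only [List.mem_cons, List.not_mem_nil, or_false] at hp
    rcases hp with rfl | rfl | rfl | rfl <;> exact ContinuousLinearMap.contDiff _
  · have e : ∀ x, det4 [gr (r 0) x, gr (m 0) x, gr (r 1) x, gr (m 1) x] = 1 := fun x => by
      have g : ∀ φ : E2 →L[ℝ] ℝ, gr φ x = fun i => φ (bv i) := fun φ => funext fun i => by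
        rw [gr, φ.fderiv]
      rw [det4, ← Matrix.det_one (n := Fin 4), g, g, g, g]
      congr 1
      ext i j
      fin_cases i <;> fin_cases j <;> simp [r, m, bv]
    rw [fev, Finsupp.sum_single_index (zero_mul _)]
    simp only [List.nil_append, List.map_cons, List.map_nil, e, Pi.one_apply, one_mul, mul_one,
      b.integral_normed]

variable {Z Λ : Type} [TopologicalSpace Z] {A : KA Z Λ} {κ : OpenPartialHomeomorph Z E2}

theorem down (hκ : A.RCh κ) (ht : κ.target = univ) {U : Z → ℝ} (hU : A.SM U) :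
    ContDiff ℝ ∞ (U ∘ κ.symm) := by
  refine contDiff_iff_contDiffAt.2 fun y => ?_
  have hy : y ∈ κ.target := ht ▸ mem_univ y
  have hl := A.mem_i (κ.symm y)
  have h1 := (hκ _ _ (κ.map_target hy) hl).2
  rw [κ.right_inv hy] at h1
  refine ((hU _ _ hl).comp y h1).congr_of_eventuallyEq ?_
  filter_upwards [(κ.continuousAt_symm hy).eventually ((A.e _).open_source.mem_nhds hl)] with w hw
  simp [(A.e _).left_inv hw]

theorem up (hκ : A.RCh κ) {χ : Z → ℝ} (hχ : A.D χ) (hs : tsupport χ ⊆ κ.source) {u : E2 → ℝ}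
    (hu : ContDiff ℝ ∞ u) : A.D (χ * u ∘ κ) ∧ tsupport (χ * u ∘ κ) ⊆ κ.source := by
  refine ⟨⟨fun z => ?_, hχ.2.mul_right⟩, tsupport_mul_subset_left.trans hs⟩
  by_cases hz : z ∈ κ.source
  · exact (hχ.1 z).mul fun l hl => hu.contDiffAt.comp _ (hκ l z hz hl).1
  · refine (KA.sm_const 0 z).congr ?_
    filter_upwards [notMem_tsupport_iff_eventuallyEq.1 fun e => hz (hs e)] with w hw
    simp [hw]

/-- transport to the model space -/
def Φ (κ : OpenPartialHomeomorph Z E2) (ξ : FF Z) : FF E2 :=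
  ξ.mapDomain fun q => (q.1 ∘ κ.symm, q.2.map (· ∘ κ.symm))

theorem fin_Φ (hκ : A.RCh κ) (ht : κ.target = univ) {k : ℕ} {ξ : FF Z} (hξ : A.In κ.source k ξ) :
    FIn k (Φ κ ξ) := fun _ hq' => by
  obtain ⟨q, hq, rfl⟩ := mem_map hq'
  obtain ⟨h1, h2, h3, h4⟩ := hξ q hq
  exact ⟨⟨down hκ ht h1.1, HasCompactSupport.intro
    (h1.2.isCompact.image_of_continuousOn (κ.continuousOn.mono h2)) fun y hy =>
      image_eq_zero_of_notMem_tsupport (f := q.1) fun e =>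
        hy ⟨_, e, κ.right_inv (ht ▸ mem_univ y)⟩⟩,
    by simpa using h3, List.forall_mem_map.2 fun p hp => down hκ ht (h4 p hp)⟩

theorem bump (h : A.Bump) (ht : κ.target = univ) {k : ℕ} {η : FF E2} (hη : FIn k η) :
    ∃ χ, A.D χ ∧ tsupport χ ⊆ κ.source ∧
      (∀ u : E2 → ℝ, (χ * u ∘ κ) ∘ κ.symm = χ ∘ κ.symm * u) ∧
      ∀ q ∈ η.support, ∀ x ∈ tsupport q.1, ∀ᶠ y in 𝓝 x, (χ ∘ κ.symm) y = 1 := by
  have hy : ∀ y, y ∈ κ.target := fun y => ht ▸ mem_univ y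
  have hK : IsCompact (⋃ q ∈ η.support, tsupport q.1) :=
    η.support.isCompact_biUnion fun q hq => (hη q hq).1.2.isCompact
  obtain ⟨χ, h1, -, h2, h3⟩ := h.bump _ _
    (hK.image_of_continuousOn (κ.continuousOn_symm.mono fun y _ => hy y)) κ.open_source
    (by rintro _ ⟨y, -, rfl⟩; exact κ.map_target (hy y))
  refine ⟨χ, h1, h3, fun u => funext fun y => by simp [κ.right_inv (hy y)], fun q hq x hx => ?_⟩
  exact (κ.continuousAt_symm (hy x)).eventually
    (eventually_nhdsSet_iff_forall.1 h2 _ ⟨x, mem_biUnion hq hx, rfl⟩)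

variable [MeasurableSpace Z] {s : ℝ}

/-- the change of variables -/
def CV (A : KA Z Λ) (κ : OpenPartialHomeomorph Z E2) (s : ℝ) : Prop :=
  ∀ (F : Z → ℝ) (L : List (Z → ℝ)), A.D F → tsupport F ⊆ κ.source → (∀ p ∈ L, A.SM p) →
    ∫ z, F z * A.Dt (L.map A.d) z ∂A.μ =
      s * ∫ y, F (κ.symm y) * det4 (L.map fun p => gr (p ∘ κ.symm) y)

theorem cur_eq (hs : CV A κ s) {k : ℕ} {ξ : FF Z} (hξ : A.In κ.source k ξ) {f : Z → ℝ}
    {L : List (Z → ℝ)} (hf : A.SM f) (hL : ∀ p ∈ L, A.SM p) :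
    A.cur ξ f L = s * fev (Φ κ ξ) (f ∘ κ.symm) (L.map (· ∘ κ.symm)) := by
  rw [Φ, fev_map, Finsupp.mul_sum, KA.cur, KA.ev]
  refine Finsupp.sum_congr fun q hq => ?_
  obtain ⟨h1, h2, -, h4⟩ := hξ q hq
  have := hs (f * q.1) (L ++ q.2) ⟨fun z => (hf z).mul (h1.1 z), h1.2.mul_left⟩
    (tsupport_mul_subset_right.trans h2) fun p hp => (List.mem_append.1 hp).elim (hL p) (h4 p)
  simp only [← List.map_append, List.map_map, Pi.mul_apply] at this ⊢
  rw [this, mul_left_comm]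
  rfl

theorem lift (h : A.Bump) (hκ : A.RCh κ) (ht : κ.target = univ) (hs : CV A κ s) {k : ℕ}
    {η : FF E2} (hη : FIn k η) : ∃ ξ, A.In κ.source k ξ ∧ ∀ f L, A.SM f → (∀ p ∈ L, A.SM p) →
      A.cur ξ f L = s * fev η (f ∘ κ.symm) (L.map (· ∘ κ.symm)) := by
  obtain ⟨χ, h1, h2, h3, h4⟩ := bump h ht hη
  have hξ : A.In κ.source k (η.mapDomain fun q => (χ * q.1 ∘ κ, q.2.map fun u => χ * u ∘ κ)) :=
    fun _ hq' => by
      obtain ⟨q, hq, rfl⟩ := mem_map hq'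
      obtain ⟨a1, a2, a3⟩ := hη q hq
      exact ⟨(up hκ h1 h2 a1.1).1, (up hκ h1 h2 a1.1).2, by simpa using a2,
        List.forall_mem_map.2 fun p hp => (up hκ h1 h2 (a3 p hp)).1.1⟩
  refine ⟨_, hξ, fun f L hf hL => ?_⟩
  rw [cur_eq hs hξ hf hL, ← (cut h4 _ _).2, Φ, ← Finsupp.mapDomain_comp]
  simp only [Function.comp_def (fun q : (Z → ℝ) × List (Z → ℝ) => _), List.map_map,
    Function.comp_def (fun u : Z → ℝ => _), h3]

end PPlz

variable {Z Λ : Type} [TopologicalSpace Z] [T2Space Z] [MeasurableSpace Z] [BorelSpace Z]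
  {A : KA Z Λ}

open PPlz in
theorem plz (h : A.Std) (hc : A.Cvk) (hf : Fpl) : A.Plz := by
  rintro _ ⟨κ, hκ, rfl, ht⟩
  obtain ⟨s, hs, hv⟩ := hc κ hκ ht
  have h1 : A.SM 1 := KA.sm_const 1
  have hss : s * s = 1 := by rcases hs with rfl | rfl <;> norm_num
  have h0 : s ≠ 0 := left_ne_zero_of_mul_eq_one hss
  constructor
  · obtain ⟨η, hη, e⟩ := unit s
    obtain ⟨ξ, hξ, e'⟩ := lift h.bump hκ ht hv hη
    exact ⟨ξ, hξ, (e' 1 [] h1 (by simp)).trans ((congrArg (s * ·) e).trans hss)⟩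
  · intro k ξ hξ hcl hz
    have hη := fin_Φ hκ ht hξ
    obtain ⟨η', hη', e⟩ := hf k _ hη (fun f L hf hL => by
      obtain ⟨χ, a1, a2, a3, a4⟩ := bump h.bump ht hη
      have hL' : ∀ p ∈ L.map fun u => χ * u ∘ κ, A.SM p :=
        List.forall_mem_map.2 fun p hp => (up hκ a1 a2 (hL p hp)).1.1
      have hf' := (up hκ a1 a2 hf).1.1
      have := hcl _ _ hf' hL'
      rw [cur_eq hv hξ h1 (List.forall_mem_cons.2 ⟨hf', hL'⟩)] at this
      rw [← (cut a4 _ _).1, ← (mul_eq_zero.1 this).resolve_left h0]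
      simp only [List.map_cons, List.map_map, Function.comp_def (fun u : Z → ℝ => _), a3]
      rfl) (by
      rw [cur_eq hv hξ h1 (by simp)] at hz
      exact (mul_eq_zero.1 hz).resolve_left h0)
    obtain ⟨ξ', hξ', e'⟩ := lift h.bump hκ ht hv hη'
    refine ⟨ξ', hξ', fun f L hf hL => ?_⟩
    rw [e' 1 _ h1 (List.forall_mem_cons.2 ⟨hf, hL⟩), cur_eq hv hξ hf hL,
      ← e _ _ (down hκ ht hf) (List.forall_mem_map.2 fun p hp => down hκ ht (hL p hp))]
    rfl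

end Pool.Agent.Lib.MP_356dfe_ag.S
end
end

-- part Pool.Agent.Lib.MP_356dfe_ag.S.PEvl
section

/-! Linearity and locality of currents. -/

set_option autoImplicit false

open Set Filter Topology Metric MeasureTheory
open scoped ContDiff ComplexConjugate Matrix Pointwise

noncomputable section

namespace Pool.Agent.Lib.MP_356dfe_ag.S

variable {Z Λ : Type} [TopologicalSpace Z] [T2Space Z] [MeasurableSpace Z] [BorelSpace Z]
  {A : KA Z Λ}

namespace PEvl

omit [T2Space Z] [MeasurableSpace Z] [BorelSpace Z] in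
theorem slot (A : KA Z Λ) (L L' : List (F1 Λ)) (z : Z) :
    ∃ φ : E2 →ₗ[ℝ] ℝ, ∀ a, A.Dt (L ++ a :: L') z = φ (A.v1 a z) := by
  obtain ⟨φ, h⟩ := det4_slot (L.map fun a => rc (A.v1 a z)) (L'.map fun a => rc (A.v1 a z))
  refine ⟨(dt (A.g z))⁻¹ • φ ∘ₗ ⟨⟨rc, rc_add⟩, rc_smul⟩, fun a => ?_⟩
  rw [KA.Dt, List.map_append, List.map_cons, h, div_eq_inv_mul]
  rfl

omit [T2Space Z] in
theorem intg (h : A.Std) {C : Set Z} {k : ℕ} {ξ : FF Z} (hξ : A.In C k ξ) {f : Z → ℝ}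
    (hf : A.SM f) {L : List (F1 Λ)} (hL : ∀ a ∈ L, ∀ z, A.S1 a z) {q : (Z → ℝ) × List (Z → ℝ)}
    (hq : q ∈ ξ.support) :
    Integrable (fun z => f z * q.1 z * A.Dt (L ++ q.2.map A.d) z) A.μ := by
  have := h.meas.fin
  obtain ⟨h1, -, -, h2⟩ := hξ q hq
  have c : ∀ U, A.SM U → Continuous U := fun U hU =>
    continuous_iff_continuousAt.2 fun z => h.bas.sm_cont U z (hU z)
  refine (((c f hf).mul (c _ h1.1)).mul (c _ fun z => h.bas.Dt_sm _ z
    (Eventually.of_forall fun w a ha => ?_))).integrable_of_hasCompactSupport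
    h1.2.mul_left.mul_right
  rcases List.mem_append.1 ha with ha | ha
  · exact hL a ha w
  · obtain ⟨p, hp, rfl⟩ := List.mem_map.1 ha
    exact h.bas.s1_d p w (h2 p hp w)

omit [T2Space Z] in
theorem val (h : A.Std) {C : Set Z} {k : ℕ} {ξ : FF Z} (hξ : A.In C k ξ) {f : Z → ℝ}
    (hf : A.SM f) {L : List (F1 Λ)} (hL : ∀ a ∈ L, ∀ z, A.S1 a z) :
    Integrable (fun z => f z * A.val ξ L z) A.μ ∧ A.ev ξ f L = ∫ z, f z * A.val ξ L z ∂A.μ := by
  have e : ∀ z, f z * A.val ξ L z =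
      ∑ q ∈ ξ.support, ξ q * (f z * q.1 z * A.Dt (L ++ q.2.map A.d) z) := fun z => by
    rw [KA.val, Finsupp.sum, Finset.mul_sum]
    exact Finset.sum_congr rfl fun q _ => by ring
  simp only [e]
  refine ⟨integrable_finsetSum _ fun q hq => (intg h hξ hf hL hq).const_mul _, ?_⟩
  rw [integral_finsetSum _ fun q hq => (intg h hξ hf hL hq).const_mul _]
  exact Finset.sum_congr rfl fun q _ => (integral_const_mul _ _).symm

omit [T2Space Z] in
theorem sum (h : A.Std) {ι : Type} (s : Finset ι) (c : ι → ℝ) (w : ι → F1 Λ) (b : F1 Λ)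
    {C : Set Z} {k : ℕ} {ξ : FF Z} {f : Z → ℝ} (L L' : List (F1 Λ)) (hξ : A.In C k ξ)
    (hf : A.SM f) (hL : ∀ a ∈ L ++ L', ∀ z, A.S1 a z) (hw : ∀ i ∈ s, ∀ z, A.S1 (w i) z)
    (hb : ∀ q ∈ ξ.support, ∀ z ∈ tsupport q.1, A.Eq1 b (∑ i ∈ s, c i • w i) z) :
    A.ev ξ f (L ++ b :: L') = ∑ i ∈ s, c i * A.ev ξ f (L ++ w i :: L') := by
  simp only [KA.ev, Finsupp.sum, Finset.mul_sum]
  rw [Finset.sum_comm]
  refine Finset.sum_congr rfl fun q hq => ?_
  have e : ∀ z, f z * q.1 z * A.Dt (L ++ b :: L' ++ q.2.map A.d) z =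
      ∑ i ∈ s, c i * (f z * q.1 z * A.Dt (L ++ w i :: L' ++ q.2.map A.d) z) := fun z => by
    by_cases hz : z ∈ tsupport q.1
    · obtain ⟨φ, hφ⟩ := slot A L (L' ++ q.2.map A.d) z
      simp only [List.append_assoc, List.cons_append, hφ]
      rw [(hb q hq z hz).v1, KA.v1_sum, map_sum, Finset.mul_sum]
      refine Finset.sum_congr rfl fun i _ => ?_
      rw [KA.v1_smul, map_smul, smul_eq_mul]
      ring
    · simp [image_eq_zero_of_notMem_tsupport hz]
  simp only [e]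
  rw [integral_finsetSum _ fun i hi => (intg h hξ hf (L := L ++ w i :: L') (fun a ha => ?_)
    hq).const_mul _, Finset.mul_sum]
  · exact Finset.sum_congr rfl fun i _ => by rw [integral_const_mul]; ring
  · rcases List.mem_append.1 ha with ha | ha
    · exact hL a (List.mem_append_left _ ha)
    · rcases List.mem_cons.1 ha with rfl | ha
      · exact hw i hi
      · exact hL a (List.mem_append_right _ ha)

omit [T2Space Z] [BorelSpace Z] in
theorem s1_map (h : A.Std) {L : List (Z → ℝ)} (hL : ∀ p ∈ L, A.SM p) :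
    ∀ a ∈ L.map A.d, ∀ z, A.S1 a z := fun a ha z => by
  obtain ⟨p, hp, rfl⟩ := List.mem_map.1 ha
  exact h.bas.s1_d p z (hL p hp z)

omit [T2Space Z] in
theorem cur (h : A.Std) {C : Set Z} {k : ℕ} {ξ : FF Z} (hξ : A.In C k ξ) :
    Cur {U | A.SM U} (⋃ q ∈ ξ.support, tsupport q.1) (A.cur ξ) where
  add f hf f' hf' L hL := by
    obtain ⟨a1, a2⟩ := val h hξ hf (s1_map h hL)
    obtain ⟨b1, b2⟩ := val h hξ hf' (s1_map h hL)
    rw [KA.cur, KA.cur, KA.cur, a2, b2, ← integral_add a1 b1,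
      (val h hξ (fun z => (hf z).add (hf' z)) (s1_map h hL)).2]
    simp only [Pi.add_apply, add_mul]
  slot f hf g hg g' hg' L L' hL hL' := by
    have := sum h Finset.univ (fun _ : Bool => 1) (fun t => cond t (A.d g) (A.d g'))
      (A.d (g + g')) (L.map A.d) (L'.map A.d) hξ hf
      (fun a ha => (List.mem_append.1 ha).elim (s1_map h hL a) (s1_map h hL' a))
      (fun t _ z => by
        cases t
        · exact h.bas.s1_d _ z (hg' z)
        · exact h.bas.s1_d _ z (hg z))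
      fun q _ z _ => by simpa using h.bas.d_add g g' z (hg z) (hg' z)
    simpa [KA.cur] using this
  nul f _ L _ hn := by
    refine Finset.sum_eq_zero fun q hq => mul_eq_zero_of_right _ ?_
    refine integral_eq_zero_of_ae (Eventually.of_forall fun z => ?_)
    by_cases hz : z ∈ tsupport q.1
    · rcases hn z (mem_iUnion₂.2 ⟨q, hq, hz⟩) with h1 | ⟨g, hg, h1⟩
      · simp [h1.self_of_nhds]
      · obtain ⟨L₁, L₂, rfl⟩ := List.append_of_mem hg
        obtain ⟨φ, hφ⟩ := slot A (L₁.map A.d) (L₂.map A.d ++ q.2.map A.d) z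
        have h2 := (h.bas.d_congr g ((0 : ℝ) • g) z (g z)
          (h1.mono fun w hw => by simp [hw])).self_of_nhds.v1
        rw [h.bas.d_smul, KA.v1_smul, zero_smul] at h2
        simp only [List.map_append, List.map_cons, List.append_assoc, List.cons_append, hφ, h2,
          map_zero, mul_zero, Pi.zero_apply]
    · simp [image_eq_zero_of_notMem_tsupport hz]

omit [BorelSpace Z] in
theorem th (h : A.Std) {C : Set Z} {ξ : FF Z} (hξ : A.In C 3 ξ) :
    A.D1 (A.th ξ) ∧ A.sp1 (A.th ξ) ⊆ ⋃ q ∈ ξ.support, tsupport q.1 ∧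
    ∀ (L : List (F1 Λ)) z, A.val ξ L z = A.Dt (L ++ [A.th ξ]) z := by
  have hp : ∀ q ∈ ξ.support, q.2 = [q.2.headD 0] := fun q hq => by
    obtain ⟨p, hp⟩ := List.length_eq_one_iff.1 (show q.2.length = 1 by
      have := (hξ q hq).2.2.1; omega)
    rw [hp]; rfl
  have hK : IsCompact (⋃ q ∈ ξ.support, tsupport q.1) :=
    ξ.support.isCompact_biUnion fun q hq => (hξ q hq).1.2.isCompact
  have hs : A.sp1 (A.th ξ) ⊆ ⋃ q ∈ ξ.support, tsupport q.1 := by
    refine closure_minimal (fun z hz => by_contra fun hz' => hz fun l hl => ?_) hK.isClosed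
    rw [KA.th, Finsupp.sum, Finset.sum_apply, Finset.sum_apply]
    refine Finset.sum_eq_zero fun q hq => ?_
    have : q.1 z = 0 :=
      image_eq_zero_of_notMem_tsupport fun h' => hz' (mem_iUnion₂.2 ⟨q, hq, h'⟩)
    simp [KA.sm1, (A.e l).left_inv hl, this]
  refine ⟨⟨fun z => KA.s1_sum fun q hq => KA.S1.smul (h.bas.s1_sm1 _ _ z ((hξ q hq).1.1 z)
    (h.bas.s1_d _ z ((hξ q hq).2.2.2 _ ?_ z))) _, hK.of_isClosed_subset isClosed_closure hs⟩,
    hs, fun L z => ?_⟩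
  · conv_lhs => rw [hp q hq]
    exact List.mem_singleton_self _
  · obtain ⟨φ, hφ⟩ := slot A L [] z
    rw [hφ, KA.th, KA.val, Finsupp.sum, Finsupp.sum, KA.v1_sum, map_sum]
    refine Finset.sum_congr rfl fun q hq => ?_
    rw [KA.v1_smul, KA.v1_sm1, map_smul, map_smul, ← hφ]
    conv_lhs => rw [hp q hq]
    rfl

end PEvl

theorem evl (h : A.Std) : A.Evl where
  cls := ⟨fun z => KA.sm_const 1 z, fun _ hf _ hg z => (hf z).add (hg z),
    fun _ hf z => (hf z).neg, fun _ hf _ hg z => (hf z).mul (hg z)⟩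
  cur _ _ _ hξ := PEvl.cur h hξ
  val _ _ _ _ _ hξ hf hL := PEvl.val h hξ hf hL
  th _ _ hξ := PEvl.th h hξ
  sum _ s c w b _ _ _ _ L L' hξ hf hL hw hb := PEvl.sum h s c w b L L' hξ hf hL hw hb
  mul _ _ ξ f U a L L' _ := by
    refine Finset.sum_congr rfl fun q _ => congrArg (ξ q * ·) ?_
    refine integral_congr_ae (Eventually.of_forall fun z => ?_)
    obtain ⟨φ, hφ⟩ := PEvl.slot A L (L' ++ q.2.map A.d) z
    simp only [List.append_assoc, List.cons_append, hφ, KA.v1_sm1, map_smul, smul_eq_mul,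
      Pi.mul_apply]
    ring

end Pool.Agent.Lib.MP_356dfe_ag.S
end
end

-- part Pool.Agent.Lib.MP_356dfe_ag.S.PInv
section

/-! Invariance under the group. -/

set_option autoImplicit false

open Set Filter Topology Metric MeasureTheory
open scoped ContDiff ComplexConjugate Matrix Pointwise

noncomputable section

namespace Pool.Agent.Lib.MP_356dfe_ag.S

namespace PInv

variable {G Z : Type} [Group G] [TopologicalSpace Z] [MulAction G Z] {m n : ℕ} (Γ : Geo G Z m n)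

include Γ in
theorem ccs : ContinuousConstSMul G Z := ⟨Γ.cont⟩

theorem all {p : Vx G m → Prop} (g : G) (h : ∀ l, p (g • l)) (l : Vx G m) : p l := by
  simpa only [smul_inv_smul] using h (g⁻¹ • l)

theorem act1_smul {V : Type} (g : G) (a : Vx G m → V) (l : Vx G m) : act1 g a (g • l) = a l := by
  simp only [act1, inv_smul_smul]

theorem comp_symm {V : Type} (g : G) (U : Z → V) (l : Vx G m) :
    act0 g U ∘ (Γ.A.e (g • l)).symm = U ∘ (Γ.A.e l).symm :=
  funext fun x => by simp only [Function.comp_apply, act0, Γ.symm_sm, inv_smul_smul]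

theorem T_sm (g : G) (l l' : Vx G m) : Γ.A.T (g • l) (g • l') = Γ.A.T l l' :=
  funext fun x => by simp only [KA.T, Function.comp_apply, Γ.symm_sm, Γ.e_sm]

theorem met_sm (g : G) (l : Vx G m) : Γ.A.met (g • l) = Γ.A.met l := by
  simp only [KA.met, Γ.ty_sm]

include Γ in
theorem ev_smul (g : G) {z : Z} {p : Z → Prop} (h : ∀ᶠ w in 𝓝 z, p (g • w)) :
    ∀ᶠ w in 𝓝 (g • z), p w := by
  have := (Γ.cont g⁻¹).continuousAt (x := g • z)
  rw [ContinuousAt, inv_smul_smul] at this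
  simpa only [smul_inv_smul] using this.eventually h

theorem sm (g : G) (U : Z → ℝ) (z : Z) (h : Γ.A.Sm U z) : Γ.A.Sm (act0 g U) (g • z) :=
  all g fun l hl => by
    rw [comp_symm, Γ.e_sm]
    exact h l ((Γ.src_sm g l z).1 hl)

theorem SM (g : G) {U : Z → ℝ} (h : Γ.A.SM U) : Γ.A.SM (act0 g U) := fun z => by
  simpa only [smul_inv_smul] using sm Γ g U _ (h (g⁻¹ • z))

include Γ in
theorem tsupp (g : G) (U : Z → ℝ) : tsupport (act0 g U) = g • tsupport U := by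
  have := ccs Γ
  rw [tsupport, tsupport, ← closure_smul, ← preimage_smul_inv]
  rfl

theorem dd (g : G) (U : Z → ℝ) (h : Γ.A.D U) :
    Γ.A.D (act0 g U) ∧ tsupport (act0 g U) = g • tsupport U := by
  have := ccs Γ
  refine ⟨⟨SM Γ g h.1, ?_⟩, tsupp Γ g U⟩
  rw [HasCompactSupport, tsupp Γ]
  exact IsCompact.smul g h.2

theorem d (g : G) (U : Z → ℝ) : Γ.A.d (act0 g U) = act1 g (Γ.A.d U) :=
  funext (all g fun l => by rw [act1_smul, KA.d, comp_symm]; rfl)

theorem sm1 (g : G) (U : Z → ℝ) (a : F1 (Vx G m)) :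
    Γ.A.sm1 (act0 g U) (act1 g a) = act1 g (Γ.A.sm1 U a) :=
  funext (all g fun l => funext fun x => by
    simp only [act1_smul, KA.sm1, act0, Γ.symm_sm, inv_smul_smul])

theorem eq1 (g : G) (a b : F1 (Vx G m)) (z : Z) :
    Γ.A.Eq1 (act1 g a) (act1 g b) (g • z) ↔ Γ.A.Eq1 a b z := by
  refine ⟨fun h l hl => ?_, fun h => all g fun l hl => ?_⟩
  · simpa only [act1_smul, Γ.e_sm] using h (g • l) ((Γ.src_sm g l z).2 hl)
  · simpa only [act1_smul, Γ.e_sm] using h l ((Γ.src_sm g l z).1 hl)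

theorem at1 (g : G) {a : F1 (Vx G m)} {z : Z} (h : Γ.A.At1 a z) : Γ.A.At1 (act1 g a) (g • z) :=
  all g fun l => all g fun l' hl hl' => by
    simpa only [act1_smul, Γ.e_sm, T_sm] using
      h l l' ((Γ.src_sm g l z).1 hl) ((Γ.src_sm g l' z).1 hl')

theorem at2 (g : G) {S : F2 (Vx G m)} {z : Z} (h : Γ.A.At2 S z) : Γ.A.At2 (act1 g S) (g • z) :=
  all g fun l => all g fun l' hl hl' => by
    simpa only [act1_smul, Γ.e_sm, T_sm] using
      h l l' ((Γ.src_sm g l z).1 hl) ((Γ.src_sm g l' z).1 hl')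

theorem s1 (g : G) (a : F1 (Vx G m)) (z : Z) (h : Γ.A.S1 a z) : Γ.A.S1 (act1 g a) (g • z) :=
  ⟨at1 Γ g h.1, all g fun l hl => by
    simpa only [act1_smul, Γ.e_sm] using h.2 l ((Γ.src_sm g l z).1 hl)⟩

theorem ex (g : G) (a : F1 (Vx G m)) (z : Z) (h : Γ.A.Ex a z) : Γ.A.Ex (act1 g a) (g • z) := by
  obtain ⟨U, hU⟩ := h
  refine ⟨act0 g U, ev_smul Γ g (hU.mono fun w hw => ⟨sm Γ g U w hw.1, ?_⟩)⟩
  rw [d]
  exact (eq1 Γ g _ _ w).2 hw.2

theorem sp1 (g : G) (a : F1 (Vx G m)) : Γ.A.sp1 (act1 g a) = g • Γ.A.sp1 a := by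
  have := ccs Γ
  rw [KA.sp1, KA.sp1, ← closure_smul]
  congr 1
  ext z
  obtain ⟨z, rfl⟩ := (MulAction.bijective g).2 z
  rw [smul_mem_smul_set_iff]
  exact not_congr (eq1 Γ g a 0 z)

theorem src_i (g : G) (z : Z) : g • z ∈ Γ.A.src (g • Γ.A.i z) := (Γ.src_sm g _ z).2 (Γ.A.mem_i z)

theorem N (hb : Γ.A.Bas) (g : G) (a : F1 (Vx G m)) (z : Z) (h : Γ.A.At1 a z) :
    Γ.A.N (act1 g a) (g • z) = Γ.A.N a z := by
  rw [KA.N, hb.P_eq _ _ _ _ (at1 Γ g h) (at1 Γ g h) (src_i Γ g z), met_sm, act1_smul, Γ.e_sm]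
  rfl

theorem NN (hb : Γ.A.Bas) (g : G) (S : F2 (Vx G m)) (z : Z) (h : Γ.A.At2 S z) :
    Γ.A.NN (act1 g S) (g • z) = Γ.A.NN S z := by
  rw [hb.NN_eq _ _ _ (at2 Γ g h) (src_i Γ g z), met_sm, act1_smul, Γ.e_sm]
  rfl

theorem Dt (hb : Γ.A.Bas) (g : G) (L : List (F1 (Vx G m))) (z : Z) (h : ∀ a ∈ L, Γ.A.At1 a z) :
    Γ.A.Dt (L.map (act1 g)) (g • z) = Γ.A.Dt L z := by
  rw [hb.Dt_eq _ _ _ (List.forall_mem_map.2 fun a ha => at1 Γ g (h a ha)) (src_i Γ g z), met_sm,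
    Γ.e_sm, List.map_map]
  simp only [Function.comp_def, act1_smul]
  rfl

theorem E (g : G) (z : Z) : g • z ∈ Γ.A.E ↔ z ∈ Γ.A.E := by
  rw [Γ.A.hE _ _ (src_i Γ g z), Γ.A.hE _ _ (Γ.A.mem_i z), Γ.ty_sm, Γ.e_sm]

theorem In (g : G) (C : Set Z) (k : ℕ) (ξ : FF Z) (h : Γ.A.In C k ξ) :
    Γ.A.In (g • C) k (actF g ξ) := by
  classical
  intro q hq
  obtain ⟨q', hq', rfl⟩ := Finset.mem_image.1 (Finsupp.mapDomain_support hq)
  obtain ⟨h1, h2, h3, h4⟩ := h q' hq'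
  refine ⟨(dd Γ g _ h1).1, ?_, by simpa using h3, List.forall_mem_map.2 fun p hp => SM Γ g (h4 p hp)⟩
  rw [tsupp Γ]
  exact smul_set_mono h2

theorem th (g : G) (ξ : FF Z) : Γ.A.th (actF g ξ) = act1 g (Γ.A.th ξ) := by
  have e : ∀ L : List (Z → ℝ), (L.map (act0 g)).headD 0 = act0 g (L.headD 0) := fun L => by
    cases L <;> rfl
  rw [KA.th, actF, Finsupp.sum_mapDomain_index (fun _ => by exact zero_smul ℝ _)
    fun _ _ _ => by exact add_smul _ _ _]
  simp only [e, d, sm1]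
  funext l
  simp only [act1, KA.th, Finsupp.sum, Finset.sum_apply, Pi.smul_apply]

theorem V_smul (g : G) (l : Vx G n) : Γ.V (g • l) = g • Γ.V l := by
  ext z
  obtain ⟨z, rfl⟩ := (MulAction.bijective g).2 z
  rw [smul_mem_smul_set_iff]
  exact Γ.V_sm g l z

theorem mem_VV {X ι : Type} {V : ι → Set X} {σ : Finset ι} {z : X} :
    z ∈ VV V σ ↔ ∀ l ∈ σ, z ∈ V l := mem_iInter₂

theorem VV_smul (g : G) (σ : Finset (Vx G n)) : VV Γ.V (g • σ) = g • VV Γ.V σ := by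
  ext z
  obtain ⟨z, rfl⟩ := (MulAction.bijective g).2 z
  rw [smul_mem_smul_set_iff, mem_VV, mem_VV]
  refine ⟨fun h l hl => (Γ.V_sm g l z).1 (h _ (Finset.smul_mem_smul_finset hl)), fun h l hl => ?_⟩
  obtain ⟨l', hl', rfl⟩ := Finset.mem_smul_finset.1 hl
  exact (Γ.V_sm g l' z).2 (h l' hl')

theorem prop (hb : Γ.A.Bump) (K K' : Set Z) (hK : IsCompact K) (hK' : IsCompact K') :
    {g : G | (g • K ∩ K').Nonempty}.Finite := by
  refine (((hb.lf K hK).prod (hb.lf K' hK')).image fun p => p.2.1 * p.1.1⁻¹).subset ?_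
  rintro g ⟨_, ⟨z, hz, rfl⟩, hz'⟩
  exact ⟨(Γ.A.i z, g • Γ.A.i z), ⟨⟨z, Γ.A.mem_i z, hz⟩, _, src_i Γ g z, hz'⟩,
    mul_inv_cancel_right g _⟩

theorem fin (hb : Γ.A.Bump) (ι : Type) [MulAction G ι] (𝒮 : Set ι) (K : ι → Set Z) (ho : Orb G 𝒮)
    (hK : ∀ i ∈ 𝒮, IsCompact (K i) ∧ ∀ g : G, K (g • i) = g • K i) :
    (∀ C, IsCompact C → {i ∈ 𝒮 | (K i ∩ C).Nonempty}.Finite) ∧
    ∀ C, IsCompact C → ∃ k : ℕ, ∀ g : G, {i ∈ 𝒮 | (K i ∩ g • C).Nonempty}.ncard ≤ k := by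
  refine ⟨fun C hC => ?_, fun C _ => ⟨{i ∈ 𝒮 | (K i ∩ C).Nonempty}.ncard, fun g => le_of_eq ?_⟩⟩
  · obtain ⟨F, hF⟩ := ho.fin
    refine ((F.finite_toSet.inter_of_left 𝒮).biUnion fun j hj =>
      (prop Γ hb (K j) C (hK j hj.2).1 hC).image (· • j)).subset ?_
    rintro i ⟨hi, h⟩
    obtain ⟨g, j, hj, rfl⟩ := hF i hi
    have hj' : j ∈ 𝒮 := by simpa only [inv_smul_smul] using ho.inv _ hi g⁻¹
    rw [(hK j hj').2] at h
    exact mem_biUnion (x := j) ⟨hj, hj'⟩ ⟨g, h, rfl⟩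
  · rw [← ncard_smul_set g {i ∈ 𝒮 | (K i ∩ C).Nonempty}]
    congr 1
    ext i
    obtain ⟨i, rfl⟩ := (MulAction.bijective g).2 i
    rw [smul_mem_smul_set_iff]
    have e : g • i ∈ 𝒮 ↔ i ∈ 𝒮 :=
      ⟨fun h => by simpa only [inv_smul_smul] using ho.inv _ h g⁻¹, fun h => ho.inv _ h g⟩
    refine (and_congr_left' e).trans (and_congr_right fun hi => ?_)
    rw [(hK i hi).2, ← smul_set_inter, smul_set_nonempty]

include Γ in
theorem cocpt : ∃ C : Set Z, IsCompact C ∧ ∀ z, ∃ g : G, z ∈ g • C := by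
  refine ⟨⋃ i : Fin m, (Γ.A.e (Vx.mk 1 i)).symm '' closedBall 0 1, isCompact_iUnion fun i =>
    (isCompact_closedBall 0 1).image_of_continuousOn ((Γ.A.e _).continuousOn_symm.mono ?_),
    fun z => ⟨(Γ.A.i z).1, _, mem_iUnion.2 ⟨(Γ.A.i z).2, _, ball_subset_closedBall (Γ.A.ball_i z),
      rfl⟩, ?_⟩⟩
  · rw [Γ.A.tgt]
    exact closedBall_subset_ball (by norm_num)
  · have e : (Γ.A.i z).1 • Vx.mk (1 : G) (Γ.A.i z).2 = Γ.A.i z := Prod.ext (mul_one _) rfl
    refine (Γ.symm_sm _ _ _).symm.trans ?_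
    rw [e]
    exact (Γ.A.e _).left_inv (Γ.A.mem_i z)

theorem vx_free {g : G} {l : Vx G n} (h : g • l = l) : g = 1 :=
  mul_right_cancel (b := l.1) ((congrArg Prod.fst h).trans (one_mul _).symm)

theorem orbV : Orb G (univ : Set (Vx G n)) :=
  ⟨fun _ _ _ => trivial, fun _ _ _ => vx_free, Finset.univ.image (Vx.mk 1), fun l _ =>
    ⟨l.1, _, Finset.mem_image_of_mem _ (Finset.mem_univ l.2), Prod.ext (mul_one _).symm rfl⟩⟩

theorem lfV (hb : Γ.A.Bump) (K : Set Z) (hK : IsCompact K) :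
    {l | (Γ.V l ∩ K).Nonempty}.Finite := by
  have := ccs Γ
  exact ((fin Γ hb _ univ (fun l => closure (Γ.V l)) orbV fun l _ => ⟨Γ.V_cpt l, fun g => by
    rw [V_smul, closure_smul]⟩).1 K hK).subset fun l hl =>
      ⟨trivial, hl.mono (inter_subset_inter_left _ subset_closure)⟩

theorem VV_anti {X ι : Type} (V : ι → Set X) {σ τ : Finset ι} (h : τ ⊆ σ) : VV V σ ⊆ VV V τ :=
  fun _ hz => mem_VV.2 fun l hl => mem_VV.1 hz l (h hl)

theorem cxA (hb : Γ.A.Bump) : Cx Γ.𝒜 where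
  ne _ h := h.1
  down _ h _ h1 h2 := ⟨h2, h.2.mono (VV_anti _ h1)⟩
  inv σ h g := ⟨h.1.smul_finset, by rw [VV_smul]; exact h.2.smul_set⟩
  inj _ h i hi j hj := let ⟨z, hz⟩ := h.2
    Γ.V_inj i j ⟨z, mem_VV.1 hz i hi, mem_VV.1 hz j hj⟩
  lf l := by
    refine (Finset.finite_toSet (lfV Γ hb _ (Γ.V_cpt l)).toFinset.powerset).subset ?_
    rintro σ ⟨⟨-, z, hz⟩, hl⟩
    exact Finset.mem_powerset.2 fun j hj => (Finite.mem_toFinset _).2
      ⟨z, mem_VV.1 hz j hj, subset_closure (mem_VV.1 hz l hl)⟩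

theorem BA : Γ.ℬ ⊆ Γ.𝒜 := fun _ h => ⟨h.1, h.2.mono inter_subset_left⟩

theorem cxB (hb : Γ.A.Bump) : Cx Γ.ℬ where
  ne _ h := h.1
  down _ h _ h1 h2 := ⟨h2, h.2.mono (inter_subset_inter_left _ (VV_anti _ h1))⟩
  inv σ h g := by
    obtain ⟨h1, z, h2, h3⟩ := h
    refine ⟨h1.smul_finset, g • z, ?_, (Γ.ρ_sm g z).trans_lt h3⟩
    rw [VV_smul]
    exact smul_mem_smul_set h2
  inj σ h := (cxA Γ hb).inj σ (BA Γ h)
  lf l := ((cxA Γ hb).lf l).subset fun _ h => ⟨BA Γ h.1, h.2⟩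

theorem orb (hb : Γ.A.Bump) : Orb G Γ.𝒜 where
  inv := (cxA Γ hb).inv
  free σ h g e := by
    obtain ⟨l, hl⟩ := h.1
    exact vx_free ((cxA Γ hb).inj σ h _ (e ▸ Finset.smul_mem_smul_finset hl) l hl rfl)
  fin := by
    refine ⟨(finite_iUnion fun i : Fin n => (cxA Γ hb).lf (Vx.mk 1 i)).toFinset, fun σ h => ?_⟩
    obtain ⟨l, hl⟩ := h.1
    refine ⟨l.1, l.1⁻¹ • σ, (Finite.mem_toFinset _).2 (mem_iUnion.2
      ⟨l.2, (cxA Γ hb).inv σ h _, ?_⟩), (smul_inv_smul _ _).symm⟩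
    have e : l.1⁻¹ • l = Vx.mk (1 : G) l.2 := Prod.ext (inv_mul_cancel _) rfl
    exact e ▸ Finset.smul_mem_smul_finset hl

theorem ek (hb : Γ.A.Bump) : Γ.A.EK := by
  have := ccs Γ
  intro z hz
  have h0 : ∀ y ∈ Γ.A.E, Γ.ρ y = 0 := fun y hy => (Γ.nbh.zero y).2 hy
  obtain ⟨g, hg, -⟩ := Γ.sheet z (by rw [h0 z hz]; exact Γ.nbh.pos.trans Γ.nbh.lt)
  obtain ⟨χ, h1, h2, h3, h4⟩ := hb.bump (g • (Γ.N ∩ {w | Γ.ρ w ≤ Γ.a})) (g • Γ.N)
    ((Γ.nbh.cpt _ Γ.nbh.lt).smul g) (Γ.nbh.op.smul g) (smul_set_mono inter_subset_left)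
  have key : ∀ y ∈ Γ.A.E, y ∈ g • Γ.N → ∀ᶠ w in 𝓝 y, χ w = 1 := fun y hy hy' =>
    eventually_nhdsSet_iff_forall.1 h3 y (mem_smul_set_iff_inv_smul_mem.2
      ⟨mem_smul_set_iff_inv_smul_mem.1 hy', ((Γ.ρ_sm _ y).trans (h0 y hy)).trans_le Γ.nbh.pos.le⟩)
  refine ⟨χ, h1, fun w => (h2 w).1, key z hz (mem_smul_set_iff_inv_smul_mem.2 hg), fun y hy => ?_⟩
  by_cases hy' : y ∈ g • Γ.N
  · exact (key y hy hy').mono fun w hw => hw.trans (key y hy hy').self_of_nhds.symm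
  · have e := notMem_tsupport_iff_eventuallyEq.1 fun k => hy' (h4 k)
    exact e.mono fun w hw => hw.trans e.self_of_nhds.symm

end PInv

variable {G Z : Type} [Group G] [TopologicalSpace Z] [T2Space Z] [MulAction G Z]
  [MeasurableSpace Z] [BorelSpace Z] {m n : ℕ} {Γ : Geo G Z m n}

theorem inv (h : Γ.A.Std) : Γ.Inv :=
  ⟨PInv.sm Γ, PInv.dd Γ, PInv.d Γ, PInv.sm1 Γ, PInv.eq1 Γ, PInv.s1 Γ, PInv.ex Γ, PInv.sp1 Γ,
    PInv.N Γ h.bas, PInv.NN Γ h.bas, PInv.Dt Γ h.bas, PInv.E Γ, PInv.In Γ, PInv.th Γ,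
    PInv.VV_smul Γ, PInv.prop Γ h.bump, PInv.fin Γ h.bump, PInv.cocpt Γ, PInv.lfV Γ h.bump,
    PInv.cxA Γ h.bump, PInv.cxB Γ h.bump, PInv.orb Γ h.bump, PInv.ek Γ h.bump⟩

end Pool.Agent.Lib.MP_356dfe_ag.S
end
end
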