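import Pool.Agent.Lib.MP_356dfe_ag.S.Basic

/-! The truncated complex. -/

set_option autoImplicit false

open Set Filter Topology Metric MeasureTheory
open scoped ContDiff ComplexConjugate Matrix Pointwise

noncomputable section

namespace Pool.Agent.Lib.MP_356dfe_ag.S

namespace PL2E

open Function Module

/-- square summable real families -/
abbrev L (ι : Type) : Type := lp (fun _ : ι => ℝ) 2

theorem exists_op {ι : Type} (φ : ι → ι) (p : ι → Prop) [DecidablePred p]
    (hφ : InjOn φ {i | p i}) : ∃ Q : L ι →L[ℝ] L ι,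
      (∀ x i, Q x i = if p i then x (φ i) else 0) ∧ ∀ x, ‖Q x‖ ≤ ‖x‖ := by
  classical
  have h2 : (0 : ℝ) < (2 : ENNReal).toReal := by norm_num
  have key : ∀ (x : L ι) (s : Finset ι), ∑ i ∈ s, ‖if p i then x (φ i) else 0‖ ^
      (2 : ENNReal).toReal ≤ ‖x‖ ^ (2 : ENNReal).toReal := by
    intro x s
    refine le_trans (le_of_eq ?_) (lp.sum_rpow_le_norm_rpow h2 x ((s.filter p).image φ))
    rw [Finset.sum_image (s := s.filter p) (hφ.mono fun i hi => (Finset.mem_filter.1 hi).2),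
      Finset.sum_filter]
    refine Finset.sum_congr rfl fun i _ => ?_
    split_ifs <;> simp
  let Q : L ι →ₗ[ℝ] L ι :=
    { toFun x := ⟨fun i => if p i then x (φ i) else 0, memℓp_gen' (key x)⟩
      map_add' x y := lp.ext (funext fun i => by by_cases h : p i <;> simp [h])
      map_smul' c x := lp.ext (funext fun i => by by_cases h : p i <;> simp [h]) }
  have hQ : ∀ x, ‖Q x‖ ≤ ‖x‖ := fun x => lp.norm_le_of_forall_sum_le h2 (norm_nonneg _) (key x)
  exact ⟨Q.mkContinuous 1 (by simpa using hQ), fun _ _ => rfl, hQ⟩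

variable {G F : Type} [Group G]

theorem exists_rep : ∃ u : G →* (L (G × F) ≃ₗᵢ[ℝ] L (G × F)),
    ∀ g x h i, u g x (h, i) = x (g⁻¹ * h, i) := by
  choose Q h1 h2 using fun g : G => exists_op (fun q : G × F => (g⁻¹ * q.1, q.2)) (fun _ => True)
    fun q _ q' _ e => Prod.ext (mul_left_cancel (Prod.ext_iff.1 e).1) (Prod.ext_iff.1 e).2
  simp only [if_true] at h1
  have h3 : ∀ g, (Q g : L (G × F) →ₗ[ℝ] L (G × F)) ∘ₗ (Q g⁻¹ : L (G × F) →ₗ[ℝ] L (G × F)) =
      LinearMap.id := fun g => LinearMap.ext fun x => lp.ext (funext fun q => by simp [h1])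
  refine ⟨MonoidHom.mk' (fun g => LinearIsometryEquiv.ofBounds
    (LinearEquiv.ofLinearMap (Q g : L (G × F) →ₗ[ℝ] L (G × F)) (Q g⁻¹) (h3 g)
      (by simpa using h3 g⁻¹)) (h2 g) (h2 g⁻¹)) fun g g' => ?_, fun g x h i => h1 g x (h, i)⟩
  refine LinearIsometryEquiv.ext fun x => lp.ext (funext fun q => ?_)
  change Q (g * g') x q = Q g (Q g' x) q
  simp [h1, mul_assoc]

open Classical in
omit [Group G] in
theorem bas_eq (i : G × F) : (default : HilbertBasis (G × F) ℝ (L (G × F))) i =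
    lp.single 2 i (1 : ℝ) := (HilbertBasis.repr_symm_single _ i).symm

variable [Fintype F]

/-- restriction to a sheet -/
def res (g : G) : L (G × F) →L[ℝ] EuclideanSpace ℝ F :=
  (EuclideanSpace.equiv F ℝ).symm.toContinuousLinearMap ∘L
    ContinuousLinearMap.pi fun s => lp.evalCLM ℝ (fun _ : G × F => ℝ) 2 (g, s)

omit [Group G] [Fintype F] in
theorem res_apply (g : G) (x : L (G × F)) (s : F) : res g x s = x (g, s) := rfl

variable (G) in
/-- families whose restriction to every sheet lies in `W` -/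
def ten (W : Submodule ℝ (EuclideanSpace ℝ F)) : Submodule ℝ (L (G × F)) :=
  ⨅ g : G, W.comap (res g).toLinearMap

omit [Group G] [Fintype F] in
theorem mem_ten {W : Submodule ℝ (EuclideanSpace ℝ F)} {x : L (G × F)} :
    x ∈ ten G W ↔ ∀ g, res g x ∈ W := Submodule.mem_iInf _

omit [Group G] in
theorem ten_closed (W : Submodule ℝ (EuclideanSpace ℝ F)) :
    IsClosed (ten G W : Set (L (G × F))) := by
  rw [ten, Submodule.coe_iInf]
  exact isClosed_iInter fun g => W.closed_of_finiteDimensional.preimage (res g).continuous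

theorem dim_ten (W : Submodule ℝ (EuclideanSpace ℝ F)) :
    dimG (default : HilbertBasis (G × F) ℝ (L (G × F))) (ten G W) = finrank ℝ W := by
  classical
  obtain ⟨ι, h1, h2⟩ : ∃ ι : EuclideanSpace ℝ F → L (G × F),
      (∀ v g, res g (ι v) = if g = 1 then v else 0) ∧
        ∀ v w, inner ℝ (ι v) w = inner ℝ v (res 1 w) := by
    refine ⟨fun v => ∑ s, lp.single 2 (1, s) (v s), fun v g => ?_, fun v w => ?_⟩
    · ext s
      rw [res_apply, lp.coeFn_sum, Finset.sum_apply]
      by_cases h : g = 1 <;> simp [lp.single_apply, Pi.single_apply, h]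
    · simp only [sum_inner, lp.inner_single_left, PiLp.inner_apply, res_apply]
  have h3 : ∀ i, (ten G W).topologicalClosure.starProjection
      ((default : HilbertBasis (G × F) ℝ (L (G × F))) (1, i)) =
      ι (W.starProjection (EuclideanSpace.single i 1)) := by
    intro i
    refine Submodule.eq_starProjection_of_mem_of_inner_eq_zero
      (Submodule.le_topologicalClosure _ (mem_ten.2 fun g => ?_)) fun w hw => ?_
    · rw [h1]
      split_ifs
      exacts [W.starProjection_apply_mem _, W.zero_mem]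
    · rw [(ten_closed W).submodule_topologicalClosure_eq] at hw
      have := W.starProjection_inner_eq_zero (EuclideanSpace.single i 1) _ (mem_ten.1 hw 1)
      rw [inner_sub_left] at this ⊢
      rw [h2, ← this, bas_eq, lp.inner_single_left, EuclideanSpace.inner_single_left, res_apply]
      simp
  have h4 : LinearMap.IsProj W W.starProjection.toLinearMap :=
    ⟨fun x => W.starProjection_apply_mem x, fun x hx => Submodule.starProjection_eq_self_iff.2 hx⟩
  rw [← h4.trace, LinearMap.trace_eq_sum_inner _ (EuclideanSpace.basisFun F ℝ), dimG]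
  refine Finset.sum_congr rfl fun i _ => ?_
  rw [h3, ← real_inner_self_eq_norm_sq, h2, h1, if_pos rfl, EuclideanSpace.basisFun_apply]
  have := W.starProjection_inner_eq_zero (EuclideanSpace.single i 1) _
    (W.starProjection_apply_mem (EuclideanSpace.single i 1))
  rw [inner_sub_left, sub_eq_zero] at this
  exact this.symm

/-- coordinate subspaces -/
theorem exists_coord (p : F → Prop) [DecidablePred p] : ∃ C : Submodule ℝ (EuclideanSpace ℝ F),
    (∀ v, v ∈ C ↔ ∀ s, ¬ p s → v s = 0) ∧ finrank ℝ C = (Finset.univ.filter p).card := by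
  refine ⟨Submodule.span ℝ ((EuclideanSpace.basisFun F ℝ).toBasis '' {s | p s}), fun v => ?_, ?_⟩
  · rw [Basis.mem_span_image]
    refine forall_congr' fun s => ?_
    simp [not_imp_comm]
  · rw [image_eq_range, ← Fintype.card_subtype]
    exact finrank_span_eq_card
      ((EuclideanSpace.basisFun F ℝ).toBasis.linearIndependent.comp _ Subtype.val_injective)

variable {n : ℕ} {𝒜 ℬ : Set (Finset (Vx G n))} {NA NB : Finset (Finset (Fin n))}

omit [Fintype F] in
theorem rank_le (hd : ∀ s ∈ NB, ∀ t ⊆ s, t.Nonempty → t ∈ NB) (ι : F → Finset (Fin n)) :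
    ∃ R : Submodule ℝ (EuclideanSpace ℝ F), finrank ℝ R ≤ (incN NB).rank ∧
      ∀ (c : Finset (Fin n) → ℝ) (v : EuclideanSpace ℝ F), (∀ s, v s =
        if ι s ∈ NB ∧ (ι s).card = 3 then ∑ j ∈ ι s,
          (-1) ^ ((ι s).filter fun i => i < j).card * c ((ι s).erase j) else 0) → v ∈ R := by
  let K := LinearMap.range (incN NB).mulVecLin
  let e : (NB.filter (fun s => s.card = 3) → ℚ) →ₗ[ℚ] EuclideanSpace ℝ F :=
    { toFun k := WithLp.toLp 2 fun s =>
        if h : ι s ∈ NB.filter (fun s => s.card = 3) then (k ⟨ι s, h⟩ : ℝ) else 0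
      map_add' k k' := by
        ext s
        simp only [PiLp.add_apply, Pi.add_apply, Rat.cast_add]
        split_ifs <;> simp
      map_smul' a k := by
        ext s
        simp only [PiLp.smul_apply, Pi.smul_apply, RingHom.id_apply, smul_eq_mul, Rat.cast_mul,
          Rat.smul_def]
        split_ifs <;> simp }
  have he : ∀ k s, e k s = if h : ι s ∈ NB.filter (fun s => s.card = 3) then (k ⟨ι s, h⟩ : ℝ)
      else 0 := fun _ _ => rfl
  refine ⟨Submodule.span ℝ (range fun i => e (finBasis ℚ K i)),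
    (finrank_range_le_card _).trans (Fintype.card_fin _).le, fun c v hv => ?_⟩
  have h1 : ∀ k : K, e k ∈ Submodule.span ℝ (range fun i => e (finBasis ℚ K i)) := fun k => by
    rw [← (finBasis ℚ K).sum_repr k, Submodule.coe_sum, map_sum]
    exact Submodule.sum_mem _ fun i _ => by
      rw [Submodule.coe_smul, map_smul]
      exact Submodule.smul_of_tower_mem _ _ (Submodule.subset_span ⟨i, rfl⟩)
  have h2 : v = ∑ t : NB.filter (fun s => s.card = 2), c t • e (fun s => incN NB s t) := by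
    ext s
    simp only [hv, WithLp.ofLp_sum, Finset.sum_apply, PiLp.smul_apply, he, Finset.mem_filter]
    split_ifs with h
    · simp only [incN, Matrix.of_apply, Rat.cast_sum, smul_eq_mul, Finset.mul_sum]
      rw [Finset.sum_comm]
      refine Finset.sum_congr rfl fun j hj => ?_
      have k : ((ι s).erase j).card = 2 := by rw [Finset.card_erase_of_mem hj, h.2]
      rw [Finset.sum_eq_single ⟨(ι s).erase j, Finset.mem_filter.2 ⟨hd _ h.1 _
        (Finset.erase_subset _ _) (Finset.card_pos.1 (by omega)), k⟩⟩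
        (fun t _ ht => by rw [if_neg fun e => ht (Subtype.ext e.symm)]; simp) (by simp)]
      simp [mul_comm]
    · simp
  rw [h2]
  exact Submodule.sum_mem _ fun t _ => Submodule.smul_mem _ _
    (h1 ⟨_, Pi.single t 1, (Matrix.mulVec_single_one _ _).trans rfl⟩)

theorem cob_smul (g : G) (c : Finset (Vx G n) → ℝ) (σ : Finset (Vx G n)) :
    cob c (g • σ) = cob (fun τ => c (g • τ)) σ := by
  rw [cob, Finset.smul_finset_def, Finset.sum_image (MulAction.injective g).injOn]
  refine Finset.sum_congr rfl fun j _ => ?_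
  rw [← Finset.image_erase (MulAction.injective g), ← Finset.smul_finset_def, sg_smul]
  rfl

omit [Group G] in
theorem cob_cob (c : Finset (Vx G n) → ℝ) {σ : Finset (Vx G n)}
    (h : ∀ i ∈ σ, ∀ j ∈ σ, i.2 = j.2 → i = j) : cob (cob c) σ = 0 := by
  have h1 : cob (cob c) σ = ∑ j ∈ σ, ∑ i ∈ σ,
      if i = j then 0 else sg j σ * sg i (σ.erase j) * c ((σ.erase j).erase i) := by
    refine Finset.sum_congr rfl fun j hj => ?_
    rw [← Finset.add_sum_erase _ _ hj, if_pos rfl, zero_add, cob, Finset.mul_sum]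
    exact Finset.sum_congr rfl fun i hi => by rw [if_neg (Finset.ne_of_mem_erase hi), mul_assoc]
  have h2 : cob (cob c) σ = -cob (cob c) σ := by
    conv_rhs => rw [h1, Finset.sum_comm]
    rw [h1, ← Finset.sum_neg_distrib]
    refine Finset.sum_congr rfl fun j hj => ?_
    rw [← Finset.sum_neg_distrib]
    refine Finset.sum_congr rfl fun i hi => ?_
    by_cases e : i = j
    · simp [e]
    · rw [if_neg e, if_neg (Ne.symm e), sg_erase hi hj fun k => e (h i hi j hj k),
        Finset.erase_right_comm]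
      ring
  linarith

omit [Group G] in
theorem mk_inj (g : G) : Injective (Vx.mk g : Fin n → Vx G n) :=
  fun _ _ e => congrArg Prod.snd e

omit [Group G] in
theorem cob_image (g : G) (c : Finset (Vx G n) → ℝ) (s : Finset (Fin n)) :
    cob c (s.image (Vx.mk g)) = ∑ j ∈ s, (-1) ^ (s.filter fun i => i < j).card *
      c ((s.erase j).image (Vx.mk g)) := by
  rw [cob, Finset.sum_image (mk_inj g).injOn]
  refine Finset.sum_congr rfl fun j _ => ?_
  rw [Finset.image_erase (mk_inj g), sg, Finset.filter_image,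
    Finset.card_image_of_injective _ (mk_inj g)]
  rfl

theorem exists_sec (hA : Cx 𝒜) (hB : Cx ℬ) (hs : ℬ ⊆ 𝒜) (hQ : Quo 𝒜 ℬ NA NB) :
    ∃ σ : NA → Finset (Vx G n), (∀ s, (σ s).card = s.1.card) ∧
      Injective (fun q : G × NA => q.1 • σ q.2) ∧ range (fun q : G × NA => q.1 • σ q.2) = 𝒜 ∧
      (∀ s : NA, s.1 ∈ NB → σ s = s.1.image (Vx.mk 1)) ∧ NB ⊆ NA ∧
      (∀ (g : G) s, g • σ s ∈ ℬ ↔ s.1 ∈ NB) ∧ ∀ s ∈ NB, ∀ t ⊆ s, t.Nonempty → t ∈ NB := by
  choose σ h1 h2 using fun s : NA => hQ.bij.surjOn s.2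
  have i1 : ∀ (g : G) (τ : Finset (Vx G n)), (g • τ).image (fun l => l.2) = τ.image fun l => l.2 :=
    fun g τ => by rw [Finset.smul_finset_def, Finset.image_image]; rfl
  have i2 : ∀ (g : G) (s : Finset (Fin n)), (s.image (Vx.mk g)).image (fun l => l.2) = s :=
    fun g s => by rw [Finset.image_image]; exact Finset.image_id
  have b1 : ∀ s ∈ NB, s.image (Vx.mk (1 : G)) ∈ ℬ := fun s h => (hQ.triv _).2 ⟨1, s, h, rfl⟩
  have b2 : ∀ s ∈ NB, s.image (Vx.mk (1 : G)) ∈ {σ ∈ 𝒜 | Nrm σ} := fun s h =>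
    ⟨hs (b1 s h), fun l hl _ => by
      obtain ⟨i, -, rfl⟩ := Finset.mem_image.1 hl
      rfl⟩
  have b3 : ∀ τ ∈ ℬ, τ.image (fun l => l.2) ∈ NB := fun τ h => by
    obtain ⟨g, s, k, rfl⟩ := (hQ.triv _).1 h
    rwa [i2]
  have b4 : ∀ s : NA, s.1 ∈ NB → σ s = s.1.image (Vx.mk 1) := fun s h =>
    hQ.bij.injOn (h1 s) (b2 _ h) ((h2 s).trans (i2 _ _).symm)
  refine ⟨σ, fun s => ?_, ?_, subset_antisymm ?_ fun τ hτ => ?_, b4,
    fun s h => i2 1 s ▸ hQ.bij.mapsTo (b2 s h), fun g s => ⟨fun h => ?_, fun h => ?_⟩,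
    fun s h t ht hn => ?_⟩
  · rw [← h2 s]
    exact (Finset.card_image_of_injOn fun i hi j hj => hA.inj _ (h1 s).1 i hi j hj).symm
  · rintro ⟨g, s⟩ ⟨g', s'⟩ e
    obtain rfl : s = s' := Subtype.ext (by
      have := congrArg (Finset.image fun l : Vx G n => l.2) e
      simp only [i1] at this
      exact (h2 s).symm.trans (this.trans (h2 s')))
    obtain ⟨l, hl⟩ := hA.ne _ (h1 s).1
    have k : g • l ∈ g' • σ s := by
      have := Finset.smul_mem_smul_finset (a := g) hl
      simp only at e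
      rwa [e] at this
    have := hA.inj _ (hA.inv _ (h1 s).1 g') _ k _ (Finset.smul_mem_smul_finset (a := g') hl) rfl
    rw [mul_right_cancel (congrArg Prod.fst this : g * l.1 = g' * l.1)]
  · rintro _ ⟨q, rfl⟩
    exact hA.inv _ (h1 _).1 _
  · obtain ⟨l, hl, k⟩ := τ.exists_min_image (fun l => l.2) (hA.ne τ hτ)
    have m : l.1⁻¹ • τ ∈ {σ ∈ 𝒜 | Nrm σ} := ⟨hA.inv _ hτ _, fun i hi h => by
      obtain ⟨i, hi', rfl⟩ := Finset.mem_smul_finset.1 hi
      obtain rfl := hA.inj τ hτ i hi' l hl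
        (le_antisymm (h (l.1⁻¹ • l) (Finset.smul_mem_smul_finset hl)) (k i hi'))
      exact inv_mul_cancel _⟩
    refine ⟨(l.1, ⟨_, hQ.bij.mapsTo m⟩), ?_⟩
    simp only
    rw [hQ.bij.injOn (h1 _) m (h2 _), smul_inv_smul]
  · have := b3 _ h
    rw [i1] at this
    exact h2 s ▸ this
  · exact hB.inv _ (b4 s h ▸ b1 _ h) g
  · exact i2 (1 : G) t ▸ b3 _ (hB.down _ (b1 s h) _ (Finset.image_subset_image ht) (hn.image _))

theorem exists_T (σ : F → Finset (Vx G n)) (hE : Injective fun q : G × F => q.1 • σ q.2) :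
    ∃ T : L (G × F) →L[ℝ] L (G × F), ∀ x g s, T x (g, s) =
      cob (extend (fun q : G × F => q.1 • σ q.2) x 0) (g • σ s) := by
  classical
  have : ∀ (s : F) (τ : Finset (Vx G n)), ∃ Q : L (G × F) →L[ℝ] L (G × F), ∀ x g s',
      Q x (g, s') = if s' = s then extend (fun q : G × F => q.1 • σ q.2) x 0 (g • τ) else 0 := by
    intro s τ
    by_cases h : ∃ q : G × F, q.1 • σ q.2 = τ
    · obtain ⟨⟨h, t⟩, rfl⟩ := h
      obtain ⟨Q, hQ, -⟩ := exists_op (fun q : G × F => (q.1 * h, t)) (fun q => q.2 = s)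
        fun q hq q' hq' e => Prod.ext (mul_right_cancel (Prod.ext_iff.1 e).1)
          (Eq.trans hq (Eq.symm hq'))
      exact ⟨Q, fun x g s' => by rw [hQ, smul_smul, hE.extend_apply x 0 (g * h, t)]⟩
    · refine ⟨0, fun x g s' => ?_⟩
      rw [extend_apply' _ _ _ fun ⟨q, e⟩ => h ⟨(g⁻¹ * q.1, q.2), by
        rw [mul_smul, e, inv_smul_smul]⟩]
      simp
  choose Q hQ using this
  refine ⟨∑ s, ∑ j ∈ σ s, sg j (σ s) • Q s ((σ s).erase j), fun x g s => ?_⟩
  simp only [sum_apply, lp.coeFn_sum, Finset.sum_apply,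
    smul_apply, lp.coeFn_smul, Pi.smul_apply, hQ]
  rw [Finset.sum_eq_single s (fun t _ h => by simp [h.symm]) (by simp), cob_smul]
  simp [cob]

theorem hasSum_bdy (hA : Cx 𝒜) {z : Finset (Vx G n) → ℝ} (hz : ∀ σ ∉ 𝒜, z σ = 0)
    {τ : Finset (Vx G n)} (hτ : τ ∈ 𝒜) :
    HasSum (fun σ => z σ * cob (fun ρ => if ρ = τ then 1 else 0) σ) (bdy 𝒜 z τ) := by
  have e : (fun σ => z σ * cob (fun ρ => if ρ = τ then 1 else 0) σ) = fun σ => ∑ j ∈ nb 𝒜 τ,
      if σ = insert j τ then sg j (insert j τ) * z (insert j τ) else 0 := by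
    funext σ
    by_cases h : σ ∈ 𝒜
    · simp only [cob, Finset.mul_sum, mul_ite, mul_one, mul_zero, ← Finset.sum_filter]
      refine Finset.sum_congr (Finset.ext fun j => ?_) fun j hj => ?_
      · rw [Finset.mem_filter, Finset.mem_filter, hA.mem_nb (hA.ne τ hτ)]
        constructor
        · rintro ⟨a, rfl⟩
          rw [Finset.insert_erase a]
          exact ⟨⟨Finset.notMem_erase _ _, h⟩, rfl⟩
        · rintro ⟨a, rfl⟩
          exact ⟨Finset.mem_insert_self _ _, Finset.erase_insert a.1⟩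
      · rw [(Finset.mem_filter.1 hj).2, mul_comm]
    · rw [hz σ h, zero_mul]
      exact (Finset.sum_eq_zero fun j hj => if_neg fun e : σ = insert j τ =>
        h (e ▸ ((hA.mem_nb (hA.ne τ hτ)).1 hj).2)).symm
  rw [e]
  exact hasSum_sum fun j _ => hasSum_ite_eq _ _

omit [Group G] in
theorem cob_eq_zero {c : Finset (Vx G n) → ℝ} {σ : Finset (Vx G n)}
    (h : ∀ j ∈ σ, c (σ.erase j) = 0) : cob c σ = 0 :=
  Finset.sum_eq_zero fun j hj => by rw [h j hj, mul_zero]

/-- the fibre of the truncated complex -/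
def fib (NB : Finset (Finset (Fin n))) (σ : NA → Finset (Vx G n)) (q : ℕ) :
    Submodule ℝ (EuclideanSpace ℝ NA) where
  carrier := {v | (∀ s : NA, s.1.card ≠ q + 1 → v s = 0) ∧ (3 ≤ q → ∀ s : NA, s.1 ∈ NB → v s = 0) ∧
    (q = 2 → ∃ c, ∀ s : NA, s.1 ∈ NB → s.1.card = 3 → v s = cob c (σ s))}
  zero_mem' := ⟨fun _ _ => rfl, fun _ _ _ => rfl, fun _ => ⟨0, fun _ _ _ => by simp [cob]⟩⟩
  add_mem' := fun ⟨a1, a2, a3⟩ ⟨b1, b2, b3⟩ => ⟨fun s h => by simp [a1 s h, b1 s h],
    fun h s k => by simp [a2 h s k, b2 h s k], fun h => (a3 h).elim fun c hc => (b3 h).elim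
      fun c' hc' => ⟨c + c', fun s k k' => by
        simp [hc s k k', hc' s k k', cob, mul_add, Finset.sum_add_distrib]⟩⟩
  smul_mem' := fun t _ ⟨a1, a2, a3⟩ => ⟨fun s h => by simp [a1 s h],
    fun h s k => by simp [a2 h s k], fun h => (a3 h).elim fun c hc => ⟨t • c, fun s k k' => by
      simp [hc s k k', cob, Finset.mul_sum, mul_left_comm]⟩⟩

omit [Group G] in
theorem fib_ne (σ : NA → Finset (Vx G n)) {q : ℕ} (h : q ≠ 2) : finrank ℝ (fib NB σ q) =
    (Finset.univ.filter fun s : NA => s.1.card = q + 1 ∧ (2 ≤ q → s.1 ∉ NB)).card := by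
  obtain ⟨C, h1, h2⟩ := exists_coord fun s : NA => s.1.card = q + 1 ∧ (2 ≤ q → s.1 ∉ NB)
  rw [← h2, show fib NB σ q = C from Submodule.ext fun v => Iff.trans ⟨fun k s e => ?_,
    fun k => ⟨fun s e => k s fun j => e j.1, fun a s e => k s fun j => j.2 (by omega) e,
      fun e => absurd e h⟩⟩ (h1 v).symm]
  by_cases a : s.1.card = q + 1
  · simp only [a, true_and, Classical.not_imp, not_not] at e
    exact k.2.1 (by omega) s e.2
  · exact k.1 s a

theorem fib_two (hd : ∀ s ∈ NB, ∀ t ⊆ s, t.Nonempty → t ∈ NB) {σ : NA → Finset (Vx G n)}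
    (hσ : ∀ s : NA, s.1 ∈ NB → σ s = s.1.image (Vx.mk 1)) : finrank ℝ (fib NB σ 2) ≤
    (Finset.univ.filter fun s : NA => s.1.card = 2 + 1 ∧ (2 ≤ 2 → s.1 ∉ NB)).card +
      (incN NB).rank := by
  obtain ⟨C, h1, h2⟩ := exists_coord fun s : NA => s.1.card = 2 + 1 ∧ (2 ≤ 2 → s.1 ∉ NB)
  obtain ⟨R, r1, r2⟩ := rank_le hd fun s : NA => s.1
  refine (Submodule.finrank_mono (t := C ⊔ R) fun v hv => ?_).trans
    ((Submodule.finrank_add_le_finrank_add_finrank C R).trans (add_le_add h2.le r1))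
  obtain ⟨c, hc⟩ := hv.2.2 rfl
  refine Submodule.mem_sup.2 ⟨WithLp.toLp 2 fun s => if s.1 ∈ NB then 0 else v s,
    (h1 _).2 fun s e => ?_, WithLp.toLp 2 fun s => if s.1 ∈ NB then v s else 0,
    r2 (fun t => c (t.image (Vx.mk 1))) _ fun s => ?_, ?_⟩
  · simp only
    split_ifs with a
    exacts [rfl, hv.1 s fun b => e ⟨b, fun _ => a⟩]
  · by_cases a : s.1 ∈ NB
    · by_cases b : s.1.card = 3
      · simp only [a, b, if_true, and_self]
        rw [hc s a b, hσ s a, cob_image]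
      · simp only [a, b, if_true, and_false, if_false]
        exact hv.1 s b
    · simp [a]
  · ext s
    by_cases a : s.1 ∈ NB <;> simp [a]

theorem count (h : NB ⊆ NA) (hA : ∀ s ∈ NA, s.Nonempty) : ∑ q ∈ Finset.range (n + 3), (-1) ^ q *
    ((Finset.univ.filter fun s : NA => s.1.card = q + 1 ∧ (2 ≤ q → s.1 ∉ NB)).card : ℤ) =
    chiN NA - chiN NB + cntN NB 1 - cntN NB 2 := by
  have e : chiN NA - chiN NB + cntN NB 1 - cntN NB 2 = ∑ s ∈ NA, ((-1) ^ (s.card + 1) -
      if s ∈ NB then (-1) ^ (s.card + 1) - (if s.card = 1 then 1 else 0) +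
        (if s.card = 2 then 1 else 0) else 0) := by
    rw [Finset.sum_sub_distrib, ← Finset.sum_filter, Finset.filter_mem_eq_inter,
      Finset.inter_eq_right.2 h, Finset.sum_add_distrib, Finset.sum_sub_distrib]
    simp only [chiN, cntN, Finset.card_filter]
    push_cast
    ring
  rw [e, ← Finset.sum_coe_sort NA]
  simp only [Finset.card_filter, Nat.cast_sum, Finset.mul_sum]
  rw [Finset.sum_comm]
  refine Finset.sum_congr rfl fun s _ => ?_
  obtain ⟨k, hk⟩ : ∃ k, s.1.card = k + 1 :=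
    Nat.exists_eq_succ_of_ne_zero (Finset.card_pos.2 (hA _ s.2)).ne'
  have l : s.1.card ≤ n := by simpa using s.1.card_le_univ
  rw [Finset.sum_eq_single k (fun q _ hq => by rw [if_neg fun a => hq (by omega)]; simp)
    fun a => absurd (Finset.mem_range.2 (by omega)) a, hk]
  by_cases a : s.1 ∈ NB
  · rcases k with _ | _ | k <;> simp [a]
  · simp [a, pow_succ]

end PL2E

open PL2E Function Module in
theorem l2e (h : Eul) : L2E := by
  classical
  intro G _ n 𝒜 ℬ NA NB hA hB hs hQ h1 hR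
  obtain ⟨σ, s1, hE, s3, s4, s5, s6, s7⟩ := exists_sec hA hB hs hQ
  obtain ⟨u, hu⟩ := exists_rep (G := G) (F := NA)
  obtain ⟨T, hT⟩ := exists_T σ hE
  obtain ⟨X, hX⟩ : ∃ X : L (G × NA) → Finset (Vx G n) → ℝ,
    ∀ x : L (G × NA), extend (fun q : G × NA => q.1 • σ q.2) x 0 = X x := ⟨_, fun _ => rfl⟩
  simp only [hX] at hT
  have mA : ∀ (g : G) s, g • σ s ∈ 𝒜 := fun g s => s3 ▸ ⟨(g, s), rfl⟩
  have eA : ∀ τ ∈ 𝒜, ∃ (g : G) (s : NA), τ = g • σ s := fun τ hτ => by
    obtain ⟨q, e⟩ := s3.symm ▸ hτ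
    exact ⟨q.1, q.2, e.symm⟩
  have x1 : ∀ x g s, X x (g • σ s) = x (g, s) := fun x g s => hX x ▸ hE.extend_apply x 0 (g, s)
  have x0 : ∀ x, ∀ τ ∉ 𝒜, X x τ = 0 := fun x τ hτ =>
    hX x ▸ extend_apply' _ _ _ fun ⟨q, e⟩ => hτ (e ▸ mA _ _)
  have xu : ∀ g x τ, X (u g x) τ = X x (g⁻¹ • τ) := fun g x τ => by
    by_cases a : τ ∈ 𝒜
    · obtain ⟨k, s, rfl⟩ := eA τ a
      rw [x1, hu, smul_smul, x1]
    · rw [x0 _ _ a, x0 _ _ (mt (hA.smul_iff _).1 a)]
  have xT : ∀ x, ∀ τ ∈ 𝒜, X (T x) τ = cob (X x) τ := fun x τ a => by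
    obtain ⟨k, s, rfl⟩ := eA τ a
    rw [x1, hT]
  have xi : ∀ x y, HasSum (fun τ => X x τ * X y τ) (inner ℝ x y) := fun x y =>
    (hE.hasSum_iff fun τ hτ => by rw [x0 x τ (s3 ▸ hτ), zero_mul]).1 (by
      rw [show (fun τ => X x τ * X y τ) ∘ (fun q : G × NA => q.1 • σ q.2) =
        fun q => inner ℝ (x q) (y q) from funext fun q => by simp [x1, mul_comm]]
      exact lp.hasSum_inner x y)
  have xc : ∀ q, ∀ x ∈ ten G (fib NB σ q), ∀ τ, X x τ ≠ 0 → τ ∈ 𝒜 ∧ τ.card = q + 1 :=
    fun q x hx τ a => by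
      have b : τ ∈ 𝒜 := by_contra fun b => a (x0 x τ b)
      obtain ⟨k, s, rfl⟩ := eA τ b
      rw [Finset.card_smul_finset, s1]
      exact ⟨b, by_contra fun c => a ((x1 x k s).trans ((mem_ten.1 hx k).1 s c))⟩
  have xb : ∀ q, 3 ≤ q → ∀ x ∈ ten G (fib NB σ q), ∀ τ ∈ ℬ, X x τ = 0 := fun q hq x hx τ a => by
    obtain ⟨k, s, rfl⟩ := eA τ (hs a)
    exact (x1 x k s).trans ((mem_ten.1 hx k).2.1 hq s ((s6 k s).1 a))
  have key := h G NA (L (G × NA)) default u (fun g k i => ?_) T (fun q => ten G (fib NB σ q))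
    (n + 3) (fun g x => ?_) (fun q => ⟨ten_closed _, fun g x hx => mem_ten.2 fun k => ?_⟩)
    (fun q x hx => ⟨mem_ten.2 fun g => ?_, ?_⟩) ?_ fun q hq x hx x2 x3 => ?_
  · have e := count (n := n) s5 fun s a => Finset.card_pos.1
      (s1 ⟨s, a⟩ ▸ Finset.card_pos.2 (hA.ne _ ((hA.smul_iff 1).1 (mA 1 _))))
    have m : 2 ∈ Finset.range (n + 3) := Finset.mem_range.2 (by omega)
    have f := fib_two s7 s4
    simp only [dim_ten] at key
    rw [← Finset.add_sum_erase _ _ m, Finset.sum_congr rfl fun q hq => by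
      rw [fib_ne σ (Finset.ne_of_mem_erase hq)]] at key
    rw [icN, ← e, ← Finset.add_sum_erase _ _ m]
    have key' : (0 : ℤ) ≤ (-1) ^ 2 * (finrank ℝ (fib NB σ 2) : ℤ) +
      ∑ q ∈ (Finset.range (n + 3)).erase 2, (-1) ^ q * ((Finset.univ.filter
        fun s : NA => s.1.card = q + 1 ∧ (2 ≤ q → s.1 ∉ NB)).card : ℤ) := by exact_mod_cast key
    omega
  · refine lp.ext (funext fun ⟨a, j⟩ => ?_)
    rw [hu, bas_eq, bas_eq]
    simp only [lp.single_apply, Pi.single_apply, Prod.mk.injEq, inv_mul_eq_iff_eq_mul]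
  · refine lp.ext (funext fun ⟨a, j⟩ => ?_)
    rw [hT, hu, hT, mul_smul, cob_smul g⁻¹, ← funext (xu g x)]
  · rw [show res k (u g x) = res (g⁻¹ * k) x from by ext s; exact hu g x k s]
    exact mem_ten.1 hx _
  · have a : ∀ s : NA, s.1.card ≠ q + 1 + 1 → T x (g, s) = 0 := fun s k => by
      rw [hT]
      refine cob_eq_zero fun j hj => by_contra fun b => k ?_
      have := (xc q x hx _ b).2
      rw [← s1, ← Finset.card_smul_finset g, ← Finset.card_erase_add_one hj, this]
    refine ⟨a, fun b s k => ?_, fun b => ⟨fun τ => X x (g • τ), fun s _ _ =>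
      (hT x g s).trans (cob_smul _ _ _)⟩⟩
    change T x (g, s) = 0
    by_cases c : s.1.card = q + 1 + 1
    swap
    · exact a s c
    rw [hT]
    rcases (by omega : q = 2 ∨ 3 ≤ q) with rfl | d
    · obtain ⟨z, hz⟩ := (mem_ten.1 hx g).2.2 rfl
      rw [cob_smul, ← cob_cob z (hA.inj _ (by simpa using mA 1 s)), s4 s k, cob_image, cob_image]
      refine Finset.sum_congr rfl fun j hj => ?_
      have k1 : (s.1.erase j).card = 3 := by rw [Finset.card_erase_of_mem hj, c]
      have k2 := s7 _ k _ (s.1.erase_subset j) (Finset.card_pos.1 (by omega))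
      rw [← s4 ⟨_, s5 k2⟩ k2, x1, ← hz _ k2 k1, res_apply]
    · refine cob_eq_zero fun j hj => by_contra fun e => e (xb q d x hx _ (hB.down _
        ((s6 g s).2 k) _ (Finset.erase_subset _ _) (hA.ne _ (xc q x hx _ e).1)))
  · refine lp.ext (funext fun ⟨g, s⟩ => ?_)
    rw [hT, lp.coeFn_zero, Pi.zero_apply, ← cob_cob (X x) (hA.inj _ (mA g s))]
    refine Finset.sum_congr rfl fun j _ => ?_
    rcases ((g • σ s).erase j).eq_empty_or_nonempty with e | e
    · rw [e, x0 _ _ fun a => (hA.ne _ a).ne_empty rfl, cob, Finset.sum_empty]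
    · rw [xT _ _ (hA.down _ (mA g s) _ (Finset.erase_subset _ _) e)]
  · refine eq_bot_iff.2 fun x hx => lp.ext (funext fun ⟨g, s⟩ => (mem_ten.1 hx g).1 s ?_)
    have : s.1.card ≤ n := by simpa using s.1.card_le_univ
    omega
  · have l : L2 𝒜 (q + 1 + 1) (X x) := ⟨xc _ x hx, by simpa only [sq] using (xi x x).summable⟩
    have c : ∀ τ ∈ 𝒜, cob (X x) τ = 0 := fun τ a => by
      rw [← xT x τ a, x2, ← hX]
      obtain ⟨k, s, rfl⟩ := eA τ a
      exact hE.extend_apply _ 0 (k, s)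
    have d : ∀ τ ∈ 𝒜, (2 ≤ q → τ ∉ ℬ) → bdy 𝒜 (X x) τ = 0 := fun τ a b => by
      by_cases e : τ.card = q + 1
      swap
      · refine Finset.sum_eq_zero fun j hj => mul_eq_zero_of_right _ (by_contra fun k => e ?_)
        have := (xc _ x hx _ k).2
        rw [Finset.card_insert_of_notMem ((hA.mem_nb (hA.ne τ a)).1 hj).1] at this
        omega
      obtain ⟨k, s, rfl⟩ := eA τ a
      rw [Finset.card_smul_finset, s1] at e
      have y1 : X (lp.single 2 (k, s) 1) = fun ρ => if ρ = k • σ s then 1 else 0 := by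
        funext ρ
        by_cases i : ρ ∈ 𝒜
        · obtain ⟨k', s', rfl⟩ := eA ρ i
          rw [x1, lp.single_apply, Pi.single_apply]
          exact if_congr (hE.eq_iff (a := (k', s')) (b := (k, s))).symm rfl rfl
        · rw [x0 _ _ i, if_neg fun j : ρ = k • σ s => i (j ▸ a)]
      have y2 : ∀ (g : G) (t : NA), t ≠ s → res g (lp.single 2 (k, s) (1 : ℝ)) t = 0 :=
        fun g t i => by
          rw [res_apply]
          exact lp.single_apply_ne (E := fun _ => ℝ) _ _ _ fun j => i (congrArg Prod.snd j)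
      rw [← x3 (lp.single 2 (k, s) 1) (mem_ten.2 fun g => ⟨fun t i => y2 g t fun j => i (j ▸ e),
        fun i t j => y2 g t fun m => b (by omega) ((s6 k s).2 (m ▸ j)), fun i => ⟨0, fun t j _ =>
          (y2 g t fun m => b (by omega) ((s6 k s).2 (m ▸ j))).trans (by simp [cob])⟩⟩)]
      refine (hasSum_bdy hA (x0 x) a).unique ?_
      convert xi x (T (lp.single 2 (k, s) 1)) using 2 with ρ
      by_cases i : ρ ∈ 𝒜
      · rw [xT _ _ i, y1]
      · rw [x0 _ _ i, zero_mul, zero_mul]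
    rw [← inner_self_eq_zero (𝕜 := ℝ), ← (xi x x).tsum_eq]
    rcases Nat.eq_zero_or_pos q with rfl | e
    · exact h1 _ _ l l c fun τ a => d τ a fun b => absurd b (by omega)
    · have : 2 ≤ q := by
        obtain ⟨r, rfl⟩ := hq
        omega
      exact hR (q + 1 + 1) (by omega) (hq.add even_two) _ _ l l (xb _ (by omega) x hx) c
        fun τ a b => d τ a fun _ => b

end Pool.Agent.Lib.MP_356dfe_ag.S
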