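import Pool.Agent.Lib.MP_356dfe_ag.S.Basic
import Pool.Agent.Lib.MP_7906d6_an.Holo

-- part Pool.Agent.Lib.MP_356dfe_ag.S.PDiv
section

/-! Division by a coordinate. -/

set_option autoImplicit false

open Set Filter Topology Metric MeasureTheory
open scoped ContDiff ComplexConjugate Matrix Pointwise

noncomputable section

namespace Pool.Agent.Lib.MP_356dfe_ag.S

namespace PDiv

/-- multiplication of one coordinate by a real number -/
def L (k : Fin 2) (t : ℝ) : E2 →L[ℂ] E2 :=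
  ContinuousLinearMap.id ℂ E2 + ((t : ℂ) - 1) •
    (ContinuousLinearMap.proj (R := ℂ) (φ := fun _ : Fin 2 => ℂ) k).smulRight (Pi.single k 1)

theorem L_apply (k : Fin 2) (t : ℝ) (x : E2) :
    L k t x = x + (((t : ℂ) - 1) * x k) • (Pi.single k 1 : E2) := by
  simp [L, mul_smul]

theorem L_upd (k : Fin 2) (t : ℝ) (x : E2) : L k t x = Function.update x k (t * x k) := by
  rw [L_apply]
  funext j
  by_cases h : j = k
  · subst h
    simp
    ring
  · simp [h]

theorem L_cont (k : Fin 2) : Continuous (L k) := by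
  unfold L
  fun_prop

theorem L_dist {c : E2} {k : Fin 2} (hc : c k = 0) {t : ℝ} (ht : t ∈ Icc (0 : ℝ) 1) (x : E2) :
    dist (L k t x) c ≤ dist x c := by
  rw [L_upd, dist_pi_le_iff dist_nonneg]
  intro j
  by_cases h : j = k
  · subst h
    have := dist_le_pi_dist x c j
    rw [hc, dist_zero_right] at this
    rw [Function.update_self, hc, dist_zero_right, norm_mul, Complex.norm_real,
      Real.norm_of_nonneg ht.1]
    exact (mul_le_of_le_one_left (norm_nonneg _) ht.2).trans this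
  · rw [Function.update_of_ne h]
    exact dist_le_pi_dist x c j

theorem int_diff {g : E2 → ℂ} {c : E2} {R : ℝ} {k : Fin 2} (hc : c k = 0)
    (hg : DifferentiableOn ℂ g (ball c R)) :
    DifferentiableOn ℂ (fun x => ∫ t in (0 : ℝ)..1, g (L k t x)) (ball c R) := by
  intro x₀ hx₀
  obtain ⟨r, h1, h2⟩ := exists_between (mem_ball.1 hx₀)
  have hg' := (Pool.Agent.Lib.MP_7906d6_an.differentiableOn_fderiv isOpen_ball hg).continuousOn
  have sub : closedBall c r ⊆ ball c R := closedBall_subset_ball h2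
  obtain ⟨M, hM⟩ := (isCompact_closedBall c r).exists_bound_of_continuousOn (hg'.mono sub)
  obtain ⟨N, hN⟩ := (isCompact_Icc (a := (0 : ℝ)) (b := 1)).exists_bound_of_continuousOn
    (L_cont k).continuousOn
  have mem : ∀ x ∈ ball c R, MapsTo (fun t => L k t x) (Icc (0 : ℝ) 1) (ball c R) :=
    fun x hx t ht => (L_dist hc ht x).trans_lt hx
  have cL : ∀ x : E2, Continuous fun t => L k t x := fun x => (L_cont k).clm_apply continuous_const
  have c1 : ∀ x ∈ ball c R, ContinuousOn (fun t => g (L k t x)) (Icc (0 : ℝ) 1) := fun x hx =>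
    hg.continuousOn.comp (cL x).continuousOn (mem x hx)
  have c2 : ContinuousOn (fun t => (fderiv ℂ g (L k t x₀)).comp (L k t)) (Icc (0 : ℝ) 1) :=
    (hg'.comp (cL x₀).continuousOn (mem x₀ hx₀)).clm_comp (L_cont k).continuousOn
  have I : Set.uIoc (0 : ℝ) 1 ⊆ Icc 0 1 := by
    rw [uIoc_of_le zero_le_one]
    exact Ioc_subset_Icc_self
  refine (intervalIntegral.hasFDerivAt_integral_of_dominated_of_fderiv_le (μ := volume)
    (F := fun x t => g (L k t x)) (F' := fun x t => (fderiv ℂ g (L k t x)).comp (L k t))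
    (bound := fun _ => M * N) (s := ball c r) (isOpen_ball.mem_nhds h1) ?_ ?_ ?_ ?_
    intervalIntegrable_const ?_).differentiableAt.differentiableWithinAt
  · filter_upwards [isOpen_ball.mem_nhds hx₀] with x hx
    exact ((c1 x hx).mono I).aestronglyMeasurable measurableSet_uIoc
  · exact ContinuousOn.intervalIntegrable_of_Icc zero_le_one (c1 x₀ hx₀)
  · exact (c2.mono I).aestronglyMeasurable measurableSet_uIoc
  · refine Eventually.of_forall fun t ht x hx => (ContinuousLinearMap.opNorm_comp_le _ _).trans ?_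
    have a := hM _ (mem_closedBall.2 ((L_dist hc (I ht) x).trans (mem_ball.1 hx).le))
    exact mul_le_mul a (hN t (I ht)) (norm_nonneg _) ((norm_nonneg _).trans a)
  · refine Eventually.of_forall fun t ht x hx => ?_
    exact (hg.differentiableAt (isOpen_ball.mem_nhds
      (mem x (ball_subset_ball h2.le hx) (I ht)))).hasFDerivAt.comp x (L k t).hasFDerivAt

theorem one (f : E2 → ℂ) (c : E2) (R : ℝ) (k : Fin 2) (hc : c k = 0)
    (hf : DifferentiableOn ℂ f (ball c R)) (h0 : ∀ x ∈ ball c R, x k = 0 → f x = 0) :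
    ∃ u, DifferentiableOn ℂ u (ball c R) ∧ ∀ x ∈ ball c R, f x = x k * u x := by
  have hg := Pool.Agent.Lib.MP_7906d6_an.differentiableOn_fderiv_apply isOpen_ball hf
    (Pi.single k 1 : E2)
  refine ⟨_, int_diff hc hg, fun x hx => ?_⟩
  have mem : MapsTo (fun t => L k t x) (Icc (0 : ℝ) 1) (ball c R) :=
    fun t ht => (L_dist hc ht x).trans_lt hx
  have cL : Continuous fun t => L k t x := (L_cont k).clm_apply continuous_const
  have d : ∀ t ∈ uIcc (0 : ℝ) 1, HasDerivAt (fun t => f (L k t x))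
      (x k * fderiv ℂ f (L k t x) (Pi.single k 1)) t := fun t ht => by
    rw [uIcc_of_le zero_le_one] at ht
    have a : HasDerivAt (fun s : ℂ => x + ((s - 1) * x k) • (Pi.single k 1 : E2))
        (x k • (Pi.single k 1 : E2)) t := by
      simpa using ((((hasDerivAt_id (t : ℂ)).sub_const 1).mul_const (x k)).smul_const
        (Pi.single k 1 : E2)).const_add x
    have b := (hf.differentiableAt (isOpen_ball.mem_nhds (mem ht))).hasFDerivAt
    have e := (HasFDerivAt.comp_hasDerivAt_of_eq (t : ℂ) b a (L_apply k t x)).comp_ofReal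
    rw [map_smul, smul_eq_mul] at e
    simpa only [L_apply, Function.comp_def] using e
  have key := intervalIntegral.integral_eq_sub_of_hasDerivAt d
    (ContinuousOn.intervalIntegrable_of_Icc zero_le_one
      (continuousOn_const.mul (hg.continuousOn.comp cL.continuousOn mem)))
  rw [intervalIntegral.integral_const_mul, h0 _ (mem (left_mem_Icc.2 zero_le_one))
    (by simp [L_upd]), sub_zero] at key
  rw [key, L_upd]
  simp

theorem upd_mem {c x : E2} {R : ℝ} {k : Fin 2} (hc : c k = 0) (hx : x ∈ ball c R) {t : ℂ}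
    (ht : t ∈ ball (0 : ℂ) R) : Function.update x k t ∈ ball c R := by
  rw [mem_ball, dist_pi_lt_iff (dist_nonneg.trans_lt hx)]
  intro j
  by_cases h : j = k
  · subst h
    rwa [Function.update_self, hc]
  · rw [Function.update_of_ne h]
    exact (dist_le_pi_dist x c j).trans_lt hx

theorem slice {f : E2 → ℂ} {c x : E2} {R : ℝ} {k : Fin 2} (hc : c k = 0) (hx : x ∈ ball c R)
    (hf : DifferentiableOn ℂ f (ball c R)) :
    AnalyticOnNhd ℂ (fun t => f (Function.update x k t)) (ball 0 R) :=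
  DifferentiableOn.analyticOnNhd (hf.comp
    (fun t _ => (hasDerivAt_update x k t).differentiableAt.differentiableWithinAt)
    fun _ ht => upd_mem hc hx ht) isOpen_ball

theorem ord_aux {c x : E2} {R : ℝ} {k : Fin 2} (hc : c k = 0) (hx : x ∈ ball c R) (n : ℕ) :
    ∀ f : E2 → ℂ, DifferentiableOn ℂ f (ball c R) →
      analyticOrderAt (fun t => f (Function.update x k t)) 0 = n →
      ∃ (m : ℕ) (u : E2 → ℂ), DifferentiableOn ℂ u (ball c R) ∧
        (∀ x ∈ ball c R, f x = x k ^ m * u x) ∧ ∃ x ∈ ball c R, x k = 0 ∧ u x ≠ 0 := by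
  have hR : (0 : ℂ) ∈ ball (0 : ℂ) R := mem_ball_self (dist_nonneg.trans_lt hx)
  induction n with
  | zero =>
    intro f hf h
    exact ⟨0, f, hf, fun x _ => by simp, _, upd_mem hc hx hR, Function.update_self ..,
      (slice hc hx hf 0 hR).analyticOrderAt_eq_zero.1 h⟩
  | succ n ih =>
    intro f hf h
    by_cases h0 : ∃ y ∈ ball c R, y k = 0 ∧ f y ≠ 0
    · exact ⟨0, f, hf, fun x _ => by simp, h0⟩
    obtain ⟨u, hu, e⟩ := one f c R k hc hf fun y hy hk => by_contra fun h1 => h0 ⟨y, hy, hk, h1⟩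
    have e' : (fun t => f (Function.update x k t)) =ᶠ[𝓝 0]
        id * fun t => u (Function.update x k t) := by
      filter_upwards [isOpen_ball.mem_nhds hR] with t ht
      rw [e _ (upd_mem hc hx ht), Function.update_self]
      rfl
    rw [analyticOrderAt_congr e', analyticOrderAt_mul analyticAt_id (slice hc hx hu 0 hR),
      analyticOrderAt_id, Nat.cast_succ, add_comm] at h
    obtain ⟨m, v, hv, e1, e2⟩ := ih u hu (WithTop.add_right_cancel ENat.one_ne_top h)
    exact ⟨m + 1, v, hv, fun y hy => by rw [e y hy, e1 y hy]; ring, e2⟩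

theorem ord (f : E2 → ℂ) (c : E2) (R : ℝ) (k : Fin 2) (hc : c k = 0)
    (hf : DifferentiableOn ℂ f (ball c R)) (h0 : ∃ x ∈ ball c R, f x ≠ 0) :
    ∃ (m : ℕ) (u : E2 → ℂ), DifferentiableOn ℂ u (ball c R) ∧
      (∀ x ∈ ball c R, f x = x k ^ m * u x) ∧ ∃ x ∈ ball c R, x k = 0 ∧ u x ≠ 0 := by
  obtain ⟨x, hx, h1⟩ := h0
  have hR : (0 : ℂ) ∈ ball (0 : ℂ) R := mem_ball_self (dist_nonneg.trans_lt hx)
  have hk : x k ∈ ball (0 : ℂ) R := by
    rw [← hc]
    exact (dist_le_pi_dist x c k).trans_lt hx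
  have h2 : analyticOrderAt (fun t => f (Function.update x k t)) 0 ≠ ⊤ := fun h => by
    have := (slice hc hx hf).eqOn_zero_of_preconnected_of_eventuallyEq_zero
      (convex_ball _ _).isPreconnected hR (analyticOrderAt_eq_top.1 h) hk
    simp only [Function.update_eq_self] at this
    exact h1 this
  obtain ⟨n, hn⟩ := ENat.ne_top_iff_exists.1 h2
  exact ord_aux hc hx n f hf hn.symm

theorem loc {f : E2 → ℂ} {x₀ : E2} {k : Fin 2} (hf : AnalyticAt ℂ f x₀) (hk : x₀ k = 0)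
    (h : ∀ᶠ x in 𝓝 x₀, x k = 0 → f x = 0) :
    ∃ u : E2 → ℂ, ∀ᶠ x in 𝓝 x₀, DifferentiableAt ℂ u x ∧ f x = u x * x k := by
  obtain ⟨R, hR, h1⟩ := Metric.eventually_nhds_iff_ball.1 (hf.eventually_analyticAt.and h)
  obtain ⟨u, hu, e⟩ := one f x₀ R k hk
    (fun x hx => (h1 x hx).1.differentiableAt.differentiableWithinAt) fun x hx => (h1 x hx).2
  refine ⟨u, ?_⟩
  filter_upwards [ball_mem_nhds x₀ hR] with x hx
  exact ⟨hu.differentiableAt (isOpen_ball.mem_nhds hx), (e x hx).trans (mul_comm _ _)⟩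

theorem unit (T S : E2 → E2) (x₀ : E2) (k k' : Fin 2) (hT : AnalyticAt ℂ T x₀)
    (hS : AnalyticAt ℂ S (T x₀)) (h1 : ∀ᶠ x in 𝓝 x₀, S (T x) = x)
    (h2 : ∀ᶠ y in 𝓝 (T x₀), T (S y) = y) (hk : x₀ k = 0)
    (h3 : ∀ᶠ x in 𝓝 x₀, T x k' = 0 ↔ x k = 0) :
    ∃ u : E2 → ℂ, u x₀ ≠ 0 ∧ ∀ᶠ x in 𝓝 x₀, DifferentiableAt ℂ u x ∧ T x k' = u x * x k := by
  obtain ⟨u, hu⟩ := loc (analyticAt_pi_iff.1 hT k') hk (h3.mono fun x hx => hx.2)
  have t : Tendsto S (𝓝 (T x₀)) (𝓝 x₀) := by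
    have := hS.continuousAt.tendsto
    rwa [h1.self_of_nhds] at this
  obtain ⟨v, hv⟩ := loc (analyticAt_pi_iff.1 hS k) (h3.self_of_nhds.2 hk) (by
    filter_upwards [h2, t.eventually h3] with y a b e
    rw [a] at b
    exact b.1 e)
  refine ⟨u, fun h0 => ?_, hu⟩
  have c : ContinuousAt (fun x => v (T x) * u x) x₀ :=
    (hv.self_of_nhds.1.continuousAt.comp hT.continuousAt).mul hu.self_of_nhds.1.continuousAt
  have e : ∀ᶠ x in 𝓝 x₀, x k = 0 := by
    filter_upwards [c.eventually_ne (y := 1) (by simp [h0]), hu, h1,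
      hT.continuousAt.tendsto.eventually hv] with x a b d g
    have := g.2
    rw [d, b.2] at this
    by_contra h4
    exact a (mul_right_cancel₀ h4 (by rw [mul_assoc, ← this, one_mul]))
  have t2 : Tendsto (Function.update x₀ k) (𝓝 0) (𝓝 x₀) := by
    have := (hasDerivAt_update x₀ k 0).continuousAt.tendsto
    rwa [← hk, Function.update_eq_self, hk] at this
  obtain ⟨s, a, b⟩ := (((t2.eventually e).filter_mono (nhdsWithin_le_nhds (s := {0}ᶜ))).and
    self_mem_nhdsWithin).exists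
  rw [Function.update_self] at a
  exact b a

end PDiv

theorem dvs : Div := ⟨PDiv.one, PDiv.ord, PDiv.unit⟩

end Pool.Agent.Lib.MP_356dfe_ag.S
end
end

-- part Pool.Agent.Lib.MP_356dfe_ag.S.PBas1
section

/-! Functions and one-forms. -/

set_option autoImplicit false

open Set Filter Topology Metric MeasureTheory
open scoped ContDiff ComplexConjugate Matrix Pointwise

noncomputable section

namespace Pool.Agent.Lib.MP_356dfe_ag.S

variable {Z Λ : Type} [TopologicalSpace Z] [T2Space Z] {A : KA Z Λ}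

namespace PBas1

theorem dh_congr {f g : E2 → ℂ} {x : E2} (h : f =ᶠ[𝓝 x] g) : dh f x = dh g x := by
  ext j; simp only [dh, h.fderiv_eq]

theorem db_congr {f g : E2 → ℂ} {x : E2} (h : f =ᶠ[𝓝 x] g) : db f x = db g x := by
  ext j; simp only [db, h.fderiv_eq]

theorem du_congr {u v : E2 → ℝ} {x : E2} (h : u =ᶠ[𝓝 x] v) : du u x = du v x :=
  dh_congr (f := fun y => (u y : ℂ)) (g := fun y => (v y : ℂ)) (h.mono fun y hy => by simp only [hy])

theorem dba_congr {a b : E2 → E2} {x : E2} (h : a =ᶠ[𝓝 x] b) : dba a x = dba b x := by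
  ext j k
  simp only [dba, Matrix.of_apply]
  rw [db_congr (f := fun y => a y j) (g := fun y => b y j) (h.mono fun y hy => by simp only [hy])]

theorem c1_congr {a b : E2 → E2} {x : E2} (h : a =ᶠ[𝓝 x] b) (hb : C1 b x) : C1 a x := by
  unfold C1 at *
  rw [dba_congr h,
    dh_congr (f := fun y => a y 1) (g := fun y => b y 1) (h.mono fun y hy => by simp only [hy]),
    dh_congr (f := fun y => a y 0) (g := fun y => b y 0) (h.mono fun y hy => by simp only [hy])]
  exact hb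

theorem du_add_const (v : E2 → ℝ) (c : ℝ) (x : E2) : du (fun y => v y + c) x = du v x := by
  ext j
  simp only [du, dh, Complex.ofReal_add, fderiv_add_const]

theorem du_smul (c : ℝ) (v : E2 → ℝ) (x : E2) : du (c • v) x = c • du v x := by
  ext j
  have : (fun y => (((c • v) y : ℝ) : ℂ)) = c • fun y => (v y : ℂ) := by
    ext y; simp
  show dh (fun y => (((c • v) y : ℝ) : ℂ)) x j = c • dh (fun y => (v y : ℂ)) x j
  rw [this]
  simp only [dh, fderiv_const_smul_field, Pi.smul_apply, smul_apply, Complex.real_smul]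
  ring

theorem fderiv_eq_of_gr {u v : E2 → ℝ} {x : E2} (h : gr u x = gr v x) :
    fderiv ℝ u x = fderiv ℝ v x := by
  ext1 w
  have e : w = (w 0).re • bv 0 + (w 0).im • bv 1 + (w 1).re • bv 2 + (w 1).im • bv 3 := by
    ext j
    fin_cases j <;> simp [bv]
  have g : ∀ i, fderiv ℝ u x (bv i) = fderiv ℝ v x (bv i) := fun i => congrFun h i
  rw [e]
  simp only [map_add, map_smul, g]

omit [T2Space Z]

theorem T_apply {l : Λ} {z : Z} (h : z ∈ A.src l) (l' : Λ) : A.T l l' (A.e l z) = A.e l' z := by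
  simp only [KA.T, Function.comp_apply, (A.e l).left_inv h]

theorem trans {X : Type} (U : Z → X) {l l' : Λ} {z : Z} (h : z ∈ A.src l) (h' : z ∈ A.src l') :
    U ∘ (A.e l).symm =ᶠ[𝓝 (A.e l z)] (U ∘ (A.e l').symm) ∘ A.T l l' :=
  (A.ev_symm h ((A.e l').open_source.mem_nhds h')).mono fun x hx => by
    simp only [KA.T, Function.comp_apply, (A.e l').left_inv hx]

theorem ev_ball {l : Λ} {z : Z} (h : z ∈ A.src l) : ∀ᶠ x in 𝓝 (A.e l z), x ∈ ball (0 : E2) 4 :=
  isOpen_ball.mem_nhds (A.map_src h)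

theorem ev_eq1 {a b : F1 Λ} {l : Λ} {z : Z} (h : z ∈ A.src l) (e : ∀ᶠ w in 𝓝 z, A.Eq1 a b w) :
    a l =ᶠ[𝓝 (A.e l z)] b l := by
  filter_upwards [A.ev_symm h e, ev_ball h] with x h1 h2
  have := h1 l (A.symm_mem l h2)
  rwa [A.e_symm l h2] at this

theorem sm_of {U : Z → ℝ} {z : Z} {l : Λ} (h : z ∈ A.src l)
    (hU : ContDiffAt ℝ ∞ (U ∘ (A.e l).symm) (A.e l z)) : A.Sm U z := by
  intro l' h'
  refine ContDiffAt.congr_of_eventuallyEq ?_ (trans U h' h)
  refine ContDiffAt.comp _ (by rwa [T_apply h']) ?_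
  exact ((A.an l' l z h' h).contDiffAt (n := ∞)).restrict_scalars ℝ

theorem an_of {U : Z → ℂ} {z : Z} {l : Λ} (h : z ∈ A.src l)
    (hU : DifferentiableAt ℂ (U ∘ (A.e l).symm) (A.e l z)) : A.An U z := by
  intro l' h'
  refine DifferentiableAt.congr_of_eventuallyEq ?_ (trans U h' h)
  exact DifferentiableAt.comp _ (by rwa [T_apply h']) (A.an l' l z h' h).differentiableAt

theorem cont_of {X : Type} [TopologicalSpace X] {U : Z → X} {z : Z} {l : Λ} (h : z ∈ A.src l)
    (hU : ContinuousAt (U ∘ (A.e l).symm) (A.e l z)) : ContinuousAt U z := by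
  refine (hU.comp ((A.e l).continuousAt h)).congr ?_
  filter_upwards [(A.e l).open_source.mem_nhds h] with w hw
  simp only [Function.comp_apply, (A.e l).left_inv hw]

theorem diff {U : Z → ℝ} {z : Z} (h : A.Sm U z) {l : Λ} (hl : z ∈ A.src l) :
    DifferentiableAt ℝ (U ∘ (A.e l).symm) (A.e l z) := (h l hl).differentiableAt (by simp)

theorem s1_d (hc : Calc) {U : Z → ℝ} {z : Z} (h : A.Sm U z) : A.S1 (A.d U) z := by
  refine ⟨fun l l' h1 h2 => ?_, fun l hl => hc.sm_du _ _ (h l hl)⟩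
  simp only [KA.d]
  rw [du_congr (trans U h1 h2), hc.du_comp _ (A.T l l') _ (by rw [T_apply h1]; exact diff h h2)
    (A.an l l' z h1 h2).differentiableAt, T_apply h1]

theorem s1_sm1 {U : Z → ℝ} {a : F1 Λ} {z : Z} (h : A.Sm U z) (ha : A.S1 a z) :
    A.S1 (A.sm1 U a) z := by
  refine ⟨fun l l' h1 h2 => ?_, fun l hl => (h l hl).smul (ha.2 l hl)⟩
  simp only [KA.sm1, (A.e l).left_inv h1, (A.e l').left_inv h2, Matrix.smul_vecMul,
    ← ha.1 l l' h1 h2]

theorem s1_congr {a b : F1 Λ} {z : Z} (ha : A.S1 a z) (e : ∀ᶠ w in 𝓝 z, A.Eq1 b a w) :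
    A.S1 b z := by
  refine ⟨fun l l' h1 h2 => ?_, fun l hl => (ha.2 l hl).congr_of_eventuallyEq (ev_eq1 hl e)⟩
  rw [e.self_of_nhds l h1, e.self_of_nhds l' h2]
  exact ha.1 l l' h1 h2

theorem d_add (hc : Calc) {U V : Z → ℝ} {z : Z} (h : A.Sm U z) (h' : A.Sm V z) :
    A.Eq1 (A.d (U + V)) (A.d U + A.d V) z := fun _ hl => hc.du_add _ _ _ (diff h hl) (diff h' hl)

theorem d_mul (hc : Calc) {U V : Z → ℝ} {z : Z} (h : A.Sm U z) (h' : A.Sm V z) :
    A.Eq1 (A.d (U * V)) (A.sm1 U (A.d V) + A.sm1 V (A.d U)) z :=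
  fun _ hl => hc.du_mul _ _ _ (diff h hl) (diff h' hl)

theorem d_smul (c : ℝ) (U : Z → ℝ) : A.d (c • U) = c • A.d U := by
  funext l x
  exact du_smul c (U ∘ (A.e l).symm) x

theorem d_congr {U V : Z → ℝ} {z : Z} {c : ℝ} (e : ∀ᶠ w in 𝓝 z, U w = V w + c) :
    ∀ᶠ w in 𝓝 z, A.Eq1 (A.d U) (A.d V) w :=
  e.eventually_nhds.mono fun _ hw l hl =>
    (du_congr (v := fun x => (V ∘ (A.e l).symm) x + c) (A.ev_symm hl hw)).trans
      (du_add_const _ _ _)

theorem eq1_of {a b : F1 Λ} {z : Z} {l : Λ} (ha : A.At1 a z) (hb : A.At1 b z) (hl : z ∈ A.src l)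
    (e : a l (A.e l z) = b l (A.e l z)) : A.Eq1 a b z := fun l' h' => by
  rw [ha l' l h' hl, hb l' l h' hl, e]

theorem ex_of (hc : Calc) {a : F1 Λ} {O : Set Z} (hO : IsOpen O) (h1 : ∀ z ∈ O, A.S1 a z)
    (h2 : ∀ z ∈ O, ∀ l, z ∈ A.src l → C1 (a l) (A.e l z)) {z : Z} (hz : z ∈ O) : A.Ex a z := by
  have hl := A.mem_i z
  set l := A.i z
  obtain ⟨r, hr, hB⟩ := Metric.eventually_nhds_iff_ball.1
    ((A.ev_symm hl (hO.mem_nhds hz)).and (ev_ball hl))
  obtain ⟨u, u1, u2⟩ := hc.poin (ball (A.e l z) r) (a l) isOpen_ball (convex_ball _ _)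
    (fun x hx => by
      have := (h1 _ (hB x hx).1).2 l (A.symm_mem l (hB x hx).2)
      rw [A.e_symm l (hB x hx).2] at this
      exact this.contDiffWithinAt)
    (fun x hx => by
      have := h2 _ (hB x hx).1 l (A.symm_mem l (hB x hx).2)
      rwa [A.e_symm l (hB x hx).2] at this)
  refine ⟨u ∘ A.e l, ?_⟩
  filter_upwards [(A.e l).open_source.mem_nhds hl, hO.mem_nhds hz,
    ((A.e l).continuousAt hl).eventually (ball_mem_nhds _ hr)] with w w1 w2 w3
  have e : (u ∘ A.e l) ∘ (A.e l).symm =ᶠ[𝓝 (A.e l w)] u :=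
    (ev_ball w1).mono fun x hx => by simp only [Function.comp_apply, A.e_symm l hx]
  have s : A.Sm (u ∘ A.e l) w :=
    sm_of w1 ((u1.contDiffAt (isOpen_ball.mem_nhds w3)).congr_of_eventuallyEq e)
  exact ⟨s, eq1_of (h1 w w2).1 (s1_d hc s).1 w1 ((u2 _ w3).symm.trans (du_congr e).symm)⟩

theorem const_of (hc : Calc) {U V : Z → ℝ} {z : Z}
    (h : ∀ᶠ w in 𝓝 z, A.Sm U w ∧ A.Sm V w ∧ A.Eq1 (A.d U) (A.d V) w) :
    ∃ c, ∀ᶠ w in 𝓝 z, U w = V w + c := by
  have hl := A.mem_i z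
  set l := A.i z
  obtain ⟨r, hr, hB⟩ := Metric.eventually_nhds_iff_ball.1 ((A.ev_symm hl h).and (ev_ball hl))
  have k : ∀ x ∈ ball (A.e l z) r, DifferentiableAt ℝ (U ∘ (A.e l).symm) x ∧
      DifferentiableAt ℝ (V ∘ (A.e l).symm) x ∧ A.d U l x = A.d V l x := fun x hx => by
    obtain ⟨⟨x1, x2, x3⟩, x4⟩ := hB x hx
    have m := A.symm_mem l x4
    have := And.intro (diff x1 m) (And.intro (diff x2 m) (x3 l m))
    rwa [A.e_symm l x4] at this
  obtain ⟨c, e⟩ := isOpen_ball.exists_eq_add_of_fderiv_eq (𝕜 := ℝ) (convex_ball _ _).isPreconnected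
    (fun x hx => (k x hx).1.differentiableWithinAt)
    (fun x hx => (k x hx).2.1.differentiableWithinAt)
    (fun x hx => fderiv_eq_of_gr (by
      rw [← hc.rc_du _ _ (k x hx).1, ← hc.rc_du _ _ (k x hx).2.1]
      exact congrArg rc (k x hx).2.2))
  refine ⟨c, ?_⟩
  filter_upwards [(A.e l).open_source.mem_nhds hl,
    ((A.e l).continuousAt hl).eventually (ball_mem_nhds _ hr)] with w w1 w3
  simpa only [Function.comp_apply, (A.e l).left_inv w1] using e w3

end PBas1

open PBas1 in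
theorem bas1 (hc : Calc) (A : KA Z Λ) : A.Bas1 := by
  refine ⟨fun _ _ _ => sm_of, fun _ _ _ => an_of,
    fun _ z h => cont_of (A.mem_i z) (h _ (A.mem_i z)).continuousAt,
    fun _ z h => cont_of (A.mem_i z) (h _ (A.mem_i z)).continuousAt,
    fun _ _ => s1_d hc, fun _ _ _ => s1_sm1, fun _ _ _ => s1_congr, fun _ _ _ => d_add hc,
    fun _ _ _ => d_mul hc, d_smul, fun _ _ _ _ => d_congr, ?_, ?_, ?_, ?_, ?_,
    fun _ _ hO h1 h2 _ hz => ex_of hc hO h1 h2 hz, ?_, ?_⟩
  · rintro a z ⟨U, h⟩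
    exact s1_congr (s1_d hc h.self_of_nhds.1) (h.mono fun _ hw => hw.2)
  · rintro a z ⟨U, h⟩ l hl
    exact c1_congr (ev_eq1 hl (h.mono fun _ hw => hw.2))
      (hc.c1_du _ _ ((h.self_of_nhds.1 l hl).of_le (WithTop.coe_le_coe.2 le_top)))
  · rintro a b z ⟨U, h⟩ ⟨V, h'⟩
    refine ⟨U + V, ?_⟩
    filter_upwards [h, h'] with w w1 w2
    refine ⟨w1.1.add w2.1, KA.Eq1.trans (fun l hl => ?_) (d_add hc w1.1 w2.1).symm⟩
    simp only [Pi.add_apply, w1.2 l hl, w2.2 l hl]
  · rintro c a z ⟨U, h⟩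
    refine ⟨c • U, h.mono fun w hw => ⟨fun l hl => (hw.1 l hl).const_smul c, fun l hl => ?_⟩⟩
    simp only [d_smul, Pi.smul_apply, hw.2 l hl]
  · rintro a b z ⟨U, h⟩ e
    exact ⟨U, (h.and e).mono fun w hw => ⟨hw.1.1, hw.2.trans hw.1.2⟩⟩
  · intro u O _ h _
    refine ⟨fun l x => A.d (u ((A.e l).symm x)) l x, fun y hy => (h y hy).mono ?_⟩
    rintro w ⟨c, hw⟩ l hl
    simp only [(A.e l).left_inv hl]
    exact ((d_congr hw).self_of_nhds l hl).symm
  · intro a O hO h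
    choose! u hu using h
    refine ⟨u, fun y hy => ?_, hu⟩
    filter_upwards [hO.mem_nhds hy, (hu y hy).eventually_nhds] with y' h1 h2
    exact const_of hc ((h2.and (hu y' h1)).mono fun w hw =>
      ⟨hw.1.1, hw.2.1, hw.1.2.symm.trans hw.2.2⟩)

end Pool.Agent.Lib.MP_356dfe_ag.S
end
end

-- part Pool.Agent.Lib.MP_356dfe_ag.S.PBas2
section

/-! Two-forms and invariants. -/

set_option autoImplicit false

open Set Filter Topology Metric MeasureTheory
open scoped ContDiff ComplexConjugate Matrix Pointwise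

noncomputable section

namespace Pool.Agent.Lib.MP_356dfe_ag.S

namespace PBas2

theorem two_le : (2 : WithTop ℕ∞) ≤ ∞ := WithTop.coe_le_coe.2 (le_top (a := (2 : ℕ∞)))

theorem dba_congr {a b : E2 → E2} {x : E2} (h : ∀ᶠ y in 𝓝 x, a y = b y) : dba a x = dba b x := by
  ext j k
  simp only [dba, db, Matrix.of_apply]
  rw [Filter.EventuallyEq.fderiv_eq (f₁ := fun y => a y j) (f := fun y => b y j)
    (h.mono fun y hy => congrFun hy j)]

theorem dba_smul (c : ℝ) (a : E2 → E2) (x : E2) : dba (c • a) x = c • dba a x := by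
  ext j k
  simp only [dba, db, Matrix.of_apply, Matrix.smul_apply]
  rw [show (fun y => (c • a) y j) = c • fun y => a y j from rfl, fderiv_const_smul_field]
  simp only [Pi.smul_apply, smul_apply, Complex.real_smul]
  ring

theorem cd_md {S T : E2 → M2} {x : E2} (h : ∀ j k, ContDiffAt ℝ ∞ (fun y => S y j k) x)
    (h' : ∀ j k, ContDiffAt ℝ ∞ (fun y => T y j k) x) :
    ContDiffAt ℝ ∞ (fun y => md (S y) (T y)) x :=
  Complex.reCLM.contDiff.contDiffAt.comp x (((((h 0 0).mul (h' 1 1)).add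
    ((h 1 1).mul (h' 0 0))).sub ((h 0 1).mul (h' 1 0))).sub ((h 1 0).mul (h' 0 1)))

theorem cd_rc : ContDiff ℝ ∞ rc :=
  (LinearMap.toContinuousLinearMap (⟨⟨rc, rc_add⟩, rc_smul⟩ : E2 →ₗ[ℝ] (Fin 4 → ℝ))).contDiff

theorem cd_det {L : List (E2 → E2)} {x : E2} (h : ∀ a ∈ L, ContDiffAt ℝ ∞ a x) :
    ContDiffAt ℝ ∞ (fun y => det4 (L.map fun a => rc (a y))) x := by
  by_cases e : L.length = 4
  · obtain ⟨a, b, c, d, rfl⟩ := List.length_eq_four.1 e
    simp only [List.map_cons, List.map_nil, det4, Matrix.det_apply']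
    refine ContDiffAt.sum fun σ _ => contDiffAt_const.mul (contDiffAt_prod fun i _ => ?_)
    have k := fun a ha => contDiffAt_pi.1 (cd_rc.contDiffAt.comp x (h a ha)) i
    generalize σ i = r
    fin_cases r
    exacts [k a (by simp), k b (by simp), k c (by simp), k d (by simp)]
  · simp only [det4_len (L := L.map _) (by simpa using e)]
    exact contDiffAt_const

variable {Z Λ : Type} [TopologicalSpace Z] {A : KA Z Λ} {l : Λ} {z : Z}

theorem ev_chart (hz : z ∈ A.src l) {p : E2 → Prop}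
    (hp : ∀ᶠ w in 𝓝 z, w ∈ A.src l → p (A.e l w)) : ∀ᶠ x in 𝓝 (A.e l z), p x := by
  filter_upwards [A.ev_symm hz hp, isOpen_ball.mem_nhds (A.map_src hz)] with x h1 h2
  exact A.e_symm l h2 ▸ h1 (A.symm_mem l h2)

theorem at2_ot (ha : Alg) {a b : F1 Λ} (h : A.At1 a z) (h' : A.At1 b z) : A.At2 (OT a b) z :=
  fun l l' h1 h2 => by simp only [OT, h l l' h1 h2, h' l l' h1 h2, ha.ot_pull]

theorem s2_ot (ha : Alg) {a b : F1 Λ} (h : A.S1 a z) (h' : A.S1 b z) : A.S2 (OT a b) z :=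
  ⟨at2_ot ha h.1 h'.1, fun l hl j k => (contDiffAt_pi.1 (h.2 l hl) j).mul
    (Complex.conjCLE.contDiff.contDiffAt.comp _ (contDiffAt_pi.1 (h'.2 l hl) k))⟩

theorem s2_bar (hc : Calc) {a : F1 Λ} (h : ∀ᶠ w in 𝓝 z, A.S1 a w) : A.S2 (bar a) z := by
  refine ⟨fun l l' h1 h2 => ?_, fun l hl => hc.sm_dba _ _ (h.self_of_nhds.2 l hl)⟩
  have e : A.T l l' (A.e l z) = A.e l' z := congrArg (A.e l') ((A.e l).left_inv h1)
  rw [← e, bar, bar, ← hc.dba_comp _ (A.T l l') _
    (e ▸ (h.self_of_nhds.2 l' h2).differentiableAt (by simp)) (A.an l l' z h1 h2)]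
  refine dba_congr (ev_chart h1 ?_)
  filter_upwards [h, (A.e l').open_source.mem_nhds h2] with w k1 k2 k3
  rw [k1.1 l l' k3 k2, KA.T, Function.comp_apply, (A.e l).left_inv k3]

theorem cl2_met (hc : Calc) (z : Z) : A.Cl2 A.met z := by
  have k : ∀ l, ∀ x ∈ ball (0 : E2) 4, ContDiffAt ℝ ∞ (A.pot (A.ty l)) x := fun l x hx =>
    (A.pot_sm _).contDiffAt (isOpen_ball.mem_nhds hx)
  refine ⟨⟨fun l l' => A.law l l' z, fun l hl =>
    hc.sm_dba _ _ (hc.sm_du _ _ (k l _ (A.map_src hl)))⟩, fun l hl =>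
    ⟨(A.pos _ _ (A.map_src hl)).1, hc.c2_dba _ _
      ((hc.sm_du _ _ (k l _ (A.map_src hl))).of_le two_le) ?_⟩⟩
  filter_upwards [isOpen_ball.mem_nhds (A.map_src hl)] with y hy
  exact hc.c1_du _ _ ((k l y hy).of_le two_le)

theorem dt_pos (hz : z ∈ A.src l) : 0 < dt (A.met l (A.e l z)) := (A.pos _ _ (A.map_src hz)).2.2

theorem dt_g (ha : Alg) (hz : z ∈ A.src l) :
    Complex.normSq (jac (A.T (A.i z) l) (A.e (A.i z) z)).det ≠ 0 ∧ dt (A.g z) =
      Complex.normSq (jac (A.T (A.i z) l) (A.e (A.i z) z)).det * dt (A.met l (A.e l z)) := by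
  have e : dt (A.g z) = Complex.normSq (jac (A.T (A.i z) l) (A.e (A.i z) z)).det *
      dt (A.met l (A.e l z)) := by
    rw [dt, show A.g z = _ from A.law _ l z (A.mem_i z) hz, ha.md_pull, mul_div_assoc]
    rfl
  exact ⟨left_ne_zero_of_mul (e ▸ (dt_pos (A.mem_i z)).ne'), e⟩

theorem W_eq (ha : Alg) {S T : F2 Λ} (h : A.At2 S z) (h' : A.At2 T z) (hz : z ∈ A.src l) :
    A.W S T z = md (S l (A.e l z)) (T l (A.e l z)) / dt (A.met l (A.e l z)) := by
  rw [KA.W, KA.v2, KA.v2, h _ l (A.mem_i z) hz, h' _ l (A.mem_i z) hz, ha.md_pull,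
    (dt_g ha hz).2, mul_div_mul_left _ _ (dt_g ha hz).1]

theorem Dt_eq (ha : Alg) {L : List (F1 Λ)} (h : ∀ a ∈ L, A.At1 a z) (hz : z ∈ A.src l) :
    A.Dt L z = det4 (L.map fun a => rc (a l (A.e l z))) / dt (A.met l (A.e l z)) := by
  have e := ha.det_pull (jac (A.T (A.i z) l) (A.e (A.i z) z)) (L.map fun a => a l (A.e l z))
  rw [List.map_map, List.map_map] at e
  rw [KA.Dt, List.map_congr_left (f := fun a => rc (A.v1 a z))
    fun a k => congrArg rc (h a k _ l (A.mem_i z) hz), (dt_g ha hz).2]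
  exact (congrArg (· / _) e).trans (mul_div_mul_left _ _ (dt_g ha hz).1)

theorem sm_div (hc : Calc) {U : Z → ℝ} {u : Λ → E2 → ℝ}
    (h : ∀ l, z ∈ A.src l → ContDiffAt ℝ ∞ (u l) (A.e l z))
    (e : ∀ᶠ w in 𝓝 z, ∀ l, w ∈ A.src l → U w = u l (A.e l w) / dt (A.met l (A.e l w))) :
    A.Sm U z := fun l hl => by
  have k := (cl2_met hc z).1.2 l hl
  refine ((h l hl).div ((cd_md k k).div_const 2) (dt_pos hl).ne').congr_of_eventuallyEq
    (ev_chart hl (e.mono fun w hw k => ?_))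
  rw [Function.comp_apply, (A.e l).left_inv k, hw l k]
  rfl

theorem W_sm (ha : Alg) (hc : Calc) {S T : F2 Λ} (h : ∀ᶠ w in 𝓝 z, A.S2 S w ∧ A.S2 T w) :
    A.Sm (A.W S T) z :=
  sm_div hc (u := fun l x => md (S l x) (T l x))
    (fun l hl => cd_md (h.self_of_nhds.1.2 l hl) (h.self_of_nhds.2.2 l hl))
    (h.mono fun _ hw _ k => W_eq ha hw.1.1 hw.2.1 k)

theorem Tr_sm (ha : Alg) (hc : Calc) {S : F2 Λ} (h : ∀ᶠ w in 𝓝 z, A.S2 S w) : A.Sm (A.Tr S) z :=
  W_sm ha hc (h.mono fun w hw => ⟨(cl2_met hc w).1, hw⟩)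

theorem bar_congr {a b : F1 Λ} (h : ∀ᶠ w in 𝓝 z, A.Eq1 a b w) (hl : z ∈ A.src l) :
    bar a l (A.e l z) = bar b l (A.e l z) := dba_congr (ev_chart hl (h.mono fun _ hw => hw l))

end PBas2

variable {Z Λ : Type} [TopologicalSpace Z] [T2Space Z] {A : KA Z Λ}

theorem bas2 (ha : Alg) (hc : Calc) (h : A.Bas1) : A.Bas2 := by
  have df : ∀ {E : Type} [NormedAddCommGroup E] [NormedSpace ℝ E] {f : E2 → E} {x : E2},
    ContDiffAt ℝ ∞ f x → DifferentiableAt ℝ f x := fun k => k.differentiableAt (by simp)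
  have tr : ∀ (S : F2 Λ) z l, A.At2 S z → z ∈ A.src l →
      A.Tr S z = tr (A.met l (A.e l z)) (S l (A.e l z)) := fun S z l k hl =>
    PBas2.W_eq ha (PBas2.cl2_met hc z).1.1 k hl
  constructor
  · exact fun _ _ => PBas2.s2_bar hc
  · exact fun a z k => ⟨PBas2.s2_bar hc (k.ev.mono (h.ex_s1 a)), fun l hl =>
      ⟨(h.ex_c1 a z k l hl).2, hc.c2_dba _ _
        (((h.ex_s1 a z k).2 l hl).of_le PBas2.two_le)
        (PBas2.ev_chart hl (k.ev.mono fun w hw => h.ex_c1 a w hw l))⟩⟩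
  · exact PBas2.cl2_met hc
  · exact fun a k z => ⟨PBas2.s2_ot ha (h.ex_s1 a z (k.1 z)) (h.ex_s1 a z (k.1 z)),
      fun l hl => ⟨ot_herm _, hc.c2_ot _ _ ((k.2 l).differentiableAt
        (isOpen_ball.mem_nhds (A.map_src hl))) (h.ex_c1 a z (k.1 z) l hl)⟩⟩
  · exact fun _ _ _ => PBas2.s2_ot ha
  · exact fun _ _ _ => PBas2.at2_ot ha
  · exact fun a b z k k' =>
      hc.dba_add _ _ _ (df (k.2 _ (A.mem_i z))) (df (k'.2 _ (A.mem_i z)))
  · exact fun c a => funext fun l => funext fun x => PBas2.dba_smul c (a l) x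
  · exact fun U a z k k' => (hc.dba_smul (U ∘ (A.e (A.i z)).symm) _ _
      (df (k _ (A.mem_i z))) (df (k'.2 _ (A.mem_i z)))).trans (by
        rw [Function.comp_apply, (A.e _).left_inv (A.mem_i z)]
        rfl)
  · exact fun _ _ _ k _ => PBas2.bar_congr k
  · exact fun z => A.pos _ _ (A.map_src (A.mem_i z))
  · exact fun _ _ _ _ => PBas2.W_eq ha
  · intro a b z l k k' hl
    rw [A.P_eq_W, ← tr_ot]
    exact tr (OT a b) z l (PBas2.at2_ot ha k k') hl
  · exact tr
  · exact fun S z l k hl => by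
      rw [A.NN_eq_W, tr S z l k hl, PBas2.W_eq ha k k hl]
      rfl
  · exact fun _ _ _ => PBas2.Dt_eq ha
  · exact fun _ _ _ => PBas2.W_sm ha hc
  · exact fun a b _ k => PBas2.Tr_sm ha hc (S := OT a b)
      (k.mono fun _ hw => PBas2.s2_ot ha hw.1 hw.2)
  · exact fun _ _ => PBas2.Tr_sm ha hc
  · exact fun _ _ k => ((PBas2.Tr_sm ha hc k).mul (PBas2.Tr_sm ha hc k)).sub
      (PBas2.W_sm ha hc (k.and k))
  · exact fun L z k => PBas2.sm_div hc (u := fun l x => det4 (L.map fun a => rc (a l x)))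
      (fun l hl => by
        simpa only [List.map_map, Function.comp_def] using PBas2.cd_det (L := L.map fun a => a l)
          (List.forall_mem_map.2 fun a m => (k.self_of_nhds a m).2 l hl))
      (k.mono fun _ hw _ m => PBas2.Dt_eq ha (fun a n => (hw a n).1) m)
  · exact fun U k => by
      have e : ∀ z ∉ tsupport U, ∀ᶠ w in 𝓝 z, A.Eq1 (A.d U) 0 w := fun z hz => by
        have := h.d_congr U ((0 : ℝ) • U) z 0
          ((notMem_tsupport_iff_eventuallyEq.1 hz).mono fun w hw => by simpa using hw)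
        rwa [h.d_smul, zero_smul] at this
      have s : A.sp1 (A.d U) ⊆ tsupport U := closure_minimal
        (fun z hz => by_contra fun m => hz (e z m).self_of_nhds) (isClosed_tsupport U)
      refine ⟨⟨fun z => PBas2.Tr_sm ha hc (.of_forall fun w => PBas2.s2_bar hc
        (.of_forall fun y => h.s1_d U y (k.1 y))), HasCompactSupport.intro k.2 fun z hz => ?_⟩,
        ⟨fun z => h.s1_d U z (k.1 z), k.2.isCompact.of_isClosed_subset isClosed_closure s⟩, s⟩
      rw [KA.L, KA.Tr, KA.v2, PBas2.bar_congr (e z hz) (A.mem_i z), bar, Pi.zero_apply,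
        ← zero_smul ℝ (0 : E2 → E2), PBas2.dba_smul, zero_smul, tr_zero]

end Pool.Agent.Lib.MP_356dfe_ag.S
end
end

-- part Pool.Agent.Lib.MP_356dfe_ag.S.PLA0
section

/-! Density of the range of the Laplace operator. -/

set_option autoImplicit false

open Set Filter Topology Metric MeasureTheory
open scoped ContDiff ComplexConjugate Matrix Pointwise

noncomputable section

namespace Pool.Agent.Lib.MP_356dfe_ag.S

variable {Z Λ : Type} [TopologicalSpace Z] [T2Space Z] [MeasurableSpace Z] [BorelSpace Z]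
  {A : KA Z Λ}

namespace PLA0

omit [T2Space Z] in
theorem memLp (h : A.Std) {U : Z → ℝ} (hU : A.D U) : MemLp U 2 A.μ := by
  have := h.meas.fin
  exact (continuous_iff_continuousAt.2 fun z => h.bas.sm_cont U z (hU.1 z)
    ).memLp_of_hasCompactSupport hU.2

theorem int_N (h : A.Std) {U : Z → ℝ} (hU : A.D U) : Integrable (A.N (A.d U)) A.μ := by
  have := h.meas.fin
  have hs : ∀ z, A.S1 (A.d U) z := fun z => h.bas.s1_d U z (hU.1 z)
  refine (continuous_iff_continuousAt.2 fun z => h.bas.sm_cont _ z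
    (h.bas.P_sm _ _ z (Eventually.of_forall fun w => ⟨hs w, hs w⟩))
      ).integrable_of_hasCompactSupport (HasCompactSupport.intro hU.2 fun z hz => ?_)
  have : A.Eq1 (A.d U) 0 z := by
    by_contra k
    exact hz ((h.bas.L_D U hU).2.2 (subset_closure k))
  change n1 _ _ (A.v1 (A.d U) z) = 0
  rw [this.v1]
  exact n1_zero _ _

theorem energy (h : A.Std) (h1 : A.GS1) {f U : Z → ℝ} (hf : MemLp f 2 A.μ)
    (ho : ∫ z, f z * A.L U z ∂A.μ = 0) (hU : A.D U) :
    ∫ z, (U z - f z) ^ 2 ∂A.μ + 2 * ∫ z, A.N (A.d U) z ∂A.μ ≤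
      ∫ z, (1 * U z - A.L U z - f z) ^ 2 ∂A.μ := by
  have mU := memLp h hU
  have mL := memLp h (h.bas.L_D U hU).1
  have iN := int_N h hU
  have i1 : Integrable (fun z => (U z - f z) ^ 2) A.μ := (mU.sub hf).integrable_sq
  have i2 : Integrable (fun z => A.L U z ^ 2) A.μ := mL.integrable_sq
  have i3 : Integrable (fun z => U z * A.L U z) A.μ := mU.integrable_mul mL
  have i4 : Integrable (fun z => f z * A.L U z) A.μ := hf.integrable_mul mL
  have st : ∫ z, (A.N (A.d U) z + U z * A.L U z) ∂A.μ = 0 :=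
    h1 A.met (A.d U) U h.bas.cl2_met (fun z => KA.ex_d (Eventually.of_forall hU.1)) hU
  rw [integral_add iN i3] at st
  have e : (fun z => (1 * U z - A.L U z - f z) ^ 2) = fun z => ((U z - f z) ^ 2 + A.L U z ^ 2) +
      (2 * (f z * A.L U z) - 2 * (U z * A.L U z)) := funext fun z => by ring
  have i5 : Integrable (fun z => (U z - f z) ^ 2 + A.L U z ^ 2) A.μ := i1.add i2
  have i6 : Integrable (fun z => 2 * (f z * A.L U z) - 2 * (U z * A.L U z)) A.μ :=
    (i4.const_mul 2).sub (i3.const_mul 2)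
  rw [e, integral_add i5 i6, integral_add i1 i2,
    integral_sub (i4.const_mul 2) (i3.const_mul 2), integral_const_mul, integral_const_mul, ho]
  have : 0 ≤ ∫ z, A.L U z ^ 2 ∂A.μ := integral_nonneg fun z => sq_nonneg _
  linarith

omit [T2Space Z] [BorelSpace Z] in
theorem cmp (h : A.Std) (l : Λ) {K : Set E2} (hK : IsCompact K) (hK' : K ⊆ ball 0 4) :
    ∃ c > 0, ∀ x ∈ K, c ≤ dt (A.met l x) ∧ dt (A.met l x) ≤ c⁻¹ ∧
      ∀ a, c * ‖a‖ ^ 2 ≤ n1 (A.met l x) a a := by
  obtain ⟨c, c0, hc⟩ := h.alg.cmp K (A.met l) hK (fun j k x hx => by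
    have k1 : ∀ᶠ y in 𝓝 x, ContDiffAt ℝ ∞ (A.pot (A.ty l)) y := by
      filter_upwards [isOpen_ball.mem_nhds (hK' hx)] with y hy
      exact (A.pot_sm _).contDiffAt (isOpen_ball.mem_nhds hy)
    exact (h.clc.sm_dba _ x (h.clc.sm_du _ x k1.self_of_nhds) j k).continuousAt.continuousWithinAt)
    fun x hx => A.pos _ x (hK' hx)
  exact ⟨c, c0, fun x hx => ⟨(hc x hx).1, (hc x hx).2.1, fun a => ((hc x hx).2.2.1 a).1⟩⟩

omit [T2Space Z] [BorelSpace Z] in
theorem loc_le (h : A.Std) (l : Λ) {K : Set E2} (hK : IsCompact K) (hK' : K ⊆ ball 0 4) {c : ℝ}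
    (c0 : 0 < c) (hc : ∀ x ∈ K, c ≤ dt (A.met l x)) {F : Z → ℝ} (hF : Integrable F A.μ)
    (F0 : ∀ z, 0 ≤ F z) {G : E2 → ℝ} (hG : ∀ x ∈ K, 0 ≤ G x ∧ G x ≤ F ((A.e l).symm x)) :
    ∫ x in K, G x ≤ c⁻¹ * ∫ z, F z ∂A.μ := by
  obtain ⟨k1, k2⟩ := h.meas.int l K hK.measurableSet hK' F
  calc ∫ x in K, G x ≤ ∫ x in K, c⁻¹ * (F ((A.e l).symm x) * dt (A.met l x)) := by
        refine integral_mono_of_nonneg ?_ ((k1.1 hF.integrableOn).const_mul _) ?_
        · filter_upwards [ae_restrict_mem hK.measurableSet] with x hx using (hG x hx).1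
        · filter_upwards [ae_restrict_mem hK.measurableSet] with x hx
          rw [← div_eq_inv_mul, le_div_iff₀ c0]
          exact mul_le_mul (hG x hx).2 (hc x hx) c0.le (F0 _)
    _ ≤ _ := by
        rw [integral_const_mul, ← k2]
        exact mul_le_mul_of_nonneg_left (setIntegral_le_integral hF (Eventually.of_forall F0))
          (inv_pos.2 c0).le

omit [T2Space Z] [MeasurableSpace Z] [BorelSpace Z] in
theorem cpt (A : KA Z Λ) (l : Λ) {K : Set E2} (hK : IsCompact K) (hK' : K ⊆ ball 0 4) :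
    IsCompact ((A.e l).symm '' K) :=
  hK.image_of_continuousOn ((A.e l).continuousOn_symm.mono (A.tgt l ▸ hK'))

omit [T2Space Z] [MeasurableSpace Z] [BorelSpace Z] in
theorem sm_b {U : Z → ℝ} (hU : A.D U) (l : Λ) :
    ContDiffOn ℝ 1 (fun x => (((U ∘ (A.e l).symm) x : ℝ) : ℂ)) (ball 0 4) := fun x hx => by
  have := hU.1 _ l (A.symm_mem l hx)
  rw [A.e_symm l hx] at this
  exact (Complex.ofRealCLM.contDiff.contDiffAt.comp x
    (this.of_le (by exact_mod_cast le_top))).contDiffWithinAt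

theorem small (h : A.Std) {u : ℕ → Z → ℝ} (hu : ∀ n, A.D (u n))
    (t2 : Tendsto (fun n => ∫ z, A.N (A.d (u n)) z ∂A.μ) atTop (𝓝 0)) (l : Λ) (G : ℕ → E2 → ℂ)
    (hG : ∀ n x, ‖G n x‖ ≤ ‖du (u n ∘ (A.e l).symm) x‖) : LL (ball 0 4) G 0 := by
  intro K hK hK'
  obtain ⟨c, c0, hc⟩ := cmp h l hK hK'
  have t3 := (t2.const_mul c⁻¹).const_mul c⁻¹
  simp only [mul_zero] at t3
  refine squeeze_zero (fun n => integral_nonneg fun x => sq_nonneg _) (fun n => ?_) t3
  rw [← integral_const_mul]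
  refine loc_le h l hK hK' c0 (fun x hx => (hc x hx).1) ((int_N h (hu n)).const_mul _)
    (fun z => mul_nonneg (inv_pos.2 c0).le (h.alg.n1_nn _ _ (h.bas.pd z)))
    fun x hx => ⟨sq_nonneg _, ?_⟩
  have m := A.symm_mem l (hK' hx)
  have a1 := (h.bas.s1_d (u n) _ ((hu n).1 ((A.e l).symm x))).1
  rw [KA.N, h.bas.P_eq _ _ _ l a1 a1 m, A.e_symm l (hK' hx), ← div_eq_inv_mul, le_div_iff₀ c0,
    mul_comm, Pi.zero_apply, sub_zero]
  exact (mul_le_mul_of_nonneg_left (pow_le_pow_left₀ (norm_nonneg _) (hG n x) 2) c0.le).trans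
    ((hc x hx).2.2 _)

omit [T2Space Z] in
theorem cauchy (h : A.Std) {f : Z → ℝ} (hf : MemLp f 2 A.μ) {u : ℕ → Z → ℝ} (hu : ∀ n, A.D (u n))
    (t1 : Tendsto (fun n => ∫ z, (u n z - f z) ^ 2 ∂A.μ) atTop (𝓝 0)) (l : Λ) (K : Set E2)
    (hK : IsCompact K) (hK' : K ⊆ ball 0 4) (ε : ℝ) (ε0 : 0 < ε) : ∃ N, ∀ m ≥ N, ∀ n ≥ N,
      ∫ x in K, ‖(((u m ∘ (A.e l).symm) x : ℝ) : ℂ) - ((u n ∘ (A.e l).symm) x : ℝ)‖ ^ 2 ≤ ε := by
  have i1 : ∀ n, Integrable (fun z => 2 * (u n z - f z) ^ 2) A.μ := fun n =>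
    ((memLp h (hu n)).sub hf).integrable_sq.const_mul 2
  obtain ⟨c, c0, hc⟩ := cmp h l hK hK'
  obtain ⟨N, hN⟩ := eventually_atTop.1 (t1.eventually_le_const (show 0 < c * ε / 4 by positivity))
  refine ⟨N, fun m hm n hn => ?_⟩
  have i2 : Integrable (fun z => 2 * (u m z - f z) ^ 2 + 2 * (u n z - f z) ^ 2) A.μ :=
    (i1 m).add (i1 n)
  refine le_trans (loc_le h l hK hK' c0 (fun x hx => (hc x hx).1) i2
    (fun z => add_nonneg (mul_nonneg two_pos.le (sq_nonneg _)) (mul_nonneg two_pos.le (sq_nonneg _)))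
      fun x hx => ⟨sq_nonneg _, ?_⟩) ?_
  · simp only [← Complex.ofReal_sub, Complex.norm_real, Real.norm_eq_abs, sq_abs,
      Function.comp_apply]
    nlinarith [sq_nonneg (u m ((A.e l).symm x) + u n ((A.e l).symm x) - 2 * f ((A.e l).symm x))]
  · rw [integral_add (i1 m) (i1 n), integral_const_mul, integral_const_mul, ← div_eq_inv_mul,
      div_le_iff₀ c0]
    linarith [hN m hm, hN n hn]

theorem flat (hc : Calc) (hw : Weyl) (hw' : Weak) {b : ℕ → E2 → ℂ}
    (sb : ∀ n, ContDiffOn ℝ 1 (b n) (ball 0 4))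
    (h1 : ∀ K, IsCompact K → K ⊆ ball 0 4 → ∀ ε > 0, ∃ N, ∀ m ≥ N, ∀ n ≥ N,
      ∫ x in K, ‖b m x - b n x‖ ^ 2 ≤ ε) (h2 : ∀ k, LL (ball 0 4) (fun n x => db (b n) x k) 0)
    (h3 : ∀ k, LL (ball 0 4) (fun n x => dh (b n) x k) 0) :
    ∃ a : ℂ, LL (ball 0 4) b fun _ => a := by
  obtain ⟨g, hg, hg'⟩ := hw _ b isOpen_ball sb h1 h2
  have sg : ContDiffOn ℝ 1 g (ball 0 4) :=
    (MP_7906d6_an.contDiffOn_of_differentiableOn isOpen_ball 1 hg).restrict_scalars ℝ
  have d0 : ∀ x i, dh (0 : E2 → ℂ) x i = 0 := fun x i => by simp [dh]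
  have dg : ∀ i, ∀ x ∈ ball (0 : E2) 4, dh g x i = 0 := fun i x hx =>
    (hw' (ball 0 4) b (fun _ => 0) g 0 i i isOpen_ball sb (fun _ => contDiffOn_const) sg
      contDiffOn_const hg' (fun K _ _ => by simp) (by simpa only [d0, sub_zero] using h3 i)
        x hx).trans (d0 x i)
  obtain ⟨a, ha⟩ := isOpen_ball.exists_is_const_of_fderiv_eq_zero
    (convex_ball (0 : E2) 4).isPreconnected hg fun x hx => by
      refine ContinuousLinearMap.coe_injective (LinearMap.pi_ext fun i t => ?_)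
      have := (hc.dh_hol g x (hg.differentiableAt (isOpen_ball.mem_nhds hx)) i).1
      rw [dg i x hx] at this
      rw [show (Pi.single i t : E2) = t • Pi.single i 1 by simp [← Pi.single_smul], map_smul,
        ContinuousLinearMap.coe_coe, ← this]
      simp
  refine ⟨a, fun K hK hK' => (hg' K hK hK').congr fun n => ?_⟩
  exact setIntegral_congr_fun hK.measurableSet fun x hx => by simp only [ha x (hK' hx)]

theorem loc_const (h : A.Std) (hw : Weyl) (hw' : Weak) {f : Z → ℝ} (hf : MemLp f 2 A.μ)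
    {u : ℕ → Z → ℝ} (hu : ∀ n, A.D (u n))
    (t1 : Tendsto (fun n => ∫ z, (u n z - f z) ^ 2 ∂A.μ) atTop (𝓝 0))
    (t2 : Tendsto (fun n => ∫ z, A.N (A.d (u n)) z ∂A.μ) atTop (𝓝 0)) (l : Λ) :
    ∃ c : ℝ, ∀ᵐ z ∂A.μ, z ∈ (A.e l).symm '' closedBall 0 3 → f z = c := by
  have := h.meas.fin
  have i1 : ∀ n, Integrable (fun z => (u n z - f z) ^ 2) A.μ := fun n =>
    ((memLp h (hu n)).sub hf).integrable_sq
  obtain ⟨a, ha⟩ := flat h.clc hw hw' (fun n => sm_b (hu n) l) (cauchy h hf hu t1 l)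
    (fun k => small h hu t2 l _ fun n x => by
      rw [h.clc.db_real, Complex.norm_conj]
      exact norm_le_pi_norm _ k)
    fun k => small h hu t2 l _ fun n x => norm_le_pi_norm (du (u n ∘ (A.e l).symm) x) k
  have hK : IsCompact (closedBall (0 : E2) 3) := isCompact_closedBall _ _
  have hK' : closedBall (0 : E2) 3 ⊆ ball 0 4 := closedBall_subset_ball (by norm_num)
  have cK := cpt A l hK hK'
  have : Fact (A.μ ((A.e l).symm '' closedBall 0 3) < ⊤) := ⟨cK.measure_lt_top⟩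
  obtain ⟨c, c0, hc⟩ := cmp h l hK hK'
  refine ⟨a.re, (ae_restrict_iff' cK.measurableSet).1 ?_⟩
  have j : ∀ {v : Z → ℝ}, MemLp v 2 A.μ → Integrable (fun z => (v z - a.re) ^ 2)
      (A.μ.restrict ((A.e l).symm '' closedBall 0 3)) := fun hv =>
    ((hv.restrict _).sub (memLp_const _)).integrable_sq
  have t4 := (t1.const_mul 2).add (((ha _ hK hK').const_mul c⁻¹).const_mul 2)
  simp only [mul_zero, add_zero] at t4
  have z0 : ∫ z in (A.e l).symm '' closedBall 0 3, (f z - a.re) ^ 2 ∂A.μ ≤ 0 := by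
    refine ge_of_tendsto' t4 fun n => ?_
    have q1 : ∫ z in (A.e l).symm '' closedBall 0 3, (u n z - f z) ^ 2 ∂A.μ ≤
        ∫ z, (u n z - f z) ^ 2 ∂A.μ :=
      setIntegral_le_integral (i1 n) (Eventually.of_forall fun z => sq_nonneg _)
    have q2 : ∫ z in (A.e l).symm '' closedBall 0 3, (u n z - a.re) ^ 2 ∂A.μ ≤ c⁻¹ *
        ∫ x in closedBall (0 : E2) 3, ‖(((u n ∘ (A.e l).symm) x : ℝ) : ℂ) - a‖ ^ 2 := by
      rw [(h.meas.int l _ hK.measurableSet hK' _).2, ← integral_const_mul]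
      refine integral_mono_of_nonneg ?_ ((ContinuousOn.integrableOn_compact hK
        ((((sm_b (hu n) l).continuousOn.sub continuousOn_const).mono hK').norm.pow 2)
          ).const_mul _) ?_
      · filter_upwards [ae_restrict_mem hK.measurableSet] with x hx
        exact mul_nonneg (sq_nonneg _) (c0.le.trans (hc x hx).1)
      · filter_upwards [ae_restrict_mem hK.measurableSet] with x hx
        rw [mul_comm]
        refine mul_le_mul (hc x hx).2.1 ?_ (sq_nonneg _) (inv_pos.2 c0).le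
        rw [← sq_abs]
        exact pow_le_pow_left₀ (abs_nonneg _) (by
          simpa using Complex.abs_re_le_norm ((u n ((A.e l).symm x) : ℂ) - a)) 2
    have i2 : Integrable (fun z => 2 * (u n z - f z) ^ 2)
      (A.μ.restrict ((A.e l).symm '' closedBall 0 3)) := (i1 n).integrableOn.const_mul 2
    have i3 := (j (memLp h (hu n))).const_mul 2
    have q3 : ∫ z in (A.e l).symm '' closedBall 0 3, (f z - a.re) ^ 2 ∂A.μ ≤
        ∫ z in (A.e l).symm '' closedBall 0 3,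
          (2 * (u n z - f z) ^ 2 + 2 * (u n z - a.re) ^ 2) ∂A.μ :=
      integral_mono (j hf) (i2.add i3) fun z => by
        nlinarith [sq_nonneg (2 * u n z - f z - a.re)]
    rw [integral_add i2 i3, integral_const_mul, integral_const_mul] at q3
    linarith
  have := (integral_eq_zero_iff_of_nonneg (fun z => sq_nonneg _) (j hf)).1
    (le_antisymm z0 (integral_nonneg fun z => sq_nonneg _))
  filter_upwards [this] with z hz
  exact sub_eq_zero.1 (pow_eq_zero_iff two_ne_zero |>.1 hz)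

theorem glob (h : A.Std) (ho : NoOpen Z) {f : Z → ℝ} (hf : MemLp f 2 A.μ) {c : Λ → ℝ}
    (hc : ∀ l, ∀ᵐ z ∂A.μ, z ∈ (A.e l).symm '' closedBall 0 3 → f z = c l) : f =ᵐ[A.μ] 0 := by
  have := h.meas.fin
  have := h.meas.pos
  have := A.cnt
  have hK : ∀ r, IsCompact (closedBall (0 : E2) r) := fun r => isCompact_closedBall _ _
  have hK' : closedBall (0 : E2) 3 ⊆ ball 0 4 := closedBall_subset_ball (by norm_num)
  have op : ∀ l, IsOpen ((A.e l).symm '' ball 0 3) := fun l =>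
    (A.e l).isOpen_image_symm_of_subset_target isOpen_ball
      (A.tgt l ▸ ball_subset_ball (by norm_num))
  have sub : ∀ l, (A.e l).symm '' ball 0 3 ⊆ (A.e l).symm '' closedBall 0 3 := fun l =>
    image_mono ball_subset_closedBall
  have mi : ∀ z, z ∈ (A.e (A.i z)).symm '' ball 0 1 := fun z =>
    ⟨_, A.ball_i z, (A.e _).left_inv (A.mem_i z)⟩
  have b13 : ball (0 : E2) 1 ⊆ ball 0 3 := ball_subset_ball (by norm_num)
  have eq : ∀ l, ∀ z ∈ (A.e l).symm '' ball 0 3, c (A.i z) = c l := fun l z hz => by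
    obtain ⟨w, hw, k1, k2⟩ := Measure.exists_mem_of_measure_ne_zero_of_ae
      (((op l).inter (op (A.i z))).measure_ne_zero A.μ ⟨z, hz, image_mono b13 (mi z)⟩)
      (ae_restrict_of_ae ((hc l).and (hc (A.i z))))
    rw [← k1 (sub _ hw.1), ← k2 (sub _ hw.2)]
  have z0 : ∀ l, c l = 0 := fun l₀ => by
    by_contra c0
    obtain ⟨k, hk⟩ := h.meas.sum
    have sm := (hk (fun z => f z ^ 2) (fun z => sq_nonneg _) hf.integrable_sq).1
    have key : ∀ l, c l = c l₀ → c l₀ ^ 2 * ∫ x in closedBall (0 : E2) 3,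
        1 * dt (lev (A.pot (A.ty l)) x) ≤ ∫ z in A.src l, f z ^ 2 ∂A.μ ∧
          0 < ∫ x in closedBall (0 : E2) 3, 1 * dt (lev (A.pot (A.ty l)) x) := fun l hl => by
      have cK := cpt A l (hK 3) hK'
      rw [show ∫ x in closedBall (0 : E2) 3, 1 * dt (lev (A.pot (A.ty l)) x) = _ from
        (h.meas.int l _ (hK 3).measurableSet hK' fun _ => 1).2.symm]
      refine ⟨?_, ?_⟩
      · rw [← integral_const_mul, integral_congr_ae (g := fun z => f z ^ 2) (by
          filter_upwards [(ae_restrict_iff' cK.measurableSet).2 (hc l)] with z hz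
          rw [hz, hl, mul_one])]
        refine setIntegral_mono_set hf.integrable_sq.integrableOn
          (Eventually.of_forall fun z => sq_nonneg _) (Eventually.of_forall ?_)
        rintro _ ⟨x, hx, rfl⟩
        exact A.symm_mem l (hK' hx)
      · rw [setIntegral_const, smul_eq_mul, mul_one]
        exact ENNReal.toReal_pos (((op l).measure_pos A.μ ⟨_, 0, by simp, rfl⟩).trans_le
          (measure_mono (sub l))).ne' cK.measure_lt_top.ne
    have fin : {l | c l = c l₀}.Finite := by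
      refine (finite_iUnion (f := fun j => {l | c l = c l₀ ∧ A.ty l = j}) fun j => ?_).subset
        fun l hl => mem_iUnion.2 ⟨A.ty l, hl, rfl⟩
      rcases eq_empty_or_nonempty {l | c l = c l₀ ∧ A.ty l = j} with e | ⟨l₁, h1, rfl⟩
      · exact e ▸ finite_empty
      · refine (eventually_cofinite.1 (sm.tendsto_cofinite_zero.eventually_lt_const
          (mul_pos (sq_pos_of_ne_zero c0) (key l₁ h1).2))).subset fun l hl => not_lt.2 ?_
        rw [← hl.2]
        exact (key l hl.1).1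
    have e : ⋃ l ∈ {l | c l = c l₀}, (A.e l).symm '' closedBall 0 1 =
        ⋃ l ∈ {l | c l = c l₀}, (A.e l).symm '' ball 0 3 := by
      refine (iUnion₂_mono fun l _ => image_mono (closedBall_subset_ball (by norm_num))).antisymm
        (iUnion₂_subset fun l hl z hz => mem_biUnion (x := A.i z) ((eq l z hz).trans hl)
          (image_mono ball_subset_closedBall (mi z)))
    have := ho _ (fin.isCompact_biUnion fun l _ => cpt A l (hK 1)
      (closedBall_subset_ball (by norm_num))) (e ▸ isOpen_biUnion fun l _ => op l)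
    exact (this ▸ mem_biUnion (x := l₀) (t := fun l => (A.e l).symm '' closedBall 0 1) rfl
      ⟨0, by simp, rfl⟩ : (A.e l₀).symm 0 ∈ (∅ : Set Z))
  filter_upwards [ae_all_iff.2 hc] with z hz
  exact (hz _ (sub _ (image_mono b13 (mi z)))).trans (z0 _)

omit [T2Space Z] [BorelSpace Z] in
theorem L_add (h : A.Std) {U V : Z → ℝ} (hU : A.D U) (hV : A.D V) (z : Z) :
    A.L (U + V) z = A.L U z + A.L V z := by
  have : A.v2 (bar (A.d (U + V))) z = A.v2 (bar (A.d U + A.d V)) z := h.bas.bar_congr _ _ z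
    (Eventually.of_forall fun w => h.bas.d_add U V w (hU.1 w) (hV.1 w)) _ (A.mem_i z)
  rw [KA.L, KA.Tr, this, h.bas.bar_add _ _ z (h.bas.s1_d U z (hU.1 z)) (h.bas.s1_d V z (hV.1 z)),
    tr_add]
  rfl

omit [T2Space Z] [BorelSpace Z] in
theorem L_smul (h : A.Std) (c : ℝ) (U : Z → ℝ) (z : Z) : A.L (c • U) z = c * A.L U z := by
  rw [KA.L, h.bas.d_smul, h.bas.bar_smul]
  exact tr_smul _ c _

/-- the range of the Laplace operator -/
def rng (h : A.Std) : Submodule ℝ (Lp ℝ 2 A.μ) where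
  carrier := {g | ∃ U, A.D U ∧ g =ᵐ[A.μ] A.L U}
  zero_mem' := ⟨(0 : ℝ) • 0, by
    rw [zero_smul]
    exact ⟨fun z => KA.sm_const 0 z, HasCompactSupport.zero⟩, by
      filter_upwards [Lp.coeFn_zero ℝ 2 A.μ] with z hz
      rw [hz, L_smul h, zero_mul, Pi.zero_apply]⟩
  add_mem' := by
    rintro a b ⟨U, hU, ha⟩ ⟨V, hV, hb⟩
    refine ⟨U + V, ⟨fun z => (hU.1 z).add (hV.1 z), hU.2.add hV.2⟩, ?_⟩
    filter_upwards [Lp.coeFn_add a b, ha, hb] with z k1 k2 k3
    rw [k1, Pi.add_apply, k2, k3, L_add h hU hV]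
  smul_mem' := by
    rintro c a ⟨U, hU, ha⟩
    refine ⟨c • U, ⟨fun z => (KA.sm_const c z).mul (hU.1 z), hU.2.smul_left (f := fun _ => c)⟩, ?_⟩
    filter_upwards [Lp.coeFn_smul c a, ha] with z k1 k2
    rw [k1, Pi.smul_apply, k2, L_smul h, smul_eq_mul]

end PLA0

theorem la0 (h : A.Std) (hw : Weyl) (hw' : Weak) (h1 : A.GS1) (hl : ∀ ε > 0, A.LA ε)
    (ho : NoOpen Z) : A.LA 0 := by
  have top : (PLA0.rng h).topologicalClosure = ⊤ := by
    rw [Submodule.topologicalClosure_eq_top_iff, Submodule.eq_bot_iff]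
    intro g hg
    have hf : MemLp g 2 A.μ := Lp.memLp g
    have orth : ∀ U, A.D U → ∫ z, g z * A.L U z ∂A.μ = 0 := fun U hU => by
      have m := PLA0.memLp h (h.bas.L_D U hU).1
      rw [← (Submodule.mem_orthogonal _ _).1 hg (m.toLp _) ⟨U, hU, m.coeFn_toLp⟩, L2.inner_def]
      refine integral_congr_ae ?_
      filter_upwards [m.coeFn_toLp] with z hz
      rw [hz]
      simp
    choose u hu hu' using fun n : ℕ => hl 1 one_pos g hf (1 / ((n : ℝ) + 1)) (by positivity)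
    have en := fun n => (PLA0.energy h h1 hf (orth _ (hu n)) (hu n)).trans (hu' n)
    have p1 : ∀ n, 0 ≤ ∫ z, (u n z - g z) ^ 2 ∂A.μ := fun n => integral_nonneg fun z => sq_nonneg _
    have p2 : ∀ n, 0 ≤ ∫ z, A.N (A.d (u n)) z ∂A.μ := fun n =>
      integral_nonneg fun z => h.alg.n1_nn _ _ (h.bas.pd z)
    choose c hc using PLA0.loc_const h hw hw' hf hu
      (squeeze_zero p1 (fun n => by linarith [en n, p2 n]) tendsto_one_div_add_atTop_nhds_zero_nat)
      (squeeze_zero p2 (fun n => by linarith [en n, p1 n, p2 n])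
        tendsto_one_div_add_atTop_nhds_zero_nat)
    exact Lp.eq_zero_iff_ae_eq_zero.2 (PLA0.glob h ho hf hc)
  intro f hf η η0
  have : -hf.toLp f ∈ closure (PLA0.rng h : Set (Lp ℝ 2 A.μ)) := by
    rw [← Submodule.topologicalClosure_coe, top]
    trivial
  obtain ⟨g, ⟨U, hU, hg⟩, hd⟩ := Metric.mem_closure_iff.1 this _ (Real.sqrt_pos.2 η0)
  refine ⟨U, hU, ?_⟩
  rw [dist_eq_norm, Real.lt_sqrt (norm_nonneg _), ← real_inner_self_eq_norm_sq, L2.inner_def] at hd
  refine le_of_eq_of_le (integral_congr_ae ?_) hd.le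
  filter_upwards [Lp.coeFn_sub (-hf.toLp f) g, Lp.coeFn_neg (hf.toLp f), hf.coeFn_toLp, hg]
    with z k1 k2 k3 k4
  rw [k1, Pi.sub_apply, k2, Pi.neg_apply, k3, k4]
  simp only [real_inner_self_eq_norm_sq, Real.norm_eq_abs, sq_abs]
  ring

end Pool.Agent.Lib.MP_356dfe_ag.S
end
end
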