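import Pool.Agent.Lib.MP_356dfe_ag.S.Stm2

/-! Small proved facts that every part may use. -/

set_option autoImplicit false

open Set Filter Topology Metric MeasureTheory
open scoped ContDiff ComplexConjugate Matrix Pointwise

noncomputable section

namespace Pool.Agent.Lib.MP_356dfe_ag.S

theorem md_comm (S T : M2) : md S T = md T S := by unfold md; congr 1; ring

theorem md_add (S T U : M2) : md S (T + U) = md S T + md S U := by
  simp only [md, Matrix.add_apply, ← Complex.add_re]; congr 1; ring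

theorem add_md (S T U : M2) : md (S + T) U = md S U + md T U := by
  rw [md_comm, md_add, md_comm U, md_comm U]

theorem md_smul (c : ℝ) (S T : M2) : md S (c • T) = c * md S T := by
  simp only [md, Matrix.smul_apply, Complex.real_smul, ← Complex.re_ofReal_mul]; congr 1; ring

theorem smul_md (c : ℝ) (S T : M2) : md (c • S) T = c * md S T := by
  rw [md_comm, md_smul, md_comm]

theorem md_zero (S : M2) : md S 0 = 0 := by simp [md]

theorem zero_md (S : M2) : md 0 S = 0 := by simp [md]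

theorem md_neg (S T : M2) : md S (-T) = -md S T := by
  rw [← neg_one_smul ℝ T, md_smul, neg_one_mul]

theorem md_sub (S T U : M2) : md S (T - U) = md S T - md S U := by
  rw [sub_eq_add_neg, md_add, md_neg, ← sub_eq_add_neg]

theorem sub_md (S T U : M2) : md (S - T) U = md S U - md T U := by
  rw [md_comm, md_sub, md_comm U, md_comm U]

theorem ot_add (a b c : E2) : ot a (b + c) = ot a b + ot a c := by
  ext j k; simp [ot, mul_add]

theorem add_ot (a b c : E2) : ot (a + b) c = ot a c + ot b c := by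
  ext j k; simp [ot, add_mul]

theorem ot_smul (t : ℝ) (a b : E2) : ot a (t • b) = t • ot a b := by
  ext j k; simp [ot]; ring

theorem smul_ot (t : ℝ) (a b : E2) : ot (t • a) b = t • ot a b := by
  ext j k; simp [ot]; ring

theorem ot_zero (a : E2) : ot a 0 = 0 := by ext j k; simp [ot]

theorem zero_ot (a : E2) : ot 0 a = 0 := by ext j k; simp [ot]

theorem ot_sub (a b c : E2) : ot a (b - c) = ot a b - ot a c := by
  ext j k; simp [ot, mul_sub]

theorem sub_ot (a b c : E2) : ot (a - b) c = ot a c - ot b c := by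
  ext j k; simp [ot, sub_mul]

theorem ot_herm (a : E2) : (ot a a).IsHermitian := by
  ext j k; simp [ot, mul_comm]

theorem ot_add_herm (a b : E2) : (ot a b + ot b a).IsHermitian := by
  ext j k; simp [ot, mul_comm, add_comm]

theorem n1_add (g : M2) (a b c : E2) : n1 g a (b + c) = n1 g a b + n1 g a c := by
  rw [n1, ot_add, md_add, add_div]; rfl

theorem add_n1 (g : M2) (a b c : E2) : n1 g (a + b) c = n1 g a c + n1 g b c := by
  rw [n1, add_ot, md_add, add_div]; rfl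

theorem n1_smul (g : M2) (t : ℝ) (a b : E2) : n1 g a (t • b) = t * n1 g a b := by
  rw [n1, ot_smul, md_smul, mul_div_assoc]; rfl

theorem smul_n1 (g : M2) (t : ℝ) (a b : E2) : n1 g (t • a) b = t * n1 g a b := by
  rw [n1, smul_ot, md_smul, mul_div_assoc]; rfl

theorem n1_sub (g : M2) (a b c : E2) : n1 g a (b - c) = n1 g a b - n1 g a c := by
  rw [n1, ot_sub, md_sub, sub_div]; rfl

theorem sub_n1 (g : M2) (a b c : E2) : n1 g (a - b) c = n1 g a c - n1 g b c := by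
  rw [n1, sub_ot, md_sub, sub_div]; rfl

theorem n1_zero (g : M2) (a : E2) : n1 g a 0 = 0 := by rw [n1, ot_zero, md_zero, zero_div]

theorem zero_n1 (g : M2) (a : E2) : n1 g 0 a = 0 := by rw [n1, zero_ot, md_zero, zero_div]

theorem tr_add (g S T : M2) : tr g (S + T) = tr g S + tr g T := by
  rw [tr, md_add, add_div]; rfl

theorem tr_sub (g S T : M2) : tr g (S - T) = tr g S - tr g T := by
  rw [tr, md_sub, sub_div]; rfl

theorem tr_smul (g : M2) (t : ℝ) (S : M2) : tr g (t • S) = t * tr g S := by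
  rw [tr, md_smul, mul_div_assoc]; rfl

theorem tr_zero (g : M2) : tr g 0 = 0 := by rw [tr, md_zero, zero_div]

theorem tr_ot (g : M2) (a b : E2) : tr g (ot a b) = n1 g a b := rfl

theorem rc_add (a b : E2) : rc (a + b) = rc a + rc b := by
  ext i; fin_cases i <;> simp [rc] <;> ring

theorem rc_smul (t : ℝ) (a : E2) : rc (t • a) = t • rc a := by
  ext i; fin_cases i <;> simp [rc] <;> ring

theorem rc_zero : rc 0 = 0 := by ext i; fin_cases i <;> simp [rc]

theorem det4_len {L : List (Fin 4 → ℝ)} (h : L.length ≠ 4) : det4 L = 0 := by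
  rcases L with _ | ⟨a, _ | ⟨b, _ | ⟨c, _ | ⟨d, _ | ⟨e, L⟩⟩⟩⟩⟩ <;> first | rfl | simp at h

theorem det4_eq (a b c d : Fin 4 → ℝ) : det4 [a, b, c, d] = Matrix.detRowAlternating ![a, b, c, d] :=
  rfl

theorem det4_ofFn (v : Fin 4 → Fin 4 → ℝ) : det4 (List.ofFn v) = (Matrix.of v).det := by
  have : v = ![v 0, v 1, v 2, v 3] := by ext i : 1; fin_cases i <;> rfl
  rw [this]; rfl

theorem det4_slot (L L' : List (Fin 4 → ℝ)) :
    ∃ φ : (Fin 4 → ℝ) →ₗ[ℝ] ℝ, ∀ x, det4 (L ++ x :: L') = φ x := by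
  by_cases h : L.length + L'.length = 3
  · have key : ∀ (v : Fin 4 → Fin 4 → ℝ) (i : Fin 4), ∃ φ : (Fin 4 → ℝ) →ₗ[ℝ] ℝ, ∀ x,
        Matrix.detRowAlternating (Function.update v i x) = φ x := fun v i =>
      ⟨(Matrix.detRowAlternating (n := Fin 4) (R := ℝ)).toMultilinearMap.toLinearMap v i,
        fun _ => rfl⟩
    rcases L with _ | ⟨a, _ | ⟨b, _ | ⟨c, _ | ⟨d, L⟩⟩⟩⟩ <;>
      rcases L' with _ | ⟨a', _ | ⟨b', _ | ⟨c', _ | ⟨d', L'⟩⟩⟩⟩ <;>
      simp only [List.length_cons, List.length_nil] at h <;> try omega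
    · obtain ⟨φ, hφ⟩ := key ![0, a', b', c'] 0
      exact ⟨φ, fun x => (det4_eq _ _ _ _).trans ((congrArg Matrix.detRowAlternating
        (funext fun i => by fin_cases i <;> simp)).trans (hφ x))⟩
    · obtain ⟨φ, hφ⟩ := key ![a, 0, a', b'] 1
      exact ⟨φ, fun x => (det4_eq _ _ _ _).trans ((congrArg Matrix.detRowAlternating
        (funext fun i => by fin_cases i <;> simp)).trans (hφ x))⟩
    · obtain ⟨φ, hφ⟩ := key ![a, b, 0, a'] 2
      exact ⟨φ, fun x => (det4_eq _ _ _ _).trans ((congrArg Matrix.detRowAlternating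
        (funext fun i => by fin_cases i <;> simp)).trans (hφ x))⟩
    · obtain ⟨φ, hφ⟩ := key ![a, b, c, 0] 3
      exact ⟨φ, fun x => (det4_eq _ _ _ _).trans ((congrArg Matrix.detRowAlternating
        (funext fun i => by fin_cases i <;> simp)).trans (hφ x))⟩
  · exact ⟨0, fun x => det4_len (by simp; omega)⟩

theorem det4_add (L L' : List (Fin 4 → ℝ)) (x y : Fin 4 → ℝ) :
    det4 (L ++ (x + y) :: L') = det4 (L ++ x :: L') + det4 (L ++ y :: L') := by
  obtain ⟨φ, h⟩ := det4_slot L L'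
  rw [h, h, h, map_add]

theorem det4_smul (L L' : List (Fin 4 → ℝ)) (t : ℝ) (x : Fin 4 → ℝ) :
    det4 (L ++ (t • x) :: L') = t * det4 (L ++ x :: L') := by
  obtain ⟨φ, h⟩ := det4_slot L L'
  rw [h, h, map_smul, smul_eq_mul]

theorem det4_sum {ι : Type*} (s : Finset ι) (L L' : List (Fin 4 → ℝ)) (x : ι → Fin 4 → ℝ) :
    det4 (L ++ (∑ i ∈ s, x i) :: L') = ∑ i ∈ s, det4 (L ++ x i :: L') := by
  obtain ⟨φ, h⟩ := det4_slot L L'
  simp only [h, map_sum]

theorem det4_zero {L : List (Fin 4 → ℝ)} (h : 0 ∈ L) : det4 L = 0 := by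
  obtain ⟨L₁, L₂, rfl⟩ := List.append_of_mem h
  simpa using det4_smul L₁ L₂ 0 0

theorem det4_dup (L L' : List (Fin 4 → ℝ)) (x : Fin 4 → ℝ) : det4 (L ++ x :: x :: L') = 0 := by
  by_cases h : L.length + L'.length = 2
  · rcases L with _ | ⟨a, _ | ⟨b, _ | ⟨c, L⟩⟩⟩ <;>
      rcases L' with _ | ⟨a', _ | ⟨b', _ | ⟨c', L'⟩⟩⟩ <;>
      simp only [List.length_cons, List.length_nil] at h <;> try omega
    · exact Matrix.det_zero_of_row_eq (i := 0) (j := 1) (by decide) rfl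
    · exact Matrix.det_zero_of_row_eq (i := 1) (j := 2) (by decide) rfl
    · exact Matrix.det_zero_of_row_eq (i := 2) (j := 3) (by decide) rfl
  · exact det4_len (by simp; omega)

theorem det4_swap (L L' : List (Fin 4 → ℝ)) (x y : Fin 4 → ℝ) :
    det4 (L ++ x :: y :: L') = -det4 (L ++ y :: x :: L') := by
  have h := det4_dup L L' (x + y)
  have e : ∀ a b, L ++ a :: b :: L' = (L ++ [a]) ++ b :: L' := fun a b => by simp
  rw [det4_add, e, e, det4_add, det4_add, ← e, ← e, ← e, ← e, det4_dup, det4_dup] at h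
  linarith

theorem det4_move (L P L' : List (Fin 4 → ℝ)) (x : Fin 4 → ℝ) :
    det4 (L ++ x :: (P ++ L')) = (-1) ^ P.length * det4 (L ++ P ++ x :: L') := by
  induction P generalizing L with
  | nil => simp
  | cons y P ih =>
    have := ih (L ++ [y])
    simp only [List.append_assoc, List.cons_append, List.nil_append] at this ⊢
    rw [det4_swap, this, List.length_cons]
    ring

namespace KA

variable {Z Λ : Type} [TopologicalSpace Z] (A : KA Z Λ)

theorem mem_i (z : Z) : z ∈ A.src (A.i z) := (A.cov z).choose_spec.1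

theorem ball_i (z : Z) : A.e (A.i z) z ∈ ball 0 1 := (A.cov z).choose_spec.2

theorem map_src {l : Λ} {z : Z} (h : z ∈ A.src l) : A.e l z ∈ ball 0 4 :=
  A.tgt l ▸ (A.e l).map_source h

theorem symm_mem (l : Λ) {x : E2} (h : x ∈ ball 0 4) : (A.e l).symm x ∈ A.src l :=
  (A.e l).map_target (A.tgt l ▸ h)

theorem e_symm (l : Λ) {x : E2} (h : x ∈ ball 0 4) : A.e l ((A.e l).symm x) = x :=
  (A.e l).right_inv (A.tgt l ▸ h)

theorem ev_symm {l : Λ} {z : Z} (h : z ∈ A.src l) {p : Z → Prop} (hp : ∀ᶠ w in 𝓝 z, p w) :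
    ∀ᶠ x in 𝓝 (A.e l z), p ((A.e l).symm x) := ((A.e l).tendsto_symm h).eventually hp

theorem v1_add (a b : F1 Λ) (z : Z) : A.v1 (a + b) z = A.v1 a z + A.v1 b z := rfl

theorem v1_sub (a b : F1 Λ) (z : Z) : A.v1 (a - b) z = A.v1 a z - A.v1 b z := rfl

theorem v1_smul (t : ℝ) (a : F1 Λ) (z : Z) : A.v1 (t • a) z = t • A.v1 a z := rfl

theorem v1_sum {ι : Type*} (s : Finset ι) (a : ι → F1 Λ) (z : Z) :
    A.v1 (∑ i ∈ s, a i) z = ∑ i ∈ s, A.v1 (a i) z := by
  simp only [v1, Finset.sum_apply]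

theorem v1_sm1 (U : Z → ℝ) (a : F1 Λ) (z : Z) : A.v1 (A.sm1 U a) z = U z • A.v1 a z := by
  simp only [v1, sm1, (A.e _).left_inv (A.mem_i z)]

theorem v2_OT (a b : F1 Λ) (z : Z) : A.v2 (OT a b) z = ot (A.v1 a z) (A.v1 b z) := rfl

theorem v2_add (S T : F2 Λ) (z : Z) : A.v2 (S + T) z = A.v2 S z + A.v2 T z := rfl

theorem v2_sub (S T : F2 Λ) (z : Z) : A.v2 (S - T) z = A.v2 S z - A.v2 T z := rfl

theorem P_eq_W (a b : F1 Λ) : A.P a b = A.W A.met (OT a b) := rfl

theorem Tr_eq_W (S : F2 Λ) : A.Tr S = A.W A.met S := rfl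

theorem NN_eq_W (S : F2 Λ) (z : Z) : A.NN S z = A.Tr S z * A.Tr S z - A.W S S z := rfl

variable {A}

theorem Eq1.v1 {a b : F1 Λ} {z : Z} (h : A.Eq1 a b z) : A.v1 a z = A.v1 b z := h _ (A.mem_i z)

theorem Eq1.symm {a b : F1 Λ} {z : Z} (h : A.Eq1 a b z) : A.Eq1 b a z := fun l hl => (h l hl).symm

theorem Eq1.trans {a b c : F1 Λ} {z : Z} (h : A.Eq1 a b z) (h' : A.Eq1 b c z) : A.Eq1 a c z :=
  fun l hl => (h l hl).trans (h' l hl)

theorem Sm.add {U V : Z → ℝ} {z : Z} (h : A.Sm U z) (h' : A.Sm V z) : A.Sm (U + V) z :=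
  fun l hl => (h l hl).add (h' l hl)

theorem Sm.mul {U V : Z → ℝ} {z : Z} (h : A.Sm U z) (h' : A.Sm V z) : A.Sm (U * V) z :=
  fun l hl => (h l hl).mul (h' l hl)

theorem Sm.sub {U V : Z → ℝ} {z : Z} (h : A.Sm U z) (h' : A.Sm V z) : A.Sm (U - V) z :=
  fun l hl => (h l hl).sub (h' l hl)

theorem Sm.neg {U : Z → ℝ} {z : Z} (h : A.Sm U z) : A.Sm (-U) z := fun l hl => (h l hl).neg

theorem Sm.comp {U : Z → ℝ} {z : Z} (h : A.Sm U z) {φ : ℝ → ℝ} (hφ : ContDiffAt ℝ ∞ φ (U z)) :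
    A.Sm (φ ∘ U) z := fun l hl =>
  ContDiffAt.comp (g := φ) _ (by simpa only [Function.comp_apply, (A.e l).left_inv hl] using hφ)
    (h l hl)

theorem sm_const (c : ℝ) (z : Z) : A.Sm (fun _ => c) z := fun _ _ => contDiffAt_const

theorem Sm.congr {U V : Z → ℝ} {z : Z} (h : A.Sm U z) (e : ∀ᶠ w in 𝓝 z, V w = U w) : A.Sm V z :=
  fun l hl => (h l hl).congr_of_eventuallyEq (A.ev_symm hl e)

theorem sm_sum {ι : Type*} {s : Finset ι} {U : ι → Z → ℝ} {z : Z} (h : ∀ i ∈ s, A.Sm (U i) z) :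
    A.Sm (fun w => ∑ i ∈ s, U i w) z := fun l hl => ContDiffAt.sum fun i hi => h i hi l hl

theorem At1.add {a b : F1 Λ} {z : Z} (h : A.At1 a z) (h' : A.At1 b z) : A.At1 (a + b) z :=
  fun l l' h1 h2 => by simp only [Pi.add_apply, Matrix.add_vecMul, ← h l l' h1 h2, ← h' l l' h1 h2]

theorem At1.smul {a : F1 Λ} {z : Z} (h : A.At1 a z) (t : ℝ) : A.At1 (t • a) z :=
  fun l l' h1 h2 => by simp only [Pi.smul_apply, Matrix.smul_vecMul, ← h l l' h1 h2]

theorem S1.add {a b : F1 Λ} {z : Z} (h : A.S1 a z) (h' : A.S1 b z) : A.S1 (a + b) z :=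
  ⟨h.1.add h'.1, fun l hl => (h.2 l hl).add (h'.2 l hl)⟩

theorem S1.smul {a : F1 Λ} {z : Z} (h : A.S1 a z) (t : ℝ) : A.S1 (t • a) z :=
  ⟨h.1.smul t, fun l hl => (h.2 l hl).const_smul t⟩

theorem S1.sub {a b : F1 Λ} {z : Z} (h : A.S1 a z) (h' : A.S1 b z) : A.S1 (a - b) z := by
  rw [sub_eq_add_neg, ← neg_one_smul ℝ b]
  exact h.add (h'.smul _)

theorem s1_zero (z : Z) : A.S1 0 z := ⟨fun _ _ _ _ => by simp, fun _ _ => contDiffAt_const⟩

theorem s1_sum {ι : Type*} {s : Finset ι} {a : ι → F1 Λ} {z : Z} (h : ∀ i ∈ s, A.S1 (a i) z) :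
    A.S1 (∑ i ∈ s, a i) z :=
  Finset.sum_induction a (fun b => A.S1 b z) (fun _ _ => S1.add) (s1_zero z) h

theorem Ex.ev {a : F1 Λ} {z : Z} (h : A.Ex a z) : ∀ᶠ w in 𝓝 z, A.Ex a w :=
  let ⟨U, hU⟩ := h
  hU.eventually_nhds.mono fun _ hw => ⟨U, hw⟩

theorem ex_d {U : Z → ℝ} {z : Z} (h : ∀ᶠ w in 𝓝 z, A.Sm U w) : A.Ex (A.d U) z :=
  ⟨U, h.mono fun _ hw => ⟨hw, fun _ _ => rfl⟩⟩

theorem In.add {C : Set Z} {k : ℕ} {ξ ξ' : FF Z} (h : A.In C k ξ) (h' : A.In C k ξ') :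
    A.In C k (ξ + ξ') := by
  classical
  exact fun q hq => (Finset.mem_union.1 (Finsupp.support_add hq)).elim (h q) (h' q)

theorem In.smul {C : Set Z} {k : ℕ} {ξ : FF Z} (h : A.In C k ξ) (t : ℝ) : A.In C k (t • ξ) :=
  fun q hq => h q (Finsupp.support_smul hq)

theorem In.mono {C C' : Set Z} {k : ℕ} {ξ : FF Z} (h : A.In C k ξ) (h' : C ⊆ C') :
    A.In C' k ξ := fun q hq => ⟨(h q hq).1, (h q hq).2.1.trans h', (h q hq).2.2⟩

theorem in_zero (C : Set Z) (k : ℕ) : A.In C k 0 := fun q hq => by simp at hq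

theorem in_sum {ι : Type*} {s : Finset ι} {C : Set Z} {k : ℕ} {ξ : ι → FF Z}
    (h : ∀ i ∈ s, A.In C k (ξ i)) : A.In C k (∑ i ∈ s, ξ i) :=
  Finset.sum_induction ξ (A.In C k) (fun _ _ => In.add) (in_zero C k) h

theorem In.eq_zero {C : Set Z} {k : ℕ} {ξ : FF Z} (h : A.In C k ξ) (hk : 4 < k) : ξ = 0 := by
  rw [← Finsupp.support_eq_empty, Finset.eq_empty_iff_forall_notMem]
  exact fun q hq => by have := (h q hq).2.2.1; omega

variable (A) [MeasurableSpace Z]

/-- the current is linear in the formal form -/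
def evL (f : Z → ℝ) (L : List (F1 Λ)) : FF Z →ₗ[ℝ] ℝ :=
  Finsupp.linearCombination ℝ fun q => ∫ z, f z * q.1 z * A.Dt (L ++ q.2.map A.d) z ∂A.μ

theorem evL_apply (f : Z → ℝ) (L : List (F1 Λ)) (ξ : FF Z) : A.evL f L ξ = A.ev ξ f L := rfl

omit [MeasurableSpace Z] in
/-- the value is linear in the formal form -/
def valL (L : List (F1 Λ)) (z : Z) : FF Z →ₗ[ℝ] ℝ :=
  Finsupp.linearCombination ℝ fun q => q.1 z * A.Dt (L ++ q.2.map A.d) z

omit [MeasurableSpace Z] in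
theorem valL_apply (L : List (F1 Λ)) (z : Z) (ξ : FF Z) : A.valL L z ξ = A.val ξ L z := rfl

theorem ev_single (q : (Z → ℝ) × List (Z → ℝ)) (c : ℝ) (f : Z → ℝ) (L : List (F1 Λ)) :
    A.ev (Finsupp.single q c) f L = c * ∫ z, f z * q.1 z * A.Dt (L ++ q.2.map A.d) z ∂A.μ := by
  rw [← evL_apply, evL, Finsupp.linearCombination_single, smul_eq_mul]

end KA

section Vx

variable {G : Type} [Group G] {n : ℕ} {𝒜 : Set (Finset (Vx G n))}

omit [Group G] in
theorem sg_mul_self (j : Vx G n) (σ : Finset (Vx G n)) : sg j σ * sg j σ = 1 := by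
  rw [sg, ← pow_add, Even.neg_one_pow ⟨_, rfl⟩]

omit [Group G] in
theorem abs_sg (j : Vx G n) (σ : Finset (Vx G n)) : |sg j σ| = 1 := by simp [sg]

omit [Group G] in
theorem sg_single (j : Vx G n) : sg j {j} = 1 := by simp [sg, Finset.filter_singleton]

omit [Group G] in
theorem sg_insert {i : Vx G n} {σ : Finset (Vx G n)} (h : i ∉ σ) (j : Vx G n) :
    sg j (insert i σ) = (if i.2 < j.2 then -1 else 1) * sg j σ := by
  rw [sg, sg, Finset.filter_insert]
  split_ifs with h'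
  · rw [Finset.card_insert_of_notMem (fun h'' => h (Finset.mem_filter.1 h'').1), pow_succ']
  · rw [one_mul]

omit [Group G] in
theorem sg_insert_self (j : Vx G n) (σ : Finset (Vx G n)) : sg j (insert j σ) = sg j σ := by
  rw [sg, sg, Finset.filter_insert, if_neg (lt_irrefl _)]

omit [Group G] in
theorem sg_erase {i j : Vx G n} {σ : Finset (Vx G n)} (hi : i ∈ σ) (hj : j ∈ σ)
    (h : i.2 ≠ j.2) : sg i σ * sg j (σ.erase i) = -(sg j σ * sg i (σ.erase j)) := by
  have h1 := sg_insert (Finset.notMem_erase i σ) j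
  have h2 := sg_insert (Finset.notMem_erase j σ) i
  rw [Finset.insert_erase hi] at h1
  rw [Finset.insert_erase hj] at h2
  rw [h1, h2]
  rcases lt_or_gt_of_ne h with h | h
  · rw [if_pos h, if_neg h.not_gt]; ring
  · rw [if_pos h, if_neg h.not_gt]; ring

theorem sg_smul (g : G) (j : Vx G n) (σ : Finset (Vx G n)) : sg (g • j) (g • σ) = sg j σ := by
  rw [sg, sg, ← Finset.card_smul_finset g (σ.filter _)]
  congr 2
  ext i
  obtain ⟨i, rfl⟩ := (MulAction.bijective g).2 i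
  simp only [Finset.mem_filter, Finset.smul_mem_smul_finset_iff]
  rfl

theorem Cx.mem_nb (h : Cx 𝒜) {τ : Finset (Vx G n)} (hτ : τ.Nonempty) {j : Vx G n} :
    j ∈ nb 𝒜 τ ↔ j ∉ τ ∧ insert j τ ∈ 𝒜 := by
  obtain ⟨l, hl⟩ := hτ
  have : {j | j ∉ τ ∧ insert j τ ∈ 𝒜}.Finite := ((h.lf l).biUnion fun σ _ => σ.finite_toSet).subset
    fun j hj => mem_biUnion (x := insert j τ) ⟨hj.2, Finset.mem_insert_of_mem hl⟩
      (Finset.mem_insert_self _ _)
  rw [nb, dif_pos this, Finite.mem_toFinset]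
  rfl

theorem Cx.smul_iff (h : Cx 𝒜) (g : G) {σ : Finset (Vx G n)} : g • σ ∈ 𝒜 ↔ σ ∈ 𝒜 :=
  ⟨fun h' => by simpa using h.inv _ h' g⁻¹, fun h' => h.inv _ h' g⟩

theorem Cx.nb_smul (h : Cx 𝒜) (g : G) {τ : Finset (Vx G n)} (hτ : τ.Nonempty) :
    nb 𝒜 (g • τ) = g • nb 𝒜 τ := by
  ext j
  obtain ⟨j, rfl⟩ := (MulAction.bijective g).2 j
  rw [h.mem_nb hτ.smul_finset, Finset.smul_mem_smul_finset_iff, Finset.smul_mem_smul_finset_iff,
    h.mem_nb hτ, ← Finset.smul_finset_insert, h.smul_iff]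

theorem Cx.card_le (h : Cx 𝒜) {σ : Finset (Vx G n)} (hσ : σ ∈ 𝒜) : σ.card ≤ n := by
  simpa using Finset.card_le_card_of_injOn (t := Finset.univ) (fun l : Vx G n => l.2)
    (fun _ _ => Finset.mem_univ _) fun i hi j hj => h.inj σ hσ i hi j hj

variable {X M M' : Type} [AddCommGroup M] [Module ℝ M] [AddCommGroup M'] [Module ℝ M']
  {ψ : Vx G n → X → ℝ} {c : Finset (Vx G n) → ℝ}

omit [Group G] in
theorem Pr_map (φ : M →ₗ[ℝ] M') (k : ℕ) : ∀ (τ : Finset (Vx G n)) (F : List (X → ℝ) → M),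
    φ (Pr 𝒜 ψ c k τ F) = Pr 𝒜 ψ c k τ fun L => φ (F L) := by
  induction k with
  | zero => exact fun τ F => map_smul _ _ _
  | succ k ih => exact fun τ F => by simp only [Pr, map_sum, map_smul, ih]

omit [Group G] in
theorem Pr_congr (k : ℕ) : ∀ (τ : Finset (Vx G n)) {F F' : List (X → ℝ) → M},
    (∀ js : List (Vx G n), js.length = k → F (js.map ψ) = F' (js.map ψ)) →
    Pr 𝒜 ψ c k τ F = Pr 𝒜 ψ c k τ F' := by
  induction k with
  | zero => exact fun τ F F' h => congrArg (c τ • ·) (h [] rfl)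
  | succ k ih =>
    exact fun τ F F' h => Finset.sum_congr rfl fun j _ => congrArg (_ • ·)
      (ih _ fun js hjs => h (j :: js) (congrArg (· + 1) hjs))

omit [Group G] in
theorem Pr_sum {ι : Type*} (s : Finset ι) (t : ι → ℝ) (k : ℕ) :
    ∀ (τ : Finset (Vx G n)) (F : ι → List (X → ℝ) → M),
    Pr 𝒜 ψ c k τ (fun L => ∑ i ∈ s, t i • F i L) = ∑ i ∈ s, t i • Pr 𝒜 ψ c k τ (F i) := by
  induction k with
  | zero => exact fun τ F => by simp only [Pr, Finset.smul_sum, smul_comm (c τ)]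
  | succ k ih =>
    intro τ F
    simp only [Pr, ih, Finset.smul_sum]
    rw [Finset.sum_comm]
    exact Finset.sum_congr rfl fun _ _ => Finset.sum_congr rfl fun _ _ => smul_comm _ _ _

omit [Group G] in
theorem Pr_zero (k : ℕ) (τ : Finset (Vx G n)) {F : List (X → ℝ) → M}
    (h : ∀ js : List (Vx G n), js.length = k → F (js.map ψ) = 0) : Pr 𝒜 ψ c k τ F = 0 := by
  rw [Pr_congr k τ (F' := fun L => ∑ i ∈ (∅ : Finset Unit), (0 : ℝ) • F L) (by simpa using h),
    Pr_sum]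
  rfl

omit [Group G] in
theorem Pr_add (k : ℕ) (τ : Finset (Vx G n)) (F F' : List (X → ℝ) → M) :
    Pr 𝒜 ψ c k τ (fun L => F L + F' L) = Pr 𝒜 ψ c k τ F + Pr 𝒜 ψ c k τ F' := by
  simpa using Pr_sum (𝒜 := 𝒜) (ψ := ψ) (c := c) (Finset.univ : Finset Bool) (fun _ => 1) k τ
    fun b => cond b F F'

omit [Group G] in
theorem Pr_fin (k : ℕ) : ∀ (τ : Finset (Vx G n)), ∃ s : Finset (Finset (Vx G n)),
    ∀ s', s ⊆ s' → ∀ (c : Finset (Vx G n) → ℝ) (F : List (X → ℝ) → M),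
      Pr 𝒜 ψ c k τ F = ∑ σ ∈ s', c σ • Pr 𝒜 ψ (Pi.single σ 1) k τ F := by
  induction k with
  | zero =>
    refine fun τ => ⟨{τ}, fun s' hs c F => ?_⟩
    rw [Finset.sum_eq_single τ (fun σ _ h => by simp [Pr, Pi.single_eq_of_ne' h])
      fun h => (h (hs (Finset.mem_singleton_self τ))).elim]
    simp [Pr]
  | succ k ih =>
    choose s hs using ih
    refine fun τ => ⟨(nb 𝒜 τ).biUnion fun j => s (insert j τ), fun s' h c F => ?_⟩
    simp only [Pr, Finset.smul_sum]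
    rw [Finset.sum_comm]
    refine Finset.sum_congr rfl fun j hj => ?_
    rw [hs _ s' ((Finset.subset_biUnion_of_mem (fun j => s (insert j τ)) hj).trans h) c,
      Finset.smul_sum]
    exact Finset.sum_congr rfl fun _ _ => smul_comm _ _ _

theorem Pr_smul (h : Cx 𝒜) (g : G) (k : ℕ) : ∀ (τ : Finset (Vx G n)), τ.Nonempty →
    ∀ (F F' : List (X → ℝ) → M),
    (∀ js : List (Vx G n), F ((js.map (g • ·)).map ψ) = F' (js.map ψ)) →
    Pr 𝒜 ψ c k (g • τ) F = Pr 𝒜 ψ (fun σ => c (g • σ)) k τ F' := by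
  induction k with
  | zero => exact fun τ _ F F' e => congrArg (c (g • τ) • ·) (e [])
  | succ k ih =>
    intro τ hτ F F' e
    simp only [Pr]
    rw [h.nb_smul g hτ, Finset.smul_finset_def, Finset.sum_image (MulAction.injective g).injOn]
    refine Finset.sum_congr rfl fun j _ => ?_
    rw [← Finset.smul_finset_insert, sg_smul,
      ih _ (Finset.insert_nonempty _ _) _ (fun L => F' (ψ j :: L)) fun js => e (j :: js)]

end Vx

end Pool.Agent.Lib.MP_356dfe_ag.S
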