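import Pool.Agent.Lib.MP_356dfe_ag.Defs

/-! Resolutions of surfaces with normal crossing exceptional curve. -/

set_option autoImplicit false

open Filter Topology

noncomputable section

namespace Pool.Agent.Lib.MP_356dfe_ag

/-- near `x`, the map `f` has holomorphic homogeneous coordinates -/
def HolMap {N N' : ℕ} {X : Set (PN N)} {X' : Set (PN N')} (f : X → X') (x : X) : Prop :=
  ∃ φ : X → Fin (N' + 1) → ℂ, HolAt φ x ∧
    ∀ᶠ y in 𝓝 x, ∃ h : φ y ≠ 0, Projectivization.mk ℂ (φ y) h = (f y).1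

/-- `π : M → X` is a resolution of the surface `X` whose exceptional set is a curve with normal
crossings -/
structure Resolution {N N' : ℕ} {X : Set (PN N)} {M : Set (PN N')} (π : M → X) : Prop where
  smooth : Sing M 2 = ∅
  hol : ∀ z, HolMap π z
  surj : Function.Surjective π
  inv : ∃ ι : X → M, ∀ x ∉ Sing X 2, HolMap ι x ∧ ∀ z, π z = x ↔ z = ι x
  nc : ∀ z, π z ∈ Sing X 2 → ∃ e : OpenPartialHomeomorph M (Fin 2 → ℂ), IsChart e ∧
    z ∈ e.source ∧ e z = 0 ∧ ((∀ y ∈ e.source, π y ∈ Sing X 2 ↔ e y 0 = 0) ∨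
      ∀ y ∈ e.source, π y ∈ Sing X 2 ↔ e y 0 * e y 1 = 0)

end Pool.Agent.Lib.MP_356dfe_ag
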