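import Pool.Agent.Lib.MP_356dfe_ag.S.Stm2
import Pool.Agent.Lib.MP_356dfe_ag.S.Res
import Pool.Agent.Lib.MP_356dfe_ag.Proj
import Pool.Agent.Lib.MP_356dfe_ag.S.Basic

-- part Pool.Agent.Lib.MP_356dfe_ag.S.Stm3
section

/-! Topological and projective statements. -/

set_option autoImplicit false

open Set Filter Topology Metric Pool.Agent.Shared.SingHom
open scoped ContDiff

noncomputable section

namespace Pool.Agent.Lib.MP_356dfe_ag.S

/-- reduced Betti numbers, indexed by the number of vertices -/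
def bt {X : Type} [TopologicalSpace X] (A : Set X) (m : ℕ) : ℤ := Module.finrank ℤ (H A m)

/-- a finite family of open sets with acyclic intersections -/
def Acv {X : Type} [TopologicalSpace X] {n : ℕ} (V : Fin n → Set X) : Prop :=
  (∀ i, IsOpen (V i)) ∧ ∀ s : Finset (Fin n), s.Nonempty → (VV V s).Nonempty → Acyc (VV V s)

/-- the Euler characteristic of a good cover -/
def N1 : Prop := ∀ (X : Type) [TopologicalSpace X] (n : ℕ) (V : Fin n → Set X), Acv V →
  (∀ m, Module.Finite ℤ (H (⋃ i, V i) m)) ∧ (∀ m, n < m → bt (⋃ i, V i) m = 0) ∧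
  ∑ m ∈ Finset.range (n + 1), (-1) ^ m * bt (⋃ i, V i) m = 1 - chiN (nerve V)

/-- the first two Betti numbers of a good cover -/
def N2 : Prop := ∀ (X : Type) [TopologicalSpace X] (n : ℕ) (V : Fin n → Set X), Acv V →
  (∀ m, Module.Finite ℤ (H (⋃ i, V i) m)) →
  (cntN (nerve V) 1 : ℤ) - cntN (nerve V) 2 + (incN (nerve V)).rank ≤
    1 - bt (⋃ i, V i) 0 + bt (⋃ i, V i) 1 - bt (⋃ i, V i) 2

/-- retractions and deformations away from the zero set -/
structure Ret : Prop where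
  ret : ∀ (M : Type) [TopologicalSpace M] [T2Space M] [CompactSpace M] (ρ : M → ℝ) (b : ℝ),
    Continuous ρ → (∀ z, 0 < ρ z → ρ z < b → Reg ρ z) → ∀ a₁ a₂, 0 < a₁ → a₁ < a₂ → a₂ < b →
    ∃ r : M → M, ContinuousOn r {z | 0 < ρ z} ∧
      (∀ z, 0 < ρ z → a₁ < ρ (r z) ∧ (ρ z < a₂ → ρ (r z) < a₂)) ∧ ∀ z, a₂ ≤ ρ z → r z = z
  ac : ∀ (M : Type) [TopologicalSpace M] [T2Space M] [CompactSpace M] (ρ : M → ℝ) (δ : ℝ),
    Continuous ρ → (∀ z, 0 < ρ z → ρ z < δ → Reg ρ z) → ∀ a b, 0 < a → a < b → b < δ →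
    Ac {z | 0 < ρ z} {z | a < ρ z} ∧ Ac {z | 0 < ρ z ∧ ρ z < δ} {z | a < ρ z ∧ ρ z < b}

/-- the conclusion of the theorem with a lower bound -/
def Concl (X : Type) [TopologicalSpace X] (S : Set X) (c : ℤ) : Prop :=
  (∀ i, Module.Finite ℚ (IH X S 2 i)) ∧ {i | Module.finrank ℚ (IH X S 2 i) ≠ 0}.Finite ∧
    c ≤ ∑ᶠ i : ℕ, (-1 : ℤ) ^ i * (Module.finrank ℚ (IH X S 2 i) : ℤ)

/-- the Euler characteristic of intersection homology -/
def Top : Prop := ∀ (X : Type) [TopologicalSpace X] (S O U W : Set X) (n : ℕ) (V : Fin n → Set X)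
  (D : Set X), IsClosed S → IsOpen O → S ⊆ O → (∀ m, Z O (m + 2) ≤ B O (m + 2)) →
  Acv V → Acv (fun i => V i ∩ D) → ⋃ i, V i = U → U ∩ D = W → U ⊆ Sᶜ → W ⊆ O ∩ Sᶜ →
  Ac Sᶜ U → Ac (O ∩ Sᶜ) W → Concl X S (icN (nerve V) (nerve fun i => V i ∩ D))

/-- a smooth function on projective space that cuts out the singular points -/
def RugS : Prop := ∀ (N : ℕ) (I : Finset (MvPolynomial (Fin (N + 1)) ℂ)),
  (Sing (Var I) 2).Finite → ∃ r : (Fin (N + 1) → ℂ) → ℝ, (∀ v ≠ 0, ContDiffAt ℝ ∞ r v) ∧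
    (∀ (a : ℂ) v, a ≠ 0 → r (a • v) = r v) ∧
    ∃ ε, Rug (IsChart (n := 2)) (Sing (Var I) 2) (fun y : Var I => r y.1.rep) ε

/-- basic facts on resolutions -/
structure Cb {N N' : ℕ} {X : Set (PN N)} {M : Set (PN N')} (π : M → X) : Prop where
  cont : Continuous π
  emb : IsOpenEmbedding fun z : ((π ⁻¹' Sing X 2)ᶜ : Set M) => π z.1
  an : ∀ (φ : X → ℂ) z (e : OpenPartialHomeomorph M E2), HolAt φ (π z) → IsChart e →
    z ∈ e.source → AnalyticAt ℂ ((φ ∘ π) ∘ e.symm) (e z)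
  sm : ∀ r : (Fin (N + 1) → ℂ) → ℝ, (∀ v ≠ 0, ContDiffAt ℝ ∞ r v) →
    (∀ (a : ℂ) v, a ≠ 0 → r (a • v) = r v) → ∀ z (e : OpenPartialHomeomorph M E2), IsChart e →
    z ∈ e.source → ContDiffAt ℝ ∞ ((fun y => r (π y).1.rep) ∘ e.symm) (e z)
  reg : ∀ (ρ : X → ℝ) ε, Rug (IsChart (n := 2)) (Sing X 2) ρ ε → ∀ z
    (e : OpenPartialHomeomorph M E2), IsChart e → z ∈ e.source → 0 < ρ (π z) → ρ (π z) < ε →
    DifferentiableAt ℝ ((ρ ∘ π) ∘ e.symm) (e z) → fderiv ℝ ((ρ ∘ π) ∘ e.symm) (e z) ≠ 0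
  ell : ∃ O : Set X, IsOpen O ∧ Sing X 2 ⊆ O ∧ ∃ h : M → ℂ, ∀ z, π z ∈ O →
    (∀ e : OpenPartialHomeomorph M E2, IsChart e → z ∈ e.source →
      AnalyticAt ℂ (h ∘ e.symm) (e z)) ∧ (π z ∈ Sing X 2 → h z = 0) ∧ ¬ ∀ᶠ w in 𝓝 z, h w = 0

/-- the basic facts hold -/
def CbS : Prop := ∀ (N N' : ℕ) (I : Finset (MvPolynomial (Fin (N + 1)) ℂ))
  (J : Finset (MvPolynomial (Fin (N' + 1)) ℂ)) (π : Var J → Var I), (Sing (Var I) 2).Finite →
  Resolution π → Cb π

/-- a fine Kaehler atlas on the resolution -/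
def Kam : Prop := ∀ (N N' : ℕ) (I : Finset (MvPolynomial (Fin (N + 1)) ℂ))
  (J : Finset (MvPolynomial (Fin (N' + 1)) ℂ)) (π : Var J → Var I), (Sing (Var I) 2).Finite →
  Resolution π → Continuous π → ∀ U : Var J → Set (Var J), (∀ x, U x ∈ 𝓝 x) →
  ∃ (m : ℕ) (A : KA (Var J) (Fin m)), A.E = π ⁻¹' Sing (Var I) 2 ∧ ∀ l, IsChart (A.e l) ∧
    ∃ x, A.src l ⊆ U x ∧ ((A.act (A.ty l)).Nonempty → x ∈ A.E)

/-- `A'` is the lift of the atlas `A` -/
structure IsLift {G Z M : Type} [Group G] [TopologicalSpace Z] [MulAction G Z] [TopologicalSpace M]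
    {m : ℕ} (q : Z → M) (A : KA M (Fin m)) (A' : KA Z (Vx G m)) : Prop where
  ty_sm : ∀ (g : G) l, A'.ty (g • l) = A'.ty l
  src_sm : ∀ (g : G) l z, g • z ∈ A'.src (g • l) ↔ z ∈ A'.src l
  e_sm : ∀ (g : G) l z, A'.e (g • l) (g • z) = A'.e l z
  symm_sm : ∀ (g : G) l x, (A'.e (g • l)).symm x = g • (A'.e l).symm x
  act : ∀ l, A'.act (A'.ty l) = A.act (A.ty l.2)
  E : A'.E = q ⁻¹' A.E
  e : ∀ l, ∀ z ∈ A'.src l, q z ∈ A.src l.2 ∧ A'.e l z = A.e l.2 (q z)

/-- the lift of an atlas -/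
def LiftK : Prop := ∀ (G Z M : Type) [Group G] [Countable G] [TopologicalSpace Z] [MulAction G Z]
  [TopologicalSpace M] [T2Space M] [CompactSpace M] (q : Z → M), IsQuotientCoveringMap q G →
  ∀ (m : ℕ) (A : KA M (Fin m)), (∀ l, Small q G (A.src l)) → ∃ A', IsLift (G := G) q A A'

/-- sheets over a good cover -/
def LiftV : Prop := ∀ (G Z M : Type) [Group G] [TopologicalSpace Z] [MulAction G Z]
  [TopologicalSpace M] [T2Space M] [CompactSpace M] (q : Z → M), IsQuotientCoveringMap q G →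
  ∀ (n : ℕ) (V : Fin n → Set M) (B : Set M), (∀ i, IsOpen (V i) ∧ Small q G (V i)) → IsOpen B →
  Small q G B → (∀ s : Finset (Fin n), s.Nonempty → IsPreconnected (VV V s) ∧
    IsPreconnected (VV V s ∩ B)) →
  ∃ (V' : Vx G n → Set Z) (N : Set Z), IsOpen N ∧ BijOn q N B ∧
    (∃ K, IsCompact K ∧ N ⊆ K) ∧ (∀ z, q z ∈ B → ∃! g : G, g⁻¹ • z ∈ N) ∧
    (∀ l, IsOpen (V' l) ∧ IsCompact (closure (V' l))) ∧
    (∀ (g : G) l z, g • z ∈ V' (g • l) ↔ z ∈ V' l) ∧ ⋃ l, V' l = q ⁻¹' ⋃ i, V i ∧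
    (∀ l l', (V' l ∩ V' l').Nonempty → l.2 = l'.2 → l = l') ∧
    (∀ σ : Finset (Vx G n), σ.Nonempty → (VV V' σ).Nonempty →
      BijOn q (VV V' σ) (VV V (σ.image fun l => l.2))) ∧
    Quo {σ | σ.Nonempty ∧ (VV V' σ).Nonempty} {σ | σ.Nonempty ∧ (VV V' σ ∩ q ⁻¹' B).Nonempty}
      (nerve V) (nerve fun i => V i ∩ B)

/-- the geometric data lift to the covering space -/
def Lift : Prop := ∀ (G Z M : Type) [Group G] [Countable G] [TopologicalSpace Z] [MulAction G Z]
  [TopologicalSpace M] [T2Space M] [CompactSpace M] (q : Z → M), IsQuotientCoveringMap q G →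
  ∀ (m n : ℕ) (A : KA M (Fin m)) (ρ : M → ℝ) (a b : ℝ) (V : Fin n → Set M),
  Nbh A ρ a b {z | ρ z < b} → Down A ρ a b V → (∀ l, Small q G (A.src l)) →
  (∀ i, Small q G (V i)) → Small q G {z | ρ z < b} →
  (∀ z, q z ∉ A.E → ∀ᶠ z' in 𝓝 z, z' ≠ z → ∃ h : Z → ℂ,
    (∀ w, ∃ φ, A.An φ (q w) ∧ ∀ᶠ v in 𝓝 w, h v = φ (q v)) ∧ h z ≠ h z') →
  SC (q ⁻¹' A.E) →
  ∃ Γ : Geo G Z m n, Quo Γ.𝒜 Γ.ℬ (nerve V) (nerve fun i => V i ∩ {z | ρ z < b})

/-- the theorem -/
def Final : Prop := ∀ (N N' N'' : ℕ) (I : Finset (MvPolynomial (Fin (N + 1)) ℂ))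
  (J : Finset (MvPolynomial (Fin (N' + 1)) ℂ)) (π : Var J → Var I), (Sing (Var I) 2).Finite →
  Resolution π → ∀ (X : Set (PN N'')) (ν : Var I → X), (∀ x, HolMap ν x) →
  (∀ y, (ν ⁻¹' {y}).Finite) → ∀ (Y G : Type) [TopologicalSpace Y] [Group G] [MulAction G Y]
  (p : Y → X), IsQuotientCoveringMap p G →
  (∀ y, ∀ᶠ y' in 𝓝 y, y' ≠ y → ∃ f, Hol p f ∧ f y ≠ f y') → Concl (Var I) (Sing (Var I) 2) 0

end Pool.Agent.Lib.MP_356dfe_ag.S
end
end

-- part Pool.Agent.Lib.MP_356dfe_ag.S.PCb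
section

/-! Basic facts on resolutions. -/

set_option autoImplicit false

open Set Filter Topology Metric Pool.Agent.Shared.SingHom
open scoped ContDiff Pointwise

noncomputable section

namespace Pool.Agent.Lib.MP_356dfe_ag.S

namespace PCb

open Projectivization

variable {N N' : ℕ} {X : Set (PN N)} {X' : Set (PN N')}

theorem map_cont {f : X → X'} {x : X} (h : HolMap f x) : ContinuousAt f x := by
  classical
  obtain ⟨φ, h1, h2⟩ := h
  obtain ⟨h0, h3⟩ := h2.self_of_nhds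
  rw [Topology.IsInducing.subtypeVal.continuousAt_iff]
  let g : X → {v : Fin (N' + 1) → ℂ // v ≠ 0} := fun y => if h : φ y ≠ 0 then ⟨φ y, h⟩ else ⟨φ x, h0⟩
  have g1 : ∀ y (h : φ y ≠ 0), g y = ⟨φ y, h⟩ := fun y h => dif_pos h
  have g2 : ContinuousAt g x := by
    rw [Topology.IsInducing.subtypeVal.continuousAt_iff]
    refine h1.loc.1.congr (h2.mono fun y ⟨a, _⟩ => ?_)
    simp only [Function.comp_apply, g1 y a]
  refine (cont_mk.continuousAt.comp g2).congr (h2.mono fun y ⟨a, b⟩ => ?_)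
  simp only [Function.comp_apply, g1 y a]
  exact b

theorem hol_comp {E : Type} [NormedAddCommGroup E] [NormedSpace ℂ E] {φ : X' → E} {f : X → X'}
    {x : X} (hφ : HolAt φ (f x)) (h : HolMap f x) : HolAt (φ ∘ f) x := by
  have hc := map_cont h
  obtain ⟨ψ, ⟨G, g1, g2⟩, h2⟩ := h
  obtain ⟨-, F, f1, f2⟩ := hφ.loc
  obtain ⟨h0, h3⟩ := h2.self_of_nhds
  have g3 : ψ x = G x.1.rep := g2.self_of_nhds x.1.rep_nonzero x x.1.mk_rep
  refine ⟨F ∘ G, (f1 _ h0 h3).comp_of_eq g1 g3.symm, ?_⟩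
  filter_upwards [g2, ev_cone (h2.and (hc.eventually f2))] with w a1 a2 hw y e
  obtain ⟨⟨b1, b2⟩, b3⟩ := a2 hw y e
  rw [Function.comp_apply, Function.comp_apply, ← a1 hw y e]
  exact b3 _ b1 b2

theorem exists_form {ι : Type} [Countable ι] {n : ℕ} (v : ι → Fin n → ℂ) (hv : ∀ i, v i ≠ 0) :
    ∃ c : Fin n → ℂ, ∀ i, c ⬝ᵥ v i ≠ 0 := by
  have h : Dense (⋂ i, {c : Fin n → ℂ | c ⬝ᵥ v i ≠ 0}) := by
    refine dense_iInter_of_isOpen (fun i => isOpen_ne_fun (by fun_prop) continuous_const) fun i => ?_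
    let L : Submodule ℂ (Fin n → ℂ) :=
      { carrier := {c | c ⬝ᵥ v i = 0}
        zero_mem' := by simp
        add_mem' := fun {a b} ha hb => by
          simp only [mem_ofPred_eq] at ha hb ⊢
          rw [add_dotProduct, ha, hb, add_zero]
        smul_mem' := fun a b hb => by
          simp only [mem_ofPred_eq] at hb ⊢
          rw [smul_dotProduct, hb, smul_zero] }
    refine (interior_eq_empty_iff_dense_compl (s := (L : Set (Fin n → ℂ)))).1
      (not_nonempty_iff_eq_empty.1 fun hne => ?_)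
    have h1 := Submodule.eq_top_of_nonempty_interior' L hne
    refine hv i (funext fun j => ?_)
    have h2 : Pi.single j (1 : ℂ) ∈ L := h1 ▸ Submodule.mem_top
    have h3 : Pi.single j (1 : ℂ) ⬝ᵥ v i = 0 := h2
    simpa using h3
  obtain ⟨c, hc⟩ := h.nonempty
  exact ⟨c, mem_iInter.1 hc⟩

theorem pn_sc : SecondCountableTopology (PN N) := by
  have := pn_compact (N := N)
  exact (cont_mu.isClosedEmbedding mu_inj).isEmbedding.secondCountableTopology

theorem dense_off {π : X' → X} (R : Resolution π) : Dense (π ⁻¹' Sing X 2)ᶜ := by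
  intro z
  by_cases hz : π z ∈ Sing X 2
  swap
  · exact subset_closure hz
  obtain ⟨e, -, h1, h2, h3⟩ := R.nc z hz
  have h4 : Tendsto (fun t : ℂ => (fun _ => t : Fin 2 → ℂ)) (𝓝[≠] 0) (𝓝 (e z)) := by
    rw [h2]
    exact (Continuous.tendsto' (f := fun t : ℂ => (fun _ => t : Fin 2 → ℂ)) (by fun_prop) 0 0
      rfl).mono_left nhdsWithin_le_nhds
  refine mem_closure_of_tendsto ((e.tendsto_symm h1).comp h4) ?_
  filter_upwards [h4.eventually (e.open_target.mem_nhds (e.map_source h1)), self_mem_nhdsWithin]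
    with t a1 a2 a3
  have a4 := e.map_target a1
  have a5 := e.right_inv a1
  rcases h3 with h3 | h3
  · have := (h3 _ a4).1 a3
    rw [a5] at this
    exact a2 this
  · have := (h3 _ a4).1 a3
    rw [a5] at this
    exact a2 (mul_self_eq_zero.1 this)

theorem an_dot (c v : Fin (N + 1) → ℂ) : AnalyticAt ℂ (fun w => c ⬝ᵥ w) v :=
  Finset.analyticAt_fun_sum _ fun j _ => analyticAt_const.mul (analyticAt_pi_iff.1 analyticAt_id j)

theorem ell {π : X' → X} (R : Resolution π) (hS : (Sing X 2).Finite) :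
    ∃ O : Set X, IsOpen O ∧ Sing X 2 ⊆ O ∧ ∃ h : X' → ℂ, ∀ z, π z ∈ O →
      (∀ e : OpenPartialHomeomorph X' E2, IsChart e → z ∈ e.source →
        AnalyticAt ℂ (h ∘ e.symm) (e z)) ∧ (π z ∈ Sing X 2 → h z = 0) ∧
          ¬ ∀ᶠ w in 𝓝 z, h w = 0 := by
  have := pn_sc (N := N')
  have := hS.to_subtype
  obtain ⟨D, d1, d2, d3⟩ := (dense_off R).exists_countable_dense_subset
  have := d2.to_subtype
  obtain ⟨l, hl⟩ := exists_form (fun s : Sing X 2 => s.1.1.rep) fun s => s.1.1.rep_nonzero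
  obtain ⟨c, hc⟩ := exists_form (fun p : Sing X 2 × D => (l ⬝ᵥ p.1.1.1.rep) • (π p.2.1).1.rep -
      (l ⬝ᵥ (π p.2.1).1.rep) • p.1.1.1.rep) fun p h0 => d1 p.2.2 (by
    have h1 : π p.2.1 = p.1.1 := by
      refine Subtype.ext ?_
      rw [← (π p.2.1).1.mk_rep, ← p.1.1.1.mk_rep, mk_eq_mk_iff']
      refine ⟨(l ⬝ᵥ p.1.1.1.rep)⁻¹ * (l ⬝ᵥ (π p.2.1).1.rep), ?_⟩
      rw [mul_smul, ← sub_eq_zero.1 h0, smul_smul, inv_mul_cancel₀ (hl p.1), one_smul]
    rw [mem_preimage, h1]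
    exact p.1.2)
  let F : (Fin (N + 1) → ℂ) → ℂ := fun v => ∏ s ∈ hS.toFinset,
    ((l ⬝ᵥ s.1.rep) * (c ⬝ᵥ v / l ⬝ᵥ v) - c ⬝ᵥ s.1.rep)
  have F1 : ∀ (a : ℂ) v, a ≠ 0 → F (a • v) = F v := fun a v ha => by
    simp only [F, dotProduct_smul, smul_eq_mul, mul_div_mul_left _ _ ha]
  have hO : IsOpen {y : X | l ⬝ᵥ y.1.rep ≠ 0} := by
    refine IsOpen.preimage continuous_subtype_val (t := {y : PN N | l ⬝ᵥ y.rep ≠ 0})
      (isOpen_coinduced.2 ?_)
    rw [show mk' ℂ ⁻¹' {y : PN N | l ⬝ᵥ y.rep ≠ 0} = {v | l ⬝ᵥ v.1 ≠ 0} from Set.ext fun v =>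
      iff_of_eq (rep_mk (f := fun w => l ⬝ᵥ w ≠ 0) (fun a w ha => by simp [ha]) v.1 v.2)]
    exact isOpen_ne_fun (by fun_prop) continuous_const
  refine ⟨_, hO, fun s hs => hl ⟨s, hs⟩, (fun y : X => F y.1.rep) ∘ π, fun z hz =>
    ⟨fun e he hze => (hol_comp ⟨F, ?_, .of_forall fun w hw y hy => ?_⟩ (R.hol z)).an he hze,
      fun hs => ?_, fun h0 => ?_⟩⟩
  · exact Finset.analyticAt_fun_prod _ fun s _ =>
      (analyticAt_const.mul ((an_dot c _).div (an_dot l _) hz)).sub analyticAt_const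
  · rw [← hy]
    exact rep_mk F1 w hw
  · refine Finset.prod_eq_zero (hS.mem_toFinset.2 hs) ?_
    rw [mul_div_cancel₀ _ hz, sub_self]
  · obtain ⟨d, ⟨a1, a2⟩, a3⟩ := mem_closure_iff_nhds.1 (d3 z) _
      (h0.and ((map_cont (R.hol z)).eventually (hO.mem_nhds hz)))
    obtain ⟨s, hs, a4⟩ := Finset.prod_eq_zero_iff.1 a1
    refine hc (⟨s, hS.mem_toFinset.1 hs⟩, ⟨d, a3⟩) ?_
    replace a2 : l ⬝ᵥ (π d).1.rep ≠ 0 := a2
    simp only [dotProduct_sub, dotProduct_smul, smul_eq_mul]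
    field_simp at a4
    linear_combination a4

end PCb

open PCb in
theorem cbS : CbS := by
  intro N N' I J π hS R
  have := pn_t2 (N := N)
  have hc : Continuous π := continuous_iff_continuousAt.2 fun z => map_cont (R.hol z)
  obtain ⟨ι, hι⟩ := R.inv
  have i1 : ∀ z, π z ∉ Sing (Var I) 2 → ι (π z) = z := fun z hz => (((hι _ hz).2 z).1 rfl).symm
  have i2 : ∀ x ∉ Sing (Var I) 2, π (ι x) = x := fun x hx => ((hι x hx).2 _).2 rfl
  have i3 : ∀ x ∉ Sing (Var I) 2, ∀ᶠ y in 𝓝 x, y ∉ Sing (Var I) 2 := fun x hx =>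
    hS.isClosed.isOpen_compl.mem_nhds hx
  refine ⟨hc, ?_, fun φ z e hφ he hz => (hol_comp hφ (R.hol z)).an he hz, ?_, ?_, ell R hS⟩
  · refine .of_continuous_injective_isOpenMap (hc.comp continuous_subtype_val)
      (fun z z' h => Subtype.ext ?_) (isOpenMap_iff_nhds_le.2 fun z s hs => ?_)
    · rw [← i1 z.1 z.2, ← i1 z'.1 z'.2]
      exact congrArg ι h
    · obtain ⟨t, ht, hts⟩ := (mem_nhds_subtype _ _ _).1 (mem_map.1 hs)
      rw [← i1 z.1 z.2] at ht
      filter_upwards [map_cont (hι _ z.2).1 ht, i3 _ z.2] with y a1 a2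
      have a3 : π (ι y) ∈ s := hts (a := ⟨ι y, by rw [mem_compl_iff, mem_preimage, i2 y a2]; exact a2⟩) a1
      rwa [i2 y a2] at a3
  · intro r r1 r2 z e he hz
    obtain ⟨ψ, h1, h2⟩ := R.hol z
    obtain ⟨h0, -⟩ := h2.self_of_nhds
    have h3 : ContDiffAt ℝ ∞ (ψ ∘ e.symm) (e z) := (h1.an he hz).contDiffAt.restrict_scalars ℝ
    refine ((r1 _ (by simpa only [Function.comp_apply, e.left_inv hz] using h0)).comp _
      h3).congr_of_eventuallyEq ?_
    filter_upwards [symm_eventually e hz h2] with u ⟨a1, a2⟩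
    simp only [Function.comp_apply]
    rw [← a2]
    exact rep_mk r2 _ a1
  · intro ρ ε Rg z e he hz p1 p2 hd h0
    have hx : π z ∉ Sing (Var I) 2 := fun h => p1.ne' ((Rg.zero _).2 h)
    obtain ⟨e', he', hz'⟩ := Rg.ch _ hx
    refine Rg.reg e' he' _ hz' p1 p2 ?_
    have h1 : AnalyticAt ℂ ((e ∘ ι) ∘ e'.symm) (e' (π z)) :=
      (hol_comp (by rw [i1 z hx]; exact he.1 z hz) (hι _ hx).1).an he' hz'
    have h2 : ((e ∘ ι) ∘ e'.symm) (e' (π z)) = e z := by
      simp only [Function.comp_apply, e'.left_inv hz', i1 z hx]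
    have h3 := hd.hasFDerivAt
    rw [h0, ← h2] at h3
    have h4 := h3.comp _ (h1.differentiableAt.restrictScalars ℝ).hasFDerivAt
    rw [ContinuousLinearMap.zero_comp] at h4
    refine (h4.congr_of_eventuallyEq ?_).fderiv
    have h5 : ∀ᶠ y in 𝓝 (π z), ι y ∈ e.source :=
      map_cont (hι _ hx).1 (e.open_source.mem_nhds (by rw [i1 z hx]; exact hz))
    filter_upwards [symm_eventually e' hz' (h5.and (i3 _ hx))] with u ⟨a1, a2⟩
    simp only [Function.comp_apply, e.left_inv a1, i2 _ a2]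

end Pool.Agent.Lib.MP_356dfe_ag.S
end
end

-- part Pool.Agent.Lib.MP_356dfe_ag.S.PLift
section

/-! Lifting the geometric data. -/

set_option autoImplicit false

open Set Filter Topology Metric Pool.Agent.Shared.SingHom
open scoped ContDiff Pointwise

noncomputable section

namespace Pool.Agent.Lib.MP_356dfe_ag.S

namespace PLift

variable {G Z M : Type} [Group G] [TopologicalSpace Z] [MulAction G Z] [TopologicalSpace M]
  {m : ℕ} {q : Z → M} {A : KA M (Fin m)} {A' : KA Z (Vx G m)}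

theorem exists_j (hq : IsLocalHomeomorph q) (hs : Function.Surjective q) {C' : Set Z} {C : Set M}
    (ho : IsOpen C') (hb : BijOn q C' C) :
    ∃ j : OpenPartialHomeomorph Z M, j.source = C' ∧ j.target = C ∧ ⇑j = q := by
  have h : ∀ y, ∃ z, q z = y ∧ (y ∈ C → z ∈ C') := fun y => by
    by_cases hy : y ∈ C
    · obtain ⟨z, h1, h2⟩ := hb.surjOn hy
      exact ⟨z, h2, fun _ => h1⟩
    · obtain ⟨z, h1⟩ := hs y
      exact ⟨z, h1, fun h => (hy h).elim⟩
  choose s h1 h2 using h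
  exact ⟨OpenPartialHomeomorph.ofContinuousOpen
    ⟨q, s, C', C, fun _ h => hb.mapsTo h, fun y h => h2 y h,
      fun z h => hb.injOn (h2 _ (hb.mapsTo h)) h (h1 _), fun y _ => h1 y⟩
    hq.continuous.continuousOn hq.isOpenMap ho, rfl, rfl, rfl⟩

theorem q_symm (h : IsLift q A A') (l : Vx G m) {x : E2} (hx : x ∈ ball (0 : E2) 4) :
    q ((A'.e l).symm x) = (A.e l.2).symm x := by
  obtain ⟨h1, h2⟩ := h.e l _ (A'.symm_mem l hx)
  rw [← (A.e l.2).left_inv h1, ← h2, A'.e_symm l hx]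

theorem comp_symm (h : IsLift q A A') {l : Vx G m} {z : Z} (hz : z ∈ A'.src l) {W : Type}
    {U : M → W} {U' : Z → W} (e : ∀ᶠ w in 𝓝 z, U' w = U (q w)) :
    U' ∘ (A'.e l).symm =ᶠ[𝓝 (A.e l.2 (q z))] U ∘ (A.e l.2).symm := by
  rw [← (h.e l z hz).2]
  filter_upwards [A'.ev_symm hz e, isOpen_ball.mem_nhds (A'.map_src hz)] with x h1 h2
  rw [Function.comp_apply, h1, q_symm h l h2, Function.comp_apply]

theorem sm (h : IsLift q A A') {U : M → ℝ} {z : Z} (hU : A.Sm U (q z)) :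
    A'.Sm (fun w => U (q w)) z := fun l hl => by
  rw [(h.e l z hl).2]
  exact (hU l.2 (h.e l z hl).1).congr_of_eventuallyEq (comp_symm h hl (.of_forall fun _ => rfl))

theorem an (h : IsLift q A A') {U : M → ℂ} {U' : Z → ℂ} {z : Z} (hU : A.An U (q z))
    (e : ∀ᶠ w in 𝓝 z, U' w = U (q w)) : A'.An U' z := fun l hl => by
  rw [(h.e l z hl).2]
  exact (hU l.2 (h.e l z hl).1).congr_of_eventuallyEq (comp_symm h hl e)

theorem good (h : IsLift q A A') (hq : IsLocalHomeomorph q) (hs : Function.Surjective q)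
    {C' : Set Z} {C : Set M} (ho : IsOpen C') (hb : BijOn q C' C) (hC : A.Good C) :
    A'.Good C' := by
  obtain ⟨j, rfl, rfl, rfl⟩ := exists_j hq hs ho hb
  obtain ⟨κ, h1, h2, h3⟩ := hC
  have ht : ∀ x, κ.symm x ∈ j.target := fun x => h2 ▸ κ.map_target (h3 ▸ mem_univ x)
  refine ⟨j.trans κ, fun l z hz hl => ⟨?_, ?_⟩, ?_, ?_⟩
  · rw [(h.e l z hl).2]
    exact (h1 l.2 _ hz.2 (h.e l z hl).1).1.congr_of_eventuallyEq
      (comp_symm h hl (.of_forall fun _ => rfl))
  · refine (h1 l.2 _ hz.2 (h.e l z hl).1).2.congr_of_eventuallyEq ?_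
    filter_upwards [((j.trans κ).tendsto_symm hz).eventually ((A'.e l).open_source.mem_nhds hl)]
      with x hx
    rw [Function.comp_apply, (h.e l _ hx).2, Function.comp_apply]
    exact congrArg _ (j.right_inv (ht x))
  · rw [OpenPartialHomeomorph.trans_source, h2]
    exact inter_eq_left.2 fun z hz => j.map_source hz
  · rw [OpenPartialHomeomorph.trans_target, h3]
    exact eq_univ_of_forall fun x => ⟨trivial, ht x⟩

theorem good_conn {C : Set M} (h : C.Nonempty → A.Good C) : IsPreconnected C := by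
  rcases C.eq_empty_or_nonempty with rfl | hC
  · exact isPreconnected_empty
  obtain ⟨κ, -, rfl, h3⟩ := h hC
  rw [← κ.symm_image_target_eq_source]
  exact (h3 ▸ isPreconnected_univ : IsPreconnected κ.target).image _ κ.continuousOn_symm

theorem nbh (h : IsLift q A A') (hq : IsLocalHomeomorph q) (hs : Function.Surjective q)
    {ρ : M → ℝ} {a b : ℝ} {B : Set M} (hB : Nbh A ρ a b B) {N : Set Z} (ho : IsOpen N)
    (hb : BijOn q N B) : Nbh A' (fun z => ρ (q z)) a b N := by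
  obtain ⟨j, rfl, rfl, rfl⟩ := exists_j hq hs ho hb
  have hE : ∀ z, z ∈ A'.E ↔ j z ∈ A.E := fun z => by rw [h.E]; rfl
  refine ⟨fun z => sm h (hB.sm _), fun z => hB.nn _, fun z => (hB.zero _).trans (hE z).symm,
    hB.pos, hB.lt, ho, fun z hz => hB.sub _ (j.map_source hz), fun c hc => ?_,
    fun l hl z hz => hB.small l.2 (h.act l ▸ hl) _ (h.e l z hz).1, fun a₁ a₂ h1 h2 h3 => ?_, ?_⟩
  · have := (hB.cpt c hc).image_of_continuousOn (j.continuousOn_symm.mono inter_subset_left)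
    convert this using 1
    refine Subset.antisymm (fun z hz => ⟨j z, ⟨j.map_source hz.1, hz.2⟩, j.left_inv hz.1⟩) ?_
    rintro _ ⟨y, hy, rfl⟩
    exact ⟨j.map_target hy.1, show ρ (j (j.symm y)) ≤ c by rw [j.right_inv hy.1]; exact hy.2⟩
  · obtain ⟨r, r1, r2, r3⟩ := hB.ret a₁ a₂ h1 h2 h3
    have hm : ∀ z ∈ j.source \ A'.E, j z ∈ j.target \ A.E := fun z hz =>
      ⟨j.map_source hz.1, fun h' => hz.2 ((hE z).2 h')⟩
    refine ⟨fun z => j.symm (r (j z)), j.continuousOn_symm.comp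
      (r1.comp hq.continuous.continuousOn hm) fun z hz => (r2 _ (hm z hz)).1, fun z hz => ?_,
      fun z hz h' => ?_⟩
    · obtain ⟨s1, s2⟩ := r2 _ (hm z hz)
      simp only [j.right_inv s1]
      exact ⟨j.map_target s1, s2⟩
    · simp only [r3 _ (j.map_source hz) h', j.left_inv hz]
  · obtain ⟨f, hf⟩ := hB.ell
    refine ⟨fun z => f (j z), fun z hz => ?_⟩
    obtain ⟨f1, f2, f3⟩ := hf _ (j.map_source hz)
    refine ⟨an h f1 (.of_forall fun _ => rfl), fun h' => f2 ((hE z).1 h'), fun h' => f3 ?_⟩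
    rw [← hq.map_nhds_eq z]
    exact h'

end PLift

theorem lift (hk : LiftK) (hv : LiftV) : Lift := by
  intro G Z M _ _ _ _ _ _ _ q hq m n A ρ a b V hN hD s1 s2 s3 hsep hsc
  obtain ⟨A', h⟩ := hk G Z M q hq m A s1
  obtain ⟨V', N, n1, n2, -, n4, v1, v2, v3, v4, v5, v6⟩ := hv G Z M q hq n V _
    (fun i => ⟨hD.op i, s2 i⟩) hN.op s3 fun s hs =>
      ⟨PLift.good_conn (hD.good s hs), PLift.good_conn (hD.goodB s hs)⟩
  have hl := hq.isCoveringMap.isLocalHomeomorph
  have hs := hq.surjective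
  have ho : ∀ σ : Finset (Vx G n), IsOpen (VV V' σ) := fun σ =>
    isOpen_biInter_finset fun l _ => (v1 l).1
  have hE : ∀ z, z ∈ A'.E ↔ q z ∈ A.E := fun z => by rw [h.E]; rfl
  refine ⟨⟨A', fun z => ρ (q z), a, b, V', N, inferInstance, hq.continuous_const_smul, h.ty_sm,
    h.src_sm, h.e_sm, h.symm_sm, fun g z => ?_, PLift.nbh h hl hs hN n1 n2, n4, fun l => (v1 l).1,
    v2, fun l => (v1 l).2, by rw [v3, hD.cov]; rfl, v4, fun σ h1 h2 => ?_, fun σ h1 h2 => ?_,
    fun z hz => ?_, h.E ▸ hsc⟩, v6⟩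
  · rw [hq.apply_eq_iff_mem_orbit.2 ⟨g, rfl⟩]
  · have hb := v5 σ h1 h2
    exact PLift.good h hl hs (ho σ) hb (hD.good _ (h1.image _) (hb.mapsTo.nonempty h2))
  · have hb := v5 σ h1 (h2.mono inter_subset_left)
    have hb' : BijOn q (VV V' σ ∩ {z | ρ (q z) < b})
        (VV V (σ.image fun l => l.2) ∩ {z | ρ z < b}) :=
      ⟨fun z hz => ⟨hb.mapsTo hz.1, hz.2⟩, hb.injOn.mono inter_subset_left, fun y hy => by
        obtain ⟨z, hz, rfl⟩ := hb.surjOn hy.1
        exact ⟨z, ⟨hz, hy.2⟩, rfl⟩⟩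
    exact PLift.good h hl hs ((ho σ).inter (hN.op.preimage hl.continuous)) hb'
      (hD.goodB _ (h1.image _) (hb'.mapsTo.nonempty h2))
  · filter_upwards [hsep z fun h' => hz ((hE z).2 h')] with z' hz' e
    obtain ⟨f, f1, f2⟩ := hz' e
    exact ⟨f, fun w => (f1 w).elim fun φ hφ => PLift.an h hφ.1 hφ.2, f2⟩

end Pool.Agent.Lib.MP_356dfe_ag.S
end
end

-- part Pool.Agent.Lib.MP_356dfe_ag.S.Stm4
section

/-! Statements on the covering space that is built from a finite open cover. -/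

set_option autoImplicit false

open Set Filter Topology

noncomputable section

namespace Pool.Agent.Lib.MP_356dfe_ag.S

/-- systems on `U` that are constant along `E` have primitives on `U` -/
def PrimOn {M : Type} [TopologicalSpace M] (U E : Set M) : Prop :=
  ∀ f : M → M → ℂ, LPS U f → (∀ z ∈ U ∩ E, ∀ᶠ w in 𝓝 z, w ∈ E → f z w = f z z) →
    ∃ F, Prim U f F ∧ (F '' (U ∩ E)).Countable

/-- primitives near the zero set of a function without small critical values -/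
def Cone : Prop := ∀ (M : Type) [TopologicalSpace M] [T2Space M] [CompactSpace M] (ρ : M → ℝ)
  (δ b : ℝ), Continuous ρ → (∀ z, 0 ≤ ρ z) → (∀ z, 0 < ρ z → ρ z < δ → Reg ρ z) → 0 < b → b < δ →
  PrimOn {z | ρ z < b} {z | ρ z = 0}

/-- a Galois covering that is trivial over the sets `U i` and universal with this property -/
structure UCov (G : Type) {ι M Z : Type} [TopologicalSpace M] [Group G] [TopologicalSpace Z]
    [MulAction G Z] (U : ι → Set M) (q : Z → M) (s : ι → M → Z) : Prop where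
  op : ∀ i, IsOpen (U i)
  all : ∀ x, ∃ i, x ∈ U i
  cov : IsQuotientCoveringMap q G
  cont : ∀ i, ContinuousOn (s i) (U i)
  sec : ∀ i x, q (s i x) = x
  small : ∀ i, Small q G (U i)
  glue : ∀ (H W : Type) [Group H] [MulAction H W] [IsCancelSMul H W] (φ : G → ι → M → W),
    (∀ (g : G) i (g' : G) j, (∀ y ∈ U i ∩ U j, g • s i y = g' • s j y) →
      ∃ h : H, ∀ y ∈ U i ∩ U j, φ g i y = h • φ g' j y) →
    ∃ F : Z → W, ∀ (g : G) i, ∃ h : H, ∀ y ∈ U i, F (g • s i y) = h • φ g i y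

/-- existence of the covering -/
def UC : Prop := ∀ (ι M : Type) [Finite ι] [TopologicalSpace M] [T2Space M] [CompactSpace M]
  (U : ι → Set M), (∀ i, IsOpen (U i)) → (∀ x, ∃ i, x ∈ U i) →
  ∃ (G Z : Type) (_ : Group G) (_ : Countable G) (_ : TopologicalSpace Z) (_ : MulAction G Z)
    (q : Z → M) (s : ι → M → Z), UCov G U q s

/-- global primitives on the covering -/
def USC : Prop := ∀ (G ι M Z : Type) [Countable ι] [TopologicalSpace M] [Group G] [Countable G]
  [TopologicalSpace Z] [MulAction G Z] (U : ι → Set M) (q : Z → M) (s : ι → M → Z) (E : Set M),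
  UCov G U q s → (∀ i j, i ≠ j → IsPreconnected (U i ∩ U j)) → (∀ i, PrimOn (U i) E) →
  SC (q ⁻¹' E)

/-- maps to the base of another Galois covering lift -/
def ULift : Prop := ∀ (G ι M Z : Type) [TopologicalSpace M] [Group G] [TopologicalSpace Z]
  [MulAction G Z] (U : ι → Set M) (q : Z → M) (s : ι → M → Z), UCov G U q s →
  (∀ i j, i ≠ j → IsPreconnected (U i ∩ U j)) → ∀ (H X Y : Type) [Group H] [TopologicalSpace X]
  [TopologicalSpace Y] [MulAction H Y] (p : Y → X) (f : M → X), IsQuotientCoveringMap p H →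
  (∀ i, ∃ σ : M → Y, ContinuousOn σ (U i) ∧ ∀ y ∈ U i, p (σ y) = f y) →
  ∃ F : Z → Y, Continuous F ∧ ∀ z, p (F z) = f (q z)

end Pool.Agent.Lib.MP_356dfe_ag.S
end
end

-- part Pool.Agent.Lib.MP_356dfe_ag.S.PFinal
section

/-! The final assembly. -/

set_option autoImplicit false

open Set Filter Topology Metric Pool.Agent.Shared.SingHom
open scoped ContDiff Pointwise

noncomputable section

namespace Pool.Agent.Lib.MP_356dfe_ag.S

namespace PFinal

theorem sec_fin {X Y : Type} [TopologicalSpace X] [T2Space X] [TopologicalSpace Y] {p : Y → X}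
    (hp : IsLocalHomeomorph p) (hs : Function.Surjective p) {T : Set X} (hT : T.Finite)
    (y₀ : Y) : ∃ O, IsOpen O ∧ T ⊆ O ∧ ∃ σ : X → Y, ContinuousOn σ O ∧ ∀ x ∈ O, p (σ x) = x := by
  classical
  obtain ⟨O', h1, h2⟩ := hT.t2_separation
  choose y hy using hs
  choose e he he' using hp
  refine ⟨⋃ t ∈ T, O' t ∩ (e (y t)).target, isOpen_biUnion fun t _ =>
    (h1 t).2.inter (e _).open_target, fun t ht => mem_biUnion ht ⟨(h1 t).1, ?_⟩,
    fun x => if h : ∃ t ∈ T, x ∈ O' t then (e (y h.choose)).symm x else y₀, ?_, ?_⟩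
  · have := (e (y t)).map_source (he _)
    rwa [← he', hy] at this
  all_goals
    have key : ∀ t ∈ T, ∀ x ∈ O' t, (if h : ∃ t ∈ T, x ∈ O' t then (e (y h.choose)).symm x
        else y₀) = (e (y t)).symm x := fun t ht x hx => by
      have h : ∃ t ∈ T, x ∈ O' t := ⟨t, ht, hx⟩
      rw [dif_pos h, h2.elim h.choose_spec.1 ht (not_disjoint_iff.2 ⟨x, h.choose_spec.2, hx⟩)]
    intro x hx
    simp only [mem_iUnion] at hx
    obtain ⟨t, ht, hx, hx'⟩ := hx
  · exact (((e (y t)).continuousAt_symm hx').congr (mem_of_superset ((h1 t).2.mem_nhds hx)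
      fun w hw => (key t ht w hw).symm)).continuousWithinAt
  · simp only [key t ht x hx]
    rw [he' (y t), (e (y t)).right_inv hx']

variable {M Λ : Type} [TopologicalSpace M] {A : KA M Λ}

theorem good_acyc {C : Set M} (h : A.Good C) : Acyc C := by
  obtain ⟨κ, -, rfl, h3⟩ := h
  have e := κ.symm.isOpenEmbedding h3
  rw [← κ.symm_image_target_eq_source, h3]
  exact (acyc_image_iff ⟨_, e.continuous⟩ e.isEmbedding).2
    (acyc_of_starConvex (mem_univ 0) (starConvex_univ 0))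

theorem good_prim (hp : PrimS) {C E : Set M} (h : C.Nonempty → A.Good C) (hE : Disjoint C E) :
    PrimOn C E := by
  intro f hf _
  rw [hE.inter_eq]
  rcases C.eq_empty_or_nonempty with rfl | hC
  · exact ⟨0, fun _ h => h.elim, by simp⟩
  obtain ⟨κ, -, rfl, h3⟩ := h hC
  have e := (κ.symm.isOpenEmbedding h3).continuous
  obtain ⟨F, hF⟩ := hp E2 ℂ (fun y x => f (κ.symm y) (κ.symm x)) fun y _ =>
    (e.continuousAt.eventually (hf _ (κ.map_target (h3 ▸ mem_univ y)))).mono fun y' ⟨c, hc⟩ =>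
      ⟨c, e.continuousAt.eventually hc⟩
  refine ⟨fun w => F (κ w), fun y hy => ?_, by simp⟩
  obtain ⟨c, hc⟩ := hF (κ y) trivial
  refine ⟨c, ?_⟩
  filter_upwards [(κ.continuousAt hy).eventually hc, κ.open_source.mem_nhds hy] with w h1 h2
  rw [h1, κ.left_inv hy, κ.left_inv h2]

theorem push {X : Type} [TopologicalSpace X] {π : M → X} {O : Set M}
    (h : IsOpenEmbedding fun z : O => π z.1) {n : ℕ} {W : Fin n → Set M} (h1 : ∀ i, W i ⊆ O)
    (h2 : Acv W) : Acv (fun i => π '' W i) ∧ nerve (fun i => π '' W i) = nerve W := by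
  have inj : InjOn π O := fun x hx y hy e => congrArg Subtype.val (@h.injective ⟨x, hx⟩ ⟨y, hy⟩ e)
  have e1 : ∀ s : Finset (Fin n), s.Nonempty → VV (fun i => π '' W i) s = π '' VV W s :=
    fun s ⟨i, hi⟩ => Subset.antisymm (fun x hx => by
      obtain ⟨y, hy, rfl⟩ := mem_iInter₂.1 hx i hi
      refine ⟨y, mem_iInter₂.2 fun j hj => ?_, rfl⟩
      obtain ⟨y', hy', e⟩ := mem_iInter₂.1 hx j hj
      rwa [inj (h1 i hy) (h1 j hy') e.symm]) (by
      rintro _ ⟨y, hy, rfl⟩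
      exact mem_iInter₂.2 fun j hj => ⟨y, mem_iInter₂.1 hy j hj, rfl⟩)
  have e2 : ∀ B ⊆ O, (fun z : O => π z.1) '' (Subtype.val ⁻¹' B) = π '' B := fun B hB => by
    rw [← image_image π, Subtype.image_preimage_coe, inter_eq_right.2 hB]
  refine ⟨⟨fun i => (e2 _ (h1 i) ▸ h.isOpenMap _ ((h2.1 i).preimage continuous_subtype_val) :
    IsOpen (π '' W i)),
    fun s hs h3 => ?_⟩, ?_⟩
  · obtain ⟨i, hi⟩ := id hs
    have h4 : VV W s ⊆ O := (biInter_subset_of_mem hi).trans (h1 i)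
    rw [e1 s hs] at h3 ⊢
    rw [← e2 _ h4]
    refine (acyc_image_iff ⟨_, h.continuous⟩ h.isEmbedding).2
      ((acyc_image_iff ⟨_, continuous_subtype_val⟩ IsEmbedding.subtypeVal).1 ?_)
    rw [ContinuousMap.coe_mk, Subtype.image_preimage_coe, inter_eq_right.2 h4]
    exact h2.2 s hs h3.of_image
  · ext s
    simp only [nerve, Finset.mem_filter, Finset.mem_univ, true_and]
    exact and_congr_right fun hs => (e1 s hs ▸ image_nonempty : (VV (fun i => π '' W i) s).Nonempty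
      ↔ (VV W s).Nonempty)

omit [TopologicalSpace M] in
theorem VV_inter {ι : Type} (V : ι → Set M) (B : Set M) {s : Finset ι} (hs : s.Nonempty) :
    VV (fun i => V i ∩ B) s = VV V s ∩ B := by
  obtain ⟨i, hi⟩ := hs
  ext x
  simp only [VV, mem_iInter, mem_inter_iff]
  exact ⟨fun h => ⟨fun j hj => (h j hj).1, (h i hi).2⟩, fun h j hj => ⟨h.1 j hj, h.2⟩⟩

end PFinal

open PFinal in
theorem final (hr : RugS) (hc : CbS) (hk : Kam) (ht : Ret) (ho : Top) (hp : PrimS)
    (h1 : Cone) (h2 : UC) (h3 : USC) (h4 : ULift) (hl : Lift) (hu : UP)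
    (hg : ∀ (M : Type) [TopologicalSpace M] [T2Space M] [CompactSpace M]
      (m : ℕ) (A : KA M (Fin m)), A.Bas ∧ A.Bump ∧ A.GoodE) : Final := by
  intro N N' N'' I J π hS hπ X ν hν hfin Y H _ _ _ p hq hY
  classical
  have := pn_t2 (N := N)
  have := pn_t2 (N := N')
  have := pn_t2 (N := N'')
  have := var_compact (I := I)
  have := var_compact (I := J)
  have cb := hc N N' I J π hS hπ
  have cν : Continuous ν := continuous_iff_continuousAt.2 fun x => PCb.map_cont (hν x)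
  obtain ⟨r, r1, r2, ε, R₀⟩ := hr N I hS
  obtain ⟨δ, R, -, -, hZ⟩ := R₀.cones ctx_triv.cov
  clear R₀
  have sm : ∀ z (e : OpenPartialHomeomorph (Var J) E2), IsChart e → z ∈ e.source →
    ContDiffAt ℝ ∞ (((fun y : Var I => r y.1.rep) ∘ π) ∘ e.symm) (e z) := cb.sm r r1 r2
  obtain ⟨ρ, hρ⟩ : ∃ ρ : Var I → ℝ, (fun y : Var I => r y.1.rep) = ρ := ⟨_, rfl⟩
  replace hZ : ∀ m, Z {x | ρ x < δ} (m + 2) ≤ B {x | ρ x < δ} (m + 2) := hρ ▸ hZ
  rw [hρ] at R sm
  have cρ : Continuous (ρ ∘ π) := R.cont.comp cb.cont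
  have fd : ∀ z (e : OpenPartialHomeomorph (Var J) E2), IsChart e → z ∈ e.source → 0 < ρ (π z) →
      ρ (π z) < δ → fderiv ℝ ((ρ ∘ π) ∘ e.symm) (e z) ≠ 0 := fun z e he hz a1 a2 =>
    cb.reg ρ δ R z e he hz a1 a2 ((sm z e he hz).differentiableAt (by simp))
  have rg : ∀ z, 0 < (ρ ∘ π) z → (ρ ∘ π) z < δ → Reg (ρ ∘ π) z := fun z a1 a2 => by
    obtain ⟨e, he, hz⟩ : ∃ e : OpenPartialHomeomorph (Var J) E2, IsChart e ∧ z ∈ e.source :=
      by_contra fun h => (hπ.smooth ▸ h : z ∈ (∅ : Set (Var J)))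
    exact ⟨_, _, _, inferInstance, e, hz, (sm z e he hz).of_le (by simp), fd z e he hz a1 a2⟩
  have sec : ∀ T : Set (Var I), T.Finite → ∃ O, IsOpen O ∧ T ⊆ O ∧ ∃ σ : Var J → Y,
      ContinuousOn σ (π ⁻¹' O) ∧ ∀ z ∈ π ⁻¹' O, p (σ z) = ν (π z) := fun T hT => by
    rcases isEmpty_or_nonempty (Var I) with h | ⟨⟨x⟩⟩
    · exact ⟨univ, isOpen_univ, subset_univ _, fun z => h.elim (π z), fun z => h.elim (π z),
        fun z => h.elim (π z)⟩
    obtain ⟨O, a1, a2, σ, a3, a4⟩ := sec_fin hq.isCoveringMap.isLocalHomeomorph hq.surjective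
      (hT.image ν) (hq.surjective (ν x)).choose
    exact ⟨ν ⁻¹' O, a1.preimage cν, image_subset_iff.1 a2, σ ∘ ν ∘ π,
      a3.comp (cν.comp cb.cont).continuousOn fun _ h => h, fun z hz => a4 _ hz⟩
  obtain ⟨O₁, o1, o2, ℓ, hℓ⟩ := cb.ell
  obtain ⟨O₂, o3, o4, σ₀, o5, o6⟩ := sec _ hS
  obtain ⟨c, c0, c1⟩ := (o1.inter o3).isClosed_compl.isCompact.exists_forall_le' R.cont.continuousOn
    fun x hx => R.lt fun h => hx ⟨o2 h, o4 h⟩
  obtain ⟨b, b0, b1⟩ := exists_between (lt_min c0 R.pos)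
  obtain ⟨a, a0, ab⟩ := exists_between b0
  have bδ : b < δ := b1.trans_le (min_le_right _ _)
  have bO : ∀ x, ρ x < b → x ∈ O₁ ∩ O₂ := fun x hx => by_contra fun h =>
    (c1 x h).not_gt (hx.trans (b1.trans_le (min_le_left _ _)))
  have oB : IsOpen {z | (ρ ∘ π) z < b} := isOpen_lt cρ continuous_const
  have data : ∀ U : Var J → Set (Var J), (∀ x, U x ∈ 𝓝 x) → ∃ (m : ℕ) (A : KA (Var J) (Fin m))
      (n : ℕ) (V : Fin n → Set (Var J)), A.E = π ⁻¹' Sing (Var I) 2 ∧
      (∀ l, IsChart (A.e l) ∧ ∃ x, A.src l ⊆ U x) ∧ Nbh A (ρ ∘ π) a b {z | (ρ ∘ π) z < b} ∧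
      Down A (ρ ∘ π) a b V ∧ ∀ i, ∃ x, V i ⊆ U x := fun U hU => by
    obtain ⟨m, A, e1, e2⟩ := hk N N' I J π hS hπ cb.cont
      (fun x => U x ∩ {z | π x ∈ Sing (Var I) 2 → ρ (π z) < a}) fun x => inter_mem (hU x) (by
        by_cases hx : π x ∈ Sing (Var I) 2
        · exact mem_of_superset ((isOpen_lt cρ continuous_const).mem_nhds
            (((R.zero _).2 hx).trans_lt a0)) fun z hz _ => hz
        · exact univ_mem' fun z h => absurd h hx)
    have sA : A.SM (ρ ∘ π) := fun z l hz => sm z _ (e2 l).1 hz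
    have rl : ∀ t, 0 < t → t < δ → A.RegL (ρ ∘ π) t := fun t t0 t1 z hz =>
      ⟨_, A.mem_i z, fd z _ (e2 _).1 (A.mem_i z) (t0.trans_eq hz.symm) (hz.trans_lt t1)⟩
    obtain ⟨n, V, e3, e4⟩ := (hg _ m A).2.2 (ρ ∘ π) a b U sA (rl a a0 (ab.trans bδ)) (rl b b0 bδ) hU
    refine ⟨m, A, n, V, e1, fun l => ⟨(e2 l).1, (e2 l).2.imp fun x hx =>
      hx.1.trans inter_subset_left⟩, ⟨sA, fun z => R.nonneg _, fun z => e1 ▸ R.zero _, a0, ab, oB,
      fun z hz => hz, fun t ht => ?_, fun l hl z hz => ?_, fun a₁ a₂ t1 t2 t3 => ?_,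
      ℓ, fun z hz => ?_⟩, e3, e4⟩
    · exact (isClosed_le cρ continuous_const).isCompact.of_isClosed_subset (by
        rw [inter_eq_right.2 (show {z | (ρ ∘ π) z ≤ t} ⊆ {z | (ρ ∘ π) z < b} from
          fun z hz => lt_of_le_of_lt hz ht)]
        exact isClosed_le cρ continuous_const) inter_subset_right
    · obtain ⟨x, t1, t2⟩ := (e2 l).2
      exact (t1 hz).2 (e1 ▸ t2 hl : x ∈ π ⁻¹' Sing (Var I) 2)
    · obtain ⟨s, s1, s2, s3⟩ := ht.ret _ (ρ ∘ π) b cρ (fun z u1 u2 => rg z u1 (u2.trans bδ)) a₁ a₂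
        (a0.trans_le t1) t2 t3
      have hz : ∀ z ∈ {z | (ρ ∘ π) z < b} \ A.E, 0 < (ρ ∘ π) z := fun z hz =>
        R.lt fun h => hz.2 (e1 ▸ h : z ∈ A.E)
      refine ⟨s, s1.mono hz, fun z h => ⟨?_, s2 z (hz z h)⟩, fun z _ => s3 z⟩
      rcases lt_or_ge ((ρ ∘ π) z) a₂ with u | u
      · exact ((s2 z (hz z h)).2 u).trans t3
      · rw [s3 z u]; exact h.1
    · obtain ⟨u1, u2, u3⟩ := hℓ z (bO _ hz).1
      exact ⟨fun l hl => (u1 _ (e2 l).1 hl).differentiableAt, fun h => u2 (e1 ▸ h :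
        z ∈ π ⁻¹' Sing (Var I) 2), u3⟩
  have off : ∀ {m n : ℕ} {A : KA (Var J) (Fin m)} {V : Fin n → Set (Var J)},
      Down A (ρ ∘ π) a b V → ∀ i, V i ⊆ (π ⁻¹' Sing (Var I) 2)ᶜ := fun hD i z hz h =>
    (a0.trans (show a < ρ (π z) from (hD.cov ▸ mem_iUnion_of_mem i hz :
      z ∈ {z | a < (ρ ∘ π) z}))).ne' ((R.zero _).2 h)
  choose O₃ o7 o8 σ o9 using fun x : Var J => sec {π x} (finite_singleton _)
  obtain ⟨m₁, A₁, n₁, V₁, -, -, -, D₁, s₁⟩ := data (fun x => π ⁻¹' O₃ x) fun x =>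
    ((o7 x).preimage cb.cont).mem_nhds (o8 x rfl)
  obtain ⟨G, Z, _, _, _, _, q, s, uc⟩ := h2 (Option (Fin n₁)) (Var J)
    (fun i => i.elim {z | (ρ ∘ π) z < b} V₁) (by rintro (_ | i); exacts [oB, D₁.op i]) fun x => by
      rcases lt_or_ge ((ρ ∘ π) x) b with h | h
      · exact ⟨none, h⟩
      · obtain ⟨i, hi⟩ := mem_iUnion.1 (D₁.cov ▸ ab.trans_le h : x ∈ ⋃ i, V₁ i)
        exact ⟨some i, hi⟩
  have pc : ∀ i j : Option (Fin n₁), i ≠ j → IsPreconnected
      (i.elim {z | (ρ ∘ π) z < b} V₁ ∩ j.elim {z | (ρ ∘ π) z < b} V₁) := by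
    have e : ∀ i, IsPreconnected (V₁ i ∩ {z | (ρ ∘ π) z < b}) := fun i => by
      simpa [VV] using PLift.good_conn (D₁.goodB {i} (Finset.singleton_nonempty i))
    rintro (_ | i) (_ | j) h
    · exact absurd rfl h
    · exact inter_comm _ _ ▸ e j
    · exact e i
    · simpa [VV] using PLift.good_conn (D₁.good {i, j} (Finset.insert_nonempty _ _))
  have sc := h3 G _ _ Z _ q s (π ⁻¹' Sing (Var I) 2) uc pc (by
    rintro (_ | i)
    · rw [show π ⁻¹' Sing (Var I) 2 = {z | (ρ ∘ π) z = 0} from Set.ext fun z => (R.zero _).symm]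
      exact h1 _ (ρ ∘ π) δ b cρ (fun z => R.nonneg _) rg b0 bδ
    · exact good_prim (A := A₁) hp (by simpa [VV] using D₁.good {i} (Finset.singleton_nonempty i))
        (disjoint_left.2 (off D₁ i)))
  obtain ⟨F, cF, pF⟩ := h4 G _ _ Z _ q s uc pc H X Y p (ν ∘ π) hq (by
    rintro (_ | i)
    · exact ⟨σ₀, o5.mono fun z hz => (bO _ hz).2, fun z hz => o6 z (bO _ hz).2⟩
    · obtain ⟨x, hx⟩ := s₁ i
      exact ⟨σ x, (o9 x).1.mono hx, fun z hz => (o9 x).2 z (hx hz)⟩)
  choose U u1 u2 using small_nhds uc.cov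
  obtain ⟨m, A, n, V, e1, e2, hN, hD, e3⟩ := data U u1
  have cq := uc.cov.continuous
  obtain ⟨Γ, hΓ⟩ := hl G Z _ q uc.cov m n A (ρ ∘ π) a b V hN hD
    (fun l => let ⟨x, hx⟩ := (e2 l).2; u2 x _ hx (A.e l).open_source)
    (fun i => let ⟨x, hx⟩ := e3 i; u2 x _ hx (hD.op i)) (uc.small none) (fun z hz => by
      rw [e1] at hz
      obtain ⟨W, w1, w2⟩ := isLocallyInjective_iff_nhds.1
        uc.cov.isCoveringMap.isLocalHomeomorph.isLocallyInjective z
      filter_upwards [w1, (cb.cont.comp cq).continuousAt.eventually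
        (((hfin (ν (π (q z)))).sdiff (t := {π (q z)})).isClosed.isOpen_compl.mem_nhds
          fun h => h.2 rfl),
        (cb.cont.comp cq).continuousAt.eventually (hS.isClosed.isOpen_compl.mem_nhds hz),
        cF.continuousAt.eventually (hY (F z))] with z' t1 t2 t3 t4 ne
      obtain ⟨f, f1, f2⟩ := t4 fun e => ne (w2 t1 (mem_of_mem_nhds w1)
        (congrArg Subtype.val (@cb.emb.injective ⟨q z', t3⟩ ⟨q z, hz⟩ (by_contra fun e' =>
          t2 ⟨(pF z').symm.trans (e.symm ▸ pF z), e'⟩))))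
      refine ⟨f ∘ F, fun w => ?_, f2⟩
      obtain ⟨φ, g1, g2⟩ := f1 (F w)
      rw [pF w] at g1
      refine ⟨(φ ∘ ν) ∘ π, fun l hl => (cb.an _ _ _ (PCb.hol_comp g1 (hν _)) (e2 l).1
        hl).differentiableAt, (cF.continuousAt.eventually g2).mono fun v hv => ?_⟩
      rw [Function.comp_apply, hv, pF v]
      rfl) (e1 ▸ sc)
  have := t2_of_cover uc.cov.isCoveringMap
  have pos := hu G Z m n Γ _ _ hΓ
  obtain ⟨p1, p2⟩ := push cb.emb (off hD) ⟨hD.op, fun s hs h => good_acyc (hD.good s hs h)⟩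
  obtain ⟨p3, p4⟩ := push cb.emb (W := fun i => V i ∩ {z | (ρ ∘ π) z < b})
    (fun i => inter_subset_left.trans (off hD i)) ⟨fun i => (hD.op i).inter oB, fun s hs h => by
      rw [VV_inter V _ hs] at h ⊢
      exact good_acyc (hD.goodB s hs h)⟩
  have e4 : (fun i => π '' (V i ∩ {z | (ρ ∘ π) z < b})) = fun i => π '' V i ∩ {x | ρ x < b} :=
    funext fun i => image_inter_preimage π (V i) {x | ρ x < b}
  rw [e4] at p3 p4
  have eS : (Sing (Var I) 2)ᶜ = {x | 0 < ρ x} :=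
    Set.ext fun x => ⟨R.lt, fun h h' => (ne_of_gt h) ((R.zero x).2 h')⟩
  obtain ⟨ac1, ac2⟩ := ht.ac _ ρ δ R.cont (fun x t1 t2 => R.rg (eS ▸ t1 : x ∈ (Sing (Var I) 2)ᶜ) t2)
    a b a0 ab bδ
  obtain ⟨c2, c3, c4⟩ := ho (Var I) (Sing (Var I) 2) {x | ρ x < δ} {x | a < ρ x}
    {x | a < ρ x ∧ ρ x < b} n (fun i => π '' V i) {x | ρ x < b} hS.isClosed
    (isOpen_lt R.cont continuous_const) (fun x hx => ((R.zero x).2 hx).trans_lt R.pos) hZ p1 p3
    (by rw [← image_iUnion, hD.cov]; exact image_preimage_eq {x | a < ρ x} hπ.surj) rfl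
    (eS ▸ fun x hx => a0.trans hx) (eS ▸ fun x hx => ⟨hx.2.trans bδ, a0.trans hx.1⟩) (eS ▸ ac1)
    (by rw [eS, inter_comm]; exact ac2)
  exact ⟨c2, c3, pos.trans (p2 ▸ p4 ▸ c4)⟩

end Pool.Agent.Lib.MP_356dfe_ag.S
end
end

-- part Pool.Agent.Lib.MP_356dfe_ag.S.PCone
section

/-! Primitives near the exceptional curve. -/

set_option autoImplicit false

open Set Filter Topology Metric
open scoped Pointwise

noncomputable section

namespace Pool.Agent.Lib.MP_356dfe_ag.S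

namespace PCone

open unitInterval

/-- a primitive on `O` extends along a deformation of the space into `O` -/
theorem ext_prim {Y V : Type} [TopologicalSpace Y] [AddCommGroup V] (f : Y → Y → V)
    (hf : LPS univ f) {O E : Set Y} {h : Y → V} (hh : Prim O f h) (H : C(I × Y, Y))
    (h0 : ∀ y, H (0, y) ∈ O) (h1 : ∀ y, H (1, y) = y) (hE : ∀ t, ∀ y ∈ E, H (t, y) = y) :
    ∃ F, Prim univ f F ∧ ∀ y ∈ E, F y = h y := by
  let : TopologicalSpace V := ⊥
  have : DiscreteTopology V := ⟨rfl⟩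
  let B : FiberBundleCore Y Y V :=
    { baseSet := fun y => interior {y' | ∃ c, ∀ᶠ w in 𝓝 y', f y w = f y' w + c}
      isOpen_baseSet := fun _ => isOpen_interior
      indexAt := id
      mem_baseSet_at := fun y => mem_interior_iff_mem_nhds.2 (hf y trivial)
      coordChange := fun i j x v => v + (f i x - f j x)
      coordChange_self := fun i x _ v => by simp
      continuousOn_coordChange := fun i j p hp => by
        obtain ⟨c, hc⟩ := interior_subset hp.1.1
        obtain ⟨c', hc'⟩ := interior_subset hp.1.2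
        refine ContinuousAt.continuousWithinAt (ContinuousAt.congr (f := fun q => q.2 + (c - c'))
          (((continuous_of_discreteTopology (f := fun v : V => v + (c - c'))).comp
            continuous_snd).continuousAt) ?_)
        refine (continuousAt_fst.eventually (hc.and hc')).mono fun q hq => ?_
        simp only [hq.1, hq.2, add_sub_add_left_eq_sub]
      coordChange_comp := fun i j k x _ v => by simp only [add_assoc, sub_add_sub_cancel] }
  have cov : IsCoveringMap B.proj :=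
    IsFiberBundle.isCoveringMap fun x => ⟨B.localTriv x, B.mem_baseSet_at x⟩
  let r : Y → B.TotalSpace := fun x => ⟨x, (h x - f x x : V)⟩
  have hr : ∀ x ∈ O, ContinuousAt r x := by
    intro x hx
    obtain ⟨c, hc⟩ := hh x hx
    refine (FiberBundle.continuousAt_totalSpace V r).2 ⟨continuousAt_id, ?_⟩
    refine ContinuousAt.congr (f := fun _ => c) continuousAt_const (hc.mono fun w hw => ?_)
    change c = (h w - f w w) + (f w w - f x w)
    rw [hw]
    abel
  have k0 : Continuous fun y : Y => H (0, y) := H.continuous.comp (by fun_prop)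
  let s0 : C(Y, B.TotalSpace) := ⟨fun y => r (H (0, y)), continuous_iff_continuousAt.2 fun y =>
    ContinuousAt.comp (f := fun y : Y => H (0, y)) (hr _ (h0 y)) k0.continuousAt⟩
  let L := cov.liftHomotopy H s0 fun _ => rfl
  have hL : ∀ p, (L p).1 = H p := congrFun (cov.liftHomotopy_lifts H s0 fun _ => rfl)
  have L0 : ∀ y, L (0, y) = r (H (0, y)) := cov.liftHomotopy_zero H s0 fun _ => rfl
  let s : Y → B.TotalSpace := fun w => L (1, w)
  have sc : Continuous s := L.continuous.comp (by fun_prop)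
  have hs : ∀ w, (s w).1 = w := fun w => (hL _).trans (h1 w)
  let t : Y → V := fun w => (s w).2
  refine ⟨fun w => f w w + t w, fun y _ => ⟨(B.localTriv y (s y)).2, ?_⟩, fun y hy => ?_⟩
  · have h2 : ContinuousAt (fun w => (B.localTriv y (s w)).2) y :=
      continuousAt_snd.comp (((B.localTriv y).continuousAt (by
        rw [B.mem_localTriv_source, hs]; exact B.mem_baseSet_at y)).comp sc.continuousAt)
    refine (h2.eventually ((isOpen_discrete {(B.localTriv y (s y)).2}).mem_nhds rfl)).mono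
      fun w hw => ?_
    rw [← (show (B.localTriv y (s w)).2 = (B.localTriv y (s y)).2 from hw)]
    change f w w + t w = f y w + (t w + (f (s w).1 (s w).1 - f y (s w).1))
    rw [hs]
    abel
  · have e : s y = L (0, y) := cov.const_of_comp (g := fun τ : I => L (τ, y))
      (L.continuous.comp (by fun_prop))
      (fun a a' => (hL _).trans ((hE a y hy).trans ((hL _).trans (hE a' y hy)).symm)) 1 0
    rw [L0, hE 0 y hy] at e
    have e' : t y = h y - f y y := congrArg (fun p : B.TotalSpace => (p.2 : V)) e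
    change f y y + t y = h y
    rw [e']
    abel

/-- compatible germs along a compact set come from one function -/
theorem glue {M V : Type} [TopologicalSpace M] [RegularSpace M] {E : Set M} (hE : IsCompact E)
    (g : M → M → V) (hg : ∀ y ∈ E, ∀ᶠ z in 𝓝 y, z ∈ E → ∀ᶠ w in 𝓝 z, g y w = g z w) :
    ∃ h : M → V, ∀ z ∈ E, ∀ᶠ w in 𝓝 z, h w = g z w := by
  classical
  have : ∀ y, ∃ K : Set M, y ∈ E → K ∈ 𝓝 y ∧ IsClosed K ∧
      ∀ z ∈ K, z ∈ E → ∀ᶠ w in 𝓝 z, g y w = g z w := by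
    intro y
    by_cases hy : y ∈ E
    · obtain ⟨K, k1, k2, k3⟩ := exists_mem_nhds_isClosed_subset (hg y hy)
      exact ⟨K, fun _ => ⟨k1, k2, k3⟩⟩
    · exact ⟨∅, fun q => absurd q hy⟩
  choose K hK using this
  obtain ⟨t, t1, t2⟩ := hE.elim_nhds_subcover_nhdsSet (U := K) fun y hy => (hK y hy).1
  refine ⟨fun w => if q : ∃ y ∈ t, w ∈ K y then g q.choose w else g w w, fun z hz => ?_⟩
  have a1 : ∀ᶠ w in 𝓝 z, ∀ y ∈ t, w ∈ K y → g y w = g z w := by
    refine (eventually_all_finset t).2 fun y hy => ?_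
    by_cases q : z ∈ K y
    · exact ((hK y (t1 y hy)).2.2 z q hz).mono fun w hw _ => hw
    · exact Filter.mem_of_superset ((hK y (t1 y hy)).2.1.isOpen_compl.mem_nhds q)
        fun w hw q' => absurd q' hw
  filter_upwards [a1, mem_nhdsSet_iff_forall.1 t2 z hz] with w h1 h2
  have q : ∃ y ∈ t, w ∈ K y := by simpa using h2
  rw [dif_pos q]
  exact h1 _ q.choose_spec.1 q.choose_spec.2

end PCone

theorem cone : Cone := by
  intro M _ _ _ ρ δ b hρ h0 hr hb hbδ f hf hE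
  classical
  have hEU : ∀ z, ρ z = 0 → ρ z < b := fun z hz => by rw [hz]; exact hb
  obtain ⟨h, hh⟩ := PCone.glue (E := {z | ρ z = 0})
    (isClosed_eq hρ continuous_const).isCompact (fun y w => f y w - f y y) (by
      intro y hy
      filter_upwards [hf y (hEU y hy), hE y ⟨hEU y hy, hy⟩] with z h1 h2 hz
      obtain ⟨c, hc⟩ := h1
      have h3 := hc.self_of_nhds
      rw [h2 hz] at h3
      refine hc.mono fun w hw => ?_
      rw [hw, h3]
      ring)
  let O : Set M := {y | ∃ c, ∀ᶠ w in 𝓝 y, h w = f y w + c}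
  have hO : ∀ z, ρ z = 0 → O ∈ 𝓝 z := by
    intro z hz
    filter_upwards [hf z (hEU z hz), (hh z hz).eventually_nhds] with y h1 h2
    obtain ⟨c, hc⟩ := h1
    refine ⟨c - f z z, ?_⟩
    filter_upwards [hc, h2] with w h3 h4
    rw [h4, h3]
    ring
  obtain ⟨c, hc, hcO⟩ := (isOpen_interior (s := O)).isClosed_compl.isCompact.exists_forall_le'
    hρ.continuousOn (a := 0) fun z hz => (h0 z).lt_of_ne' fun q =>
      hz (mem_interior_iff_mem_nhds.2 (hO z q))
  obtain ⟨H, hH, hH1⟩ := move_cpt (Ω := ρ ⁻¹' Ioo (c / 2) δ) (K := ρ ⁻¹' Iic b) (f := ρ)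
    (isOpen_Ioo.preimage hρ) hρ (c := c) (ε := δ)
    (fun b' hb' => by
      have e : ρ ⁻¹' Icc c b' ⊆ ρ ⁻¹' Ioo (c / 2) δ := fun x hx =>
        ⟨by linarith [hx.1], hx.2.trans_lt hb'⟩
      rw [inter_eq_right.2 e]
      exact (isClosed_Icc.preimage hρ).isCompact)
    (fun x hx _ => hr x (by linarith [hx.1]) hx.2) (isClosed_Iic.preimage hρ).isCompact
    fun x hx => lt_of_le_of_lt hx hbδ
  let U : Set M := {z | ρ z < b}
  have hU : IsOpen U := isOpen_lt hρ continuous_const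
  have hm : ∀ (t : ℝ) (y : U), H (t, y) ∈ U := by
    intro t y
    by_cases q : (y : M) ∈ ρ ⁻¹' Ioo (c / 2) δ
    · exact (hH.le t y q).trans_lt y.2
    · rw [hH.out t y q]
      exact y.2
  let H' : C(unitInterval × U, U) :=
    ⟨fun p => ⟨H (1 - (p.1 : ℝ), p.2), hm _ _⟩, Continuous.subtype_mk (by fun_prop) _⟩
  obtain ⟨F, hF, hF0⟩ := PCone.ext_prim (fun y w : U => f y w)
    (fun y _ => (continuous_subtype_val.continuousAt.eventually (hf y y.2)).mono
      fun y' ⟨c, hc⟩ => ⟨c, continuous_subtype_val.continuousAt.eventually hc⟩)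
    (O := Subtype.val ⁻¹' O) (E := {y | ρ y = 0}) (h := fun y => h y)
    (fun y ⟨c, hc⟩ => ⟨c, continuous_subtype_val.continuousAt.eventually hc⟩) H'
    (fun y => by
      change H (1 - 0, (y : M)) ∈ O
      rw [sub_zero]
      refine interior_subset (not_not.1 fun q => not_lt.2 (hcO _ q) ?_)
      by_cases q : (y : M) ∈ ρ ⁻¹' Ioo (c / 2) δ
      · exact hH1 y (le_of_lt (show ρ y < b from y.2) : ρ y ≤ b) q
      · rw [hH.out 1 y q]
        have : ρ y ≤ c / 2 := not_lt.1 fun q' => q ⟨q', lt_trans y.2 hbδ⟩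
        linarith)
    (fun y => Subtype.ext (by
      change H (1 - 1, (y : M)) = y
      rw [sub_self, hH.zero]))
    fun t y hy => Subtype.ext (hH.out _ _ fun q => by
      have h1 : c / 2 < ρ y := q.1
      have h2 : ρ y = 0 := hy
      linarith)
  refine ⟨fun w => if q : w ∈ U then F ⟨w, q⟩ else 0, fun y hy => ?_,
    (countable_singleton (0 : ℂ)).mono ?_⟩
  · obtain ⟨c, hc⟩ := hF ⟨y, hy⟩ trivial
    refine ⟨c, ?_⟩
    rw [← hU.isOpenEmbedding_subtypeVal.map_nhds_eq ⟨y, hy⟩, eventually_map]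
    exact hc.mono fun w hw => (dif_pos w.2).trans hw
  · rintro _ ⟨z, ⟨h1, h2⟩, rfl⟩
    have h3 := (hh z h2).self_of_nhds
    simp only [sub_self] at h3
    simp only [mem_singleton_iff]
    rw [dif_pos (show z ∈ U from h1), hF0 ⟨z, h1⟩ h2, h3]

end Pool.Agent.Lib.MP_356dfe_ag.S
end
end

-- part Pool.Agent.Lib.MP_356dfe_ag.S.PUC
section

/-! The covering space of a finite open cover. -/

set_option autoImplicit false

open Set Filter Topology Metric
open scoped Pointwise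

noncomputable section

namespace Pool.Agent.Lib.MP_356dfe_ag.S

namespace PUC

/-- the group of the cover -/
theorem grp {ι : Type} [Finite ι] (T : ι → ι → ι → Prop) :
    ∃ (G : Type) (_ : Group G) (_ : Countable G) (x : ι → ι → G),
      (∀ i j k, T i j k → x i j * x j k = x i k) ∧
      ∀ (H : Type) [Group H] (c : G → ι → ι → H),
        (∀ g i j k, T i j k → c g i j * c (g * x i j) j k = c g i k) →
        ∃ a : G → H, ∀ g i j, a (g * x i j) = a g * c g i j := by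
  let rels : Set (FreeGroup (ι × ι)) := {r | ∃ i j k, T i j k ∧
    r = FreeGroup.of (i, j) * FreeGroup.of (j, k) * (FreeGroup.of (i, k))⁻¹}
  have hx : ∀ i j k, T i j k → (PresentedGroup.of (i, j) : PresentedGroup rels) *
      PresentedGroup.of (j, k) = PresentedGroup.of (i, k) := fun i j k h =>
    PresentedGroup.mk_eq_mk_of_mul_inv_mem (rels := rels)
      (x := FreeGroup.of (i, j) * FreeGroup.of (j, k)) (y := FreeGroup.of (i, k)) ⟨i, j, k, h, rfl⟩
  refine ⟨PresentedGroup rels, inferInstance, (PresentedGroup.mk_surjective rels).countable,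
    fun i j => PresentedGroup.of (i, j), hx, fun H _ c hc => ?_⟩
  let f : ι × ι → RegularWreathProduct H (PresentedGroup rels) := fun p =>
    ⟨fun g => c g⁻¹ p.1 p.2, PresentedGroup.of p⟩
  have hf : ∀ r ∈ rels, FreeGroup.lift f r = 1 := by
    rintro _ ⟨i, j, k, h, rfl⟩
    simp only [map_mul, map_inv, FreeGroup.lift_apply_of, mul_inv_eq_one]
    refine RegularWreathProduct.ext (funext fun g => ?_) (hx i j k h)
    simpa [f] using hc g⁻¹ i j k h
  have hr : RegularWreathProduct.rightHom.comp (PresentedGroup.toGroup hf) = MonoidHom.id _ :=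
    PresentedGroup.ext fun p => by simp [f, RegularWreathProduct.rightHom]
  refine ⟨fun g => (PresentedGroup.toGroup hf g).left 1, fun g i j => ?_⟩
  have h1 : (PresentedGroup.toGroup hf g).right = g := DFunLike.congr_fun hr g
  simp [f, h1]

end PUC

theorem uc : UC := by
  intro ι M _ _ _ _ U hU hall
  obtain ⟨G, _, _, x, hx, hG⟩ := PUC.grp fun i j k : ι => (U i ∩ U j ∩ U k).Nonempty
  choose idx hidx using hall
  have h3 : ∀ {i j k y}, y ∈ U i → y ∈ U j → y ∈ U k → x i j * x j k = x i k :=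
    fun h1 h2 h3 => hx _ _ _ ⟨_, ⟨h1, h2⟩, h3⟩
  have h1 : ∀ {i y}, y ∈ U i → x i i = 1 := fun h => mul_eq_left.1 (h3 h h h)
  let : TopologicalSpace G := ⊥
  have : DiscreteTopology G := ⟨rfl⟩
  let B : FiberBundleCore ι M G :=
    { baseSet := U
      isOpen_baseSet := hU
      indexAt := idx
      mem_baseSet_at := hidx
      coordChange := fun i j _ g => g * x i j
      coordChange_self := fun i y hy g => by rw [h1 hy, mul_one]
      continuousOn_coordChange := fun i j =>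
        ((continuous_of_discreteTopology (f := fun g : G => g * x i j)).comp
          continuous_snd).continuousOn
      coordChange_comp := fun i j k y hy g => by rw [mul_assoc, h3 hy.1.1 hy.1.2 hy.2] }
  let mk : M → G → B.TotalSpace := fun y g => ⟨y, g⟩
  let sn : B.TotalSpace → G := fun p => p.2
  have hmk : ∀ {y y' g g'}, mk y g = mk y' g' ↔ y = y' ∧ g = g' :=
    ⟨fun h => ⟨congrArg B.proj h, congrArg sn h⟩, fun h => by rw [h.1, h.2]⟩
  let act : MulAction G B.TotalSpace :=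
    { smul := fun g p => mk p.1 (g * sn p)
      one_smul := fun p => congrArg (mk p.1) (one_mul (sn p))
      mul_smul := fun g h p => congrArg (mk p.1) (mul_assoc g h (sn p)) }
  have hsm : ∀ g y g', g • mk y g' = mk y (g * g') := fun _ _ _ => rfl
  let s : ι → M → B.TotalSpace := fun i y => mk y (x i (idx y))
  have cov : IsCoveringMap B.proj :=
    IsFiberBundle.isCoveringMap fun y => ⟨B.localTriv (idx y), hidx y⟩
  have hsy : ∀ i, ContinuousOn (fun p : M × G => mk p.1 (p.2 * x i (idx p.1))) (U i ×ˢ univ) :=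
    fun i => (B.localTriv i).toOpenPartialHomeomorph.continuousOn_symm
  have hto : ∀ i, ContinuousOn (fun p : B.TotalSpace => sn p * x (idx p.1) i) (B.proj ⁻¹' U i) :=
    fun i => continuous_snd.comp_continuousOn (B.localTriv i).continuousOn
  have hop : ∀ i, IsOpen (B.proj ⁻¹' U i) := fun i => (hU i).preimage B.continuous_proj
  have hcs : ∀ g : G, Continuous fun p : B.TotalSpace => g • p := fun g => by
    refine continuous_iff_continuousAt.2 fun p => ContinuousOn.continuousAt ?_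
      ((hop (idx p.1)).mem_nhds (hidx p.1))
    refine ((hsy (idx p.1)).comp (f := fun z : B.TotalSpace =>
      (z.1, g * (sn z * x (idx z.1) (idx p.1)))) (B.continuous_proj.continuousOn.prodMk
        ((continuous_of_discreteTopology (f := fun v : G => g * v)).comp_continuousOn (hto _)))
      fun z hz => ⟨hz, trivial⟩).congr fun z hz => ?_
    refine hmk.2 ⟨rfl, ?_⟩
    show g * sn z = g * (sn z * x (idx z.1) (idx p.1)) * x (idx p.1) (idx z.1)
    rw [mul_assoc, mul_assoc, h3 (hidx _) hz (hidx _), h1 (hidx _), mul_one]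
  have hs : ∀ i, ContinuousOn (s i) (U i) := fun i =>
    ((hsy i).comp (f := fun y : M => (y, (1 : G))) (continuous_id.prodMk
      continuous_const).continuousOn fun y hy => ⟨hy, trivial⟩).congr fun y _ =>
      hmk.2 ⟨rfl, (one_mul _).symm⟩
  have hss : ∀ {i j y}, y ∈ U i → y ∈ U j → s i y = x i j • s j y := fun hi hj =>
    hmk.2 ⟨rfl, (h3 hi hj (hidx _)).symm⟩
  refine ⟨G, B.TotalSpace, inferInstance, inferInstance, inferInstance, act, B.proj, s, hU,
    fun y => ⟨idx y, hidx y⟩, ?_, hs, fun _ _ => rfl, fun i => ?_, fun H W _ _ _ φ hφ => ?_⟩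
  · refine (isQuotientCoveringMap_iff_isCoveringMap_and _ _).2 ⟨cov, fun y => ⟨mk y 1, rfl⟩,
      ⟨hcs⟩, ?_, fun {p p'} => ⟨fun h => ⟨sn p * (sn p')⁻¹, ?_⟩, ?_⟩⟩
    · exact
        { left_cancel' := fun g p p' h => by
            have := hmk.1 h
            exact (hmk (g := sn p) (g' := sn p')).2 ⟨this.1, mul_left_cancel this.2⟩
          right_cancel' := fun g g' p h => mul_right_cancel (hmk.1 h).2 }
    · exact (hmk (g' := sn p)).2 ⟨h.symm, inv_mul_cancel_right _ _⟩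
    · rintro ⟨g, rfl⟩
      rfl
  · have := Fintype.ofFinite ι
    obtain ⟨K, k1, k2, k3⟩ := isCompact_univ.finite_compact_cover Finset.univ U (fun j _ => hU j)
      fun y _ => mem_biUnion (Finset.mem_univ (idx y)) (hidx y)
    refine ⟨B.proj ⁻¹' U i ∩ (fun p => sn p * x (idx p.1) i) ⁻¹' {1},
      ⋃ j, (fun y => x i j • s j y) '' K j, (hto i).isOpen_inter_preimage (hop i)
        (isOpen_discrete _), isCompact_iUnion fun j => (k1 j).image_of_continuousOn
        ((hcs _).comp_continuousOn ((hs j).mono (k2 j))), fun p hp => ?_, ?_, ?_⟩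
    · obtain ⟨j, -, hj⟩ := mem_iUnion₂.1 (k3 ▸ mem_univ p.1)
      refine mem_iUnion.2 ⟨j, p.1, hj, (hss hp.1 (k2 j hj)).symm.trans
        ((hmk (g' := sn p)).2 ⟨rfl, ?_⟩)⟩
      have e : sn p * x (idx p.1) i = 1 := hp.2
      rw [← one_mul (x i _), ← e, mul_assoc, h3 (hidx _) hp.1 (hidx _), h1 (hidx _), mul_one]
    · refine Subset.antisymm (by rintro _ ⟨p, hp, rfl⟩; exact hp.1) fun y hy =>
        ⟨s i y, ⟨hy, ?_⟩, rfl⟩
      exact (h3 hy (hidx y) hy).trans (h1 hy)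
    · rintro g ⟨_, ⟨p, hp, rfl⟩, hq⟩
      have e : sn p * x (idx p.1) i = 1 := hp.2
      have e' : g * sn p * x (idx p.1) i = 1 := hq.2
      rwa [mul_assoc, e, mul_one] at e'
  · choose c hc using fun g i j => hφ g i (g * x i j) j fun y hy => by
      rw [mul_smul, ← hss hy.1 hy.2]
    obtain ⟨a, ha⟩ := hG H c fun g i j k ⟨y, hy⟩ => by
      refine IsCancelSMul.right_cancel _ _ (φ (g * x i k) k y) ?_
      rw [← hc g i k y ⟨hy.1.1, hy.2⟩, hc g i j y hy.1, hc (g * x i j) j k y ⟨hy.1.2, hy.2⟩,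
        mul_smul, mul_assoc, h3 hy.1.1 hy.1.2 hy.2]
    refine ⟨fun p => a (sn p) • φ (sn p) (idx p.1) p.1, fun g i => ⟨a g, fun y hy => ?_⟩⟩
    show a (g * x i (idx y)) • φ (g * x i (idx y)) (idx y) y = _
    rw [ha, mul_smul, ← hc g i _ y ⟨hy, hidx y⟩]

end Pool.Agent.Lib.MP_356dfe_ag.S
end
end

-- part Pool.Agent.Lib.MP_356dfe_ag.S.PUS
section

/-! Primitives and lifts on the covering space. -/

set_option autoImplicit false

open Set Filter Topology Metric
open scoped Pointwise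

noncomputable section

namespace Pool.Agent.Lib.MP_356dfe_ag.S

namespace PUS

theorem loc {G ι M Z : Type} [TopologicalSpace M] [Group G] [TopologicalSpace Z] [MulAction G Z]
    {U : ι → Set M} {q : Z → M} {s : ι → M → Z} (h : UCov G U q s) (z : Z) :
    ∃ (i : ι) (g : G), ∀ᶠ w in 𝓝 z, q w ∈ U i ∧ g • s i (q w) = w := by
  have := h.cov.toContinuousConstSMul
  obtain ⟨i, hi⟩ := h.all (q z)
  obtain ⟨g, hg⟩ := h.cov.apply_eq_iff_mem_orbit.1 (h.sec i (q z)).symm
  have hg' : g • s i (q z) = z := hg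
  obtain ⟨N, h1, h2, h3⟩ := h.cov.isCoveringMap.isLocalHomeomorph.isLocallyInjective z
  have hq := h.cov.continuous.continuousAt (x := z)
  have h4 : ContinuousAt (fun w => g • s i (q w)) z :=
    (((h.cont i).continuousAt ((h.op i).mem_nhds hi)).comp hq).const_smul g
  refine ⟨i, g, ?_⟩
  filter_upwards [hq.eventually_mem ((h.op i).mem_nhds hi), h1.mem_nhds h2,
    h4.eventually_mem (h1.mem_nhds (by simpa only [hg'] using h2))] with w k1 k2 k3
  exact ⟨k1, h3 k3 k2 (by rw [h.cov.map_smul, h.sec])⟩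

theorem lc {X : Type} [TopologicalSpace X] {s : Set X} (hs : IsPreconnected s) {D : X → ℂ}
    (h : ∀ y ∈ s, ∃ c, ∀ᶠ w in 𝓝 y, D w = c) : ∃ c, ∀ y ∈ s, D y = c := by
  rcases s.eq_empty_or_nonempty with rfl | ⟨x, hx⟩
  · exact ⟨0, fun _ hy => hy.elim⟩
  refine ⟨D x, fun y hy => hs.induction₂' (fun a b => D a = D b) (fun a ha => ?_)
    (fun _ _ _ _ _ _ => Eq.trans) hy hx⟩
  obtain ⟨c, hc⟩ := h a ha
  filter_upwards [mem_nhdsWithin_of_mem_nhds hc] with w hw
  exact ⟨hc.self_of_nhds.trans hw.symm, hw.trans hc.self_of_nhds.symm⟩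

end PUS

theorem usc : USC := by
  intro G ι M Z _ _ _ _ _ _ U q s E h hc hP f hf hE
  have := h.cov.toContinuousConstSMul
  have := h.cov.isCancelSMul
  have ht : ∀ (g : G) i, ∀ y ∈ U i, ContinuousAt (fun w => g • s i w) y := fun g i y hy =>
    ((h.cont i).continuousAt ((h.op i).mem_nhds hy)).const_smul g
  have hq : ∀ (g : G) i y, q (g • s i y) = y := fun g i y => by rw [h.cov.map_smul, h.sec]
  choose φ h1 h2 using fun (g : G) i => hP i (fun y w => f (g • s i y) (g • s i w))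
    (fun y hy => by
      filter_upwards [(ht g i y hy).eventually (hf _ trivial), (h.op i).mem_nhds hy] with y' k1 k2
      obtain ⟨c, k3⟩ := k1
      exact ⟨c, (ht g i y' k2).eventually k3⟩)
    fun z hz => ((ht g i z hz.1).eventually (hE (g • s i z)
      (show q _ ∈ E by rw [hq]; exact hz.2))).mono fun w k1 k2 =>
        k1 (show q _ ∈ E by rw [hq]; exact k2)
  have : IsCancelSMul (Multiplicative ℂ) ℂ :=
    { right_cancel' := fun a b c e => Multiplicative.toAdd.injective (add_right_cancel (b := c) e) }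
  obtain ⟨F, hF⟩ := h.glue (Multiplicative ℂ) ℂ φ fun g i g' j e => by
    by_cases hij : i = j
    · subst hij
      rcases (U i).eq_empty_or_nonempty with k | ⟨y, hy⟩
      · exact ⟨1, fun y hy => by simp [k] at hy⟩
      · rw [IsCancelSMul.right_cancel _ _ _ (e y ⟨hy, hy⟩)]
        exact ⟨1, fun y _ => (one_smul _ _).symm⟩
    · obtain ⟨c, k⟩ := PUS.lc (hc i j hij) (D := fun y => φ g i y - φ g' j y) fun y hy => by
        obtain ⟨c, k1⟩ := h1 g i y hy.1
        obtain ⟨c', k2⟩ := h1 g' j y hy.2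
        refine ⟨c - c', ?_⟩
        filter_upwards [k1, k2, ((h.op i).inter (h.op j)).mem_nhds hy] with w k3 k4 k5
        rw [k3, k4, e y hy, e w k5]
        ring
      exact ⟨Multiplicative.ofAdd c, fun y hy => eq_add_of_sub_eq (k y hy)⟩
  choose a ha using hF
  refine ⟨F, fun z _ => ?_, (countable_iUnion fun g => countable_iUnion fun i =>
    (h2 g i).image (a g i • ·)).mono ?_⟩
  · obtain ⟨i, g, k1⟩ := PUS.loc h z
    obtain ⟨c, k2⟩ := h1 g i (q z) k1.self_of_nhds.1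
    refine ⟨(a g i).toAdd + c, ?_⟩
    filter_upwards [k1, h.cov.continuous.continuousAt.eventually k2] with w k3 k4
    have k5 : F (g • s i (q w)) = (a g i).toAdd + φ g i (q w) := ha g i _ k3.1
    rw [k4, k3.2, k1.self_of_nhds.2] at k5
    rw [k5]
    ring
  · rintro _ ⟨z, hz, rfl⟩
    obtain ⟨i, g, k1⟩ := PUS.loc h z
    have k2 := ha g i _ k1.self_of_nhds.1
    rw [k1.self_of_nhds.2] at k2
    exact mem_iUnion₂.2 ⟨g, i, _, ⟨q z, ⟨k1.self_of_nhds.1, hz⟩, rfl⟩, k2.symm⟩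

theorem ulift : ULift := by
  intro G ι M Z _ _ _ _ U q s h hc H X Y _ _ _ _ p f hp hσ
  have := hp.toContinuousConstSMul
  have := hp.isCancelSMul
  choose σ h1 h2 using hσ
  obtain ⟨F, hF⟩ := h.glue H Y (fun _ => σ) fun g i g' j _ => by
    by_cases hij : i = j
    · subst hij
      exact ⟨1, fun y _ => (one_smul _ _).symm⟩
    rcases (U i ∩ U j).eq_empty_or_nonempty with k | ⟨y, hy⟩
    · exact ⟨1, fun y hy => by simp [k] at hy⟩
    obtain ⟨a, ha⟩ := hp.apply_eq_iff_mem_orbit.1 ((h2 i y hy.1).trans (h2 j y hy.2).symm)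
    exact ⟨a, hp.isCoveringMap.eqOn_of_comp_eqOn (g₂ := fun w => a • σ j w) (hc i j hij)
      ((h1 i).mono inter_subset_left) (((h1 j).mono inter_subset_right).const_smul a)
      (fun w hw => by
        simp only [Function.comp, hp.map_smul, h2 i w hw.1, h2 j w hw.2]) hy ha.symm⟩
  have key : ∀ z, ∃ (i : ι) (a : H), ∀ᶠ w in 𝓝 z, q w ∈ U i ∧ F w = a • σ i (q w) := fun z => by
    obtain ⟨i, g, k1⟩ := PUS.loc h z
    obtain ⟨a, ha⟩ := hF g i
    exact ⟨i, a, k1.mono fun w k => ⟨k.1, by rw [← ha _ k.1, k.2]⟩⟩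
  refine ⟨F, continuous_iff_continuousAt.2 fun z => ?_, fun z => ?_⟩
  · obtain ⟨i, a, k⟩ := key z
    exact ((((h1 i).continuousAt ((h.op i).mem_nhds k.self_of_nhds.1)).comp
      h.cov.continuous.continuousAt).const_smul a).congr (k.mono fun w hw => hw.2.symm)
  · obtain ⟨i, a, k⟩ := key z
    rw [k.self_of_nhds.2, hp.map_smul, h2 i _ k.self_of_nhds.1]

end Pool.Agent.Lib.MP_356dfe_ag.S
end
end

-- part Pool.Agent.Lib.MP_356dfe_ag.S.PLiftK
section

/-! Lifting atlases. -/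

set_option autoImplicit false

open Set Filter Topology Metric Pool.Agent.Shared.SingHom
open scoped ContDiff Pointwise

noncomputable section

namespace Pool.Agent.Lib.MP_356dfe_ag.S

namespace PLiftK

variable {G Z M : Type} [Group G] [TopologicalSpace Z] [MulAction G Z] [TopologicalSpace M]
  {q : Z → M}

omit [TopologicalSpace Z] in
theorem uniq {W : Set Z} (h : ∀ g : G, (g • W ∩ W).Nonempty → g = 1) {g g' : G} {z : Z}
    (h1 : g⁻¹ • z ∈ W) (h2 : g'⁻¹ • z ∈ W) : g = g' :=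
  inv_mul_eq_one.1 (h (g⁻¹ * g') ⟨g⁻¹ • z, ⟨_, h2, by simp [mul_smul]⟩, h1⟩)

/-- the sheets over a chart -/
theorem exists_e (hq : IsQuotientCoveringMap q G) {W : Set Z} (ho : IsOpen W)
    (h : ∀ g : G, (g • W ∩ W).Nonempty → g = 1) (e : OpenPartialHomeomorph M E2)
    (he : q '' W = e.source) : ∃ (e' : G → OpenPartialHomeomorph Z E2) (s : E2 → Z),
      (∀ g z, z ∈ (e' g).source ↔ g⁻¹ • z ∈ W) ∧ (∀ g, (e' g).target = e.target) ∧
      (∀ g z, e' g z = e (q z)) ∧ (∀ g x, (e' g).symm x = g • s x) ∧ ∀ x, q (s x) = e.symm x := by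
  have := hq.toContinuousConstSMul
  have h0 : ∀ y, ∃ z, q z = y ∧ (y ∈ e.source → z ∈ W) := fun y => by
    by_cases hy : y ∈ e.source
    · obtain ⟨z, h1, h2⟩ := he.ge hy
      exact ⟨z, h2, fun _ => h1⟩
    · obtain ⟨z, h1⟩ := hq.surjective y
      exact ⟨z, h1, fun h => (hy h).elim⟩
  choose s h1 h2 using h0
  have hm : ∀ z ∈ W, q z ∈ e.source := fun z hz => he.le ⟨z, hz, rfl⟩
  have hi : ∀ z ∈ W, s (q z) = z := fun z hz => by
    obtain ⟨g, hg⟩ := hq.apply_eq_iff_mem_orbit.1 (h1 (q z))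
    have hg' : g • z = s (q z) := hg
    rw [← hg', h g ⟨g • z, smul_mem_smul_set hz, hg' ▸ h2 _ (hm z hz)⟩, one_smul]
  let j : OpenPartialHomeomorph Z M := OpenPartialHomeomorph.ofContinuousOpen
    ⟨q, s, W, e.source, hm, h2, hi, fun y _ => h1 y⟩
    hq.continuous.continuousOn hq.isOpenQuotientMap.isOpenMap ho
  refine ⟨fun g => (Homeomorph.smul g).symm.toOpenPartialHomeomorph.trans (j.trans e),
    fun x => s (e.symm x), fun g z => ⟨fun hz => hz.2.1, fun hz => ⟨trivial, hz, hm _ hz⟩⟩,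
    fun g => Set.ext fun x => ⟨fun hx => hx.1.1, fun hx => ⟨⟨hx, e.map_target hx⟩, trivial⟩⟩,
    fun g z => congrArg e (hq.map_smul g⁻¹), fun g x => rfl, fun x => h1 _⟩

theorem fin [T2Space M] [CompactSpace M] (hq : IsQuotientCoveringMap q G) {K : Set Z}
    (hK : IsCompact K) : {g : G | (g • K ∩ K).Nonempty}.Finite := by
  obtain ⟨D, hD⟩ := exists_ctx hq
  obtain ⟨T, h1, -, h2, h3⟩ := hD.ctrl hK
  refine (((finite_singleton 1).mul h1).mul h1).subset fun g hg => h3 g _ (hg.mono ?_)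
  exact inter_subset_inter_right _ (by simpa only [one_smul] using h2 1)

end PLiftK

theorem liftK : LiftK := by
  intro G Z M _ _ _ _ _ _ _ q hq m A hA
  choose W K ho hK hWK hW hd using hA
  choose e s h1 h2 h3 h4 h5 using fun i => PLiftK.exists_e hq (ho i) (hd i) (A.e i) (hW i)
  have hm : ∀ (l : Vx G m) z, z ∈ (e l.2 l.1).source → q z ∈ (A.e l.2).source := fun l z hz =>
    (hW l.2).le ⟨_, (h1 _ _ _).1 hz, hq.map_smul _⟩
  have hex : ∀ i z, q z ∈ (A.e i).source → ∃ g, z ∈ (e i g).source := fun i z hz => by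
    obtain ⟨w, hw, e1⟩ := (hW i).ge hz
    obtain ⟨g, rfl⟩ := hq.apply_eq_iff_mem_orbit.1 e1.symm
    exact ⟨g, (h1 _ _ _).2 (by simpa using hw)⟩
  have hq' : ∀ (l : Vx G m) x, q ((e l.2 l.1).symm x) = (A.e l.2).symm x := fun l x => by
    rw [h4, hq.map_smul, h5]
  have hT : ∀ l l' : Vx G m, e l'.2 l'.1 ∘ (e l.2 l.1).symm = A.e l'.2 ∘ (A.e l.2).symm :=
    fun l l' => funext fun x => by rw [Function.comp_apply, h3, hq', Function.comp_apply]
  have hu : ∀ i g g' z, z ∈ (e i g).source → z ∈ (e i g').source → g = g' :=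
    fun i g g' z a b => PLiftK.uniq (hd i) ((h1 _ _ _).1 a) ((h1 _ _ _).1 b)
  refine ⟨⟨A.m, fun l => A.ty l.2, fun l => e l.2 l.1, A.pot, A.ph, A.act, q ⁻¹' A.E,
    fun l => (h2 _ _).trans (A.tgt _), fun l l' z a b => ?_, A.pot_sm, A.pos,
    fun l l' z a b => ?_, fun z => ?_, ?_, A.ph_sm, A.ph_nn, A.ph_supp, fun z => ?_,
    fun l z a => ?_, fun l l' a b => ?_, inferInstanceAs (Countable (G × Fin m))⟩,
    fun _ _ => rfl, fun g l z => ?_, fun g l z => ?_, fun g l x => ?_, fun _ => rfl, rfl,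
    fun l z a => ⟨hm l z a, h3 _ _ _⟩⟩
  · rw [hT, h3]
    exact A.an _ _ _ (hm l z a) (hm l' z b)
  · rw [hT, h3, h3]
    exact A.law _ _ _ (hm l z a) (hm l' z b)
  · obtain ⟨i, a, b⟩ := A.cov (q z)
    obtain ⟨g, hg⟩ := hex i z a
    exact ⟨(g, i), hg, by rwa [h3]⟩
  · have hF := PLiftK.fin hq (isCompact_iUnion hK)
    refine ⟨(hF.toFinset ×ˢ (Finset.univ : Finset (Fin m))).card, fun l =>
      ⟨(hF.toFinset ×ˢ Finset.univ).image fun p => Vx.mk (l.1 * p.1) p.2, Finset.card_image_le,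
        fun l' ⟨z, a, b⟩ => Finset.mem_image.2 ⟨(l.1⁻¹ * l'.1, l'.2), Finset.mem_product.2
          ⟨hF.mem_toFinset.2 ?_, Finset.mem_univ _⟩, Prod.ext (mul_inv_cancel_left _ _) rfl⟩⟩⟩
    exact ⟨l.1⁻¹ • z, ⟨l'.1⁻¹ • z, mem_iUnion.2 ⟨_, hWK _ ((h1 _ _ _).1 b)⟩, by simp [mul_smul]⟩,
      mem_iUnion.2 ⟨_, hWK _ ((h1 _ _ _).1 a)⟩⟩
  · have h0 : ∀ i, ∃ g, q z ∈ (A.e i).source → z ∈ (e i g).source := fun i => by
      by_cases a : q z ∈ (A.e i).source
      · exact (hex i z a).imp fun _ b _ => b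
      · exact ⟨1, fun b => (a b).elim⟩
    choose γ hγ using h0
    rw [finsum_eq_sum_of_support_subset (s := Finset.univ.image fun i => Vx.mk (γ i) i),
      Finset.sum_image (g := fun i => Vx.mk (γ i) i) fun i _ i' _ e1 => congrArg Prod.snd e1,
      ← A.ph_sum (q z),
      finsum_eq_sum_of_fintype]
    · refine Finset.sum_congr rfl fun i _ => ?_
      by_cases a : q z ∈ (A.e i).source
      · rw [indicator_of_mem a]
        exact (indicator_of_mem (hγ i a) _).trans (congrArg _ (h3 _ _ _))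
      · rw [indicator_of_notMem a]
        exact indicator_of_notMem (fun b => a (hm (Vx.mk (γ i) i) z b)) _
    · intro l hl
      have a := mem_of_indicator_ne_zero hl
      exact Finset.mem_coe.2 (Finset.mem_image.2 ⟨l.2, Finset.mem_univ _,
        Prod.ext (hu _ _ _ z (hγ _ (hm l z a)) a) rfl⟩)
  · rw [h3]
    exact A.hE _ _ (hm l z a)
  · obtain ⟨g, i⟩ := l
    obtain ⟨g', i'⟩ := l'
    obtain rfl : i' = i := A.node i i' a (hq' (g, i) 0 ▸ hm (g', i') _ b)
    exact Prod.ext (hu _ _ _ _ b ((e i' g).map_target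
      (by rw [h2, A.tgt]; exact mem_ball_self (by norm_num)))) rfl
  · refine (h1 _ _ _).trans (Iff.trans ?_ (h1 _ _ _).symm)
    rw [Vx.smul_fst, Vx.smul_snd, mul_inv_rev, mul_smul, inv_smul_smul]
  · exact (h3 _ _ _).trans ((congrArg _ (hq.map_smul g)).trans (h3 _ _ _).symm)
  · exact (h4 _ _ _).trans ((mul_smul _ _ _).trans (congrArg _ (h4 _ _ _).symm))

end Pool.Agent.Lib.MP_356dfe_ag.S
end
end
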