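import Pool.Agent.Lib.MP_356dfe_ag.S.Basic

-- part Pool.Agent.Lib.MP_356dfe_ag.S.PGood
section

/-! Good covers. -/

set_option autoImplicit false

open Set Filter Topology Metric MeasureTheory
open scoped ContDiff ComplexConjugate Matrix Pointwise

noncomputable section

namespace Pool.Agent.Lib.MP_356dfe_ag.S

variable {Z Λ : Type} [TopologicalSpace Z] [T2Space Z] {A : KA Z Λ}

namespace PGood

variable {κ : OpenPartialHomeomorph Z E2} {W : Set E2}

/-- `P` is cut out on `W` by smooth convex functions -/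
def Rep (κ : OpenPartialHomeomorph Z E2) (W : Set E2) (P : Set Z) : Prop :=
  ∃ t : Finset (E2 → ℝ), (∀ F ∈ t, ContDiffOn ℝ ∞ F W ∧ ConvexOn ℝ W F) ∧
    ∀ u ∈ W, κ.symm u ∈ P ↔ ∀ F ∈ t, F u < 0

omit [T2Space Z] in
theorem rep_all {P : Set Z} (h : ∀ u ∈ W, κ.symm u ∈ P) : Rep κ W P :=
  ⟨∅, by simp, by simpa using h⟩

omit [T2Space Z] in
theorem rep_one {P : Set Z} {F : E2 → ℝ} (h : ContDiffOn ℝ ∞ F W) (h' : ConvexOn ℝ W F)
    (e : ∀ u, κ.symm u ∈ P ↔ F u < 0) : Rep κ W P :=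
  ⟨{F}, by simpa using ⟨h, h'⟩, by simpa using fun u _ => e u⟩

omit [T2Space Z] in
theorem Rep.inter {P Q : Set Z} (h : Rep κ W P) (h' : Rep κ W Q) : Rep κ W (P ∩ Q) := by
  classical
  obtain ⟨t, h1, h2⟩ := h
  obtain ⟨t', h3, h4⟩ := h'
  exact ⟨t ∪ t', Finset.forall_mem_union.2 ⟨h1, h3⟩, fun u hu => by
    rw [Finset.forall_mem_union, ← h2 u hu, ← h4 u hu, mem_inter_iff]⟩

omit [T2Space Z] in
theorem rep_VV {ι : Type} {V : ι → Set Z} (s : Finset ι) (h : ∀ i ∈ s, Rep κ W (V i)) :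
    Rep κ W (VV V s) := by
  classical
  induction s using Finset.induction_on with
  | empty => exact rep_all fun u _ => by simp [VV]
  | insert i s _ ih =>
    rw [Finset.forall_mem_insert] at h
    rw [VV, Finset.set_biInter_insert]
    exact h.1.inter (ih h.2)

omit [T2Space Z] in
theorem core (hg : GC) (hκ : A.RCh κ) (hW : IsOpen W) (hc : Convex ℝ W) (ht : W ⊆ κ.target)
    {K C : Set Z} (hK : IsCompact K) (hKW : K ⊆ κ.source ∩ κ ⁻¹' W) (hC : C ⊆ K)
    (hne : C.Nonempty) (hr : Rep κ W C) : A.Good C := by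
  obtain ⟨t, h1, h2⟩ := hr
  have key : ∀ z ∈ κ.source, κ z ∈ {u ∈ W | ∀ F ∈ t, F u < 0} ↔ z ∈ C := fun z hz =>
    ⟨fun e => κ.left_inv hz ▸ (h2 _ e.1).2 e.2, fun e => ⟨(hKW (hC e)).2,
      (h2 _ (hKW (hC e)).2).1 ((κ.left_inv hz).symm ▸ e)⟩⟩
  obtain ⟨T, s1, s2, s3, s4⟩ := hg W (κ '' K) t hW
    (hK.image_of_continuousOn (κ.continuousOn.mono fun z hz => (hKW hz).1))
    (image_subset_iff.2 fun z hz => (hKW hz).2) h1 hc
    (fun u hu => ⟨_, hC ((h2 u hu.1).2 hu.2), κ.right_inv (ht hu.1)⟩)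
    (hne.elim fun z hz => ⟨κ z, (key z (hKW (hC hz)).1).2 hz⟩)
  refine ⟨κ.trans T, fun l z hz hl => ⟨?_, ?_⟩, ?_, ?_⟩
  · refine ContDiffAt.comp (g := T) (f := κ ∘ (A.e l).symm) _ ?_ (hκ l z hz.1 hl).1
    rw [Function.comp_apply, (A.e l).left_inv hl]
    exact s3.contDiffAt (T.open_source.mem_nhds hz.2)
  · refine ContDiffAt.comp (g := A.e l ∘ κ.symm) (f := T.symm) (T (κ z)) ?_ s4.contDiffAt
    rw [T.left_inv (x := κ z) hz.2]
    exact (hκ l z hz.1 hl).2
  · rw [OpenPartialHomeomorph.trans_source, s1]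
    exact Subset.antisymm (fun z hz => (key z hz.1).1 hz.2) fun z hz =>
      ⟨(hKW (hC hz)).1, (key z (hKW (hC hz)).1).2 hz⟩
  · rw [OpenPartialHomeomorph.trans_target, s2, univ_inter]
    exact eq_univ_of_forall fun u => ht (s1 ▸ T.map_target (s2 ▸ mem_univ u)).1

omit [T2Space Z] in
theorem sm_chart {Y : Type} [NormedAddCommGroup Y] [NormedSpace ℝ Y] {f : Z → Y} (hκ : A.RCh κ)
    (hf : ∀ l, ∀ z ∈ A.src l, ContDiffAt ℝ ∞ (f ∘ (A.e l).symm) (A.e l z)) {u : E2}
    (hu : u ∈ κ.target) : ContDiffAt ℝ ∞ (f ∘ κ.symm) u := by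
  have hl := A.mem_i (κ.symm u)
  have h1 := (hκ _ _ (κ.map_target hu) hl).2
  rw [κ.right_inv hu] at h1
  refine ((hf _ _ hl).comp u h1).congr_of_eventuallyEq ?_
  filter_upwards [(κ.continuousAt_symm hu).eventually_mem ((A.e _).open_source.mem_nhds hl)]
    with v hv
  simp only [Function.comp_apply, (A.e _).left_inv hv]

omit [T2Space Z] in
theorem rep_lev {ρ : Z → ℝ} {a b : ℝ} (hs : ContDiffOn ℝ ∞ (ρ ∘ κ.symm) W) (hc : Convex ℝ W)
    (h : (ConvexOn ℝ W (ρ ∘ κ.symm) ∧ ConcaveOn ℝ W (ρ ∘ κ.symm)) ∨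
      ∀ u ∈ W, ρ (κ.symm u) ≠ a ∧ ρ (κ.symm u) ≠ b) {u₀ : E2} (hu : u₀ ∈ W) :
    (a < ρ (κ.symm u₀) → Rep κ W {z | a < ρ z}) ∧ (ρ (κ.symm u₀) < b → Rep κ W {z | ρ z < b}) := by
  rcases h with h | h
  · exact ⟨fun _ => rep_one (contDiffOn_const.sub hs) ((convexOn_const a hc).sub h.2)
      fun u => (sub_neg (b := ρ (κ.symm u))).symm, fun _ => rep_one (hs.sub contDiffOn_const)
      (h.1.sub (concaveOn_const b hc)) fun u => (sub_neg (a := ρ (κ.symm u))).symm⟩
  · refine ⟨fun e => rep_all fun u hu' => (not_le (b := a)).1 fun e' => ?_,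
      fun e => rep_all fun u hu' => (not_le (a := b)).1 fun e' => ?_⟩
    · obtain ⟨v, hv, e''⟩ := hc.isPreconnected.intermediate_value hu' hu hs.continuousOn ⟨e', e.le⟩
      exact (h v hv).1 e''
    · obtain ⟨v, hv, e''⟩ := hc.isPreconnected.intermediate_value hu hu' hs.continuousOn ⟨e.le, e'⟩
      exact (h v hv).2 e''

end PGood

open PGood

theorem good [CompactSpace Z] (h : A.Bas) (hc : A.Cvx) (hg : GC) {F : Type} [NormedAddCommGroup F]
    [InnerProductSpace ℝ F] {Φ : Z → F} (hΦ : A.Emb Φ) : A.GoodE := by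
  intro ρ a b U hρ ha hb hU
  choose κ W δ hκ hx hxW hW hcv ht hδ hq hl using hc F Φ ρ a b hΦ hρ ha hb
  have cΦ : Continuous Φ := continuous_iff_continuousAt.2 fun z =>
    ((A.e _).symm.continuousAt_iff_continuousAt_comp_right (A.mem_i z)).2
      (hΦ.2 _ z (A.mem_i z)).1.continuousAt
  have cρ : Continuous ρ := continuous_iff_continuousAt.2 fun z => h.sm_cont _ _ (hρ z)
  have hε : ∀ x, ∃ ε > 0, ε ≤ δ x ∧
      Φ ⁻¹' closedBall (Φ x) ε ⊆ ((κ x).source ∩ κ x ⁻¹' W x) ∩ U x := fun x => by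
    have h1 := inter_mem (((κ x).isOpen_inter_preimage (hW x)).mem_nhds ⟨hx x, hxW x⟩) (hU x)
    rw [(cΦ.isClosedEmbedding hΦ.1).isInducing.nhds_eq_comap] at h1
    obtain ⟨t, h2, h3⟩ := h1
    obtain ⟨ε, h4, h5⟩ := nhds_basis_closedBall.mem_iff.1 h2
    exact ⟨min ε (δ x), lt_min h4 (hδ x), min_le_right _ _,
      (preimage_mono ((closedBall_subset_closedBall (min_le_left _ _)).trans h5)).trans h3⟩
  choose ε ε0 εδ hε using hε
  obtain ⟨R, R0, hR⟩ := lebesgue_number_lemma_of_metric (isCompact_range cΦ)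
    (c := fun x => ball (Φ x) (ε x)) (fun _ => isOpen_ball)
    (range_subset_iff.2 fun x => mem_iUnion.2 ⟨x, mem_ball_self (ε0 x)⟩)
  choose X hX using fun y => hR _ (mem_range_self y)
  obtain ⟨t, hcov⟩ := isCompact_univ.elim_finite_subcover (fun y => Φ ⁻¹' ball (Φ y) (R / 2))
    (fun _ => isOpen_ball.preimage cΦ) fun y _ => mem_iUnion.2 ⟨y, mem_ball_self (half_pos R0)⟩
  let y : Fin t.card → Z := fun i => t.equivFin.symm i
  let V : Fin t.card → Set Z := fun i => Φ ⁻¹' ball (Φ (y i)) (R / 2) ∩ {z | a < ρ z}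
  have hV : ∀ i, V i ⊆ Φ ⁻¹' closedBall (Φ (X (y i))) (ε (X (y i))) := fun i z hz =>
    ball_subset_closedBall (hX _ (ball_subset_ball (half_le_self R0.le) hz.1))
  have key : ∀ s : Finset (Fin t.card), ∀ i ∈ s, ∀ z ∈ VV V s, Rep (κ (X (y i))) (W (X (y i)))
      (VV V s) ∧ (ρ z < b → Rep (κ (X (y i))) (W (X (y i))) {z | ρ z < b}) := fun s i hi z hz => by
    have hz' := mem_iInter₂.1 hz
    have h1 := (hε _ (hV i (hz' i hi))).1
    have h2 := rep_lev
      (fun u hu => (sm_chart (hκ _) (fun l z => hρ z l) (ht _ hu)).contDiffWithinAt) (hcv _)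
      (hl (X (y i))) h1.2
    rw [(κ _).left_inv h1.1] at h2
    refine ⟨rep_VV s fun j hj => Rep.inter (rep_one
      (F := fun u => ‖Φ ((κ _).symm u) - Φ (y j)‖ ^ 2 - (R / 2) ^ 2) (fun u hu => ?_)
      ((hq _ _ (ball_subset_ball (εδ _) (hX _ ?_))).sub (concaveOn_const _ (hcv _))) fun u => ?_)
      (h2.1 (hz' i hi).2), h2.2⟩
    · exact ((((sm_chart (hκ _) (fun l z hz => (hΦ.2 l z hz).1) (ht _ hu)).sub
        contDiffAt_const).norm_sq ℝ).sub contDiffAt_const).contDiffWithinAt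
    · have := dist_triangle_left (Φ (y j)) (Φ (y i)) (Φ z)
      have e1 : dist (Φ z) (Φ (y j)) < R / 2 := (hz' j hj).1
      have e2 : dist (Φ z) (Φ (y i)) < R / 2 := (hz' i hi).1
      exact mem_ball.2 (by linarith)
    · rw [sub_neg, sq_lt_sq₀ (norm_nonneg _) (half_pos R0).le, mem_preimage, mem_ball,
        dist_eq_norm]
  have fin : ∀ s : Finset (Fin t.card), ∀ i ∈ s, ∀ C ⊆ VV V s, C.Nonempty →
      Rep (κ (X (y i))) (W (X (y i))) C → A.Good C := fun s i hi C hC =>
    core hg (hκ _) (hW _) (hcv _) (ht _) (isClosed_closedBall.preimage cΦ).isCompact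
      ((hε _).trans inter_subset_left) (hC.trans ((biInter_subset_of_mem hi).trans (hV i)))
  refine ⟨t.card, V, ⟨fun i => (isOpen_ball.preimage cΦ).inter (isOpen_lt continuous_const cρ),
    Subset.antisymm (iUnion_subset fun i => inter_subset_right) fun z hz => ?_,
    fun s ⟨i, hi⟩ ⟨z, hz⟩ => fin s i hi _ Subset.rfl ⟨z, hz⟩ (key s i hi z hz).1,
    fun s ⟨i, hi⟩ ⟨z, hz⟩ => fin s i hi _ inter_subset_left ⟨z, hz⟩
      ((key s i hi z hz.1).1.inter ((key s i hi z hz.1).2 hz.2))⟩,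
    fun i => ⟨_, (hV i).trans ((hε _).trans inter_subset_right)⟩⟩
  obtain ⟨x, hx', e⟩ := mem_iUnion₂.1 (hcov (mem_univ z))
  exact mem_iUnion.2 ⟨t.equivFin ⟨x, hx'⟩, by simpa only [y, Equiv.symm_apply_apply] using e, hz⟩

end Pool.Agent.Lib.MP_356dfe_ag.S
end
end

-- part Pool.Agent.Lib.MP_356dfe_ag.S.PPreK
section

/-! Atlases on compact spaces. -/

set_option autoImplicit false

open Set Filter Topology Metric MeasureTheory
open scoped ContDiff ComplexConjugate Matrix Pointwise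

noncomputable section

namespace Pool.Agent.Lib.MP_356dfe_ag.S

namespace PPreK

/-- a bump function on the model space -/
def β : ContDiffBump (0 : E2) := ⟨1, 3 / 2, one_pos, by norm_num⟩

theorem β_one {x : E2} (h : x ∈ ball (0 : E2) 1) : β x = 1 :=
  β.one_of_mem_closedBall (ball_subset_closedBall h)

theorem β_ts : tsupport β = closedBall (0 : E2) (3 / 2) := β.tsupport_eq

theorem β_zero {x : E2} (h : x ∉ closedBall (0 : E2) (3 / 2)) : β x = 0 :=
  image_eq_zero_of_notMem_tsupport (β_ts ▸ h)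

variable {M : Type} [TopologicalSpace M]

/-- the bump function carried to the space -/
def b (φ : OpenPartialHomeomorph M E2) (z : M) : ℝ := φ.source.indicator (fun w => β (φ w)) z

theorem b_nn (φ : OpenPartialHomeomorph M E2) (z : M) : 0 ≤ b φ z :=
  indicator_nonneg (fun _ _ => β.nonneg) z

theorem b_sm [T2Space M] {φ φ' : OpenPartialHomeomorph M E2} (h' : φ'.target = ball 0 4)
    (han : ∀ z, z ∈ φ.source → z ∈ φ'.source → AnalyticAt ℂ (φ' ∘ φ.symm) (φ z))
    {x : E2} (hx : x ∈ φ.target) : ContDiffAt ℝ ∞ (fun y => b φ' (φ.symm y)) x := by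
  have hc : ContinuousAt φ.symm x := φ.continuousAt_symm hx
  by_cases hz : φ.symm x ∈ φ'.source
  · have h1 := han _ (φ.map_target hx) hz
    rw [φ.right_inv hx] at h1
    have h2 : ContDiffAt ℝ ∞ (φ' ∘ φ.symm) x := (h1.contDiffAt (n := ∞)).restrict_scalars ℝ
    refine (β.contDiff.contDiffAt.comp x h2).congr_of_eventuallyEq ?_
    filter_upwards [hc.preimage_mem_nhds (φ'.open_source.mem_nhds hz)] with y hy
    exact indicator_of_mem (s := φ'.source) hy fun w => β (φ' w)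
  · have hsub : closedBall (0 : E2) (3 / 2) ⊆ φ'.target := by
      rw [h']
      exact closedBall_subset_ball (by norm_num)
    have hK : IsCompact (φ'.symm '' closedBall (0 : E2) (3 / 2)) :=
      (isCompact_closedBall _ _).image_of_continuousOn (φ'.continuousOn_symm.mono hsub)
    have hn : φ.symm x ∈ (φ'.symm '' closedBall (0 : E2) (3 / 2))ᶜ := by
      rintro ⟨u, hu, he⟩
      exact hz (he ▸ φ'.map_target (hsub hu))
    refine (contDiffAt_const (c := (0 : ℝ))).congr_of_eventuallyEq ?_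
    filter_upwards [hc.preimage_mem_nhds (hK.isClosed.isOpen_compl.mem_nhds hn)] with y hy
    by_cases hy' : φ.symm y ∈ φ'.source
    · exact (indicator_of_mem hy' _).trans (β_zero fun h => hy ⟨_, h, φ'.left_inv hy'⟩)
    · exact indicator_of_notMem hy' _

end PPreK

open PPreK in
theorem preK : PreK := by
  intro M _ _ _ E e pot act h1 h2 h3
  obtain ⟨t, ht⟩ := isCompact_univ.elim_finite_subcover
    (fun x : M => (e x).source ∩ e x ⁻¹' ball 0 1)
    (fun x => (e x).isOpen_inter_preimage isOpen_ball)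
    (fun x _ => mem_iUnion.2 ⟨x, (h1 x).2.1, by
      rw [mem_preimage, (h1 x).2.2.1]
      exact mem_ball_self one_pos⟩)
  let c : Fin t.card → M := fun l => (t.equivFin.symm l : M)
  have hc : Function.Injective c := Subtype.val_injective.comp t.equivFin.symm.injective
  have hcov : ∀ z, ∃ l, z ∈ (e (c l)).source ∧ e (c l) z ∈ ball (0 : E2) 1 := fun z => by
    obtain ⟨x, hx, hz⟩ := mem_iUnion₂.1 (ht (mem_univ z))
    refine ⟨t.equivFin ⟨x, hx⟩, ?_⟩
    have : c (t.equivFin ⟨x, hx⟩) = x := by simp only [c, Equiv.symm_apply_apply]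
    rw [this]
    exact hz
  let S : M → ℝ := fun z => ∑ l, b (e (c l)) z
  have hS : ∀ z, 0 < S z := fun z => by
    obtain ⟨l, hl, hl'⟩ := hcov z
    refine Finset.sum_pos' (fun l _ => b_nn _ _) ⟨l, Finset.mem_univ _, ?_⟩
    rw [b, indicator_of_mem hl, β_one hl']
    exact one_pos
  have hts : ∀ l, tsupport (fun x => β x / S ((e (c l)).symm x)) ⊆ closedBall 0 (3 / 2) :=
    fun l => β_ts ▸ closure_mono fun x hx h => hx (by simp only [h, zero_div])
  refine ⟨t.card,
    { m := t.card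
      ty := id
      e := fun l => e (c l)
      pot := fun l => pot (c l)
      ph := fun l x => β x / S ((e (c l)).symm x)
      act := fun l => act (c l)
      E := E
      tgt := fun l => (h1 _).1
      an := fun l l' z hz hz' => (h2 _ _ z hz hz').1
      pot_sm := fun l => (h1 _).2.2.2.1
      pos := fun l => (h1 _).2.2.2.2.1
      law := fun l l' z hz hz' => (h2 _ _ z hz hz').2
      cov := hcov
      mult := ⟨t.card, fun l => ⟨Finset.univ, by simp, fun _ _ => Finset.mem_univ _⟩⟩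
      ph_sm := fun l => ?_
      ph_nn := fun l x => div_nonneg β.nonneg (hS _).le
      ph_supp := fun l => (hts l).trans (closedBall_subset_ball (by norm_num))
      ph_sum := fun z => ?_
      hE := fun l => (h1 _).2.2.2.2.2
      node := fun l l' hl hl' => ?_
      cnt := inferInstance }, c, rfl, fun l => ⟨rfl, rfl⟩⟩
  · refine contDiff_iff_contDiffAt.2 fun x => ?_
    by_cases hx : x ∈ ball (0 : E2) 4
    · refine β.contDiff.contDiffAt.div ?_ (hS _).ne'
      exact ContDiffAt.sum fun l' _ => b_sm (h1 _).1 (fun z hz hz' => (h2 _ _ z hz hz').1)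
        ((h1 (c l)).1 ▸ hx)
    · refine (contDiffAt_const (c := (0 : ℝ))).congr_of_eventuallyEq ?_
      exact notMem_tsupport_iff_eventuallyEq.1 fun h =>
        hx (closedBall_subset_ball (by norm_num) (hts l h))
  · rw [finsum_eq_sum_of_fintype, ← div_self (hS z).ne', Finset.sum_div]
    refine Finset.sum_congr rfl fun l _ => ?_
    by_cases hz : z ∈ (e (c l)).source
    · rw [indicator_of_mem hz, b, indicator_of_mem hz, id, (e (c l)).left_inv hz]
    · rw [indicator_of_notMem hz, b, indicator_of_notMem hz, zero_div]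
  · have : (e (c l)).symm 0 = c l := by
      have := (e (c l)).left_inv (h1 (c l)).2.1
      rwa [(h1 (c l)).2.2.1] at this
    rw [this] at hl'
    exact hc (h3 _ _ hl hl')

end Pool.Agent.Lib.MP_356dfe_ag.S
end
end
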