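import Pool.Agent.Lib.MP_356dfe_ag.S.Basic

/-! The rank theorem for von Neumann dimensions. -/

set_option autoImplicit false

open Set Filter Topology Metric MeasureTheory
open scoped ContDiff ComplexConjugate Matrix Pointwise

noncomputable section

namespace Pool.Agent.Lib.MP_356dfe_ag.S

namespace PRank

open scoped RealInnerProductSpace

theorem proj_congr {E : Type} [NormedAddCommGroup E] [InnerProductSpace ℝ E]
    {W W' : Submodule ℝ E} [W.HasOrthogonalProjection] [W'.HasOrthogonalProjection] (h : W = W') :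
    W.starProjection = W'.starProjection := by
  subst h
  rfl

theorem ergodic {E : Type} [NormedAddCommGroup E] [InnerProductSpace ℝ E] [CompleteSpace E]
    (d d' : E →L[ℝ] E) (hadj : ∀ x y, ⟪d x, y⟫ = ⟪x, d' y⟫) {c : ℝ} (hc : 0 < c)
    (hc' : c * ‖d'‖ ^ 2 ≤ 2) (x : E) :
    Tendsto (fun n : ℕ => (n : ℝ)⁻¹ * ∑ k ∈ Finset.range n, ⟪((1 - c • (d' ∘L d)) ^ k) x, x⟫) atTop
      (𝓝 ⟪d.ker.starProjection x, x⟫) := by
  set T : E →L[ℝ] E := 1 - c • (d' ∘L d) with hT
  have hTx : ∀ y, T y = y - c • d' (d y) := fun y => rfl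
  have h1 : ‖T‖ ≤ 1 := by
    refine ContinuousLinearMap.opNorm_le_bound _ zero_le_one fun y => ?_
    rw [one_mul, ← sq_le_sq₀ (norm_nonneg _) (norm_nonneg _), hTx, norm_sub_sq_real,
      inner_smul_right, ← hadj, real_inner_self_eq_norm_sq, norm_smul, mul_pow, Real.norm_eq_abs,
      sq_abs]
    have a1 : ‖d' (d y)‖ ^ 2 ≤ ‖d'‖ ^ 2 * ‖d y‖ ^ 2 := by
      rw [← mul_pow]
      exact pow_le_pow_left₀ (norm_nonneg _) (d'.le_opNorm _) 2
    have a2 := mul_le_mul_of_nonneg_left a1 (sq_nonneg c)
    have a3 := mul_le_mul_of_nonneg_right hc' (mul_nonneg hc.le (sq_nonneg ‖d y‖))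
    nlinarith
  have h2 : T.eqLocus (1 : E →L[ℝ] E) = d.ker := by
    ext y
    change T y = y ↔ d y = 0
    rw [hTx, sub_eq_self, smul_eq_zero, or_iff_right hc.ne']
    refine ⟨fun h => ?_, fun h => by rw [h, map_zero]⟩
    rw [← inner_self_eq_zero (𝕜 := ℝ), hadj, h, inner_zero_right]
  have h3 := (T.tendsto_birkhoffAverage_orthogonalProjection h1 x).inner (𝕜 := ℝ)
    (tendsto_const_nhds (x := x))
  rw [Submodule.coe_orthogonalProjectionOnto_apply, proj_congr h2] at h3
  refine h3.congr fun n => ?_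
  simp [birkhoffAverage, birkhoffSum, inner_smul_left, sum_inner]

variable {G F H : Type} [Group G] [Fintype F] [NormedAddCommGroup H] [InnerProductSpace ℝ H]
  {b : HilbertBasis (G × F) ℝ H} {u : G →* (H ≃ₗᵢ[ℝ] H)} {S T : H →L[ℝ] H}

/-- the trace -/
def τ (b : HilbertBasis (G × F) ℝ H) (S : H →L[ℝ] H) : ℝ := ∑ i, ⟪S (b (1, i)), b (1, i)⟫

/-- equivariant operators -/
def Eqv (u : G →* (H ≃ₗᵢ[ℝ] H)) (S : H →L[ℝ] H) : Prop := ∀ g x, S (u g x) = u g (S x)

theorem u_adj (g : G) (x y : H) : ⟪u g x, y⟫ = ⟪x, u g⁻¹ y⟫ := by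
  have : u g (u g⁻¹ y) = y := by
    change (u g * u g⁻¹) y = y
    rw [← map_mul, mul_inv_cancel, map_one]
    rfl
  conv_lhs => rw [← this]
  exact (u g).inner_map_map _ _

theorem Eqv.comp (hS : Eqv u S) (hT : Eqv u T) : Eqv u (S ∘L T) := fun g x => by
  rw [ContinuousLinearMap.comp_apply, hT, hS]
  rfl

theorem eqv_proj (W : Submodule ℝ H) [W.HasOrthogonalProjection] (hW : ∀ g, ∀ x ∈ W, u g x ∈ W) :
    Eqv u W.starProjection := fun g x => by
  refine Submodule.eq_starProjection_of_mem_of_inner_eq_zero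
    (hW g _ (W.starProjection_apply_mem x)) fun w hw => ?_
  rw [← map_sub, u_adj]
  exact W.starProjection_inner_eq_zero x _ (hW _ _ hw)

theorem τ_sub (S T : H →L[ℝ] H) : τ b (S - T) = τ b S - τ b T := by
  simp [τ, inner_sub_left]

theorem τ_add (S T : H →L[ℝ] H) : τ b (S + T) = τ b S + τ b T := by
  simp [τ, inner_add_left, Finset.sum_add_distrib]

theorem τ_smul (c : ℝ) (S : H →L[ℝ] H) : τ b (c • S) = c * τ b S := by
  simp [τ, inner_smul_left, Finset.mul_sum]

variable [CompleteSpace H]

theorem Eqv.adjoint (hS : Eqv u S) : Eqv u (ContinuousLinearMap.adjoint S) := fun g x => by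
  refine ext_inner_right ℝ fun y => ?_
  rw [ContinuousLinearMap.adjoint_inner_left, u_adj, u_adj, ContinuousLinearMap.adjoint_inner_left,
    hS]

theorem τ_split (hb : ∀ g h i, u g (b (h, i)) = b (g * h, i)) (hS : Eqv u S) (T : H →L[ℝ] H) :
    τ b (S ∘L T) = ∑ i, ∑ j, ∑' g, ⟪T (b (1, i)), b (g, j)⟫ * ⟪S (b (1, j)), b (g⁻¹, i)⟫ := by
  refine Finset.sum_congr rfl fun i _ => ?_
  rw [ContinuousLinearMap.comp_apply, ← ContinuousLinearMap.adjoint_inner_right]
  have h0 := b.hasSum_inner_mul_inner (T (b (1, i))) (ContinuousLinearMap.adjoint S (b (1, i)))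
  have h1 := (Equiv.prodComm F G).summable_iff.2 h0.summable
  rw [← h0.tsum_eq, ← (Equiv.prodComm F G).tsum_eq]
  refine h1.tsum_prod.trans ?_
  rw [tsum_fintype]
  refine Finset.sum_congr rfl fun j _ => tsum_congr fun g => ?_
  refine congrArg (_ * ·) (?_ : ⟪b (g, j), _⟫ = _)
  rw [ContinuousLinearMap.adjoint_inner_right, ← mul_one g, ← hb, hS, u_adj, hb, mul_one, mul_one]

theorem τ_comm (hb : ∀ g h i, u g (b (h, i)) = b (g * h, i)) (hS : Eqv u S) (hT : Eqv u T) :
    τ b (S ∘L T) = τ b (T ∘L S) := by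
  rw [τ_split hb hS, τ_split hb hT, Finset.sum_comm]
  refine Finset.sum_congr rfl fun j _ => Finset.sum_congr rfl fun i _ => ?_
  refine Eq.trans (tsum_congr fun g => ?_) ((Equiv.inv G).tsum_eq _)
  rw [Equiv.inv_apply, inv_inv, mul_comm]

theorem τ_ker (hb : ∀ g h i, u g (b (h, i)) = b (g * h, i)) {d : H →L[ℝ] H} (hd : Eqv u d) :
    τ b (ContinuousLinearMap.adjoint d).ker.starProjection = τ b d.ker.starProjection := by
  set d' := ContinuousLinearMap.adjoint d with hd'
  have he : Eqv u d' := hd.adjoint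
  obtain ⟨c, hc, hc'⟩ : ∃ c : ℝ, 0 < c ∧ c * ‖d‖ ^ 2 ≤ 2 := ⟨1 / (‖d‖ ^ 2 + 1), by positivity, by
    rw [div_mul_eq_mul_div, div_le_iff₀ (by positivity)]
    nlinarith [sq_nonneg ‖d‖]⟩
  set T : H →L[ℝ] H := 1 - c • (d ∘L d') with hT
  set T' : H →L[ℝ] H := 1 - c • (d' ∘L d) with hT'
  have e2 : ∀ k, Eqv u (T' ^ k) := fun k => by
    induction k with
    | zero => exact fun _ _ => rfl
    | succ k ih =>
      rw [pow_succ]
      refine ih.comp fun g x => ?_
      change u g x - c • d' (d (u g x)) = u g (x - c • d' (d x))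
      rw [hd, he, map_sub, map_smul]
  have h1 : ∀ k x, (T ^ k) (d x) = d ((T' ^ k) x) := by
    intro k
    induction k with
    | zero => exact fun x => rfl
    | succ k ih =>
      intro x
      rw [pow_succ, pow_succ, mul_apply_eq_comp, mul_apply_eq_comp, ← ih]
      simp [hT, hT']
  have h2 : ∀ k, τ b (T ^ k) = τ b (T' ^ k) := by
    intro k
    induction k with
    | zero => simp
    | succ k ih =>
      have a1 : T ^ (k + 1) = T ^ k - c • (d ∘L ((T' ^ k) ∘L d')) := by
        ext1 x
        rw [pow_succ]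
        change (T ^ k) (x - c • d (d' x)) = (T ^ k) x - c • d ((T' ^ k) (d' x))
        rw [map_sub, map_smul, h1]
      have a2 : T' ^ (k + 1) = T' ^ k - c • (((T' ^ k) ∘L d') ∘L d) := by
        ext1 x
        rw [pow_succ]
        change (T' ^ k) (x - c • d' (d x)) = (T' ^ k) x - c • (T' ^ k) (d' (d x))
        rw [map_sub, map_smul]
      rw [a1, a2, τ_sub, τ_sub, τ_smul, τ_smul, τ_comm hb hd ((e2 k).comp he), ih]
  have h3 := tendsto_finsetSum Finset.univ fun i _ => ergodic d' d
    (fun x y => ContinuousLinearMap.adjoint_inner_left d y x) hc hc' (b (1, i))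
  have h4 := tendsto_finsetSum Finset.univ fun j _ => ergodic d d'
    (fun x y => (ContinuousLinearMap.adjoint_inner_right d x y).symm) hc
    (by rwa [hd', LinearIsometryEquiv.norm_map]) (b (1, j))
  refine tendsto_nhds_unique h3 (h4.congr fun n => ?_)
  rw [← Finset.mul_sum, ← Finset.mul_sum, Finset.sum_comm, Finset.sum_comm (s := Finset.univ)]
  exact congrArg _ (Finset.sum_congr rfl fun k _ => (h2 k).symm)

theorem dim_eq {V : Submodule ℝ H} (W : Submodule ℝ H) [W.HasOrthogonalProjection]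
    (h : V.topologicalClosure = W) : dimG b V = τ b W.starProjection := by
  refine Finset.sum_congr rfl fun i _ => ?_
  rw [proj_congr h]
  have := W.starProjection_inner_eq_zero (b (1, i)) _ (W.starProjection_apply_mem (b (1, i)))
  rw [inner_sub_left, real_inner_self_eq_norm_sq, real_inner_comm] at this
  linarith

end PRank

open PRank in
theorem rn : RN := by
  intro G F H _ _ _ _ _ b u hb T V hT ⟨hV, hu⟩
  have := hV.completeSpace_coe
  have hK : IsClosed ((V ⊓ LinearMap.ker T.toLinearMap : Submodule ℝ H) : Set H) :=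
    hV.inter (ContinuousLinearMap.isClosed_ker T)
  have := hK.completeSpace_coe
  set K := V ⊓ LinearMap.ker T.toLinearMap
  set W := (V.map T.toLinearMap).topologicalClosure
  set A := T ∘L V.starProjection
  have h1 := τ_ker hb (d := A) (Eqv.comp hT (eqv_proj V hu))
  have h2 : (ContinuousLinearMap.adjoint A).ker = Wᗮ := by
    rw [← ContinuousLinearMap.orthogonal_range, Submodule.orthogonal_closure]
    refine congrArg _ (le_antisymm ?_ ?_)
    · rintro _ ⟨x, rfl⟩
      exact ⟨_, V.starProjection_apply_mem x, rfl⟩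
    · rintro _ ⟨x, hx, rfl⟩
      exact ⟨x, congrArg T (Submodule.starProjection_eq_self_iff.2 hx)⟩
  have h3 : A.ker.starProjection =
      K.starProjection + (ContinuousLinearMap.id ℝ H - V.starProjection) := by
    ext1 x
    have a1 := K.starProjection_apply_mem x
    refine Submodule.eq_starProjection_of_mem_of_inner_eq_zero ?_ fun w hw => ?_
    · change T (V.starProjection (K.starProjection x + (x - V.starProjection x))) = 0
      rw [map_add V.starProjection, map_sub V.starProjection,
        Submodule.starProjection_eq_self_iff.2 (V.starProjection_apply_mem x), sub_self, add_zero,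
        Submodule.starProjection_eq_self_iff.2 a1.1]
      exact a1.2
    · have a2 := K.starProjection_inner_eq_zero x _ ⟨V.starProjection_apply_mem w, hw⟩
      change inner ℝ (x - (K.starProjection x + (x - V.starProjection x))) w = 0
      rw [← Submodule.inner_starProjection_left_eq_right, map_sub,
        Submodule.starProjection_eq_self_iff.2 a1.1] at a2
      rw [← a2]
      congr 1
      abel
  rw [proj_congr h2, Submodule.starProjection_orthogonal, h3, τ_add, τ_sub, τ_sub] at h1
  rw [dim_eq V hV.submodule_topologicalClosure_eq, dim_eq K hK.submodule_topologicalClosure_eq,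
    dim_eq W rfl]
  linarith

end Pool.Agent.Lib.MP_356dfe_ag.S
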