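import Pool.Agent.Lib.MP_356dfe_ag.S.PResA

/-! Vanishing of residues. -/

set_option autoImplicit false

open Set Filter Topology Metric MeasureTheory
open scoped ContDiff ComplexConjugate Matrix Pointwise

noncomputable section

namespace Pool.Agent.Lib.MP_356dfe_ag.S

variable {Z Λ : Type} [TopologicalSpace Z] [T2Space Z] [MeasurableSpace Z] [BorelSpace Z]
  {A : KA Z Λ}

namespace PRes

variable {ρ : Z → ℝ} {a b : ℝ} {N : Set Z}

omit [BorelSpace Z] in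
theorem src_sub (h : A.Std) (hb : Nbh A ρ a b N) {l : Λ} (hl : (A.act (A.ty l)).Nonempty) {z : Z}
    (hz : z ∈ A.src l) (hN : z ∈ N) : A.src l ⊆ N := by
  have hc : Continuous ρ := continuous_iff_continuousAt.2 fun w => h.bas.sm_cont _ _ (hb.sm w)
  have hp : IsPreconnected (A.src l) := by
    rw [KA.src, ← (A.e l).symm_image_target_eq_source]
    exact (A.tgt l ▸ (convex_ball (0 : E2) 4).isPreconnected).image _ (A.e l).continuousOn_symm
  refine (hp.subset_left_of_subset_union (u := N ∩ {w | ρ w < a}) (v := (N ∩ {w | ρ w ≤ a})ᶜ)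
    (hb.op.inter (isOpen_lt hc continuous_const)) (hb.cpt a hb.lt).isClosed.isOpen_compl
    (disjoint_left.2 fun w h1 h2 => h2 ⟨h1.1, le_of_lt (a := ρ w) h1.2⟩) (fun w hw => ?_)
    ⟨z, hz, hN, hb.small l hl z hz⟩).trans inter_subset_left
  by_cases h1 : w ∈ N
  · exact .inl ⟨h1, hb.small l hl w hw⟩
  · exact .inr fun h2 => h1 h2.1

/-- the charts in `N` that meet the curve -/
def L0 (A : KA Z Λ) (N : Set Z) : Set Λ := {l | A.src l ⊆ N ∧ (A.act (A.ty l)).Nonempty}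

omit [T2Space Z] [BorelSpace Z] in
theorem L0_fin (h : A.Std) (hb : Nbh A ρ a b N) : (L0 A N).Finite := by
  refine (h.bump.lf _ (hb.cpt 0 (hb.pos.trans hb.lt))).subset fun l ⟨h1, k, hk⟩ => ?_
  have h0 : (0 : E2) ∈ ball (0 : E2) 4 := mem_ball_self (by norm_num)
  have h2 := A.symm_mem l h0
  exact ⟨_, h2, h1 h2, ((hb.zero _).2 ((A.hE l _ h2).2 ⟨k, hk, by rw [A.e_symm l h0]; rfl⟩)).le⟩

omit [T2Space Z] [MeasurableSpace Z] [BorelSpace Z] in
theorem oth_ne {l l' : Λ} (hl : l' ≠ l) {z : Z} (hz : z ∈ A.src l) (hz' : z ∈ A.src l')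
    {k : Fin 2} (hk : k ∈ A.act (A.ty l)) (h0 : A.e l z k = 0) :
    oth (A.act (A.ty l)) k (A.e l z) ≠ 0 := by
  rw [oth]
  split_ifs with h1
  · intro h2
    have : A.e l z = 0 := funext fun j => by rcases eq_or_rev j k with rfl | rfl <;> assumption
    refine hl (A.node l l' (Finset.eq_univ_of_forall fun j => ?_) ?_)
    · rcases eq_or_rev j k with rfl | rfl <;> assumption
    · rwa [← this, (A.e l).left_inv hz]
  · exact one_ne_zero

omit [T2Space Z] [MeasurableSpace Z] [BorelSpace Z] in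
theorem br_e (c : Λ × Fin 2) {w : ℂ} (hw : w ∈ ball (0 : ℂ) 4) :
    A.br c w ∈ A.src c.1 ∧ A.e c.1 (A.br c w) = Pi.single c.2.rev w :=
  ⟨A.symm_mem _ (single_ball.2 hw), A.e_symm _ (single_ball.2 hw)⟩

omit [T2Space Z] [MeasurableSpace Z] [BorelSpace Z] in
theorem br_eq {l : Λ} {k : Fin 2} {z : Z} (hz : z ∈ A.src l) (h0 : A.e l z k = 0) :
    A.br (l, k) (A.e l z k.rev) = z := by
  rw [KA.br, single_rev h0, (A.e l).left_inv hz]

omit [T2Space Z] [MeasurableSpace Z] [BorelSpace Z] in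
theorem br_E {c : Λ × Fin 2} (hc : c.2 ∈ A.act (A.ty c.1)) {w : ℂ} (hw : w ∈ ball (0 : ℂ) 4) :
    A.br c w ∈ A.E :=
  (A.hE _ _ (br_e c hw).1).2 ⟨_, hc, by rw [(br_e c hw).2, single_k]⟩

omit [T2Space Z] [MeasurableSpace Z] [BorelSpace Z] in
theorem br_cont (c : Λ × Fin 2) {w : ℂ} (hw : w ∈ ball (0 : ℂ) 4) : ContinuousAt (A.br c) w :=
  ContinuousAt.comp (f := fun w : ℂ => (Pi.single c.2.rev w : E2))
    ((A.e c.1).continuousAt_symm (A.tgt _ ▸ single_ball.2 hw))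
    (diff_single c.2.rev).continuous.continuousAt

/-- the normal forms in all charts -/
def All (A : KA Z Λ) (N : Set Z) (f : Z → Z → ℝ) (ℓ : Z → ℂ) (r : Λ → Fin 2 → ℝ) (g : Λ → E2 → ℝ)
    (m : Λ → Fin 2 → ℕ) (u : Λ → E2 → ℂ) : Prop :=
  ∀ l ∈ L0 A N, Dat (A.act (A.ty l)) (fun y x => f ((A.e l).symm y) ((A.e l).symm x))
    (ℓ ∘ (A.e l).symm) (r l) (g l) (m l) (u l)

/-- the difference of two local primitives -/
def Df (A : KA Z Λ) (g : Λ → E2 → ℝ) (l l' : Λ) (z : Z) : ℝ := g l (A.e l z) - g l' (A.e l' z)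

/-- its extension over the curve -/
def mu (A : KA Z Λ) (g : Λ → E2 → ℝ) (l l' : Λ) (z : Z) : ℝ := limUnder (𝓝[A.Eᶜ] z) (Df A g l l')

variable {f : Z → Z → ℝ} {ℓ : Z → ℂ} {r : Λ → Fin 2 → ℝ} {g : Λ → E2 → ℝ} {m : Λ → Fin 2 → ℕ}
  {u : Λ → E2 → ℂ}

omit [T2Space Z] [BorelSpace Z] in
theorem lim (h : A.Std) {l l' : Λ} {z : Z} (hz : z ∈ A.src l) {ν : E2 → ℝ}
    (hν : ContDiffAt ℝ ∞ ν (A.e l z)) (e : ∀ᶠ w in 𝓝 z, w ∉ A.E → Df A g l l' w = ν (A.e l w)) :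
    ∀ᶠ w in 𝓝 z, mu A g l l' w = ν (A.e l w) ∧
      Tendsto (Df A g l l') (𝓝[A.Eᶜ] w) (𝓝 (mu A g l l' w)) := by
  have h1 : ∀ᶠ x in 𝓝 (A.e l z), ContinuousAt ν x :=
    ((hν.of_le (m := 0) (by simp)).eventually (by simp)).mono fun _ hx => hx.continuousAt
  filter_upwards [e.eventually_nhds, ((A.e l).continuousAt hz).eventually h1,
    (A.e l).open_source.mem_nhds hz] with w a1 a2 a3
  have := mem_closure_iff_nhdsWithin_neBot.1 (h.bump.dense w)
  have t : Tendsto (Df A g l l') (𝓝[A.Eᶜ] w) (𝓝 (ν (A.e l w))) :=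
    ((a2.comp ((A.e l).continuousAt a3)).tendsto.mono_left nhdsWithin_le_nhds).congr' (by
      filter_upwards [a1.filter_mono nhdsWithin_le_nhds, self_mem_nhdsWithin] with y b1 b2
      exact (b1 b2).symm)
  have e' : mu A g l l' w = ν (A.e l w) := t.limUnder_eq
  exact ⟨e', e' ▸ t⟩

omit [T2Space Z] [MeasurableSpace Z] [BorelSpace Z] in
theorem ov (hn : NF) (hd : Div) (H : All A N f ℓ r g m u) {l l' : Λ} (hl : l ∈ L0 A N)
    (hl' : l' ∈ L0 A N) (ne : l' ≠ l) {z : Z} (hz : z ∈ A.src l) (hz' : z ∈ A.src l') {k k' : Fin 2}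
    (hk : k ∈ A.act (A.ty l)) (hk' : k' ∈ A.act (A.ty l')) (h0 : A.e l z k = 0)
    (h0' : A.e l' z k' = 0) :
    r l k = r l' k' ∧ m l k = m l' k' ∧ ∃ ν : E2 → ℝ, ContDiffAt ℝ ∞ ν (A.e l z) ∧
      (∀ᶠ w in 𝓝 z, w ∉ A.E → Df A g l l' w = ν (A.e l w)) ∧
      ∀ t : ℝ, r l k = t * m l k → u l (A.e l z) ≠ 0 → u l' (A.e l' z) ≠ 0 → ∃ C, ∀ᶠ w in 𝓝 z,
        ν (A.e l w) - (t * m l k.rev - r l k.rev) * Complex.arg (A.e l w k.rev / A.e l z k.rev) -
          t * Complex.arg (u l (A.e l w) / u l (A.e l z)) =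
        C - (t * m l' k'.rev - r l' k'.rev) * Complex.arg (A.e l' w k'.rev / A.e l' z k'.rev) -
          t * Complex.arg (u l' (A.e l' w) / u l' (A.e l' z)) := by
  have eT : ∀ w ∈ A.src l, (A.e l' ∘ (A.e l).symm) (A.e l w) = A.e l' w := fun w hw => by
    rw [Function.comp_apply, (A.e l).left_inv hw]
  have e1 : ∀ᶠ x in 𝓝 (A.e l z), (A.e l).symm x ∈ A.src l' :=
    A.ev_symm hz ((A.e l').open_source.mem_nhds hz')
  have e2 : ∀ᶠ x in 𝓝 (A.e l z), x ∈ ball (0 : E2) 4 := isOpen_ball.mem_nhds (A.map_src hz)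
  have e3 : ∀ᶠ x in 𝓝 (A.e l' z), (A.e l').symm x ∈ A.src l :=
    A.ev_symm hz' ((A.e l).open_source.mem_nhds hz)
  have e4 : ∀ᶠ x in 𝓝 (A.e l' z), x ∈ ball (0 : E2) 4 := isOpen_ball.mem_nhds (A.map_src hz')
  obtain ⟨a1, a2, ν, a3, a4, a5⟩ := ovf hn hd (H l hl) (H l' hl') (T := A.e l' ∘ (A.e l).symm)
    (S := A.e l ∘ (A.e l').symm) (A.an l l' z hz hz') ((eT z hz).symm ▸ A.an l' l z hz' hz)
    ((e1.and e2).mono fun x hx => by
      simp only [Function.comp_apply, (A.e l').left_inv hx.1, A.e_symm l hx.2])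
    ((eT z hz).symm ▸ (e3.and e4).mono fun x hx => by
      simp only [Function.comp_apply, (A.e l).left_inv hx.1, A.e_symm l' hx.2])
    (A.map_src hz) ((eT z hz).symm ▸ A.map_src hz') hk hk' h0 ((eT z hz).symm ▸ h0')
    (oth_ne ne hz hz' hk h0) ((eT z hz).symm ▸ oth_ne ne.symm hz' hz hk' h0')
    ((e1.and e2).mono fun x hx => by
      have := A.hE l _ (A.symm_mem l hx.2)
      rw [A.e_symm l hx.2] at this
      exact this.symm.trans (A.hE l' _ hx.1))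
    (e1.eventually_nhds.mono fun y hy => hy.mono fun x hx => by
      simp only [Function.comp_apply, (A.e l').left_inv hx, (A.e l').left_inv hy.self_of_nhds])
    (e1.mono fun x hx => by simp only [Function.comp_apply, (A.e l').left_inv hx])
  have ce := (A.e l).continuousAt hz
  have es : ∀ᶠ w in 𝓝 z, w ∈ A.src l := (A.e l).open_source.mem_nhds hz
  refine ⟨a1, a2, ν, a3, ?_, fun t ht hu hu' => ?_⟩
  · filter_upwards [ce.eventually a4, es] with w b1 b2 b3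
    rw [← b1 fun e => b3 ((A.hE l w b2).2 ⟨k, hk, e⟩), eT w b2, Df]
  · obtain ⟨C, hC⟩ := a5 t ht hu ((eT z hz).symm ▸ hu')
    refine ⟨C, ?_⟩
    filter_upwards [ce.eventually hC, es] with w b1 b2
    rw [eT w b2, eT z hz, (H l hl).coef, (H l' hl').coef] at b1
    exact b1

omit [T2Space Z] [BorelSpace Z] in
theorem mu_spec (h : A.Std) (hn : NF) (hd : Div) (H : All A N f ℓ r g m u) {l l' : Λ}
    (hl : l ∈ L0 A N) (hl' : l' ∈ L0 A N) {z : Z} (hz : z ∈ A.src l) (hz' : z ∈ A.src l')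
    (hE : z ∈ A.E) : ContDiffAt ℝ ∞ (mu A g l l' ∘ (A.e l).symm) (A.e l z) ∧
      Tendsto (Df A g l l') (𝓝[A.Eᶜ] z) (𝓝 (mu A g l l' z)) := by
  obtain ⟨ν, h1, h2⟩ : ∃ ν : E2 → ℝ, ContDiffAt ℝ ∞ ν (A.e l z) ∧
      ∀ᶠ w in 𝓝 z, w ∉ A.E → Df A g l l' w = ν (A.e l w) := by
    by_cases ne : l' = l
    · exact ⟨fun _ => 0, contDiffAt_const, .of_forall fun w _ => by rw [ne, Df, sub_self]⟩
    · obtain ⟨k, hk, h0⟩ := (A.hE l z hz).1 hE
      obtain ⟨k', hk', h0'⟩ := (A.hE l' z hz').1 hE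
      obtain ⟨-, -, ν, a1, a2, -⟩ := ov hn hd H hl hl' ne hz hz' hk hk' h0 h0'
      exact ⟨ν, a1, a2⟩
  have h3 := lim h hz h1 h2
  refine ⟨h1.congr_of_eventuallyEq ?_, h3.self_of_nhds.2⟩
  filter_upwards [A.ev_symm hz h3, isOpen_ball.mem_nhds (A.map_src hz)] with x b1 b2
  rw [Function.comp_apply, b1.1, A.e_symm l b2]

/-- the averaged cochain -/
def Gl (A : KA Z Λ) (g : Λ → E2 → ℝ) (s : Finset Λ) (l : Λ) (z : Z) : ℝ :=
  ∑ l' ∈ s, A.phi l' z * mu A g l l' z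

omit [T2Space Z] [BorelSpace Z] in
theorem Gl_sm (h : A.Std) (hn : NF) (hd : Div) (H : All A N f ℓ r g m u) {s : Finset Λ}
    (hs : ∀ l ∈ s, l ∈ L0 A N) {l : Λ} (hl : l ∈ L0 A N) {z : Z} (hz : z ∈ A.src l)
    (hE : z ∈ A.E) : ContDiffAt ℝ ∞ (Gl A g s l ∘ (A.e l).symm) (A.e l z) := by
  refine ContDiffAt.sum (f := fun l' x => A.phi l' ((A.e l).symm x) * mu A g l l' ((A.e l).symm x))
    fun l' hl' => ?_
  by_cases hz' : z ∈ A.src l'
  · exact ((h.bump.phi_D l').1.1 z l hz).mul (mu_spec h hn hd H hl (hs l' hl') hz hz' hE).1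
  · have : z ∉ tsupport (A.phi l') := fun e => by
      obtain ⟨x, hx, rfl⟩ := (h.bump.phi_D l').2 e
      exact hz' (A.symm_mem l' (ball_subset_ball (by norm_num) hx))
    refine (contDiffAt_const (c := (0 : ℝ))).congr_of_eventuallyEq ?_
    filter_upwards [A.ev_symm hz (notMem_tsupport_iff_eventuallyEq.1 this)] with x hx
    rw [hx, Pi.zero_apply, zero_mul]

omit [BorelSpace Z] in
theorem Gl_sub (h : A.Std) (hn : NF) (hd : Div) (hb : Nbh A ρ a b N) (H : All A N f ℓ r g m u)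
    {s : Finset Λ} (hs : ∀ l, l ∈ s ↔ l ∈ L0 A N) {l l' : Λ} (hl : l ∈ L0 A N) (hl' : l' ∈ L0 A N)
    {z : Z} (hz : z ∈ A.src l) (hz' : z ∈ A.src l') (hE : z ∈ A.E) :
    Gl A g s l z = Gl A g s l' z + mu A g l l' z := by
  have := mem_closure_iff_nhdsWithin_neBot.1 (h.bump.dense z)
  have h1 : ∑ j ∈ s, A.phi j z = 1 := by
    rw [← A.ph_sum z]
    refine (finsum_eq_sum_of_support_subset _ fun j hj => (hs j).2 ?_).symm
    have hj' : z ∈ A.src j := mem_of_indicator_ne_zero hj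
    obtain ⟨k, hk, -⟩ := (A.hE j z hj').1 hE
    exact ⟨src_sub h hb ⟨k, hk⟩ hj' (hl.1 hz), k, hk⟩
  rw [← one_mul (mu A g l l' z), ← h1, Finset.sum_mul, Gl, Gl, ← Finset.sum_add_distrib]
  refine Finset.sum_congr rfl fun j hj => ?_
  by_cases hj' : z ∈ A.src j
  · rw [← mul_add]
    congr 1
    refine tendsto_nhds_unique (mu_spec h hn hd H hl ((hs j).1 hj) hz hj' hE).2
      (((mu_spec h hn hd H hl' ((hs j).1 hj) hz' hj' hE).2.add
        (mu_spec h hn hd H hl hl' hz hz' hE).2).congr fun w => ?_)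
    simp only [Df]
    ring
  · rw [KA.phi, indicator_of_notMem hj']
    ring

omit [MeasurableSpace Z] [BorelSpace Z] in
theorem no_iso [LocallyCompactSpace Z] (hf : A.Fib) (hN : IsOpen N)
    (hl : ∀ z ∈ N, A.An ℓ z ∧ ContinuousAt ℓ z ∧ (z ∈ A.E → ℓ z = 0)) {C : Set Z}
    (hC : IsCompact C) (hCN : C ⊆ N) (hi : ∀ z ∈ C, ∀ᶠ w in 𝓝 z, ℓ w = 0 → w ∈ C) {z : Z}
    (hz : z ∈ C) (ho : 𝓝 (0 : ℂ) ≤ map ℓ (𝓝 z)) : False := by
  obtain ⟨K, hK, h1, h2⟩ := exists_compact_between hC isOpen_interior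
    (show C ⊆ interior {w | w ∈ N ∧ (ℓ w = 0 → w ∈ C)} from fun w hw =>
      mem_interior_iff_mem_nhds.2 (inter_mem (hN.mem_nhds (hCN hw)) (hi w hw)))
  replace h2 := h2.trans interior_subset
  have hc : ContinuousOn ℓ K := fun w hw => (hl w (h2 hw).1).2.1.continuousWithinAt
  have h3 : IsClosed (ℓ '' (K \ interior K)) :=
    ((hK.diff isOpen_interior).image_of_continuousOn (hc.mono sdiff_subset)).isClosed
  have h4 : (ℓ '' (K \ interior K))ᶜ ∩ ℓ '' interior K ∈ 𝓝 (0 : ℂ) :=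
    inter_mem (h3.isOpen_compl.mem_nhds fun ⟨w, hw, e⟩ => hw.2 (h1 ((h2 hw.1).2 e)))
      (ho (image_mem_map (isOpen_interior.mem_nhds (h1 hz))))
  have h5 := hf (interior K) ℓ (((ℓ '' (K \ interior K))ᶜ ∩ ℓ '' interior K) \ {0})
    isOpen_interior (fun w hw => (hl w (h2 (interior_subset hw)).1).1)
    fun t ⟨⟨a1, w, a2, a3⟩, a4⟩ => ⟨?_, ⟨w, a2, a3⟩, disjoint_left.2 fun y b1 b2 =>
      a4 (b1.2.symm.trans ((hl y (h2 (interior_subset b1.1)).1).2.2 b2))⟩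
  · rw [measure_sdiff_null (measure_singleton _)] at h5
    exact (Measure.measure_pos_of_mem_nhds _ h4).ne' h5
  · have : interior K ∩ ℓ ⁻¹' {t} = K ∩ ℓ ⁻¹' {t} := Subset.antisymm
      (inter_subset_inter_left _ interior_subset) fun y hy =>
        ⟨by_contra fun e => a1 ⟨y, ⟨hy.1, e⟩, hy.2⟩, hy.2⟩
    rw [this]
    exact hK.of_isClosed_subset (hc.preimage_isClosed_of_isClosed hK.isClosed isClosed_singleton)
      inter_subset_left

omit [BorelSpace Z] in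
theorem le_zero (h : A.Std) (hn : NF) (hd : Div) (hg : A.Deg) (hf : A.Fib) (hb : Nbh A ρ a b N)
    (hl : ∀ z ∈ N, A.An ℓ z ∧ (z ∈ A.E → ℓ z = 0)) (H : All A N f ℓ r g m u) {l₀ : Λ}
    (h₀ : l₀ ∈ L0 A N) {k₀ : Fin 2} (hk₀ : k₀ ∈ A.act (A.ty l₀)) : r l₀ k₀ ≤ 0 := by
  classical
  by_contra hpos
  obtain ⟨s, hs⟩ : ∃ s : Finset Λ, ∀ l, l ∈ s ↔ l ∈ L0 A N :=
    ⟨_, fun l => (L0_fin h hb).mem_toFinset⟩
  obtain ⟨c₁, hc₁, hmax⟩ := Finset.exists_max_image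
    ((s ×ˢ Finset.univ).filter fun c : Λ × Fin 2 => c.2 ∈ A.act (A.ty c.1))
    (fun c => r c.1 c.2 / m c.1 c.2) ⟨(l₀, k₀), by simp [hs, h₀, hk₀]⟩
  simp only [Finset.mem_filter, Finset.mem_product, Finset.mem_univ, and_true, hs] at hc₁ hmax
  have mp : ∀ l ∈ L0 A N, ∀ k ∈ A.act (A.ty l), (0 : ℝ) < m l k := fun l hl k hk =>
    Nat.cast_pos.2 ((H l hl).pos k hk)
  generalize ht : r c₁.1 c₁.2 / m c₁.1 c₁.2 = t at hmax
  have tp : 0 < t := (div_pos (not_le.1 hpos) (mp _ h₀ _ hk₀)).trans_le (hmax (l₀, k₀) ⟨h₀, hk₀⟩)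
  obtain ⟨K, hK⟩ : ∃ K : Finset (Λ × Fin 2), ∀ c, c ∈ K ↔
      c.1 ∈ L0 A N ∧ c.2 ∈ A.act (A.ty c.1) ∧ r c.1 c.2 = t * m c.1 c.2 :=
    ⟨(s ×ˢ Finset.univ).filter fun c => c.2 ∈ A.act (A.ty c.1) ∧ r c.1 c.2 = t * m c.1 c.2,
      fun c => by simp [hs]⟩
  have c₁K : c₁ ∈ K := (hK _).2 ⟨hc₁.1, hc₁.2, by
    rw [← ht, div_mul_cancel₀ _ (mp _ hc₁.1 _ hc₁.2).ne']⟩
  have cl : ∀ c ∈ K, ∀ w ∈ ball (0 : ℂ) 4, ∀ l' k', l' ≠ c.1 → k' ∈ A.act (A.ty l') →
      A.br c w ∈ A.src l' → A.e l' (A.br c w) k' = 0 → l' ∈ L0 A N ∧ (l', k') ∈ K :=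
    fun c hc w hw l' k' ne hk' hz' h0' => by
      obtain ⟨c1, c2, c3⟩ := (hK c).1 hc
      have hl' : l' ∈ L0 A N := ⟨src_sub h hb ⟨k', hk'⟩ hz' (c1.1 (br_e c hw).1), k', hk'⟩
      obtain ⟨a1, a2, -⟩ := ov hn hd H c1 hl' ne (br_e c hw).1 hz' c2 hk'
        (by rw [(br_e c hw).2, single_k]) h0'
      exact ⟨hl', (hK _).2 ⟨hl', hk', by rw [← a1, ← a2, c3]⟩⟩
  have key := hg K (fun c w => Gl A g s c.1 (A.br c w))
    (fun c => t * m c.1 c.2.rev - r c.1 c.2.rev) (fun c w => u c.1 (Pi.single c.2.rev w)) t tp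
    (fun c hc => by
      obtain ⟨c1, c2, c3⟩ := (hK c).1 hc
      refine ⟨c2, fun w hw => ContDiffAt.contDiffWithinAt ?_, ?_, fun e => ?_,
        hol_ax (H _ c1).hol _, ?_⟩
      · have := Gl_sm h hn hd H (fun l => (hs l).1) c1 (br_e c hw).1 (br_E c2 hw)
        rw [(br_e c hw).2] at this
        exact this.comp (f := fun w : ℂ => (Pi.single c.2.rev w : E2)) w
          (ContinuousLinearMap.single ℝ (fun _ : Fin 2 => ℂ) c.2.rev).contDiff.contDiffAt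
      · by_cases e : c.2.rev ∈ A.act (A.ty c.1)
        · exact sub_nonneg.2 ((div_le_iff₀ (mp _ c1 _ e)).1 (hmax (c.1, c.2.rev) ⟨c1, e⟩))
        · simp [(H _ c1).r0 _ e, (H _ c1).m0 _ e]
      · have : c.2.rev ∈ A.act (A.ty c.1) := by_contra fun e' =>
          e (by simp [(H _ c1).r0 _ e', (H _ c1).m0 _ e'])
        exact Finset.eq_univ_of_forall fun j => by
          rcases eq_or_rev j c.2 with rfl | rfl <;> assumption
      · obtain ⟨x, a1, a2, a3⟩ := (H _ c1).ax _ c2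
        exact ⟨x c.2.rev, coord_ball a1 _, by rwa [single_rev a2]⟩)
    (fun c hc w hw c' ne hk' w' hw' e => by
      obtain ⟨c1, c2, c3⟩ := (hK c).1 hc
      obtain ⟨hz, ez⟩ := br_e (A := A) c hw
      obtain ⟨hz', ez'⟩ := br_e (A := A) c' hw'
      rw [← e] at hz' ez'
      have h0 : A.e c.1 (A.br c w) c.2 = 0 := by rw [ez, single_k]
      have h0' : A.e c'.1 (A.br c w) c'.2 = 0 := by rw [ez', single_k]
      obtain ⟨hl', cK⟩ := cl c hc w hw c'.1 c'.2 ne hk' hz' h0'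
      refine ⟨cK, fun hu hu' => ?_⟩
      obtain ⟨-, -, ν, a1, a2, a3⟩ := ov hn hd H c1 hl' ne hz hz' c2 hk' h0 h0'
      obtain ⟨C, hC⟩ := a3 t c3 (ez ▸ hu) (ez' ▸ hu')
      have o' : ∀ᶠ y in 𝓝 (A.br c w), oth (A.act (A.ty c'.1)) c'.2 (A.e c'.1 y) ≠ 0 :=
        ((oth_diff _ _).continuous.continuousAt.comp ((A.e c'.1).continuousAt hz')).eventually_ne
          (oth_ne ne.symm hz' hz hk' h0')
      refine ⟨C, ?_⟩
      filter_upwards [(br_cont c hw).eventually (hC.and ((lim h hz a1 a2).and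
        (o'.and ((A.e c'.1).open_source.mem_nhds hz')))), isOpen_ball.mem_nhds hw]
        with v ⟨b1, b2, b3, b4⟩ b5
      have b6 : A.e c'.1 (A.br c v) c'.2 = 0 :=
        (act_iff hk' b3).1 ((A.hE _ _ b4).1 (br_E c2 b5))
      rw [Gl_sub h hn hd hb H hs c1 hl' (br_e c b5).1 b4 (br_E c2 b5), b2.1,
        show A.br c' _ = _ from br_eq b4 b6, single_rev b6]
      rw [ez, ez', (br_e c b5).2, Pi.single_eq_same, Pi.single_eq_same, Pi.single_eq_same] at b1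
      rw [(br_e c b5).2]
      linarith)
  have red : ∀ c ∈ K, ∀ w ∈ ball (0 : ℂ) 4, ∃ c' ∈ K, ∃ w' ∈ ball (0 : ℂ) 1,
      A.br c' w' = A.br c w := fun c hc w hw => by
    obtain ⟨l', a1, a2⟩ := A.cov (A.br c w)
    by_cases ne : l' = c.1
    · rw [ne, (br_e c hw).2] at a2
      exact ⟨c, hc, w, single_ball.1 a2, rfl⟩
    · obtain ⟨k', hk', h0'⟩ := (A.hE l' _ a1).1 (br_E ((hK c).1 hc).2.1 hw)
      exact ⟨_, (cl c hc w hw l' k' ne hk' a1 h0').2, _, coord_ball a2 _, br_eq a1 h0'⟩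
  have b14 : closedBall (0 : ℂ) 1 ⊆ ball 0 4 := closedBall_subset_ball (by norm_num)
  have mC : ∀ c ∈ K, ∀ w ∈ ball (0 : ℂ) 4, A.br c w ∈ ⋃ c ∈ K, A.br c '' closedBall 0 1 :=
    fun c hc w hw => by
      obtain ⟨c', a1, w', a2, a3⟩ := red c hc w hw
      exact mem_biUnion a1 ⟨w', ball_subset_closedBall a2, a3⟩
  have := h.bump.lc
  have hw₁ : (2⁻¹ : ℂ) ∈ ball (0 : ℂ) 1 := by rw [mem_ball_zero_iff, norm_inv]; norm_num
  have hw₄ := b14 (ball_subset_closedBall hw₁)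
  refine no_iso hf hb.op (fun z hz => ⟨(hl z hz).1, h.bas.an_cont _ _ (hl z hz).1, (hl z hz).2⟩)
    (K.isCompact_biUnion fun c _ => (isCompact_closedBall (0 : ℂ) 1).image_of_continuousOn
      fun w hw => (br_cont c (b14 hw)).continuousWithinAt) (fun z hz => ?_) (fun z hz => ?_)
    (mC c₁ c₁K _ hw₄) ?_
  · simp only [mem_iUnion] at hz
    obtain ⟨c, hc, w, hw, rfl⟩ := hz
    exact ((hK c).1 hc).1.1 (br_e c (b14 hw)).1
  · simp only [mem_iUnion] at hz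
    obtain ⟨c₀, hc₀, w₀, hw₀, rfl⟩ := hz
    obtain ⟨c, hc, w, hw, e⟩ := red c₀ hc₀ w₀ (b14 hw₀)
    rw [← e]
    obtain ⟨c1, c2, c3⟩ := (hK c).1 hc
    obtain ⟨hz, ez⟩ := br_e (A := A) c (b14 (ball_subset_closedBall hw))
    have hu : ∀ᶠ y in 𝓝 (A.br c w), u c.1 (A.e c.1 y) ≠ 0 :=
      ((((H _ c1).hol.differentiableAt (isOpen_ball.mem_nhds (A.map_src hz))).continuousAt).comp
        ((A.e c.1).continuousAt hz)).eventually_ne (by
          rw [Function.comp_apply, ez]; exact (key c hc).2 w hw)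
    filter_upwards [hu, (A.e c.1).open_source.mem_nhds hz] with y a1 a2 a3
    have a4 := (H _ c1).fac _ (A.map_src a2)
    rw [Function.comp_apply, (A.e c.1).left_inv a2, a3, eq_comm, mul_eq_zero, or_iff_left a1,
      Finset.prod_eq_zero_iff] at a4
    obtain ⟨j, hj, a5⟩ := a4
    have a6 := (pow_eq_zero_iff'.1 a5).1
    rw [← br_eq a2 a6]
    refine mC _ ((hK (c.1, j)).2 ⟨c1, hj, ?_⟩) _ (coord_ball (A.map_src a2) _)
    rcases eq_or_rev j c.2 with rfl | rfl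
    · exact c3
    · exact (sub_eq_zero.1 (key c hc).1).symm
  · obtain ⟨c1, c2, -⟩ := (hK c₁).1 c₁K
    obtain ⟨hz, ez⟩ := br_e (A := A) c₁ hw₄
    set x₁ : E2 := Pi.single c₁.2.rev 2⁻¹ with hx₁
    have hγ : Differentiable ℂ fun τ : ℂ => Function.update x₁ c₁.2 τ := fun τ =>
      (hasDerivAt_update x₁ c₁.2 τ).differentiableAt
    have γ0 : Function.update x₁ c₁.2 0 = x₁ := Function.update_eq_self_iff.2 (single_k _ _).symm
    have tγ : Tendsto (fun τ : ℂ => Function.update x₁ c₁.2 τ) (𝓝 0) (𝓝 x₁) := by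
      have := hγ.continuous.tendsto 0
      rwa [γ0] at this
    have eb : ∀ᶠ τ in 𝓝 (0 : ℂ), Function.update x₁ c₁.2 τ ∈ ball (0 : E2) 4 :=
      tγ.eventually (isOpen_ball.mem_nhds (single_ball.2 hw₄))
    have an : AnalyticAt ℂ (fun τ : ℂ => (ℓ ∘ (A.e c₁.1).symm) (Function.update x₁ c₁.2 τ)) 0 :=
      Complex.analyticAt_iff_eventually_differentiableAt.2 (eb.mono fun τ hτ => by
        have := (hl _ (c1.1 (A.symm_mem _ hτ))).1 _ (A.symm_mem _ hτ)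
        rw [A.e_symm _ hτ] at this
        exact this.comp τ (hγ τ))
    have v0 : (ℓ ∘ (A.e c₁.1).symm) (Function.update x₁ c₁.2 0) = 0 := by
      rw [γ0]
      exact (hl _ (c1.1 hz)).2 (br_E c2 hw₄)
    rcases an.eventually_constant_or_nhds_le_map_nhds with e | e
    · exfalso
      have hu : ∀ᶠ τ in 𝓝 (0 : ℂ), u c₁.1 (Function.update x₁ c₁.2 τ) ≠ 0 :=
        tγ.eventually (((H _ c1).hol.differentiableAt
          (isOpen_ball.mem_nhds (single_ball.2 hw₄))).continuousAt.eventually_ne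
            ((key c₁ c₁K).2 _ hw₁))
      obtain ⟨τ, ⟨a1, a2, a3⟩, a4⟩ := (((e.and (hu.and eb)).filter_mono
        (nhdsWithin_le_nhds (s := {0}ᶜ))).and self_mem_nhdsWithin).exists
      rw [v0, (H _ c1).fac _ a3, mul_eq_zero, or_iff_left a2, Finset.prod_eq_zero_iff] at a1
      obtain ⟨j, -, a5⟩ := a1
      have a6 := (pow_eq_zero_iff'.1 a5).1
      rcases eq_or_rev j c₁.2 with rfl | rfl
      · exact a4 (by rwa [Function.update_self] at a6)
      · rw [Function.update_of_ne (rev_ne _).symm, hx₁, Pi.single_eq_same] at a6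
        exact inv_ne_zero two_ne_zero a6
    · rw [v0] at e
      refine e.trans ?_
      exact (map_mono (((A.e c₁.1).continuousAt_symm
        (A.tgt _ ▸ single_ball.2 hw₄)).tendsto.comp tγ)).trans_eq' map_map

end PRes

open PRes in
theorem res (h : A.Std) (hn : NF) (hd : Div) (hg : A.Deg) (hf : A.Fib) {ρ : Z → ℝ} {a b : ℝ}
    {N : Set Z} (hb : Nbh A ρ a b N) : A.Res ρ a N := by
  intro f hF l₀ h1 h2
  obtain ⟨ℓ, hl⟩ := hb.ell
  have : ∀ l, ∃ r g m u, l ∈ L0 A N → Dat (A.act (A.ty l))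
      (fun y x => f ((A.e l).symm y) ((A.e l).symm x)) (ℓ ∘ (A.e l).symm) r g m u := fun l => by
    by_cases hl' : l ∈ L0 A N
    · have cs : ∀ x ∈ ball (0 : E2) 4, ContinuousAt (A.e l).symm x := fun x hx =>
        (A.e l).continuousAt_symm (A.tgt l ▸ hx)
      have eE : ∀ x ∈ ball (0 : E2) 4, (A.e l).symm x ∈ A.E ↔ ∃ k ∈ A.act (A.ty l), x k = 0 :=
        fun x hx => by rw [A.hE l _ (A.symm_mem l hx), A.e_symm l hx]
      have h0 : (0 : E2) ∈ ball (0 : E2) 4 := mem_ball_self (by norm_num)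
      obtain ⟨r, g, m, u, H⟩ := dat_ex hn hd (A.act (A.ty l))
        (F := fun y x => f ((A.e l).symm y) ((A.e l).symm x)) (ℓ := ℓ ∘ (A.e l).symm)
        (fun y hy => by
          have a1 := A.symm_mem l hy.1
          filter_upwards [(cs y hy.1).eventually (hF _ ⟨⟨hl'.1 a1, hb.small l hl'.2 _ a1⟩,
            fun e => by obtain ⟨k, hk, e⟩ := (eE y hy.1).1 e; exact hy.2 k hk e⟩),
            isOpen_ball.mem_nhds hy.1] with y' ⟨c, hc⟩ a2
          exact ⟨c, (cs y' a2).eventually hc⟩)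
        (fun x hx => by
          have := (hl _ (hl'.1 (A.symm_mem l hx))).1 l (A.symm_mem l hx)
          rw [A.e_symm l hx] at this
          exact this.differentiableWithinAt)
        (by
          by_contra hc
          push Not at hc
          refine (hl _ (hl'.1 (A.symm_mem l h0))).2.2 ?_
          filter_upwards [(A.e l).open_source.mem_nhds (A.symm_mem l h0)] with w hw
          simpa only [Function.comp_apply, (A.e l).left_inv hw] using hc _ (A.map_src hw))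
        fun x hx e => (hl _ (hl'.1 (A.symm_mem l hx))).2.1 ((eE x hx).2 e)
      exact ⟨r, g, m, u, fun _ => H⟩
    · exact ⟨0, 0, 0, 0, fun e => absurd e hl'⟩
  choose r g m u H using this
  have hl2 : ∀ z ∈ N, A.An ℓ z ∧ (z ∈ A.E → ℓ z = 0) := fun z hz => ⟨(hl z hz).1, (hl z hz).2.1⟩
  have hr : ∀ k ∈ A.act (A.ty l₀), r l₀ k = 0 := fun k hk => le_antisymm
    (le_zero h hn hd hg hf hb hl2 (f := f) H ⟨h1, h2⟩ hk)
    (neg_nonpos.1 (le_zero h hn hd hg hf hb hl2 (f := -f) (r := -r) (g := -g)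
      (fun l hl => (H l hl).neg) ⟨h1, h2⟩ hk))
  refine ⟨fun z => g l₀ (A.e l₀ z), fun y hy => ?_⟩
  obtain ⟨c, hc⟩ := (H l₀ ⟨h1, h2⟩).prim (A.e l₀ y)
    ⟨A.map_src hy.1, fun k hk e => hy.2 ((A.hE l₀ y hy.1).2 ⟨k, hk, e⟩)⟩
  refine ⟨c, ?_⟩
  filter_upwards [((A.e l₀).continuousAt hy.1).eventually hc,
    (A.e l₀).open_source.mem_nhds hy.1] with w a1 a2
  rw [a1, (A.e l₀).left_inv hy.1, (A.e l₀).left_inv a2, AG,
    Finset.sum_eq_zero fun k hk => by rw [hr k hk, zero_mul], sub_zero]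

end Pool.Agent.Lib.MP_356dfe_ag.S
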