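import Pool.Agent.Lib.MP_356dfe_ag.S.Basic
import Pool.Agent.Lib.MP_7906d6_an.Holo

-- part Pool.Agent.Lib.MP_356dfe_ag.S.PCalc
section

/-! Calculus on the model space. -/

set_option autoImplicit false

open Set Filter Topology Metric MeasureTheory
open scoped ContDiff ComplexConjugate Matrix Pointwise

noncomputable section

namespace Pool.Agent.Lib.MP_356dfe_ag.S

namespace PCalc

open Complex

/-- both derivatives at once -/
def dw (s : ℂ) (f : E2 → ℂ) (x : E2) (j : Fin 2) : ℂ :=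
  (fderiv ℝ f x (Pi.single j 1) + s * fderiv ℝ f x (Pi.single j I)) / 2

theorem dh_eq (f : E2 → ℂ) (x : E2) (j : Fin 2) : dh f x j = dw (-I) f x j := by
  rw [dh, dw]; ring

theorem db_eq (f : E2 → ℂ) (x : E2) (j : Fin 2) : db f x j = dw I f x j := rfl

variable {f g : E2 → ℂ} {x : E2} {s t : ℂ}

theorem dw_congr (h : f =ᶠ[𝓝 x] g) (j : Fin 2) : dw s f x j = dw s g x j := by
  rw [dw, dw, h.fderiv_eq]

theorem dw_add (hf : DifferentiableAt ℝ f x) (hg : DifferentiableAt ℝ g x) (j : Fin 2) :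
    dw s (fun y => f y + g y) x j = dw s f x j + dw s g x j := by
  simp only [dw, fderiv_fun_add hf hg, _root_.add_apply]; ring

theorem dw_mul (hf : DifferentiableAt ℝ f x) (hg : DifferentiableAt ℝ g x) (j : Fin 2) :
    dw s (fun y => f y * g y) x j = f x * dw s g x j + g x * dw s f x j := by
  simp only [dw, fderiv_fun_mul hf hg, _root_.add_apply,
    _root_.smul_apply, smul_eq_mul]
  ring

theorem fderiv_conj (f : E2 → ℂ) (x v : E2) :
    fderiv ℝ (fun y => conj (f y)) x v = conj (fderiv ℝ f x v) :=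
  congrArg (· v) (conjCLE.comp_fderiv (f := f) (x := x))

theorem dh_conj (f : E2 → ℂ) (x : E2) (j : Fin 2) :
    dh (fun y => conj (f y)) x j = conj (db f x j) := by
  simp only [dh, db, fderiv_conj, map_div₀, map_add, map_mul, conj_I, map_ofNat]; ring

theorem db_conj (f : E2 → ℂ) (x : E2) (j : Fin 2) :
    db (fun y => conj (f y)) x j = conj (dh f x j) := by
  simp only [dh, db, fderiv_conj, map_div₀, map_sub, map_mul, conj_I, map_ofNat]; ring

theorem d_conj (hf : DifferentiableAt ℝ f x) : DifferentiableAt ℝ (fun y => conj (f y)) x :=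
  conjCLE.differentiableAt.comp x hf

theorem db_real (u : E2 → ℝ) (x : E2) (k : Fin 2) :
    db (fun y => (u y : ℂ)) x k = conj (du u x k) := by
  rw [du, ← db_conj]; simp only [conj_ofReal]

theorem expand (f : E2 → ℂ) (x v : E2) :
    fderiv ℝ f x v = ∑ i, (v i * dh f x i + conj (v i) * db f x i) := by
  have e : v = ∑ i, ((v i).re • (Pi.single i 1 : E2) + (v i).im • (Pi.single i I : E2)) := by
    ext i; fin_cases i <;> simp
  conv_lhs => rw [e]
  rw [map_sum]
  refine Finset.sum_congr rfl fun i _ => ?_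
  rw [map_add, map_smul, map_smul, dh, db, real_smul, real_smul, re_eq_add_conj, im_eq_sub_conj]
  field_simp
  linear_combination (v i - conj (v i)) * fderiv ℝ f x (Pi.single i I) * I_sq

theorem single_I (j : Fin 2) : (Pi.single j I : E2) = I • (Pi.single j 1 : E2) := by
  rw [← Pi.single_smul, smul_eq_mul, mul_one]

theorem dh_hol (hf : DifferentiableAt ℂ f x) (j : Fin 2) :
    dh f x j = fderiv ℂ f x (Pi.single j 1) ∧ db f x j = 0 := by
  simp only [dh, db, hf.fderiv_restrictScalars ℝ, ContinuousLinearMap.coe_restrictScalars',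
    single_I, map_smul, smul_eq_mul]
  constructor
  · linear_combination (-fderiv ℂ f x (Pi.single j 1) / 2) * I_sq
  · linear_combination (fderiv ℂ f x (Pi.single j 1) / 2) * I_sq

theorem dw_comp {T : E2 → E2} (hf : DifferentiableAt ℝ f (T x)) (hT : DifferentiableAt ℂ T x)
    (j : Fin 2) : dw s (fun y => f (T y)) x j = ∑ i, ((1 + s * I) * dh f (T x) i * jac T x i j +
      (1 - s * I) * db f (T x) i * conj (jac T x i j)) / 2 := by
  have e := fderiv_fun_comp x hf (hT.restrictScalars ℝ)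
  simp only [dw, e, hT.fderiv_restrictScalars ℝ, ContinuousLinearMap.coe_restrictScalars',
    ContinuousLinearMap.comp_apply, single_I, map_smul, expand f (T x), Fin.sum_univ_two, jac,
    Matrix.of_apply, Pi.smul_apply, smul_eq_mul, map_mul, conj_I]
  ring

theorem dh_comp {T : E2 → E2} (hf : DifferentiableAt ℝ f (T x)) (hT : DifferentiableAt ℂ T x)
    (j : Fin 2) : dh (fun y => f (T y)) x j = ∑ i, dh f (T x) i * jac T x i j := by
  rw [dh_eq, dw_comp hf hT]
  refine Finset.sum_congr rfl fun i _ => ?_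
  rw [neg_mul, I_mul_I]; ring

theorem db_comp {T : E2 → E2} (hf : DifferentiableAt ℝ f (T x)) (hT : DifferentiableAt ℂ T x)
    (j : Fin 2) : db (fun y => f (T y)) x j = ∑ i, db f (T x) i * conj (jac T x i j) := by
  rw [db_eq, dw_comp hf hT]
  refine Finset.sum_congr rfl fun i _ => ?_
  rw [I_mul_I]; ring

theorem sm_dw {m n : WithTop ℕ∞} (hf : ContDiffAt ℝ n f x) (h : m + 1 ≤ n) (j : Fin 2) :
    ContDiffAt ℝ m (fun y => dw s f y j) x :=
  (((hf.fderiv_right h).clm_apply contDiffAt_const).add (contDiffAt_const.mul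
    ((hf.fderiv_right h).clm_apply contDiffAt_const))).div_const 2

theorem fderiv_dw (hf : ContDiffAt ℝ 2 f x) (j : Fin 2) (w : E2) :
    fderiv ℝ (fun y => dw t f y j) x w = (fderiv ℝ (fderiv ℝ f) x w (Pi.single j 1) +
      t * fderiv ℝ (fderiv ℝ f) x w (Pi.single j I)) / 2 := by
  have h := ((hf.fderiv_right (m := 1) le_rfl).differentiableAt one_ne_zero).hasFDerivAt
  have k := fun v : E2 => h.clm_apply (hasFDerivAt_const v x)
  have := ((k (Pi.single j 1)).add ((k (Pi.single j I)).const_mul t)).mul_const (2⁻¹ : ℂ)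
  simp only [dw, div_eq_mul_inv]
  refine (congrArg (· w) this.fderiv).trans ?_
  simp [mul_comm, mul_add]

theorem dw_comm (hf : ContDiffAt ℝ 2 f x) (j k : Fin 2) :
    dw s (fun y => dw t f y j) x k = dw t (fun y => dw s f y k) x j := by
  have h := hf.isSymmSndFDerivAt (by simp)
  rw [dw, fderiv_dw hf, fderiv_dw hf, dw, fderiv_dw hf, fderiv_dw hf, h (Pi.single k 1),
    h (Pi.single k 1), h (Pi.single k I), h (Pi.single k I)]
  ring

variable {u v : E2 → ℝ} {a b T : E2 → E2}

theorem d_real (hu : DifferentiableAt ℝ u x) : DifferentiableAt ℝ (fun y => (u y : ℂ)) x :=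
  ofRealCLM.differentiableAt.comp x hu

theorem fderiv_real (hu : DifferentiableAt ℝ u x) (w : E2) :
    fderiv ℝ (fun y => (u y : ℂ)) x w = fderiv ℝ u x w :=
  congrArg (· w) (ofRealCLM.hasFDerivAt.comp x hu.hasFDerivAt).fderiv

theorem c_real {n : WithTop ℕ∞} (hu : ContDiffAt ℝ n u x) :
    ContDiffAt ℝ n (fun y => (u y : ℂ)) x :=
  ofRealCLM.contDiff.contDiffAt.comp x hu

theorem sm_jac (hT : AnalyticAt ℂ T x) (i j : Fin 2) : AnalyticAt ℂ (fun y => jac T y i j) x :=
  ((ContinuousLinearMap.proj (R := ℂ) (φ := fun _ : Fin 2 => ℂ) i).comp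
    (ContinuousLinearMap.apply ℂ E2 (Pi.single j 1 : E2))).analyticAt _ |>.comp hT.fderiv

theorem dba_comp (ha : DifferentiableAt ℝ a (T x)) (hT : AnalyticAt ℂ T x) :
    dba (fun y => a (T y) ᵥ* jac T y) x = pull (jac T x) (dba a (T x)) := by
  ext j k
  have h1 := fun i => differentiableAt_pi.1 ha i
  have h2 : ∀ i, DifferentiableAt ℝ (fun y => a (T y) i) x := fun i =>
    (h1 i).comp x (hT.differentiableAt.restrictScalars ℝ)
  have h3 := fun i => (sm_jac hT i j).differentiableAt
  have h4 := fun i => (h3 i).restrictScalars ℝ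
  have h5 := fun i => db_comp (h1 i) hT.differentiableAt k
  have h6 := fun i => (dh_hol (h3 i) k).2
  simp only [db_eq] at h5 h6
  simp only [dba, pull, Matrix.of_apply, Matrix.vecMul, dotProduct, Fin.sum_univ_two,
    Matrix.mul_apply, Matrix.transpose_apply, Matrix.map_apply, db_eq,
    dw_add ((h2 0).fun_mul (h4 0)) ((h2 1).fun_mul (h4 1)), dw_mul (h2 _) (h4 _), h5, h6]
  ring

theorem jac_comp {S : E2 → E2} (hS : DifferentiableAt ℂ S (T x)) (hT : DifferentiableAt ℂ T x) :
    jac (S ∘ T) x = jac S (T x) * jac T x := by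
  ext i j
  have e : ∀ w : E2, w = ∑ l, w l • (Pi.single l 1 : E2) := fun w => by
    ext l; fin_cases l <;> simp
  simp only [jac, Matrix.of_apply, fderiv_comp x hS hT, ContinuousLinearMap.comp_apply,
    Matrix.mul_apply]
  conv_lhs => rw [e (fderiv ℂ T x (Pi.single j 1))]
  simp [mul_comm]

theorem c1_du (hu : ContDiffAt ℝ 2 u x) : C1 (du u) x := by
  refine ⟨by simp only [du, dh_eq, dw_comm (c_real hu) 1 0], ?_⟩
  ext j k
  simp only [Matrix.conjTranspose_apply, dba, Matrix.of_apply, RCLike.star_def, ← dh_conj,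
    ← db_real]
  simp only [du, dh_eq, db_eq, dw_comm (c_real hu) k j]

theorem c2_dba (ha : ContDiffAt ℝ 2 a x) (h : ∀ᶠ y in 𝓝 x, C1 a y) : C2 (dba a) x := by
  intro k
  have h1 := fun i => contDiffAt_pi.1 ha i
  simp only [dba, Matrix.of_apply, dh_eq, db_eq, dw_comm (h1 _) k]
  exact dw_congr (h.mono fun y hy => by simpa only [dh_eq] using hy.1) k

theorem c2_ot (ha : DifferentiableAt ℂ a x) (h : C1 a x) : C2 (fun y => ot (a y) (a y)) x := by
  intro k
  have h1 := fun i => differentiableAt_pi.1 ha i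
  have h2 := fun i => (h1 i).restrictScalars ℝ
  have h3 : ∀ j, dw (-I) (fun y => conj (a y k)) x j = 0 := fun j => by
    rw [← dh_eq, dh_conj, (dh_hol (h1 k) j).2, map_zero]
  have h4 := h.1
  simp only [dh_eq] at h4
  simp only [ot, Matrix.of_apply, dh_eq, dw_mul (h2 _) (d_conj (h2 k)), h3, h4, mul_zero]

theorem du_chain {φ : ℝ → ℝ} (hφ : DifferentiableAt ℝ φ (u x)) (hu : DifferentiableAt ℝ u x) :
    du (fun y => φ (u y)) x = deriv φ (u x) • du u x := by
  ext j
  have h := hφ.hasDerivAt.comp_hasFDerivAt x hu.hasFDerivAt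
  have e : fderiv ℝ (fun y => φ (u y)) x = _ := h.fderiv
  simp only [du, dh, fderiv_real hu, fderiv_real (u := fun y => φ (u y)) h.differentiableAt, e,
    _root_.smul_apply, smul_eq_mul, Pi.smul_apply, real_smul, ofReal_mul]
  ring

theorem du_log (hf : DifferentiableAt ℂ f x) (h0 : f x ≠ 0) :
    du (fun y => Real.log (normSq (f y))) x = fun j => dh f x j / f x := by
  have h1 := hf.restrictScalars ℝ
  have h2 : DifferentiableAt ℝ (fun y => normSq (f y)) x := by
    simp only [normSq_apply]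
    have k1 := reCLM.differentiableAt.comp x h1
    have k2 := imCLM.differentiableAt.comp x h1
    exact (k1.mul k1).add (k2.mul k2)
  rw [du_chain (Real.differentiableAt_log (by simpa using h0)) h2]
  ext j
  have h3 := (map_ne_zero conj).2 h0
  simp only [du, ← mul_conj, Pi.smul_apply, real_smul, Real.deriv_log, ofReal_inv]
  rw [dh_eq, dw_mul h1 (d_conj h1), ← dh_eq, ← dh_eq, dh_conj, (dh_hol hf j).2]
  simp only [map_zero, mul_zero, zero_add]
  field_simp

/-- the complex linear form with given coefficients -/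
def lin : E2 →L[ℂ] E2 →L[ℂ] ℂ :=
  ∑ i, (ContinuousLinearMap.proj (R := ℂ) (φ := fun _ : Fin 2 => ℂ) i).smulRight
    (ContinuousLinearMap.proj (R := ℂ) (φ := fun _ : Fin 2 => ℂ) i)

theorem lin_apply (a w : E2) : lin a w = ∑ i, a i * w i := by
  simp [lin]

theorem hol_of_db (hf : DifferentiableAt ℝ f x) (h : ∀ k, db f x k = 0) :
    DifferentiableAt ℂ f x := by
  refine (differentiableAt_iff_restrictScalars ℝ hf).2 ⟨lin (dh f x), ?_⟩
  ext1 w
  simp [lin_apply, expand, h, mul_comm]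

theorem fderiv_pi' (ha : DifferentiableAt ℝ a x) (w : E2) (i : Fin 2) : fderiv ℝ a x w i =
    ∑ k, (w k * dh (fun y => a y i) x k + conj (w k) * dba a x i k) := by
  rw [fderiv_pi (differentiableAt_pi.1 ha)]
  exact expand _ x w

/-- the real linear form with given coefficients -/
def rlin : E2 →L[ℝ] E2 →L[ℝ] ℝ :=
  ((ContinuousLinearMap.compL ℝ E2 ℂ ℝ ((2 : ℝ) • reCLM)).comp
    (ContinuousLinearMap.restrictScalarsL ℂ E2 ℂ ℝ ℝ)).comp (lin.restrictScalars ℝ)

theorem rlin_apply (a w : E2) : rlin a w = 2 * (∑ i, a i * w i).re := by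
  rw [← lin_apply]; rfl

theorem poin {O : Set E2} (hO : IsOpen O) (hc : Convex ℝ O) (ha : ContDiffOn ℝ ∞ a O)
    (h : ∀ x ∈ O, C1 a x) : ∃ u, ContDiffOn ℝ ∞ u O ∧ ∀ x ∈ O, du u x = a x := by
  have h1 : ContDiffOn ℝ ∞ (fun x => rlin (a x)) O := rlin.contDiff.comp_contDiffOn ha
  obtain ⟨u, hu⟩ := hc.exists_forall_hasFDerivAt_of_fderiv_symmetric hO
    (h1.differentiableOn (by simp)) fun x hx v w => by
      have k := (ha.differentiableOn (by simp)).differentiableAt (hO.mem_nhds hx)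
      have e : fderiv ℝ (fun x => rlin (a x)) x = _ :=
        (rlin.hasFDerivAt.comp x k.hasFDerivAt).fderiv
      have k1 := (h x hx).1
      have k2 := fun i j => congrArg re ((h x hx).2.apply i j)
      have k3 := fun i j => congrArg im ((h x hx).2.apply i j)
      have k4 := k3 0 0
      have k5 := k3 1 1
      simp only [RCLike.star_def, conj_re, conj_im] at k2 k3 k4 k5
      simp only [e, ContinuousLinearMap.comp_apply, rlin_apply, fderiv_pi' k, Fin.sum_univ_two, k1,
        add_re, mul_re, add_im, mul_im, conj_re, conj_im, k2 0 1, ← k3 1 0,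
        show (dba a x 0 0).im = 0 by linarith, show (dba a x 1 1).im = 0 by linarith]
      ring
  refine ⟨u, (contDiffOn_infty_iff_fderiv_of_isOpen hO).2
    ⟨fun x hx => (hu x hx).differentiableAt.differentiableWithinAt,
      h1.congr fun x hx => (hu x hx).fderiv⟩, fun x hx => ?_⟩
  ext j
  rw [du, dh, fderiv_real (hu x hx).differentiableAt, fderiv_real (hu x hx).differentiableAt,
    (hu x hx).fderiv, rlin_apply, rlin_apply]
  apply Complex.ext <;> fin_cases j <;> simp

theorem hpoin {O : Set E2} (hO : IsOpen O) (hc : Convex ℝ O) (ha : DifferentiableOn ℂ a O)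
    (h : ∀ x ∈ O, C1 a x) : ∃ F, DifferentiableOn ℂ F O ∧ ∀ x ∈ O, dh F x = a x := by
  have h1 : DifferentiableOn ℝ (fun x => lin (a x)) O :=
    (lin.restrictScalars ℝ).differentiable.comp_differentiableOn (ha.restrictScalars ℝ)
  obtain ⟨F, hF⟩ := hc.exists_forall_hasFDerivAt_of_fderiv_symmetric hO h1
    fun x hx v w => by
      have k0 := ha.differentiableAt (hO.mem_nhds hx)
      have k := k0.restrictScalars ℝ
      have e : fderiv ℝ (fun x => lin (a x)) x = _ :=
        ((lin.restrictScalars ℝ).hasFDerivAt.comp x k.hasFDerivAt).fderiv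
      have k2 : ∀ i j, dba a x i j = 0 := fun i j => (dh_hol (differentiableAt_pi.1 k0 i) j).2
      simp only [e, ContinuousLinearMap.comp_apply, ContinuousLinearMap.coe_restrictScalars',
        lin_apply, fderiv_pi' k, Fin.sum_univ_two, (h x hx).1, k2]
      ring
  refine ⟨F, fun x hx => (hF x hx).differentiableAt.differentiableWithinAt, fun x hx => ?_⟩
  ext j
  rw [(dh_hol (hF x hx).differentiableAt j).1, (hF x hx).fderiv, lin_apply]
  fin_cases j <;> simp

theorem gr_co (i : Fin 4) (x : E2) : gr (fun y => co y i) x = Pi.single i 1 := by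
  have p := fun (c : ℂ →L[ℝ] ℝ) (k : Fin 2) =>
    (c.comp (ContinuousLinearMap.proj (R := ℝ) (φ := fun _ : Fin 2 => ℂ) k)).fderiv (x := x)
  ext j
  fin_cases i
  · refine (congrArg (· (bv j)) (p reCLM 0)).trans ?_
    fin_cases j <;> simp [bv]
  · refine (congrArg (· (bv j)) (p imCLM 0)).trans ?_
    fin_cases j <;> simp [bv]
  · refine (congrArg (· (bv j)) (p reCLM 1)).trans ?_
    fin_cases j <;> simp [bv]
  · refine (congrArg (· (bv j)) (p imCLM 1)).trans ?_
    fin_cases j <;> simp [bv]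

end PCalc

open PCalc in
theorem clc : Calc := by
  refine ⟨fun u T x hu hT => funext fun j => dh_comp (d_real hu) hT j, fun _ _ _ => dba_comp,
    fun _ _ _ => jac_comp, fun T x h => ?_, fun _ _ => sm_jac, fun _ _ => c1_du,
    fun _ _ => c2_dba, fun _ _ => c2_ot, fun u x hu => contDiffAt_pi.2 fun j => ?_,
    fun a x ha j k => sm_dw (contDiffAt_pi.1 ha j) le_rfl k, fun u v x hu hv => ?_,
    fun u v x hu hv => ?_, fun _ _ _ => du_chain, fun a b x ha hb => ?_, fun u a x hu ha => ?_,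
    fun a x ha => ?_, fun _ _ => hol_of_db, fun _ _ => dh_hol, db_real, fun u x hu => ?_,
    fun F x hF => ?_, fun _ _ => du_log, gr_co, fun _ _ => poin, fun _ _ => hpoin⟩
  · ext i j
    rw [jac, Filter.EventuallyEq.fderiv_eq (f := id) h]
    simp [Matrix.one_apply, Pi.single_apply]
  · simp only [du, dh_eq]
    exact sm_dw (c_real hu) le_rfl j
  · ext j
    simp only [du, dh_eq, Complex.ofReal_add, dw_add (d_real hu) (d_real hv), Pi.add_apply]
  · ext j
    simp only [du, dh_eq, Complex.ofReal_mul, dw_mul (d_real hu) (d_real hv), Pi.add_apply,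
      Pi.smul_apply, Complex.real_smul]
  · ext j k
    exact dw_add (differentiableAt_pi.1 ha j) (differentiableAt_pi.1 hb j) k
  · ext j k
    simp only [dba, ot, Matrix.of_apply, Matrix.add_apply, Matrix.smul_apply, Pi.smul_apply,
      Complex.real_smul, ← db_real, db_eq, dw_mul (d_real hu) (differentiableAt_pi.1 ha j)]
  · ext j k
    exact (dh_hol (differentiableAt_pi.1 ha j) k).2
  · ext i
    fin_cases i <;> simp [rc, gr, bv, du, dh, fderiv_real hu] <;> ring
  · ext j
    have h1 := hF.restrictScalars ℝ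
    simp only [du, ← Complex.add_conj]
    rw [dh_eq, dw_add h1 (d_conj h1), ← dh_eq, ← dh_eq, dh_conj, (dh_hol hF j).2, map_zero, add_zero]

end Pool.Agent.Lib.MP_356dfe_ag.S
end
end

-- part Pool.Agent.Lib.MP_356dfe_ag.S.PWeyl
section

/-! Weyl lemma. -/

set_option autoImplicit false

open Set Filter Topology Metric MeasureTheory
open scoped ContDiff ComplexConjugate Matrix Pointwise

noncomputable section

namespace Pool.Agent.Lib.MP_356dfe_ag.S

namespace PWeyl

open ContinuousLinearMap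

/-- the square of the distance in the mean -/
def Q (K : Set E2) (u v : E2 → ℂ) : ℝ := ∫ x in K, ‖u x - v x‖ ^ 2

variable {K s : Set E2} {u v w : E2 → ℂ} {c x : E2} {r ε δ : ℝ}

theorem Q_int (hK : IsCompact K) (hu : ContinuousOn u K) (hv : ContinuousOn v K) :
    IntegrableOn (fun x => ‖u x - v x‖ ^ 2) K := ((hu.sub hv).norm.pow 2).integrableOn_compact hK

theorem Q_nn : 0 ≤ Q K u v := integral_nonneg fun _ => sq_nonneg _

theorem Q_comm : Q K u v = Q K v u := by simp only [Q, norm_sub_rev]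

theorem Q_tri (hK : IsCompact K) (hu : ContinuousOn u K) (hv : ContinuousOn v K)
    (hw : ContinuousOn w K) : Q K u w ≤ 2 * Q K u v + 2 * Q K v w := by
  have h1 := (Q_int hK hu hv).const_mul 2
  have h2 := (Q_int hK hv hw).const_mul 2
  rw [Q, Q, Q, ← integral_const_mul, ← integral_const_mul, ← integral_add h1 h2]
  refine integral_mono (Q_int hK hu hw) (h1.add h2) fun x => ?_
  have := pow_le_pow_left₀ (norm_nonneg _) (norm_sub_le_norm_sub_add_norm_sub (u x) (v x) (w x)) 2
  nlinarith [sq_nonneg (‖u x - v x‖ - ‖v x - w x‖)]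

theorem Q_mono (hK : IsCompact K) (hu : ContinuousOn u K) (hv : ContinuousOn v K) (h : s ⊆ K) :
    Q s u v ≤ Q K u v :=
  setIntegral_mono_set (Q_int hK hu hv) (.of_forall fun _ => sq_nonneg _) h.eventuallyLE

theorem Q_small (hK : IsCompact K) (hε : 0 < ε) :
    ∃ δ > 0, ∀ u v : E2 → ℂ, (∀ x ∈ K, dist (u x) (v x) ≤ δ) → Q K u v ≤ ε := by
  have h0 : 0 ≤ volume.real K := measureReal_nonneg
  refine ⟨√(ε / (volume.real K + 1)), by positivity, fun u v h => ?_⟩
  rw [Q]
  refine (Real.le_norm_self _).trans ((norm_setIntegral_le_of_norm_le_const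
    (C := ε / (volume.real K + 1)) hK.measure_lt_top fun x hx => ?_).trans ?_)
  · rw [Real.norm_of_nonneg (sq_nonneg _), ← dist_eq_norm]
    exact (Real.le_sqrt dist_nonneg (by positivity)).1 (h x hx)
  · rw [div_mul_eq_mul_div, div_le_iff₀ (by positivity)]
    nlinarith

theorem conv_small {A B : Type} [NormedAddCommGroup A] [NormedSpace ℝ A] [NormedAddCommGroup B]
    [NormedSpace ℝ B] (L : A →L[ℝ] ℂ →L[ℝ] B) {ψ : E2 → A} (hψ : Continuous ψ)
    (h0 : ∀ t, t ∉ closedBall (0 : E2) δ → ψ t = 0) (hε : 0 < ε) : ∃ η > 0, ∀ u x, Continuous u →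
      ∫ t in closedBall x δ, ‖u t‖ ^ 2 ≤ η → ‖convolution ψ u L volume x‖ ≤ ε := by
  obtain ⟨M, hM⟩ := (L.continuous.comp hψ).bounded_above_of_compact_support
    (HasCompactSupport.intro (isCompact_closedBall 0 δ) fun t ht => by simp [h0 t ht])
  have M0 : 0 ≤ M := (norm_nonneg _).trans (hM 0)
  obtain ⟨V, hV⟩ : ∃ V, V = volume.real (closedBall (0 : E2) δ) := ⟨_, rfl⟩
  have V0 : 0 ≤ V := hV ▸ measureReal_nonneg
  obtain ⟨a, ha⟩ : ∃ a, a = ε / (M * (V + 1) + 1) := ⟨_, rfl⟩
  have a0 : 0 < a := by rw [ha]; positivity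
  refine ⟨a ^ 2, by positivity, fun u x hu h => ?_⟩
  have i1 : IntegrableOn (fun t => ‖u t‖ ^ 2) (closedBall x δ) :=
    (hu.norm.pow 2).continuousOn.integrableOn_compact (isCompact_closedBall x δ)
  have i2 : IntegrableOn (fun _ => a) (closedBall x δ) (volume : Measure E2) :=
    continuousOn_const.integrableOn_compact (isCompact_closedBall x δ)
  rw [convolution_eq_swap, ← setIntegral_eq_integral_of_forall_compl_eq_zero (s := closedBall x δ)
    fun t ht => by rw [h0 _ (by rwa [mem_closedBall_zero_iff, ← mem_closedBall_iff_norm']), map_zero,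
      zero_apply]]
  refine (norm_integral_le_of_norm_le (g := fun t => M * (a + ‖u t‖ ^ 2 / a))
    ((i2.add (i1.div_const a)).const_mul M) (.of_forall fun t => ?_)).trans ?_
  · refine (le_opNorm_of_le _ le_rfl).trans (mul_le_mul (hM _) ?_ (norm_nonneg _) M0)
    rw [← sub_le_iff_le_add', le_div_iff₀ a0]
    nlinarith [sq_nonneg (‖u t‖ - a), norm_nonneg (u t)]
  · rw [integral_const_mul, integral_add i2 (i1.div_const a), integral_div, setIntegral_const,
      Measure.addHaar_real_closedBall_center, ← hV, smul_eq_mul]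
    have h1 : (∫ t in closedBall x δ, ‖u t‖ ^ 2) / a ≤ a := by rwa [div_le_iff₀ a0, ← sq]
    have h2 : a * (M * (V + 1) + 1) = ε := by rw [ha]; field_simp
    nlinarith [mul_le_mul_of_nonneg_left h1 M0]

theorem conv_sub {A B : Type} [NormedAddCommGroup A] [NormedSpace ℝ A] [NormedAddCommGroup B]
    [NormedSpace ℝ B] (L : A →L[ℝ] ℂ →L[ℝ] B) {ψ : E2 → A} (hψ : Continuous ψ)
    (h0 : HasCompactSupport ψ) (hu : Continuous u) (hv : Continuous v) (x : E2) :
    convolution ψ u L volume x - convolution ψ v L volume x =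
      convolution ψ (fun t => u t - v t) L volume x := by
  simp only [convolution_def, map_sub]
  exact (integral_sub (h0.convolutionExists_left L hψ hu.locallyIntegrable x)
    (h0.convolutionExists_left L hψ hv.locallyIntegrable x)).symm

theorem young (φ : ContDiffBump (0 : E2)) (hu : Continuous u) (h0 : HasCompactSupport u)
    (K : Set E2) : ∫ x in K, ‖convolution (φ.normed volume) u (lsmul ℝ ℝ) volume x‖ ^ 2 ≤
      ∫ x, ‖u x‖ ^ 2 := by
  have i1 := ((continuous_norm.pow 2).comp hu).integrable_of_hasCompactSupport (μ := volume)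
    (h0.comp_left (by simp))
  change Integrable fun x => ‖u x‖ ^ 2 at i1
  have i2 := φ.integrable_normed (μ := volume)
  have i3 := i2.integrable_convolution (lsmul ℝ ℝ) i1
  have i4 := integral_convolution (lsmul ℝ ℝ) i2 i1
  rw [φ.integral_normed, lsmul_apply, one_smul] at i4
  rw [← i4]
  have nn : ∀ x, 0 ≤ convolution (φ.normed volume) (fun x => ‖u x‖ ^ 2) (lsmul ℝ ℝ) volume x :=
    fun x => integral_nonneg fun t => mul_nonneg (φ.nonneg_normed t) (sq_nonneg _)
  refine (integral_mono_of_nonneg (.of_forall fun _ => sq_nonneg _) i3.integrableOn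
    (.of_forall fun x => ?_)).trans (setIntegral_le_integral i3 (.of_forall nn))
  have j : ∀ g : E2 → ℝ, Continuous g → Integrable fun t => φ.normed volume t * g (x - t) :=
    fun g hg => φ.hasCompactSupport_normed.convolutionExists_left (lsmul ℝ ℝ) φ.continuous_normed
      hg.locallyIntegrable x
  obtain ⟨m, hm⟩ : ∃ m, m = ∫ t, φ.normed volume t * ‖u (x - t)‖ := ⟨_, rfl⟩
  have k1 : ‖convolution (φ.normed volume) u (lsmul ℝ ℝ) volume x‖ ≤ m := by
    rw [hm]
    refine norm_integral_le_of_norm_le (j _ hu.norm) (.of_forall fun t => ?_)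
    rw [lsmul_apply, norm_smul, Real.norm_of_nonneg (φ.nonneg_normed t)]
  have k2 : ∫ t, (2 * m * (φ.normed volume t * ‖u (x - t)‖) - m ^ 2 * φ.normed volume t) ≤
      ∫ t, φ.normed volume t * ‖u (x - t)‖ ^ 2 :=
    integral_mono (((j _ hu.norm).const_mul _).sub (i2.const_mul _)) (j _ (hu.norm.pow 2)) fun t => by
      have := mul_nonneg (φ.nonneg_normed (μ := volume) t) (sq_nonneg (‖u (x - t)‖ - m))
      dsimp only
      nlinarith
  rw [integral_sub ((j _ hu.norm).const_mul _) (i2.const_mul _), integral_const_mul,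
    integral_const_mul, φ.integral_normed, ← hm] at k2
  refine (pow_le_pow_left₀ (norm_nonneg _) k1 2).trans (le_trans (by linarith) k2)

/-- the conjugate derivative as a linear map -/
def D (k : Fin 2) : (E2 →L[ℝ] ℂ) →L[ℝ] ℂ := (1 / 2 : ℂ) • (apply ℝ ℂ (Pi.single k 1) +
  Complex.I • apply ℝ ℂ (Pi.single k Complex.I))

theorem db_eq (f : E2 → ℂ) (x : E2) (k : Fin 2) : db f x k = D k (fderiv ℝ f x) := by
  simp [db, D]
  ring

theorem ex_lim {B : Type} [NormedAddCommGroup B] [CompleteSpace B] {F : ℕ → E2 → B}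
    (h : UniformCauchySeqOn F atTop s) : ∃ g, TendstoUniformlyOn F g atTop s := by
  choose! g hg using fun z (hz : z ∈ s) => cauchy_map_iff_exists_tendsto.1 (h.cauchy_map hz)
  exact ⟨g, h.tendstoUniformlyOn_of_tendsto hg⟩

variable {f : ℕ → E2 → ℂ}

theorem unif {A B : Type} [NormedAddCommGroup A] [NormedSpace ℝ A] [NormedAddCommGroup B]
    [NormedSpace ℝ B] [CompleteSpace B] (L : A →L[ℝ] ℂ →L[ℝ] B) {ψ : E2 → A} (hψ : Continuous ψ)
    (h0 : ∀ t, t ∉ closedBall (0 : E2) δ → ψ t = 0) (h1 : ∀ n, Continuous (f n))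
    (h2 : ∀ n, HasCompactSupport (f n))
    (h3 : ∀ ε > 0, ∃ N, ∀ m ≥ N, ∀ n ≥ N, ∫ x, ‖f m x - f n x‖ ^ 2 ≤ ε) :
    ∃ g, TendstoUniformlyOn (fun n => convolution ψ (f n) L volume) g atTop univ := by
  refine ex_lim (Metric.uniformCauchySeqOn_iff.2 fun ε hε => ?_)
  obtain ⟨η, k1, k2⟩ := conv_small L hψ h0 (half_pos hε)
  obtain ⟨N, hN⟩ := h3 η k1
  refine ⟨N, fun m hm n hn x _ => ?_⟩
  rw [dist_eq_norm, conv_sub L hψ (.intro (isCompact_closedBall 0 δ) h0) (h1 m) (h1 n)]
  have i1 := ((continuous_norm.pow 2).comp ((h1 m).sub (h1 n))).integrable_of_hasCompactSupport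
    (μ := volume) (((h2 m).sub (h2 n)).comp_left (by simp))
  exact (k2 _ x ((h1 m).sub (h1 n)) ((setIntegral_le_integral i1
    (.of_forall fun _ => sq_nonneg _)).trans (hN m hm n hn))).trans_lt (half_lt_self hε)

theorem hol (hc : Calc) (h1 : ∀ n, ContDiff ℝ 1 (f n)) (h2 : ∀ n, HasCompactSupport (f n))
    (h3 : ∀ ε > 0, ∃ N, ∀ m ≥ N, ∀ n ≥ N, ∫ x, ‖f m x - f n x‖ ^ 2 ≤ ε)
    (h4 : ∀ k, Tendsto (fun n => Q (closedBall c (3 * r)) (fun x => db (f n) x k) 0) atTop (𝓝 0))
    (φ : ContDiffBump (0 : E2)) (hφ : φ.rOut ≤ r) : ∃ g, Continuous g ∧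
      (∀ x ∈ closedBall c (2 * r), DifferentiableAt ℂ g x) ∧ TendstoUniformlyOn
        (fun n => convolution (φ.normed volume) (f n) (lsmul ℝ ℝ) volume) g atTop univ := by
  have s0 : ∀ t, t ∉ closedBall (0 : E2) φ.rOut → t ∉ tsupport (φ.normed volume) := fun t ht =>
    φ.tsupport_normed_eq (μ := volume) ▸ ht
  have s1 : ∀ t, t ∉ closedBall (0 : E2) φ.rOut → φ.normed volume t = 0 := fun t ht =>
    image_eq_zero_of_notMem_tsupport (s0 t ht)
  have c1 : ContDiff ℝ 1 (φ.normed volume) := φ.contDiff_normed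
  have c2 := fun n => (h1 n).continuous
  obtain ⟨g, hg⟩ := unif (lsmul ℝ ℝ) φ.continuous_normed s1 c2 h2 h3
  obtain ⟨g', hg'⟩ := unif ((lsmul ℝ ℝ).precompL E2) (c1.continuous_fderiv one_ne_zero)
    (fun t ht => Function.notMem_support.1 fun k => s0 t ht (support_fderiv_subset ℝ k)) c2 h2 h3
  have d1 := fun n x => φ.hasCompactSupport_normed.hasFDerivAt_convolution_left (lsmul ℝ ℝ) c1
    (c2 n).locallyIntegrable (μ := volume) x
  have d2 : ∀ x, HasFDerivAt g (g' x) x := fun x => hasFDerivAt_of_tendstoUniformlyOn isOpen_univ hg'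
    (fun n x _ => d1 n x) (fun x hx => hg.tendsto_at hx) (mem_univ x)
  refine ⟨g, continuous_iff_continuousAt.2 fun x => (d2 x).continuousAt, fun x hx =>
    hc.hol_of_db g x (d2 x).differentiableAt fun k => ?_, hg⟩
  rw [db_eq, (d2 x).fderiv]
  refine tendsto_nhds_unique (((D k).continuous.tendsto _).comp (hg'.tendsto_at (mem_univ x)))
    (Metric.tendsto_nhds.2 fun ε hε => ?_)
  obtain ⟨η, k1, k2⟩ := conv_small (lsmul ℝ ℝ) φ.continuous_normed s1 (half_pos hε)
  filter_upwards [(h4 k).eventually_le_const k1] with n hn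
  have c3 := (h1 n).continuous_fderiv one_ne_zero
  have c4 : Continuous fun t => db (f n) t k := by
    simp only [db_eq]
    exact (D k).continuous.comp c3
  have l1 := c1.continuous.locallyIntegrable (μ := volume)
  rw [Function.comp, (d1 n x).unique ((h2 n).hasFDerivAt_convolution_right _ l1 (h1 n) x),
    convolution_def, ← integral_comp_comm _ (((h2 n).fderiv ℝ).convolutionExists_right _ l1 c3 x),
    dist_zero_right]
  refine lt_of_eq_of_lt ?_ ((k2 _ x c4 (le_trans ?_ hn)).trans_lt (half_lt_self hε))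
  · rw [convolution_def]
    congr 2
    ext t
    rw [db_eq, lsmul_apply, ← map_smul]
    rfl
  · simpa only [Q, Pi.zero_apply, sub_zero] using Q_mono (v := 0) (isCompact_closedBall c (3 * r))
      c4.continuousOn continuousOn_const (closedBall_subset_closedBall' (by
        rw [mem_closedBall] at hx
        linarith))

theorem core (hc : Calc) (h1 : ∀ n, ContDiff ℝ 1 (f n)) (h2 : ∀ n, HasCompactSupport (f n))
    (h3 : ∀ ε > 0, ∃ N, ∀ m ≥ N, ∀ n ≥ N, ∫ x, ‖f m x - f n x‖ ^ 2 ≤ ε) (hr : 0 < r)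
    (h4 : ∀ k, Tendsto (fun n => Q (closedBall c (3 * r)) (fun x => db (f n) x k) 0) atTop (𝓝 0))
    (hε : 0 < ε) : ∃ g, Continuous g ∧ (∀ x ∈ closedBall c (2 * r), DifferentiableAt ℂ g x) ∧
      ∀ᶠ n in atTop, Q (closedBall c (2 * r)) (f n) g ≤ ε := by
  have hK := isCompact_closedBall c (2 * r)
  have c2 := fun n => (h1 n).continuous
  have e0 : 0 < ε / 22 := by positivity
  obtain ⟨N, hN⟩ := h3 _ e0
  obtain ⟨δ, d0, hδ⟩ := Q_small hK e0
  obtain ⟨t, t0, ht⟩ := Metric.uniformContinuous_iff.1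
    ((h2 N).uniformContinuous_of_continuous (c2 N)) δ d0
  have m0 := lt_min t0 hr
  let φ : ContDiffBump (0 : E2) := ⟨min t r / 2, min t r, half_pos m0, half_lt_self m0⟩
  obtain ⟨g, g1, g2, g3⟩ := hol hc h1 h2 h3 h4 φ (min_le_right _ _)
  refine ⟨g, g1, g2, (eventually_ge_atTop N).mono fun n hn => ?_⟩
  obtain ⟨m, m1, m2⟩ := ((Metric.tendstoUniformlyOn_iff.1 g3 δ d0).and (eventually_ge_atTop N)).exists
  have c3 := fun n => (φ.hasCompactSupport_normed.continuous_convolution_left (lsmul ℝ ℝ)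
    (φ.continuous_normed (μ := volume)) (c2 n).locallyIntegrable (μ := volume)).continuousOn
      (s := closedBall c (2 * r))
  have i1 := ((continuous_norm.pow 2).comp ((c2 n).sub (c2 N))).integrable_of_hasCompactSupport
    (μ := volume) (((h2 n).sub (h2 N)).comp_left (by simp))
  have k1 : Q (closedBall c (2 * r)) (f n) (f N) ≤ ε / 22 :=
    (setIntegral_le_integral i1 (.of_forall fun _ => sq_nonneg _)).trans (hN n hn N le_rfl)
  have k2 := hδ (f N) _ fun x _ => dist_comm (f N x) _ ▸ φ.dist_normed_convolution_le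
    (μ := volume) (c2 N).aestronglyMeasurable fun y hy => (ht (lt_of_lt_of_le hy (min_le_left _ _))).le
  have k3 := (young φ ((c2 N).sub (c2 m)) ((h2 N).sub (h2 m)) (closedBall c (2 * r))).trans
    (hN N le_rfl m m2)
  have k4 := hδ _ g fun x _ => dist_comm (g x) _ ▸ (m1 x (mem_univ x)).le
  have k5 := Q_tri hK (c3 N) (c3 m) g1.continuousOn
  have k6 := Q_tri hK (c2 N).continuousOn (c3 N) g1.continuousOn
  have k7 := Q_tri hK (c2 n).continuousOn (c2 N).continuousOn g1.continuousOn
  have k8 : Q (closedBall c (2 * r)) (convolution (φ.normed volume) (f N) (lsmul ℝ ℝ) volume)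
      (convolution (φ.normed volume) (f m) (lsmul ℝ ℝ) volume) ≤ ε / 22 := by
    simp only [Q, conv_sub _ φ.continuous_normed φ.hasCompactSupport_normed (c2 N) (c2 m)]
    exact k3
  linarith

theorem mean (hm : Mean) (hr : 0 < r) : ∃ C ≥ 0, ∀ (u v : E2 → ℂ) (x : E2) (K : Set E2),
    IsCompact K → ball x r ⊆ K → ContinuousOn u K → ContinuousOn v K →
    DifferentiableOn ℂ u (ball x (2 * r)) → DifferentiableOn ℂ v (ball x (2 * r)) →
    dist (u x) (v x) ^ 2 ≤ C * Q K u v := by
  obtain ⟨C, h⟩ := hm r hr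
  refine ⟨|C|, abs_nonneg C, fun u v x K hK h1 h2 h3 h4 h5 => ?_⟩
  rw [dist_eq_norm]
  exact (h _ x (h4.sub h5)).trans (mul_le_mul (le_abs_self C) (Q_mono hK h2 h3 h1) Q_nn
    (abs_nonneg C))

theorem glob (hc : Calc) (hm : Mean) (h1 : ∀ n, ContDiff ℝ 1 (f n))
    (h2 : ∀ n, HasCompactSupport (f n))
    (h3 : ∀ ε > 0, ∃ N, ∀ m ≥ N, ∀ n ≥ N, ∫ x, ‖f m x - f n x‖ ^ 2 ≤ ε) (hr : 0 < r)
    (h4 : ∀ k, Tendsto (fun n => Q (closedBall c (3 * r)) (fun x => db (f n) x k) 0) atTop (𝓝 0)) :
    ∃ h, DifferentiableOn ℂ h (ball c r) ∧ LL (ball c r) f h := by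
  have hK := isCompact_closedBall c (2 * r)
  have c2 := fun n => (h1 n).continuous
  choose g g1 g2 g3 using fun k : ℕ => core hc h1 h2 h3 hr h4 (Nat.one_div_pos_of_nat (n := k))
  have t0 := tendsto_one_div_add_atTop_nhds_zero_nat (𝕜 := ℝ)
  obtain ⟨C, C0, hC⟩ := mean hm (half_pos hr)
  have s1 : ∀ x ∈ ball c r, ball x r ⊆ closedBall c (2 * r) := fun x hx =>
    (ball_subset_ball' (by rw [mem_ball] at hx; linarith)).trans ball_subset_closedBall
  have s2 : ball c r ⊆ closedBall c (2 * r) := s1 c (mem_ball_self hr)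
  obtain ⟨h, hh⟩ := ex_lim (F := g) (s := ball c r) (Metric.uniformCauchySeqOn_iff.2 fun ε hε => by
    obtain ⟨N, hN⟩ := eventually_atTop.1 ((t0.const_mul (4 * C)).eventually_lt_const
      (show 4 * C * 0 < ε ^ 2 by rw [mul_zero]; positivity))
    refine ⟨N, fun k hk j hj x hx => lt_of_pow_lt_pow_left₀ 2 hε.le ?_⟩
    have d : ∀ i, DifferentiableOn ℂ (g i) (ball x (2 * (r / 2))) := fun i y hy =>
      (g2 i y (s1 x hx (by rwa [mul_div_cancel₀ _ two_ne_zero] at hy))).differentiableWithinAt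
    obtain ⟨n, n1, n2⟩ := ((g3 k).and (g3 j)).exists
    have k1 := Q_tri hK (g1 k).continuousOn (c2 n).continuousOn (g1 j).continuousOn
    rw [Q_comm] at n1
    have k2 := mul_le_mul_of_nonneg_left (k1.trans (add_le_add
      (mul_le_mul_of_nonneg_left n1 zero_le_two) (mul_le_mul_of_nonneg_left n2 zero_le_two))) C0
    have k3 := hC (g k) (g j) x _ hK ((ball_subset_ball (half_le_self hr.le)).trans (s1 x hx))
      (g1 k).continuousOn (g1 j).continuousOn (d k) (d j)
    linarith [hN k hk, hN j hj])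
  have hd : DifferentiableOn ℂ h (ball c r) := fun z hz => by
    obtain ⟨R, R0, hR⟩ := Metric.isOpen_iff.1 isOpen_ball z hz
    exact (MP_7906d6_an.weierstrass R0 (fun k y hy =>
      (g2 k y (s2 (hR hy))).differentiableWithinAt) (hh.mono hR)).differentiableWithinAt
  refine ⟨h, hd, fun K k1 k2 => Metric.tendsto_nhds.2 fun ε hε => ?_⟩
  have e0 : 0 < ε / 8 := by positivity
  obtain ⟨δ, d0, hδ⟩ := Q_small k1 e0
  obtain ⟨k, k3, k4⟩ := ((Metric.tendstoUniformlyOn_iff.1 hh δ d0).and
    (t0.eventually_le_const e0)).exists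
  filter_upwards [g3 k] with n hn
  have k5 := Q_tri k1 (c2 n).continuousOn (g1 k).continuousOn (hd.continuousOn.mono k2)
  have k6 := Q_mono hK (c2 n).continuousOn (g1 k).continuousOn (k2.trans s2)
  have k7 := hδ (g k) h fun x hx => dist_comm (h x) _ ▸ (k3 x (k2 hx)).le
  change dist (Q K (f n) h) 0 < ε
  rw [dist_zero_right, Real.norm_of_nonneg Q_nn]
  linarith

variable {O : Set E2} {b : ℕ → E2 → ℂ}

theorem loc (hc : Calc) (hm : Mean) (hO : IsOpen O) (h1 : ∀ n, ContDiffOn ℝ 1 (b n) O)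
    (h2 : ∀ K, IsCompact K → K ⊆ O → ∀ ε > 0, ∃ N, ∀ m ≥ N, ∀ n ≥ N, Q K (b m) (b n) ≤ ε)
    (h3 : ∀ k, LL O (fun n x => db (b n) x k) 0) (hx : c ∈ O) :
    ∃ r > 0, ball c r ⊆ O ∧ ∃ h, DifferentiableOn ℂ h (ball c r) ∧ LL (ball c r) b h := by
  obtain ⟨R, R0, hR⟩ := Metric.nhds_basis_closedBall.mem_iff.1 (hO.mem_nhds hx)
  obtain ⟨r, rfl⟩ : ∃ r, R = 5 * r := ⟨R / 5, by ring⟩
  have hr : 0 < r := by linarith
  have hK := isCompact_closedBall c (5 * r)
  let χ : ContDiffBump c := ⟨4 * r, 5 * r, by linarith, by linarith⟩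
  have e1 : ∀ n, ∀ x ∈ closedBall c (3 * r), (fun x => χ x • b n x) =ᶠ[𝓝 x] b n := fun n x hx => by
    filter_upwards [χ.eventuallyEq_one_of_mem_ball (closedBall_subset_ball
      (show 3 * r < 4 * r by linarith) hx)] with y hy
    rw [hy, Pi.one_apply, one_smul]
  have c1 : ∀ n, ContDiff ℝ 1 fun x => χ x • b n x := fun n => contDiff_iff_contDiffAt.2 fun x => by
    by_cases hx : x ∈ O
    · exact χ.contDiffAt.smul ((h1 n).contDiffAt (hO.mem_nhds hx))
    · refine (contDiffAt_const (c := 0)).congr_of_eventuallyEq ?_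
      filter_upwards [notMem_tsupport_iff_eventuallyEq.1 (show x ∉ tsupport χ from fun k =>
        hx (hR (χ.tsupport_eq ▸ k :)))] with y hy
      rw [hy, Pi.zero_apply, zero_smul]
  have c2 := fun n => (h1 n).continuousOn.mono hR
  obtain ⟨h, k1, k2⟩ := glob (c := c) hc hm c1 (fun n => χ.hasCompactSupport.smul_right)
    (fun ε hε => (h2 _ hK hR ε hε).imp fun N hN m hm n hn => le_trans (by
      rw [← setIntegral_eq_integral_of_forall_compl_eq_zero (s := closedBall c (5 * r))
        fun x hx => by simp [χ.zero_of_le_dist (show 5 * r ≤ dist x c from (not_le.1 hx).le)]]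
      refine setIntegral_mono_on (Q_int hK (c1 m).continuous.continuousOn
        (c1 n).continuous.continuousOn) (Q_int hK (c2 m) (c2 n)) hK.measurableSet fun x _ => ?_
      rw [← smul_sub, norm_smul, Real.norm_of_nonneg χ.nonneg]
      exact pow_le_pow_left₀ (mul_nonneg χ.nonneg (norm_nonneg _))
        (mul_le_of_le_one_left (norm_nonneg _) χ.le_one) 2) (hN m hm n hn)) hr
    fun k => (h3 k _ (isCompact_closedBall c (3 * r)) ((closedBall_subset_closedBall
      (by linarith)).trans hR)).congr fun n => setIntegral_congr_fun measurableSet_closedBall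
        fun x hx => by simp only [db_eq, (e1 n x hx).fderiv_eq]
  have s1 : ball c r ⊆ closedBall c (3 * r) :=
    ball_subset_closedBall.trans (closedBall_subset_closedBall (by linarith))
  refine ⟨r, hr, s1.trans ((closedBall_subset_closedBall (by linarith)).trans hR), h, k1,
    fun K k3 k4 => (k2 K k3 k4).congr fun n => setIntegral_congr_fun k3.measurableSet fun x hx => ?_⟩
  simp only [(e1 n x (s1 (k4 hx))).self_of_nhds]

theorem uniq (hm : Mean) (hO : IsOpen O) (h1 : ∀ n, ContinuousOn (b n) O)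
    (hu : DifferentiableOn ℂ u O) (hv : DifferentiableOn ℂ v O) (h2 : LL O b u) (h3 : LL O b v)
    (hx : x ∈ O) : u x = v x := by
  obtain ⟨R, R0, hR⟩ := Metric.isOpen_iff.1 hO x hx
  obtain ⟨r, rfl⟩ : ∃ r, R = 2 * r := ⟨R / 2, by ring⟩
  have hr : 0 < r := by linarith
  have hK := isCompact_closedBall x r
  have s1 : closedBall x r ⊆ O := (closedBall_subset_ball (by linarith)).trans hR
  obtain ⟨C, C0, hC⟩ := mean hm hr
  have k1 := hC u v x _ hK ball_subset_closedBall (hu.continuousOn.mono s1) (hv.continuousOn.mono s1)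
    (hu.mono hR) (hv.mono hR)
  have k2 := ge_of_tendsto' (((h2 _ hK s1).const_mul 2).add ((h3 _ hK s1).const_mul 2))
    (b := Q (closedBall x r) u v) fun n => (Q_tri hK (hu.continuousOn.mono s1) ((h1 n).mono s1)
      (hv.continuousOn.mono s1)).trans_eq (by rw [Q_comm]; rfl)
  exact dist_le_zero.1 (by nlinarith [dist_nonneg (x := u x) (y := v x)])

end PWeyl

open PWeyl in
theorem weyl (hc : Calc) (hm : Mean) : Weyl := by
  intro O b hO h1 h2 h3
  choose! r r0 r1 g g1 g2 using fun c (hx : c ∈ O) => loc hc hm hO h1 h2 h3 hx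
  have c1 := fun n => (h1 n).continuousOn
  have e : ∀ c ∈ O, ∀ x ∈ ball c (r c), g x x = g c x := fun c k x hx =>
    uniq hm (O := ball x (r x) ∩ ball c (r c)) (isOpen_ball.inter isOpen_ball)
      (fun n => (c1 n).mono (inter_subset_right.trans (r1 c k)))
      ((g1 x (r1 c k hx)).mono inter_subset_left) ((g1 c k).mono inter_subset_right)
      (fun K i j => g2 x (r1 c k hx) K i (j.trans inter_subset_left))
      (fun K i j => g2 c k K i (j.trans inter_subset_right)) ⟨mem_ball_self (r0 x (r1 c k hx)), hx⟩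
  have d : DifferentiableOn ℂ (fun x => g x x) O := fun c k =>
    (((g1 c k).congr (e c k)).differentiableAt (ball_mem_nhds c (r0 c k))).differentiableWithinAt
  refine ⟨_, d, fun K hK k => ?_⟩
  have i := fun n => Q_int hK ((c1 n).mono k) (d.continuousOn.mono k)
  have nn : ∀ n, 0 ≤ᵐ[volume] fun x => ‖b n x - g x x‖ ^ 2 := fun n => .of_forall fun _ => sq_nonneg _
  have key := hK.induction_on (p := fun s => Tendsto (fun n => Q (s ∩ K) (b n) fun x => g x x) atTop
    (𝓝 0)) (by simp [Q]) (fun s t h ht => squeeze_zero (fun _ => Q_nn) (fun n =>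
      setIntegral_mono_set ((i n).mono_set inter_subset_right) (ae_restrict_of_ae (nn n))
        (inter_subset_inter_left K h).eventuallyLE) ht)
    (fun s t hs ht => squeeze_zero (fun _ => Q_nn) (fun n => ?_) (by simpa using hs.add ht))
    fun c hc => ?_
  · simpa only [inter_self, Q] using key
  · have j1 := (i n).mono_set (inter_subset_right (s := s))
    have j2 := (i n).mono_set (inter_subset_right (s := t))
    rw [union_inter_distrib_right, Q, Q, Q, ← integral_add_measure j1 j2]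
    exact integral_mono_measure (Measure.restrict_union_le _ _) (.of_forall fun _ => sq_nonneg _)
      (Integrable.add_measure j1 j2)
  · have j := half_pos (r0 c (k hc))
    have s1 : closedBall c (r c / 2) ∩ K ⊆ ball c (r c) :=
      inter_subset_left.trans (closedBall_subset_ball (half_lt_self (r0 c (k hc))))
    have hs := hK.inter_left (isClosed_closedBall (x := c) (ε := r c / 2))
    exact ⟨_, mem_nhdsWithin_of_mem_nhds (closedBall_mem_nhds c j), (g2 c (k hc) _ hs s1).congr
      fun n => setIntegral_congr_fun hs.measurableSet fun x hx => by simp only [e c (k hc) x (s1 hx)]⟩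

end Pool.Agent.Lib.MP_356dfe_ag.S
end
end

-- part Pool.Agent.Lib.MP_356dfe_ag.S.PSard
section

/-! Critical values. -/

set_option autoImplicit false

open Set Filter Topology Metric MeasureTheory
open scoped ContDiff ComplexConjugate Matrix Pointwise

noncomputable section

namespace Pool.Agent.Lib.MP_356dfe_ag.S

namespace PSard

open Asymptotics

variable {O S : Set E2} {F : E2 → ℂ}

/-- a set that is locally sent to null sets -/
theorem null_of_loc (h : ∀ x ∈ S, ∃ U ∈ 𝓝 x, volume (F '' (S ∩ U)) = 0) : volume (F '' S) = 0 := by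
  choose! U hU h0 using h
  obtain ⟨t, ht, hc, hs⟩ := TopologicalSpace.countable_cover_nhdsWithin (f := fun x => S ∩ U x)
    fun x hx => inter_mem_nhdsWithin S (hU x hx)
  refine measure_mono_null (image_mono hs) ?_
  rw [image_iUnion₂]
  exact (measure_biUnion_null_iff hc).2 fun x hx => h0 x (ht hx)

/-- critical points on a Lipschitz graph -/
theorem null_of_lip {π : E2 → ℂ} {C : ℝ} (h : ∀ y ∈ S, ∀ y' ∈ S, ‖y - y'‖ ≤ C * ‖π y - π y'‖)
    (hF : ∀ y ∈ S, HasFDerivAt F (0 : E2 →L[ℂ] ℂ) y) : volume (F '' S) = 0 := by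
  have hi : InjOn π S := fun y hy y' hy' e => by
    have h1 := h y hy y' hy'
    rw [e, sub_self, norm_zero, mul_zero] at h1
    exact sub_eq_zero.1 (norm_le_zero_iff.1 h1)
  set γ := Function.invFunOn π S with hγ
  have hl : ∀ y ∈ S, γ (π y) = y := fun y hy => hi.leftInvOn_invFunOn hy
  have e : F '' S = (F ∘ γ) '' (π '' S) := by
    rw [image_image]
    exact image_congr fun y hy => by rw [Function.comp_apply, hl y hy]
  rw [e]
  refine addHaar_image_eq_zero_of_det_fderivWithin_eq_zero volume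
    (f' := fun _ => (0 : ℂ →L[ℝ] ℂ)) ?_ fun _ _ => LinearMap.det_zero''
  rintro _ ⟨y, hy, rfl⟩
  have hO : (fun t => γ t - y) =O[𝓝[π '' S] π y] fun t => t - π y := by
    refine IsBigO.of_bound C (eventually_nhdsWithin_of_forall ?_)
    rintro _ ⟨y', hy', rfl⟩
    rw [hl y' hy']
    exact h y' hy' y hy
  have ht : Tendsto γ (𝓝[π '' S] π y) (𝓝 y) := by
    refine tendsto_sub_nhds_zero_iff.1 (hO.trans_tendsto ?_)
    exact tendsto_sub_nhds_zero_iff.2 (tendsto_id.mono_left nhdsWithin_le_nhds)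
  have h1 := ((hF y hy).isLittleO.comp_tendsto ht).trans_isBigO hO
  refine HasFDerivWithinAt.of_isLittleO ?_
  simpa [Function.comp_def, hl y hy] using h1

theorem split (j : Fin 2) (v : E2) :
    v = v j • (Pi.single j 1 : E2) + v j.rev • (Pi.single j.rev 1 : E2) := by
  funext i
  fin_cases j <;> fin_cases i <;> simp [Fin.rev]

theorem norm_split (j : Fin 2) (v : E2) : ‖v‖ ≤ ‖v j‖ + ‖v j.rev‖ := by
  conv_lhs => rw [split j v]
  refine (norm_add_le _ _).trans ?_
  simp [norm_smul, Pi.norm_single]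

/-- critical points on a smooth curve -/
theorem null_curve (hO : IsOpen O) (hF : DifferentiableOn ℂ F O) {D : E2 → ℂ}
    (hD : DifferentiableOn ℂ D O) (j : Fin 2) : volume (F '' {x | x ∈ O ∧ fderiv ℂ F x = 0 ∧
      D x = 0 ∧ fderiv ℂ D x (Pi.single j 1) ≠ 0}) = 0 := by
  refine null_of_loc ?_
  rintro x ⟨hx, -, -, ha⟩
  have hc : ContDiffAt ℂ (1 : ℕ) D x :=
    (Pool.Agent.Lib.MP_7906d6_an.contDiffOn_of_differentiableOn hO 1 hD).contDiffAt
      (hO.mem_nhds hx)
  set a := fderiv ℂ D x (Pi.single j 1) with ha'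
  set b := fderiv ℂ D x (Pi.single j.rev 1) with hb'
  have ha0 : 0 < ‖a‖ := norm_pos_iff.2 ha
  obtain ⟨U, hU, hap⟩ := (hc.hasStrictFDerivAt (by simp)).approximates_deriv_on_nhds
    (c := ‖a‖₊ / 2) (Or.inr (half_pos ha0))
  refine ⟨U, hU, null_of_lip (π := fun y => y j.rev) (C := 2 * (‖a‖ + ‖b‖) / ‖a‖) ?_ ?_⟩
  · rintro y ⟨⟨-, -, h1, -⟩, hy⟩ y' ⟨⟨-, -, h2, -⟩, hy'⟩
    have h3 := hap y hy y' hy'
    rw [h1, h2, sub_self, zero_sub, norm_neg] at h3
    change ‖y - y'‖ ≤ _ * ‖(y - y') j.rev‖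
    generalize y - y' = v at h3
    have h4 : fderiv ℂ D x v = v j * a + v j.rev * b := by
      conv_lhs => rw [split j v]
      rw [map_add, map_smul, map_smul, smul_eq_mul, smul_eq_mul]
    have h5 : ‖v j‖ * ‖a‖ ≤ ‖a‖ / 2 * ‖v‖ + ‖v j.rev‖ * ‖b‖ := by
      have h6 : v j * a = fderiv ℂ D x v - v j.rev * b := by rw [h4]; ring
      rw [← norm_mul, h6, ← norm_mul]
      exact (norm_sub_le _ _).trans (add_le_add (by simpa using h3) le_rfl)
    have h7 := mul_le_mul_of_nonneg_right (norm_split j v) ha0.le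
    rw [div_mul_eq_mul_div, le_div_iff₀ ha0]
    linarith
  · rintro y ⟨⟨hy, h1, -⟩, -⟩
    exact h1 ▸ (hF.differentiableAt (hO.mem_nhds hy)).hasFDerivAt

/-- iterated derivatives in one direction -/
def dd (F : E2 → ℂ) (e : E2) : ℕ → E2 → ℂ
  | 0 => F
  | k + 1 => fun x => fderiv ℂ (dd F e k) x e

theorem dd_diff (hO : IsOpen O) (hF : DifferentiableOn ℂ F O) (e : E2) :
    ∀ k, DifferentiableOn ℂ (dd F e k) O
  | 0 => hF
  | k + 1 => Pool.Agent.Lib.MP_7906d6_an.differentiableOn_fderiv_apply hO (dd_diff hO hF e k) e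

theorem slice (hO : IsOpen O) {G : E2 → ℂ} (hG : DifferentiableOn ℂ G O) (x e : E2) {t : ℂ}
    (ht : x + t • e ∈ O) : HasDerivAt (fun s : ℂ => G (x + s • e)) (fderiv ℂ G (x + t • e) e) t := by
  have h1 : HasDerivAt (fun s : ℂ => x + s • e) e t := by
    simpa using ((hasDerivAt_id t).smul_const e).const_add x
  exact (hG.differentiableAt (hO.mem_nhds ht)).hasFDerivAt.comp_hasDerivAt t h1

theorem iter_slice (hO : IsOpen O) (hF : DifferentiableOn ℂ F O) (x e : E2) (k : ℕ) :
    ∀ t : ℂ, x + t • e ∈ O →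
      iteratedDeriv k (fun s : ℂ => F (x + s • e)) t = dd F e k (x + t • e) := by
  induction k with
  | zero => exact fun t _ => rfl
  | succ k ih =>
    intro t ht
    have hc : Continuous fun s : ℂ => x + s • e := by fun_prop
    have h1 : iteratedDeriv k (fun s : ℂ => F (x + s • e)) =ᶠ[𝓝 t] fun s => dd F e k (x + s • e) :=
      (hc.continuousAt.eventually (hO.mem_nhds ht)).mono ih
    rw [iteratedDeriv_succ, h1.deriv_eq]
    exact (slice hO (dd_diff hO hF e k) x e ht).deriv

theorem const_slice (hO : IsOpen O) (hF : DifferentiableOn ℂ F O) {x e : E2} {r : ℝ}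
    (hr : ∀ t ∈ ball (0 : ℂ) r, x + t • e ∈ O) (h : ∀ k, dd F e (k + 1) x = 0) {t : ℂ}
    (ht : t ∈ ball (0 : ℂ) r) : F (x + t • e) = F x := by
  have h0 := hr 0 (mem_ball_self (pos_of_mem_ball ht))
  have h1 := Complex.hasSum_taylorSeries_on_ball (f := fun s : ℂ => F (x + s • e))
    (fun s hs => (slice hO hF x e (hr s hs)).differentiableAt.differentiableWithinAt) ht
  refine h1.unique ?_
  have h2 := hasSum_single (f := fun n : ℕ => ((n.factorial : ℂ))⁻¹ • (t - 0) ^ n •
    iteratedDeriv n (fun s : ℂ => F (x + s • e)) 0) 0 fun n hn => by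
      obtain ⟨k, rfl⟩ := Nat.exists_eq_succ_of_ne_zero hn
      rw [iter_slice hO hF x e _ 0 h0, zero_smul, add_zero, h k, smul_zero, smul_zero]
  simpa using h2

/-- points where all pure derivatives vanish -/
theorem null_flat (hO : IsOpen O) (hF : DifferentiableOn ℂ F O) :
    volume (F '' {x | x ∈ O ∧ ∀ (j : Fin 2) k, dd F (Pi.single j 1) (k + 1) x = 0}) = 0 := by
  refine null_of_loc ?_
  rintro p ⟨hp, -⟩
  obtain ⟨ρ, hρ, hb⟩ := Metric.isOpen_iff.1 hO p hp
  refine ⟨ball p (ρ / 3), ball_mem_nhds _ (by positivity), Set.Subsingleton.measure_zero ?_ _⟩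
  have key : ∀ x ∈ ball p (ρ / 3), ∀ x' ∈ ball p (ρ / 3), ∀ j : Fin 2,
      (∀ k, dd F (Pi.single j 1) (k + 1) x = 0) →
      F (x + (x' j - x j) • (Pi.single j 1 : E2)) = F x := fun x hx x' hx' j h => by
    refine const_slice hO hF (r := 2 * (ρ / 3)) (fun t ht => hb ?_) h ?_
    · rw [mem_ball_zero_iff] at ht
      rw [mem_ball_iff_norm] at hx ⊢
      have e : x + t • (Pi.single j 1 : E2) - p = x - p + t • (Pi.single j 1 : E2) := by abel
      rw [e]
      refine (norm_add_le _ _).trans_lt ?_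
      rw [norm_smul, Pi.norm_single, norm_one]
      linarith
    · rw [mem_ball_zero_iff]
      refine (norm_le_pi_norm (x' - x) j).trans_lt ?_
      rw [← dist_eq_norm]
      have := dist_triangle_right x' x p
      rw [mem_ball] at hx hx'
      linarith
  rintro _ ⟨x, ⟨⟨-, h⟩, hx⟩, rfl⟩ _ ⟨x', ⟨⟨-, h'⟩, hx'⟩, rfl⟩
  rw [← key x hx x' hx' 1 (h 1), ← key x' hx' x hx 0 (h' 0)]
  congr 1
  funext i
  fin_cases i <;> simp

end PSard

theorem sard : Sard := by
  classical
  intro O F hO hF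
  refine measure_mono_null ?_ (measure_union_null (PSard.null_flat hO hF)
    (measure_iUnion_null fun j : Fin 2 => measure_iUnion_null fun k : ℕ =>
      PSard.null_curve hO hF (PSard.dd_diff hO hF (Pi.single j 1) k) j))
  rintro _ ⟨x, ⟨hx, h0⟩, rfl⟩
  by_cases h : ∀ (j : Fin 2) k, PSard.dd F (Pi.single j 1) (k + 1) x = 0
  · exact Or.inl ⟨x, ⟨hx, h⟩, rfl⟩
  · push Not at h
    obtain ⟨j, hk⟩ := h
    have h1 := Nat.find_spec hk
    have h2 : Nat.find hk ≠ 0 := fun e => h1 (by rw [e]; simp [PSard.dd, h0])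
    obtain ⟨k, hk'⟩ := Nat.exists_eq_succ_of_ne_zero h2
    have h3 := Nat.find_min hk (m := k) (by omega)
    rw [hk'] at h1
    exact Or.inr (mem_iUnion₂.2 ⟨j, k + 1, x, ⟨hx, h0, not_not.1 h3, h1⟩, rfl⟩)

end Pool.Agent.Lib.MP_356dfe_ag.S
end
end
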