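import Pool.Agent.Lib.MP_356dfe_ag.S.Basic
import Pool.Agent.Lib.MP_356dfe_ag.S.PLiftK

-- part Pool.Agent.Lib.MP_356dfe_ag.S.PN1
section

/-! Euler characteristic of good covers. -/

set_option autoImplicit false

open Set Filter Topology Metric Pool.Agent.Shared.SingHom
open scoped ContDiff Pointwise

noncomputable section

namespace Pool.Agent.Lib.MP_356dfe_ag.S

namespace PN1

open Module

theorem ex_rank {M N P : Type*} [AddCommGroup M] [AddCommGroup N] [AddCommGroup P]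
    (f : M →ₗ[ℤ] N) (g : N →ₗ[ℤ] P) (h : LinearMap.ker g = LinearMap.range f)
    [Module.Finite ℤ (LinearMap.range f)] [Module.Finite ℤ (LinearMap.range g)] :
    Module.Finite ℤ N ∧
      finrank ℤ N = finrank ℤ (LinearMap.range f) + finrank ℤ (LinearMap.range g) := by
  have hN : Module.Finite ℤ N := by
    refine ⟨Submodule.fg_of_fg_map_of_fg_inf_ker g ?_ ?_⟩
    · rw [Submodule.map_top]; exact Module.Finite.iff_fg.1 inferInstance
    · rw [top_inf_eq, h]; exact Module.Finite.iff_fg.1 inferInstance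
  refine ⟨hN, ?_⟩
  have := finrank_range_add_ker g
  rw [h] at this
  omega

theorem rank_prod (M N : Type*) [AddCommGroup M] [AddCommGroup N] [Module.Finite ℤ M]
    [Module.Finite ℤ N] : finrank ℤ (M × N) = finrank ℤ M + finrank ℤ N := by
  have a := (ex_rank (LinearMap.inl ℤ M N) (LinearMap.snd ℤ M N) (LinearMap.ker_snd ℤ M N)).2
  rwa [LinearMap.finrank_range_of_inj LinearMap.inl_injective,
    LinearMap.range_eq_top.2 LinearMap.snd_surjective, finrank_top] at a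

variable {X : Type} [TopologicalSpace X] {A A₁ A₂ A₀ : Set X} {k : ℕ} {c c₁ c₂ c₀ : ℤ}

/-- finite homology, zero above `k`, with Euler characteristic `c` -/
def P (k : ℕ) (A : Set X) (c : ℤ) : Prop :=
  (∀ m, Module.Finite ℤ (H A m)) ∧ (∀ m, k < m → bt A m = 0) ∧
    ∑ m ∈ Finset.range (k + 1), (-1) ^ m * bt A m = c

theorem P.mono (h : P 0 A c) (k : ℕ) : P k A c := by
  refine ⟨h.1, fun m hm => h.2.1 m (by omega), ?_⟩
  induction k with
  | zero => exact h.2.2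
  | succ k ih => rw [Finset.sum_range_succ, ih, h.2.1 _ k.succ_pos, mul_zero, add_zero]

theorem P_conc {μ : ℕ} (h : Conc A 0 μ) : P 0 A μ := by
  obtain ⟨e⟩ := h.2
  have z : ∀ m, 0 < m → Subsingleton (H A m) := fun m hm => ⟨fun x y => by
    rw [Z_le_B_iff.1 (h.1 m hm.ne') x, Z_le_B_iff.1 (h.1 m hm.ne') y]⟩
  refine ⟨fun m => ?_, fun m hm => ?_, ?_⟩
  · rcases m.eq_zero_or_pos with rfl | hm
    · exact .equiv e.symm
    · have := z m hm
      infer_instance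
  · have := z m hm
    rw [bt, finrank_zero_of_subsingleton, Nat.cast_zero]
  · simp [bt, e.finrank_eq]

theorem P.mv (hE : Exc A A₁ A₂ A₀) (h₁ : P k A₁ c₁) (h₂ : P k A₂ c₂) (h₀ : P k A₀ c₀) :
    P (k + 1) A (c₁ + c₂ - c₀) := by
  have := h₁.1
  have := h₂.1
  have := h₀.1
  choose δ e1 e2 using hE.mv
  let p : ℕ → ℕ := fun m => finrank ℤ (LinearMap.range ((Hinc hE.sub₁ m).coprod (Hinc hE.sub₂ m)))
  let q : ℕ → ℕ := fun m => finrank ℤ (LinearMap.range ((Hinc hE.int₁ m).prod (-Hinc hE.int₂ m)))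
  let t : ℕ → ℕ := fun m => finrank ℤ (LinearMap.range (δ m))
  have a : ∀ m, bt A₁ m + bt A₂ m = q m + p m := fun m => by
    have := (ex_rank _ _ (hE.exact_mid m).linearMap_ker_eq).2
    rw [rank_prod] at this
    unfold bt
    exact_mod_cast this
  have b : ∀ m, bt A₀ m = t m + q m := fun m => by
    have := (ex_rank (δ m) ((Hinc hE.int₁ m).prod (-Hinc hE.int₂ m)) (by
      rw [← (e2 m).linearMap_ker_eq, LinearMap.ker_prod, LinearMap.ker_prod, LinearMap.ker_neg])).2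
    unfold bt
    exact_mod_cast this
  have c := fun m => ex_rank _ _ (e1 m).linearMap_ker_eq
  have c' : ∀ m, bt A (m + 1) = p (m + 1) + t m := fun m => by
    unfold bt
    exact_mod_cast (c m).2
  have d : Function.Surjective ((Hinc hE.sub₁ 0).coprod (Hinc hE.sub₂ 0)) := fun y => by
    obtain ⟨x, hx, rfl⟩ := Hq.mk_surj y
    exact ⟨(cls x (mem_Z.2 ⟨C_zero A A₁ ▸ hx.1, (mem_Z.1 hx).2⟩), 0), by
      rw [LinearMap.coprod_apply, map_zero, add_zero]; rfl⟩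
  have d' : bt A 0 = p 0 := by
    simp only [bt, p]
    rw [LinearMap.range_eq_top.2 d, finrank_top]
  have key : ∀ K, ∑ m ∈ Finset.range (K + 1), (-1) ^ m * bt A m =
      ∑ m ∈ Finset.range K, (-1) ^ m * bt A₁ m + ∑ m ∈ Finset.range K, (-1) ^ m * bt A₂ m -
        ∑ m ∈ Finset.range K, (-1) ^ m * bt A₀ m + (-1) ^ K * p K := fun K => by
    induction K with
    | zero => simp [d']
    | succ K ih =>
      rw [Finset.sum_range_succ, ih, Finset.sum_range_succ, Finset.sum_range_succ,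
        Finset.sum_range_succ, c', b, eq_sub_of_add_eq (a K)]
      ring
  have z : ∀ m, k < m → (p m : ℤ) = 0 := fun m hm => by
    have := a m
    rw [h₁.2.1 m hm, h₂.2.1 m hm] at this
    omega
  refine ⟨fun m => ?_, fun m hm => ?_, ?_⟩
  · cases m with
    | zero => exact .of_surjective _ d
    | succ m => exact (c m).1
  · obtain ⟨m, rfl⟩ : ∃ j, m = j + 1 := ⟨m - 1, by omega⟩
    have := b m
    rw [h₀.2.1 m (by omega)] at this
    rw [c', z _ (by omega)]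
    omega
  · rw [key, h₁.2.2, h₂.2.2, h₀.2.2, z _ k.lt_succ_self, mul_zero, add_zero]

open Classical in
theorem main {ι : Type} (t : Finset ι) : ∀ V : ι → Set X, (∀ i, IsOpen (V i)) →
    (∀ s ⊆ t, s.Nonempty → (VV V s).Nonempty → Acyc (VV V s)) → P t.card (⋃ i ∈ t, V i)
      (1 + ∑ s ∈ t.powerset, if s.Nonempty ∧ (VV V s).Nonempty then (-1) ^ s.card else 0) := by
  induction t using Finset.induction_on with
  | empty => exact fun V _ _ => by simpa using P_conc (conc_empty (X := X))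
  | insert a t ha ih =>
    intro V hV h
    have e : ∀ s : Finset ι, s.Nonempty → VV (fun i => V i ∩ V a) s = VV V (insert a s) :=
      fun s ⟨j, hj⟩ => by
        ext x
        simp only [VV, mem_iInter, Finset.mem_insert, forall_eq_or_imp, mem_inter_iff]
        exact ⟨fun h => ⟨(h j hj).2, fun i hi => (h i hi).1⟩, fun h i hi => ⟨h.2 i hi, h.1⟩⟩
    have h₁ := ih V hV fun s hs => h s (hs.trans (Finset.subset_insert a t))
    have h₀ := ih (fun i => V i ∩ V a) (fun i => (hV i).inter (hV a)) fun s hs hn => by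
      rw [e s hn]
      exact h _ (Finset.insert_subset_insert a hs) (Finset.insert_nonempty a s)
    have e' : VV V {a} = V a := by simp [VV]
    have h₂ : P 0 (V a) (if (V a).Nonempty then 0 else 1) := by
      split_ifs with hn
      · exact P_conc (Acyc.conc (e' ▸ h {a} (by simp) (by simp) (e'.symm ▸ hn)) 0)
      · rw [not_nonempty_iff_eq_empty.1 hn]
        exact P_conc conc_empty
    have hE : Exc (⋃ i ∈ insert a t, V i) (⋃ i ∈ t, V i) (V a) (⋃ i ∈ t, V i ∩ V a) := by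
      rw [Finset.set_biUnion_insert]
      exact exc_of_open (isOpen_biUnion fun i _ => hV i) (hV a) (union_comm _ _).subset
        (inter_eq_right.2 subset_union_right).symm (inter_eq_right.2 subset_union_left).symm
        (iUnion₂_inter _ _).symm
    have := P.mv hE h₁ (h₂.mono _) h₀
    rw [Finset.card_insert_of_notMem ha, Finset.sum_powerset_insert ha]
    refine (congrArg (P _ _) ?_).mp this
    have e2 : ∀ s ∈ t.powerset, (if (insert a s).Nonempty ∧ (VV V (insert a s)).Nonempty then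
        (-1 : ℤ) ^ (insert a s).card else 0) =
        -(if s.Nonempty ∧ (VV (fun i => V i ∩ V a) s).Nonempty then (-1) ^ s.card else 0) -
          if s = ∅ then (if (V a).Nonempty then 1 else 0) else 0 := fun s hs => by
      rcases s.eq_empty_or_nonempty with rfl | hn
      · rw [LawfulSingleton.insert_empty_eq, e']
        split_ifs <;> simp_all
      · rw [e s hn, Finset.card_insert_of_notMem fun h => ha (Finset.mem_powerset.1 hs h), pow_succ,
          if_neg hn.ne_empty]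
        by_cases h : (VV V (insert a s)).Nonempty <;> simp [h, hn]
    rw [Finset.sum_congr rfl e2, Finset.sum_sub_distrib, Finset.sum_neg_distrib,
      Finset.sum_ite_eq', if_pos (Finset.empty_mem_powerset t)]
    split_ifs <;> ring

end PN1

theorem nn1 : N1 := by
  intro X _ n V hV
  have h := PN1.main Finset.univ V hV.1 fun s _ => hV.2 s
  simp only [Finset.mem_univ, iUnion_true, Finset.card_univ, Fintype.card_fin] at h
  refine ⟨h.1, h.2.1, h.2.2.trans ?_⟩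
  rw [chiN, nerve, Finset.sum_filter, sub_eq_add_neg, ← Finset.sum_neg_distrib]
  refine congrArg _ (Finset.sum_congr (Finset.ext fun s => by simp) fun s _ => ?_)
  unfold VV
  by_cases h : s.Nonempty ∧ (⋂ i ∈ s, V i).Nonempty
  · rw [if_pos h, if_pos h, pow_succ, mul_neg_one, neg_neg]
  · rw [if_neg h, if_neg h, neg_zero]

end Pool.Agent.Lib.MP_356dfe_ag.S
end
end

-- part Pool.Agent.Lib.MP_356dfe_ag.S.PN2
section

/-! Low Betti numbers of good covers. -/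

set_option autoImplicit false

open Set Filter Topology Metric Pool.Agent.Shared.SingHom
open scoped ContDiff Pointwise

noncomputable section

namespace Pool.Agent.Lib.MP_356dfe_ag.S

namespace PN2

open Module

section Alg

variable {F F' M : Type*} [AddCommGroup F] [AddCommGroup F'] [AddCommGroup M]

theorem exists_cls [Module.Finite ℤ F] (φ : F →ₗ[ℤ] M) (P : Submodule ℤ F) (Z B : Submodule ℤ M)
    (hP : ∀ f ∈ P, φ f ∈ Z) : ∃ (R : Submodule ℤ (Hq Z B)) (K : Submodule ℤ F),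
      finrank ℤ R + finrank ℤ K = finrank ℤ P ∧ (∀ f, f ∈ K ↔ f ∈ P ∧ φ f ∈ B) ∧
      ∀ f hf, Hq.mk B (φ f) (hP f hf) ∈ R := by
  let h : P →ₗ[ℤ] Hq Z B := (Hq.mkL Z B).comp (φ.restrict hP)
  refine ⟨LinearMap.range h, (LinearMap.ker h).map P.subtype, ?_, fun f => ⟨?_, fun k => ?_⟩,
    fun f hf => ⟨⟨f, hf⟩, rfl⟩⟩
  · rw [Submodule.finrank_map_subtype_eq, finrank_range_add_ker]
  · rintro ⟨⟨f, hf⟩, k, rfl⟩
    exact ⟨hf, (Hq.mk_eq_zero (hx := hP f hf)).1 k⟩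
  · exact ⟨⟨f, k.1⟩, (Hq.mk_eq_zero (hx := hP f k.1)).2 k.2, rfl⟩

theorem rank_up [Module.Finite ℤ F] (φ : F →ₗ[ℤ] M) {P Q : Submodule ℤ F} {Z B : Submodule ℤ M}
    (hP : ∀ f ∈ P, φ f ∈ Z) (hQ : ∀ f ∈ Q, f ∈ P ∧ φ f ∈ B)
    (hs : ∀ z ∈ Z, ∃ f ∈ P, z - φ f ∈ B) : finrank ℤ (Hq Z B) + finrank ℤ Q ≤ finrank ℤ P := by
  obtain ⟨R, K, h1, h2, h3⟩ := exists_cls φ P Z B hP
  obtain rfl : R = ⊤ := eq_top_iff.2 fun c _ => by
    obtain ⟨z, hz, rfl⟩ := Hq.mk_surj c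
    obtain ⟨f, hf, e⟩ := hs z hz
    rw [(Hq.mk_eq_mk (hy := hP f hf)).2 e]
    exact h3 f hf
  rw [← h1, finrank_top]
  exact Nat.add_le_add_left (Submodule.finrank_mono fun f hf => (h2 f).2 (hQ f hf)) _

theorem rank_down [Module.Finite ℤ F] (φ : F →ₗ[ℤ] M) {P Q : Submodule ℤ F} {Z B : Submodule ℤ M}
    [Module.Finite ℤ (Hq Z B)] (hP : ∀ f ∈ P, φ f ∈ Z) (hQ : ∀ f ∈ P, φ f ∈ B → f ∈ Q) :
    finrank ℤ P ≤ finrank ℤ (Hq Z B) + finrank ℤ Q := by
  obtain ⟨R, K, h1, h2, -⟩ := exists_cls φ P Z B hP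
  rw [← h1]
  exact add_le_add R.finrank_le
    (Submodule.finrank_mono fun f hf => hQ f ((h2 f).1 hf).1 ((h2 f).1 hf).2)

theorem rank_rows {α β : Type} [Fintype α] [Fintype β] (A : Matrix α β ℚ) (w : α → β → ℤ)
    (h : ∀ s t, A s t = w s t) : A.rank ≤ finrank ℤ (Submodule.span ℤ (range w)) := by
  rw [Matrix.rank_eq_finrank_span_row]
  obtain ⟨f, h1, -, h2⟩ := Submodule.exists_fun_fin_finrank_span_eq ℚ (range A.row)
  choose s hs using h1
  let φ : Submodule.span ℤ (range w) →ₗ[ℤ] β → ℚ :=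
    ((Int.castAddHom ℚ).toIntLinearMap.compLeft β).comp (Submodule.subtype _)
  have h3 : LinearIndependent ℤ fun k => (⟨w (s k), Submodule.subset_span ⟨_, rfl⟩⟩ :
      Submodule.span ℤ (range w)) := by
    have e : f = φ ∘ fun k => ⟨w (s k), Submodule.subset_span ⟨_, rfl⟩⟩ :=
      funext fun k => (hs k).symm.trans (funext fun t => h _ t)
    exact .of_comp φ (e ▸ h2.restrict_scalars' ℤ)
  simpa using h3.fintype_card_le_finrank

theorem exists_graph (φ : F →ₗ[ℤ] M) (d : F →ₗ[ℤ] F') (B : Submodule ℤ M) :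
    ∃ G : Submodule ℤ (M × F'), ∀ c a, (c, a) ∈ G ↔ ∃ f, c - φ f ∈ B ∧ d f = a :=
  ⟨(LinearMap.range ((B.mkQ.comp φ).prod d)).comap (B.mkQ.prodMap LinearMap.id), fun _ _ =>
    exists_congr fun _ => Prod.ext_iff.trans
      (and_congr (eq_comm.trans (Submodule.Quotient.eq B)) Iff.rfl)⟩

variable {n : ℕ}

/-- simplicial chains -/
abbrev Fk (N : Finset (Finset (Fin n))) (k : ℕ) : Type := (N.filter fun s => s.card = k) → ℤ

/-- the chain of a simplex -/
def ek (N : Finset (Finset (Fin n))) (k : ℕ) (s : Finset (Fin n)) : Fk N k :=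
  fun t => if s = t.1 then 1 else 0

/-- the linear map with given values on simplices -/
def lc (N : Finset (Finset (Fin n))) (k : ℕ) (w : Finset (Fin n) → M) : Fk N k →ₗ[ℤ] M :=
  Fintype.linearCombination ℤ fun t => w t.1

variable {N : Finset (Finset (Fin n))} {k : ℕ} {s : Finset (Fin n)} {i j l : Fin n}

theorem lc_ek (w : Finset (Fin n) → M) (hs : s ∈ N) (hk : s.card = k) :
    lc N k w (ek N k s) = w s := by
  rw [lc, Fintype.linearCombination_apply,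
    Fintype.sum_eq_single ⟨s, Finset.mem_filter.2 ⟨hs, hk⟩⟩ fun t ht => by
      rw [ek, if_neg fun e => ht (Subtype.ext e.symm), zero_smul]]
  simp [ek]

theorem Fk_ind (P : Submodule ℤ (Fk N k)) (h : ∀ s ∈ N, s.card = k → ek N k s ∈ P) (a : Fk N k) :
    a ∈ P := by
  rw [pi_eq_sum_univ a]
  refine P.sum_mem fun t _ => P.smul_mem _ ?_
  rw [show (fun j => if t = j then (1 : ℤ) else 0) = ek N k t.1 from
    funext fun j => if_congr Subtype.ext_iff rfl rfl]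
  exact h t.1 (Finset.mem_filter.1 t.2).1 (Finset.mem_filter.1 t.2).2

theorem finrank_Fk : finrank ℤ (Fk N k) = cntN N k := by
  rw [finrank_fintype_fun_eq_card, Fintype.card_coe, cntN]

/-- the sign of a vertex -/
def sgn (j : Fin n) (s : Finset (Fin n)) : ℤ := (-1) ^ (s.filter fun i => i < j).card

theorem sum2 (h : i < j) (w : Fin n → M) :
    ∑ a ∈ ({i, j} : Finset (Fin n)), sgn a {i, j} • w a = w i - w j := by
  simp [Finset.sum_pair h.ne, sgn, Finset.filter_insert, Finset.filter_singleton, h, h.not_gt,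
    sub_eq_add_neg]

theorem sum3 (h : i < j) (h' : j < l) (w : Finset (Fin n) → M) :
    ∑ a ∈ ({i, j, l} : Finset (Fin n)), sgn a {i, j, l} • w (({i, j, l} : Finset _).erase a) =
      w {j, l} - w {i, l} + w {i, j} := by
  have h2 := h.trans h'
  have e1 : ({i, j, l} : Finset (Fin n)).erase i = {j, l} :=
    Finset.erase_insert (by simp [h.ne, h2.ne])
  have e2 : ({i, j, l} : Finset (Fin n)).erase j = {i, l} := by
    rw [Finset.insert_comm]
    exact Finset.erase_insert (by simp [h.ne', h'.ne])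
  have e3 : ({i, j, l} : Finset (Fin n)).erase l = {i, j} := by
    rw [Finset.pair_comm j, Finset.insert_comm]
    exact Finset.erase_insert (by simp [h2.ne', h'.ne'])
  rw [Finset.sum_insert (by simp [h.ne, h2.ne]), Finset.sum_pair h'.ne, e1, e2, e3]
  simp [sgn, Finset.filter_insert, Finset.filter_singleton, h, h', h2, h.not_gt, h'.not_gt,
    h2.not_gt, h.ne, sub_eq_add_neg, add_assoc]

theorem card2 (h : s.card = 2) : ∃ i j, i < j ∧ s = {i, j} := by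
  obtain ⟨i, j, h1, rfl⟩ := Finset.card_eq_two.1 h
  rcases lt_or_gt_of_ne h1 with h2 | h2
  · exact ⟨i, j, h2, rfl⟩
  · exact ⟨j, i, h2, Finset.pair_comm _ _⟩

theorem card3 (h : s.card = 3) : ∃ i j l, i < j ∧ j < l ∧ s = {i, j, l} := by
  refine ⟨s.orderEmbOfFin h 0, s.orderEmbOfFin h 1, s.orderEmbOfFin h 2,
    (s.orderEmbOfFin h).strictMono (by decide), (s.orderEmbOfFin h).strictMono (by decide), ?_⟩
  conv_lhs => rw [← s.image_orderEmbOfFin_univ h,
    show (Finset.univ : Finset (Fin 3)) = {0, 1, 2} by decide]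
  simp

end Alg

variable {X : Type} [TopologicalSpace X] {A A' : Set X} {n : ℕ} {V : Fin n → Set X}

/-- the empty simplex -/
def eps : Ch X := Finsupp.single ⟨0, ⟨isEmptyElim, continuous_of_discreteTopology⟩⟩ 1

theorem eps_eq (σ : C(Dl 0, X)) : Finsupp.single ⟨0, σ⟩ 1 = eps := by
  rw [eps]
  congr 2
  ext t
  exact isEmptyElim t

theorem eps_mem (A : Set X) : eps ∈ Z A 0 :=
  mem_Z.2 ⟨single_mem_C (fun t => isEmptyElim t) _, bd_zero _⟩

theorem smul_eps {m : ℤ} (h : m • (eps : Ch X) = 0) : m = 0 := by simpa [eps] using h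

theorem mem_span_eps {x : Ch X} (h : x ∈ C A 0) : x ∈ Submodule.span ℤ {eps} :=
  map_C LinearMap.id _ (fun σ _ => eps_eq σ ▸ Submodule.mem_span_singleton_self _) h

theorem of_point {s : Sx X} (h : Finsupp.single s 1 ∈ C A 1) :
    bd (Finsupp.single s 1) = eps ∧ A.Nonempty := by
  obtain ⟨m, σ⟩ := s
  obtain ⟨rfl, h1⟩ := h (Finsupp.mem_support_iff.2 (by simp) :
    (⟨m, σ⟩ : Sx X) ∈ (Finsupp.single ⟨m, σ⟩ 1 : Ch X).support)
  exact ⟨by simp [bd_succ, eps_eq], _, h1 default⟩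

theorem C_ind {m : ℕ} {P : Ch X → Prop} (h0 : P 0) (ha : ∀ x y, P x → P y → P (x + y))
    (hs : ∀ (c : ℤ) x, P x → P (c • x))
    (h : ∀ s : Sx X, Finsupp.single s 1 ∈ C A m → P (Finsupp.single s 1)) {x : Ch X}
    (hx : x ∈ C A m) : P x :=
  map_C LinearMap.id ⟨⟨⟨{x | P x}, ha _ _⟩, h0⟩, hs⟩ (fun _ hσ => h _ (single_mem_C hσ 1)) hx

theorem C_union : C (A ∪ A') 1 ≤ C A 1 ⊔ C A' 1 := fun _ hx =>
  map_C LinearMap.id _ (fun _ hσ => (hσ default).elim
    (fun h => Submodule.mem_sup_left (single_mem_C (fun t => Subsingleton.elim default t ▸ h) 1))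
    fun h => Submodule.mem_sup_right (single_mem_C (fun t => Subsingleton.elim default t ▸ h) 1)) hx

/-- chains of dimension one are homologous to sums of small chains -/
theorem small (hV : ∀ i, IsOpen (V i)) (P : Submodule ℤ (Ch X)) (h1 : B (⋃ i, V i) 2 ≤ P)
    (h2 : ∀ i, C (V i) 2 ≤ P) : C (⋃ i, V i) 2 ≤ P := by
  have key : ∀ s : Finset (Fin n), C (⋃ i ∈ s, V i) 2 ≤ P := fun s => by
    induction s using Finset.induction_on with
    | empty => simp [C_empty]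
    | insert a s _ ih =>
      intro x hx
      rw [Finset.set_biUnion_insert] at hx
      obtain ⟨y, hy, y', hy', e⟩ := (exc_of_open (hV a) (isOpen_biUnion fun i _ => hV i) subset_rfl
        (inter_eq_right.2 subset_union_left).symm (inter_eq_right.2 subset_union_right).symm
        rfl).split_chain hx (C_union (bd_mem hx))
      have e1 := h1 (B_mono (union_subset (subset_iUnion V a)
        (iUnion₂_subset fun i _ => subset_iUnion V i)) 2 e)
      simpa using P.add_mem (P.add_mem e1 (ih hy')) (h2 a hy)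
  simpa using key Finset.univ

omit [TopologicalSpace X] in
theorem mem_nerve {s : Finset (Fin n)} : s ∈ nerve V ↔ s.Nonempty ∧ (VV V s).Nonempty := by
  simp [nerve, VV]

omit [TopologicalSpace X] in
theorem VV_anti {s t : Finset (Fin n)} (h : t ⊆ s) : VV V s ⊆ VV V t :=
  biInter_subset_biInter_left h

omit [TopologicalSpace X] in
theorem VV_one (i : Fin n) : VV V {i} = V i := by simp [VV]

omit [TopologicalSpace X] in
theorem VV_two (i j : Fin n) : VV V {i, j} = V i ∩ V j := by simp [VV]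

omit [TopologicalSpace X] in
theorem nerve_down {s t : Finset (Fin n)} (hs : s ∈ nerve V) (h : t ⊆ s) (ht : t.Nonempty) :
    t ∈ nerve V := mem_nerve.2 ⟨ht, (mem_nerve.1 hs).2.mono (VV_anti h)⟩

theorem core (hV : Acv V) : ∃ (φ₁ : Fk (nerve V) 1 →ₗ[ℤ] Ch X) (φ₂ : Fk (nerve V) 2 →ₗ[ℤ] Ch X)
    (d₁ : Fk (nerve V) 1 →ₗ[ℤ] ℤ) (d₂ : Fk (nerve V) 2 →ₗ[ℤ] Fk (nerve V) 1),
    (∀ a, φ₁ a ∈ C (⋃ i, V i) 1 ∧ bd (φ₁ a) = d₁ a • eps) ∧
    (∀ f, φ₂ f ∈ C (⋃ i, V i) 2 ∧ bd (φ₂ f) = φ₁ (d₂ f)) ∧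
    (∀ s ∈ nerve V, s.card = 3 → d₂ (∑ j ∈ s, sgn j s • ek _ 2 (s.erase j)) = 0 ∧
      φ₂ (∑ j ∈ s, sgn j s • ek _ 2 (s.erase j)) ∈ B (⋃ i, V i) 2) ∧
    ∀ c ∈ C (⋃ i, V i) 2, ∀ a, bd c = φ₁ a → ∃ f, c - φ₂ f ∈ B (⋃ i, V i) 2 ∧ d₂ f = a := by
  have ac : ∀ s ∈ nerve V, Acyc (VV V s) := fun s hs =>
    hV.2 s (mem_nerve.1 hs).1 (mem_nerve.1 hs).2
  have one : ∀ i, (V i).Nonempty → {i} ∈ nerve V := fun i h =>
    mem_nerve.2 ⟨Finset.singleton_nonempty i, (VV_one (V := V) i).symm ▸ h⟩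
  have hy : ∀ s, ∃ y, s ∈ nerve V → y ∈ C (VV V s) 1 ∧ bd y = eps := fun s => by
    by_cases hs : s ∈ nerve V
    · exact (ac s hs 0 (eps_mem _)).imp fun _ h _ => h
    · exact ⟨0, fun h => absurd h hs⟩
  choose y hy using hy
  have join : ∀ s ∈ nerve V, ∀ u ∈ C (VV V s) 1, bd u = eps →
      ∃ q ∈ C (VV V s) 2, bd q = u - y s := fun s hs u h1 h2 => ac s hs 1
    (mem_Z.2 ⟨sub_mem h1 (hy s hs).1, by rw [map_sub, h2, (hy s hs).2, sub_self]⟩)
  have join1 : ∀ i, (V i).Nonempty → ∀ u ∈ C (V i) 1, bd u = eps →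
      ∃ q ∈ C (V i) 2, bd q = u - y {i} := fun i h => by
    simpa only [VV_one] using join {i} (one i h)
  have cyc : ∀ i, (V i).Nonempty → ∀ q ∈ C (V i) 2, bd q = 0 → q ∈ B (⋃ i, V i) 2 :=
    fun i h q h1 h2 => B_mono (subset_iUnion V i) 2
      ((VV_one (V := V) i ▸ ac {i} (one i h)) 2 (mem_Z.2 ⟨h1, h2⟩))
  have sub : ∀ s : Finset (Fin n), ∀ i ∈ s, VV V s ⊆ V i := fun s i h =>
    biInter_subset_of_mem h
  have hr : ∀ i s, ∃ r, s ∈ nerve V → i ∈ s → r ∈ C (V i) 2 ∧ bd r = y s - y {i} := fun i s => by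
    by_cases hs : s ∈ nerve V ∧ i ∈ s
    · exact (join1 i ((mem_nerve.1 hs.1).2.mono (sub s i hs.2)) _
        (C_mono (sub s i hs.2) 1 (hy s hs.1).1) (hy s hs.1).2).imp fun _ h _ _ => h
    · exact ⟨0, fun h h' => absurd ⟨h, h'⟩ hs⟩
  choose r hr using hr
  obtain ⟨φ₂, e₂⟩ : ∃ φ₂ : Fk (nerve V) 2 →ₗ[ℤ] Ch X, ∀ i j, i < j → {i, j} ∈ nerve V →
      φ₂ (ek _ 2 {i, j}) = r i {i, j} - r j {i, j} :=
    ⟨lc _ 2 fun s => ∑ j ∈ s, sgn j s • r j s, fun i j h hs =>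
      (lc_ek _ hs (Finset.card_pair h.ne)).trans (sum2 h _)⟩
  obtain ⟨d₂, e₃⟩ : ∃ d₂ : Fk (nerve V) 2 →ₗ[ℤ] Fk (nerve V) 1, ∀ i j, i < j → {i, j} ∈ nerve V →
      d₂ (ek _ 2 {i, j}) = ek _ 1 {j} - ek _ 1 {i} :=
    ⟨lc _ 2 fun s => -∑ j ∈ s, sgn j s • ek _ 1 {j}, fun i j h hs =>
      (lc_ek _ hs (Finset.card_pair h.ne)).trans (by rw [sum2 h, neg_sub])⟩
  have e₁ : ∀ i, {i} ∈ nerve V → lc _ 1 y (ek (nerve V) 1 {i}) = y {i} := fun i h =>
    lc_ek y h (Finset.card_singleton i)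
  have edge : ∀ i j, i < j → (V i ∩ V j).Nonempty → ∀ u ∈ C (V i ∩ V j) 1, bd u = eps →
      ∀ q ∈ C (V i) 2, bd q = u - y {i} → ∀ q' ∈ C (V j) 2, bd q' = u - y {j} →
      q - q' - φ₂ (ek _ 2 {i, j}) ∈ B (⋃ i, V i) 2 := by
    intro i j h h0 u h1 h2 q h3 h4 q' h5 h6
    rw [← VV_two] at h0 h1
    have hs := mem_nerve.2 ⟨Finset.insert_nonempty _ _, h0⟩
    obtain ⟨v, h7, h8⟩ := join _ hs u h1 h2
    have hi : i ∈ ({i, j} : Finset (Fin n)) := by simp
    have hj : j ∈ ({i, j} : Finset (Fin n)) := by simp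
    have a1 := cyc i (h0.mono (sub _ i hi)) _ (sub_mem (sub_mem h3 (C_mono (sub _ i hi) 2 h7))
      (hr i _ hs hi).1) (by rw [map_sub, map_sub, h4, h8, (hr i _ hs hi).2]; abel)
    have a2 := cyc j (h0.mono (sub _ j hj)) _ (sub_mem (sub_mem h5 (C_mono (sub _ j hj) 2 h7))
      (hr j _ hs hj).1) (by rw [map_sub, map_sub, h6, h8, (hr j _ hs hj).2]; abel)
    convert sub_mem a1 a2 using 1
    rw [e₂ i j h hs]
    abel
  refine ⟨lc _ 1 y, φ₂, lc _ 1 fun _ => 1, d₂, fun a => ?_, fun f => ?_, fun s hs h3 => ?_, ?_⟩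
  · refine Fk_ind ((C (⋃ i, V i) 1).comap (lc _ 1 y) ⊓ LinearMap.eqLocus (bd.comp (lc _ 1 y))
      ((LinearMap.toSpanSingleton ℤ _ eps).comp (lc _ 1 fun _ => 1))) (fun s hs h1 => ?_) a
    obtain ⟨i, rfl⟩ := Finset.card_eq_one.1 h1
    refine ⟨?_, ?_⟩
    · rw [SetLike.mem_coe, Submodule.mem_comap, e₁ i hs]
      exact C_mono ((sub _ i (by simp)).trans (subset_iUnion V i)) 1 (hy _ hs).1
    · simp [LinearMap.mem_eqLocus, e₁ i hs, lc_ek _ hs h1, (hy _ hs).2]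
  · refine Fk_ind ((C (⋃ i, V i) 2).comap φ₂ ⊓ LinearMap.eqLocus (bd.comp φ₂)
      ((lc _ 1 y).comp d₂)) (fun s hs h1 => ?_) f
    obtain ⟨i, j, h, rfl⟩ := card2 h1
    obtain ⟨a1, a2⟩ := hr i _ hs (by simp)
    obtain ⟨a3, a4⟩ := hr j _ hs (by simp)
    refine ⟨?_, ?_⟩
    · rw [SetLike.mem_coe, Submodule.mem_comap, e₂ i j h hs]
      exact sub_mem (C_mono (subset_iUnion V i) 2 a1) (C_mono (subset_iUnion V j) 2 a3)
    · simp [LinearMap.mem_eqLocus, e₂ i j h hs, e₃ i j h hs, a2, a4,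
        e₁ i (nerve_down hs (by simp) (by simp)), e₁ j (nerve_down hs (by simp) (by simp))]
  · obtain ⟨i, j, l, h, h', rfl⟩ := card3 h3
    have key : ∀ a ∈ ({i, j, l} : Finset (Fin n)), ∀ b ∈ ({i, j, l} : Finset (Fin n)), a < b →
        d₂ (ek _ 2 {a, b}) = ek _ 1 {b} - ek _ 1 {a} ∧
        r a {i, j, l} - r b {i, j, l} - φ₂ (ek _ 2 {a, b}) ∈ B (⋃ i, V i) 2 := by
      intro a ha b hb e
      have a1 := subset_inter (sub _ a ha) (sub _ b hb)
      exact ⟨e₃ a b e (nerve_down hs (Finset.insert_subset ha (Finset.singleton_subset_iff.2 hb))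
        (by simp)), edge a b e ((mem_nerve.1 hs).2.mono a1) _ (C_mono a1 1 (hy _ hs).1) (hy _ hs).2
          _ (hr a _ hs ha).1 (hr a _ hs ha).2 _ (hr b _ hs hb).1 (hr b _ hs hb).2⟩
    obtain ⟨a1, b1⟩ := key j (by simp) l (by simp) h'
    obtain ⟨a2, b2⟩ := key i (by simp) l (by simp) (h.trans h')
    obtain ⟨a3, b3⟩ := key i (by simp) j (by simp) h
    rw [sum3 h h' (ek _ 2), map_add, map_sub, map_add, map_sub, a1, a2, a3]
    refine ⟨by abel, ?_⟩
    convert sub_mem (sub_mem b2 b1) b3 using 1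
    abel
  obtain ⟨G, hG⟩ := exists_graph φ₂ d₂ (B (⋃ i, V i) 2)
  have hB : ∀ c ∈ B (⋃ i, V i) 2, (c, 0) ∈ G := fun c h => (hG c 0).2 ⟨0, by simpa using h, by simp⟩
  have sym : ∀ i j, (V i ∩ V j).Nonempty → ∀ u ∈ C (V i ∩ V j) 1, bd u = eps →
      ∀ q ∈ C (V i) 2, bd q = u - y {i} → ∀ q' ∈ C (V j) 2, bd q' = u - y {j} →
      (q - q', ek _ 1 {j} - ek _ 1 {i}) ∈ G := by
    intro i j h0 u h1 h2 q h3 h4 q' h5 h6
    rcases lt_trichotomy i j with h | rfl | h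
    · exact (hG _ _).2 ⟨_, edge i j h h0 u h1 h2 q h3 h4 q' h5 h6,
        e₃ i j h (mem_nerve.2 ⟨Finset.insert_nonempty _ _, (VV_two (V := V) i j).symm ▸ h0⟩)⟩
    · rw [sub_self]
      exact hB _ (cyc i (h0.mono inter_subset_left) _ (sub_mem h3 h5)
        (by rw [map_sub, h4, h6, sub_self]))
    · rw [inter_comm] at h0 h1
      simpa using G.neg_mem ((hG _ _).2 ⟨_, edge j i h h0 u h1 h2 q' h5 h6 q h3 h4,
        e₃ j i h (mem_nerve.2 ⟨Finset.insert_nonempty _ _, (VV_two (V := V) j i).symm ▸ h0⟩)⟩)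
  have hp : ∀ s : Sx X, ∃ z, ∀ i, Finsupp.single s 1 ∈ C (V i) 1 → ∃ q ∈ C (V i) 2,
      bd q = Finsupp.single s 1 - y {i} ∧ (q, -ek _ 1 {i}) - z ∈ G := fun s => by
    by_cases h : ∃ j, Finsupp.single s 1 ∈ C (V j) 1
    · obtain ⟨j, hj⟩ := h
      obtain ⟨q', a1, a2⟩ := join1 j (of_point hj).2 _ hj (of_point hj).1
      refine ⟨(q', -ek _ 1 {j}), fun i hi => ?_⟩
      obtain ⟨q, a3, a4⟩ := join1 i (of_point hi).2 _ hi (of_point hi).1
      have a5 := mem_C_inter hi hj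
      refine ⟨q, a3, a4, ?_⟩
      rw [Prod.mk_sub_mk, neg_sub_neg]
      exact sym i j (of_point a5).2 _ a5 (of_point a5).1 q a3 a4 q' a1 a2
    · exact ⟨0, fun i hi => absurd ⟨i, hi⟩ h⟩
  choose z hz using hp
  obtain ⟨Ψ, hΨ⟩ : ∃ Ψ : Ch X →ₗ[ℤ] Ch X × Fk (nerve V) 1, ∀ s, Ψ (Finsupp.single s 1) = z s :=
    ⟨Finsupp.linearCombination ℤ z, fun s => by simp⟩
  have ex : ∀ i, ∀ u ∈ C (V i) 1, ∃ q ∈ C (V i) 2, ∃ m : ℤ, bd q = u - m • y {i} ∧
      (q, -(m • ek _ 1 {i})) - Ψ u ∈ G := fun i u hu => by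
    refine C_ind (P := fun u => ∃ q ∈ C (V i) 2, ∃ m : ℤ, bd q = u - m • y {i} ∧
      (q, -(m • ek _ 1 {i})) - Ψ u ∈ G) ⟨0, zero_mem _, 0, by simp, by simp [← Prod.zero_eq_mk]⟩
      ?_ ?_ (fun s hs => ?_) hu
    · rintro u u' ⟨q, a1, m, a2, a3⟩ ⟨q', b1, m', b2, b3⟩
      refine ⟨q + q', add_mem a1 b1, m + m', by rw [map_add, a2, b2, add_smul]; abel, ?_⟩
      convert add_mem a3 b3 using 1
      rw [map_add, add_smul, neg_add, ← Prod.mk_add_mk]
      abel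
    · rintro c u ⟨q, a1, m, a2, a3⟩
      refine ⟨c • q, Submodule.smul_mem _ c a1, c * m, by rw [map_smul, a2, smul_sub, mul_smul], ?_⟩
      convert G.smul_mem c a3 using 1
      rw [map_smul, smul_sub, Prod.smul_mk c q, smul_neg, mul_smul]
    · obtain ⟨q, a1, a2, a3⟩ := hz s i hs
      exact ⟨q, a1, 1, by rwa [one_smul], by rwa [one_smul, hΨ]⟩
  have all : ∀ i, (V i).Nonempty → ∀ u ∈ C (V i) 1, ∀ q ∈ C (V i) 2, ∀ m : ℤ,
      bd q = u - m • y {i} → (q, -(m • ek _ 1 {i})) - Ψ u ∈ G := by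
    intro i h u hu q a1 m a2
    obtain ⟨q', b1, m', b2, b3⟩ := ex i u hu
    have e : bd (q - q') = (m' - m) • y {i} := by
      rw [map_sub, a2, b2, sub_smul]
      abel
    have e' := bd_bd (q - q')
    rw [e, map_smul, (hy _ (one i h)).2] at e'
    obtain rfl := sub_eq_zero.1 (smul_eps e')
    convert add_mem (hB _ (cyc i h _ (sub_mem a1 b1) (by rw [e, sub_self, zero_smul]))) b3 using 1
    rw [← add_sub_assoc, Prod.mk_add_mk, sub_add_cancel, zero_add]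
  intro c hc a e
  have a1 := small hV.1 (G.comap (LinearMap.inl ℤ _ _ - Ψ.comp bd))
    (fun c hc => by simpa [(mem_Z.1 (B_le_Z _ _ hc)).2] using hB c hc)
    (fun i c hc => map_C _ G (fun σ hσ => by
      simpa using all i ⟨_, hσ (Classical.arbitrary _)⟩ _ (bd_mem (single_mem_C hσ 1)) _
        (single_mem_C hσ 1) 0 (by simp)) hc) hc
  have a2 : a ∈ G.comap (-LinearMap.inr ℤ _ _ - Ψ.comp (lc _ 1 y)) := by
    refine Fk_ind _ (fun s hs h1 => ?_) a
    obtain ⟨i, rfl⟩ := Finset.card_eq_one.1 h1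
    have a3 := hy _ hs
    rw [VV_one] at a3
    simpa [e₁ i hs] using all i (VV_one (V := V) i ▸ (mem_nerve.1 hs).2) _ a3.1 0 (zero_mem _) 1
      (by simp)
  rw [← hG]
  simpa [e] using G.sub_mem a1 a2

end PN2

open PN2 Module in
theorem nn2 : N2 := by
  intro X _ n V hV hf
  obtain ⟨φ₁, φ₂, d₁, d₂, h1, h2, h3, h4⟩ := PN2.core hV
  have := hf 1
  have a0 := rank_up (LinearMap.toSpanSingleton ℤ (Ch X) eps) (P := ⊤) (Q := LinearMap.range d₁)
    (Z := Z (⋃ i, V i) 0) (B := B (⋃ i, V i) 0) (fun m _ => Submodule.smul_mem _ m (eps_mem _))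
    (by
      rintro _ ⟨a, rfl⟩
      exact ⟨trivial, φ₁ a, (h1 a).1, (h1 a).2⟩)
    fun z hz => by
      obtain ⟨m, rfl⟩ := Submodule.mem_span_singleton.1 (mem_span_eps hz.1)
      exact ⟨m, trivial, by simp⟩
  have a1 := rank_down φ₁ (P := LinearMap.ker d₁) (Q := LinearMap.range d₂)
    (Z := Z (⋃ i, V i) 1) (B := B (⋃ i, V i) 1)
    (fun a ha => mem_Z.2 ⟨(h1 a).1, by rw [(h1 a).2, LinearMap.mem_ker.1 ha, zero_smul]⟩)
    fun a _ ⟨c, hc, e⟩ => (h4 c hc a e).imp fun _ h => h.2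
  have a2 := rank_up φ₂ (P := LinearMap.ker d₂)
    (Q := Submodule.span ℤ (range fun s : (nerve V).filter fun s => s.card = 3 =>
      ∑ j ∈ s.1, sgn j s.1 • ek (nerve V) 2 (s.1.erase j)))
    (Z := Z (⋃ i, V i) 2) (B := B (⋃ i, V i) 2)
    (fun f hf => mem_Z.2 ⟨(h2 f).1, by rw [(h2 f).2, LinearMap.mem_ker.1 hf, map_zero]⟩)
    (fun _ hf => (Submodule.span_le (p := LinearMap.ker d₂ ⊓ (B (⋃ i, V i) 2).comap φ₂)).2
      (range_subset_iff.2 fun s => by
        obtain ⟨b1, b2⟩ := Finset.mem_filter.1 s.2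
        exact h3 _ b1 b2) hf)
    fun z hz => by
      obtain ⟨f, b1, b2⟩ := h4 z hz.1 0 (by rw [(mem_Z.1 hz).2, map_zero])
      exact ⟨f, b2, b1⟩
  have a3 := rank_rows (incN (nerve V))
    (fun s => ∑ j ∈ s.1, sgn j s.1 • ek (nerve V) 2 (s.1.erase j)) fun s t => by
      simp [incN, ek, sgn, Finset.sum_apply]
  have a4 := finrank_range_add_ker d₁
  have a5 := finrank_range_add_ker d₂
  rw [finrank_Fk] at a4 a5
  rw [finrank_top, finrank_self] at a0
  have a6 := (Nat.add_le_add_left a3 _).trans a2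
  unfold bt H
  omega

end Pool.Agent.Lib.MP_356dfe_ag.S
end
end

-- part Pool.Agent.Lib.MP_356dfe_ag.S.PRet
section

/-! Retractions; the function that cuts out the singular points. -/

set_option autoImplicit false

open Set Filter Topology Metric Pool.Agent.Shared.SingHom
open scoped ContDiff Pointwise

noncomputable section

namespace Pool.Agent.Lib.MP_356dfe_ag.S

namespace PRet

variable {M : Type} [TopologicalSpace M] [T2Space M] [CompactSpace M] {f : M → ℝ} {Ω : Set M}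

theorem push (hf : Continuous f) (hΩ : IsOpen Ω) {u v : ℝ}
    (h : ∀ x, u ≤ f x → f x ≤ v → x ∈ Ω ∧ Reg f x) :
    ∃ H, Move Ω f ∅ H ∧ ∀ x ∈ Ω, f x ≤ v → f (H (1, x)) < u := by
  obtain ⟨H, m1, m2⟩ := exists_move hΩ hf.continuousOn (isClosed_Icc.preimage hf).isCompact
    (fun x hx => (h x hx.1 hx.2).1) (B := ∅)
    (fun x hx => (h x hx.1 hx.2).2.dir (Or.inr (by simp))) (Or.inl rfl) (Or.inl rfl)
    fun x _ _ a1 a2 _ => ⟨a1, a2⟩
  exact ⟨H, m1, fun x hx hx' => (m2 x hx trivial hx').resolve_right id⟩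

theorem ac (hf : Continuous f) (hΩ : IsOpen Ω) {A A' : Set M} {c ε : ℝ} (h1 : Ω ⊆ A')
    (h2 : ∀ x, x ∈ A ↔ x ∈ A' ∧ f x < c) (h3 : ∀ x ∈ A', f x < ε)
    (h : ∀ x ∈ A', c ≤ f x → x ∈ Ω) (h' : ∀ x, c ≤ f x → f x < ε → x ∈ Ω ∧ Reg f x) : Ac A' A := by
  refine ac_of_deform (fun x hx => ((h2 x).1 hx).1) fun K hK hKA => ?_
  obtain ⟨v, hv, h4⟩ := exists_bound_lt hK hf.continuousOn fun x hx => h3 x (hKA hx)
  obtain ⟨H, m1, m2⟩ := push hf hΩ fun x a1 a2 => h' x a1 (a2.trans_lt hv)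
  have a1 : ∀ (P : Set M) t, ∀ y ∈ P, (y ∈ Ω → H (t, y) ∈ P) → H (t, y) ∈ P := fun P t y hy h => by
    by_cases h' : y ∈ Ω
    · exact h h'
    · rwa [m1.out t y h']
  refine ⟨H, H.continuous.continuousOn, fun z _ => m1.zero z,
    fun t _ z hz => a1 _ t z (hKA hz) fun e => h1 (m1.mem t z e),
    fun t _ z _ hz => a1 _ t z hz fun e => (h2 _).2 ⟨h1 (m1.mem t z e),
      (m1.le t z e).trans_lt ((h2 z).1 hz).2⟩, fun z hz => (h2 _).2 ?_⟩
  by_cases e : z ∈ Ω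
  · exact ⟨h1 (m1.mem 1 z e), m2 z e (h4 z hz)⟩
  · rw [m1.out 1 z e]
    exact ⟨hKA hz, not_le.1 fun e' => e (h z (hKA hz) e')⟩

omit [T2Space M] [CompactSpace M] in
theorem reg_neg {x : M} (h : Reg f x) : Reg (fun y => -f y) x := h.comp contDiff_neg (by simp)

theorem cd_sq {ι : Type} [Fintype ι] : ContDiff ℝ ∞ (sq : (ι → ℂ) → ℝ) :=
  ContDiff.sum fun i _ => (contDiff_apply ℝ ℂ i).norm_sq ℝ

theorem cd_mu {N : ℕ} {v : Fin (N + 1) → ℂ} (hv : v ≠ 0) : ContDiffAt ℝ ∞ mu0 v :=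
  contDiffAt_pi.2 fun q => (cd_sq.contDiffAt.inv (sq_pos hv).ne').smul
    ((contDiffAt_apply ℝ ℂ q.1 v).mul
      (Complex.conjCLE.contDiff.contDiffAt.comp v (contDiffAt_apply ℝ ℂ q.2 v)))

end PRet

theorem ret : Ret := by
  refine ⟨fun M _ _ _ ρ b hρ hr a₁ a₂ h0 h1 h2 => ?_, fun M _ _ _ ρ δ hρ hr a b h0 h1 h2 => ?_⟩
  · obtain ⟨d, d0, d1, d2, d3, d4⟩ : ∃ d : ℕ → ℝ, d 0 = a₂ ∧ d 1 = a₁ ∧ StrictAnti d ∧
        (∀ k, 0 < d k) ∧ Tendsto d atTop (𝓝 0) := by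
      have q0 : 0 < a₂ := h0.trans h1
      have q1 : 0 < a₁ / a₂ := div_pos h0 q0
      have q2 : a₁ / a₂ < 1 := (div_lt_one q0).2 h1
      refine ⟨fun k => a₂ * (a₁ / a₂) ^ k, by simp, by field_simp,
        (pow_right_strictAnti₀ q1 q2).const_mul q0, fun k => by positivity, ?_⟩
      simpa using (tendsto_pow_atTop_nhds_zero_of_lt_one q1.le q2).const_mul a₂
    have d5 : ∀ k, d k ≤ a₂ := fun k => d0 ▸ d2.antitone k.zero_le
    have key : ∀ k, ∃ h : M → M, Continuous h ∧ (∀ z, d k ≤ ρ z → h z = z) ∧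
        (∀ z, ρ z < a₂ → ρ (h z) < a₂) ∧ ∀ z, d (k + 2) < ρ z → d (k + 1) < ρ (h z) := fun k => by
      have e1 := d2 (by omega : k < k + 1)
      have e2 := d2 (by omega : k + 2 < k + 3)
      obtain ⟨H, m1, m2⟩ := PRet.push (f := fun z => -ρ z) hρ.neg (Ω := ρ ⁻¹' Ioo (d (k + 3)) (d k))
        (isOpen_Ioo.preimage hρ) (u := -d (k + 1)) (v := -d (k + 2)) fun x a1 a2 =>
        ⟨⟨by linarith, by linarith⟩,
          PRet.reg_neg (hr x (by linarith [d3 (k + 2)]) (by linarith [d5 (k + 1)]))⟩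
      refine ⟨fun z => H (1, z), by fun_prop, fun z hz => m1.out 1 z fun e => e.2.not_ge hz,
        fun z hz => ?_, fun z hz => ?_⟩ <;> by_cases e : z ∈ ρ ⁻¹' Ioo (d (k + 3)) (d k)
      · exact (m1.mem 1 z e).2.trans_le (d5 k)
      · exact (congrArg ρ (m1.out 1 z e)).trans_lt hz
      · exact neg_lt_neg_iff.1 (m2 z e (neg_le_neg hz.le))
      · exact (e1.trans_le (not_lt.1 fun e' => e ⟨e2.trans hz, e'⟩)).trans_eq
          (congrArg ρ (m1.out 1 z e)).symm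
    choose h k1 k2 k3 k4 using key
    let R : ℕ → M → M := fun k => Nat.rec id (fun k r => r ∘ h k) k
    have r1 : ∀ k, Continuous (R k) := fun k => by
      induction k with
      | zero => exact continuous_id
      | succ k ih => exact ih.comp (k1 k)
    have r2 : ∀ z k, d k ≤ ρ z → ∀ j, k ≤ j → R j z = R k z := fun z k hz j hj => by
      induction j, hj using Nat.le_induction with
      | base => rfl
      | succ j hj ih => exact (congrArg (R j) (k2 j z ((d2.antitone hj).trans hz))).trans ih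
    have r3 : ∀ k z, ρ z < a₂ → ρ (R k z) < a₂ := fun k => by
      induction k with
      | zero => exact fun _ h => h
      | succ k ih => exact fun z hz => ih _ (k3 k z hz)
    have r4 : ∀ k z, d (k + 1) < ρ z → a₁ < ρ (R k z) := fun k => by
      induction k with
      | zero => exact fun _ h => d1 ▸ h
      | succ k ih => exact fun z hz => ih _ (k4 k z hz)
    have r5 : ∀ z, ∃ x, ∀ k, d k ≤ ρ z → x = R k z := fun z => by
      by_cases e : ∃ k, d k ≤ ρ z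
      · obtain ⟨k, hk⟩ := e
        exact ⟨R k z, fun j hj => (r2 z k hk _ (le_max_left k j)).symm.trans
          (r2 z j hj _ (le_max_right k j))⟩
      · exact ⟨z, fun k hk => (e ⟨k, hk⟩).elim⟩
    choose r r5 using r5
    have r6 : ∀ z, 0 < ρ z → ∃ k, d k < ρ z := fun z hz => (d4.eventually (gt_mem_nhds hz)).exists
    refine ⟨r, fun z hz => ?_, fun z hz => ?_, fun z hz => r5 z 0 (d0 ▸ hz)⟩
    · obtain ⟨k, hk⟩ := r6 z hz
      exact ((r1 k).continuousAt.congr ((hρ.continuousAt.eventually (lt_mem_nhds hk)).mono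
        fun w hw => (r5 w k hw.le).symm)).continuousWithinAt
    · obtain ⟨k, hk⟩ := r6 z hz
      rw [r5 z k hk.le]
      exact ⟨r4 k z ((d2 k.lt_succ_self).trans hk), r3 k z⟩
  · have a1 : ∀ x, -a ≤ -ρ x → -ρ x < 0 → x ∈ ρ ⁻¹' Ioo 0 δ ∧ Reg (fun y => -ρ y) x :=
      fun x e1 e2 => ⟨⟨by linarith, by linarith⟩, PRet.reg_neg (hr x (by linarith) (by linarith))⟩
    refine ⟨PRet.ac hρ.neg (isOpen_Ioo.preimage hρ) (fun x hx => hx.1)
      (fun x => ⟨fun e => ⟨h0.trans e, neg_lt_neg e⟩, fun e => neg_lt_neg_iff.1 e.2⟩)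
      (fun x hx => neg_neg_of_pos hx) (fun x hx e => (a1 x e (neg_neg_of_pos hx)).1) a1,
      Ac.trans (A' := ρ ⁻¹' Ioo a δ) (PRet.ac hρ.neg (isOpen_Ioo.preimage hρ) (fun x hx => hx)
        (fun x => ⟨fun e => ⟨⟨h0.trans e.1, e.2⟩, neg_lt_neg e.1⟩,
          fun e => ⟨neg_lt_neg_iff.1 e.2, e.1.2⟩⟩) (fun x hx => neg_neg_of_pos hx.1)
        (fun x hx _ => hx) a1) (PRet.ac hρ (isOpen_Ioo.preimage hρ) Subset.rfl
        (fun x => ⟨fun e => ⟨⟨e.1, e.2.trans h2⟩, e.2⟩, fun e => ⟨e.1.1, e.2⟩⟩) (fun x hx => hx.2)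
        (fun x hx _ => hx) fun x e1 e2 => ⟨⟨h1.trans_le e1, e2⟩, hr x (by linarith) e2⟩)
      (fun x hx => ⟨h0.trans hx.1, hx.2⟩) fun x hx => ⟨hx.1, hx.2.trans h2⟩⟩

open Projectivization Pool.Agent.Shared.OMin in
theorem rugS : RugS := by
  intro N I hS
  let r : (Fin (N + 1) → ℂ) → ℝ := fun v => ∏ s ∈ hS.toFinset, sq (mu0 v - mu0 s.1.rep)
  have r1 : DF SA r := DF.prod _ fun s _ => df_sq fun q => DF.sub (DF.smul (df_sq df_app).inv
    (df_mul (df_app _) ((DF.clm Complex.conjCLE.toContinuousLinearMap).comp (df_app _))))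
    (DF.const _)
  have r2 : DP SA fun v => v ∈ {v : Fin (N + 1) → ℂ | v ≠ 0 ∧
      ∀ a : ℂ, ∀ P ∈ I, a ≠ 0 → MvPolynomial.eval (a • v) P = 0} :=
    DP.and (by fun_prop) (DP.all (DP.finset_and I.finite_toSet fun P _ => DP.imp (by fun_prop)
      (DP.eq ((df_eval P).comp (((DF.clm (ContinuousLinearMap.lsmul ℝ ℂ)).comp
        (DF.snd DF.id')).clm_apply (DF.fst DF.id'))) (DF.const _))))
  obtain ⟨ε, hε, h1⟩ := mem_nhdsGT_iff_exists_Ioo_subset.1 (((nhdsGT_le_nhdsNE 0).trans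
    (nhdsNE_le_cofinite 0)) (crit_finite r2 r1).compl_mem_cofinite)
  have r3 : ∀ v hv, r (mk ℂ v hv).rep = r v := fun v hv => by simp only [r, mu_mk]
  have c2 : ∀ y : Var I, MP_356dfe_ag.C2 (IsChart (n := 2)) (fun y => r y.1.rep) y := fun y e he hy => by
    obtain ⟨s, h3, ⟨h4, -⟩, h6⟩ := he.lift hy
    refine (ContDiffAt.comp _ (contDiffAt_prod fun s _ => contDiff_sq.contDiffAt.comp _
      ((contDiffAt_mu0 h4).sub contDiffAt_const)) (h3.contDiffAt.restrict_scalars ℝ)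
        : ContDiffAt ℝ 2 (r ∘ s) _).congr_of_eventuallyEq (h6.mono fun u ⟨a1, a2⟩ => ?_)
    exact (congrArg (fun z : PN N => r z.rep) a2).symm.trans (r3 _ a1)
  refine ⟨r, fun v hv => contDiffAt_prod fun s _ => PRet.cd_sq.contDiffAt.comp _
    ((PRet.cd_mu hv).sub contDiffAt_const), fun a v ha => by simp only [r, mu0_smul ha], ε, hS, fun e he y hy e' he' hy' =>
    ((he.1 y hy).an he' hy').contDiffAt.restrict_scalars ℝ, fun y hy => not_not.1 hy,
    continuous_finsetProd _ fun s _ => contDiff_sq.continuous.comp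
      ((cont_mu.comp continuous_subtype_val).sub continuous_const), c2,
    fun y => Finset.prod_nonneg fun _ _ => sq_nonneg' _, fun y => ?_, hε,
    fun e he y hy a1 a2 a3 => h1 ⟨a1, a2⟩ ⟨_, ⟨y.1.rep_nonzero, (mem_var _).1 (y.1.mk_rep.symm ▸ y.2)⟩,
      rfl, ?_⟩⟩
  · simp only [r, Finset.prod_eq_zero_iff, Finite.mem_toFinset]
    refine ⟨fun ⟨s, hs, h⟩ => ?_, fun h => ⟨y, h, by simp [sq]⟩⟩
    rwa [Subtype.ext (mu_inj (sub_eq_zero.1 (by_contra fun h' => (sq_pos h').ne' h)))]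
  · obtain ⟨F, h2, h3⟩ := he.1 y hy
    have h4 := h3.self_of_nhds _ y y.1.mk_rep
    have h5 := ((c2 y e he hy).differentiableAt two_ne_zero).hasFDerivAt
    rw [a3, h4] at h5
    refine ⟨_, by simpa using h5.comp _ (h2.differentiableAt.restrictScalars ℝ).hasFDerivAt, ?_⟩
    filter_upwards [h3, ev_cone (e.open_source.mem_nhds hy)] with w h6 h7 hw
    have h8 := (mem_var hw.1).2 hw.2
    rw [Function.comp_apply, ← h6 hw.1 ⟨_, h8⟩ rfl, Function.comp_apply,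
      e.left_inv (h7 hw.1 ⟨_, h8⟩ rfl), r3]

end Pool.Agent.Lib.MP_356dfe_ag.S
end
end

-- part Pool.Agent.Lib.MP_356dfe_ag.S.PTop
section

/-! Intersection homology from nerves. -/

set_option autoImplicit false

open Set Filter Topology Metric Pool.Agent.Shared.SingHom
open scoped ContDiff Pointwise

noncomputable section

namespace Pool.Agent.Lib.MP_356dfe_ag.S

namespace PTop

open Module

theorem ex_rank {M N P : Type*} [AddCommGroup M] [AddCommGroup N] [AddCommGroup P]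
    (f : M →ₗ[ℤ] N) (g : N →ₗ[ℤ] P) (h : LinearMap.ker g = LinearMap.range f)
    [Module.Finite ℤ (LinearMap.range f)] [Module.Finite ℤ (LinearMap.range g)] :
    Module.Finite ℤ N ∧
      finrank ℤ N = finrank ℤ (LinearMap.range f) + finrank ℤ (LinearMap.range g) := by
  have hN : Module.Finite ℤ N := by
    refine ⟨Submodule.fg_of_fg_map_of_fg_inf_ker g ?_ ?_⟩
    · rw [Submodule.map_top]; exact Module.Finite.iff_fg.1 inferInstance
    · rw [top_inf_eq, h]; exact Module.Finite.iff_fg.1 inferInstance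
  refine ⟨hN, ?_⟩
  have := finrank_range_add_ker g
  rw [h] at this
  omega

variable {X : Type} [TopologicalSpace X] {A O : Set X} {i : ℕ}
  {Q Q' : Type*} [AddCommGroup Q] [AddCommGroup Q']

theorem desc {κ : RZ A ∅ i →+ Q} (h : Cmp A i κ) {P : Submodule ℤ (Ch X)} (hP : P ≤ RZ A ∅ i) :
    ∃ l : Hq P (B A (i + 1)) →+ Q, (∀ x hx, l (Hq.mk _ x hx) = κ ⟨x, hP hx⟩) ∧
      ∀ c, l c = 0 ↔ c ∈ sat (⊥ : Submodule ℤ (Hq P (B A (i + 1)))) := by
  refine ⟨(Hq.lift (κ.toIntLinearMap.comp (Submodule.inclusion hP))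
    fun x hx => (h.2 ⟨x.1, hP x.2⟩).2 (le_sat _ hx)).toAddMonoidHom, fun _ _ => rfl, fun c => ?_⟩
  obtain ⟨x, hx, rfl⟩ := Hq.mk_surj c
  refine (h.2 ⟨x, hP hx⟩).trans (exists_congr fun N => and_congr_right fun _ => ?_)
  rw [Submodule.mem_bot, Hq.mk_smul, Hq.mk_eq_zero]

theorem Z_le_RZ (A : Set X) (i : ℕ) : Z A (i + 1) ≤ RZ A ∅ i := fun x hx =>
  ⟨hx.1, show bd x ∈ C ∅ i by rw [(mem_Z.1 hx).2]; exact Submodule.zero_mem _⟩

theorem RZ_le_Z (A : Set X) (i : ℕ) : RZ A ∅ (i + 1) ≤ Z A (i + 2) := fun x hx =>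
  mem_Z.2 ⟨hx.1, by
    have : bd x ∈ C ∅ (i + 1) := hx.2
    rwa [C_empty, Submodule.mem_bot] at this⟩

theorem zrank (A : Set X) (m : ℕ) [Module.Finite ℤ (H A m)] [Module.Finite ℤ (B A m)] :
    Module.Finite ℤ (Z A m) ∧ finrank ℤ (Z A m) = finrank ℤ (B A m) + finrank ℤ (H A m) := by
  have e : LinearMap.range (Hq.mkL (Z A m) (B A m)) = ⊤ :=
    LinearMap.range_eq_top.2 fun c => let ⟨x, hx, e⟩ := Hq.mk_surj c; ⟨⟨x, hx⟩, e⟩
  have a := ex_rank (Submodule.inclusion (B_le_Z A m)) (Hq.mkL (Z A m) (B A m)) (by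
    ext ⟨x, hx⟩
    refine Hq.mk_eq_zero.trans ⟨fun h => ⟨⟨x, h⟩, rfl⟩, ?_⟩
    rintro ⟨y, e⟩
    obtain rfl : y.1 = x := congrArg Subtype.val e
    exact y.2)
  rwa [LinearMap.finrank_range_of_inj (Submodule.inclusion_injective _), e, finrank_top] at a

theorem Z_zero (A : Set X) : Z A 0 = C ∅ 0 :=
  le_antisymm (fun _ hx => C_zero A ∅ ▸ hx.1) fun _ hx =>
    mem_Z.2 ⟨C_zero ∅ A ▸ hx, bd_eq_zero hx⟩

theorem C_rank : Module.Finite ℤ (C (∅ : Set X) 0) ∧ finrank ℤ (C (∅ : Set X) 0) = 1 := by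
  obtain ⟨e⟩ := (conc_empty (X := X)).2
  have e1 : B (∅ : Set X) 0 = ⊥ := by rw [B, C_empty, Submodule.map_bot]
  have : Module.Finite ℤ (H (∅ : Set X) 0) := .equiv e.symm
  have : Module.Finite ℤ (B (∅ : Set X) 0) := by rw [e1]; infer_instance
  have a := zrank (∅ : Set X) 0
  rw [e.finrank_eq] at a
  rw [Z_zero, e1] at a
  simpa using a

theorem rank_top [Module ℚ Q] {κ : RZ A ∅ i →+ Q} (h : Cmp A i κ)
    [Module.Finite ℤ (H A (i + 1))] : Module.Finite ℚ Q ∧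
      finrank ℚ Q = finrank ℤ (H A (i + 1)) + finrank ℤ ((RZ A ∅ i).map bd) := by
  let ι : H A (i + 1) →ₗ[ℤ] Hq (RZ A ∅ i) (B A (i + 1)) :=
    Hq.map LinearMap.id (Z_le_RZ A i) fun _ _ h => h
  let β : Hq (RZ A ∅ i) (B A (i + 1)) →ₗ[ℤ] Ch X :=
    Hq.lift (bd.comp (RZ A ∅ i).subtype) fun x hx => (mem_Z.1 (B_le_Z _ _ hx)).2
  have e1 : LinearMap.range β = (RZ A ∅ i).map bd := by
    ext y
    constructor
    · rintro ⟨c, rfl⟩
      obtain ⟨x, hx, rfl⟩ := Hq.mk_surj c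
      exact ⟨x, hx, rfl⟩
    · rintro ⟨x, hx, rfl⟩
      exact ⟨Hq.mk _ x hx, rfl⟩
  have e2 : Function.Injective ι := by
    rw [injective_iff_map_eq_zero]
    intro c hc
    obtain ⟨x, hx, rfl⟩ := Hq.mk_surj c
    exact Hq.mk_eq_zero.2 (Hq.mk_eq_zero.1 hc)
  have : Module.Finite ℤ (C (∅ : Set X) i) := by
    cases i with
    | zero => exact C_rank.1
    | succ i => rw [C_empty]; infer_instance
  have : Module.Finite ℤ (LinearMap.range β) := finite_of_le (R := C ∅ i) (by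
    rw [e1]
    rintro _ ⟨x, hx, rfl⟩
    exact hx.2)
  have a := ex_rank ι β (by
    ext c
    obtain ⟨x, hx, rfl⟩ := Hq.mk_surj c
    refine ⟨fun h => ⟨cls x (mem_Z.2 ⟨hx.1, h⟩), rfl⟩, ?_⟩
    rintro ⟨c, e⟩
    obtain ⟨y, hy, rfl⟩ := Hq.mk_surj c
    rw [← e]
    exact (mem_Z.1 hy).2)
  rw [LinearMap.finrank_range_of_inj e2, e1] at a
  obtain ⟨l, l1, l2⟩ := desc h le_rfl
  have := a.1
  have b := top_rank (rank_of_sat ⊤ ⊥ bot_le (l.comp (Submodule.subtype ⊤).toAddMonoidHom) ⊤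
    (fun _ => trivial) (fun c _ => by
      obtain ⟨N, hN, z, e⟩ := h.1 c
      exact ⟨N, hN, ⟨Hq.mk _ z.1 z.2, trivial⟩, (l1 _ _).trans e⟩) fun z => l2 z.1)
  rw [finrank_bot, finrank_top, a.2] at b
  exact ⟨b.2, b.1⟩

theorem rank_zero [Module ℚ Q] {κ : RZ A ∅ 0 →+ Q} (h : Cmp A 0 κ) [Module.Finite ℤ (H A 0)]
    [Module.Finite ℤ (H A 1)] :
    Module.Finite ℚ Q ∧ (finrank ℚ Q : ℤ) = 1 - bt A 0 + bt A 1 := by
  have a := rank_top h
  have e : (RZ A ∅ 0).map bd = B A 0 := congrArg (Submodule.map bd)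
    (inf_eq_left.2 fun x hx => show bd x ∈ C ∅ 0 from C_zero A ∅ ▸ bd_mem hx)
  have := (C_rank (X := X)).1
  have : Module.Finite ℤ (B A 0) := finite_of_le (R := C ∅ 0) (Z_zero A ▸ B_le_Z A 0)
  have b := (zrank A 0).2
  have c : finrank ℤ (Z A 0) = 1 := by rw [Z_zero]; exact C_rank.2
  rw [e] at a
  refine ⟨a.1, ?_⟩
  have : finrank ℚ Q = finrank ℤ (H A 1) + finrank ℤ (B A 0) := a.2
  unfold bt
  omega

theorem rank_succ [Module ℚ Q] {κ : RZ A ∅ (i + 1) →+ Q} (h : Cmp A (i + 1) κ)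
    [Module.Finite ℤ (H A (i + 2))] : Module.Finite ℚ Q ∧ (finrank ℚ Q : ℤ) = bt A (i + 2) := by
  have a := rank_top h
  have e : (RZ A ∅ (i + 1)).map bd = ⊥ := eq_bot_iff.2 (by
    rintro _ ⟨x, hx, rfl⟩
    exact (mem_Z.1 (RZ_le_Z A i hx)).2)
  rw [e, finrank_bot] at a
  exact ⟨a.1, congrArg Nat.cast a.2⟩

theorem rank_rng [Module ℚ Q] [Module ℚ Q'] (j : Q →ₗ[ℚ] Q') {κ : RZ A ∅ (i + 1) →+ Q}
    {κ' : RZ (univ : Set X) ∅ (i + 1) →+ Q'} (h : Cmp A (i + 1) κ) (h' : Cmp univ (i + 1) κ')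
    (hj : ∀ (z : RZ A ∅ (i + 1)) (z' : RZ univ ∅ (i + 1)), z.1 = z'.1 → j (κ z) = κ' z')
    [Module.Finite ℤ (H A (i + 2))] : Module.Finite ℚ (LinearMap.range j) ∧
      finrank ℚ (LinearMap.range j) =
        finrank ℤ (LinearMap.range (Hinc (subset_univ A) (i + 2))) := by
  obtain ⟨l, l1, l2⟩ := desc h' (Z_le_RZ univ (i + 1))
  have b := rank_of_sat (LinearMap.range (Hinc (subset_univ A) (i + 2))) ⊥ bot_le
    (l.comp (Submodule.subtype _).toAddMonoidHom) (LinearMap.range j) (by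
      rintro ⟨_, c, rfl⟩
      obtain ⟨x, hx, rfl⟩ := Hq.mk_surj c
      exact ⟨κ ⟨x, Z_le_RZ _ _ hx⟩, (hj _ _ rfl).trans (l1 _ _).symm⟩) (by
      rintro _ ⟨c, rfl⟩
      obtain ⟨N, hN, z, e⟩ := h.1 c
      refine ⟨N, hN, ⟨_, cls z.1 (RZ_le_Z A i z.2), rfl⟩, (l1 _ _).trans ?_⟩
      rw [← map_zsmul, ← e]
      exact (hj _ _ rfl).symm) fun z => l2 z.1
  rwa [finrank_bot, add_zero] at b

theorem mv (hA : IsOpen A) (hO : IsOpen O) (hc : univ ⊆ A ∪ O)
    (h0 : ∀ m, Z O (m + 2) ≤ B O (m + 2)) [∀ m, Module.Finite ℤ (H A m)]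
    [∀ m, Module.Finite ℤ (H (O ∩ A) m)] : ∃ s : ℕ → ℕ, ∀ m,
      bt A (m + 2) = s m + finrank ℤ (LinearMap.range (Hinc (subset_univ A) (m + 2))) ∧
      Module.Finite ℤ (H (univ : Set X) (m + 3)) ∧ bt (univ : Set X) (m + 3) + s m =
        finrank ℤ (LinearMap.range (Hinc (subset_univ A) (m + 3))) + bt (O ∩ A) (m + 2) := by
  have hE : Exc univ A O (O ∩ A) :=
    exc_of_open hA hO hc (univ_inter _).symm (univ_inter _).symm (inter_comm _ _)
  have z := fun m => Z_le_B_iff.1 (h0 m)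
  refine ⟨fun m => finrank ℤ (LinearMap.range (Hinc hE.int₁ (m + 2))), fun m => ?_⟩
  obtain ⟨δ, e1, e2⟩ := hE.mv (m + 2)
  have a := ex_rank (Hinc hE.int₁ (m + 2)) (Hinc hE.sub₁ (m + 2)) (by
    ext c
    have := hE.exact_mid (m + 2) (c, 0)
    rw [LinearMap.coprod_apply, map_zero, add_zero] at this
    exact this.trans ⟨fun ⟨y, e⟩ => ⟨y, congrArg Prod.fst e⟩,
      fun ⟨y, e⟩ => ⟨y, Prod.ext e (z _ _)⟩⟩)
  have b := ex_rank δ (Hinc hE.int₁ (m + 2)) (by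
    ext c
    refine Iff.trans ?_ (e2 c)
    exact ⟨fun e => Prod.ext e (z _ _), fun e => congrArg Prod.fst e⟩)
  have c := ex_rank (Hinc hE.sub₁ (m + 3)) δ (by
    ext c
    refine (e1 c).trans ⟨fun ⟨y, e⟩ => ⟨y.1, ?_⟩, fun ⟨y, e⟩ => ⟨(y, 0), ?_⟩⟩
    · rwa [LinearMap.coprod_apply, z (m + 1) y.2, map_zero, add_zero] at e
    · rwa [LinearMap.coprod_apply, map_zero, add_zero])
  refine ⟨by unfold bt; exact_mod_cast a.2, c.1, ?_⟩
  have b2 := b.2
  have c2 := c.2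
  unfold bt
  push_cast
  omega

theorem move {U : Set X} (h : Ac A U) (hU : U ⊆ A) (hf : ∀ m, Module.Finite ℤ (H U m)) (m : ℕ) :
    Module.Finite ℤ (H A m) ∧ bt A m = bt U m := by
  have e := LinearEquiv.ofBijective _ (h.bijective hU m)
  have := hf m
  exact ⟨.equiv e, by rw [bt, bt, e.finrank_eq]⟩

theorem sum_ext {f : ℕ → ℤ} {n : ℕ} (h : ∀ m, n < m → f m = 0) (k : ℕ) :
    ∑ m ∈ Finset.range (n + 1 + k), (-1) ^ m * f m = ∑ m ∈ Finset.range (n + 1), (-1) ^ m * f m := by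
  induction k with
  | zero => rfl
  | succ k ih => rw [← add_assoc, Finset.sum_range_succ, ih, h _ (by omega), mul_zero, add_zero]

end PTop

open PTop in
theorem top (h1 : N1) (h2 : N2) : Top := by
  intro X _ S O U W n V D hS hO hSO h0 hV hD eU eW hU hW aU aW
  obtain ⟨a1, a2, a3⟩ := h1 X n V hV
  obtain ⟨b1, b2, b3⟩ := h1 X n _ hD
  have b4 := h2 X n _ hD b1
  have eW' : ⋃ i, V i ∩ D = W := by rw [← iUnion_inter, eU, eW]
  rw [eU] at a1 a2 a3
  rw [eW'] at b1 b2 b3 b4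
  have mU := move aU hU a1
  have mW := move aW hW b1
  have := fun m => (mU m).1
  have := fun m => (mW m).1
  obtain ⟨s, hs⟩ := mv hS.isOpen_compl hO
    (fun x _ => (em (x ∈ S)).elim (fun h => Or.inr (hSO h)) Or.inl) h0
  simp only [(mU _).2, (mW _).2] at hs
  choose κ κ' k1 k2 k3 using exists_cmp Sᶜ
  have r0 : Module.Finite ℚ (IH X S 2 0) ∧
      (Module.finrank ℚ (IH X S 2 0) : ℤ) = 1 - bt U 0 + bt U 1 := by
    rw [IH, if_pos (by omega), ← (mU 0).2, ← (mU 1).2]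
    exact rank_zero (k1 0)
  have r1 : Module.Finite ℚ (IH X S 2 1) ∧ (Module.finrank ℚ (IH X S 2 1) : ℤ) = bt U 2 := by
    rw [IH, if_pos (by omega), ← (mU 2).2]
    exact rank_succ (k1 1)
  have r2 : Module.Finite ℚ (IH X S 2 2) ∧
      (Module.finrank ℚ (IH X S 2 2) : ℤ) = bt U 3 - s 1 := by
    rw [IH, if_neg (by omega), if_pos rfl]
    have a := rank_rng _ (k1 2) (k2 2) (k3 2)
    exact ⟨a.1, (congrArg Nat.cast a.2).trans (eq_sub_of_add_eq' (hs 1).1.symm)⟩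
  have r3 : ∀ k, Module.Finite ℚ (IH X S 2 (k + 3)) ∧ (Module.finrank ℚ (IH X S 2 (k + 3)) : ℤ) =
      bt U (k + 4) - s (k + 2) + bt W (k + 3) - s (k + 1) := fun k => by
    rw [IH, if_neg (by omega), if_neg (by omega)]
    have := (hs (k + 1)).2.1
    have a := rank_succ (k2 (k + 3))
    refine ⟨a.1, a.2.trans ?_⟩
    have c1 := (hs (k + 1)).2.2
    have c2 := (hs (k + 2)).1
    linarith
  have r4 : ∀ i, n + 3 ≤ i → Module.finrank ℚ (IH X S 2 i) = 0 := fun i hi => by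
    obtain ⟨k, rfl⟩ : ∃ k, i = k + 3 := ⟨i - 3, by omega⟩
    have := (r3 k).2
    rw [a2 _ (by omega), b2 _ (by omega)] at this
    omega
  have key : ∀ k, ∑ i ∈ Finset.range (k + 3), (-1 : ℤ) ^ i * (Module.finrank ℚ (IH X S 2 i) : ℤ) =
      1 - ∑ m ∈ Finset.range (k + 4), (-1) ^ m * bt U m +
        ∑ m ∈ Finset.range (k + 3), (-1) ^ m * bt W m - (bt W 0 - bt W 1 + bt W 2) -
        (-1) ^ k * s (k + 1) := fun k => by
    induction k with
    | zero =>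
      simp only [Finset.sum_range_succ, Finset.sum_range_zero, zero_add, r0.2, r1.2, r2.2]
      ring
    | succ k ih =>
      rw [show k + 1 + 3 = k + 3 + 1 from rfl, show k + 1 + 4 = k + 4 + 1 from rfl,
        Finset.sum_range_succ, ih, Finset.sum_range_succ _ (k + 4),
        Finset.sum_range_succ (fun m => (-1) ^ m * bt W m) (k + 3), (r3 k).2]
      ring
  refine ⟨fun i => ?_, (Set.finite_lt_nat (n + 3)).subset fun i hi =>
    not_le.1 fun h => hi (r4 i h), ?_⟩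
  · rcases i with _ | _ | _ | i
    exacts [r0.1, r1.1, r2.1, (r3 i).1]
  rw [finsum_eq_sum_of_support_subset (s := Finset.range (n + 3)) _ fun i hi =>
    Finset.mem_coe.2 (Finset.mem_range.2 (not_le.1 fun h => hi (by simp [r4 i h]))), key,
    show n + 4 = n + 1 + 3 from rfl, show n + 3 = n + 1 + 2 from rfl, sum_ext a2, sum_ext b2, a3, b3]
  have c := (hs (n + 1)).1
  rw [a2 _ (by omega)] at c
  have c' : (s (n + 1) : ℤ) = 0 := by omega
  rw [c', icN]
  linarith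

end Pool.Agent.Lib.MP_356dfe_ag.S
end
end
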