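import Pool.Agent.Lib.MP_356dfe_ag.S.Basic

-- part Pool.Agent.Lib.MP_356dfe_ag.S.PPair
section

/-! Orthogonality; boundaries of chains. -/

set_option autoImplicit false

open Set Filter Topology Metric MeasureTheory
open scoped ContDiff ComplexConjugate Matrix Pointwise

noncomputable section

namespace Pool.Agent.Lib.MP_356dfe_ag.S

namespace PPair

section A

variable {Z Λ : Type} [TopologicalSpace Z] {A : KA Z Λ}

theorem val_congr (ξ : FF Z) {a b : F1 Λ} {z : Z} (h : A.Eq1 a b z) :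
    A.val ξ [a] z = A.val ξ [b] z := by
  unfold KA.val KA.Dt
  simp only [List.cons_append, List.nil_append, List.map_cons, h.v1]

variable [MeasurableSpace Z] [BorelSpace Z]

omit [BorelSpace Z] in
theorem cont_N (h : A.Std) {a : F1 Λ} (ha : ∀ z, A.S1 a z) : Continuous (A.N a) :=
  continuous_iff_continuousAt.2 fun z =>
    h.bas.sm_cont _ z (h.bas.P_sm a a z (Eventually.of_forall fun w => ⟨ha w, ha w⟩))

theorem int_N (h : A.Std) {a : F1 Λ} (ha : A.D1 a) : Integrable (A.N a) A.μ := by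
  have := h.meas.fin
  refine (cont_N h ha.1).integrable_of_hasCompactSupport ?_
  refine HasCompactSupport.intro' ha.2 isClosed_closure fun z hz => ?_
  have : A.Eq1 a 0 z := by
    by_contra h'
    exact hz (subset_closure h')
  unfold KA.N KA.P
  rw [this.v1]
  exact n1_zero _ _

theorem int_N_sub (h : A.Std) {a b : F1 Λ} (ha : ∀ z, A.S1 a z) (hb : ∀ z, A.S1 b z)
    (ia : Integrable (A.N a) A.μ) (ib : Integrable (A.N b) A.μ) :
    Integrable (A.N (a - b)) A.μ := by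
  refine ((ia.const_mul 2).add (ib.const_mul 2)).mono'
    (cont_N h fun z => (ha z).sub (hb z)).aestronglyMeasurable (Eventually.of_forall fun z => ?_)
  have h1 := h.alg.n1_add (A.g z) (A.v1 a z) ((-1 : ℝ) • A.v1 b z) (h.bas.pd z)
  rw [n1_smul, smul_n1, neg_one_smul, ← sub_eq_add_neg] at h1
  have h0 : 0 ≤ A.N (a - b) z := h.alg.n1_nn _ _ (h.bas.pd z)
  rw [Real.norm_eq_abs, abs_of_nonneg h0]
  simpa [KA.N, KA.P, KA.v1_sub] using h1

omit [BorelSpace Z] in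
theorem ev_sub (hE : A.Evl) {ξ : FF Z} {C : Set Z} {k : ℕ} (hξ : A.In C k ξ) {a b : F1 Λ}
    (ha : ∀ z, A.S1 a z) (hb : ∀ z, A.S1 b z) :
    A.ev ξ 1 [a - b] = A.ev ξ 1 [a] - A.ev ξ 1 [b] := by
  have := hE.sum Bool Finset.univ (fun t => cond t 1 (-1)) (fun t => cond t a b) (a - b) C k ξ 1
    [] [] hξ hE.cls.one (by simp) (fun t _ => by cases t <;> assumption)
    (fun q _ z _ l _ => by simp [sub_eq_add_neg])
  simpa [sub_eq_add_neg] using this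

omit [BorelSpace Z] in
theorem cur_sum {ι : Type*} (s : Finset ι) (ξ : ι → FF Z) (f : Z → ℝ) (L : List (Z → ℝ)) :
    A.cur (∑ i ∈ s, ξ i) f L = ∑ i ∈ s, A.cur (ξ i) f L :=
  map_sum (A.evL f (L.map A.d)) ξ s

end A

section B

variable {G : Type} [Group G] {n : ℕ} {𝒜 : Set (Finset (Vx G n))}

theorem hasSum_bdy (h : Cx 𝒜) {z : Finset (Vx G n) → ℝ} (hz : ∀ σ, z σ ≠ 0 → σ ∈ 𝒜)
    {τ : Finset (Vx G n)} (hτ : τ.Nonempty) :
    HasSum (fun σ => z σ * ∑ j ∈ σ, if σ.erase j = τ then sg j σ else 0) (bdy 𝒜 z τ) := by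
  have := hasSum_sum (s := nb 𝒜 τ) fun j _ =>
    hasSum_ite_eq (insert j τ) (sg j (insert j τ) * z (insert j τ))
  refine this.congr_fun fun σ => ?_
  by_cases hσ : z σ = 0
  · rw [hσ, zero_mul]
    refine (Finset.sum_eq_zero fun j _ => ?_).symm
    split_ifs with e
    · rw [← e, hσ, mul_zero]
    · rfl
  rw [← Finset.sum_filter, ← Finset.sum_filter, Finset.mul_sum]
  refine Finset.sum_congr ?_ fun j hj => ?_
  · ext j
    simp only [Finset.mem_filter, h.mem_nb hτ]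
    constructor
    · rintro ⟨hj, rfl⟩
      rw [Finset.insert_erase hj]
      exact ⟨⟨Finset.notMem_erase j σ, hz σ hσ⟩, rfl⟩
    · rintro ⟨⟨hj, -⟩, rfl⟩
      exact ⟨Finset.mem_insert_self j τ, Finset.erase_insert hj⟩
  · rw [← (Finset.mem_filter.1 hj).2, mul_comm]

omit [Group G] in
theorem pair_cancel {σ : Finset (Vx G n)} (hσ : ∀ i ∈ σ, ∀ j ∈ σ, i.2 = j.2 → i = j)
    (c : Finset (Vx G n) → ℝ) :
    ∑ i ∈ σ, ∑ j ∈ σ \ {i}, sg j (insert j {i}) * c (insert j {i}) = 0 := by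
  have key : ∑ i ∈ σ, ∑ j ∈ σ \ {i}, sg j (insert j {i}) * c (insert j {i}) =
      -∑ i ∈ σ, ∑ j ∈ σ \ {i}, sg j (insert j {i}) * c (insert j {i}) := by
    conv_rhs => rw [Finset.sum_comm' (t' := σ) (s' := fun j => σ \ {j}) (by
      intro x y
      simp only [Finset.mem_sdiff, Finset.mem_singleton]
      tauto)]
    rw [← Finset.sum_neg_distrib]
    refine Finset.sum_congr rfl fun i hi => ?_
    rw [← Finset.sum_neg_distrib]
    refine Finset.sum_congr rfl fun j hj => ?_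
    rw [Finset.mem_sdiff, Finset.mem_singleton] at hj
    have hne : i.2 ≠ j.2 := fun e => hj.2 (hσ i hi j hj.1 e).symm
    rw [Finset.pair_comm i j, sg_insert_self, sg_insert (by simpa using hj.2), sg_single,
      ← Finset.insert_empty, sg_insert (Finset.notMem_empty i)]
    have : sg j (∅ : Finset (Vx G n)) = 1 := by simp [sg]
    rw [this]
    rcases lt_or_gt_of_ne hne with h | h
    · rw [if_pos h, if_neg h.not_gt]; ring
    · rw [if_pos h, if_neg h.not_gt]; ring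
  linarith

end B

end PPair

variable {G Z : Type} [Group G] [TopologicalSpace Z] [T2Space Z] [MulAction G Z]
  [MeasurableSpace Z] [BorelSpace Z] {m n : ℕ} {Γ : Geo G Z m n}

theorem pair (h : Γ.Std) (hs : Γ.Sum) (he : Γ.Ext) (hb : Γ.Bnd) (hv : Γ.A.Van) : Γ.Pair := by
  intro ι ι' _ _ 𝒮 𝒮' ξ y w x a₁ a₃ hO hξ hy hy2 hO' hw hx hx2 h1 h2 h3 hex hU hval
  obtain ⟨w', hw', hc⟩ := he ι' 𝒮' w a₁ a₃ hO' hw h1 h2 h3
  obtain ⟨hbex, hbeq⟩ := hc x hx hex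
  obtain ⟨-, hbS, hbI⟩ := hs ι' 𝒮' w' x hO' hw' hx
  obtain ⟨hbN, hbNN⟩ := hbI hx2
  obtain ⟨-, haS, -⟩ := hs ι' 𝒮' w x hO' hw hx
  obtain ⟨⟨C, hC⟩, hH⟩ := hb ι 𝒮 ξ y hO hξ hy hy2
  have hH' := hH ι' 𝒮' w x hO' hw hx hx2
  have e1 : ∀ i, y i * Γ.A.ev (ξ i) 1 [sumF x w] = y i * Γ.A.ev (ξ i) 1 [sumF x w'] := by
    intro i
    by_cases hi : y i = 0
    · rw [hi, zero_mul, zero_mul]
    have hIn := (hξ i (hy i hi)).1
    rw [(h.evl.val univ 1 (ξ i) 1 [sumF x w] hIn h.evl.cls.one (by simpa using haS)).2,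
      (h.evl.val univ 1 (ξ i) 1 [sumF x w'] hIn h.evl.cls.one (by simpa using hbS)).2]
    congr 2
    funext z
    rcases lt_or_ge (Γ.ρ z) a₃ with hz | hz
    · rw [hval i hi z hz, hval i hi z hz]
    · rw [PPair.val_congr _ (hbeq z hz)]
  simp only [e1] at hH'
  suffices hS : ∑' i, y i * Γ.A.ev (ξ i) 1 [sumF x w'] = 0 by rwa [hS] at hH'
  have key : ∀ η > 0, |∑' i, y i * Γ.A.ev (ξ i) 1 [sumF x w']| ≤ |C| * √η := by
    intro η hη
    obtain ⟨U, hUD, hle⟩ := hv _ hbex hbN hbNN η hη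
    have hD := (h.std.bas.L_D U hUD).2.1
    have iU := PPair.int_N h.std hD
    have h5 := (hC _ (fun z => (hbS z).sub (hD.1 z)) (PPair.int_N_sub h.std hbS hD.1 hbN iU)).2
    have e2 : ∀ i, y i * Γ.A.ev (ξ i) 1 [sumF x w' - Γ.A.d U] =
        y i * Γ.A.ev (ξ i) 1 [sumF x w'] - y i * Γ.A.ev (ξ i) 1 [Γ.A.d U] := by
      intro i
      by_cases hi : y i = 0
      · simp [hi]
      rw [PPair.ev_sub h.evl (hξ i (hy i hi)).1 hbS hD.1, mul_sub]
    simp only [e2] at h5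
    rw [(hC _ hbS hbN).1.tsum_sub (hC _ hD.1 iU).1, hU U hUD, sub_zero] at h5
    exact h5.trans (mul_le_mul (le_abs_self C) (Real.sqrt_le_sqrt hle) (Real.sqrt_nonneg _)
      (abs_nonneg C))
  have hlim : Tendsto (fun η : ℝ => |C| * √η) (𝓝[>] 0) (𝓝 (|C| * √0)) :=
    ((continuous_const.mul Real.continuous_sqrt).tendsto 0).mono_left nhdsWithin_le_nhds
  rw [Real.sqrt_zero, mul_zero] at hlim
  exact abs_nonpos_iff.1 (ge_of_tendsto hlim (eventually_nhdsWithin_of_forall key))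

theorem gbd (h : Γ.Std) : Γ.Gbd := by
  intro γ hγ
  have hA := h.inv.cxA
  have hm : ∀ σ ∈ Γ.𝒜, ∀ i ∈ σ, Γ.A.In (Γ.car {i} σ) (σ.card - 1) (γ {i} σ) := fun σ hσ i hi =>
    hγ.mem σ hσ {i} (Finset.singleton_subset_iff.2 hi) (Finset.singleton_nonempty i)
  refine ⟨fun σ hσ => ⟨KA.in_sum fun i hi => (hm σ hσ i hi).mono (subset_univ _), fun g => ?_⟩, ?_⟩
  · unfold Gam actF
    rw [Finsupp.mapDomain_finsetSum, Finset.smul_finset_def,
      Finset.sum_image (MulAction.injective g).injOn]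
    refine Finset.sum_congr rfl fun i hi => ?_
    have := hγ.eqv σ hσ {i} (Finset.singleton_subset_iff.2 hi) (Finset.singleton_nonempty i) g
    rw [Finset.smul_finset_singleton] at this
    exact this
  intro k z hz f L hf hL hτ
  classical
  have hfin : {τ ∈ Γ.𝒜 | Γ.A.cur (Gam γ τ) f L ≠ 0}.Finite := by
    refine ((h.inv.lfV _ hf.2).biUnion fun l _ => hA.lf l).subset fun τ hτ => ?_
    obtain ⟨hτ1, hτ2⟩ := hτ
    rw [Gam, PPair.cur_sum] at hτ2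
    obtain ⟨i, hi, hne⟩ := Finset.exists_ne_zero_of_sum_ne_zero hτ2
    refine mem_biUnion (x := i) ?_ ⟨hτ1, hi⟩
    by_contra hcon
    refine hne ((h.evl.cur _ _ _ (hm τ hτ1 i hi)).nul f hf.1 L hL fun x hx => Or.inl ?_)
    simp only [mem_iUnion] at hx
    obtain ⟨q, hq, hxq⟩ := hx
    have hxV : x ∈ Γ.V i := by
      have h1 := (hm τ hτ1 i hi q hq).2.1 hxq
      unfold Geo.car at h1
      split_ifs at h1
      · simpa [VV] using h1.1
      · simpa [VV] using h1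
    exact notMem_tsupport_iff_eventuallyEq.1 fun hxf => hcon ⟨x, hxV, hxf⟩
  have hS := hasSum_sum (s := hfin.toFinset) fun τ hτ' =>
    (PPair.hasSum_bdy hA (fun σ hσ => (hz.1 σ hσ).1)
      (hA.ne τ (hfin.mem_toFinset.1 hτ').1)).mul_left ((-1) ^ (k + 1) * Γ.A.cur (Gam γ τ) f L)
  rw [Finset.sum_eq_zero fun τ hτ' => by
    rw [(hτ τ (hfin.mem_toFinset.1 hτ').1).resolve_right (hfin.mem_toFinset.1 hτ').2,
      mul_zero]] at hS
  rw [← hS.tsum_eq]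
  refine tsum_congr fun σ => ?_
  by_cases hσ : z σ = 0
  · simp [hσ]
  obtain ⟨hσA, hσk⟩ := hz.1 σ hσ
  have e1 : Γ.A.cur (Gam γ σ) 1 (f :: L) =
      (-1) ^ (k + 1) * ∑ j ∈ σ, sg j σ * Γ.A.cur (Gam γ (σ.erase j)) f L := by
    rw [Gam, PPair.cur_sum, Finset.sum_congr rfl fun i hi => hγ.bd σ hσA {i}
      (Finset.singleton_subset_iff.2 hi) (Finset.singleton_nonempty i) f L hf.1 hL]
    simp only [Finset.sum_add_distrib]
    rw [PPair.pair_cancel (hA.inj σ hσA) (fun τ => Γ.A.cur (γ τ σ) f L), zero_add,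
      Finset.sum_comm' (t' := σ) (s' := fun j => σ.erase j) (by
        intro x y
        simp only [Finset.mem_sdiff, Finset.mem_singleton, Finset.mem_erase]
        tauto), Finset.mul_sum]
    refine Finset.sum_congr rfl fun j _ => ?_
    rw [Gam, PPair.cur_sum, ← mul_assoc, Finset.mul_sum]
    refine Finset.sum_congr rfl fun i _ => ?_
    rw [Finset.card_singleton, hσk]
    rfl
  rw [e1]
  simp only [Finset.mul_sum]
  rw [Finset.sum_comm]
  refine Finset.sum_congr rfl fun j hj => ?_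
  simp only [mul_ite, mul_zero]
  rw [Finset.sum_ite_eq]
  split_ifs with h1
  · ring
  · have : Γ.A.cur (Gam γ (σ.erase j)) f L = 0 := by
      by_contra h2
      refine h1 (hfin.mem_toFinset.2 ⟨hA.down σ hσA _ (Finset.erase_subset j σ) ?_, h2⟩)
      rw [← Finset.card_pos, Finset.card_erase_of_mem hj, hσk]
      omega
    rw [this]
    ring

end Pool.Agent.Lib.MP_356dfe_ag.S
end
end

-- part Pool.Agent.Lib.MP_356dfe_ag.S.PCube
section

/-! The cubical currents. -/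

set_option autoImplicit false

open Set Filter Topology Metric MeasureTheory
open scoped ContDiff ComplexConjugate Matrix Pointwise

noncomputable section

namespace Pool.Agent.Lib.MP_356dfe_ag.S

namespace PCube

section Comb

variable {G : Type} [Group G] {n k : ℕ} {𝒜 : Set (Finset (Vx G n))} {τ σ : Finset (Vx G n)}
  {j : Vx G n} {M M' : Type} [AddCommGroup M] [Module ℝ M] [AddCommGroup M'] [Module ℝ M']

/-- the cubical boundary -/
def Db (T : Finset (Vx G n) → Finset (Vx G n) → M) (τ σ : Finset (Vx G n)) : M :=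
  ∑ j ∈ σ \ τ, (sg j (insert j τ) • T (insert j τ) σ +
    ((-1) ^ (σ.card - τ.card) * sg j σ) • T τ (σ.erase j))

/-- faces of dimension `k` of the cubical subdivision -/
def Pk (𝒜 : Set (Finset (Vx G n))) (k : ℕ) (τ σ : Finset (Vx G n)) : Prop :=
  σ ∈ 𝒜 ∧ τ ⊆ σ ∧ τ.Nonempty ∧ σ.card = τ.card + k

omit [Group G] in
theorem Db_map (φ : M →ₗ[ℝ] M') (T : Finset (Vx G n) → Finset (Vx G n) → M)
    (τ σ : Finset (Vx G n)) : φ (Db T τ σ) = Db (fun τ σ => φ (T τ σ)) τ σ := by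
  simp only [Db, map_sum, map_add, map_smul]

omit [Group G] in
theorem Db_congr {T T' : Finset (Vx G n) → Finset (Vx G n) → M}
    (h : ∀ j ∈ σ \ τ, T (insert j τ) σ = T' (insert j τ) σ ∧ T τ (σ.erase j) = T' τ (σ.erase j)) :
    Db T τ σ = Db T' τ σ :=
  Finset.sum_congr rfl fun j hj => by rw [(h j hj).1, (h j hj).2]

theorem smul_erase (g : G) (σ : Finset (Vx G n)) (j : Vx G n) :
    g • σ.erase j = (g • σ).erase (g • j) :=
  Finset.image_erase (MulAction.injective g) σ j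

theorem Db_smul (g : G) (T : Finset (Vx G n) → Finset (Vx G n) → M) (τ σ : Finset (Vx G n)) :
    Db T (g • τ) (g • σ) = Db (fun τ σ => T (g • τ) (g • σ)) τ σ := by
  rw [Db, Db, ← Finset.smul_finset_sdiff, Finset.smul_finset_def (s := σ \ τ),
    Finset.sum_image (MulAction.injective g).injOn]
  refine Finset.sum_congr rfl fun j _ => ?_
  rw [← Finset.smul_finset_insert, sg_smul, sg_smul, Finset.card_smul_finset,
    Finset.card_smul_finset, ← smul_erase]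

theorem sum_anti {ι : Type*} [DecidableEq ι] (S : Finset ι) (a : ι → ι → ℝ)
    (h : ∀ i ∈ S, ∀ j ∈ S, i ≠ j → a i j = -a j i) : ∑ j ∈ S, ∑ i ∈ S.erase j, a j i = 0 := by
  have h1 : ∑ j ∈ S, ∑ i ∈ S.erase j, a j i = ∑ i ∈ S, ∑ j ∈ S.erase i, a j i :=
    Finset.sum_comm' fun x y => by
      simp only [Finset.mem_erase]
      tauto
  have h2 : ∑ i ∈ S, ∑ j ∈ S.erase i, a j i = -∑ j ∈ S, ∑ i ∈ S.erase j, a j i := by
    simp only [← Finset.sum_neg_distrib]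
    exact Finset.sum_congr rfl fun i hi => Finset.sum_congr rfl fun j hj =>
      h j (Finset.mem_of_mem_erase hj) i hi (Finset.ne_of_mem_erase hj)
  linarith

theorem Pk.faces (hA : Cx 𝒜) (h : Pk 𝒜 (k + 1) τ σ) (hj : j ∈ σ \ τ) :
    Pk 𝒜 k (insert j τ) σ ∧ Pk 𝒜 k τ (σ.erase j) := by
  obtain ⟨h1, h2, h3, h4⟩ := h
  rw [Finset.mem_sdiff] at hj
  have h5 : τ ⊆ σ.erase j := Finset.subset_erase.2 ⟨h2, hj.2⟩
  refine ⟨⟨h1, Finset.insert_subset hj.1 h2, Finset.insert_nonempty _ _, ?_⟩,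
    hA.down σ h1 _ (Finset.erase_subset _ _) (h3.mono h5), h5, h3, ?_⟩
  · rw [Finset.card_insert_of_notMem hj.2]
    omega
  · rw [Finset.card_erase_of_mem hj.1]
    omega

theorem Pk.smul (hA : Cx 𝒜) (h : Pk 𝒜 k τ σ) (g : G) : Pk 𝒜 k (g • τ) (g • σ) :=
  ⟨hA.inv σ h.1 g, Finset.smul_finset_subset_smul_finset h.2.1, h.2.2.1.smul_finset, by
    rw [Finset.card_smul_finset, Finset.card_smul_finset, h.2.2.2]⟩

omit [Group G] in
theorem Pk.eq (h : Pk 𝒜 0 τ σ) : τ = σ := Finset.eq_of_subset_of_card_le h.2.1 h.2.2.2.le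

theorem Db_Db (hA : Cx 𝒜) (h : Pk 𝒜 (k + 2) τ σ) (T : Finset (Vx G n) → Finset (Vx G n) → ℝ) :
    Db (Db T) τ σ = 0 := by
  have e0 : σ.card - τ.card = k + 2 := by have := h.2.2.2; omega
  rw [← sum_anti (σ \ τ) (fun j i => sg j τ * (sg i (insert j τ) * T (insert i (insert j τ)) σ -
      (-1) ^ k * sg i σ * T (insert j τ) (σ.erase i)) + (-1) ^ k * sg j σ *
      (sg i τ * T (insert i τ) (σ.erase j) -
        (-1) ^ k * sg i (σ.erase j) * T τ ((σ.erase j).erase i))) fun i hi j hj e => ?_, Db]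
  · refine Finset.sum_congr rfl fun j hj => ?_
    obtain ⟨⟨-, -, -, h1⟩, -, -, -, h2⟩ := h.faces hA hj
    rw [Db, Db, Finset.sdiff_insert, Finset.erase_sdiff_comm, e0,
      show σ.card - (insert j τ).card = k + 1 by omega,
      show (σ.erase j).card - τ.card = k + 1 by omega, Finset.smul_sum, Finset.smul_sum,
      ← Finset.sum_add_distrib]
    refine Finset.sum_congr rfl fun i _ => ?_
    simp only [sg_insert_self, smul_eq_mul]
    ring
  · rw [Finset.mem_sdiff] at hi hj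
    have h1 : i.2 ≠ j.2 := fun k => e (hA.inj σ h.1 i hi.1 j hj.1 k)
    have h2 := sg_erase hi.1 hj.1 h1
    have h3 : sg i τ * sg j (insert i τ) = -(sg j τ * sg i (insert j τ)) := by
      rw [sg_insert hi.2, sg_insert hj.2]
      rcases lt_or_gt_of_ne h1 with k | k
      · rw [if_pos k, if_neg k.not_gt]; ring
      · rw [if_pos k, if_neg k.not_gt]; ring
    rw [Finset.insert_comm j i, Finset.erase_right_comm (a := j)]
    linear_combination T (insert i (insert j τ)) σ * h3 -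
      (-1) ^ k * (-1) ^ k * T τ ((σ.erase i).erase j) * h2

theorem Db_one (h : Pk 𝒜 1 τ σ) {T : Finset (Vx G n) → Finset (Vx G n) → ℝ} (hA : Cx 𝒜)
    (h1 : ∀ σ ∈ 𝒜, T σ σ = 1) : Db T τ σ = 0 := by
  refine Finset.sum_eq_zero fun j hj => ?_
  obtain ⟨h2, h3⟩ := h.faces hA hj
  rw [h2.eq, ← h3.eq, h1 σ h.1, h1 τ (h3.eq ▸ h3.1), h.2.2.2]
  simp

end Comb

section Act

variable {G Z : Type} [Group G] [MulAction G Z]

theorem act0_mul {V : Type} (g h : G) (U : Z → V) : act0 (g * h) U = act0 g (act0 h U) :=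
  funext fun z => by simp only [act0, mul_inv_rev, mul_smul]

theorem act0_inv {V : Type} (g : G) (U : Z → V) : act0 g (act0 g⁻¹ U) = U :=
  funext fun z => by simp only [act0, inv_inv, smul_inv_smul]

theorem actF_mul (g h : G) (ξ : FF Z) : actF (g * h) ξ = actF g (actF h ξ) := by
  rw [actF, actF, actF, ← Finsupp.mapDomain_comp]
  congr 1
  funext q
  simp only [Function.comp_apply, List.map_map, act0_mul, Prod.mk.injEq, true_and]
  exact List.map_congr_left fun U _ => act0_mul g h U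

/-- equivariant choice -/
theorem eq_choice {ι : Type} [MulAction G ι] (𝒮 : Set ι) (hi : ∀ i ∈ 𝒮, ∀ g : G, g • i ∈ 𝒮)
    (hf : ∀ i ∈ 𝒮, ∀ g : G, g • i = i → g = 1) (R : ι → FF Z → Prop)
    (hR : ∀ i ∈ 𝒮, ∀ (g : G) ξ, R i ξ → R (g • i) (actF g ξ)) (ex : ∀ i ∈ 𝒮, ∃ ξ, R i ξ) :
    ∃ γ : ι → FF Z, ∀ i ∈ 𝒮, R i (γ i) ∧ ∀ g : G, γ (g • i) = actF g (γ i) := by
  obtain ⟨rep, r1, r2⟩ : ∃ rep : ι → ι, (∀ i, ∃ g : G, g • rep i = i) ∧
      ∀ (g : G) i, rep (g • i) = rep i :=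
    ⟨fun i => (Quotient.mk (MulAction.orbitRel G ι) i).out,
      fun i => (MulAction.orbitRel G ι).symm (Quotient.mk_out (s := MulAction.orbitRel G ι) i),
      fun g i => congrArg _ (Quotient.sound (s := MulAction.orbitRel G ι) ⟨g, rfl⟩)⟩
  choose u hu using r1
  choose! ξ hξ using ex
  refine ⟨fun i => actF (u i) (ξ (rep i)), fun i h => ?_⟩
  have h1 : rep i ∈ 𝒮 := by simpa [inv_smul_eq_iff.2 (hu i).symm] using hi i h (u i)⁻¹
  refine ⟨by simpa only [hu] using hR _ h1 (u i) _ (hξ _ h1), fun g => ?_⟩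
  have h2 := hu (g • i)
  rw [r2] at h2
  have h3 := hf _ h1 ((g * u i)⁻¹ * u (g • i)) (by
    rw [mul_smul, h2, inv_smul_eq_iff, mul_smul, hu])
  beta_reduce
  rw [r2, ← actF_mul, inv_mul_eq_one.1 h3]

end Act

variable {G Z : Type} [Group G] [TopologicalSpace Z] [MulAction G Z] [MeasurableSpace Z]
  {m n k : ℕ} {Γ : Geo G Z m n} {τ σ : Finset (Vx G n)} {j : Vx G n} {C : Set Z} {ξ : FF Z}
  {γ : Finset (Vx G n) → Finset (Vx G n) → FF Z}

theorem cur_len (h : Γ.A.In C k ξ) (f : Z → ℝ) {L : List (Z → ℝ)} (e : L.length ≠ k) :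
    Γ.A.cur ξ f L = 0 :=
  Finset.sum_eq_zero fun q hq => by
    have h1 := (h q hq).2.2.1
    have h2 : ∀ z, Γ.A.Dt (L.map Γ.A.d ++ q.2.map Γ.A.d) z = 0 := fun z => by
      rw [KA.Dt, det4_len (by simp; omega), zero_div]
    simp [h2]

theorem cur_Db (γ : Finset (Vx G n) → Finset (Vx G n) → FF Z) (τ σ : Finset (Vx G n)) (f : Z → ℝ)
    (L : List (Z → ℝ)) :
    Γ.A.cur (Db γ τ σ) f L = Db (fun τ σ => Γ.A.cur (γ τ σ) f L) τ σ :=
  Db_map (Γ.A.evL f (L.map Γ.A.d)) γ τ σ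

omit [MeasurableSpace Z] in
theorem sm_act (h : Γ.Inv) (g : G) {U : Z → ℝ} (hU : Γ.A.SM U) : Γ.A.SM (act0 g U) := fun z =>
  smul_inv_smul g z ▸ h.sm g U _ (hU (g⁻¹ • z))

theorem cur_act (h : Γ.Std) (g : G) (hξ : Γ.A.In C k ξ) (f : Z → ℝ) {L : List (Z → ℝ)}
    (hL : ∀ p ∈ L, Γ.A.SM p) :
    Γ.A.cur (actF g ξ) f L = Γ.A.cur ξ (act0 g⁻¹ f) (L.map (act0 g⁻¹)) := by
  rw [← h.invm.cur g C k ξ _ _ hξ (List.forall_mem_map.2 fun p hp => sm_act h.inv _ (hL p hp)),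
    act0_inv, List.map_map, List.map_congr_left (f := act0 g ∘ _) (g := id) fun p _ => act0_inv g p,
    List.map_id]

omit [MeasurableSpace Z] in
theorem car_sub (τ σ : Finset (Vx G n)) : Γ.car τ σ ⊆ VV Γ.V τ := by
  unfold Geo.car
  split_ifs
  exacts [inter_subset_left, subset_rfl]

omit [Group G] [TopologicalSpace Z] [MulAction G Z] [MeasurableSpace Z] in
theorem VV_mono {V : Vx G n → Set Z} (h : τ ⊆ σ) : VV V σ ⊆ VV V τ :=
  biInter_subset_biInter_left h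

omit [MeasurableSpace Z] in
theorem car_good (h : Pk Γ.𝒜 k τ σ) : Γ.A.Good (Γ.car τ σ) := by
  unfold Geo.car
  split_ifs with e
  · exact Γ.goodB τ h.2.2.1 (e.2.mono (inter_subset_inter_left _ (VV_mono h.2.1)))
  · exact Γ.good τ h.2.2.1 (h.1.2.mono (VV_mono h.2.1))

omit [MeasurableSpace Z] in
theorem car_faces (hi : Γ.Inv) (h : Pk Γ.𝒜 (k + 1) τ σ) (hj : j ∈ σ \ τ) :
    Γ.car (insert j τ) σ ⊆ Γ.car τ σ ∧ Γ.car τ (σ.erase j) ⊆ Γ.car τ σ := by
  have h1 := VV_mono (V := Γ.V) (Finset.subset_insert j τ)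
  obtain ⟨-, -, h2, h3, -⟩ := h.faces hi.cxA hj
  by_cases e : σ ∈ Γ.ℬ
  · have e' := hi.cxB.down σ e _ (Finset.erase_subset j σ) (h3.mono h2)
    simp only [Geo.car, if_pos e, if_pos e']
    exact ⟨inter_subset_inter_left _ h1, subset_rfl⟩
  · rw [show Γ.car τ σ = VV Γ.V τ from if_neg e]
    exact ⟨(car_sub _ _).trans h1, car_sub _ _⟩

omit [MeasurableSpace Z] in
theorem car_smul (hi : Γ.Inv) (g : G) (τ σ : Finset (Vx G n)) :
    g • Γ.car τ σ ⊆ Γ.car (g • τ) (g • σ) := by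
  by_cases e : σ ∈ Γ.ℬ
  · rw [Geo.car, Geo.car, if_pos e, if_pos ((hi.cxB.smul_iff g).2 e), hi.VV]
    rintro _ ⟨z, hz, rfl⟩
    exact ⟨smul_mem_smul_set hz.1, (Γ.ρ_sm g z).trans_lt hz.2⟩
  · rw [Geo.car, Geo.car, if_neg e, if_neg (mt (hi.cxB.smul_iff g).1 e), hi.VV]

/-- the currents of one dimension -/
structure St (Γ : Geo G Z m n) (k : ℕ) (γ : Finset (Vx G n) → Finset (Vx G n) → FF Z) : Prop where
  mem : ∀ τ σ, Pk Γ.𝒜 k τ σ → Γ.A.In (Γ.car τ σ) k (γ τ σ)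
  eqv : ∀ τ σ, Pk Γ.𝒜 k τ σ → ∀ g : G, γ (g • τ) (g • σ) = actF g (γ τ σ)
  cl : ∀ τ σ, Pk Γ.𝒜 (k + 1) τ σ → (∀ f L, Γ.A.SM f → (∀ p ∈ L, Γ.A.SM p) →
    Γ.A.cur (Db γ τ σ) 1 (f :: L) = 0) ∧ Γ.A.cur (Db γ τ σ) 1 [] = 0

omit [MeasurableSpace Z] in
theorem in_Db (hi : Γ.Inv) (h : ∀ τ σ, Pk Γ.𝒜 k τ σ → Γ.A.In (Γ.car τ σ) k (γ τ σ))
    (hP : Pk Γ.𝒜 (k + 1) τ σ) : Γ.A.In (Γ.car τ σ) k (Db γ τ σ) :=
  KA.in_sum fun _ hj =>
    (((h _ _ (hP.faces hi.cxA hj).1).mono (car_faces hi hP hj).1).smul _).add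
      (((h _ _ (hP.faces hi.cxA hj).2).mono (car_faces hi hP hj).2).smul _)

omit [MeasurableSpace Z] in
theorem pk_choice (hi : Γ.Inv) (k : ℕ) (R : Finset (Vx G n) → Finset (Vx G n) → FF Z → Prop)
    (hR : ∀ τ σ, Pk Γ.𝒜 k τ σ → ∀ (g : G) ξ, Γ.A.In (Γ.car τ σ) k ξ → R τ σ ξ →
      R (g • τ) (g • σ) (actF g ξ))
    (ex : ∀ τ σ, Pk Γ.𝒜 k τ σ → ∃ ξ, Γ.A.In (Γ.car τ σ) k ξ ∧ R τ σ ξ) :
    ∃ γ : Finset (Vx G n) → Finset (Vx G n) → FF Z, ∀ τ σ, Pk Γ.𝒜 k τ σ →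
      (Γ.A.In (Γ.car τ σ) k (γ τ σ) ∧ R τ σ (γ τ σ)) ∧
        ∀ g : G, γ (g • τ) (g • σ) = actF g (γ τ σ) := by
  obtain ⟨γ, h⟩ := eq_choice (G := G) {x : Finset (Vx G n) × Finset (Vx G n) | Pk Γ.𝒜 k x.1 x.2}
    (fun x hx g => Pk.smul hi.cxA hx g)
    (fun x hx g e => hi.orb.free x.2 hx.1 g (congrArg Prod.snd e))
    (fun x ξ => Γ.A.In (Γ.car x.1 x.2) k ξ ∧ R x.1 x.2 ξ)
    (fun x hx g ξ e => ⟨(hi.In g _ k ξ e.1).mono (car_smul hi g _ _), hR _ _ hx g ξ e.1 e.2⟩)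
    fun x hx => ex _ _ hx
  exact ⟨fun τ σ => γ (τ, σ), fun τ σ e => h (τ, σ) e⟩

theorem base (h : Γ.Std) (hp : Γ.A.Plz) :
    ∃ γ, St Γ 0 γ ∧ ∀ σ ∈ Γ.𝒜, Γ.A.cur (γ σ σ) 1 [] = 1 := by
  obtain ⟨γ, e⟩ := pk_choice h.inv 0 (fun _ _ ξ => Γ.A.cur ξ 1 [] = 1)
    (fun τ σ _ g ξ h1 h2 => (cur_act h g h1 1 (by simp)).trans h2)
    fun τ σ hP => (hp _ (car_good hP)).1
  have h1 : ∀ σ ∈ Γ.𝒜, Γ.A.cur (γ σ σ) 1 [] = 1 := fun σ hσ =>
    (e σ σ ⟨hσ, subset_rfl, hσ.1, rfl⟩).1.2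
  refine ⟨γ, ⟨fun τ σ hP => (e τ σ hP).1.1, fun τ σ hP => (e τ σ hP).2, fun τ σ hP =>
    ⟨fun f L _ _ => cur_len (in_Db h.inv (fun τ σ hP => (e τ σ hP).1.1) hP) _ (by simp), ?_⟩⟩, h1⟩
  rw [cur_Db]
  exact Db_one hP h.inv.cxA h1

theorem step (h : Γ.Std) (hp : Γ.A.Plz) (hS : St Γ k γ) : ∃ γ', St Γ (k + 1) γ' ∧
    ∀ τ σ, Pk Γ.𝒜 (k + 1) τ σ → ∀ f L, Γ.A.SM f → (∀ p ∈ L, Γ.A.SM p) →
      Γ.A.cur (γ' τ σ) 1 (f :: L) = Γ.A.cur (Db γ τ σ) f L := by
  have hA := h.inv.cxA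
  obtain ⟨γ', e⟩ := pk_choice h.inv (k + 1) (fun τ σ ξ => ∀ f L, Γ.A.SM f → (∀ p ∈ L, Γ.A.SM p) →
      Γ.A.cur ξ 1 (f :: L) = Γ.A.cur (Db γ τ σ) f L)
    (fun τ σ hP g ξ h1 h2 f L hf hL => by
      have h3 : Db γ (g • τ) (g • σ) = actF g (Db γ τ σ) := by
        rw [Db_smul]
        exact (Db_congr fun j hj => ⟨hS.eqv _ _ (hP.faces hA hj).1 g,
          hS.eqv _ _ (hP.faces hA hj).2 g⟩).trans (Db_map (Finsupp.lmapDomain ℝ ℝ _) γ τ σ).symm
      rw [h3, cur_act h g h1 1 (List.forall_mem_cons.2 ⟨hf, hL⟩),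
        cur_act h g (in_Db h.inv hS.mem hP) f hL]
      exact h2 _ _ (sm_act h.inv _ hf)
        (List.forall_mem_map.2 fun p hp => sm_act h.inv _ (hL p hp)))
    fun τ σ hP => (hp _ (car_good hP)).2 k _ (in_Db h.inv hS.mem hP) (hS.cl τ σ hP).1
      (hS.cl τ σ hP).2
  refine ⟨γ', ⟨fun τ σ hP => (e τ σ hP).1.1, fun τ σ hP => (e τ σ hP).2, fun τ σ hP =>
    ⟨fun f L hf hL => ?_, cur_len (in_Db h.inv (fun τ σ hP => (e τ σ hP).1.1) hP) _ (by simp)⟩⟩,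
    fun τ σ hP => (e τ σ hP).1.2⟩
  rw [cur_Db, ← Db_Db hA hP fun τ σ => Γ.A.cur (γ τ σ) f L]
  exact Db_congr fun j hj => ⟨((e _ _ (hP.faces hA hj).1).1.2 f L hf hL).trans (cur_Db _ _ _ _ _),
    ((e _ _ (hP.faces hA hj).2).1.2 f L hf hL).trans (cur_Db _ _ _ _ _)⟩

theorem exists_cube (h : Γ.Std) (hp : Γ.A.Plz) : ∃ γ, Γ.Cube γ := by
  obtain ⟨γ₀, h0, h1⟩ := base h hp
  choose F hF hF' using fun (k : ℕ) (x : {γ // St Γ k γ}) => step h hp x.2
  let s : ∀ k : ℕ, {γ // St Γ k γ} := fun k => Nat.rec ⟨γ₀, h0⟩ (fun k x => ⟨F k x, hF k x⟩) k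
  have pk : ∀ σ ∈ Γ.𝒜, ∀ τ, τ ⊆ σ → τ.Nonempty → Pk Γ.𝒜 (σ.card - τ.card) τ σ :=
    fun σ k1 τ k2 k3 => ⟨k1, k2, k3, by have := Finset.card_le_card k2; omega⟩
  refine ⟨fun τ σ => (s (σ.card - τ.card)).1 τ σ,
    fun σ k1 τ k2 k3 => (s _).2.mem τ σ (pk σ k1 τ k2 k3), fun σ k1 τ k2 k3 g => ?_,
    fun σ k1 => ?_, fun σ k1 τ k2 k3 f L hf hL => ?_⟩
  · rw [Finset.card_smul_finset, Finset.card_smul_finset]
    exact (s _).2.eqv τ σ (pk σ k1 τ k2 k3) g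
  · rw [Nat.sub_self]
    exact h1 σ k1
  · have hP := pk σ k1 τ k2 k3
    change _ = Db (fun τ σ => Γ.A.cur ((s (σ.card - τ.card)).1 τ σ) f L) τ σ
    generalize σ.card - τ.card = k at hP ⊢
    rcases k with _ | k
    · rw [cur_len ((s 0).2.mem τ σ hP) _ (by simp), hP.eq, Db, Finset.sdiff_self, Finset.sum_empty]
    · refine (hF' k (s k) τ σ hP f L hf hL).trans ((cur_Db _ _ _ _ _).trans
        (Db_congr fun j hj => ?_))
      obtain ⟨⟨-, -, -, e1⟩, -, -, -, e2⟩ := hP.faces h.inv.cxA hj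
      rw [show σ.card - (insert j τ).card = k by omega, show (σ.erase j).card - τ.card = k by omega]
      exact ⟨rfl, rfl⟩

theorem exists_lev (h : Γ.Std) (hγ : Γ.Cube γ) : ∃ a' b', Γ.Lev γ a' b' := by
  have hρ : Continuous Γ.ρ :=
    continuous_iff_continuousAt.2 fun z => h.std.bas.sm_cont _ z (Γ.nbh.sm z)
  have hab := Γ.nbh.lt
  obtain ⟨F, hF⟩ := h.inv.orb.fin
  have h1 : ∀ᶠ t in 𝓝 Γ.a, ∀ σ ∈ F, ∀ τ ∈ σ.powerset, ∀ q ∈ (γ τ σ).support, σ ∈ Γ.𝒜 →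
      τ.Nonempty → ∀ z ∈ tsupport q.1, t < Γ.ρ z := by
    simp only [Filter.eventually_all_finset, Filter.eventually_imp_distrib_left]
    intro σ _ τ hτ q hq k1 k2
    obtain ⟨k3, k4, -⟩ := hγ.mem σ k1 τ (Finset.mem_powerset.1 hτ) k2 q hq
    obtain ⟨l, hl⟩ := k2
    obtain ⟨t, k5, k6⟩ := IsCompact.exists_forall_le' k3.2 hρ.continuousOn (a := Γ.a) fun z hz =>
      (Γ.V_cov.le (mem_iUnion.2 ⟨l, mem_iInter₂.1 (car_sub _ _ (k4 hz)) l hl⟩) :)
    exact (eventually_lt_nhds k5).mono fun _ k z hz => k.trans_le (k6 z hz)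
  have h2 : ∀ᶠ t in 𝓝 Γ.b, ∀ σ ∈ F, ∀ τ ∈ σ.powerset, ∀ q ∈ (γ τ σ).support, σ ∈ Γ.𝒜 →
      τ.Nonempty → σ ∈ Γ.ℬ → ∀ z ∈ tsupport q.1, Γ.ρ z < t := by
    simp only [Filter.eventually_all_finset, Filter.eventually_imp_distrib_left]
    intro σ _ τ hτ q hq k1 k2 k0
    obtain ⟨k3, k4, -⟩ := hγ.mem σ k1 τ (Finset.mem_powerset.1 hτ) k2 q hq
    rw [Geo.car, if_pos k0] at k4
    obtain ⟨t, k5, k6⟩ := IsCompact.exists_forall_le' k3.2 hρ.neg.continuousOn (a := -Γ.b)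
      fun z hz => neg_lt_neg (k4 hz).2
    exact (eventually_gt_nhds (neg_lt.1 k5)).mono fun _ k z hz => (le_neg.1 (k6 z hz)).trans_lt k
  obtain ⟨a', k1, k2, k3⟩ := ((h1.filter_mono nhdsWithin_le_nhds).and
    (Ioo_mem_nhdsGT (show Γ.a < (Γ.a + Γ.b) / 2 by linarith))).exists
  obtain ⟨b', k4, k5, k6⟩ := ((h2.filter_mono nhdsWithin_le_nhds).and
    (Ioo_mem_nhdsLT (show (Γ.a + Γ.b) / 2 < Γ.b by linarith))).exists
  refine ⟨a', b', k2, k3.trans k5, k6, fun σ hσ τ e1 e2 q hq z hz => ?_⟩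
  obtain ⟨g, σ, k7, rfl⟩ := hF σ hσ
  obtain ⟨τ, rfl⟩ := MulAction.surjective g τ
  rw [h.inv.cxA.smul_iff] at hσ
  rw [Finset.smul_finset_subset_smul_finset_iff] at e1
  rw [Finset.smul_finset_nonempty] at e2
  rw [hγ.eqv σ hσ τ e1 e2] at hq
  have e3 := Finset.mem_powerset.2 e1
  obtain ⟨w, hw, rfl⟩ := (h.inv.In g {z | a' < Γ.ρ z ∧ (σ ∈ Γ.ℬ → Γ.ρ z < b')} _ _ (fun q hq =>
    ⟨(hγ.mem σ hσ τ e1 e2 q hq).1, fun z hz => ⟨k1 σ k7 τ e3 q hq hσ e2 z hz,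
      fun k => k4 σ k7 τ e3 q hq hσ e2 k z hz⟩, (hγ.mem σ hσ τ e1 e2 q hq).2.2⟩) q hq).2.1 hz
  rwa [Γ.ρ_sm, h.inv.cxB.smul_iff]

end PCube

variable {G Z : Type} [Group G] [TopologicalSpace Z] [T2Space Z] [MulAction G Z]
  [MeasurableSpace Z] [BorelSpace Z] {m n : ℕ} {Γ : Geo G Z m n}

theorem cube (h : Γ.Std) (hp : Γ.A.Plz) : Γ.CubeE := by
  obtain ⟨γ, hγ⟩ := PCube.exists_cube h hp
  obtain ⟨a', b', k⟩ := PCube.exists_lev h hγ
  exact ⟨γ, a', b', hγ, k⟩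

end Pool.Agent.Lib.MP_356dfe_ag.S
end
end

-- part Pool.Agent.Lib.MP_356dfe_ag.S.PZC
section

/-! The pairing of cycles and cocycles. -/

set_option autoImplicit false

open Set Filter Topology Metric MeasureTheory
open scoped ContDiff ComplexConjugate Matrix Pointwise

noncomputable section

namespace Pool.Agent.Lib.MP_356dfe_ag.S

namespace PZC

section Sums

variable {α β : Type}

theorem sq_add {f g : α → ℝ} (hf : Summable fun a => f a ^ 2) (hg : Summable fun a => g a ^ 2) :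
    Summable fun a => (f a + g a) ^ 2 :=
  Summable.of_nonneg_of_le (fun _ => sq_nonneg _)
    (fun a => by nlinarith [sq_nonneg (f a - g a)]) ((hf.mul_left 2).add (hg.mul_left 2))

theorem sq_mul {f : α → ℝ} (hf : Summable fun a => f a ^ 2) (t : ℝ) :
    Summable fun a => (t * f a) ^ 2 := by
  simpa only [mul_pow] using hf.mul_left (t ^ 2)

theorem sq_sum (s : Finset β) {f : β → α → ℝ} (hf : ∀ b ∈ s, Summable fun a => f b a ^ 2) :
    Summable fun a => (∑ b ∈ s, f b a) ^ 2 := by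
  classical
  induction s using Finset.induction_on with
  | empty => simp
  | insert b s hb ih =>
    simp only [Finset.sum_insert hb]
    exact sq_add (hf b (Finset.mem_insert_self _ _))
      (ih fun b' hb' => hf b' (Finset.mem_insert_of_mem hb'))

theorem abs_mul_le (x y : ℝ) : |x * y| ≤ x ^ 2 + y ^ 2 := by
  rw [abs_le]
  constructor <;> nlinarith [sq_nonneg (x + y), sq_nonneg (x - y)]

theorem sum_mul {f g : α → ℝ} (hf : Summable fun a => f a ^ 2) (hg : Summable fun a => g a ^ 2) :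
    Summable fun a => f a * g a :=
  Summable.of_norm_bounded (hf.add hg) fun _ => abs_mul_le _ _

/-- a summable family repeated a bounded number of times is summable -/
theorem sum_fib [DecidableEq β] {f : α → ℝ} (hf : Summable f) (h0 : ∀ a, 0 ≤ f a)
    (s : α → Finset β) (C : ℕ) (hC : ∀ a, f a ≠ 0 → (s a).card ≤ C) :
    Summable fun p : α × β => if p.2 ∈ s p.1 then f p.1 else 0 := by
  have key : ∀ a, HasSum (fun b => if b ∈ s a then f a else 0) ((s a).card * f a) := by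
    intro a
    have := hasSum_sum_of_ne_finset_zero (L := SummationFilter.unconditional β) (s := s a)
      (f := fun b => if b ∈ s a then f a else 0) fun b hb => if_neg hb
    rwa [Finset.sum_congr rfl fun b hb => if_pos hb, Finset.sum_const, nsmul_eq_mul] at this
  refine (summable_prod_of_nonneg fun p => ?_).2 ⟨fun a => (key a).summable, ?_⟩
  · show 0 ≤ if p.2 ∈ s p.1 then f p.1 else 0
    split_ifs
    exacts [h0 _, le_rfl]
  · simp only [fun a => (key a).tsum_eq]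
    refine Summable.of_nonneg_of_le (fun a => mul_nonneg (Nat.cast_nonneg _) (h0 a)) (fun a => ?_)
      (hf.mul_left (C : ℝ))
    by_cases h : f a = 0
    · simp [h]
    · exact mul_le_mul_of_nonneg_right (by exact_mod_cast hC a h) (h0 a)

/-- summability along orbits gives summability -/
theorem sum_orb {G : Type} [Group G] [MulAction G α] {𝒮 : Set α} (h : Orb G 𝒮) {f : α → ℝ}
    (h0 : ∀ a, 0 ≤ f a) (hf : ∀ a ∈ 𝒮, Summable fun g : G => f (g • a)) :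
    Summable (𝒮.indicator f) := by
  classical
  obtain ⟨F, hF⟩ := h.fin
  have key : ∀ a ∈ F.filter (· ∈ 𝒮), Summable ((range fun g : G => g • a).indicator f) := by
    intro a ha
    have ha' : a ∈ 𝒮 := (Finset.mem_filter.1 ha).2
    have hinj : Function.Injective fun g : G => g • a := fun g g' e => by
      have e' : g • a = g' • a := e
      have := h.free a ha' (g'⁻¹ * g) (by rw [mul_smul, e', inv_smul_smul])
      exact (inv_mul_eq_one.1 this).symm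
    refine (hinj.summable_iff fun x hx => indicator_of_notMem hx f).1 ((hf a ha').congr fun g => ?_)
    exact (indicator_of_mem (mem_range_self (f := fun g : G => g • a) g) f).symm
  refine Summable.of_nonneg_of_le (fun a => indicator_nonneg (fun a _ => h0 a) a) (fun a => ?_)
    (summable_sum key)
  by_cases ha : a ∈ 𝒮
  · obtain ⟨g, j, hj, rfl⟩ := hF a ha
    have hj' : j ∈ 𝒮 := by simpa using h.inv _ ha g⁻¹
    rw [indicator_of_mem ha]
    refine le_trans ?_ (Finset.single_le_sum (f := fun a => (range fun g : G => g • a).indicator f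
      (g • j)) (fun a _ => indicator_nonneg (fun a _ => h0 a) _) (Finset.mem_filter.2 ⟨hj, hj'⟩))
    exact (indicator_of_mem (mem_range_self (f := fun g : G => g • j) g) f).ge
  · rw [indicator_of_notMem ha]
    exact Finset.sum_nonneg fun a _ => indicator_nonneg (fun a _ => h0 a) _

variable [DecidableEq α]

theorem sum_sdiff (σ : Finset α) (k : ℕ) (f : Finset α → α → ℝ) :
    ∑ τ ∈ σ.powersetCard k, ∑ i ∈ σ \ τ, f τ i =
      ∑ i ∈ σ, ∑ τ ∈ (σ.erase i).powersetCard k, f τ i := by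
  refine Finset.sum_comm' fun τ i => ?_
  simp only [Finset.mem_powersetCard, Finset.mem_sdiff, Finset.subset_erase]
  tauto

theorem sum_ins (σ : Finset α) (k : ℕ) (f : Finset α → α → ℝ) :
    ∑ τ ∈ σ.powersetCard k, ∑ i ∈ σ \ τ, f τ i =
      ∑ τ ∈ σ.powersetCard (k + 1), ∑ i ∈ τ, f (τ.erase i) i := by
  rw [sum_sdiff, Finset.sum_comm' (s := σ.powersetCard (k + 1)) (t := fun τ => τ) (t' := σ)
    (s' := fun i => (σ.powersetCard (k + 1)).filter fun τ => i ∈ τ) fun τ i => by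
      simp only [Finset.mem_powersetCard, Finset.mem_filter]
      exact ⟨fun h => ⟨h, h.1.1 h.2⟩, fun h => h.1⟩]
  refine Finset.sum_congr rfl fun i hi => ?_
  refine Finset.sum_nbij' (fun τ => insert i τ) (fun τ => τ.erase i) ?_ ?_ ?_ ?_ ?_
  · intro τ hτ
    simp only [Finset.mem_powersetCard, Finset.subset_erase, Finset.mem_filter] at hτ ⊢
    exact ⟨⟨Finset.insert_subset hi hτ.1.1, by rw [Finset.card_insert_of_notMem hτ.1.2, hτ.2]⟩,
      Finset.mem_insert_self _ _⟩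
  · intro τ hτ
    simp only [Finset.mem_powersetCard, Finset.mem_filter] at hτ ⊢
    exact ⟨Finset.erase_subset_erase i hτ.1.1, by rw [Finset.card_erase_of_mem hτ.2, hτ.1.2]; rfl⟩
  · intro τ hτ
    simp only [Finset.mem_powersetCard, Finset.subset_erase] at hτ
    exact Finset.erase_insert hτ.1.2
  · intro τ hτ
    exact Finset.insert_erase (Finset.mem_filter.1 hτ).2
  · intro τ hτ
    simp only [Finset.mem_powersetCard, Finset.subset_erase] at hτ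
    rw [Finset.erase_insert hτ.1.2]

theorem sum_smul {G : Type} [Group G] [MulAction G α] (g : G) (σ : Finset α) (k : ℕ)
    (f : Finset α → ℝ) :
    ∑ τ ∈ (g • σ).powersetCard k, f τ = ∑ τ ∈ σ.powersetCard k, f (g • τ) := by
  symm
  refine Finset.sum_nbij' (fun τ => g • τ) (fun τ => g⁻¹ • τ) ?_ ?_ ?_ ?_ ?_
  · intro τ hτ
    simpa only [Finset.mem_powersetCard, Finset.smul_finset_subset_smul_finset_iff,
      Finset.card_smul_finset] using hτ
  · intro τ hτ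
    simp only [Finset.mem_powersetCard, Finset.card_smul_finset] at hτ ⊢
    refine ⟨(Finset.smul_finset_subset_smul_finset_iff (a := g)).1 ?_, hτ.2⟩
    rw [smul_inv_smul]
    exact hτ.1
  · exact fun τ _ => inv_smul_smul g τ
  · exact fun τ _ => smul_inv_smul g τ
  · exact fun τ _ => rfl

/-- adding or removing a vertex -/
def tog (p : Finset α × α) : Finset α × α :=
  (if p.2 ∈ p.1 then p.1.erase p.2 else insert p.2 p.1, p.2)

theorem tog_tog : Function.Involutive (tog (α := α)) := by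
  rintro ⟨s, i⟩
  by_cases h : i ∈ s
  · simp [tog, h]
  · simp [tog, h]

end Sums

section Adj

variable {G : Type} [Group G] {n : ℕ} {𝒜 : Set (Finset (Vx G n))}

theorem nb_bdd (h : Cx 𝒜) (ho : Orb G 𝒜) : ∃ C : ℕ, ∀ τ ∈ 𝒜, (nb 𝒜 τ).card ≤ C := by
  obtain ⟨F, hF⟩ := ho.fin
  refine ⟨F.sup fun τ => (nb 𝒜 τ).card, fun τ hτ => ?_⟩
  obtain ⟨g, j, hj, rfl⟩ := hF τ hτ
  rw [h.nb_smul g (Finset.smul_finset_nonempty.1 (h.ne _ hτ)), Finset.card_smul_finset]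
  exact Finset.le_sup (f := fun τ => (nb 𝒜 τ).card) hj

/-- the boundary is adjoint to the coboundary -/
theorem adj (h : Cx 𝒜) (ho : Orb G 𝒜) {z R : Finset (Vx G n) → ℝ} (hz : ∀ σ, z σ ≠ 0 → σ ∈ 𝒜)
    (hz2 : Summable fun σ => z σ ^ 2) (hR : ∀ τ, R τ ≠ 0 → τ ∈ 𝒜)
    (hR2 : Summable fun τ => R τ ^ 2) (h0 : ∀ τ ∈ 𝒜, bdy 𝒜 z τ * R τ = 0) :
    HasSum (fun σ => z σ * cob R σ) 0 := by
  obtain ⟨C, hC⟩ := nb_bdd h ho
  let u : Finset (Vx G n) × Vx G n → ℝ := fun p =>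
    if p.2 ∈ p.1 then z p.1 * (sg p.2 p.1 * R (p.1.erase p.2)) else 0
  have hA := sum_fib hz2 (fun _ => sq_nonneg _) (fun σ => σ) n fun σ hσ =>
    h.card_le (hz σ (pow_ne_zero_iff two_ne_zero |>.1 hσ))
  have hB := sum_fib hR2 (fun _ => sq_nonneg _) (nb 𝒜) C fun τ hτ =>
    hC τ (hR τ (pow_ne_zero_iff two_ne_zero |>.1 hτ))
  have hB' := (tog_tog.toPerm _).summable_iff.2 hB
  have hu : Summable u := by
    refine Summable.of_norm_bounded (hA.add hB') ?_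
    rintro ⟨σ, i⟩
    by_cases hi : i ∈ σ
    · have e : tog (σ, i) = (σ.erase i, i) := by simp [tog, hi]
      simp only [u, Function.comp_apply, Function.Involutive.coe_toPerm, e, if_pos hi,
        Real.norm_eq_abs]
      by_cases h1 : z σ = 0
      · simp only [h1, zero_mul, abs_zero]
        positivity
      by_cases h2 : R (σ.erase i) = 0
      · simp only [h2, mul_zero, abs_zero]
        positivity
      rw [if_pos ((h.mem_nb (h.ne _ (hR _ h2))).2 ⟨Finset.notMem_erase i σ, by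
        rw [Finset.insert_erase hi]; exact hz σ h1⟩), abs_mul, abs_mul, abs_sg, one_mul, ← abs_mul]
      exact abs_mul_le _ _
    · simp only [u, if_neg hi, norm_zero, Function.comp_apply]
      positivity
  have h1 : HasSum (fun σ => z σ * cob R σ) (∑' p, u p) := by
    refine hu.hasSum.prod_fiberwise fun σ => ?_
    have := hasSum_sum_of_ne_finset_zero (L := SummationFilter.unconditional _) (s := σ)
      (f := fun i => u (σ, i)) fun i hi => if_neg hi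
    rw [Finset.sum_congr rfl fun i hi => if_pos hi] at this
    rw [cob, Finset.mul_sum]
    exact this
  have h2 : HasSum (fun _ : Finset (Vx G n) => (0 : ℝ)) (∑' p, u p) := by
    refine ((tog_tog.toPerm _).hasSum_iff.2 hu.hasSum).prod_fiberwise fun τ => ?_
    have e : ∀ j, u (tog (τ, j)) =
        if j ∈ τ then 0 else sg j (insert j τ) * z (insert j τ) * R τ := by
      intro j
      by_cases hj : j ∈ τ
      · simp [u, tog, hj]
      · simp only [u, tog, if_neg hj, Finset.mem_insert_self, if_true, Finset.erase_insert hj]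
        ring
    simp only [Function.comp_apply, Function.Involutive.coe_toPerm, e]
    by_cases h3 : R τ = 0
    · simp [h3]
    have hτ := hR τ h3
    have := hasSum_sum_of_ne_finset_zero (L := SummationFilter.unconditional _) (s := nb 𝒜 τ)
      (f := fun j => if j ∈ τ then 0 else sg j (insert j τ) * z (insert j τ) * R τ) fun j hj => by
        by_cases hj' : j ∈ τ
        · exact if_pos hj'
        · rw [if_neg hj', by_contra fun h4 => hj ((h.mem_nb (h.ne τ hτ)).2 ⟨hj', hz _ h4⟩),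
            mul_zero, zero_mul]
    rwa [Finset.sum_congr rfl fun j hj => if_neg ((h.mem_nb (h.ne τ hτ)).1 hj).1,
      ← Finset.sum_mul, show ∑ j ∈ nb 𝒜 τ, sg j (insert j τ) * z (insert j τ) = bdy 𝒜 z τ from rfl,
      h0 τ hτ] at this
  rwa [← hasSum_zero.unique h2] at h1

variable {X : Type} {ψ : Vx G n → X → ℝ} {c : Finset (Vx G n) → ℝ}

/-- a current as a functional on lists -/
def un (T : (X → ℝ) → List (X → ℝ) → ℝ) (L : List (X → ℝ)) : ℝ := T (L.headD 0) L.tail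

omit [Group G] in
theorem Pr_un (k : ℕ) (τ : Finset (Vx G n)) (T : (X → ℝ) → List (X → ℝ) → ℝ) :
    Pr 𝒜 ψ c (k + 1) τ (un T) =
      ∑ j ∈ nb 𝒜 τ, sg j (insert j τ) * Pr 𝒜 ψ c k (insert j τ) (T (ψ j)) := rfl

omit [Group G] in
theorem Pr_lin {ι : Type} (s : Finset ι) (t t' : ι → ℝ) (k : ℕ) (τ : Finset (Vx G n))
    (F F' : ι → List (X → ℝ) → ℝ) :
    Pr 𝒜 ψ c k τ (fun L => ∑ i ∈ s, (t i * F i L + t' i * F' i L)) =
      ∑ i ∈ s, (t i * Pr 𝒜 ψ c k τ (F i) + t' i * Pr 𝒜 ψ c k τ (F' i)) := by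
  simp only [Finset.sum_add_distrib]
  rw [Pr_add]
  exact congrArg₂ (· + ·) (Pr_sum s t k τ F) (Pr_sum s t' k τ F')

/-- a current multiplied by a function -/
theorem cur_mul [TopologicalSpace X] {𝒮 : Set (X → ℝ)} (h𝒮 : Cls 𝒮) {K : Set X}
    {T : (X → ℝ) → List (X → ℝ) → ℝ} (hT : Cur 𝒮 K T) {φ : X → ℝ} (hφ : φ ∈ 𝒮) :
    Cur 𝒮 (K ∩ tsupport φ) fun f L => T (φ * f) L where
  add f hf f' hf' L hL := by
    rw [mul_add]
    exact hT.add _ (h𝒮.mul _ hφ _ hf) _ (h𝒮.mul _ hφ _ hf') L hL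
  slot f hf := hT.slot _ (h𝒮.mul _ hφ _ hf)
  nul f hf L hL hN := hT.nul _ (h𝒮.mul _ hφ _ hf) L hL fun x hx => by
    by_cases h : x ∈ tsupport φ
    · rcases hN x ⟨hx, h⟩ with h1 | h1
      · exact Or.inl (h1.mono fun w hw => by simp [hw])
      · exact Or.inr h1
    · exact Or.inl ((notMem_tsupport_iff_eventuallyEq.1 h).mono fun w hw => by
        simp [show φ w = 0 from hw])

end Adj

variable {G Z : Type} [Group G] [TopologicalSpace Z] [MulAction G Z]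
  [MeasurableSpace Z] {m n : ℕ} {Γ : Geo G Z m n}
  {γ : Finset (Vx G n) → Finset (Vx G n) → FF Z} {a' b' a₀ : ℝ} {ψ : Vx G n → Z → ℝ}
  {c : Finset (Vx G n) → ℝ} {q : ℕ}

/-- the support of a formal form -/
def sp (ξ : FF Z) : Set Z := ⋃ p ∈ ξ.support, tsupport p.1

/-- the correction cochain -/
def RR (Γ : Geo G Z m n) (γ : Finset (Vx G n) → Finset (Vx G n) → FF Z) (ψ : Vx G n → Z → ℝ)
    (c : Finset (Vx G n) → ℝ) (q : ℕ) (σ : Finset (Vx G n)) : ℝ :=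
  ∑ k ∈ Finset.range q, (-1) ^ (k + 1) *
    ∑ τ ∈ σ.powersetCard (q - k), Pr Γ.𝒜 ψ c (k + 1) τ (un (Γ.A.cur (γ τ σ)))

theorem sp_car (hγ : Γ.Cube γ) {σ τ : Finset (Vx G n)} (hσ : σ ∈ Γ.𝒜) (h : τ ⊆ σ)
    (hτ : τ.Nonempty) : sp (γ τ σ) ⊆ Γ.car τ σ :=
  iUnion₂_subset fun p hp => (hγ.mem σ hσ τ h hτ p hp).2.1

theorem sp_sub (hγ : Γ.Cube γ) (hL : Γ.Lev γ a' b') (ha : a₀ ≤ a') {σ τ : Finset (Vx G n)}
    (hσ : σ ∈ Γ.𝒜) (h : τ ⊆ σ) (hτ : τ.Nonempty) :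
    sp (γ τ σ) ⊆ VV Γ.V τ ∩ {z | a₀ < Γ.ρ z} := by
  refine subset_inter ((sp_car hγ hσ h hτ).trans ?_) (iUnion₂_subset fun p hp z hz =>
    lt_of_le_of_lt ha (hL.2.2.2 σ hσ τ h hτ p hp z hz).1)
  unfold Geo.car
  split_ifs
  exacts [inter_subset_left, subset_rfl]

omit [MeasurableSpace Z] in
theorem sm_map (hψ : Γ.Part a₀ ψ) (js : List (Vx G n)) : ∀ p ∈ js.map ψ, Γ.A.SM p := by
  intro p hp
  obtain ⟨j, -, rfl⟩ := List.mem_map.1 hp
  exact (hψ.1 j).1.1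

/-- one step of the zigzag -/
theorem step (h : Γ.Std) (hγ : Γ.Cube γ) (hL : Γ.Lev γ a' b') (ha : a₀ ≤ a') (hψ : Γ.Part a₀ ψ)
    (hZ : Zig {U | Γ.A.SM U} Γ.𝒜 Γ.V ψ {z | a₀ < Γ.ρ z} c q) {σ : Finset (Vx G n)}
    (hσ : σ ∈ Γ.𝒜) (hq : σ.card = q + 1) {k : ℕ} (hk : k < q) :
    ∑ τ ∈ σ.powersetCard (q - k), Pr Γ.𝒜 ψ c (k + 1) τ (Γ.A.cur (γ τ σ) 1) =
      ∑ τ ∈ σ.powersetCard (q - k + 1), Pr Γ.𝒜 ψ c k τ (Γ.A.cur (γ τ σ) 1) +
        ∑ i ∈ σ, sg i σ * ((-1) ^ (k + 1) * ∑ τ ∈ (σ.erase i).powersetCard (q - k),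
          Pr Γ.𝒜 ψ c (k + 1) τ (un (Γ.A.cur (γ τ (σ.erase i))))) := by
  have h1 : ∀ τ ∈ σ.powersetCard (q - k), Pr Γ.𝒜 ψ c (k + 1) τ (Γ.A.cur (γ τ σ) 1) =
      ∑ i ∈ σ \ τ, (sg i (insert i τ) * Pr Γ.𝒜 ψ c (k + 1) τ (un (Γ.A.cur (γ (insert i τ) σ))) +
        (-1) ^ (k + 1) * sg i σ * Pr Γ.𝒜 ψ c (k + 1) τ (un (Γ.A.cur (γ τ (σ.erase i))))) := by
    intro τ hτ
    obtain ⟨h1, h2⟩ := Finset.mem_powersetCard.1 hτ
    rw [← Pr_lin]
    refine Pr_congr _ _ fun js hjs => ?_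
    obtain _ | ⟨j, js⟩ := js
    · simp at hjs
    · have := hγ.bd σ hσ τ h1 (Finset.card_pos.1 (by omega)) (ψ j) (js.map ψ) (hψ.1 j).1.1
        (sm_map hψ js)
      rw [show σ.card - τ.card = k + 1 by omega] at this
      exact this
  rw [Finset.sum_congr rfl h1]
  simp only [Finset.sum_add_distrib]
  congr 1
  · rw [sum_ins σ (q - k) fun τ i =>
      sg i (insert i τ) * Pr Γ.𝒜 ψ c (k + 1) τ (un (Γ.A.cur (γ (insert i τ) σ)))]
    refine Finset.sum_congr rfl fun τ hτ => ?_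
    obtain ⟨h1, h2⟩ := Finset.mem_powersetCard.1 hτ
    have hne : τ.Nonempty := Finset.card_pos.1 (by omega)
    rw [← hZ.hom k τ (h.inv.cxA.down σ hσ τ h1 hne) (by omega) (by omega) _ _
      (h.evl.cur _ _ _ (hγ.mem σ hσ τ h1 hne)) (sp_sub hγ hL ha hσ h1 hne)]
    refine Finset.sum_congr rfl fun i hi => ?_
    rw [Finset.insert_erase hi, Pr_un]
  · rw [sum_sdiff σ (q - k) fun τ i =>
      (-1) ^ (k + 1) * sg i σ * Pr Γ.𝒜 ψ c (k + 1) τ (un (Γ.A.cur (γ τ (σ.erase i))))]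
    refine Finset.sum_congr rfl fun i _ => ?_
    rw [← Finset.mul_sum]
    ring

/-- the end of the zigzag -/
theorem last (h : Γ.Std) (hγ : Γ.Cube γ) (hL : Γ.Lev γ a' b') (ha : a₀ ≤ a') (hψ : Γ.Part a₀ ψ)
    (hZ : Zig {U | Γ.A.SM U} Γ.𝒜 Γ.V ψ {z | a₀ < Γ.ρ z} c q) {σ : Finset (Vx G n)}
    (hσ : σ ∈ Γ.𝒜) : GW Γ.𝒜 ψ c q (Γ.A.cur (Gam γ σ)) =
      ∑ τ ∈ σ.powersetCard 1, Pr Γ.𝒜 ψ c q τ (Γ.A.cur (γ τ σ) 1) := by
  have hm : ∀ i ∈ σ, Γ.A.In _ _ (γ {i} σ) := fun i hi =>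
    hγ.mem σ hσ {i} (Finset.singleton_subset_iff.2 hi) (Finset.singleton_nonempty i)
  have h1 : ∀ l, Pr Γ.𝒜 ψ c q {l} (Γ.A.cur (Gam γ σ) (ψ l)) =
      ∑ i ∈ σ, Pr Γ.𝒜 ψ c q {l} (Γ.A.cur (γ {i} σ) (ψ l)) := by
    intro l
    have := Pr_sum (𝒜 := Γ.𝒜) (ψ := ψ) (c := c) σ (fun _ => 1) q {l}
      fun i => Γ.A.cur (γ {i} σ) (ψ l)
    simp only [one_smul] at this
    rw [← this]
    refine congrArg _ (funext fun L => ?_)
    exact map_sum (Γ.A.evL (ψ l) (L.map Γ.A.d)) (fun i => γ {i} σ) σ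
  rw [Finset.powersetCard_one, Finset.sum_map, GW]
  simp only [h1]
  rw [finsum_sum_comm]
  · refine Finset.sum_congr rfl fun i hi => hZ.one i _ _ (h.evl.cur _ _ _ (hm i hi)) ?_
    have := sp_sub hγ hL ha hσ (Finset.singleton_subset_iff.2 hi) (Finset.singleton_nonempty i)
    simpa only [VV, sp, Finset.mem_singleton, iInter_iInter_eq_left] using this
  · intro i hi
    have hK : IsCompact (sp (γ {i} σ)) :=
      (γ {i} σ).support.isCompact_biUnion fun p hp => (hm i hi p hp).1.2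
    refine (h.inv.lfV _ hK).subset fun l hl => ?_
    by_contra hne
    refine hl (Pr_zero _ _ fun js _ => (h.evl.cur _ _ _ (hm i hi)).nul _ (hψ.1 l).1.1 _
      (sm_map hψ js) fun x hx => Or.inl (notMem_tsupport_iff_eventuallyEq.1 fun hx' => hne ?_))
    exact ⟨x, (hψ.1 l).2 hx', hx⟩

/-- the value on a simplex -/
theorem value (h : Γ.Std) (hγ : Γ.Cube γ) (hL : Γ.Lev γ a' b') (ha : a₀ ≤ a') (hψ : Γ.Part a₀ ψ)
    (hZ : Zig {U | Γ.A.SM U} Γ.𝒜 Γ.V ψ {z | a₀ < Γ.ρ z} c q) {σ : Finset (Vx G n)}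
    (hσ : σ ∈ Γ.𝒜) (hq : σ.card = q + 1) :
    GW Γ.𝒜 ψ c q (Γ.A.cur (Gam γ σ)) = c σ + cob (RR Γ γ ψ c q) σ := by
  have key : ∀ k ≤ q, ∑ τ ∈ σ.powersetCard (q - k + 1), Pr Γ.𝒜 ψ c k τ (Γ.A.cur (γ τ σ) 1) =
      c σ + ∑ k' ∈ Finset.range k, ∑ i ∈ σ, sg i σ * ((-1) ^ (k' + 1) *
        ∑ τ ∈ (σ.erase i).powersetCard (q - k'),
          Pr Γ.𝒜 ψ c (k' + 1) τ (un (Γ.A.cur (γ τ (σ.erase i))))) := by
    intro k
    induction k with
    | zero =>
      intro _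
      rw [Nat.sub_zero, ← hq, Finset.powersetCard_self, Finset.sum_singleton]
      simp [Pr, hγ.one σ hσ]
    | succ k ih =>
      intro hk
      rw [show q - (k + 1) + 1 = q - k by omega, step h hγ hL ha hψ hZ hσ hq hk, ih (by omega),
        Finset.sum_range_succ, add_assoc]
  have := key q le_rfl
  rw [Nat.sub_self, Nat.zero_add] at this
  rw [last h hγ hL ha hψ hZ hσ, this, Finset.sum_comm]
  simp only [cob, RR, Finset.mul_sum]

/-- the correction vanishes on the collar -/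
theorem RR_van (h : Γ.Std) (hγ : Γ.Cube γ) (hψ : Γ.Part a₀ ψ)
    (hZ : Zig {U | Γ.A.SM U} Γ.𝒜 Γ.V ψ {z | a₀ < Γ.ρ z} c q) (hc : ∀ σ ∈ Γ.ℬ, c σ = 0)
    {σ : Finset (Vx G n)} (hσ : σ ∈ Γ.𝒜) (hB : σ ∈ Γ.ℬ) : RR Γ γ ψ c q σ = 0 := by
  refine Finset.sum_eq_zero fun k hk => mul_eq_zero_of_right _ (Finset.sum_eq_zero fun τ hτ => ?_)
  obtain ⟨h1, h2⟩ := Finset.mem_powersetCard.1 hτ
  have hk' := Finset.mem_range.1 hk
  have hne : τ.Nonempty := Finset.card_pos.1 (by omega)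
  have hs := sp_car hγ hσ h1 hne
  rw [Geo.car, if_pos hB] at hs
  rw [Pr_un]
  refine Finset.sum_eq_zero fun j _ => mul_eq_zero_of_right _ ?_
  have := (hZ.van {z | Γ.ρ z < Γ.b} (fun s h3 h4 => hc s ⟨h3, h4⟩) _ _
    (cur_mul h.evl.cls (h.evl.cur _ _ _ (hγ.mem σ hσ τ h1 hne)) (hψ.1 j).1.1)
    fun x hx => (hs hx.1).2).1 k (insert j τ) (Finset.insert_nonempty _ _) (fun x hx => by
      simp only [VV, mem_iInter, Finset.mem_insert]
      rintro l (rfl | hl)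
      · exact (hψ.1 l).2 hx.2
      · exact mem_iInter₂.1 (hs hx.1).1 l hl) 1 h.evl.cls.one
  simpa only [mul_one] using this

/-- the correction is square summable along orbits -/
theorem RR_orb (h : Γ.Std) (hγ : Γ.Cube γ) (hψ : Γ.Part a₀ ψ) (hc : ∀ σ, c σ ≠ 0 → σ ∈ Γ.𝒜)
    (hc2 : Summable fun σ => c σ ^ 2) {σ : Finset (Vx G n)} (hσ : σ ∈ Γ.𝒜) :
    Summable fun g : G => RR Γ γ ψ c q (g • σ) ^ 2 := by
  have hcg : ∀ s, Summable fun g : G => c (g • s) ^ 2 := by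
    intro s
    by_cases hs : s ∈ Γ.𝒜
    · refine hc2.comp_injective (i := fun g : G => g • s) fun g g' e => ?_
      have e' : g • s = g' • s := e
      have := h.inv.orb.free s hs (g'⁻¹ * g) (by rw [mul_smul, e', inv_smul_smul])
      exact (inv_mul_eq_one.1 this).symm
    · have : ∀ g : G, c (g • s) = 0 := fun g =>
        by_contra fun h1 => hs ((h.inv.cxA.smul_iff g).1 (hc _ h1))
      simp [this]
  refine sq_sum _ fun k hk => sq_mul ?_ _
  simp only [sum_smul]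
  refine sq_sum _ fun τ hτ => ?_
  obtain ⟨h1, h2⟩ := Finset.mem_powersetCard.1 hτ
  have hk' := Finset.mem_range.1 hk
  have hne : τ.Nonempty := Finset.card_pos.1 (by omega)
  obtain ⟨s, hs⟩ := Pr_fin (𝒜 := Γ.𝒜) (ψ := ψ) (M := ℝ) (k + 1) τ
  have e : ∀ g : G, Pr Γ.𝒜 ψ c (k + 1) (g • τ) (un (Γ.A.cur (γ (g • τ) (g • σ)))) =
      ∑ s' ∈ s, Pr Γ.𝒜 ψ (Pi.single s' 1) (k + 1) τ (un (Γ.A.cur (γ τ σ))) * c (g • s') := by
    intro g
    rw [Pr_smul h.inv.cxA g (k + 1) τ hne _ (un (Γ.A.cur (γ τ σ))), hs s subset_rfl]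
    · exact Finset.sum_congr rfl fun s' _ => mul_comm _ _
    · intro js
      rw [hγ.eqv σ hσ τ h1 hne g]
      obtain _ | ⟨j, js⟩ := js
      · exact h.invm.cur g _ _ _ 0 [] (hγ.mem σ hσ τ h1 hne) (by simp)
      · have := h.invm.cur g _ _ _ (ψ j) (js.map ψ) (hγ.mem σ hσ τ h1 hne) (sm_map hψ js)
        rw [← hψ.2.1, List.map_map, show act0 g ∘ ψ = ψ ∘ (g • ·) from
          funext fun l => (hψ.2.1 g l).symm, ← List.map_map] at this
        exact this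
  simp only [e]
  exact sq_sum _ fun s' _ => sq_mul (hcg s') _

end PZC

variable {G Z : Type} [Group G] [TopologicalSpace Z] [T2Space Z] [MulAction G Z]
  [MeasurableSpace Z] [BorelSpace Z] {m n : ℕ} {Γ : Geo G Z m n}

theorem zc (h : Γ.Std) (hz : ZZ) : Γ.ZC := by
  intro γ a' b' a₀ ψ hγ hL ha hψ q c z hc hz' hcob hb
  have hρ : Continuous Γ.ρ :=
    continuous_iff_continuousAt.2 fun x => h.std.bas.sm_cont _ x (Γ.nbh.sm x)
  have hZ := hz G Z n {U | Γ.A.SM U} Γ.𝒜 Γ.V ψ {z | a₀ < Γ.ρ z} c q h.evl.cls h.inv.cxA Γ.V_op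
    (isOpen_lt continuous_const hρ) (fun σ h1 h2 => ⟨h1, h2⟩)
    (fun l => ⟨(hψ.1 l).1.1, (hψ.1 l).2⟩) hψ.2.2 h.inv.lfV fun σ hσ _ => hcob σ hσ
  have h1 : Summable fun τ => Γ.𝒜.indicator (PZC.RR Γ γ ψ c q) τ ^ 2 := by
    refine (PZC.sum_orb h.inv.orb (f := fun τ => PZC.RR Γ γ ψ c q τ ^ 2) (fun _ => sq_nonneg _)
      fun σ hσ => PZC.RR_orb h hγ hψ (fun s hs => (hc.1 s hs).1) hc.2 hσ).congr fun τ => ?_
    by_cases hτ : τ ∈ Γ.𝒜 <;> simp [hτ]
  have h2 := PZC.adj h.inv.cxA h.inv.orb (fun σ hσ => (hz'.1 σ hσ).1) hz'.2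
    (fun τ hτ => mem_of_indicator_ne_zero hτ) h1 fun τ hτ => by
      rcases hb τ hτ with h3 | ⟨h3, h4⟩
      · rw [h3, zero_mul]
      · rw [indicator_of_mem hτ, PZC.RR_van h hγ hψ hZ h4 hτ h3, mul_zero]
  have h3 := (PZC.sum_mul hz'.2 hc.2).hasSum.add h2
  rw [add_zero] at h3
  refine h3.congr_fun fun σ => ?_
  by_cases hσ : z σ = 0
  · simp [hσ]
  obtain ⟨h4, h5⟩ := hz'.1 σ hσ
  rw [PZC.value h hγ hL ha hψ hZ h4 h5, mul_add]
  congr 2
  refine Finset.sum_congr rfl fun i hi => congrArg _ ?_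
  by_cases h6 : (σ.erase i).Nonempty
  · exact (indicator_of_mem (h.inv.cxA.down σ h4 _ (Finset.erase_subset i σ) h6) _).symm
  · have h7 : q = 0 := by
      have := Finset.card_erase_of_mem hi
      rw [Finset.not_nonempty_iff_eq_empty.1 h6, Finset.card_empty] at this
      omega
    subst h7
    refine Eq.trans ?_ (indicator_of_notMem (fun h8 => h6 (h.inv.cxA.ne _ h8)) _).symm
    simp [PZC.RR]

end Pool.Agent.Lib.MP_356dfe_ag.S
end
end
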