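import Mathlib

/-! Definitions for the surface case: flat calculus on `ℂ²`, Kaehler atlases, formal forms,
nerves, local primitive systems. -/

set_option autoImplicit false

open Set Filter Topology Metric MeasureTheory
open scoped ContDiff ComplexConjugate Matrix Pointwise

noncomputable section

namespace Pool.Agent.Lib.MP_356dfe_ag.S

/-- the model space, with the sup norm: balls are polydiscs -/
abbrev E2 : Type := Fin 2 → ℂ

/-- two by two complex matrices -/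
abbrev M2 : Type := Matrix (Fin 2) (Fin 2) ℂ

/-- the derivative in `z j` -/
def dh (f : E2 → ℂ) (x : E2) (j : Fin 2) : ℂ :=
  (fderiv ℝ f x (Pi.single j 1) - Complex.I * fderiv ℝ f x (Pi.single j Complex.I)) / 2

/-- the derivative in the conjugate of `z k` -/
def db (f : E2 → ℂ) (x : E2) (k : Fin 2) : ℂ :=
  (fderiv ℝ f x (Pi.single k 1) + Complex.I * fderiv ℝ f x (Pi.single k Complex.I)) / 2

/-- the part of type (1,0) of the differential of a real function -/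
def du (u : E2 → ℝ) (x : E2) : E2 := fun j => dh (fun y => (u y : ℂ)) x j

/-- the matrix of conjugate derivatives of a form of type (1,0) -/
def dba (a : E2 → E2) (x : E2) : M2 := Matrix.of fun j k => db (fun y => a y j) x k

/-- the Levi matrix -/
def lev (u : E2 → ℝ) (x : E2) : M2 := dba (du u) x

/-- the mixed determinant: the wedge product of two forms of type (1,1) -/
def md (S T : M2) : ℝ := (S 0 0 * T 1 1 + S 1 1 * T 0 0 - S 0 1 * T 1 0 - S 1 0 * T 0 1).re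

/-- the form of type (1,1) given by `a` and the conjugate of `b` -/
def ot (a b : E2) : M2 := Matrix.of fun j k => a j * conj (b k)

/-- the determinant of a Hermitian matrix -/
def dt (g : M2) : ℝ := md g g / 2

/-- the inner product of forms of type (1,0) -/
def n1 (g : M2) (a b : E2) : ℝ := md g (ot a b) / dt g

/-- the trace with respect to `g` -/
def tr (g S : M2) : ℝ := md g S / dt g

/-- the inner product of Hermitian forms of type (1,1) -/
def ip (g S T : M2) : ℝ := tr g S * tr g T - md S T / dt g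

/-- positive definite Hermitian matrices -/
def PD (g : M2) : Prop := g.IsHermitian ∧ 0 < (g 0 0).re ∧ 0 < dt g

/-- the complex Jacobian matrix -/
def jac (T : E2 → E2) (x : E2) : M2 := Matrix.of fun i j => fderiv ℂ T x (Pi.single j 1) i

/-- pull-back of a form of type (1,1) -/
def pull (J S : M2) : M2 := Jᵀ * S * J.map conj

/-- the real form `a + conj a` is closed -/
def C1 (a : E2 → E2) (x : E2) : Prop :=
  dh (fun y => a y 1) x 0 = dh (fun y => a y 0) x 1 ∧ (dba a x).IsHermitian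

/-- the form of type (1,1) is killed by the holomorphic derivative -/
def C2 (S : E2 → M2) (x : E2) : Prop :=
  ∀ k, dh (fun y => S y 1 k) x 0 = dh (fun y => S y 0 k) x 1

/-- the real basis of `ℂ²` -/
def bv : Fin 4 → E2 :=
  ![Pi.single 0 1, Pi.single 0 Complex.I, Pi.single 1 1, Pi.single 1 Complex.I]

/-- the real coordinates of `ℂ²` -/
def co (x : E2) : Fin 4 → ℝ := ![(x 0).re, (x 0).im, (x 1).re, (x 1).im]

/-- the real gradient -/
def gr (f : E2 → ℝ) (x : E2) : Fin 4 → ℝ := fun i => fderiv ℝ f x (bv i)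

/-- the real covector `a + conj a` -/
def rc (a : E2) : Fin 4 → ℝ := ![2 * (a 0).re, -2 * (a 0).im, 2 * (a 1).re, -2 * (a 1).im]

/-- the determinant of a list of four vectors; zero for other lengths -/
def det4 : List (Fin 4 → ℝ) → ℝ
  | [a, b, c, d] => Matrix.det (Matrix.of ![a, b, c, d])
  | _ => 0

/-- smooth functions with compact support on the model space -/
def CS (u : E2 → ℝ) : Prop := ContDiff ℝ ∞ u ∧ HasCompactSupport u

/-- the same, as a submodule -/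
def CSm : Submodule ℝ (E2 → ℝ) where
  carrier := {u | CS u}
  zero_mem' := ⟨contDiff_const, HasCompactSupport.zero⟩
  add_mem' h h' := ⟨h.1.add h'.1, h.2.add h'.2⟩
  smul_mem' c _ h := ⟨h.1.const_smul c, h.2.smul_left (f := fun _ => c)⟩

/-- convergence in square mean on compact subsets of `O` -/
def LL (O : Set E2) (b : ℕ → E2 → ℂ) (h : E2 → ℂ) : Prop := ∀ K, IsCompact K → K ⊆ O →
  Tendsto (fun n => ∫ x in K, ‖b n x - h x‖ ^ 2) atTop (𝓝 0)

/-- a combination of local arguments of the coordinates -/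
def AG (r : Fin 2 → ℝ) (s : Finset (Fin 2)) (x₀ x : E2) : ℝ :=
  ∑ k ∈ s, r k * Complex.arg (x k / x₀ k)

/-- the derivative in `w` of a real function of one complex variable -/
def d1 (V : ℂ → ℝ) (w : ℂ) : ℂ :=
  ((fderiv ℝ V w 1 : ℝ) - Complex.I * (fderiv ℝ V w Complex.I : ℝ)) / 2

/-- derivations `D`, homotopies `H` and projections `P` in four commuting variables -/
structure Kz {R : Type} [AddCommGroup R] (D H P : Fin 4 → R →+ R) : Prop where
  dh : ∀ i x, D i (H i x) = x - P i x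
  hd : ∀ i x, H i (D i x) = x
  pd : ∀ i x, P i (D i x) = 0
  dd : ∀ i j x, D i (D j x) = D j (D i x)
  dh' : ∀ i j x, i ≠ j → D i (H j x) = H j (D i x)
  dp : ∀ i j x, i ≠ j → D i (P j x) = P j (D i x)
  hp : ∀ i j x, i ≠ j → H i (P j x) = P j (H i x)
  pp : ∀ i j x, P i (P j x) = P j (P i x)

/-- the Koszul differential -/
def dK {R : Type} [AddCommGroup R] (D : Fin 4 → R →+ R) (η : Finset (Fin 4) → R)
    (S : Finset (Fin 4)) : R :=
  ∑ j ∈ S, ((-1 : ℤ) ^ (S.filter fun i => i < j).card) • D j (η (S.erase j))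

/-- formal sums of forms `h dp₁ ∧ … ∧ dpₘ` -/
abbrev FF (X : Type) : Type := ((X → ℝ) × List (X → ℝ)) →₀ ℝ

/-- the current on the model space given by a formal form -/
def fev (ξ : FF E2) (f : E2 → ℝ) (L : List (E2 → ℝ)) : ℝ :=
  ξ.sum fun q c => c * ∫ x, f x * q.1 x * det4 ((L ++ q.2).map fun g => gr g x)

/-- formal forms on the model space that give currents of dimension `k` -/
def FIn (k : ℕ) (ξ : FF E2) : Prop :=
  ∀ q ∈ ξ.support, CS q.1 ∧ q.2.length + k = 4 ∧ ∀ p ∈ q.2, ContDiff ℝ ∞ p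

/-- A Kaehler atlas of bounded geometry with a normal crossing curve `E`. -/
structure KA (Z Λ : Type) [TopologicalSpace Z] where
  m : ℕ
  ty : Λ → Fin m
  e : Λ → OpenPartialHomeomorph Z E2
  pot : Fin m → E2 → ℝ
  ph : Fin m → E2 → ℝ
  act : Fin m → Finset (Fin 2)
  E : Set Z
  tgt : ∀ l, (e l).target = ball 0 4
  an : ∀ l l' z, z ∈ (e l).source → z ∈ (e l').source →
    AnalyticAt ℂ (e l' ∘ (e l).symm) (e l z)
  pot_sm : ∀ j, ContDiffOn ℝ ∞ (pot j) (ball 0 4)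
  pos : ∀ j, ∀ x ∈ ball (0 : E2) 4, PD (lev (pot j) x)
  law : ∀ l l' z, z ∈ (e l).source → z ∈ (e l').source → lev (pot (ty l)) (e l z) =
    pull (jac (e l' ∘ (e l).symm) (e l z)) (lev (pot (ty l')) (e l' z))
  cov : ∀ z, ∃ l, z ∈ (e l).source ∧ e l z ∈ ball 0 1
  mult : ∃ k : ℕ, ∀ l, ∃ s : Finset Λ, s.card ≤ k ∧
    ∀ l', ((e l).source ∩ (e l').source).Nonempty → l' ∈ s
  ph_sm : ∀ j, ContDiff ℝ ∞ (ph j)
  ph_nn : ∀ j x, 0 ≤ ph j x
  ph_supp : ∀ j, tsupport (ph j) ⊆ ball 0 2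
  ph_sum : ∀ z, ∑ᶠ l, (e l).source.indicator (fun w => ph (ty l) (e l w)) z = 1
  hE : ∀ l, ∀ z ∈ (e l).source, z ∈ E ↔ ∃ k ∈ act (ty l), e l z k = 0
  node : ∀ l l', act (ty l) = Finset.univ → (e l).symm 0 ∈ (e l').source → l' = l
  cnt : Countable Λ

/-- forms of type (1,0), given in every chart -/
abbrev F1 (Λ : Type) : Type := Λ → E2 → E2

/-- forms of type (1,1), given in every chart -/
abbrev F2 (Λ : Type) : Type := Λ → E2 → M2

/-- the conjugate derivative -/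
def bar {Λ : Type} (a : F1 Λ) : F2 Λ := fun l => dba (a l)

/-- the product of `a` and the conjugate of `b` -/
def OT {Λ : Type} (a b : F1 Λ) : F2 Λ := fun l x => ot (a l x) (b l x)

namespace KA

variable {Z Λ : Type} [TopologicalSpace Z] (A : KA Z Λ)

/-- the domain of a chart -/
abbrev src (l : Λ) : Set Z := (A.e l).source

/-- change of charts -/
def T (l l' : Λ) : E2 → E2 := A.e l' ∘ (A.e l).symm

/-- smooth at a point -/
def Sm (U : Z → ℝ) (z : Z) : Prop :=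
  ∀ l, z ∈ A.src l → ContDiffAt ℝ ∞ (U ∘ (A.e l).symm) (A.e l z)

/-- smooth everywhere -/
def SM (U : Z → ℝ) : Prop := ∀ z, A.Sm U z

/-- smooth with compact support -/
def D (U : Z → ℝ) : Prop := A.SM U ∧ HasCompactSupport U

/-- holomorphic at a point -/
def An (h : Z → ℂ) (z : Z) : Prop :=
  ∀ l, z ∈ A.src l → DifferentiableAt ℂ (h ∘ (A.e l).symm) (A.e l z)

/-- the differential -/
def d (U : Z → ℝ) : F1 Λ := fun l => du (U ∘ (A.e l).symm)

/-- product of a function and a form -/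
def sm1 (U : Z → ℝ) (a : F1 Λ) : F1 Λ := fun l x => U ((A.e l).symm x) • a l x

/-- the Kaehler form -/
def met : F2 Λ := fun l => lev (A.pot (A.ty l))

/-- the chart expressions agree at `z` -/
def At1 (a : F1 Λ) (z : Z) : Prop := ∀ l l', z ∈ A.src l → z ∈ A.src l' →
  a l (A.e l z) = a l' (A.e l' z) ᵥ* jac (A.T l l') (A.e l z)

/-- the chart expressions agree at `z` -/
def At2 (S : F2 Λ) (z : Z) : Prop := ∀ l l', z ∈ A.src l → z ∈ A.src l' →
  S l (A.e l z) = pull (jac (A.T l l') (A.e l z)) (S l' (A.e l' z))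

/-- a smooth form at `z` -/
def S1 (a : F1 Λ) (z : Z) : Prop :=
  A.At1 a z ∧ ∀ l, z ∈ A.src l → ContDiffAt ℝ ∞ (a l) (A.e l z)

/-- a smooth form at `z` -/
def S2 (S : F2 Λ) (z : Z) : Prop :=
  A.At2 S z ∧ ∀ l, z ∈ A.src l → ∀ j k, ContDiffAt ℝ ∞ (fun x => S l x j k) (A.e l z)

/-- a smooth closed Hermitian form at `z` -/
def Cl2 (S : F2 Λ) (z : Z) : Prop :=
  A.S2 S z ∧ ∀ l, z ∈ A.src l → (S l (A.e l z)).IsHermitian ∧ C2 (S l) (A.e l z)

/-- two forms agree at `z` -/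
def Eq1 (a b : F1 Λ) (z : Z) : Prop := ∀ l, z ∈ A.src l → a l (A.e l z) = b l (A.e l z)

/-- exact near `z` -/
def Ex (a : F1 Λ) (z : Z) : Prop := ∃ U, ∀ᶠ w in 𝓝 z, A.Sm U w ∧ A.Eq1 a (A.d U) w

/-- closed holomorphic forms -/
def Hol1 (a : F1 Λ) : Prop :=
  (∀ z, A.Ex a z) ∧ ∀ l, DifferentiableOn ℂ (a l) (ball 0 4)

/-- the closed support of a form -/
def sp1 (a : F1 Λ) : Set Z := closure {z | ¬ A.Eq1 a 0 z}

/-- the closed support of a form -/
def sp2 (S : F2 Λ) : Set Z := closure {z | ∃ l, z ∈ A.src l ∧ S l (A.e l z) ≠ 0}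

/-- smooth forms with compact support -/
def D1 (a : F1 Λ) : Prop := (∀ z, A.S1 a z) ∧ IsCompact (A.sp1 a)

/-- a preferred chart -/
def i (z : Z) : Λ := (A.cov z).choose

/-- the value in the preferred chart -/
def v1 (a : F1 Λ) (z : Z) : E2 := a (A.i z) (A.e (A.i z) z)

/-- the value in the preferred chart -/
def v2 (S : F2 Λ) (z : Z) : M2 := S (A.i z) (A.e (A.i z) z)

/-- the metric in the preferred chart -/
def g (z : Z) : M2 := A.v2 A.met z

/-- wedge product divided by the volume form -/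
def W (S T : F2 Λ) (z : Z) : ℝ := md (A.v2 S z) (A.v2 T z) / dt (A.g z)

/-- inner product of forms of type (1,0) -/
def P (a b : F1 Λ) (z : Z) : ℝ := n1 (A.g z) (A.v1 a z) (A.v1 b z)

/-- square norm -/
def N (a : F1 Λ) (z : Z) : ℝ := A.P a a z

/-- trace -/
def Tr (S : F2 Λ) (z : Z) : ℝ := tr (A.g z) (A.v2 S z)

/-- square norm of a Hermitian form -/
def NN (S : F2 Λ) (z : Z) : ℝ := ip (A.g z) (A.v2 S z) (A.v2 S z)

/-- the Laplace operator -/
def L (U : Z → ℝ) (z : Z) : ℝ := A.Tr (bar (A.d U)) z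

/-- wedge product of four real forms divided by the volume form -/
def Dt (L : List (F1 Λ)) (z : Z) : ℝ := det4 (L.map fun a => rc (A.v1 a z)) / dt (A.g z)

/-- the partition of unity -/
def phi (l : Λ) (z : Z) : ℝ := (A.src l).indicator (fun w => A.ph (A.ty l) (A.e l w)) z

/-- extension by zero from a chart -/
def ext (l : Λ) (u : E2 → ℝ) (z : Z) : ℝ := (A.src l).indicator (fun w => u (A.e l w)) z

/-- the volume measure -/
def μ [MeasurableSpace Z] : Measure Z := Measure.sum fun l => Measure.map (A.e l).symm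
  ((volume.restrict (ball 0 4)).withDensity fun x =>
    ENNReal.ofReal (A.ph (A.ty l) x * dt (A.met l x)))

/-- the value at a point of a formal form wedged with `L` -/
def val (ξ : FF Z) (L : List (F1 Λ)) (z : Z) : ℝ :=
  ξ.sum fun q c => c * (q.1 z * A.Dt (L ++ q.2.map A.d) z)

/-- the current given by a formal form -/
def ev [MeasurableSpace Z] (ξ : FF Z) (f : Z → ℝ) (L : List (F1 Λ)) : ℝ :=
  ξ.sum fun q c => c * ∫ z, f z * q.1 z * A.Dt (L ++ q.2.map A.d) z ∂A.μ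

/-- the current on lists of functions -/
def cur [MeasurableSpace Z] (ξ : FF Z) (f : Z → ℝ) (L : List (Z → ℝ)) : ℝ :=
  A.ev ξ f (L.map A.d)

/-- formal forms carried by `C` that give currents of dimension `k` -/
def In (C : Set Z) (k : ℕ) (ξ : FF Z) : Prop :=
  ∀ q ∈ ξ.support, A.D q.1 ∧ tsupport q.1 ⊆ C ∧ q.2.length + k = 4 ∧ ∀ p ∈ q.2, A.SM p

/-- the one-form of a formal form of degree one -/
def th (ξ : FF Z) : F1 Λ := ξ.sum fun q c => c • A.sm1 q.1 (A.d (q.2.headD 0))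

/-- a smooth real chart -/
def RCh (κ : OpenPartialHomeomorph Z E2) : Prop := ∀ l, ∀ z ∈ κ.source, z ∈ A.src l →
  ContDiffAt ℝ ∞ (κ ∘ (A.e l).symm) (A.e l z) ∧ ContDiffAt ℝ ∞ (A.e l ∘ κ.symm) (κ z)

/-- `C` is diffeomorphic to the model space -/
def Good (C : Set Z) : Prop := ∃ κ, A.RCh κ ∧ κ.source = C ∧ κ.target = univ

/-- holomorphic functions separate every point off `E` from the points near it -/
def Sep : Prop := ∀ z ∉ A.E, ∀ᶠ z' in 𝓝 z, z' ≠ z → ∃ h, (∀ w, A.An h w) ∧ h z ≠ h z'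

/-- a holomorphic disc through `z` inside `C` -/
def Disc (C : Set Z) (z : Z) : Prop := ∃ (γ : ℂ → Z) (l : Λ), γ 0 = z ∧ z ∈ A.src l ∧
  ContinuousAt γ 0 ∧ AnalyticAt ℂ (A.e l ∘ γ) 0 ∧ (∀ᶠ t in 𝓝 0, γ t ∈ C) ∧
  ¬ ∀ᶠ t in 𝓝 0, γ t = z

/-- the branch `x k = 0` of `E` in the chart `l` -/
def br (c : Λ × Fin 2) (w : ℂ) : Z := (A.e c.1).symm (Pi.single c.2.rev w)

/-- no compact curve off `E` -/
def NoCurve : Prop :=
  ∀ C, IsCompact C → C.Nonempty → Disjoint C A.E → ¬ ∀ z ∈ C, A.Disc C z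

end KA

/-- no compact open set -/
def NoOpen (Z : Type) [TopologicalSpace Z] : Prop :=
  ∀ C : Set Z, IsCompact C → IsOpen C → C = ∅

/-- a system of local functions on `O` whose differences are locally constant -/
def LPS {Z V : Type} [TopologicalSpace Z] [Add V] (O : Set Z) (f : Z → Z → V) : Prop :=
  ∀ y ∈ O, ∀ᶠ y' in 𝓝 y, ∃ c, ∀ᶠ w in 𝓝 y', f y w = f y' w + c

/-- `F` is a primitive of the system on `O` -/
def Prim {Z V : Type} [TopologicalSpace Z] [Add V] (O : Set Z) (f : Z → Z → V) (F : Z → V) : Prop :=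
  ∀ y ∈ O, ∃ c, ∀ᶠ w in 𝓝 y, F w = f y w + c

/-- systems that are constant along `E` have global primitives -/
def SC {Z : Type} [TopologicalSpace Z] (E : Set Z) : Prop :=
  ∀ f : Z → Z → ℂ, LPS univ f → (∀ z ∈ E, ∀ᶠ w in 𝓝 z, w ∈ E → f z w = f z z) →
    ∃ F, Prim univ f F ∧ (F '' E).Countable

/-- near `z`, the cut-off function is one; it is locally constant along `E` -/
def KA.EK {Z Λ : Type} [TopologicalSpace Z] (A : KA Z Λ) : Prop :=
  ∀ z ∈ A.E, ∃ κ, A.D κ ∧ (∀ w, 0 ≤ κ w) ∧ (∀ᶠ w in 𝓝 z, κ w = 1) ∧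
    ∀ y ∈ A.E, ∀ᶠ w in 𝓝 y, κ w = κ y

/-- vertices: a group element and a type -/
def Vx (G : Type) (n : ℕ) : Type := G × Fin n

section Vx

variable {G : Type} [Group G] {n : ℕ}

instance : MulAction G (Vx G n) where
  smul g l := (g * l.1, l.2)
  one_smul l := Prod.ext (one_mul l.1) rfl
  mul_smul g h l := Prod.ext (mul_assoc g h l.1) rfl

instance : DecidableEq (Vx G n) := Classical.decEq _

theorem Vx.smul_fst (g : G) (l : Vx G n) : (g • l).1 = g * l.1 := rfl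

theorem Vx.smul_snd (g : G) (l : Vx G n) : (g • l).2 = l.2 := rfl

omit [Group G] in
/-- a vertex from its components -/
def Vx.mk (g : G) (i : Fin n) : Vx G n := (g, i)

/-- the sign of a vertex in a simplex -/
def sg (j : Vx G n) (σ : Finset (Vx G n)) : ℝ := (-1) ^ (σ.filter fun i => i.2 < j.2).card

open Classical in
/-- the vertices that can be added to a simplex -/
def nb (𝒜 : Set (Finset (Vx G n))) (τ : Finset (Vx G n)) : Finset (Vx G n) :=
  if h : {j | j ∉ τ ∧ insert j τ ∈ 𝒜}.Finite then h.toFinset else ∅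

/-- an invariant locally finite simplicial complex -/
structure Cx (𝒜 : Set (Finset (Vx G n))) : Prop where
  ne : ∀ σ ∈ 𝒜, σ.Nonempty
  down : ∀ σ ∈ 𝒜, ∀ τ, τ ⊆ σ → τ.Nonempty → τ ∈ 𝒜
  inv : ∀ σ ∈ 𝒜, ∀ g : G, g • σ ∈ 𝒜
  inj : ∀ σ ∈ 𝒜, ∀ i ∈ σ, ∀ j ∈ σ, i.2 = j.2 → i = j
  lf : ∀ l, {σ ∈ 𝒜 | l ∈ σ}.Finite

/-- square summable functions on the simplices with `k` vertices -/
def L2 (𝒜 : Set (Finset (Vx G n))) (k : ℕ) (c : Finset (Vx G n) → ℝ) : Prop :=
  (∀ σ, c σ ≠ 0 → σ ∈ 𝒜 ∧ σ.card = k) ∧ Summable fun σ => c σ ^ 2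

/-- the coboundary -/
def cob (c : Finset (Vx G n) → ℝ) (σ : Finset (Vx G n)) : ℝ := ∑ j ∈ σ, sg j σ * c (σ.erase j)

/-- the boundary -/
def bdy (𝒜 : Set (Finset (Vx G n))) (z : Finset (Vx G n) → ℝ) (τ : Finset (Vx G n)) : ℝ :=
  ∑ j ∈ nb 𝒜 τ, sg j (insert j τ) * z (insert j τ)

/-- cocycles and cycles of degree one are orthogonal -/
def H1 (𝒜 : Set (Finset (Vx G n))) : Prop := ∀ c z, L2 𝒜 2 c → L2 𝒜 2 z →
  (∀ σ ∈ 𝒜, cob c σ = 0) → (∀ τ ∈ 𝒜, bdy 𝒜 z τ = 0) → ∑' σ, z σ * c σ = 0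

/-- relative cocycles and relative cycles on simplices with `k` vertices are orthogonal -/
def HR (𝒜 ℬ : Set (Finset (Vx G n))) (k : ℕ) : Prop := ∀ c z, L2 𝒜 k c → L2 𝒜 k z →
  (∀ σ ∈ ℬ, c σ = 0) → (∀ σ ∈ 𝒜, cob c σ = 0) → (∀ τ ∈ 𝒜, τ ∉ ℬ → bdy 𝒜 z τ = 0) →
  ∑' σ, z σ * c σ = 0

/-- the vertex of least type has group element one -/
def Nrm (σ : Finset (Vx G n)) : Prop := ∀ l ∈ σ, (∀ l' ∈ σ, l.2 ≤ l'.2) → l.1 = 1

/-- the finite complexes `NA`, `NB` are the quotients of `𝒜`, `ℬ`, and `ℬ` is a trivial cover -/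
structure Quo (𝒜 ℬ : Set (Finset (Vx G n))) (NA NB : Finset (Finset (Fin n))) : Prop where
  bij : BijOn (fun σ : Finset (Vx G n) => σ.image fun l => l.2) {σ ∈ 𝒜 | Nrm σ} NA
  triv : ∀ σ, σ ∈ ℬ ↔ ∃ g : G, ∃ s ∈ NB, σ = s.image (Vx.mk g)

/-- the zigzag from a cochain to a form, paired with a functional on lists -/
def Pr {X M : Type} [AddCommGroup M] [Module ℝ M] (𝒜 : Set (Finset (Vx G n)))
    (ψ : Vx G n → X → ℝ) (c : Finset (Vx G n) → ℝ) :
    ℕ → Finset (Vx G n) → (List (X → ℝ) → M) → M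
  | 0, τ, F => c τ • F []
  | k + 1, τ, F => ∑ j ∈ nb 𝒜 τ, sg j (insert j τ) • Pr 𝒜 ψ c k (insert j τ) fun L => F (ψ j :: L)

end Vx

/-- number of simplices with `k` vertices -/
def cntN {n : ℕ} (N : Finset (Finset (Fin n))) (k : ℕ) : ℕ := (N.filter fun s => s.card = k).card

/-- Euler characteristic of a finite complex -/
def chiN {n : ℕ} (N : Finset (Finset (Fin n))) : ℤ := ∑ s ∈ N, (-1) ^ (s.card + 1)

/-- the incidence matrix of triangles and edges -/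
def incN {n : ℕ} (N : Finset (Finset (Fin n))) :
    Matrix (N.filter fun s => s.card = 3) (N.filter fun s => s.card = 2) ℚ :=
  Matrix.of fun s t => ∑ j ∈ s.1, if s.1.erase j = t.1 then
    (-1) ^ (s.1.filter fun i => i < j).card else 0

/-- Euler characteristic of the truncated complex -/
def icN {n : ℕ} (NA NB : Finset (Finset (Fin n))) : ℤ :=
  chiN NA - chiN NB + cntN NB 1 - cntN NB 2 + (incN NB).rank

open Classical in
/-- the nerve of a finite family of sets -/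
def nerve {X : Type} {n : ℕ} (V : Fin n → Set X) : Finset (Finset (Fin n)) :=
  Finset.univ.filter fun s => s.Nonempty ∧ (⋂ i ∈ s, V i).Nonempty

/-- a set of indices with a free action and finitely many orbits -/
structure Orb (G : Type) {ι : Type} [Group G] [MulAction G ι] (𝒮 : Set ι) : Prop where
  inv : ∀ i ∈ 𝒮, ∀ g : G, g • i ∈ 𝒮
  free : ∀ i ∈ 𝒮, ∀ g : G, g • i = i → g = 1
  fin : ∃ F : Finset ι, ∀ i ∈ 𝒮, ∃ g : G, ∃ j ∈ F, i = g • j

/-- near each point of `K`, either `f` vanishes or a member of `L` is constant -/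
def Nul {X : Type} [TopologicalSpace X] (K : Set X) (f : X → ℝ) (L : List (X → ℝ)) : Prop :=
  ∀ x ∈ K, (∀ᶠ w in 𝓝 x, f w = 0) ∨ ∃ g ∈ L, ∀ᶠ w in 𝓝 x, g w = g x

/-- an abstract current carried by `K`, on a class `𝒮` of test functions -/
structure Cur {X : Type} [TopologicalSpace X] (𝒮 : Set (X → ℝ)) (K : Set X)
    (T : (X → ℝ) → List (X → ℝ) → ℝ) : Prop where
  add : ∀ f ∈ 𝒮, ∀ f' ∈ 𝒮, ∀ L : List (X → ℝ), (∀ p ∈ L, p ∈ 𝒮) → T (f + f') L = T f L + T f' L
  slot : ∀ f ∈ 𝒮, ∀ g ∈ 𝒮, ∀ g' ∈ 𝒮, ∀ L L' : List (X → ℝ), (∀ p ∈ L, p ∈ 𝒮) →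
    (∀ p ∈ L', p ∈ 𝒮) → T f (L ++ (g + g') :: L') = T f (L ++ g :: L') + T f (L ++ g' :: L')
  nul : ∀ f ∈ 𝒮, ∀ L : List (X → ℝ), (∀ p ∈ L, p ∈ 𝒮) → Nul K f L → T f L = 0

section Act

variable {G Z Λ : Type} [Group G] [MulAction G Z] [MulAction G Λ]

/-- translation of functions -/
def act0 {V : Type} (g : G) (U : Z → V) : Z → V := fun z => U (g⁻¹ • z)

/-- translation of forms -/
def act1 {V : Type} (g : G) (a : Λ → V) : Λ → V := fun l => a (g⁻¹ • l)

/-- translation of formal forms -/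
def actF (g : G) (ξ : FF Z) : FF Z := ξ.mapDomain fun q => (act0 g q.1, q.2.map (act0 g))

/-- a combination of a locally finite family of forms -/
def sumF {ι : Type} (c : ι → ℝ) (w : ι → F1 Λ) : F1 Λ := fun l x => ∑ᶠ i, c i • w i l x

end Act

/-- the intersection of the sets of a simplex -/
def VV {X ι : Type} (V : ι → Set X) (σ : Finset ι) : Set X := ⋂ l ∈ σ, V l

/-- the data on the compact surface or on one sheet near the exceptional curve -/
structure Nbh {Z Λ : Type} [TopologicalSpace Z] (A : KA Z Λ) (ρ : Z → ℝ) (a b : ℝ) (N : Set Z) :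
    Prop where
  sm : A.SM ρ
  nn : ∀ z, 0 ≤ ρ z
  zero : ∀ z, ρ z = 0 ↔ z ∈ A.E
  pos : 0 < a
  lt : a < b
  op : IsOpen N
  sub : ∀ z ∈ N, ρ z < b
  cpt : ∀ c < b, IsCompact (N ∩ {z | ρ z ≤ c})
  small : ∀ l, (A.act (A.ty l)).Nonempty → ∀ z ∈ A.src l, ρ z < a
  ret : ∀ a₁ a₂, a ≤ a₁ → a₁ < a₂ → a₂ < b → ∃ r : Z → Z, ContinuousOn r (N \ A.E) ∧
    (∀ z ∈ N \ A.E, r z ∈ N ∧ a₁ < ρ (r z) ∧ (ρ z < a₂ → ρ (r z) < a₂)) ∧
      ∀ z ∈ N, a₂ ≤ ρ z → r z = z
  ell : ∃ h : Z → ℂ, ∀ z ∈ N, A.An h z ∧ (z ∈ A.E → h z = 0) ∧ ¬ ∀ᶠ w in 𝓝 z, h w = 0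

/-- the data on the compact surface -/
structure Down {M Λ : Type} [TopologicalSpace M] (A : KA M Λ) (ρ : M → ℝ) (a b : ℝ) {n : ℕ}
    (V : Fin n → Set M) : Prop where
  op : ∀ i, IsOpen (V i)
  cov : ⋃ i, V i = {z | a < ρ z}
  good : ∀ s : Finset (Fin n), s.Nonempty → (VV V s).Nonempty → A.Good (VV V s)
  goodB : ∀ s : Finset (Fin n), s.Nonempty → (VV V s ∩ {z | ρ z < b}).Nonempty →
    A.Good (VV V s ∩ {z | ρ z < b})

/-- the geometric data on the covering space -/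
structure Geo (G Z : Type) [Group G] [TopologicalSpace Z] [MulAction G Z] (m n : ℕ) where
  A : KA Z (Vx G m)
  ρ : Z → ℝ
  a : ℝ
  b : ℝ
  V : Vx G n → Set Z
  N : Set Z
  cntG : Countable G
  cont : ∀ g : G, Continuous fun z : Z => g • z
  ty_sm : ∀ (g : G) l, A.ty (g • l) = A.ty l
  src_sm : ∀ (g : G) l z, g • z ∈ A.src (g • l) ↔ z ∈ A.src l
  e_sm : ∀ (g : G) l z, A.e (g • l) (g • z) = A.e l z
  symm_sm : ∀ (g : G) l x, (A.e (g • l)).symm x = g • (A.e l).symm x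
  ρ_sm : ∀ (g : G) z, ρ (g • z) = ρ z
  nbh : Nbh A ρ a b N
  sheet : ∀ z, ρ z < b → ∃! g : G, g⁻¹ • z ∈ N
  V_op : ∀ l, IsOpen (V l)
  V_sm : ∀ (g : G) l z, g • z ∈ V (g • l) ↔ z ∈ V l
  V_cpt : ∀ l, IsCompact (closure (V l))
  V_cov : ⋃ l, V l = {z | a < ρ z}
  V_inj : ∀ l l', (V l ∩ V l').Nonempty → l.2 = l'.2 → l = l'
  good : ∀ σ : Finset (Vx G n), σ.Nonempty → (VV V σ).Nonempty → A.Good (VV V σ)
  goodB : ∀ σ : Finset (Vx G n), σ.Nonempty → (VV V σ ∩ {z | ρ z < b}).Nonempty →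
    A.Good (VV V σ ∩ {z | ρ z < b})
  sep : A.Sep
  sc : SC A.E

namespace Geo

variable {G Z : Type} [Group G] [TopologicalSpace Z] [MulAction G Z] {m n : ℕ} (Γ : Geo G Z m n)

/-- the nerve -/
def 𝒜 : Set (Finset (Vx G n)) := {σ | σ.Nonempty ∧ (VV Γ.V σ).Nonempty}

/-- the nerve of the collar -/
def ℬ : Set (Finset (Vx G n)) := {σ | σ.Nonempty ∧ (VV Γ.V σ ∩ {z | Γ.ρ z < Γ.b}).Nonempty}

/-- an equivariant family of smooth forms with compact support -/
def Fam {ι : Type} [MulAction G ι] (𝒮 : Set ι) (w : ι → F1 (Vx G m)) : Prop :=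
  (∀ i ∈ 𝒮, Γ.A.D1 (w i)) ∧ ∀ i ∈ 𝒮, ∀ g : G, w (g • i) = act1 g (w i)

/-- an equivariant partition of unity for the cover, with sum one above the level `a'` -/
def Part (a' : ℝ) (ψ : Vx G n → Z → ℝ) : Prop :=
  (∀ l, Γ.A.D (ψ l) ∧ tsupport (ψ l) ⊆ Γ.V l) ∧ (∀ (g : G) l, ψ (g • l) = act0 g (ψ l)) ∧
    ∀ z, a' < Γ.ρ z → ∑ᶠ l, ψ l z = 1

open Classical in
/-- the carrier of a face of the cubical subdivision -/
def car (τ σ : Finset (Vx G n)) : Set Z :=
  if σ ∈ Γ.ℬ then VV Γ.V τ ∩ {z | Γ.ρ z < Γ.b} else VV Γ.V τ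

/-- currents that realise the cubical subdivision of the nerve -/
structure Cube [MeasurableSpace Z] (γ : Finset (Vx G n) → Finset (Vx G n) → FF Z) : Prop where
  mem : ∀ σ ∈ Γ.𝒜, ∀ τ, τ ⊆ σ → τ.Nonempty → Γ.A.In (Γ.car τ σ) (σ.card - τ.card) (γ τ σ)
  eqv : ∀ σ ∈ Γ.𝒜, ∀ τ, τ ⊆ σ → τ.Nonempty → ∀ g : G, γ (g • τ) (g • σ) = actF g (γ τ σ)
  one : ∀ σ ∈ Γ.𝒜, Γ.A.cur (γ σ σ) 1 [] = 1
  bd : ∀ σ ∈ Γ.𝒜, ∀ τ, τ ⊆ σ → τ.Nonempty → ∀ f L, Γ.A.SM f → (∀ p ∈ L, Γ.A.SM p) →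
    Γ.A.cur (γ τ σ) 1 (f :: L) =
      ∑ j ∈ σ \ τ, (sg j (insert j τ) * Γ.A.cur (γ (insert j τ) σ) f L +
        (-1) ^ (σ.card - τ.card) * sg j σ * Γ.A.cur (γ τ (σ.erase j)) f L)

end Geo

/-- the current of a simplex -/
def Gam {X ι : Type} (γ : Finset ι → Finset ι → FF X) (σ : Finset ι) : FF X := ∑ i ∈ σ, γ {i} σ

end Pool.Agent.Lib.MP_356dfe_ag.S
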