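import Pool.Agent.Lib.MP_356dfe_ag.S.Basic

-- part Pool.Agent.Lib.MP_356dfe_ag.S.PDegA
section

/-! The residue theorem on the curve: one variable part. -/

set_option autoImplicit false

open Set Filter Topology Metric MeasureTheory
open scoped ContDiff ComplexConjugate Matrix Pointwise

noncomputable section

namespace Pool.Agent.Lib.MP_356dfe_ag.S

namespace PDeg

theorem d1_of {F : ℂ → ℝ} {T : ℂ →L[ℝ] ℝ} {w : ℂ} (h : HasFDerivAt F T w) :
    d1 F w = ((T 1 : ℝ) - Complex.I * (T Complex.I : ℝ)) / 2 := by rw [d1, h.fderiv]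

theorem d1_congr {F F' : ℂ → ℝ} {w : ℂ} (h : F =ᶠ[𝓝 w] F') : d1 F w = d1 F' w := by
  rw [d1, d1, h.fderiv_eq]

theorem d1_ev {F : ℂ → ℝ} {w : ℂ} {a : ℝ} (h : ∀ᶠ v in 𝓝 w, F v = a) : d1 F w = 0 := by
  rw [d1_congr (F' := fun _ => a) h]
  simp [d1]

theorem d1_comp {F : ℂ → ℝ} {τ : ℂ → ℂ} {τ' w : ℂ} (hF : DifferentiableAt ℝ F (τ w))
    (hτ : HasDerivAt τ τ' w) : d1 (F ∘ τ) w = d1 F (τ w) * τ' := by
  rw [d1_of (hF.hasFDerivAt.comp w hτ.complexToReal_fderiv), d1]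
  generalize fderiv ℝ F (τ w) = T
  have e : ∀ z : ℂ, T z = z.re * T 1 + z.im * T Complex.I := fun z => by
    rw [← smul_eq_mul, ← smul_eq_mul, ← map_smul, ← map_smul, ← map_add]
    congr 1
    apply Complex.ext <;> simp
  simp only [ContinuousLinearMap.comp_apply, smul_apply,
    one_apply_eq_self, smul_eq_mul, mul_one]
  rw [e τ', e (τ' * Complex.I)]
  apply Complex.ext <;> simp <;> ring

theorem d1_add_const (F : ℂ → ℝ) (C : ℝ) (w : ℂ) : d1 (fun v => F v + C) w = d1 F w := by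
  rw [d1, d1, fderiv_add_const]

theorem d1_sum {ι : Type*} (s : Finset ι) {F : ι → ℂ → ℝ} {w : ℂ}
    (h : ∀ i ∈ s, DifferentiableAt ℝ (F i) w) :
    d1 (fun v => ∑ i ∈ s, F i v) w = ∑ i ∈ s, d1 (F i) w := by
  rw [d1_of (HasFDerivAt.fun_sum fun i hi => (h i hi).hasFDerivAt)]
  simp only [d1, sum_apply, Complex.ofReal_sum, Finset.mul_sum,
    ← Finset.sum_sub_distrib, Finset.sum_div]

theorem d1_cont {F : ℂ → ℝ} {w : ℂ} (h : ContDiffAt ℝ ∞ F w) : ContinuousAt (d1 F) w := by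
  have h1 : ContinuousAt (fderiv ℝ F) w := h.continuousAt_fderiv (by simp)
  have h2 : ∀ z : ℂ, ContinuousAt (fun v => ((fderiv ℝ F v z : ℝ) : ℂ)) w := fun z =>
    Complex.continuous_ofReal.continuousAt.comp (h1.clm_apply continuousAt_const)
  exact ((h2 1).sub (continuousAt_const.mul (h2 _))).div_const 2

theorem cont_mul {F : ℂ → ℝ} {q : ℂ → ℂ} {w : ℂ} (h : ContDiffAt ℝ ∞ F w)
    (hq : ContinuousAt q w ∨ ∀ᶠ v in 𝓝 w, F v = F w) :
    ContinuousAt (fun v => d1 F v * conj (q v)) w := by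
  rcases hq with hq | hq
  · exact (d1_cont h).mul (Complex.continuous_conj.continuousAt.comp hq)
  · refine (continuousAt_const (y := (0 : ℂ))).congr (hq.eventually_nhds.mono fun v hv => ?_)
    simp [d1_ev hv]

theorem fd_arg {f : ℂ → ℂ} {f' w : ℂ} (h : HasDerivAt f f' w) (h0 : f w ≠ 0) :
    HasFDerivAt (fun v => Complex.arg (f v / f w))
      (Complex.imCLM.comp ((f' / f w) • (1 : ℂ →L[ℝ] ℂ))) w := by
  have h1 : HasDerivAt (fun v => Complex.log (f v / f w)) (f' / f w) w := by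
    have := (h.div_const (f w)).clog (by rw [div_self h0]; exact Complex.one_mem_slitPlane)
    simpa [div_self h0] using this
  simpa [Function.comp_def, Complex.log_im] using
    Complex.imCLM.hasFDerivAt.comp w h1.complexToReal_fderiv

/-- the form of type (1,0) with poles -/
def bb (G : ℂ → ℝ) (s t : ℝ) (h : ℂ → ℂ) (w : ℂ) : ℂ :=
  d1 G w + (s / 2 : ℝ) * Complex.I * (deriv id w / id w) +
    (t / 2 : ℝ) * Complex.I * (deriv h w / h w)

/-- a local primitive -/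
def Ph (G : ℂ → ℝ) (s t : ℝ) (h : ℂ → ℂ) (w v : ℂ) : ℝ :=
  G v - s * Complex.arg (v / w) - t * Complex.arg (h v / h w)

theorem d1_Ph {G : ℂ → ℝ} (s t : ℝ) {h : ℂ → ℂ} {w : ℂ} (hG : DifferentiableAt ℝ G w)
    (hh : DifferentiableAt ℂ h w) (h0 : w ≠ 0) (h1 : h w ≠ 0) :
    DifferentiableAt ℝ (Ph G s t h w) w ∧ d1 (Ph G s t h w) w = bb G s t h w := by
  have e := (hG.hasFDerivAt.sub ((fd_arg (hasDerivAt_id w) h0).const_mul s)).sub
    ((fd_arg hh.hasDerivAt h1).const_mul t)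
  refine ⟨e.differentiableAt, ?_⟩
  rw [show d1 (Ph G s t h w) w = _ from d1_of e, bb, d1, deriv_id]
  generalize deriv h w / h w = a
  generalize 1 / id w = b
  generalize fderiv ℝ G w = T
  apply Complex.ext <;> simp <;> ring

theorem bb_trans {G G' : ℂ → ℝ} {s s' t C : ℝ} {h h' τ : ℂ → ℂ} {w τ' : ℂ}
    (hG : DifferentiableAt ℝ G w) (hh : DifferentiableAt ℂ h w) (h0 : w ≠ 0) (h1 : h w ≠ 0)
    (hG' : DifferentiableAt ℝ G' (τ w)) (hh' : DifferentiableAt ℂ h' (τ w)) (h0' : τ w ≠ 0)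
    (h1' : h' (τ w) ≠ 0) (hτ : HasDerivAt τ τ' w)
    (e : ∀ᶠ v in 𝓝 w, Ph G s t h w v = Ph G' s' t h' (τ w) (τ v) + C) :
    bb G s t h w = bb G' s' t h' (τ w) * τ' := by
  obtain ⟨a, b⟩ := d1_Ph s' t hG' hh' h0' h1'
  rw [← (d1_Ph s t hG hh h0 h1).2, ← b, ← d1_comp a hτ, d1_congr e]
  exact d1_add_const (Ph G' s' t h' (τ w) ∘ τ) C w

/-- the density of the wedge product -/
def dn (F : ℂ → ℝ) (b : ℂ → ℂ) (w : ℂ) : ℝ := (d1 F w * conj (b w)).im

theorem sub34 : closedBall (0 : ℂ) 3 ⊆ ball 0 4 := closedBall_subset_ball (by norm_num)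

theorem bb_cont {G : ℂ → ℝ} (s t : ℝ) {h : ℂ → ℂ} {w : ℂ} (hG : ContDiffAt ℝ ∞ G w)
    (hh : AnalyticAt ℂ h w) (h0 : w ≠ 0) (h1 : h w ≠ 0) : ContinuousAt (bb G s t h) w :=
  ((d1_cont hG).add (continuousAt_const.mul
    ((analyticAt_id.deriv.continuousAt).div continuousAt_id h0))).add
    (continuousAt_const.mul (hh.deriv.continuousAt.div hh.continuousAt h1))

theorem int3 {g : ℂ → ℝ} (h : ∀ w ∈ closedBall (0 : ℂ) 3, ContinuousAt g w) :
    IntegrableOn g (ball 0 3) :=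
  (ContinuousOn.integrableOn_compact (isCompact_closedBall 0 3)
    fun w hw => (h w hw).continuousWithinAt).mono_set ball_subset_closedBall

theorem det_smul (z : ℂ) : (z • (1 : ℂ →L[ℝ] ℂ)).det = Complex.normSq z := by
  rw [← Algebra.norm_complex_apply, Algebra.norm_apply, ContinuousLinearMap.det]
  congr 1

theorem zeros_fin {h : ℂ → ℂ} (hh : DifferentiableOn ℂ h (ball 0 4))
    (h0 : ∃ w ∈ ball (0 : ℂ) 4, h w ≠ 0) :
    {w ∈ closedBall (0 : ℂ) 3 | w = 0 ∨ h w = 0}.Finite := by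
  obtain ⟨w, hw, h1⟩ := h0
  have := (hh.analyticOnNhd isOpen_ball).preimage_zero_mem_codiscreteWithin h1 hw
    (isConnected_ball (by norm_num))
  have h2 := (isCompact_closedBall (0 : ℂ) 3).finite_sdiff_of_mem_codiscreteWithin
    (codiscreteWithin_mono sub34 this)
  refine (h2.insert 0).subset fun v hv => ?_
  rcases hv.2 with e | e
  · exact Or.inl e
  · exact Or.inr ⟨hv.1, fun h3 => h3 e⟩

/-- the inequality on one disc -/
theorem disc (hd : DegF) {F G : ℂ → ℝ} {s t : ℝ} {h : ℂ → ℂ} (hF : ContDiffOn ℝ ∞ F (ball 0 4))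
    (hn : ∀ w ∈ ball (0 : ℂ) 4, 0 ≤ F w) (hz : ∀ w ∈ ball (0 : ℂ) 4, 2 < ‖w‖ → F w = 0)
    (hc : ∀ w ∈ closedBall (0 : ℂ) 3, w = 0 ∨ h w = 0 → ∀ᶠ v in 𝓝 w, F v = F w)
    (hG : ContDiffOn ℝ ∞ G (ball 0 4)) (hs : 0 ≤ s) (ht : 0 < t)
    (hh : DifferentiableOn ℂ h (ball 0 4)) (h0 : ∃ w ∈ ball (0 : ℂ) 4, h w ≠ 0) :
    0 ≤ ∫ w in ball 0 3, dn F (bb G s t h) w ∧ (∫ w in ball 0 3, dn F (bb G s t h) w = 0 →
      (0 < F 0 → s = 0) ∧ ∀ p ∈ ball (0 : ℂ) 4, 0 < F p → h p ≠ 0) := by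
  set W := (ball (0 : ℂ) 4).indicator F with hW
  have e1 : ∀ w ∈ ball (0 : ℂ) 4, W =ᶠ[𝓝 w] F := fun w hw =>
    mem_of_superset (isOpen_ball.mem_nhds hw) fun v hv => indicator_of_mem hv F
  have e2 : ∀ w : ℂ, 2 < ‖w‖ → ∀ᶠ v in 𝓝 w, W v = 0 := fun w hw => by
    filter_upwards [(isOpen_lt continuous_const continuous_norm).mem_nhds hw] with v hv
    by_cases h4 : v ∈ ball (0 : ℂ) 4
    · rw [hW, indicator_of_mem h4, hz v h4 hv]
    · exact indicator_of_notMem h4 F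
  have e3 : ∀ w : ℂ, w ∈ closedBall (0 : ℂ) 3 ∨ 2 < ‖w‖ := fun w => by
    rw [mem_closedBall_zero_iff]
    by_cases h3 : ‖w‖ ≤ 3
    · exact Or.inl h3
    · exact Or.inr (by linarith [not_le.1 h3])
  have hFa : ∀ w ∈ ball (0 : ℂ) 4, ContDiffAt ℝ ∞ F w := fun w hw =>
    hF.contDiffAt (isOpen_ball.mem_nhds hw)
  have sm : ContDiff ℝ ∞ W := contDiff_iff_contDiffAt.2 fun w => by
    rcases e3 w with h3 | h3
    · exact (hFa w (sub34 h3)).congr_of_eventuallyEq (e1 w (sub34 h3))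
    · exact contDiffAt_const.congr_of_eventuallyEq (e2 w h3)
  have ts : tsupport W ⊆ closedBall 0 3 := fun w hw => (e3 w).resolve_right fun h3 =>
    (notMem_tsupport_iff_eventuallyEq.2 (e2 w h3)) hw
  have cs : HasCompactSupport W :=
    (isCompact_closedBall 0 3).of_isClosed_subset (isClosed_tsupport W) ts
  have nn : ∀ w, 0 ≤ W w := fun w => indicator_nonneg hn w
  have lc : ∀ p ∈ ball (0 : ℂ) 4, p = 0 ∨ h p = 0 → ∀ᶠ w in 𝓝 p, W w = W p := fun p hp h1 => by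
    rcases e3 p with h3 | h3
    · filter_upwards [hc p h3 h1, e1 p hp] with w a b
      rw [b, a, (e1 p hp).eq_of_nhds]
    · filter_upwards [e2 p h3] with w a
      rw [a, (e2 p h3).self_of_nhds]
  have tr : ∀ (φ : ℂ →L[ℝ] ℝ) (q : ℂ → ℂ), ∫ w in ball 0 3, φ (d1 F w * conj (q w)) =
      ∫ w, φ (d1 W w * conj (q w)) := fun φ q => by
    refine (setIntegral_congr_fun measurableSet_ball fun w hw => ?_).trans
      (setIntegral_eq_integral_of_forall_compl_eq_zero (s := ball 0 3) fun w hw => ?_)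
    · simp only [d1_congr (e1 w (sub34 (ball_subset_closedBall hw)))]
    · rw [mem_ball_zero_iff, not_lt] at hw
      rw [d1_ev (e2 w (by linarith)), zero_mul, map_zero]
  have a1 := hd.sm W G sm cs (ts.trans sub34) hG
  have a2 := hd.pole W id sm cs (ts.trans sub34) nn differentiableOn_id
    ⟨1, by simp, one_ne_zero⟩ fun p hp e => lc p hp (Or.inl e)
  have a3 := hd.pole W h sm cs (ts.trans sub34) nn hh h0 fun p hp e => lc p hp (Or.inr e)
  have an := hh.analyticOnNhd isOpen_ball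
  have i1 : IntegrableOn (fun w => Complex.imCLM (d1 F w * conj (d1 G w))) (ball 0 3) :=
    int3 fun w hw => Complex.imCLM.continuous.continuousAt.comp (cont_mul (hFa w (sub34 hw))
      (Or.inl (d1_cont (hG.contDiffAt (isOpen_ball.mem_nhds (sub34 hw))))))
  have i2 : IntegrableOn (fun w => Complex.reCLM (d1 F w * conj (deriv id w / id w)))
      (ball 0 3) :=
    int3 fun w hw => Complex.reCLM.continuous.continuousAt.comp (cont_mul (hFa w (sub34 hw))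
      ((ne_or_eq w 0).imp (fun e => analyticAt_id.deriv.continuousAt.div continuousAt_id e)
        fun e => hc w hw (Or.inl e)))
  have i3 : IntegrableOn (fun w => Complex.reCLM (d1 F w * conj (deriv h w / h w)))
      (ball 0 3) :=
    int3 fun w hw => Complex.reCLM.continuous.continuousAt.comp (cont_mul (hFa w (sub34 hw))
      ((ne_or_eq (h w) 0).imp (fun e => (an w (sub34 hw)).deriv.continuousAt.div
        (an w (sub34 hw)).continuousAt e) fun e => hc w hw (Or.inr e)))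
  have key : ∫ w in ball 0 3, dn F (bb G s t h) w =
      -(s / 2 * ∫ w, (d1 W w * conj (deriv id w / id w)).re) -
        t / 2 * ∫ w, (d1 W w * conj (deriv h w / h w)).re := by
    have b1 := tr Complex.imCLM (d1 G)
    have b2 := tr Complex.reCLM fun w => deriv id w / id w
    have b3 := tr Complex.reCLM fun w => deriv h w / h w
    have b4 : ∀ w, dn F (bb G s t h) w = Complex.imCLM (d1 F w * conj (d1 G w)) -
        s / 2 * Complex.reCLM (d1 F w * conj (deriv id w / id w)) -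
        t / 2 * Complex.reCLM (d1 F w * conj (deriv h w / h w)) := fun w => by
      rw [dn, bb]
      generalize deriv h w / h w = a
      generalize deriv id w / id w = b
      simp only [Complex.imCLM_apply, Complex.reCLM_apply, map_add, map_mul, Complex.conj_ofReal,
        Complex.conj_I, Complex.mul_im, Complex.mul_re, Complex.add_im, Complex.add_re,
        Complex.ofReal_re, Complex.ofReal_im, Complex.neg_re, Complex.neg_im, Complex.I_re,
        Complex.I_im, Complex.conj_re, Complex.conj_im]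
      ring
    simp only [b4]
    rw [integral_sub ?_ (i3.const_mul _), integral_sub i1 (i2.const_mul _),
      integral_const_mul, integral_const_mul, b1, b2, b3]
    swap
    · exact i1.sub (i2.const_mul _)
    simp only [Complex.imCLM_apply, Complex.reCLM_apply, a1, zero_sub]
  rw [key]
  have c2 := mul_nonpos_of_nonneg_of_nonpos (div_nonneg hs zero_le_two) a2.1
  have c3 := mul_nonpos_of_nonneg_of_nonpos (half_pos ht).le a3.1
  refine ⟨by linarith, fun e => ⟨fun hp => ?_, fun p hp h1 h2 => ?_⟩⟩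
  · have h4 : (0 : ℂ) ∈ ball (0 : ℂ) 4 := mem_ball_self (by norm_num)
    have := a2.2 0 h4 rfl (by rwa [(e1 0 h4).eq_of_nhds])
    by_contra h5
    have := mul_neg_of_pos_of_neg (half_pos (lt_of_le_of_ne hs (Ne.symm h5))) this
    linarith
  · have := mul_neg_of_pos_of_neg (half_pos ht) (a3.2 p hp h2 (by rwa [(e1 p hp).eq_of_nhds]))
    linarith

/-- change of variables -/
theorem cov {Ω : Set ℂ} {τ τ' : ℂ → ℂ} {g g' : ℂ → ℝ} (hΩ : MeasurableSet Ω)
    (hτ : ∀ w ∈ Ω, HasDerivAt τ (τ' w) w) (hi : InjOn τ Ω)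
    (e : ∀ w ∈ Ω, g w = Complex.normSq (τ' w) * g' (τ w)) :
    ∫ w in Ω, g w = ∫ w in τ '' Ω, g' w := by
  rw [integral_image_eq_integral_abs_det_fderiv_smul volume hΩ
    (fun w hw => (hτ w hw).complexToReal_fderiv.hasFDerivWithinAt) hi]
  exact setIntegral_congr_fun hΩ fun w hw => by
    simp only [det_smul, e w hw, smul_eq_mul, abs_of_nonneg (Complex.normSq_nonneg _)]

theorem dn_trans {F F' : ℂ → ℝ} {b b' τ : ℂ → ℂ} {w τ' : ℂ} (hF : DifferentiableAt ℝ F' (τ w))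
    (hτ : HasDerivAt τ τ' w) (e : F =ᶠ[𝓝 w] F' ∘ τ) (eb : b w = b' (τ w) * τ') :
    dn F b w = Complex.normSq τ' * dn F' b' (τ w) := by
  rw [dn, dn, d1_congr e, d1_comp hF hτ, eb, map_mul, mul_mul_mul_comm, Complex.mul_conj,
    mul_comm, Complex.im_ofReal_mul]

theorem gap {S : Set ℝ} (hS : S.Finite) :
    ∃ a b : ℝ, 1 < a ∧ a < b ∧ b < 2 ∧ ∀ x ∈ S, x ≤ b → x < a := by
  obtain ⟨x, hx, h1⟩ := (Ioo_infinite (show (1 : ℝ) < 2 by norm_num)).exists_notMem_finite hS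
  obtain ⟨ε, hε, h2⟩ := Metric.isOpen_iff.1 (isOpen_Ioo.inter hS.isClosed.isOpen_compl) x ⟨hx, h1⟩
  have h3 : ∀ y, x ≤ y → y ≤ x + ε / 2 → y ∈ Ioo (1 : ℝ) 2 ∩ Sᶜ := fun y a b =>
    h2 (by rw [mem_ball, Real.dist_eq, abs_lt]; constructor <;> linarith)
  refine ⟨x, x + ε / 2, hx.1, by linarith, (h3 _ (by linarith) le_rfl).1.2, fun y hy h4 => ?_⟩
  by_contra h5
  exact (h3 y (not_lt.1 h5) h4).2 hy

end PDeg

end Pool.Agent.Lib.MP_356dfe_ag.S
end
end

-- part Pool.Agent.Lib.MP_356dfe_ag.S.PDeg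
section

/-! The residue theorem on the curve. -/

set_option autoImplicit false

open Set Filter Topology Metric MeasureTheory
open scoped ContDiff ComplexConjugate Matrix Pointwise

noncomputable section

namespace Pool.Agent.Lib.MP_356dfe_ag.S

namespace PDeg

variable {Z Λ : Type} [TopologicalSpace Z] {A : KA Z Λ}

theorem sing_mem (k : Fin 2) {w : ℂ} {r : ℝ} :
    (Pi.single k w : E2) ∈ ball 0 r ↔ w ∈ ball 0 r := by
  rw [mem_ball_zero_iff, mem_ball_zero_iff, Pi.norm_single]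

theorem br_src (c : Λ × Fin 2) {w : ℂ} (hw : w ∈ ball 0 4) : A.br c w ∈ A.src c.1 :=
  A.symm_mem _ ((sing_mem _).2 hw)

theorem e_br (c : Λ × Fin 2) {w : ℂ} (hw : w ∈ ball 0 4) :
    A.e c.1 (A.br c w) = Pi.single c.2.rev w := A.e_symm _ ((sing_mem _).2 hw)

theorem br_inj (c : Λ × Fin 2) : InjOn (A.br c) (ball 0 4) := fun w hw v hv e => by
  have := e_br (A := A) c hw
  rw [e, e_br c hv] at this
  simpa using (congrFun this c.2.rev).symm

theorem sing_an (k : Fin 2) (w : ℂ) : AnalyticAt ℂ (fun v : ℂ => (Pi.single k v : E2)) w :=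
  (ContinuousLinearMap.single ℂ (fun _ : Fin 2 => ℂ) k).analyticAt w

theorem br_cont (c : Λ × Fin 2) {w : ℂ} (hw : w ∈ ball 0 4) : ContinuousAt (A.br c) w :=
  ContinuousAt.comp (f := fun v : ℂ => (Pi.single c.2.rev v : E2))
    ((A.e c.1).continuousAt_symm (A.tgt c.1 ▸ (sing_mem _).2 hw)) (sing_an _ w).continuousAt

theorem rev_ne (k : Fin 2) : k.rev ≠ k := by revert k; decide

theorem eq_rev {k k' : Fin 2} (h : k ≠ k') : k = k'.rev := by revert k k'; decide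

theorem br_E {c : Λ × Fin 2} (hc : c.2 ∈ A.act (A.ty c.1)) {w : ℂ} (hw : w ∈ ball 0 4) :
    A.br c w ∈ A.E :=
  (A.hE c.1 _ (br_src c hw)).2 ⟨c.2, hc, by rw [e_br c hw, Pi.single_eq_of_ne (rev_ne _).symm]⟩

theorem br_sm {U : Z → ℝ} (c : Λ × Fin 2) {w : ℂ} (hw : w ∈ ball 0 4) (hU : A.SM U) :
    ContDiffAt ℝ ∞ (U ∘ A.br c) w := by
  have := hU _ c.1 (br_src c hw)
  rw [e_br c hw] at this
  exact ContDiffAt.comp (f := fun v : ℂ => (Pi.single c.2.rev v : E2)) w this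
    ((ContinuousLinearMap.single ℝ (fun _ : Fin 2 => ℂ) c.2.rev).contDiff.contDiffAt)

variable (A) in
/-- the change of parameter -/
def ta (c c' : Λ × Fin 2) (w : ℂ) : ℂ := A.e c'.1 (A.br c w) c'.2.rev

theorem ta_an {c c' : Λ × Fin 2} {w : ℂ} (hw : w ∈ ball 0 4) (h : A.br c w ∈ A.src c'.1) :
    AnalyticAt ℂ (ta A c c') w := by
  have := A.an c.1 c'.1 _ (br_src c hw) h
  rw [e_br c hw] at this
  exact ((ContinuousLinearMap.proj (R := ℂ) (φ := fun _ : Fin 2 => ℂ) c'.2.rev).analyticAt _).comp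
    (AnalyticAt.comp (f := fun v : ℂ => (Pi.single c.2.rev v : E2)) this (sing_an _ w))

theorem br_coord {c : Λ × Fin 2} {z : Z} (hz : z ∈ A.src c.1) (h0 : A.e c.1 z c.2 = 0) :
    A.br c (A.e c.1 z c.2.rev) = z := by
  have : (Pi.single c.2.rev (A.e c.1 z c.2.rev) : E2) = A.e c.1 z := by
    ext k
    by_cases hk : k = c.2
    · rw [hk, h0, Pi.single_eq_of_ne (rev_ne _).symm]
    · rw [eq_rev hk, Pi.single_eq_same]
  rw [KA.br, this, (A.e c.1).left_inv hz]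

theorem coord_mem {x : E2} {r : ℝ} (h : x ∈ ball 0 r) (k : Fin 2) : x k ∈ ball 0 r := by
  rw [mem_ball_zero_iff] at h ⊢
  exact (norm_le_pi_norm x k).trans_lt h

theorem b34 : ball (0 : ℂ) 3 ⊆ ball 0 4 := ball_subset_ball (by norm_num)

variable (A) in
/-- the overlap of two branches -/
def Om (P : Set Z) (c c' : Λ × Fin 2) : Set ℂ :=
  {w | w ∈ ball 0 3 ∧ A.br c w ∉ P ∧ A.br c w ∈ A.src c'.1 ∧ ta A c c' w ∈ ball 0 3 ∧
    ta A c c' w ≠ 0}

theorem Om_open {P : Set Z} (hP : IsClosed P) (c c' : Λ × Fin 2) : IsOpen (Om A P c c') :=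
  isOpen_iff_mem_nhds.2 fun w ⟨h1, h2, h3, h4, h5⟩ => by
    have a := br_cont (A := A) c (b34 h1)
    have b := (ta_an (b34 h1) h3).continuousAt
    filter_upwards [isOpen_ball.mem_nhds h1, a (hP.isOpen_compl.mem_nhds h2),
      a ((A.e c'.1).open_source.mem_nhds h3), b (isOpen_ball.mem_nhds h4),
      b (isOpen_ne.mem_nhds h5)] with v k1 k2 k3 k4 k5
    exact ⟨k1, k2, k3, k4, k5⟩

theorem br_ta {P : Set Z} {c c' : Λ × Fin 2} (hc : c.2 ∈ A.act (A.ty c.1)) {w : ℂ}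
    (hw : w ∈ Om A P c c') : A.br c' (ta A c c' w) = A.br c w := by
  obtain ⟨k, -, hk⟩ := (A.hE c'.1 _ hw.2.2.1).1 (br_E hc (b34 hw.1))
  refine br_coord hw.2.2.1 ?_
  by_contra h
  exact hw.2.2.2.2 (by rw [ta, ← eq_rev (k := k) (k' := c'.2) (fun e => h (e ▸ hk)), hk])

theorem ta_self (c : Λ × Fin 2) {w : ℂ} (hw : w ∈ ball 0 4) : ta A c c w = w := by
  rw [ta, e_br c hw, Pi.single_eq_same]

open Classical in
variable (A) in
/-- the data with a partition of unity -/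
structure Ctx (K : Finset (Λ × Fin 2)) (G : Λ × Fin 2 → ℂ → ℝ) (s : Λ × Fin 2 → ℝ)
    (h : Λ × Fin 2 → ℂ → ℂ) (t : ℝ) (P : Set Z) (V : Λ → Z → ℝ) : Prop where
  act : ∀ c ∈ K, c.2 ∈ A.act (A.ty c.1)
  sm : ∀ c ∈ K, ContDiffOn ℝ ∞ (G c) (ball 0 4)
  hol : ∀ c ∈ K, DifferentiableOn ℂ (h c) (ball 0 4)
  rel : ∀ c ∈ K, ∀ w ∈ ball (0 : ℂ) 4, ∀ c' : Λ × Fin 2, c'.1 ≠ c.1 → c'.2 ∈ A.act (A.ty c'.1) →
    ∀ w' ∈ ball (0 : ℂ) 4, A.br c w = A.br c' w' → c' ∈ K ∧ (h c w ≠ 0 → h c' w' ≠ 0 →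
      ∃ C, ∀ᶠ v in 𝓝 w, Ph (G c) (s c) t (h c) w v =
        Ph (G c') (s c') t (h c') w' (ta A c c' v) + C)
  fin : P.Finite
  cl : IsClosed P
  mem : ∀ c ∈ K, ∀ w ∈ closedBall (0 : ℂ) 3, w = 0 ∨ h c w = 0 → A.br c w ∈ P
  vs : ∀ l, A.SM (V l)
  lc : ∀ l, ∀ p ∈ P, ∀ᶠ z in 𝓝 p, V l z = V l p
  sp : ∀ l, ∀ z ∈ tsupport (V l), z ∈ A.src l ∧ ‖A.e l z‖ ≤ 2
  one : ∀ c ∈ K, ∀ w ∈ ball (0 : ℂ) 4, ∑ l ∈ K.image Prod.fst, V l (A.br c w) = 1

variable {K : Finset (Λ × Fin 2)} {G : Λ × Fin 2 → ℂ → ℝ} {s : Λ × Fin 2 → ℝ}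
  {h : Λ × Fin 2 → ℂ → ℂ} {t : ℝ} {P : Set Z} {V : Λ → Z → ℝ}

namespace Ctx

variable (X : Ctx A K G s h t P V)
include X

theorem ne {c : Λ × Fin 2} (hc : c ∈ K) {w : ℂ} (hw : w ∈ ball 0 3) (hP : A.br c w ∉ P) :
    w ≠ 0 ∧ h c w ≠ 0 :=
  not_or.1 fun e => hP (X.mem c hc w (ball_subset_closedBall hw) e)

theorem ta_mem {c c' : Λ × Fin 2} (hc : c ∈ K) {w : ℂ} (hw : w ∈ Om A P c c') :
    ta A c c' w ∈ Om A P c' c ∧ ta A c' c (ta A c c' w) = w := by
  have e := br_ta (X.act c hc) hw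
  have e' : ta A c' c (ta A c c' w) = w := by
    rw [ta, e]
    exact ta_self c (b34 hw.1)
  refine ⟨⟨hw.2.2.2.1, e ▸ hw.2.1, e ▸ br_src c (b34 hw.1), e'.symm ▸ hw.1, ?_⟩, e'⟩
  rw [e']
  exact (X.ne hc hw.1 hw.2.1).1

theorem lcw {c : Λ × Fin 2} (hc : c ∈ K) (l : Λ) (w : ℂ) (hw : w ∈ closedBall (0 : ℂ) 3)
    (e : w = 0 ∨ h c w = 0) : ∀ᶠ v in 𝓝 w, (V l ∘ A.br c) v = (V l ∘ A.br c) w :=
  (br_cont c (sub34 hw)).eventually (X.lc l _ (X.mem c hc w hw e))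

open Classical in
theorem split {c : Λ × Fin 2} (hc : c ∈ K) (f : Λ → ℂ → ℝ)
    (hi : ∀ l, IntegrableOn (f l) (ball 0 3))
    (hz : ∀ l, ∀ w ∈ ball (0 : ℂ) 3, f l w ≠ 0 → A.br c w ∈ tsupport (V l)) :
    ∑ c' ∈ K, ∫ w in Om A P c c', f c'.1 w =
      ∫ w in ball 0 3, ∑ l ∈ K.image Prod.fst, f l w := by
  have m := fun c' => (Om_open (A := A) X.cl c c').measurableSet
  have e : ∀ c', ∫ w in Om A P c c', f c'.1 w =
      ∫ w in ball 0 3, (Om A P c c').indicator (f c'.1) w := fun c' => by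
    rw [setIntegral_indicator (m c'), inter_eq_right.2 fun w hw => hw.1]
  simp only [e]
  rw [← integral_finsetSum K fun c' _ => (hi c'.1).indicator (m c')]
  have fin : (ball 0 4 ∩ A.br c ⁻¹' P).Finite :=
    (X.fin.subset (image_subset_iff.2 inter_subset_right)).of_finite_image
      ((br_inj c).mono inter_subset_left)
  refine setIntegral_congr_ae measurableSet_ball ?_
  filter_upwards [compl_mem_ae_iff.2 (fin.measure_zero volume)] with w h1 hw
  have hP : A.br c w ∉ P := fun h2 => h1 ⟨b34 hw, h2⟩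
  rw [← Finset.sum_fiberwise_of_maps_to (t := K.image Prod.fst) (g := Prod.fst)
    fun x hx => Finset.mem_image_of_mem _ hx]
  refine Finset.sum_congr rfl fun l _ => ?_
  by_cases h0 : f l w = 0
  · rw [h0]
    exact Finset.sum_eq_zero fun c' hc' => indicator_apply_eq_zero.2 fun _ => by
      rw [(Finset.mem_filter.1 hc').2, h0]
  obtain ⟨h2, h3⟩ := X.sp l _ (hz l w hw h0)
  obtain ⟨k, hk, h4⟩ := (A.hE l _ h2).1 (br_E (X.act c hc) (b34 hw))
  have h5 : A.br (l, k) (ta A c (l, k) w) = A.br c w := br_coord (c := (l, k)) h2 h4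
  have h6 : ta A c (l, k) w ∈ ball (0 : ℂ) 3 :=
    coord_mem (mem_ball_zero_iff.2 (h3.trans_lt (by norm_num))) _
  have h7 : (l, k) ∈ K := by
    by_cases e1 : l = c.1
    · subst e1
      by_cases e2 : k = c.2
      · rwa [e2]
      · rw [e_br c (b34 hw), eq_rev e2, Pi.single_eq_same] at h4
        exact ((X.ne hc hw hP).1 h4).elim
    · exact (X.rel c hc w (b34 hw) (l, k) e1 hk _ (b34 h6) h5.symm).1
  rw [Finset.sum_eq_single_of_mem (l, k) (by exact Finset.mem_filter.2 ⟨h7, rfl⟩)]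
  · exact indicator_of_mem (show w ∈ Om A P c (l, k) from
      ⟨hw, hP, h2, h6, (X.ne h7 h6 (h5 ▸ hP)).1⟩) _
  · rintro ⟨l', k'⟩ hc' h8
    obtain rfl : l' = l := (Finset.mem_filter.1 hc').2
    refine indicator_of_notMem (fun h9 => h9.2.2.2.2 ?_) _
    rw [ta, ← eq_rev (k := k) fun e => h8 (by rw [e]), h4]

theorem bb_ta {c c' : Λ × Fin 2} (hc : c ∈ K) (hc' : c' ∈ K) {w : ℂ} (hw : w ∈ Om A P c c') :
    bb (G c) (s c) t (h c) w =
      bb (G c') (s c') t (h c') (ta A c c' w) * deriv (ta A c c') w := by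
  have h1 := (X.ta_mem hc hw).1
  have n := X.ne hc hw.1 hw.2.1
  have n' := X.ne hc' h1.1 h1.2.1
  have o := isOpen_ball.mem_nhds (b34 hw.1)
  have o' := isOpen_ball.mem_nhds (b34 h1.1)
  obtain ⟨C, hC⟩ : ∃ C, ∀ᶠ v in 𝓝 w, Ph (G c) (s c) t (h c) w v =
      Ph (G c') (s c') t (h c') (ta A c c' w) (ta A c c' v) + C := by
    by_cases e1 : c'.1 = c.1
    · obtain rfl : c' = c := by
        refine Prod.ext e1 ?_
        by_contra e2
        refine hw.2.2.2.2 ?_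
        rw [ta, e1, e_br c (b34 hw.1), eq_rev e2, Fin.rev_rev, Pi.single_eq_of_ne (rev_ne _).symm]
      refine ⟨0, mem_of_superset o fun v hv => ?_⟩
      simp only [mem_ofPred_eq, ta_self c' hv, ta_self c' (b34 hw.1), add_zero]
    · exact (X.rel c hc w (b34 hw.1) c' e1 (X.act c' hc') _ (b34 h1.1)
        (br_ta (X.act c hc) hw).symm).2 n.2 n'.2
  exact bb_trans (((X.sm c hc).contDiffAt o).differentiableAt (by simp))
    ((X.hol c hc).differentiableAt o) n.1 n.2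
    (((X.sm c' hc').contDiffAt o').differentiableAt (by simp))
    ((X.hol c' hc').differentiableAt o') n'.1 n'.2
    (ta_an (b34 hw.1) hw.2.2.1).differentiableAt.hasDerivAt hC

theorem int_M {c : Λ × Fin 2} (hc : c ∈ K) (a b : Λ) : IntegrableOn
    (fun w => V a (A.br c w) * dn (V b ∘ A.br c) (bb (G c) (s c) t (h c)) w) (ball 0 3) :=
  int3 fun w hw => (br_sm c (sub34 hw) (X.vs a)).continuousAt.mul
    (Complex.continuous_im.continuousAt.comp (cont_mul (br_sm c (sub34 hw) (X.vs b)) (by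
      by_cases e : w = 0 ∨ h c w = 0
      · exact Or.inr (X.lcw hc b w hw e)
      · exact Or.inl (bb_cont _ _ ((X.sm c hc).contDiffAt (isOpen_ball.mem_nhds (sub34 hw)))
          ((X.hol c hc).analyticOnNhd isOpen_ball w (sub34 hw)) (not_or.1 e).1 (not_or.1 e).2))))

theorem cov_M {c c' : Λ × Fin 2} (hc : c ∈ K) (hc' : c' ∈ K) (a b : Λ) :
    ∫ w in Om A P c c', V a (A.br c w) * dn (V b ∘ A.br c) (bb (G c) (s c) t (h c)) w =
      ∫ w in Om A P c' c, V a (A.br c' w) * dn (V b ∘ A.br c') (bb (G c') (s c') t (h c')) w := by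
  have e : ta A c c' '' Om A P c c' = Om A P c' c :=
    Subset.antisymm (by rintro _ ⟨w, hw, rfl⟩; exact (X.ta_mem hc hw).1) fun w hw =>
      ⟨_, (X.ta_mem hc' hw).1, (X.ta_mem hc' hw).2⟩
  have d : ∀ w ∈ Om A P c c', HasDerivAt (ta A c c') (deriv (ta A c c') w) w := fun w hw =>
    (ta_an (b34 hw.1) hw.2.2.1).differentiableAt.hasDerivAt
  rw [← e]
  refine cov (Om_open X.cl c c').measurableSet d
    (fun w hw v hv e => by rw [← (X.ta_mem hc hw).2, e, (X.ta_mem hc hv).2]) fun w hw => ?_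
  rw [br_ta (X.act c hc) hw, mul_left_comm, ← dn_trans
    ((br_sm c' (b34 hw.2.2.2.1) (X.vs b)).differentiableAt (by simp)) (d w hw) ?_
    (X.bb_ta hc hc' hw)]
  filter_upwards [(Om_open X.cl c c').mem_nhds hw] with v hv
  simp only [Function.comp_apply, br_ta (X.act c hc) hv]

theorem sum_zero :
    ∑ c ∈ K, ∫ w in ball 0 3, dn (V c.1 ∘ A.br c) (bb (G c) (s c) t (h c)) w = 0 := by
  classical
  have e1 : ∀ c ∈ K, ∫ w in ball 0 3, dn (V c.1 ∘ A.br c) (bb (G c) (s c) t (h c)) w =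
      ∑ c' ∈ K, ∫ w in Om A P c' c,
        V c'.1 (A.br c' w) * dn (V c.1 ∘ A.br c') (bb (G c') (s c') t (h c')) w := fun c hc => by
    rw [← Finset.sum_congr rfl fun c' hc' => X.cov_M hc hc' c'.1 c.1,
      X.split hc _ (fun l => X.int_M hc l c.1) fun l w _ h0 =>
        subset_tsupport _ (left_ne_zero_of_mul h0)]
    refine setIntegral_congr_fun measurableSet_ball fun w hw => ?_
    simp only [← Finset.sum_mul]
    rw [X.one c hc w (b34 hw), one_mul]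
  rw [Finset.sum_congr rfl e1, Finset.sum_comm]
  refine Finset.sum_eq_zero fun c hc => ?_
  rw [X.split hc _ (fun l => X.int_M hc c.1 l) fun l w hw h0 => ?_]
  · refine setIntegral_eq_zero_of_forall_eq_zero fun w hw => ?_
    simp only [dn]
    rw [← Finset.mul_sum, ← Complex.im_sum, ← Finset.sum_mul, ← d1_sum _ fun l _ =>
      (br_sm c (b34 hw) (X.vs l)).differentiableAt (by simp),
      d1_ev (a := 1) (F := fun v => ∑ i ∈ K.image Prod.fst, (V i ∘ A.br c) v) (mem_of_superset (isOpen_ball.mem_nhds (b34 hw)) fun v hv => X.one c hc v hv)]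
    simp
  · by_contra h1
    refine h0 ?_
    rw [dn, d1_ev (a := 0) (F := V l ∘ A.br c) ((br_cont c (b34 hw)).eventually
      (notMem_tsupport_iff_eventuallyEq.1 h1))]
    simp

end Ctx

theorem bumps [T2Space Z] (hb : A.Bump) (hP : P.Finite) : ∃ χ : Λ → Z → ℝ, ∀ l, A.SM (χ l) ∧
    (∀ z, 0 ≤ χ l z ∧ χ l z ≤ 1) ∧ (∀ p ∈ P, ∀ᶠ z in 𝓝 p, χ l z = χ l p) ∧
    (∀ z ∈ tsupport (χ l), z ∈ A.src l ∧ ‖A.e l z‖ ≤ 2) ∧
    ∀ z ∈ A.src l, A.e l z ∈ ball 0 1 → χ l z = 1 := by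
  refine Classical.skolem (p := fun l (χ : Z → ℝ) => A.SM χ ∧
    (∀ z, 0 ≤ χ z ∧ χ z ≤ 1) ∧ (∀ p ∈ P, ∀ᶠ z in 𝓝 p, χ z = χ p) ∧
    (∀ z ∈ tsupport χ, z ∈ A.src l ∧ ‖A.e l z‖ ≤ 2) ∧
    ∀ z ∈ A.src l, A.e l z ∈ ball 0 1 → χ z = 1) |>.1 fun l => ?_
  obtain ⟨a, b, h1, h2, h3, h4⟩ := gap (hP.image fun z => ‖A.e l z‖)
  let β : ContDiffBump (0 : E2) := ⟨a, b, by linarith, h2⟩
  have ts : tsupport β = closedBall 0 b := β.tsupport_eq
  have s4 : tsupport β ⊆ ball 0 4 := ts ▸ closedBall_subset_ball (by linarith)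
  obtain ⟨d, e⟩ := hb.ext_D l β ⟨β.contDiff, β.hasCompactSupport⟩ s4
  have sp : ∀ z ∈ tsupport (A.ext l β), z ∈ A.src l ∧ ‖A.e l z‖ ≤ b := by
    rw [e]
    rintro _ ⟨x, hx, rfl⟩
    refine ⟨A.symm_mem l (s4 hx), ?_⟩
    rw [A.e_symm l (s4 hx)]
    exact mem_closedBall_zero_iff.1 (ts ▸ hx)
  have on : ∀ z ∈ A.src l, A.e l z ∈ ball 0 a → A.ext l β z = 1 := fun z hz h5 => by
    rw [KA.ext, indicator_of_mem hz]
    exact β.one_of_mem_closedBall (ball_subset_closedBall h5)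
  refine ⟨A.ext l β, d.1, fun z => ⟨indicator_nonneg (fun _ _ => β.nonneg) z,
    indicator_apply_le' (fun _ => β.le_one) fun _ => zero_le_one⟩, fun p hp => ?_,
    fun z hz => ⟨(sp z hz).1, (sp z hz).2.trans h3.le⟩,
    fun z hz h5 => on z hz (ball_subset_ball h1.le h5)⟩
  by_cases h5 : p ∈ tsupport (A.ext l β)
  · obtain ⟨h6, h7⟩ := sp p h5
    have h8 := mem_ball_zero_iff.2 (h4 _ (mem_image_of_mem _ hp) h7)
    filter_upwards [(A.e l).open_source.mem_nhds h6,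
      (A.e l).continuousAt h6 (isOpen_ball.mem_nhds h8)] with z k1 k2
    rw [on z k1 k2, on p h6 h8]
  · have := notMem_tsupport_iff_eventuallyEq.1 h5
    filter_upwards [this] with z hz
    rw [hz, this.eq_of_nhds]
    rfl

theorem sm_prod {ι : Type*} {S : Finset ι} {U : ι → Z → ℝ} (h : ∀ i ∈ S, A.SM (U i)) :
    A.SM fun w => ∏ i ∈ S, U i w := fun z l hl => contDiffAt_prod fun i hi => h i hi z l hl

theorem parts [T2Space Z] (hb : A.Bump) (hP : P.Finite) (L : Finset Λ) (l₀ : Λ) :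
    ∃ V : Λ → Z → ℝ, (∀ l, A.SM (V l) ∧ (∀ z, 0 ≤ V l z) ∧
      (∀ p ∈ P, ∀ᶠ z in 𝓝 p, V l z = V l p) ∧
      ∀ z ∈ tsupport (V l), z ∈ A.src l ∧ ‖A.e l z‖ ≤ 2) ∧
    (∀ z ∈ A.src l₀, A.e l₀ z ∈ ball 0 1 → V l₀ z = 1) ∧
    ∀ l ∈ L, ∀ z ∈ A.src l, A.e l z ∈ ball 0 1 → ∑ l' ∈ L, V l' z = 1 := by
  classical
  obtain ⟨χ, hχ⟩ := bumps hb hP
  obtain ⟨f, hf⟩ := A.cnt.exists_injective_nat'
  let r : Λ → ℕ := fun l => if l = l₀ then 0 else f l + 1
  have hr : Function.Injective r := fun a b e => by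
    simp only [r] at e
    split_ifs at e with h1 h2 h2
    · rw [h1, h2]
    · exact hf (Nat.succ_injective e)
  let _ : LinearOrder Λ := LinearOrder.lift' r hr
  refine ⟨fun l z => χ l z * ∏ j ∈ L with j < l, (1 - χ j z), fun l => ⟨fun z =>
    ((hχ l).1 z).mul (sm_prod (fun j _ y => (KA.sm_const 1 y).sub ((hχ j).1 y)) z),
    fun z => mul_nonneg ((hχ l).2.1 z).1
      (Finset.prod_nonneg fun j _ => sub_nonneg.2 ((hχ j).2.1 z).2), fun p hp => ?_,
    fun z hz => (hχ l).2.2.2.1 z (tsupport_mul_subset_left hz)⟩, fun z hz h1 => ?_,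
    fun l hl z hz h1 => ?_⟩
  · filter_upwards [(hχ l).2.2.1 p hp, (eventually_all_finset L).2 fun j _ => (hχ j).2.2.1 p hp]
      with z k1 k2
    rw [k1, Finset.prod_congr rfl fun j hj => by rw [k2 j (Finset.mem_filter.1 hj).1]]
  · have : L.filter (· < l₀) = ∅ := Finset.filter_eq_empty_iff.2 fun j _ h2 => by
      have h3 : r j < r l₀ := h2
      simp [r] at h3
    simp only [this, Finset.prod_empty, mul_one]
    exact (hχ l₀).2.2.2.2 z hz h1
  · have := Finset.prod_one_sub_ordered L fun j => χ j z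
    rw [Finset.prod_eq_zero hl (by rw [(hχ l).2.2.2.2 z hz h1, sub_self])] at this
    exact (sub_eq_zero.1 this.symm).symm

end PDeg

variable {Z Λ : Type} [TopologicalSpace Z] [T2Space Z] [MeasurableSpace Z] [BorelSpace Z]
  {A : KA Z Λ}

open PDeg in
theorem deg (h : A.Std) (hd : DegF) : A.Deg := by
  classical
  intro K G s f t ht h1 h2 c₀ hc₀
  have fin : (⋃ c ∈ K, A.br c '' {w ∈ closedBall (0 : ℂ) 3 | w = 0 ∨ f c w = 0}).Finite :=
    K.finite_toSet.biUnion fun c hc =>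
      (zeros_fin (h1 c hc).2.2.2.2.1 (h1 c hc).2.2.2.2.2).image _
  obtain ⟨V, v1, v2, v3⟩ := parts h.bump fin (K.image Prod.fst) c₀.1
  have X : Ctx A K G s f t _ V :=
    { act := fun c hc => (h1 c hc).1
      sm := fun c hc => (h1 c hc).2.1
      hol := fun c hc => (h1 c hc).2.2.2.2.1
      rel := h2
      fin := fin
      cl := fin.isClosed
      mem := fun c hc w hw e => mem_biUnion hc (mem_image_of_mem _ ⟨hw, e⟩)
      vs := fun l => (v1 l).1
      lc := fun l => (v1 l).2.2.1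
      sp := fun l => (v1 l).2.2.2
      one := fun c hc w hw => by
        obtain ⟨l, k1, k2⟩ := A.cov (A.br c w)
        refine v3 l ?_ _ k1 k2
        by_cases e : l = c.1
        · exact e ▸ Finset.mem_image_of_mem _ hc
        obtain ⟨k, hk, k3⟩ := (A.hE l _ k1).1 (br_E (h1 c hc).1 hw)
        exact Finset.mem_image_of_mem Prod.fst (h2 c hc w hw (l, k) e hk _
          (coord_mem (A.map_src k1) _) (br_coord (c := (l, k)) k1 k3).symm).1 }
  have D := fun c (hc : c ∈ K) => disc hd (F := V c.1 ∘ A.br c)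
    (fun w hw => (br_sm c hw (X.vs _)).contDiffWithinAt) (fun w _ => (v1 _).2.1 _)
    (fun w hw k1 => by
      by_contra k2
      have := (X.sp c.1 _ (subset_tsupport _ k2)).2
      rw [e_br c hw, Pi.norm_single] at this
      exact this.not_gt k1)
    (X.lcw hc c.1) (X.sm c hc) (h1 c hc).2.2.1 ht (X.hol c hc) (h1 c hc).2.2.2.2.2
  obtain ⟨k1, k2⟩ := (D c₀ hc₀).2
    ((Finset.sum_eq_zero_iff_of_nonneg fun c hc => (D c hc).1).1 X.sum_zero c₀ hc₀)
  have k3 : ∀ w ∈ ball (0 : ℂ) 1, w ∈ ball (0 : ℂ) 4 ∧ 0 < (V c₀.1 ∘ A.br c₀) w := fun w hw => by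
    have k4 : w ∈ ball (0 : ℂ) 4 := ball_subset_ball (by norm_num) hw
    refine ⟨k4, ?_⟩
    rw [Function.comp_apply, v2 _ (br_src c₀ k4) (by rwa [e_br c₀ k4, sing_mem])]
    exact one_pos
  exact ⟨k1 (k3 0 (mem_ball_self one_pos)).2, fun w hw => k2 w (k3 w hw).1 (k3 w hw).2⟩

end Pool.Agent.Lib.MP_356dfe_ag.S
end
end

-- part Pool.Agent.Lib.MP_356dfe_ag.S.PAlg
section

/-! Pointwise algebra. -/

set_option autoImplicit false

open Set Filter Topology Metric MeasureTheory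
open scoped ContDiff ComplexConjugate Matrix Pointwise

noncomputable section

namespace Pool.Agent.Lib.MP_356dfe_ag.S

namespace PAlg

theorem md_pull (J S T : M2) : md (pull J S) (pull J T) = Complex.normSq J.det * md S T := by
  rw [md, md, ← Complex.re_ofReal_mul, Complex.normSq_eq_conj_mul_self, Matrix.det_fin_two]
  congr 1
  simp only [pull, Matrix.mul_apply, Fin.sum_univ_two, Matrix.transpose_apply, Matrix.map_apply,
    map_sub, map_mul]
  ring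

theorem ot_pull (J : M2) (a b : E2) : ot (a ᵥ* J) (b ᵥ* J) = pull J (ot a b) := by
  ext j k
  simp only [ot, pull, Matrix.mul_apply, Fin.sum_univ_two, Matrix.transpose_apply,
    Matrix.map_apply, Matrix.of_apply, Matrix.vecMul, dotProduct, map_add, map_mul]
  ring

theorem pull_herm (J S : M2) (h : S.IsHermitian) : (pull J S).IsHermitian :=
  Matrix.isHermitian_mul_mul_conjTranspose Jᵀ h

theorem pull_pull (J K S : M2) : pull J (pull K S) = pull (K * J) S := by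
  rw [pull, pull, pull, Matrix.transpose_mul, Matrix.map_mul (f := starRingEnd ℂ)]
  simp only [Matrix.mul_assoc]

theorem pull_one (S : M2) : pull 1 S = S := by
  rw [pull, Matrix.map_one _ (map_zero _) (map_one _), Matrix.transpose_one, one_mul, mul_one]

/-- the real matrix of a complex matrix -/
def JR (J : M2) : Matrix (Fin 4) (Fin 4) ℝ :=
  !![(J 0 0).re, -(J 0 0).im, (J 0 1).re, -(J 0 1).im;
    (J 0 0).im, (J 0 0).re, (J 0 1).im, (J 0 1).re;
    (J 1 0).re, -(J 1 0).im, (J 1 1).re, -(J 1 1).im;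
    (J 1 0).im, (J 1 0).re, (J 1 1).im, (J 1 1).re]

theorem det_JR (J : M2) : (JR J).det = Complex.normSq J.det := by
  simp [JR, Matrix.det_succ_row_zero, Fin.sum_univ_succ, Fin.succAbove, Complex.normSq_apply]
  ring

theorem rc_JR (J : M2) (a : E2) : rc (a ᵥ* J) = rc a ᵥ* JR J := by
  ext i
  fin_cases i <;> simp [rc, JR, Matrix.vecMul, dotProduct, Fin.sum_univ_succ] <;> ring

theorem det_pull (J : M2) (L : List E2) :
    det4 (L.map fun a => rc (a ᵥ* J)) = Complex.normSq J.det * det4 (L.map rc) := by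
  by_cases h : L.length = 4
  · obtain ⟨v, rfl⟩ : ∃ v : Fin 4 → E2, List.ofFn v = L := by
      rw [← h]; exact ⟨L.get, List.ofFn_get L⟩
    rw [List.map_ofFn, List.map_ofFn, det4_ofFn, det4_ofFn, ← det_JR, mul_comm, ← Matrix.det_mul]
    congr 1
    ext i j
    exact congrFun (rc_JR J (v i)) j
  · rw [det4_len (by simpa using h), det4_len (by simpa using h), mul_zero]

/-- the square of the Frobenius norm -/
def fr (S : M2) : ℝ := ∑ j, ∑ k, ‖S j k‖ ^ 2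

/-- the square of the Euclidean norm -/
def eu (a : E2) : ℝ := ‖a 0‖ ^ 2 + ‖a 1‖ ^ 2

theorem fr_eq (S : M2) : fr S = ‖S 0 0‖ ^ 2 + ‖S 0 1‖ ^ 2 + ‖S 1 0‖ ^ 2 + ‖S 1 1‖ ^ 2 := by
  simp only [fr, Fin.sum_univ_two, add_assoc]

theorem fr_nn (S : M2) : 0 ≤ fr S := by rw [fr_eq]; positivity

theorem eu_nn (a : E2) : 0 ≤ eu a := by rw [eu]; positivity

theorem cs2 (a b c d : ℂ) : ‖a * c + b * d‖ ^ 2 ≤ (‖a‖ ^ 2 + ‖b‖ ^ 2) * (‖c‖ ^ 2 + ‖d‖ ^ 2) := by
  have h : ‖a * c + b * d‖ ≤ ‖a‖ * ‖c‖ + ‖b‖ * ‖d‖ := by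
    simpa only [norm_mul] using norm_add_le (a * c) (b * d)
  nlinarith [pow_le_pow_left₀ (norm_nonneg _) h 2, sq_nonneg (‖a‖ * ‖d‖ - ‖b‖ * ‖c‖)]

theorem cs4 (a b c d e f g h : ℝ) : (a * e + b * f + c * g + d * h) ^ 2 ≤
    (a ^ 2 + b ^ 2 + c ^ 2 + d ^ 2) * (e ^ 2 + f ^ 2 + g ^ 2 + h ^ 2) := by
  nlinarith [sq_nonneg (a * f - b * e), sq_nonneg (a * g - c * e), sq_nonneg (a * h - d * e),
    sq_nonneg (b * g - c * f), sq_nonneg (b * h - d * f), sq_nonneg (c * h - d * g)]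

theorem abs_le {x A B : ℝ} (hA : 0 ≤ A) (h : x ^ 2 ≤ A * B) : |x| ≤ √A * √B := by
  rw [← Real.sqrt_mul hA]; exact Real.abs_le_sqrt h

theorem fr_mul (A B : M2) : fr (A * B) ≤ fr A * fr B := by
  simp only [fr_eq, Matrix.mul_apply, Fin.sum_univ_two]
  linarith [cs2 (A 0 0) (A 0 1) (B 0 0) (B 1 0), cs2 (A 0 0) (A 0 1) (B 0 1) (B 1 1),
    cs2 (A 1 0) (A 1 1) (B 0 0) (B 1 0), cs2 (A 1 0) (A 1 1) (B 0 1) (B 1 1)]

theorem fr_pull (J S : M2) : fr (pull J S) ≤ fr J ^ 2 * fr S := by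
  have h1 : fr Jᵀ = fr J := by simp only [fr_eq, Matrix.transpose_apply]; ring
  have h2 : fr (J.map conj) = fr J := by simp only [fr_eq, Matrix.map_apply, Complex.norm_conj]
  refine (fr_mul _ _).trans ((mul_le_mul_of_nonneg_right (fr_mul _ _) (fr_nn _)).trans_eq ?_)
  rw [h1, h2]; ring

theorem eu_mul (a : E2) (J : M2) : eu (a ᵥ* J) ≤ eu a * fr J := by
  simp only [fr_eq, eu, Matrix.vecMul, dotProduct, Fin.sum_univ_two]
  linarith [cs2 (a 0) (a 1) (J 0 0) (J 1 0), cs2 (a 0) (a 1) (J 0 1) (J 1 1)]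

theorem le_eu (a : E2) : ‖a‖ ^ 2 ≤ eu a := by
  rw [← Real.sq_sqrt (eu_nn a)]
  refine pow_le_pow_left₀ (norm_nonneg _) ((pi_norm_le_iff_of_nonneg (Real.sqrt_nonneg _)).2
    fun i => Real.le_sqrt_of_sq_le ?_) 2
  fin_cases i
  · exact le_add_of_nonneg_right (sq_nonneg _)
  · exact le_add_of_nonneg_left (sq_nonneg _)

theorem eu_le (a : E2) : eu a ≤ 2 * ‖a‖ ^ 2 := by
  have h := fun i => pow_le_pow_left₀ (norm_nonneg _) (norm_le_pi_norm a i) 2
  linarith [h 0, h 1, show eu a = ‖a 0‖ ^ 2 + ‖a 1‖ ^ 2 from rfl]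

theorem fr_ot (a b : E2) : fr (ot a b) = eu a * eu b := by
  simp only [fr_eq, eu, ot, Matrix.of_apply, norm_mul, Complex.norm_conj]; ring

theorem md_fr (S T : M2) : |md S T| ≤ √(fr S) * √(fr T) := by
  have h : |md S T| ≤ ‖S 0 0‖ * ‖T 1 1‖ + ‖S 0 1‖ * ‖T 1 0‖ + ‖S 1 0‖ * ‖T 0 1‖ +
      ‖S 1 1‖ * ‖T 0 0‖ := by
    refine (Complex.abs_re_le_norm _).trans ?_
    simp only [← norm_mul]
    linarith [norm_sub_le (S 0 0 * T 1 1 + S 1 1 * T 0 0 - S 0 1 * T 1 0) (S 1 0 * T 0 1),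
      norm_sub_le (S 0 0 * T 1 1 + S 1 1 * T 0 0) (S 0 1 * T 1 0),
      norm_add_le (S 0 0 * T 1 1) (S 1 1 * T 0 0)]
  refine h.trans ((le_abs_self _).trans (abs_le (fr_nn S) ?_))
  rw [fr_eq S]
  refine (cs4 _ _ _ _ _ _ _ _).trans_eq ?_
  rw [fr_eq T]; ring

theorem dt_one : dt 1 = 1 := by simp [dt, md]

theorem fr_one : fr 1 = 2 := by simp [fr_eq]; norm_num

theorem n1_one (a b : E2) : n1 1 a b =
    (a 0).re * (b 0).re + (a 0).im * (b 0).im + (a 1).re * (b 1).re + (a 1).im * (b 1).im := by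
  simp [n1, dt_one, md, ot]; ring

theorem eu_eq (a : E2) : eu a = (a 0).re ^ 2 + (a 0).im ^ 2 + (a 1).re ^ 2 + (a 1).im ^ 2 := by
  simp only [eu, Complex.sq_norm, Complex.normSq_apply]; ring

theorem n1_eu (a : E2) : n1 1 a a = eu a := by rw [n1_one, eu_eq]; ring

theorem ip_fr {S : M2} (h : S.IsHermitian) : ip 1 S S = fr S := by
  have h0 : (S 0 0).im = 0 := Complex.conj_eq_iff_im.1 (h.apply 0 0)
  have h1 : (S 1 1).im = 0 := Complex.conj_eq_iff_im.1 (h.apply 1 1)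
  have h2 : S 1 0 = conj (S 0 1) := (h.apply 1 0).symm
  simp [ip, tr, dt_one, md, fr_eq, Complex.sq_norm, Complex.normSq_apply, h0, h1, h2]
  ring

theorem tr_sq (S : M2) : tr 1 S * tr 1 S ≤ 2 * fr S := by
  have h := md_fr 1 S
  rw [tr, dt_one, div_one, ← abs_mul_abs_self]
  refine (mul_self_le_mul_self (abs_nonneg _) h).trans_eq ?_
  rw [mul_mul_mul_comm, Real.mul_self_sqrt (fr_nn _), Real.mul_self_sqrt (fr_nn _), fr_one]

theorem ip_abs (S : M2) : |ip 1 S S| ≤ 3 * fr S := by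
  have h := md_fr S S
  rw [Real.mul_self_sqrt (fr_nn _), _root_.abs_le] at h
  rw [ip, dt_one, div_one, _root_.abs_le]
  constructor <;> linarith [h.1, h.2, tr_sq S, mul_self_nonneg (tr 1 S), fr_nn S]

theorem had4 (v : Fin 4 → Fin 4 → ℝ) : |(Matrix.of v).det| ≤ ∏ i, √(∑ j, v i j ^ 2) := by
  have : Fact (Module.finrank ℝ (EuclideanSpace ℝ (Fin 4)) = 4) := ⟨by simp⟩
  have h := (EuclideanSpace.basisFun (Fin 4) ℝ).toBasis.orientation.abs_volumeForm_apply_le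
    fun i => WithLp.toLp 2 (v i)
  rw [Orientation.volumeForm_robust' _ (EuclideanSpace.basisFun (Fin 4) ℝ), Module.Basis.det_apply,
    ← Matrix.det_transpose] at h
  simp only [EuclideanSpace.norm_eq, Real.norm_eq_abs, sq_abs] at h
  exact h

theorem sqrt_rc (a : E2) : √(∑ j, rc a j ^ 2) = 2 * √(eu a) := by
  have h : ∑ j, rc a j ^ 2 = 2 ^ 2 * eu a := by
    simp [rc, eu_eq, Fin.sum_univ_succ]; ring
  rw [h, Real.sqrt_mul (by norm_num), Real.sqrt_sq (by norm_num)]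

theorem had_one (a b c d : E2) : |det4 [rc a, rc b, rc c, rc d]| ≤
    16 * √(eu a) * √(eu b) * √(eu c) * √(eu d) := by
  refine (had4 ![rc a, rc b, rc c, rc d]).trans_eq ?_
  rw [Fin.prod_univ_four]
  change √(∑ j, rc a j ^ 2) * √(∑ j, rc b j ^ 2) * √(∑ j, rc c j ^ 2) * √(∑ j, rc d j ^ 2) = _
  simp only [sqrt_rc]; ring

/-- Cholesky decomposition. -/
theorem chol {g : M2} (h : PD g) : ∃ J : M2, g = pull J 1 := by
  obtain ⟨hh, h0, hd⟩ := h
  have e0 : g 0 0 = (g 0 0).re := (Complex.conj_eq_iff_re.1 (hh.apply 0 0)).symm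
  have e1 : (g 1 1).im = 0 := Complex.conj_eq_iff_im.1 (hh.apply 1 1)
  have e2 : g 0 1 = conj (g 1 0) := (hh.apply 0 1).symm
  obtain ⟨s, hs, hs2⟩ : ∃ s : ℝ, 0 < s ∧ s * s = (g 0 0).re :=
    ⟨_, Real.sqrt_pos.2 h0, Real.mul_self_sqrt h0.le⟩
  obtain ⟨u, hu⟩ : ∃ u : ℝ, u * u = dt g := ⟨_, Real.mul_self_sqrt hd.le⟩
  have hs' : (s : ℂ) ≠ 0 := Complex.ofReal_ne_zero.2 hs.ne'
  have e3 : (u : ℂ) * u = s * s * g 1 1 - conj (g 1 0) * g 1 0 := by
    rw [← Complex.ofReal_mul, ← Complex.ofReal_mul, hu, hs2, dt, md, e2, e0]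
    refine Complex.ext ?_ ?_ <;> simp [e1] <;> ring
  refine ⟨!![s, g 1 0 / s; 0, u / s], ?_⟩
  ext j k
  fin_cases j <;> fin_cases k <;>
    simp [pull, Matrix.mul_apply, Fin.sum_univ_two, Complex.conj_ofReal]
  · rw [e0, ← hs2, Complex.ofReal_mul]
  · rw [e2]; field_simp
  · field_simp
  · field_simp
    linear_combination -e3

theorem dt_pull (J g : M2) : dt (pull J g) = Complex.normSq J.det * dt g := by
  rw [dt, dt, md_pull, mul_div_assoc]

theorem fr_tr (J : M2) : fr J = (pull J 1 0 0).re + (pull J 1 1 1).re := by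
  simp [fr_eq, pull, Matrix.mul_apply, Complex.sq_norm, Complex.normSq_apply]
  ring

theorem fr_inv (J : M2) : fr J⁻¹ = fr J / Complex.normSq J.det := by
  rw [Matrix.inv_def, Ring.inverse_eq_inv', Matrix.adjugate_fin_two, Complex.normSq_eq_norm_sq]
  simp [fr_eq, mul_pow]
  ring

variable {J : M2}

theorem div_pull (h : J.det ≠ 0) (g S T : M2) :
    md (pull J S) (pull J T) / dt (pull J g) = md S T / dt g := by
  rw [md_pull, dt_pull, mul_div_mul_left _ _ (Complex.normSq_pos.2 h).ne']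

theorem tr_pull (h : J.det ≠ 0) (g S : M2) : tr (pull J g) (pull J S) = tr g S := div_pull h g g S

theorem n1_pull (h : J.det ≠ 0) (g : M2) (a b : E2) :
    n1 (pull J g) (a ᵥ* J) (b ᵥ* J) = n1 g a b := by
  rw [n1, ot_pull, div_pull h, n1]

theorem ip_pull (h : J.det ≠ 0) (g S T : M2) :
    ip (pull J g) (pull J S) (pull J T) = ip g S T := by
  rw [ip, tr_pull h, tr_pull h, div_pull h, ip]

/-- Reduction to the identity matrix. -/
theorem red {g : M2} (h : PD g) : ∃ J : M2, J.det ≠ 0 ∧ g = pull J 1 ∧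
    (∀ a : E2, a = a ᵥ* J⁻¹ ᵥ* J) ∧ ∀ S, S = pull J (pull J⁻¹ S) := by
  obtain ⟨J, rfl⟩ := chol h
  have h1 : J.det ≠ 0 := fun e => by simpa [dt_pull, e] using h.2.2
  have h2 := Matrix.nonsing_inv_mul J (Ne.isUnit h1)
  exact ⟨J, h1, rfl, fun a => by rw [Matrix.vecMul_vecMul, h2, Matrix.vecMul_one],
    fun S => by rw [pull_pull, h2, pull_one]⟩

/-- The same, with the invariants written out. -/
theorem red' {g : M2} (h : PD g) : ∃ J K : M2, fr J = (g 0 0).re + (g 1 1).re ∧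
    fr K = fr J / dt g ∧ (∀ a : E2, a = a ᵥ* K ᵥ* J) ∧ (∀ S, S = pull J (pull K S)) ∧
    (∀ a b, n1 g a b = n1 1 (a ᵥ* K) (b ᵥ* K)) ∧ (∀ S, tr g S = tr 1 (pull K S)) ∧
    (∀ S T, ip g S T = ip 1 (pull K S) (pull K T)) ∧
    (∀ S T, md S T / dt g = md (pull K S) (pull K T)) ∧
    ∀ L : List E2, det4 (L.map rc) / dt g = det4 (L.map fun a => rc (a ᵥ* K)) := by
  obtain ⟨J, h1, rfl, h2, h3⟩ := red h
  refine ⟨J, J⁻¹, fr_tr J, by rw [fr_inv, dt_pull, dt_one, mul_one], h2, h3, fun a b => ?_,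
    fun S => ?_, fun S T => ?_, fun S T => ?_, fun L => ?_⟩
  · rw [← n1_pull h1 1, ← h2, ← h2]
  · rw [← tr_pull h1 1, ← h3]
  · rw [← ip_pull h1 1, ← h3, ← h3]
  · rw [← div_one (md (pull J⁻¹ S) _), ← dt_one, ← div_pull h1 1, ← h3, ← h3]
  · rw [det_pull, dt_pull, dt_one, mul_one, Matrix.det_nonsing_inv, Ring.inverse_eq_inv',
      map_inv₀, div_eq_inv_mul]

theorem unif (K : Set E2) (g : E2 → M2) (hK : IsCompact K)
    (hg : ∀ j k, ContinuousOn (fun x => g x j k) K) (h : ∀ x ∈ K, PD (g x)) :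
    ∃ R : ℝ, 1 ≤ R ∧ ∀ x ∈ K, dt (g x) ≤ R ∧ (dt (g x))⁻¹ ≤ R ∧
      (g x 0 0).re + (g x 1 1).re ≤ R := by
  have h1 : ContinuousOn (fun x => dt (g x)) K :=
    (Complex.continuous_re.comp_continuousOn (((((hg 0 0).mul (hg 1 1)).add
      ((hg 1 1).mul (hg 0 0))).sub ((hg 0 1).mul (hg 1 0))).sub ((hg 1 0).mul (hg 0 1)))).div_const 2
  obtain ⟨A, hA⟩ := hK.exists_bound_of_continuousOn h1
  obtain ⟨B, hB⟩ := hK.exists_bound_of_continuousOn (h1.inv₀ fun x hx => (h x hx).2.2.ne')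
  obtain ⟨C, hC⟩ := hK.exists_bound_of_continuousOn
    ((Complex.continuous_re.comp_continuousOn (hg 0 0)).add
      (Complex.continuous_re.comp_continuousOn (hg 1 1)))
  exact ⟨max 1 (max A (max B C)), le_max_left _ _, fun x hx =>
    ⟨le_max_of_le_right (le_max_of_le_left ((le_abs_self _).trans (hA x hx))),
      le_max_of_le_right (le_max_of_le_right (le_max_of_le_left ((le_abs_self _).trans (hB x hx)))),
      le_max_of_le_right (le_max_of_le_right (le_max_of_le_right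
        ((le_abs_self _).trans (hC x hx))))⟩⟩

theorem bnd {g : M2} (h : PD g) {R : ℝ} (h1 : (dt g)⁻¹ ≤ R) (h2 : (g 0 0).re + (g 1 1).re ≤ R) :
    (∀ a, ‖a‖ ^ 2 ≤ R * n1 g a a ∧ n1 g a a ≤ 2 * R ^ 2 * ‖a‖ ^ 2) ∧
      (∀ S : M2, S.IsHermitian → fr S ≤ R ^ 2 * ip g S S ∧ ip g S S ≤ R ^ 4 * fr S) ∧
      ∀ S : M2, |ip g S S| ≤ 3 * R ^ 4 * fr S := by
  obtain ⟨J, K, e1, e2, e3, e4, e5, -, e6, -⟩ := red' h
  have hJ : fr J ≤ R := e1 ▸ h2
  have hK : fr K ≤ R ^ 2 := by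
    rw [e2, div_eq_mul_inv, sq]
    exact mul_le_mul hJ h1 (inv_pos.2 h.2.2).le ((fr_nn J).trans hJ)
  have k1 : ∀ S, fr (pull K S) ≤ R ^ 4 * fr S := fun S => (fr_pull K S).trans
    (mul_le_mul_of_nonneg_right ((pow_le_pow_left₀ (fr_nn K) hK 2).trans_eq (by ring)) (fr_nn S))
  refine ⟨fun a => ⟨?_, ?_⟩, fun S hS => ⟨?_, ?_⟩, fun S => ?_⟩
  · rw [e5, n1_eu, mul_comm]
    refine (le_eu a).trans ?_
    nth_rewrite 1 [e3 a]
    exact (eu_mul _ J).trans (mul_le_mul_of_nonneg_left hJ (eu_nn _))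
  · rw [e5, n1_eu]
    exact (eu_mul a K).trans ((mul_le_mul (eu_le a) hK (fr_nn K) (by positivity)).trans_eq
      (by ring))
  · rw [e6, ip_fr (pull_herm K S hS)]
    nth_rewrite 1 [e4 S]
    exact (fr_pull J _).trans (mul_le_mul_of_nonneg_right (pow_le_pow_left₀ (fr_nn J) hJ 2)
      (fr_nn _))
  · rw [e6, ip_fr (pull_herm K S hS)]; exact k1 S
  · rw [e6]; linarith [ip_abs (pull K S), k1 S]

theorem n1_nn (g : M2) (a : E2) (h : PD g) : 0 ≤ n1 g a a := by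
  obtain ⟨J, K, -, -, -, -, e, -⟩ := red' h
  rw [e, n1_eu]; exact eu_nn _

theorem ip_nn (g S : M2) (h : PD g) (hS : S.IsHermitian) : 0 ≤ ip g S S := by
  obtain ⟨J, K, -, -, -, -, -, -, e, -⟩ := red' h
  rw [e, ip_fr (pull_herm K S hS)]; exact fr_nn _

end PAlg

open PAlg in
theorem alg : Alg := by
  refine ⟨md_pull, ot_pull, pull_herm, det_pull, n1_nn, fun g a h h0 => ?_, fun g a b h => ?_,
    fun g a b h => ?_, fun g a b h => ?_, ip_nn, fun g S T h hS hT => ?_, fun g S h hS => ?_,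
    fun g S T h hS hT => ?_, fun g S a b h hS => ?_, fun a b => ?_, fun g a b c d h => ?_,
    fun K g hK hg h => ?_, fun K g hK hg h => ?_⟩
  · have h1 := ((bnd h (le_max_left _ _) (le_max_right _ _)).1 a).1
    rw [h0, mul_zero] at h1
    exact norm_eq_zero.1 (pow_eq_zero_iff two_ne_zero |>.1 (h1.antisymm (sq_nonneg _)))
  · obtain ⟨J, K, -, -, -, -, e, -⟩ := red' h
    rw [e, e, n1_one, n1_one]; ring
  · obtain ⟨J, K, -, -, -, -, e, -⟩ := red' h
    rw [e, e, e, n1_eu, n1_eu, n1_one]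
    refine abs_le (eu_nn _) ?_
    rw [eu_eq, eu_eq]; exact cs4 _ _ _ _ _ _ _ _
  · have h1 := n1_nn g (a - b) h
    simp only [n1_sub, sub_n1, n1_add, add_n1] at h1 ⊢
    linarith
  · have h1 := ip_nn g (S - T) h (hS.sub hT)
    simp only [ip, tr_add, tr_sub, md_add, add_md, md_sub, sub_md, add_div, sub_div] at h1 ⊢
    linarith
  · obtain ⟨J, K, -, -, -, -, -, e, e', -⟩ := red' h
    rw [e, e', ip_fr (pull_herm K S hS)]
    refine abs_le_of_sq_le_sq' ?_ (by positivity) |> _root_.abs_le.2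
    rw [mul_pow, Real.sq_sqrt (fr_nn _)]
    linarith [tr_sq (pull K S), fr_nn (pull K S)]
  · obtain ⟨J, K, -, -, -, -, -, -, e, e', -⟩ := red' h
    rw [e, e, e', ip_fr (pull_herm K S hS), ip_fr (pull_herm K T hT), mul_assoc]
    have h1 := md_fr (pull K S) (pull K T)
    linarith [abs_nonneg (md (pull K S) (pull K T))]
  · obtain ⟨J, K, -, -, -, -, e'', -, e, e', -⟩ := red' h
    rw [e, e', e'', e'', ip_fr (pull_herm K S hS), n1_eu, n1_eu, ← ot_pull, mul_assoc, mul_assoc]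
    have h1 := md_fr (pull K S) (ot (a ᵥ* K) (b ᵥ* K))
    rw [fr_ot, Real.sqrt_mul (eu_nn _)] at h1
    linarith [abs_nonneg (md (pull K S) (ot (a ᵥ* K) (b ᵥ* K)))]
  · simp [md, ot, Complex.normSq_apply]
    ring
  · obtain ⟨J, K, -, -, -, -, e, -, -, -, e'⟩ := red' h
    rw [e, e, e, e, n1_eu, n1_eu, n1_eu, n1_eu]
    exact (congrArg _ (e' [a, b, c, d])).trans_le (had_one _ _ _ _)
  · obtain ⟨R, hR, H⟩ := unif K g hK hg h
    have h0 : 0 < R := zero_lt_one.trans_le hR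
    have k : ∀ n ≤ 4, R ^ n ≤ 2 * R ^ 4 := fun n hn => by
      linarith [pow_le_pow_right₀ hR hn, pow_pos h0 4]
    have k1 : R ≤ 2 * R ^ 4 := by simpa using k 1 (by norm_num)
    refine ⟨(2 * R ^ 4)⁻¹, by positivity, fun x hx => ?_⟩
    obtain ⟨h1, h2, h3⟩ := H x hx
    obtain ⟨b1, b2, -⟩ := bnd (h x hx) h2 h3
    rw [inv_inv]
    refine ⟨inv_le_of_inv_le₀ (h x hx).2.2 (h2.trans k1), h1.trans k1, fun a => ⟨?_, ?_⟩,
      fun S hS => ⟨?_, ?_⟩⟩
    · rw [inv_mul_le_iff₀ (by positivity)]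
      exact (b1 a).1.trans (mul_le_mul_of_nonneg_right k1 (n1_nn _ a (h x hx)))
    · exact (b1 a).2.trans (mul_le_mul_of_nonneg_right
        (by linarith [pow_le_pow_right₀ hR (show 2 ≤ 4 by norm_num)]) (sq_nonneg _))
    · rw [inv_mul_le_iff₀ (by positivity)]
      exact (b2 S hS).1.trans (mul_le_mul_of_nonneg_right (k 2 (by norm_num))
        (ip_nn _ S (h x hx) hS))
    · exact (b2 S hS).2.trans (mul_le_mul_of_nonneg_right (k 4 le_rfl) (fr_nn S))
  · obtain ⟨R, -, H⟩ := unif K g hK hg h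
    exact ⟨3 * R ^ 4, fun x hx => (bnd (h x hx) (H x hx).2.1 (H x hx).2.2).2.2⟩

end Pool.Agent.Lib.MP_356dfe_ag.S
end
end
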