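import Pool.Agent.Lib.MP_356dfe_ag.S.Basic
import Pool.Agent.Lib.MP_356dfe_ag.S.PLiftK

-- part Pool.Agent.Lib.MP_356dfe_ag.S.PKam
section

/-! The atlas of the resolution. -/

set_option autoImplicit false

open Set Filter Topology Metric Pool.Agent.Shared.SingHom
open scoped ContDiff Pointwise

noncomputable section

namespace Pool.Agent.Lib.MP_356dfe_ag.S

namespace PKam

open Projectivization Matrix

theorem du_congr {u v : E2 → ℝ} {x : E2} (h : u =ᶠ[𝓝 x] v) : du u x = du v x := by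
  funext j
  have : (fun y => (u y : ℂ)) =ᶠ[𝓝 x] fun y => (v y : ℂ) := h.mono fun y hy => congrArg _ hy
  simp only [du, dh, this.fderiv_eq]

theorem dba_congr {a b : E2 → E2} {x : E2} (h : a =ᶠ[𝓝 x] b) : dba a x = dba b x := by
  ext j k
  have : (fun y => a y j) =ᶠ[𝓝 x] fun y => b y j := h.mono fun y hy => congrFun hy j
  simp only [dba, db, Matrix.of_apply, this.fderiv_eq]

variable {N : ℕ} {X : Set (PN N)}

/-- the potential of a lift -/
def pt (s : E2 → Fin (N + 1) → ℂ) (y : E2) : ℝ := Real.log (∑ i, ‖s y i‖ ^ 2)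

theorem sum_pos {v : Fin (N + 1) → ℂ} (hv : v ≠ 0) : 0 < ∑ i, ‖v i‖ ^ 2 := by
  obtain ⟨i, hi⟩ := Function.ne_iff.1 hv
  exact Finset.sum_pos' (fun _ _ => by positivity) ⟨i, Finset.mem_univ _,
    pow_pos (norm_pos_iff.2 hi) 2⟩

theorem pt_sm {s : E2 → Fin (N + 1) → ℂ} {u : E2} (h : AnalyticAt ℂ s u) (h0 : s u ≠ 0) :
    ContDiffAt ℝ ∞ (pt s) u := by
  have h1 : ContDiffAt ℝ ∞ s u := h.contDiffAt.restrict_scalars ℝ
  exact (ContDiffAt.sum fun i _ => (contDiffAt_pi.1 h1 i).norm_sq ℂ).log (sum_pos h0).ne'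

/-- `s` lifts the inverse of the chart near `u` -/
def Lf (e : OpenPartialHomeomorph X E2) (s : E2 → Fin (N + 1) → ℂ) (u : E2) : Prop :=
  AnalyticAt ℂ s u ∧ ∀ᶠ u' in 𝓝 u, ∃ h : s u' ≠ 0, mk ℂ (s u') h = (e.symm u').1

theorem imm {e : OpenPartialHomeomorph X E2} (he : IsChart e) {z : X} (hz : z ∈ e.source)
    {s : E2 → Fin (N + 1) → ℂ} (hs : Lf e s (e z)) (v : E2) (c : ℂ)
    (h : fderiv ℂ s (e z) v = c • s (e z)) : v = 0 := by
  obtain ⟨-, F, h1, h2⟩ := (he.1 z hz).loc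
  obtain ⟨h3, h4⟩ := hs.2.self_of_nhds
  rw [e.left_inv hz] at h4
  have hF := (h1 _ h3 h4).differentiableAt.hasFDerivAt
  have a1 : F ∘ s =ᶠ[𝓝 (e z)] id := by
    filter_upwards [hs.2, symm_eventually e hz h2, e.eventually_right_inverse (e.map_source hz)]
      with u ⟨b1, b2⟩ b3 b4
    exact (b3 _ b1 b2).symm.trans b4
  have a2 : fderiv ℂ F (s (e z)) (fderiv ℂ s (e z) v) = v := by
    have := (hF.comp (e z) hs.1.differentiableAt.hasFDerivAt).fderiv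
    rw [a1.fderiv_eq, fderiv_id] at this
    exact (congrArg (fun L : E2 →L[ℂ] E2 => L v) this).symm
  have a3 : fderiv ℂ F (s (e z)) (s (e z)) = 0 := by
    have b1 : HasDerivAt (fun t : ℂ => t • s (e z)) (s (e z)) 1 := by
      simpa using (hasDerivAt_id (1 : ℂ)).smul_const (s (e z))
    have b2 : HasDerivAt (fun t : ℂ => F (t • s (e z))) (fderiv ℂ F (s (e z)) (s (e z))) 1 :=
      HasFDerivAt.comp_hasDerivAt (l := F) 1 (by rwa [one_smul]) b1
    have b3 : (fun t : ℂ => F (t • s (e z))) =ᶠ[𝓝 1] fun _ => e z := by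
      filter_upwards [isOpen_ne.mem_nhds (one_ne_zero (α := ℂ))] with t ht
      exact (h2.self_of_nhds _ (smul_ne_zero ht h3)
        (((mk_eq_mk_iff' ℂ _ _ _ h3).2 ⟨t, rfl⟩).trans h4)).symm
    exact b2.unique ((hasDerivAt_const 1 (e z)).congr_of_eventuallyEq b3)
  rw [← a2, h, map_smul, a3, smul_zero]

theorem law (hc : Calc) {e e' : OpenPartialHomeomorph X E2} (he : IsChart e) (he' : IsChart e')
    {z : X} (hz : z ∈ e.source) (hz' : z ∈ e'.source) {s s' : E2 → Fin (N + 1) → ℂ}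
    (hs : Lf e s (e z)) (hs' : Lf e' s' (e' z)) :
    lev (pt s) (e z) = pull (jac (e' ∘ e.symm) (e z)) (lev (pt s') (e' z)) := by
  set T := e' ∘ e.symm with hT
  have hT1 : AnalyticAt ℂ T (e z) := (he'.1 z hz').an he hz
  have hT2 : T (e z) = e' z := by simp only [hT, Function.comp_apply, e.left_inv hz]
  have hT3 : Tendsto T (𝓝 (e z)) (𝓝 (e' z)) := hT2 ▸ hT1.continuousAt.tendsto
  obtain ⟨h0, -⟩ := hs'.2.self_of_nhds
  obtain ⟨i, hi⟩ := Function.ne_iff.1 h0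
  replace hi : s' (T (e z)) i ≠ 0 := hT2 ▸ hi
  have hs1 : AnalyticAt ℂ (s' ∘ T) (e z) := hs'.1.comp_of_eq hT1 hT2
  let lam : E2 → ℂ := fun y => s y i / s' (T y) i
  have hl : AnalyticAt ℂ lam (e z) :=
    (analyticAt_pi_iff.1 hs.1 i).div (analyticAt_pi_iff.1 hs1 i) hi
  have key : ∀ᶠ y in 𝓝 (e z), lam y ≠ 0 ∧ s' (T y) ≠ 0 ∧
      pt s y = Real.log (Complex.normSq (lam y)) + (pt s' ∘ T) y := by
    filter_upwards [hs.2, hT3.eventually hs'.2,
      symm_eventually e hz (e'.open_source.mem_nhds hz'),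
      (analyticAt_pi_iff.1 hs1 i).continuousAt.eventually_ne hi] with y ⟨b1, b2⟩ ⟨b3, b4⟩ b5 b6
    have b7 : e'.symm (T y) = e.symm y := e'.left_inv b5
    rw [b7, ← b2] at b4
    obtain ⟨a, ha⟩ := (mk_eq_mk_iff' ℂ _ _ _ _).1 b4.symm
    have b8 : lam y = a := by
      simp only [lam, ← ha, Pi.smul_apply, smul_eq_mul]
      exact mul_div_cancel_right₀ a b6
    have b9 : a ≠ 0 := left_ne_zero_of_smul (ha ▸ b1)
    refine ⟨b8 ▸ b9, b3, ?_⟩
    rw [b8, Function.comp_apply, pt, pt, ← Real.log_mul (Complex.normSq_pos.2 b9).ne'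
      (sum_pos b3).ne', ← ha, Finset.mul_sum]
    simp only [Pi.smul_apply, smul_eq_mul, norm_mul, mul_pow, Complex.normSq_eq_norm_sq]
  have hp : ContDiffAt ℝ ∞ (pt s') (T (e z)) := hT2 ▸ pt_sm hs'.1 h0
  have e1 : du (pt s) =ᶠ[𝓝 (e z)] fun y =>
      (fun j => fderiv ℂ lam y (Pi.single j 1) / lam y) + du (pt s') (T y) ᵥ* jac T y := by
    filter_upwards [key, key.eventually_nhds, hl.eventually_analyticAt, hT1.eventually_analyticAt,
      hT3.eventually hs'.1.eventually_analyticAt] with y b1 b2 b3 b4 b5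
    have c1 : DifferentiableAt ℝ (pt s') (T y) := (pt_sm b5 b1.2.1).differentiableAt (by simp)
    have c2 : DifferentiableAt ℝ (fun y => Real.log (Complex.normSq (lam y))) y := by
      simp only [Complex.normSq_eq_norm_sq]
      exact ((b3.differentiableAt.restrictScalars ℝ).norm_sq ℂ).log
        (pow_ne_zero _ (norm_ne_zero_iff.2 b1.1))
    rw [du_congr (b2.mono fun w hw => hw.2.2), hc.du_add _ _ _ c2
      (c1.comp y (b4.differentiableAt.restrictScalars ℝ)), hc.du_log _ _ b3.differentiableAt b1.1,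
      hc.du_comp _ _ _ c1 b4.differentiableAt]
    simp only [(hc.dh_hol _ _ b3.differentiableAt _).1]
  have d1 : DifferentiableAt ℂ (fun y j => fderiv ℂ lam y (Pi.single j 1) / lam y) (e z) :=
    differentiableAt_pi.2 fun j => ((((ContinuousLinearMap.apply ℂ ℂ
      (Pi.single j 1 : E2)).analyticAt _).comp hl.fderiv).div hl
        key.self_of_nhds.1).differentiableAt
  have d2 : DifferentiableAt ℝ (du (pt s')) (T (e z)) :=
    (hc.sm_du _ _ hp).differentiableAt (by simp)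
  have d3 : DifferentiableAt ℝ (fun y => du (pt s') (T y) ᵥ* jac T y) (e z) := by
    refine differentiableAt_pi.2 fun j => ?_
    simp only [vecMul, dotProduct]
    exact DifferentiableAt.fun_sum fun k _ => (differentiableAt_pi.1
      (d2.comp (e z) (hT1.differentiableAt.restrictScalars ℝ)) k).mul
      ((hc.sm_jac _ _ hT1 k j).differentiableAt.restrictScalars ℝ)
  rw [lev, dba_congr e1, hc.dba_add _ _ _ (d1.restrictScalars ℝ) d3, hc.dba_hol _ _ d1,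
    hc.dba_comp _ _ _ d2 hT1, zero_add, hT2]
  rfl

theorem norm {e : OpenPartialHomeomorph X E2} (he : IsChart e) {x : X} (hx : x ∈ e.source)
    {W : Set X} (hW : W ∈ 𝓝 x) : ∃ (e' : OpenPartialHomeomorph X E2)
      (s : E2 → Fin (N + 1) → ℂ), IsChart e' ∧ e'.target = ball 0 4 ∧ x ∈ e'.source ∧ e' x = 0 ∧
      e'.source ⊆ W ∧ (∀ z k, e x k = 0 → (e' z k = 0 ↔ e z k = 0)) ∧
      ∀ u ∈ ball (0 : E2) 4, Lf e' s u := by
  obtain ⟨s, h1, h2⟩ := he.2 _ (e.map_source hx)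
  obtain ⟨r, hr, h3⟩ := Metric.eventually_nhds_iff_ball.1 ((h1.eventually_analyticAt.and
    h2.eventually_nhds).and ((symm_eventually e hx hW).and
      (e.open_target.mem_nhds (e.map_source hx))))
  have hc : ((r / 4 : ℝ) : ℂ) ≠ 0 := by exact_mod_cast (by positivity : r / 4 ≠ 0)
  let B : E2 ≃ₜ E2 := (Homeomorph.smulOfNeZero ((r / 4 : ℝ) : ℂ) hc).trans
    (Homeomorph.addLeft (e x))
  have B1 : ∀ u, B u = e x + ((r / 4 : ℝ) : ℂ) • u := fun u => rfl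
  have B2 : ∀ u, B.symm u = ((r / 4 : ℝ) : ℂ)⁻¹ • (u - e x) := fun u => by
    rw [Homeomorph.symm_apply_eq, B1, smul_inv_smul₀ hc, add_sub_cancel]
  have B3 : ∀ u ∈ ball (0 : E2) 4, B u ∈ ball (e x) r := fun u hu => by
    rw [B1, mem_ball_iff_norm, add_sub_cancel_left, norm_smul, Complex.norm_real,
      Real.norm_of_nonneg (by positivity)]
    have := mem_ball_zero_iff.1 hu
    nlinarith
  have B4 : ∀ u, AnalyticAt ℂ B u := fun u =>
    (funext B1 : ⇑B = _) ▸ analyticAt_const.add analyticAt_id.fun_const_smul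
  have B5 : ∀ u, AnalyticAt ℂ B.symm u := fun u =>
    (funext B2 : ⇑B.symm = _) ▸ (analyticAt_id.fun_sub analyticAt_const).fun_const_smul
  let f := (B.toOpenPartialHomeomorph.restrOpen (ball 0 4) isOpen_ball).trans e.symm
  have f1 : f.source = ball 0 4 := by
    ext u
    exact ⟨fun h => h.1.2, fun h => ⟨⟨trivial, h⟩, (h3 _ (B3 u h)).2.2⟩⟩
  have f2 : ∀ z, f.symm z = B.symm (e z) := fun _ => rfl
  have f3 : ∀ u, f u = e.symm (B u) := fun _ => rfl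
  have f4 : f.target ⊆ e.source := fun z hz => hz.1
  have f5 : ∀ u ∈ ball (0 : E2) 4, Lf f.symm (s ∘ B) u := fun u hu =>
    ⟨(h3 _ (B3 u hu)).1.1.comp (B4 u), B.continuous.continuousAt.eventually (h3 _ (B3 u hu)).1.2⟩
  have f6 : f.symm x = 0 := by rw [f2, B2, sub_self, smul_zero]
  refine ⟨f.symm, s ∘ B, ⟨fun z hz => ?_, fun u hu => ⟨_, f5 u (f1 ▸ hu)⟩⟩, f1, ?_, f6,
    fun z hz => ?_, fun z k hk => ?_, f5⟩
  · obtain ⟨F, a1, a2⟩ := he.1 z (f4 hz)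
    exact ⟨B.symm ∘ F, (B5 _).comp a1, a2.mono fun w h hw y hy => congrArg B.symm (h hw y hy)⟩
  · have := f.map_source (f1 ▸ mem_ball_self (by norm_num) : (0 : E2) ∈ f.source)
    rwa [f3, B1, smul_zero, add_zero, e.left_inv hx] at this
  · have a1 := f.map_target hz
    have a2 := (h3 _ (B3 _ (f1 ▸ a1))).2.1
    rwa [← f3, f.right_inv hz] at a2
  · rw [f2, B2, Pi.smul_apply, Pi.sub_apply, hk, sub_zero, smul_eq_zero, or_iff_right
      (inv_ne_zero hc)]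

/-- the set `E` is a coordinate axis near `x` -/
def T1 (E : Set X) (x : X) : Prop := ∃ (e : OpenPartialHomeomorph X E2) (k : Fin 2), IsChart e ∧
  x ∈ e.source ∧ e x k = 0 ∧ ∀ᶠ y in 𝓝 x, y ∈ E ↔ e y k = 0

theorem node {E : Set X} (hE : IsClosed E) (h : ∀ z ∈ E, ∃ e : OpenPartialHomeomorph X E2,
    IsChart e ∧ z ∈ e.source ∧ e z = 0 ∧ ((∀ y ∈ e.source, y ∈ E ↔ e y 0 = 0) ∨
      ∀ y ∈ e.source, y ∈ E ↔ e y 0 * e y 1 = 0)) (y : X) :
    ∀ᶠ x in 𝓝 y, x ∈ E → ¬ T1 E x → x = y := by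
  by_cases hy : y ∈ E
  · obtain ⟨e, he, h1, h2, h3⟩ := h y hy
    filter_upwards [e.open_source.mem_nhds h1] with x hx hxE hT
    have o := e.open_source.mem_nhds hx
    have c : ∀ k, ContinuousAt (fun z => e z k) x := fun k =>
      (continuous_apply k).continuousAt.comp (e.continuousAt hx)
    rcases h3 with h3 | h3
    · exact (hT ⟨e, 0, he, hx, (h3 x hx).1 hxE, mem_of_superset o h3⟩).elim
    · by_contra hne
      have a1 : e x ≠ 0 := fun a => hne (e.injOn hx h1 (a.trans h2.symm))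
      by_cases a2 : e x 0 = 0
      · have a3 : e x 1 ≠ 0 := fun a => a1 (funext fun k => by fin_cases k <;> assumption)
        refine hT ⟨e, 0, he, hx, a2, ?_⟩
        filter_upwards [o, (c 1).eventually_ne a3] with z b1 b2
        rw [h3 z b1, mul_eq_zero, or_iff_left b2]
      · refine hT ⟨e, 1, he, hx, (mul_eq_zero.1 ((h3 x hx).1 hxE)).resolve_left a2, ?_⟩
        filter_upwards [o, (c 0).eventually_ne a2] with z b1 b2
        rw [h3 z b1, mul_eq_zero, or_iff_right b2]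
  · filter_upwards [hE.isOpen_compl.mem_nhds hy] with x hx hxE
    exact (hx hxE).elim

theorem base {E : Set X} (hE : IsClosed E) (hs : Sing X 2 = ∅)
    (h : ∀ z ∈ E, ∃ e : OpenPartialHomeomorph X E2,
    IsChart e ∧ z ∈ e.source ∧ e z = 0 ∧ ((∀ y ∈ e.source, y ∈ E ↔ e y 0 = 0) ∨
      ∀ y ∈ e.source, y ∈ E ↔ e y 0 * e y 1 = 0)) (x : X) :
    ∃ (e : OpenPartialHomeomorph X E2) (a : Finset (Fin 2)), IsChart e ∧ x ∈ e.source ∧
      (∀ k ∈ a, e x k = 0) ∧ (∀ᶠ y in 𝓝 x, y ∈ E ↔ ∃ k ∈ a, e y k = 0) ∧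
      (a.Nonempty → x ∈ E) ∧ (a = Finset.univ → ¬ T1 E x) := by
  by_cases hx : x ∈ E
  · by_cases hT : T1 E x
    · obtain ⟨e, k, h1, h2, h3, h4⟩ := hT
      refine ⟨e, {k}, h1, h2, by simpa using h3, by simpa using h4, fun _ => hx, fun a => ?_⟩
      exact absurd (congrArg Finset.card a) (by simp)
    · obtain ⟨e, he, h1, h2, h3⟩ := h x hx
      have o := e.open_source.mem_nhds h1
      rcases h3 with h3 | h3
      · exact (hT ⟨e, 0, he, h1, congrFun h2 0, mem_of_superset o h3⟩).elim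
      · refine ⟨e, Finset.univ, he, h1, fun k _ => congrFun h2 k, ?_, fun _ => hx, fun _ => hT⟩
        filter_upwards [o] with y hy
        simp [h3 y hy]
  · obtain ⟨e, he, h1⟩ : ∃ e : OpenPartialHomeomorph X E2, IsChart e ∧ x ∈ e.source :=
      not_not.1 (show x ∉ Sing X 2 from hs ▸ notMem_empty x)
    refine ⟨e, ∅, he, h1, by simp, ?_, by simp, fun a => absurd a (by decide)⟩
    filter_upwards [hE.isOpen_compl.mem_nhds hx] with y hy
    simpa using hy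

end PKam

open PKam in
theorem kam (hc : Calc) (hf : FS) (hp : PreK) : Kam := by
  intro N N' I J π hS hR hπ U hU
  have := pn_t2 (N := N)
  have := pn_t2 (N := N')
  have := var_compact (I := J)
  have hE : IsClosed (π ⁻¹' Sing (Var I) 2) := hS.isClosed.preimage hπ
  choose e₀ a h1 h2 h3 h4 h5 h6 using base hE hR.smooth hR.nc
  choose e s g1 g2 g3 g4 g5 g6 g7 using fun x => norm (h1 x) (h2 x)
    (inter_mem (hU x) ((h4 x).and (node hE hR.nc x)))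
  have g8 : ∀ x, ∀ z ∈ (e x).source, Lf (e x) (s x) (e x z) := fun x z hz =>
    g7 x _ (g2 x ▸ (e x).map_source hz)
  have p1 : ∀ x, ∀ u ∈ ball (0 : E2) 4, PD (lev (pt (s x)) u) := fun x u hu => by
    have b1 : u ∈ (e x).target := g2 x ▸ hu
    have b2 := (e x).map_target b1
    refine hf N' (s x) u (g7 x u hu).1 (g7 x u hu).2.self_of_nhds.1 fun v t h => ?_
    rw [← (e x).right_inv b1] at h
    exact imm (g1 x) b2 (g8 x _ b2) v t h
  have p2 : ∀ x, ∀ z ∈ (e x).source, z ∈ π ⁻¹' Sing (Var I) 2 ↔ ∃ k ∈ a x, e x z k = 0 :=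
    fun x z hz => (g5 x hz).2.1.trans
      (exists_congr fun k => and_congr_right fun hk => (g6 x z k (h3 x k hk)).symm)
  obtain ⟨m, A, c, a1, a2⟩ := hp (Var J) (π ⁻¹' Sing (Var I) 2) e (fun x => pt (s x)) a
    (fun x => ⟨g2 x, g3 x, g4 x, fun u hu => (pt_sm (g7 x u hu).1
      (g7 x u hu).2.self_of_nhds.1).contDiffWithinAt, p1 x, p2 x⟩)
    (fun x y z hx hy => ⟨((g1 y).1 z hy).an (g1 x) hx,
      law hc (g1 x) (g1 y) hx hy (g8 x z hx) (g8 y z hy)⟩)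
    fun x y hx hy => ((g5 y hy).2.2 (h5 x (hx ▸ Finset.univ_nonempty)) (h6 x hx)).symm
  refine ⟨m, A, a1, fun l => ⟨(a2 l).1 ▸ g1 _, c l, ?_, fun h => a1 ▸ h5 _ ((a2 l).2 ▸ h)⟩⟩
  rw [KA.src, (a2 l).1]
  exact fun z hz => (g5 _ hz).1

end Pool.Agent.Lib.MP_356dfe_ag.S
end
end

-- part Pool.Agent.Lib.MP_356dfe_ag.S.PLiftV
section

/-! Lifting covers. -/

set_option autoImplicit false

open Set Filter Topology Metric Pool.Agent.Shared.SingHom
open scoped ContDiff Pointwise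

noncomputable section

namespace Pool.Agent.Lib.MP_356dfe_ag.S

namespace PLiftV

variable {G Z M : Type} [Group G] [TopologicalSpace Z] [MulAction G Z] [TopologicalSpace M]
  {q : Z → M} {W W' : Set Z} {U U' C : Set M}

/-- `W` is a sheet over `U` -/
structure Sh (q : Z → M) (G : Type) [Group G] [MulAction G Z] (W : Set Z) (U : Set M) : Prop where
  op : IsOpen W
  map : ∀ z ∈ W, q z ∈ U
  sur : ∀ x ∈ U, ∃ z ∈ W, q z = x
  free : ∀ (g : G), ∀ z ∈ W, g • z ∈ W → g = 1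
  cpt : ∃ K, IsCompact K ∧ W ⊆ K

omit [TopologicalSpace M] in
theorem exists_sh (h : Small q G U) : ∃ W, Sh q G W U := by
  obtain ⟨W, K, h1, h2, h3, rfl, h4⟩ := h
  exact ⟨W, h1, fun z hz => mem_image_of_mem _ hz, fun x hx => hx,
    fun g z hz hz' => h4 g ⟨g • z, smul_mem_smul_set hz, hz'⟩, K, h2, h3⟩

theorem Sh.inj (hq : IsQuotientCoveringMap q G) (h : Sh q G W U) : InjOn q W := by
  intro a ha b hb e
  obtain ⟨g, rfl⟩ := hq.apply_eq_iff_mem_orbit.1 e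
  have h1 : g = 1 := h.free g b hb ha
  subst h1
  exact one_smul G b

theorem Sh.ex (hq : IsQuotientCoveringMap q G) (h : Sh q G W U) {z : Z} (hz : q z ∈ U) :
    ∃ g : G, g⁻¹ • z ∈ W := by
  obtain ⟨w, hw, e⟩ := h.sur _ hz
  obtain ⟨g, rfl⟩ := hq.apply_eq_iff_mem_orbit.1 e.symm
  exact ⟨g, by simpa using hw⟩

omit [TopologicalSpace M] in
theorem Sh.uniq (h : Sh q G W U) {z : Z} {g g' : G} (h1 : g⁻¹ • z ∈ W) (h2 : g'⁻¹ • z ∈ W) :
    g = g' := by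
  have h3 : g'⁻¹ * g = 1 := h.free _ _ h1 (by rwa [mul_smul, smul_inv_smul])
  exact (inv_mul_eq_one.1 h3).symm

theorem Sh.tr (hq : IsQuotientCoveringMap q G) (h : Sh q G W U) (g : G) :
    Sh q G {z | g⁻¹ • z ∈ W} U := by
  have := hq.toContinuousConstSMul
  obtain ⟨K, hK, hWK⟩ := h.cpt
  refine ⟨h.op.preimage (continuous_const_smul g⁻¹), fun z hz => ?_, fun x hx => ?_,
    fun t z hz hz' => ?_, g • K, hK.smul g, fun z hz => mem_smul_set_iff_inv_smul_mem.2 (hWK hz)⟩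
  · rw [← hq.map_smul g⁻¹]
    exact h.map _ hz
  · obtain ⟨w, hw, e⟩ := h.sur x hx
    exact ⟨g • w, by simpa using hw, by rw [hq.map_smul, e]⟩
  · have h1 : (t⁻¹ * g)⁻¹ • z ∈ W := by
      rw [mul_inv_rev, inv_inv, mul_smul]
      exact hz'
    have h2 : t⁻¹ * g = g := h.uniq h1 hz
    exact inv_eq_one.1 (mul_eq_right.1 h2)

theorem Sh.conn (hq : IsQuotientCoveringMap q G) (h : Sh q G W U) (h' : Sh q G W' U')
    (hC : IsPreconnected C) (hU : C ⊆ U) (hU' : C ⊆ U') {z₀ : Z} (h1 : z₀ ∈ W) (h2 : z₀ ∈ W')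
    (h3 : q z₀ ∈ C) {z : Z} (hz : z ∈ W) (hzC : q z ∈ C) : z ∈ W' := by
  have ho := hq.isOpenQuotientMap.isOpenMap
  have o1 : IsOpen (q '' (W ∩ W')) := ho _ (h.op.inter h'.op)
  have o2 : IsOpen (q '' (W ∩ ⋃ g : G, ⋃ _ : g ≠ 1, {z | g⁻¹ • z ∈ W'})) :=
    ho _ (h.op.inter (isOpen_iUnion fun g => isOpen_iUnion fun _ => (h'.tr hq g).op))
  have hs := hC.subset_left_of_subset_union o1 o2 (disjoint_left.2 ?_) ?_ ⟨_, h3, z₀, ⟨h1, h2⟩, rfl⟩
  · obtain ⟨w, hw, e⟩ := hs hzC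
    rw [← h.inj hq hw.1 hz e]
    exact hw.2
  · rintro _ ⟨a, ha, rfl⟩ ⟨b, hb, e⟩
    have e' : b = a := h.inj hq hb.1 ha.1 e
    subst e'
    obtain ⟨g, hg, hb'⟩ := mem_iUnion₂.1 hb.2
    exact hg (h'.uniq hb' (by simpa using ha.2))
  · intro x hx
    obtain ⟨w, hw, rfl⟩ := h.sur x (hU hx)
    obtain ⟨g, hg⟩ := h'.ex hq (hU' hx)
    by_cases e : g = 1
    · subst e
      exact Or.inl ⟨w, ⟨hw, by simpa using hg⟩, rfl⟩
    · exact Or.inr ⟨w, ⟨hw, mem_iUnion₂.2 ⟨g, e, hg⟩⟩, rfl⟩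

theorem exists_fit (hq : IsQuotientCoveringMap q G) (h : Small q G U) (h' : Sh q G W' U')
    (hC : IsPreconnected (U ∩ U')) : ∃ W, Sh q G W U ∧ ∀ z ∈ W', q z ∈ U → z ∈ W := by
  obtain ⟨W, hW⟩ := exists_sh h
  rcases (U ∩ U').eq_empty_or_nonempty with e | ⟨x, hx⟩
  · exact ⟨W, hW, fun z hz hz' => (e.subset ⟨hz', h'.map z hz⟩).elim⟩
  · obtain ⟨w, hw, rfl⟩ := h'.sur x hx.2
    obtain ⟨g, hg⟩ := hW.ex hq hx.1
    exact ⟨_, hW.tr hq g, fun z hz hz' => h'.conn hq (hW.tr hq g) hC inter_subset_right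
      inter_subset_left hw hg hx hz ⟨hz', h'.map z hz⟩⟩

theorem mem_VV {X ι : Type} {V : ι → Set X} {σ : Finset ι} {z : X} :
    z ∈ VV V σ ↔ ∀ l ∈ σ, z ∈ V l := mem_iInter₂

open Classical in
theorem mem_nerve {X : Type} {n : ℕ} {V : Fin n → Set X} {s : Finset (Fin n)} :
    s ∈ nerve V ↔ s.Nonempty ∧ ∃ x, ∀ i ∈ s, x ∈ V i := by
  simp only [nerve, Finset.mem_filter, Finset.mem_univ, true_and, Set.Nonempty, mem_iInter]

end PLiftV

open PLiftV in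
theorem liftV : LiftV := by
  intro G Z M _ _ _ _ _ _ q hq n V B hV hB hBs hc
  have := t2_of_cover hq.isCoveringMap
  obtain ⟨N, hN⟩ := exists_sh hBs
  have hfit : ∀ i, ∃ W, Sh q G W (V i) ∧ ∀ z ∈ N, q z ∈ V i → z ∈ W := fun i =>
    exists_fit hq (hV i).2 hN (by
      have h1 := (hc {i} (Finset.singleton_nonempty i)).2
      have h2 : VV V {i} = V i := by
        ext x
        simp [mem_VV]
      rwa [h2] at h1)
  choose W hW hWN using hfit
  obtain ⟨V', hV'⟩ : ∃ V' : Vx G n → Set Z, ∀ l z, z ∈ V' l ↔ l.1⁻¹ • z ∈ W l.2 :=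
    ⟨fun l => {z | l.1⁻¹ • z ∈ W l.2}, fun _ _ => Iff.rfl⟩
  have hS : ∀ l, Sh q G (V' l) (V l.2) := fun l => by
    have h1 : V' l = {z | l.1⁻¹ • z ∈ W l.2} := Set.ext (hV' l)
    rw [h1]
    exact (hW l.2).tr hq l.1
  have hu : ∀ l l' z, z ∈ V' l → z ∈ V' l' → l.2 = l'.2 → l = l' := fun l l' z h1 h2 e => by
    rw [hV'] at h1 h2
    rw [← e] at h2
    exact Prod.ext ((hW l.2).uniq h1 h2) e
  have hmap : ∀ (σ : Finset (Vx G n)) z, z ∈ VV V' σ → q z ∈ VV V (σ.image fun l => l.2) :=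
    fun σ z hz => mem_VV.2 fun i hi => by
      obtain ⟨l, hl, rfl⟩ := Finset.mem_image.1 hi
      exact (hS l).map z (mem_VV.1 hz l hl)
  have hbij : ∀ σ : Finset (Vx G n), σ.Nonempty → (VV V' σ).Nonempty →
      BijOn q (VV V' σ) (VV V (σ.image fun l => l.2)) := by
    rintro σ ⟨l₀, hl₀⟩ ⟨z₀, hz₀⟩
    have hsub : ∀ l ∈ σ, VV V (σ.image fun l => l.2) ⊆ V l.2 := fun l hl x hx =>
      mem_VV.1 hx _ (Finset.mem_image_of_mem _ hl)
    refine ⟨hmap σ, ((hS l₀).inj hq).mono fun z hz => mem_VV.1 hz l₀ hl₀, fun x hx => ?_⟩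
    obtain ⟨z, hz, rfl⟩ := (hS l₀).sur x (hsub l₀ hl₀ hx)
    exact ⟨z, mem_VV.2 fun l hl => (hS l₀).conn hq (hS l)
      (hc _ (Finset.Nonempty.image ⟨l₀, hl₀⟩ _)).1 (hsub l₀ hl₀) (hsub l hl) (mem_VV.1 hz₀ l₀ hl₀)
      (mem_VV.1 hz₀ l hl) (hmap σ z₀ hz₀) hz hx, rfl⟩
  refine ⟨V', N, hN.op, ⟨hN.map, hN.inj hq, hN.sur⟩, hN.cpt, fun z hz => ?_, fun l => ?_,
    fun g l z => ?_, ?_, fun l l' ⟨z, hz⟩ e => hu l l' z hz.1 hz.2 e, hbij, ⟨?_, ?_, ?_⟩,
    fun σ => ⟨?_, ?_⟩⟩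
  · obtain ⟨g, hg⟩ := hN.ex hq hz
    exact ⟨g, hg, fun g' hg' => hN.uniq hg' hg⟩
  · obtain ⟨K, hK, h1⟩ := (hS l).cpt
    exact ⟨(hS l).op, hK.closure_of_subset h1⟩
  · rw [hV', hV', Vx.smul_fst, Vx.smul_snd, mul_inv_rev, mul_smul, inv_smul_smul]
  · ext z
    simp only [mem_iUnion, mem_preimage]
    constructor
    · rintro ⟨l, hl⟩
      exact ⟨l.2, (hS l).map z hl⟩
    · rintro ⟨i, hi⟩
      obtain ⟨g, hg⟩ := (hW i).ex hq hi
      exact ⟨Vx.mk g i, (hV' _ _).2 hg⟩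
  · rintro σ ⟨⟨h1, z, hz⟩, -⟩
    exact Finset.mem_coe.2 (mem_nerve.2 ⟨h1.image _, q z, mem_VV.1 (hmap σ z hz)⟩)
  · rintro σ ⟨⟨h1, z, hz⟩, hn⟩ σ' ⟨⟨h1', h2'⟩, hn'⟩ e
    replace e : (σ.image fun l => l.2) = σ'.image fun l => l.2 := e
    have hl : ∀ l ∈ σ, ∃ l' ∈ σ', l'.2 = l.2 := fun l hl =>
      Finset.mem_image.1 (e ▸ Finset.mem_image_of_mem (fun l => l.2) hl)
    have hl' : ∀ l' ∈ σ', ∃ l ∈ σ, l.2 = l'.2 := fun l hl =>
      Finset.mem_image.1 (e.symm ▸ Finset.mem_image_of_mem (fun l => l.2) hl)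
    obtain ⟨l₀, hl₀, hm⟩ := σ.exists_min_image (fun l => l.2) h1
    obtain ⟨l₁, hl₁, e₁⟩ := hl l₀ hl₀
    have e₂ : l₁ = l₀ := Prod.ext ((hn' l₁ hl₁ fun l' h' => by
      obtain ⟨l, h, e'⟩ := hl' l' h'
      rw [e₁, ← e']
      exact hm l h).trans (hn l₀ hl₀ hm).symm) e₁
    subst e₂
    obtain ⟨z', hz', e₃⟩ := (hbij σ' h1' h2').2.2 (e ▸ hmap σ z hz)
    have e₄ : z' = z := (hS l₁).inj hq (mem_VV.1 hz' l₁ hl₁) (mem_VV.1 hz l₁ hl₀) e₃
    subst e₄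
    ext l
    constructor
    · intro h
      obtain ⟨l', h', e'⟩ := hl l h
      rwa [← hu l' l z' (mem_VV.1 hz' l' h') (mem_VV.1 hz l h) e']
    · intro h
      obtain ⟨l', h', e'⟩ := hl' l h
      rwa [← hu l' l z' (mem_VV.1 hz l' h') (mem_VV.1 hz' l h) e']
  · intro s hs
    obtain ⟨h1, x, hx⟩ := mem_nerve.1 (Finset.mem_coe.1 hs)
    obtain ⟨i₀, hi₀, hm⟩ := s.exists_min_image (fun i => i) h1
    obtain ⟨z, hz, rfl⟩ := (hW i₀).sur x (hx i₀ hi₀)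
    have hg : ∀ i, ∃ g : G, i ∈ s → g⁻¹ • z ∈ W i := fun i => by
      by_cases hi : i ∈ s
      · obtain ⟨g, hg⟩ := (hW i).ex hq (hx i hi)
        exact ⟨g, fun _ => hg⟩
      · exact ⟨1, fun h => (hi h).elim⟩
    choose γ hγ using hg
    refine ⟨s.image fun i => Vx.mk (γ i) i, ⟨⟨h1.image _, z, mem_VV.2 fun l hl => ?_⟩,
      fun l hl hl' => ?_⟩, ?_⟩
    · obtain ⟨i, hi, rfl⟩ := Finset.mem_image.1 hl
      exact (hV' _ _).2 (hγ i hi)
    · obtain ⟨i, hi, rfl⟩ := Finset.mem_image.1 hl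
      have e : i = i₀ := le_antisymm (hl' _ (Finset.mem_image_of_mem _ hi₀)) (hm i hi)
      subst e
      exact (hW i).uniq (hγ i hi) (by simpa using hz)
    · beta_reduce
      rw [Finset.image_image]
      exact Finset.image_id
  · rintro ⟨h1, z, hz, hzB⟩
    obtain ⟨g, hg⟩ := hN.ex hq hzB
    have he : ∀ l ∈ σ, Vx.mk g l.2 = l := fun l hl => hu _ _ z ((hV' _ _).2 (hWN l.2 _ hg (by
      rw [hq.map_smul]
      exact (hS l).map z (mem_VV.1 hz l hl)))) (mem_VV.1 hz l hl) rfl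
    refine ⟨g, σ.image fun l => l.2, mem_nerve.2 ⟨h1.image _, q z, fun i hi =>
      ⟨mem_VV.1 (hmap σ z hz) i hi, hzB⟩⟩, ?_⟩
    rw [Finset.image_image]
    exact (Finset.image_id (s := σ)).symm.trans (Finset.image_congr fun l hl => (he l hl).symm)
  · rintro ⟨g, s, hs, rfl⟩
    obtain ⟨⟨i₀, hi₀⟩, x, hx⟩ := mem_nerve.1 hs
    obtain ⟨w, hw, rfl⟩ := hN.sur x (hx i₀ hi₀).2
    refine ⟨Finset.Nonempty.image ⟨i₀, hi₀⟩ _, g • w, mem_VV.2 fun l hl => ?_, ?_⟩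
    · obtain ⟨i, hi, rfl⟩ := Finset.mem_image.1 hl
      refine (hV' _ _).2 ?_
      change g⁻¹ • g • w ∈ W i
      rw [inv_smul_smul]
      exact hWN i w hw (hx i hi).1
    · rw [mem_preimage, hq.map_smul]
      exact (hx i₀ hi₀).2

end Pool.Agent.Lib.MP_356dfe_ag.S
end
end
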