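import Pool.Agent.Lib.MP_356dfe_ag.S.Basic

-- part Pool.Agent.Lib.MP_356dfe_ag.S.PZZ
section

/-! The zigzag identities. -/

set_option autoImplicit false

open Set Filter Topology Metric MeasureTheory
open scoped ContDiff ComplexConjugate Matrix Pointwise

noncomputable section

namespace Pool.Agent.Lib.MP_356dfe_ag.S

namespace PZZ

section cur

variable {X : Type} [TopologicalSpace X] {𝒮 : Set (X → ℝ)} {K : Set X}
  {T : (X → ℝ) → List (X → ℝ) → ℝ}

theorem cons_mem {f : X → ℝ} {L : List (X → ℝ)} (hf : f ∈ 𝒮) (hL : ∀ p ∈ L, p ∈ 𝒮) :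
    ∀ p ∈ f :: L, p ∈ 𝒮 := List.forall_mem_cons.2 ⟨hf, hL⟩

theorem const_of_zero {f : X → ℝ} {x : X} (h : ∀ᶠ w in 𝓝 x, f w = 0) :
    ∀ᶠ w in 𝓝 x, f w = f x := h.mono fun _ hw => hw.trans h.self_of_nhds.symm

theorem cur_d (hS : Cls 𝒮) (h : Cur 𝒮 K T) : Cur 𝒮 K fun f L => T 1 (f :: L) where
  add f hf f' hf' L hL := h.slot 1 hS.one f hf f' hf' [] L (by simp) hL
  slot f hf g hg g' hg' L L' hL hL' := h.slot 1 hS.one g hg g' hg' (f :: L) L' (cons_mem hf hL) hL'
  nul f hf L hL hn := h.nul 1 hS.one _ (cons_mem hf hL) fun x hx => Or.inr <| by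
    rcases hn x hx with h1 | ⟨g, hg, h1⟩
    · exact ⟨f, List.mem_cons_self, const_of_zero h1⟩
    · exact ⟨g, List.mem_cons_of_mem _ hg, h1⟩

theorem cur_m (hS : Cls 𝒮) (h : Cur 𝒮 K T) {u : X → ℝ} (hu : u ∈ 𝒮) :
    Cur 𝒮 (K ∩ tsupport u) fun f L => T (u * f) L where
  add f hf f' hf' L hL := by
    rw [mul_add]
    exact h.add _ (hS.mul _ hu _ hf) _ (hS.mul _ hu _ hf') L hL
  slot f hf g hg g' hg' L L' hL hL' := h.slot _ (hS.mul _ hu _ hf) g hg g' hg' L L' hL hL'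
  nul f hf L hL hn := h.nul _ (hS.mul _ hu _ hf) L hL fun x hx => by
    by_cases hx' : x ∈ tsupport u
    · rcases hn x ⟨hx, hx'⟩ with h1 | h1
      · exact Or.inl (h1.mono fun w hw => by rw [Pi.mul_apply, hw, mul_zero])
      · exact Or.inr h1
    · exact Or.inl ((notMem_tsupport_iff_eventuallyEq.1 hx').mono fun w hw => by
        rw [Pi.mul_apply, hw, Pi.zero_apply, zero_mul])

theorem cur_i (h : Cur 𝒮 K T) {u : X → ℝ} (hu : u ∈ 𝒮) :
    Cur 𝒮 (K ∩ tsupport u) fun f L => T f (u :: L) where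
  add f hf f' hf' L hL := h.add f hf f' hf' _ (cons_mem hu hL)
  slot f hf g hg g' hg' L L' hL hL' := h.slot f hf g hg g' hg' (u :: L) L' (cons_mem hu hL) hL'
  nul f hf L hL hn := h.nul f hf _ (cons_mem hu hL) fun x hx => by
    by_cases hx' : x ∈ tsupport u
    · rcases hn x ⟨hx, hx'⟩ with h1 | ⟨g, hg, h1⟩
      · exact Or.inl h1
      · exact Or.inr ⟨g, List.mem_cons_of_mem _ hg, h1⟩
    · exact Or.inr ⟨u, List.mem_cons_self,
        const_of_zero (notMem_tsupport_iff_eventuallyEq.1 hx')⟩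

theorem off (h : Cur 𝒮 K T) {u : X → ℝ} (hu : u ∈ 𝒮) (hK : ∀ x ∈ K, x ∉ tsupport u)
    {L : List (X → ℝ)} (hL : ∀ p ∈ L, p ∈ 𝒮) : T u L = 0 :=
  h.nul u hu L hL fun x hx => Or.inl (notMem_tsupport_iff_eventuallyEq.1 (hK x hx))

theorem one_one (hS : Cls 𝒮) (h : Cur 𝒮 K T) {f : X → ℝ} (hf : f ∈ 𝒮)
    {L : List (X → ℝ)} (hL : ∀ p ∈ L, p ∈ 𝒮) : T f (1 :: L) = 0 :=
  h.nul f hf _ (cons_mem hS.one hL) fun _ _ =>
    Or.inr ⟨1, List.mem_cons_self, Eventually.of_forall fun _ => rfl⟩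

theorem congr_near (hS : Cls 𝒮) (h : Cur 𝒮 K T) {f g : X → ℝ} (hf : f ∈ 𝒮) (hg : g ∈ 𝒮)
    (e : ∀ x ∈ K, ∀ᶠ w in 𝓝 x, f w = g w) {L : List (X → ℝ)} (hL : ∀ p ∈ L, p ∈ 𝒮) :
    T f L = T g L := by
  have h1 := hS.add f hf _ (hS.neg g hg)
  have h2 := h.add g hg _ h1 L hL
  rw [h.nul _ h1 L hL fun x hx => Or.inl ((e x hx).mono fun w hw => by simp [hw]), add_zero,
    add_add_neg_cancel'_right] at h2
  exact h2

theorem sum_mem (hS : Cls 𝒮) (h : Cur 𝒮 K T) {ι : Type} {u : ι → X → ℝ} (hu : ∀ i, u i ∈ 𝒮)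
    {L : List (X → ℝ)} (hL : ∀ p ∈ L, p ∈ 𝒮) (s : Finset ι) :
    ∑ i ∈ s, u i ∈ 𝒮 ∧ T (∑ i ∈ s, u i) L = ∑ i ∈ s, T (u i) L := by
  classical
  induction s using Finset.induction_on with
  | empty =>
    have h0 : (0 : X → ℝ) ∈ 𝒮 := by simpa using hS.add _ hS.one _ (hS.neg _ hS.one)
    exact ⟨h0, h.nul _ h0 L hL fun _ _ => Or.inl (Eventually.of_forall fun _ => rfl)⟩
  | insert i s hi ih =>
    rw [Finset.sum_insert hi, Finset.sum_insert hi, h.add _ (hu i) _ ih.1 L hL, ih.2]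
    exact ⟨hS.add _ (hu i) _ ih.1, rfl⟩

end cur

/-- the hypotheses -/
structure Hy {G X : Type} [Group G] [TopologicalSpace X] {n : ℕ} (𝒮 : Set (X → ℝ))
    (𝒜 : Set (Finset (Vx G n))) (V : Vx G n → Set X) (ψ : Vx G n → X → ℝ) (O : Set X) : Prop where
  cls : Cls 𝒮
  cx : Cx 𝒜
  op : ∀ l, IsOpen (V l)
  opO : IsOpen O
  nv : ∀ σ, σ.Nonempty → (VV V σ).Nonempty → σ ∈ 𝒜
  mem : ∀ l, ψ l ∈ 𝒮
  sup : ∀ l, tsupport (ψ l) ⊆ V l
  one : ∀ x ∈ O, ∑ᶠ l, ψ l x = 1

variable {G X : Type} [Group G] [TopologicalSpace X] {n : ℕ} {𝒮 : Set (X → ℝ)}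
  {𝒜 : Set (Finset (Vx G n))} {V : Vx G n → Set X} {ψ : Vx G n → X → ℝ} {O : Set X}
  {c : Finset (Vx G n) → ℝ} {q : ℕ} {K : Set X} {T : (X → ℝ) → List (X → ℝ) → ℝ}

omit [Group G] [TopologicalSpace X] in
theorem VV_insert (j : Vx G n) (τ : Finset (Vx G n)) : VV V (insert j τ) = V j ∩ VV V τ :=
  Finset.set_biInter_insert _ _ _

omit [Group G] [TopologicalSpace X] in
theorem VV_single (j : Vx G n) : VV V {j} = V j := Finset.set_biInter_singleton _ _

theorem Hy.map (h : Hy 𝒮 𝒜 V ψ O) (js : List (Vx G n)) : ∀ p ∈ js.map ψ, p ∈ 𝒮 := by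
  intro p hp
  obtain ⟨j, -, rfl⟩ := List.mem_map.1 hp
  exact h.mem j

theorem Hy.near (h : Hy 𝒮 𝒜 V ψ O) {τ : Finset (Vx G n)} (hτ : τ.Nonempty) {x : X}
    (hx : x ∈ VV V τ) {l : Vx G n} (hl : x ∈ V l) : l ∈ τ ∪ nb 𝒜 τ := by
  by_cases h1 : l ∈ τ
  · exact Finset.mem_union_left _ h1
  · exact Finset.mem_union_right _ ((h.cx.mem_nb hτ).2 ⟨h1, h.nv _ (Finset.insert_nonempty _ _)
      ⟨x, by rw [VV_insert]; exact ⟨hl, hx⟩⟩⟩)

theorem Hy.part (h : Hy 𝒮 𝒜 V ψ O) (hT : Cur 𝒮 K T) (hK : K ⊆ O) {s : Finset (Vx G n)}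
    (hs : ∀ l, ∀ x ∈ K, x ∈ V l → l ∈ s) {L : List (X → ℝ)} (hL : ∀ p ∈ L, p ∈ 𝒮) :
    T 1 L = ∑ l ∈ s, T (ψ l) L := by
  obtain ⟨h1, h2⟩ := sum_mem h.cls hT h.mem hL s
  rw [← h2]
  refine congr_near h.cls hT h.cls.one h1 (fun x hx => ?_) hL
  obtain ⟨l₀, hl₀⟩ : ∃ l, ψ l x ≠ 0 := by
    by_contra hc
    have := h.one x (hK hx)
    simp only [not_exists, not_not] at hc
    simp [hc] at this
  have h3 : x ∈ V l₀ := h.sup l₀ (subset_tsupport _ hl₀)
  have h4 : ∀ᶠ w in 𝓝 x, ∀ l ∈ ({l₀} ∪ nb 𝒜 {l₀}) \ s, ψ l w = 0 :=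
    (eventually_all_finset _).2 fun l hl => notMem_tsupport_iff_eventuallyEq.1 fun hx' =>
      (Finset.mem_sdiff.1 hl).2 (hs l x hx (h.sup l hx'))
  filter_upwards [h4, (h.op l₀).mem_nhds h3, h.opO.mem_nhds (hK hx)] with w w1 w2 w3
  rw [Pi.one_apply, Finset.sum_apply, ← h.one w w3]
  refine finsum_eq_sum_of_support_subset _ fun l hl => ?_
  by_contra hc
  exact hl (w1 l (Finset.mem_sdiff.2 ⟨h.near (Finset.singleton_nonempty _)
    (by rwa [VV_single]) (h.sup l (subset_tsupport _ hl)), hc⟩))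

theorem Hy.pr_part (h : Hy 𝒮 𝒜 V ψ O) (hT : Cur 𝒮 K T) (hK : K ⊆ O) {s : Finset (Vx G n)}
    (hs : ∀ l, ∀ x ∈ K, x ∈ V l → l ∈ s) (k : ℕ) (τ : Finset (Vx G n)) :
    Pr 𝒜 ψ c k τ (T 1) = ∑ l ∈ s, Pr 𝒜 ψ c k τ (T (ψ l)) := by
  have := Pr_sum (𝒜 := 𝒜) (ψ := ψ) (c := c) s (fun _ => 1) k τ fun l => T (ψ l)
  simp only [one_smul] at this
  rw [← this]
  exact Pr_congr k τ fun js _ => h.part hT hK hs (h.map js)

theorem Hy.pr_off (h : Hy 𝒮 𝒜 V ψ O) (hT : Cur 𝒮 K T) {s : Finset (Vx G n)}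
    (hs : ∀ l, ∀ x ∈ K, x ∈ V l → l ∈ s) {l : Vx G n} (hl : l ∉ s) (k : ℕ)
    (τ : Finset (Vx G n)) : Pr 𝒜 ψ c k τ (T (ψ l)) = 0 :=
  Pr_zero k τ fun js _ => off hT (h.mem l) (fun x hx hx' => hl (hs l x hx (h.sup l hx'))) (h.map js)

/-- the cocycle identity at level `k` -/
def Zk (𝒮 : Set (X → ℝ)) (𝒜 : Set (Finset (Vx G n))) (V : Vx G n → Set X)
    (ψ : Vx G n → X → ℝ) (O : Set X) (c : Finset (Vx G n) → ℝ) (q k : ℕ) : Prop :=
  ∀ ρ ∈ 𝒜, ρ.card + k = q + 2 → 2 ≤ ρ.card → ∀ K T, Cur 𝒮 K T → K ⊆ VV V ρ ∩ O →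
    ∑ i ∈ ρ, sg i ρ * Pr 𝒜 ψ c k (ρ.erase i) (T 1) = 0

theorem Hy.step (h : Hy 𝒮 𝒜 V ψ O) {k : ℕ} (hz : Zk 𝒮 𝒜 V ψ O c q k) {τ : Finset (Vx G n)}
    (hτ : τ.Nonempty) (hc : τ.card + k = q + 1) (hT : Cur 𝒮 K T) (hK : K ⊆ VV V τ ∩ O)
    {j : Vx G n} (hj : j ∈ nb 𝒜 τ) :
    ∑ i ∈ τ, sg i τ * (sg j (insert j (τ.erase i)) *
      Pr 𝒜 ψ c k (insert j (τ.erase i)) (T (ψ j))) = Pr 𝒜 ψ c k τ (T (ψ j)) := by
  obtain ⟨h1, h2⟩ := (h.cx.mem_nb hτ).1 hj
  have h3 := hz _ h2 (by rw [Finset.card_insert_of_notMem h1]; omega)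
    (by rw [Finset.card_insert_of_notMem h1]; have := hτ.card_pos; omega) _ _
    (cur_m h.cls hT (h.mem j)) fun x hx => by
      rw [VV_insert]
      exact ⟨⟨h.sup j hx.2, (hK hx.1).1⟩, (hK hx.1).2⟩
  simp only [mul_one] at h3
  rw [Finset.sum_insert h1, Finset.erase_insert h1] at h3
  have h4 : ∀ i ∈ τ, sg i τ * (sg j (insert j (τ.erase i)) *
      Pr 𝒜 ψ c k (insert j (τ.erase i)) (T (ψ j))) = -sg j (insert j τ) * (sg i (insert j τ) *
        Pr 𝒜 ψ c k ((insert j τ).erase i) fun L => T (ψ j) L) := by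
    intro i hi
    have hij : j ≠ i := fun e => h1 (e ▸ hi)
    have h5 := sg_erase (Finset.mem_insert_of_mem hi) (Finset.mem_insert_self j τ)
      fun e => hij (h.cx.inj _ h2 _ (Finset.mem_insert_of_mem hi) _
        (Finset.mem_insert_self j τ) e).symm
    rw [Finset.erase_insert h1] at h5
    rw [Finset.erase_insert_of_ne hij] at h5 ⊢
    have h6 := sg_mul_self j (insert j τ)
    have h7 := sg_mul_self j (insert j (τ.erase i))
    generalize Pr 𝒜 ψ c k (insert j (τ.erase i)) (T (ψ j)) = P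
    linear_combination (P * sg j (insert j τ) * sg j (insert j (τ.erase i))) * h5
      - (P * sg i τ * sg j (insert j (τ.erase i))) * h6
      - (P * sg j (insert j τ) * sg i (insert j τ)) * h7
  rw [Finset.sum_congr rfl h4, ← Finset.mul_sum, ← neg_eq_iff_add_eq_zero.2 h3, neg_mul_neg,
    ← mul_assoc, sg_mul_self, one_mul]

theorem Hy.hom (h : Hy 𝒮 𝒜 V ψ O) {k : ℕ} (hz : Zk 𝒮 𝒜 V ψ O c q k) {τ : Finset (Vx G n)}
    (hτ : τ ∈ 𝒜) (hc : τ.card + k = q + 1) (h2 : 2 ≤ τ.card) (hT : Cur 𝒮 K T)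
    (hK : K ⊆ VV V τ ∩ O) :
    ∑ i ∈ τ, sg i τ * ∑ j ∈ nb 𝒜 (τ.erase i), sg j (insert j (τ.erase i)) *
      Pr 𝒜 ψ c k (insert j (τ.erase i)) (T (ψ j)) = Pr 𝒜 ψ c k τ (T 1) := by
  have hn := h.cx.ne τ hτ
  have hs : ∀ l, ∀ x ∈ K, x ∈ V l → l ∈ τ ∪ nb 𝒜 τ := fun l x hx hl => h.near hn (hK hx).1 hl
  have hd : Disjoint τ (nb 𝒜 τ) :=
    Finset.disjoint_right.2 fun j hj => ((h.cx.mem_nb hn).1 hj).1
  have h3 : ∀ i ∈ τ, sg i τ * ∑ j ∈ nb 𝒜 (τ.erase i), sg j (insert j (τ.erase i)) *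
      Pr 𝒜 ψ c k (insert j (τ.erase i)) (T (ψ j)) = Pr 𝒜 ψ c k τ (T (ψ i)) +
        ∑ j ∈ nb 𝒜 τ, sg i τ * (sg j (insert j (τ.erase i)) *
          Pr 𝒜 ψ c k (insert j (τ.erase i)) (T (ψ j))) := by
    intro i hi
    have hn' : (τ.erase i).Nonempty := by
      rw [← Finset.card_pos, Finset.card_erase_of_mem hi]
      omega
    have h4 : insert i (nb 𝒜 τ) ⊆ nb 𝒜 (τ.erase i) := by
      intro j hj
      rw [h.cx.mem_nb hn']
      rcases Finset.mem_insert.1 hj with rfl | hj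
      · exact ⟨Finset.notMem_erase _ _, by rwa [Finset.insert_erase hi]⟩
      · obtain ⟨h5, h6⟩ := (h.cx.mem_nb hn).1 hj
        exact ⟨fun e => h5 (Finset.mem_of_mem_erase e), h.cx.down _ h6 _
          (Finset.insert_subset_insert _ (Finset.erase_subset _ _)) (Finset.insert_nonempty _ _)⟩
    rw [← Finset.sum_subset h4, Finset.sum_insert (Finset.disjoint_left.1 hd hi),
      Finset.insert_erase hi, mul_add, ← mul_assoc, sg_mul_self, one_mul, Finset.mul_sum]
    intro j hj hj'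
    rw [h.pr_off hT hs, mul_zero]
    rw [Finset.mem_insert, not_or] at hj'
    rw [Finset.mem_union, not_or]
    exact ⟨fun e => ((h.cx.mem_nb hn').1 hj).1 (Finset.mem_erase.2 ⟨hj'.1, e⟩), hj'.2⟩
  rw [Finset.sum_congr rfl h3, Finset.sum_add_distrib, Finset.sum_comm,
    Finset.sum_congr rfl fun j hj => h.step hz hn hc hT hK hj,
    h.pr_part hT (fun x hx => (hK hx).2) hs, Finset.sum_union hd]

theorem Hy.zk (h : Hy 𝒮 𝒜 V ψ O) (hc : ∀ σ ∈ 𝒜, σ.card = q + 2 → cob c σ = 0) (k : ℕ) :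
    Zk 𝒮 𝒜 V ψ O c q k := by
  induction k with
  | zero =>
    intro ρ hρ e _ K T _ _
    simp only [Pr, smul_eq_mul, ← mul_assoc]
    rw [← Finset.sum_mul]
    exact mul_eq_zero_of_left (hc ρ hρ e) _
  | succ k ih =>
    intro ρ hρ e h2 K T hT hK
    exact (h.hom ih hρ (by omega) h2 (cur_d h.cls hT) hK).trans
      (Pr_zero k ρ fun js _ => one_one h.cls hT h.cls.one (h.map js))

theorem Hy.gw (h : Hy 𝒮 𝒜 V ψ O) (hT : Cur 𝒮 K T) {s : Finset (Vx G n)}
    (hs : ∀ l, ∀ x ∈ K, x ∈ V l → l ∈ s) :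
    GW 𝒜 ψ c q T = ∑ l ∈ s, Pr 𝒜 ψ c q {l} (T (ψ l)) :=
  finsum_eq_sum_of_support_subset _ fun l hl => by
    by_contra hc
    exact hl (h.pr_off hT hs hc q _)

theorem Hy.one' (h : Hy 𝒮 𝒜 V ψ O) (hz : Zk 𝒮 𝒜 V ψ O c q q) {i : Vx G n} (hT : Cur 𝒮 K T)
    (hK : K ⊆ V i ∩ O) : GW 𝒜 ψ c q T = Pr 𝒜 ψ c q {i} (T 1) := by
  have hn := Finset.singleton_nonempty i
  have hK' : K ⊆ VV V {i} ∩ O := by rwa [VV_single]
  have hs : ∀ l, ∀ x ∈ K, x ∈ V l → l ∈ {i} ∪ nb 𝒜 {i} := fun l x hx hl => h.near hn (hK' hx).1 hl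
  rw [h.gw hT hs, h.pr_part hT (fun x hx => (hK hx).2) hs]
  refine Finset.sum_congr rfl fun j hj => ?_
  rcases Finset.mem_union.1 hj with hj | hj
  · rw [Finset.mem_singleton.1 hj]
  · rw [← h.step hz hn (by rw [Finset.card_singleton, add_comm]) hT hK' hj]
    simp [sg_single]

theorem Hy.bd (h : Hy 𝒮 𝒜 V ψ O) (hz : Zk 𝒮 𝒜 V ψ O c q q) (hT : Cur 𝒮 K T)
    (hK : K ⊆ O) {s : Finset (Vx G n)} (hs : ∀ l, ∀ x ∈ K, x ∈ V l → l ∈ s) :
    GW 𝒜 ψ c q (fun f L => T 1 (f :: L)) = 0 := by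
  have h1 : ∀ i, Pr 𝒜 ψ c q {i} (fun L => T 1 (ψ i :: L)) =
      ∑ l ∈ s, Pr 𝒜 ψ c q {i} fun L => T (ψ l * 1) (ψ i :: L) := by
    intro i
    have := Pr_sum (𝒜 := 𝒜) (ψ := ψ) (c := c) s (fun _ => 1) q {i}
      fun l L => T (ψ l * 1) (ψ i :: L)
    simp only [one_smul] at this
    rw [← this]
    simp only [mul_one]
    exact Pr_congr q _ fun js _ => h.part hT hK hs (cons_mem (h.mem i) (h.map js))
  rw [h.gw (cur_d h.cls hT) hs]
  simp only [h1]
  rw [Finset.sum_comm]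
  refine Finset.sum_eq_zero fun l _ => ?_
  have h2 := cur_m h.cls hT (h.mem l)
  rw [← h.gw (cur_d h.cls h2) fun l x hx => hs l x hx.1,
    h.one' hz (cur_d h.cls h2) fun x hx => ⟨h.sup l hx.2, hK hx.1⟩]
  exact Pr_zero q _ fun js _ => one_one h.cls h2 h.cls.one (h.map js)

theorem Hy.van (h : Hy 𝒮 𝒜 V ψ O) {B : Set X}
    (hB : ∀ σ, σ.Nonempty → (VV V σ ∩ B).Nonempty → c σ = 0) (k : ℕ) :
    ∀ (K : Set X) (T : (X → ℝ) → List (X → ℝ) → ℝ), Cur 𝒮 K T → K ⊆ B →
      ∀ τ : Finset (Vx G n), τ.Nonempty → K ⊆ VV V τ → ∀ f ∈ 𝒮, Pr 𝒜 ψ c k τ (T f) = 0 := by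
  induction k with
  | zero =>
    intro K T hT hK τ hτ hV f hf
    rcases K.eq_empty_or_nonempty with rfl | ⟨x, hx⟩
    · rw [Pr, off hT hf (by simp) (by simp), smul_zero]
    · rw [Pr, hB τ hτ ⟨x, hV hx, hK hx⟩, zero_smul]
  | succ k ih =>
    intro K T hT hK τ _ hV f hf
    refine Finset.sum_eq_zero fun j _ => smul_eq_zero_of_right _ ?_
    refine ih _ _ (cur_i hT (h.mem j)) (fun x hx => hK hx.1) _ (Finset.insert_nonempty _ _)
      (fun x hx => ?_) f hf
    rw [VV_insert]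
    exact ⟨h.sup j hx.2, hV hx.1⟩

end PZZ

open PZZ in
theorem zz : ZZ := by
  intro G X _ _ n 𝒮 𝒜 V ψ O c q h1 h2 h3 h4 h5 h6 h7 h8 h9
  have h : Hy 𝒮 𝒜 V ψ O := ⟨h1, h2, h3, h4, h5, fun l => (h6 l).1, fun l => (h6 l).2, h7⟩
  refine ⟨fun k τ hτ e h2 K T hT hK => h.hom (h.zk h9 k) hτ e h2 hT hK,
    fun i K T hT hK => h.one' (h.zk h9 q) hT hK,
    fun K T hT hc hK => h.bd (h.zk h9 q) hT hK (s := (h8 K hc).toFinset)
      fun l x hx hl => (h8 K hc).mem_toFinset.2 ⟨x, hl, hx⟩,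
    fun B hB K T hT hK => ⟨fun k => h.van hB k K T hT hK, finsum_eq_zero_of_forall_eq_zero
      fun i => ?_⟩⟩
  have := h.van hB q _ _ (cur_m h1 hT (h.mem i)) (fun x hx => hK hx.1) {i}
    (Finset.singleton_nonempty i) (fun x hx => by rw [VV_single]; exact h.sup i hx.2) 1 h1.one
  simpa only [mul_one] using this

end Pool.Agent.Lib.MP_356dfe_ag.S
end
end

-- part Pool.Agent.Lib.MP_356dfe_ag.S.PBump
section

/-! Cut-off functions. -/

set_option autoImplicit false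

open Set Filter Topology Metric MeasureTheory
open scoped ContDiff ComplexConjugate Matrix Pointwise

noncomputable section

namespace Pool.Agent.Lib.MP_356dfe_ag.S

variable {Z Λ : Type} [TopologicalSpace Z] [T2Space Z] {A : KA Z Λ}

namespace PBump

/-- the charts -/
@[reducible] def cs (A : KA Z Λ) : ChartedSpace E2 Z where
  atlas := range A.e
  chartAt z := A.e (A.i z)
  mem_chart_source z := A.mem_i z
  chart_mem_atlas _ := ⟨_, rfl⟩

omit [T2Space Z] in
theorem lc (A : KA Z Λ) : LocallyCompactSpace Z :=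
  letI := cs A
  ChartedSpace.locallyCompactSpace E2 Z

omit [T2Space Z] in
theorem nh {l : Λ} {z : Z} (hz : z ∈ A.src l) : A.src l ∈ 𝓝 z := (A.e l).open_source.mem_nhds hz

omit [T2Space Z] in
theorem clE (A : KA Z Λ) : IsClosed A.E := by
  refine isOpen_compl_iff.1 (isOpen_iff_mem_nhds.2 fun z hz => ?_)
  have hi := A.mem_i z
  have h1 : ∀ k ∈ A.act (A.ty (A.i z)), ∀ᶠ w in 𝓝 z, A.e (A.i z) w k ≠ 0 := fun k hk =>
    (((continuous_apply k).continuousAt).comp ((A.e _).continuousAt hi)).eventually_ne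
      fun e => hz ((A.hE _ z hi).2 ⟨k, hk, e⟩)
  filter_upwards [nh hi, (Finset.eventually_all _).2 h1] with w h2 h3 h4
  obtain ⟨k, hk, e⟩ := (A.hE _ w h2).1 h4
  exact h3 k hk e

omit [T2Space Z] in
theorem dense (A : KA Z Λ) : Dense A.Eᶜ := by
  intro z
  rw [mem_closure_iff_frequently]
  intro hz
  have hi := A.mem_i z
  have h1 : Dense (Set.pi univ fun _ : Fin 2 => ({0}ᶜ : Set ℂ)) :=
    dense_pi univ fun _ _ => dense_compl_singleton 0
  obtain ⟨x, h2, h3, h4⟩ := ((mem_closure_iff_frequently.1 (h1 (A.e (A.i z) z))).and_eventually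
    ((A.ev_symm hi hz).and (isOpen_ball.mem_nhds (A.map_src hi)))).exists
  obtain ⟨k, -, e⟩ := (A.hE _ _ (A.symm_mem _ h4)).1 (not_not.1 h3)
  rw [A.e_symm _ h4] at e
  exact h2 k (mem_univ k) e

omit [T2Space Z] in
theorem lf (A : KA Z Λ) {K : Set Z} (hK : IsCompact K) : {l | (A.src l ∩ K).Nonempty}.Finite := by
  obtain ⟨k, hk⟩ := A.mult
  choose s _ hs using hk
  obtain ⟨t, ht⟩ := hK.elim_finite_subcover A.src (fun l => (A.e l).open_source)
    fun z _ => mem_iUnion.2 ⟨_, A.mem_i z⟩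
  refine (t.finite_toSet.biUnion fun l _ => (s l).finite_toSet).subset ?_
  rintro l ⟨z, h1, h2⟩
  obtain ⟨l', h3, h4⟩ := mem_iUnion₂.1 (ht h2)
  exact mem_biUnion h3 (hs l' l ⟨z, h4, h1⟩)

omit [T2Space Z] in
theorem ext_symm (l : Λ) (u : E2 → ℝ) {x : E2} (hx : x ∈ ball (0 : E2) 4) :
    A.ext l u ((A.e l).symm x) = u x := by
  rw [KA.ext, indicator_of_mem (A.symm_mem l hx), A.e_symm l hx]

theorem ext_D (h : A.Bas) (l : Λ) {u : E2 → ℝ} (hu : CS u) (hs : tsupport u ⊆ ball 0 4) :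
    A.D (A.ext l u) ∧ tsupport (A.ext l u) = (A.e l).symm '' tsupport u := by
  have hc : ContinuousOn (A.e l).symm (ball 0 4) := A.tgt l ▸ (A.e l).continuousOn_symm
  have hK : IsCompact ((A.e l).symm '' tsupport u) := hu.2.isCompact.image_of_continuousOn (hc.mono hs)
  have h1 : tsupport (A.ext l u) ⊆ (A.e l).symm '' tsupport u := by
    refine closure_minimal (fun z hz => ?_) hK.isClosed
    by_cases e : z ∈ A.src l
    · rw [Function.mem_support, KA.ext, indicator_of_mem e] at hz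
      exact ⟨_, subset_tsupport _ hz, (A.e l).left_inv e⟩
    · exact absurd (indicator_of_notMem e _) hz
  refine ⟨⟨fun z => ?_, hK.of_isClosed_subset (isClosed_tsupport _) h1⟩, h1.antisymm ?_⟩
  · by_cases e : z ∈ A.src l
    · refine h.sm_of _ z l e (hu.1.contDiffAt.congr_of_eventuallyEq ?_)
      filter_upwards [isOpen_ball.mem_nhds (A.map_src e)] with x hx
      exact ext_symm l u hx
    · refine (KA.sm_const 0 z).congr (notMem_tsupport_iff_eventuallyEq.1 fun hz => e ?_)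
      obtain ⟨x, hx, rfl⟩ := h1 hz
      exact A.symm_mem l (hs hx)
  · rintro _ ⟨x, hx, rfl⟩
    refine closure_mono ?_ (((hc.continuousAt
      (isOpen_ball.mem_nhds (hs hx))).continuousWithinAt (s := Function.support u)).mem_closure_image hx)
    rintro _ ⟨y, hy, rfl⟩
    rwa [Function.mem_support, ext_symm l u (hs (subset_tsupport _ hy))]

omit [T2Space Z] in
theorem ph_cs (A : KA Z Λ) (j : Fin A.m) : CS (A.ph j) :=
  ⟨A.ph_sm j, (isCompact_closedBall 0 2).of_isClosed_subset (isClosed_tsupport _)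
    ((A.ph_supp j).trans ball_subset_closedBall)⟩

theorem phi_D (h : A.Bas) (l : Λ) :
    A.D (A.phi l) ∧ tsupport (A.phi l) ⊆ (A.e l).symm '' ball 0 2 := by
  obtain ⟨h1, h2⟩ := ext_D h l (ph_cs A (A.ty l))
    ((A.ph_supp _).trans (ball_subset_ball (by norm_num)))
  exact ⟨h1, h2.subset.trans (image_mono (A.ph_supp _))⟩

omit [T2Space Z] in
theorem phi_nn (l : Λ) (z : Z) : 0 ≤ A.phi l z := indicator_nonneg (fun _ _ => A.ph_nn _ _) z

omit [T2Space Z] in
theorem sum_one {s : Finset Λ} {z : Z} (hs : ∀ l, z ∈ A.src l → l ∈ s) :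
    ∑ l ∈ s, A.phi l z = 1 := by
  rw [← A.ph_sum z]
  refine (finsum_eq_sum_of_support_subset (fun l => A.phi l z) fun l hl => hs l ?_).symm
  by_contra e
  exact hl (indicator_of_notMem e _)

omit [T2Space Z] in
theorem D_zero : A.D 0 := ⟨KA.sm_const 0, HasCompactSupport.zero⟩

omit [T2Space Z] in
theorem D_add {U V : Z → ℝ} (hU : A.D U) (hV : A.D V) : A.D (U + V) :=
  ⟨fun z => (hU.1 z).add (hV.1 z), hU.2.add hV.2⟩

omit [T2Space Z] in
theorem D_sum {s : Finset Λ} {U : Λ → Z → ℝ} (hU : ∀ l, A.D (U l)) : A.D (∑ l ∈ s, U l) :=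
  Finset.sum_induction U A.D (fun _ _ => D_add) D_zero fun l _ => hU l

/-- a bump at a point -/
theorem pt (h : A.Bas) {z : Z} {O : Set Z} (hO : IsOpen O) (hz : z ∈ O) : ∃ b, A.D b ∧
    (∀ w, 0 ≤ b w ∧ b w ≤ 1) ∧ (∀ᶠ w in 𝓝 z, b w = 1) ∧ tsupport b ⊆ O := by
  have hi := A.mem_i z
  obtain ⟨r, hr, hb⟩ := Metric.nhds_basis_closedBall.mem_iff.1
    ((A.ev_symm hi (hO.mem_nhds hz)).and (isOpen_ball.mem_nhds (A.map_src hi)))
  let f : ContDiffBump (A.e (A.i z) z) := ⟨r / 2, r, half_pos hr, half_lt_self hr⟩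
  have hf : tsupport f = closedBall _ r := f.tsupport_eq
  obtain ⟨h1, h2⟩ := ext_D h (A.i z) (u := f) ⟨f.contDiff, f.hasCompactSupport⟩
    (hf ▸ fun x hx => (hb hx).2)
  refine ⟨_, h1, fun w => ⟨indicator_nonneg (fun _ _ => f.nonneg) w,
    indicator_apply_le' (fun _ => f.le_one) fun _ => zero_le_one⟩, ?_, ?_⟩
  · filter_upwards [nh hi, ((A.e _).continuousAt hi).eventually f.eventuallyEq_one] with w h3 h4
    rw [KA.ext, indicator_of_mem h3]
    exact h4
  · rw [h2, hf]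
    rintro _ ⟨x, hx, rfl⟩
    exact (hb hx).1

theorem part (h : A.Bas) (ι : Type) (s : Finset ι) (K : Set Z) (O : ι → Set Z) (hK : IsCompact K)
    (hO : ∀ i, IsOpen (O i)) (hs : K ⊆ ⋃ i ∈ s, O i) : ∃ χ : ι → Z → ℝ,
      (∀ i, A.D (χ i) ∧ (∀ z, 0 ≤ χ i z) ∧ tsupport (χ i) ⊆ O i) ∧
      (∀ z, ∑ i ∈ s, χ i z ≤ 1) ∧ ∀ᶠ z in 𝓝ˢ K, ∑ i ∈ s, χ i z = 1 := by
  classical
  refine hK.induction_on (p := fun K => ∃ χ : ι → Z → ℝ,
      (∀ i, A.D (χ i) ∧ (∀ z, 0 ≤ χ i z) ∧ tsupport (χ i) ⊆ O i) ∧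
      (∀ z, ∑ i ∈ s, χ i z ≤ 1) ∧ ∀ᶠ z in 𝓝ˢ K, ∑ i ∈ s, χ i z = 1) ?_ ?_ ?_ ?_
  · exact ⟨0, fun i => ⟨D_zero, fun _ => le_rfl, by simp⟩, by simp, by simp⟩
  · rintro K K' hK ⟨χ, h1, h2, h3⟩
    exact ⟨χ, h1, h2, h3.filter_mono (nhdsSet_mono hK)⟩
  · rintro K K' ⟨χ, h1, h2, h3⟩ ⟨χ', k1, k2, k3⟩
    have e : ∀ z, ∑ i ∈ s, (χ i + (1 - fun w => ∑ i ∈ s, χ i w) * χ' i) z =
        1 - (1 - ∑ i ∈ s, χ i z) * (1 - ∑ i ∈ s, χ' i z) := fun z => by
      simp only [Pi.add_apply, Pi.mul_apply, Pi.sub_apply, Pi.one_apply, Finset.sum_add_distrib,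
        ← Finset.mul_sum]
      ring
    refine ⟨fun i => χ i + (1 - fun w => ∑ i ∈ s, χ i w) * χ' i, fun i => ⟨D_add (h1 i).1
      ⟨fun z => ((KA.sm_const 1 z).sub (KA.sm_sum fun j _ => (h1 j).1.1 z)).mul ((k1 i).1.1 z),
        (k1 i).1.2.mul_left⟩, fun z => add_nonneg ((h1 i).2.1 z)
        (mul_nonneg (sub_nonneg.2 (h2 z)) ((k1 i).2.1 z)), (tsupport_add _ _).trans
        (union_subset (h1 i).2.2 (tsupport_mul_subset_right.trans (k1 i).2.2))⟩, fun z => ?_, ?_⟩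
    · rw [e]
      exact sub_le_self _ (mul_nonneg (sub_nonneg.2 (h2 z)) (sub_nonneg.2 (k2 z)))
    · rw [nhdsSet_union, eventually_sup]
      exact ⟨h3.mono fun z hz => by rw [e, hz]; ring, k3.mono fun z hz => by rw [e, hz]; ring⟩
  · intro z hz
    obtain ⟨i, hi, hzi⟩ := mem_iUnion₂.1 (hs hz)
    obtain ⟨b, b1, b2, b3, b4⟩ := pt h (hO i) hzi
    have e : ∀ w, ∑ j ∈ s, (if j = i then b else 0) w = b w := fun w => by
      rw [← Finset.sum_apply, Finset.sum_ite_eq', if_pos hi]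
    refine ⟨{w | ∀ᶠ w' in 𝓝 w, b w' = 1}, mem_nhdsWithin_of_mem_nhds b3.eventually_nhds,
      fun j => if j = i then b else 0, fun j => ?_, fun w => (e w).trans_le (b2 w).2, ?_⟩
    · beta_reduce
      split_ifs with hj
      · exact ⟨b1, fun w => (b2 w).1, hj ▸ b4⟩
      · exact ⟨D_zero, fun _ => le_rfl, by simp⟩
    · simp only [e]
      exact eventually_nhdsSet_iff_forall.2 fun _ hw => hw

theorem du_congr {u v : E2 → ℝ} {x : E2} (h : u =ᶠ[𝓝 x] v) : du u x = du v x := by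
  have : (fun y => (u y : ℂ)) =ᶠ[𝓝 x] fun y => (v y : ℂ) := h.mono fun y hy => by
    simp only [hy]
  ext j
  simp only [du, dh, this.fderiv_eq]

omit [T2Space Z] in
theorem N_congr (h : A.Bas) {U V : Z → ℝ} {z : Z} (e : U =ᶠ[𝓝 z] V) :
    A.N (A.d U) z = A.N (A.d V) z := by
  have := (h.d_congr U V z 0 (e.mono fun w hw => by rw [hw, add_zero])).self_of_nhds.v1
  simp only [KA.N, KA.P, this]

omit [T2Space Z] in
theorem N_zero (h : A.Bas) (z : Z) : A.N (A.d 0) z = 0 := by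
  have := h.d_smul 0 0
  rw [zero_smul, zero_smul] at this
  rw [this]
  exact n1_zero _ _

theorem N_phi (ha : Alg) (hc : Calc) (h : A.Bas) :
    ∃ B, 0 ≤ B ∧ ∀ l z, A.N (A.d (A.phi l)) z ≤ B := by
  have hb : closedBall (0 : E2) 2 ⊆ ball 0 4 := closedBall_subset_ball (by norm_num)
  have h1 : ∀ j, ∃ B, ∀ x ∈ closedBall (0 : E2) 2,
      n1 (lev (A.pot j) x) (du (A.ph j) x) (du (A.ph j) x) ≤ B := fun j => by
    obtain ⟨c, c0, c1⟩ := ha.cmp _ (lev (A.pot j)) (isCompact_closedBall 0 2)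
      (fun p q x hx => (hc.sm_dba _ x (hc.sm_du _ x ((A.pot_sm j).contDiffAt
        (isOpen_ball.mem_nhds (hb hx)))) p q).continuousAt.continuousWithinAt)
      fun x hx => A.pos j x (hb hx)
    obtain ⟨M, hM⟩ := (isCompact_closedBall (0 : E2) 2).exists_bound_of_continuousOn
      (f := du (A.ph j)) fun x _ =>
        (hc.sm_du _ x (A.ph_sm j).contDiffAt).continuousAt.continuousWithinAt
    refine ⟨c⁻¹ * M ^ 2, fun x hx => ((c1 x hx).2.2.1 _).2.trans ?_⟩
    have := hM x hx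
    gcongr
  choose B hB using h1
  obtain ⟨M, hM⟩ := Finite.exists_le B
  refine ⟨max M 0, le_max_right _ _, fun l z => ?_⟩
  by_cases hz : z ∈ tsupport (A.phi l)
  · obtain ⟨x, hx, rfl⟩ := (phi_D h l).2 hz
    have hx' := ball_subset_closedBall hx
    have h2 := (h.s1_d _ _ ((phi_D h l).1.1 ((A.e l).symm x))).1
    have h3 : A.d (A.phi l) l x = du (A.ph (A.ty l)) x := du_congr (by
      filter_upwards [isOpen_ball.mem_nhds (hb hx')] with y hy
      exact ext_symm l _ hy)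
    rw [KA.N, h.P_eq _ _ _ l h2 h2 (A.symm_mem l (hb hx')), A.e_symm l (hb hx'), h3]
    exact ((hB _ x hx').trans (hM _)).trans (le_max_left _ _)
  · rw [N_congr h (notMem_tsupport_iff_eventuallyEq.1 hz), N_zero h]
    exact le_max_right _ _

theorem cut (ha : Alg) (hc : Calc) (h : A.Bas) : ∃ (χ : ℕ → Z → ℝ) (C : ℝ),
    (∀ n, A.D (χ n) ∧ ∀ z, 0 ≤ χ n z ∧ χ n z ≤ 1 ∧ A.N (A.d (χ n)) z ≤ C) ∧
      ∀ z, ∀ᶠ n in atTop, ∀ᶠ w in 𝓝 z, χ n w = 1 := by
  classical
  obtain ⟨B, B0, hB⟩ := N_phi ha hc h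
  have h1 : ∀ (t : Finset Λ) z, A.N (A.d (∑ l ∈ t, A.phi l)) z ≤ 4 ^ t.card * B := fun t z => by
    induction t using Finset.induction_on with
    | empty => rw [Finset.sum_empty, N_zero h]; positivity
    | insert l t hl ih =>
      have e := (h.d_add _ _ z ((phi_D h l).1.1 z)
        ((D_sum (s := t) fun l => (phi_D h l).1).1 z)).v1
      have e2 := ha.n1_add (A.g z) (A.v1 (A.d (A.phi l)) z) (A.v1 (A.d (∑ l ∈ t, A.phi l)) z) (h.pd z)
      have e3 : (1 : ℝ) ≤ 4 ^ t.card := one_le_pow₀ (by norm_num)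
      have e4 := hB l z
      rw [Finset.sum_insert hl, Finset.card_insert_of_notMem hl, KA.N, KA.P, e, A.v1_add, pow_succ]
      rw [KA.N, KA.P] at ih e4
      nlinarith
  obtain ⟨k, hk⟩ := A.mult
  choose s hs1 hs2 using hk
  have := A.cnt
  obtain ⟨f, hf⟩ := exists_injective_nat Λ
  let F : ℕ → Finset Λ := fun n => ((finite_lt_nat n).preimage hf.injOn).toFinset
  have hF : ∀ n l, l ∈ F n ↔ f l < n := fun n l => by simp [F]
  refine ⟨fun n => ∑ l ∈ F n, A.phi l, 4 ^ k * B, fun n => ⟨D_sum fun l => (phi_D h l).1,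
    fun z => ⟨?_, ?_, ?_⟩⟩, fun z => ?_⟩
  · beta_reduce
    rw [Finset.sum_apply]
    exact Finset.sum_nonneg fun l _ => phi_nn l z
  · beta_reduce
    rw [Finset.sum_apply, ← sum_one (A := A) (s := F n ∪ s (A.i z)) (z := z) fun l hl =>
      Finset.mem_union_right _ (hs2 _ l ⟨z, A.mem_i z, hl⟩)]
    exact Finset.sum_le_sum_of_subset_of_nonneg Finset.subset_union_left fun l _ _ => phi_nn l z
  · rw [N_congr h (V := ∑ l ∈ F n ∩ s (A.i z), A.phi l)]
    · refine (h1 _ z).trans ?_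
      have := (Finset.card_le_card (Finset.inter_subset_right (s₁ := F n))).trans (hs1 (A.i z))
      gcongr
      norm_num
    · filter_upwards [nh (A.mem_i z)] with w hw
      rw [Finset.sum_apply, Finset.sum_apply]
      refine (Finset.sum_subset Finset.inter_subset_left fun l h2 h3 => ?_).symm
      exact indicator_of_notMem (fun h4 => h3 (Finset.mem_inter.2 ⟨h2, hs2 _ l ⟨w, hw, h4⟩⟩)) _
  · filter_upwards [(Finset.eventually_all (s (A.i z))).2 fun l _ => eventually_gt_atTop (f l)]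
      with n hn
    filter_upwards [nh (A.mem_i z)] with w hw
    rw [Finset.sum_apply]
    exact sum_one fun l hl => (hF n l).2 (hn l (hs2 _ l ⟨w, hw, hl⟩))

end PBump

theorem bump (ha : Alg) (hc : Calc) (h : A.Bas) : A.Bump := by
  refine ⟨PBump.lc A, ?_, ?_, PBump.clE A, PBump.dense A, fun K => PBump.lf A,
    fun l u => PBump.ext_D h l, PBump.phi_D h, fun K hK => ?_, fun K O hK hO hs => ?_,
    fun ι s K O hK hO hs => ?_, PBump.cut ha hc h⟩
  · have := A.cnt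
    have := fun l => (A.e l).secondCountableTopology_source
    exact TopologicalSpace.secondCountableTopology_of_countable_cover
      (fun l => (A.e l).open_source) (eq_univ_of_forall fun z => mem_iUnion.2 ⟨_, A.mem_i z⟩)
  · let := PBump.cs A
    exact ChartedSpace.locallyPathConnectedSpace E2 Z
  · have := PBump.lc A
    obtain ⟨K', h1, h2⟩ := exists_compact_superset hK
    refine ⟨(PBump.lf A h1).toFinset, ?_⟩
    filter_upwards [isOpen_interior.mem_nhdsSet.2 h2] with z hz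
    exact PBump.sum_one fun l hl => (Set.Finite.mem_toFinset _).2 ⟨z, hl, interior_subset hz⟩
  · obtain ⟨χ, h1, h2, h3⟩ := PBump.part h Unit {()} K (fun _ => O) hK (fun _ => hO)
      fun z hz => mem_biUnion (Finset.mem_singleton_self ()) (hs hz)
    simp only [Finset.sum_singleton] at h2 h3
    exact ⟨χ (), (h1 ()).1, fun z => ⟨(h1 ()).2.1 z, h2 z⟩, h3, (h1 ()).2.2⟩
  · obtain ⟨χ, h1, -, h3⟩ := PBump.part h ι s K O hK hO hs
    exact ⟨χ, h1, h3⟩

end Pool.Agent.Lib.MP_356dfe_ag.S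
end
end

-- part Pool.Agent.Lib.MP_356dfe_ag.S.PMeas
section

/-! The volume measure. -/

set_option autoImplicit false

open Set Filter Topology Metric MeasureTheory
open scoped ContDiff ComplexConjugate Matrix Pointwise

noncomputable section

namespace Pool.Agent.Lib.MP_356dfe_ag.S

variable {Z Λ : Type} [TopologicalSpace Z] [T2Space Z] [MeasurableSpace Z] [BorelSpace Z]
  {A : KA Z Λ}

namespace PMeas

omit [T2Space Z]

theorem map_eq (f : OpenPartialHomeomorph E2 Z) {ν : Measure E2} (hν : ν.restrict f.source = ν) :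
    ν.map f = (ν.comap Subtype.val).map (f.source.domRestrict f) := by
  have hs := f.open_source.measurableSet
  have h1 : AEMeasurable f ν := by
    rw [← hν]
    exact f.continuousOn.aemeasurable hs
  have h2 := map_comap_subtype_coe hs ν
  rw [hν] at h2
  conv_lhs => rw [← h2]
  exact AEMeasurable.map_map_of_aemeasurable (by rwa [h2]) measurable_subtype_coe.aemeasurable

theorem lint_map (f : OpenPartialHomeomorph E2 Z) {ν : Measure E2}
    (hν : ν.restrict f.source = ν) (F : Z → ENNReal) :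
    ∫⁻ z, F z ∂(ν.map f) = ∫⁻ x, F (f x) ∂ν := by
  have hs := f.open_source.measurableSet
  rw [map_eq f hν, f.isOpenEmbedding_restrict.measurableEmbedding.lintegral_map]
  conv_rhs => rw [← hν, ← map_comap_subtype_coe hs,
    (MeasurableEmbedding.subtype_coe hs).lintegral_map]
  rfl

theorem int_map (f : OpenPartialHomeomorph E2 Z) {ν : Measure E2}
    (hν : ν.restrict f.source = ν) (F : Z → ℝ) :
    (Integrable F (ν.map f) ↔ Integrable (fun x => F (f x)) ν) ∧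
      ∫ z, F z ∂(ν.map f) = ∫ x, F (f x) ∂ν := by
  have hs := f.open_source.measurableSet
  have e := f.isOpenEmbedding_restrict.measurableEmbedding
  have e' := MeasurableEmbedding.subtype_coe hs
  rw [map_eq f hν, e.integrable_map_iff, e.integral_map]
  constructor
  · conv_rhs => rw [← hν, ← map_comap_subtype_coe hs, e'.integrable_map_iff]
    rfl
  · conv_rhs => rw [← hν, ← map_comap_subtype_coe hs, e'.integral_map]
    rfl

/-- a weighted Lebesgue measure on a part of the model space -/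
def wd (s : Set E2) (w : E2 → ℝ) : Measure E2 :=
  (volume.restrict s).withDensity fun x => ENNReal.ofReal (w x)

theorem wd_restrict {s t : Set E2} (ht : MeasurableSet t) (w : E2 → ℝ) :
    (wd s w).restrict t = wd (t ∩ s) w := by
  rw [wd, restrict_withDensity ht, Measure.restrict_restrict ht, wd]

omit [MeasurableSpace Z] [BorelSpace Z] in
theorem wd_src (l : Λ) {s : Set E2} (hs : s ⊆ ball 0 4) (w : E2 → ℝ) :
    (wd s w).restrict (A.e l).symm.source = wd s w := by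
  rw [wd_restrict (A.e l).symm.open_source.measurableSet, OpenPartialHomeomorph.symm_source,
    A.tgt l, inter_eq_right.2 hs]

omit [MeasurableSpace Z] [BorelSpace Z] in
theorem img_src (l : Λ) {s : Set E2} (hs : s ⊆ ball 0 4) : (A.e l).symm '' s ⊆ A.src l := by
  rintro _ ⟨x, hx, rfl⟩
  exact A.symm_mem l (hs hx)

omit [MeasurableSpace Z] [BorelSpace Z] in
theorem img_eq (l : Λ) {s : Set E2} (hs : s ⊆ ball 0 4) :
    (A.e l).symm '' s = A.src l ∩ A.e l ⁻¹' s :=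
  (A.e l).symm_image_eq_source_inter_preimage (A.tgt l ▸ hs)

theorem img_meas (l : Λ) {s : Set E2} (hm : MeasurableSet s) (hs : s ⊆ ball 0 4) :
    MeasurableSet ((A.e l).symm '' s) := by
  have e := (A.e l).symm.isOpenEmbedding_restrict.measurableEmbedding
  have := e.measurableSet_image.2 (measurable_subtype_coe hm)
  convert this using 1
  ext z
  constructor
  · rintro ⟨x, hx, rfl⟩
    exact ⟨⟨x, (A.tgt l).ge (hs hx)⟩, hx, rfl⟩
  · rintro ⟨x, hx, rfl⟩
    exact ⟨x, hx, rfl⟩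

theorem pre_meas (l : Λ) {t : Set Z} (ht : MeasurableSet t) :
    MeasurableSet (ball (0 : E2) 4 ∩ (A.e l).symm ⁻¹' t) := by
  have e := (A.e l).symm.isOpenEmbedding_restrict.measurableEmbedding
  have hs := (A.e l).symm.open_source.measurableSet
  have := (MeasurableEmbedding.subtype_coe hs).measurableSet_image.2 (e.measurable ht)
  convert this using 1
  ext x
  constructor
  · rintro ⟨hx, hx'⟩
    exact ⟨⟨x, (A.tgt l).ge hx⟩, hx', rfl⟩
  · rintro ⟨x, hx, rfl⟩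
    exact ⟨(A.tgt l).le x.2, hx⟩

omit [MeasurableSpace Z] [BorelSpace Z] in
theorem img_pre (l : Λ) (t : Set Z) :
    (A.e l).symm '' (ball (0 : E2) 4 ∩ (A.e l).symm ⁻¹' t) = t ∩ A.src l := by
  ext z
  constructor
  · rintro ⟨x, ⟨hx, hx'⟩, rfl⟩
    exact ⟨hx', A.symm_mem l hx⟩
  · rintro ⟨hz, hz'⟩
    have := (A.e l).left_inv hz'
    exact ⟨A.e l z, ⟨A.map_src hz', by rwa [mem_preimage, this]⟩, this⟩

theorem map_restrict (l : Λ) {s : Set E2} (hm : MeasurableSet s) (hs : s ⊆ ball 0 4)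
    (w : E2 → ℝ) : ((wd (ball 0 4) w).map (A.e l).symm).restrict ((A.e l).symm '' s) =
      (wd s w).map (A.e l).symm := by
  have h1 : AEMeasurable (A.e l).symm (wd (ball 0 4) w) := by
    rw [← wd_src (A := A) l subset_rfl w]
    exact (A.e l).symm.continuousOn.aemeasurable (A.e l).symm.open_source.measurableSet
  rw [Measure.restrict_map_of_aemeasurable h1 (img_meas l hm hs)]
  congr 1
  have h2 : wd (ball 0 4) w = (wd (ball 0 4) w).restrict (ball 0 4) := by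
    rw [wd_restrict measurableSet_ball, inter_self]
  have h3 : (A.e l).symm ⁻¹' ((A.e l).symm '' s) ∩ ball 0 4 = s := by
    ext x
    constructor
    · rintro ⟨⟨y, hy, e⟩, hx⟩
      have := congrArg (A.e l) e
      rw [A.e_symm l (hs hy), A.e_symm l hx] at this
      exact this ▸ hy
    · exact fun hx => ⟨⟨x, hx, rfl⟩, hs hx⟩
  rw [h2, Measure.restrict_restrict' measurableSet_ball, h3, wd_restrict hm, inter_eq_left.2 hs]

theorem lint_wd (l : Λ) {s : Set E2} (hs : s ⊆ ball 0 4) {w : E2 → ℝ}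
    (hw : AEMeasurable w (volume.restrict s)) (F : Z → ENNReal) :
    ∫⁻ z, F z ∂((wd s w).map (A.e l).symm) =
      ∫⁻ x in s, F ((A.e l).symm x) * ENNReal.ofReal (w x) := by
  rw [lint_map _ (wd_src l hs w), wd, lintegral_withDensity_eq_lintegral_mul_non_measurable₀ _
    hw.ennreal_ofReal (Eventually.of_forall fun _ => ENNReal.ofReal_lt_top)]
  exact lintegral_congr fun x => mul_comm _ _

theorem dt_pull (J S : M2) : dt (pull J S) = Complex.normSq J.det * dt S := by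
  have h1 : ∀ g : M2, dt g = g.det.re := fun g => by
    rw [dt, md, Matrix.det_fin_two, div_eq_iff two_ne_zero, mul_two, ← Complex.add_re]
    congr 1
    ring
  have h2 : (J.map conj).det = conj J.det := ((starRingEnd ℂ).map_det J).symm
  rw [h1, h1, pull, Matrix.det_mul, Matrix.det_mul, Matrix.det_transpose, h2,
    mul_right_comm, Complex.mul_conj, Complex.re_ofReal_mul]

theorem det_jac (T : E2 → E2) (x : E2) :
    ((fderiv ℂ T x).restrictScalars ℝ).det = Complex.normSq (jac T x).det := by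
  have h := LinearMap.det_restrictScalars (R := ℝ) (S := ℂ) (f := (fderiv ℂ T x).toLinearMap)
  rw [Algebra.norm_complex_apply, ← LinearMap.det_toMatrix'] at h
  exact h

omit [MeasurableSpace Z] [BorelSpace Z] in
theorem dt_cont (h : A.Bas) (l : Λ) : ContinuousOn (fun x => dt (A.met l x)) (ball 0 4) := by
  intro x hx
  have H : ∀ j k, ContinuousAt (fun y => A.met l y j k) x := fun j k => by
    have := ((h.cl2_met _).1.2 l (A.symm_mem l hx) j k).continuousAt
    rwa [A.e_symm l hx] at this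
  refine ContinuousAt.continuousWithinAt ?_
  unfold dt md
  exact (Complex.continuous_re.continuousAt.comp
    (((((H 0 0).mul (H 1 1)).add ((H 1 1).mul (H 0 0))).sub ((H 0 1).mul (H 1 0))).sub
      ((H 1 0).mul (H 0 1)))).div_const 2

omit [MeasurableSpace Z] [BorelSpace Z] in
theorem dt_am (h : A.Bas) (l : Λ) {s : Set E2} (hs : s ⊆ ball 0 4) :
    AEMeasurable (fun x => dt (A.met l x)) (volume.restrict s) :=
  ((dt_cont h l).aemeasurable measurableSet_ball).mono_measure (Measure.restrict_mono hs le_rfl)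

omit [MeasurableSpace Z] [BorelSpace Z] in
theorem dt_pos (l : Λ) {x : E2} (hx : x ∈ ball (0 : E2) 4) : 0 < dt (A.met l x) :=
  (A.pos _ x hx).2.2

variable (A) in
/-- the volume measure of one chart -/
def mm (l : Λ) : Measure Z := (wd (ball 0 4) fun x => dt (A.met l x)).map (A.e l).symm

theorem mm_apply (h : A.Bas) (l : Λ) {t : Set Z} (ht : MeasurableSet t) :
    mm A l t = ∫⁻ x in ball (0 : E2) 4 ∩ (A.e l).symm ⁻¹' t, ENNReal.ofReal (dt (A.met l x)) := by
  rw [← lintegral_indicator_one ht, mm, lint_wd l subset_rfl (dt_am h l subset_rfl),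
    ← lintegral_indicator (pre_meas l ht), ← lintegral_indicator measurableSet_ball]
  refine lintegral_congr fun x => ?_
  by_cases h1 : x ∈ ball (0 : E2) 4 <;> by_cases h2 : (A.e l).symm x ∈ t <;>
    simp [indicator, h1, h2, -mem_ball]

theorem mm_src (h : A.Bas) (l : Λ) {t : Set Z} (ht : MeasurableSet t) :
    mm A l (t ∩ A.src l) = mm A l t := by
  rw [mm_apply h l ht, mm_apply h l (ht.inter (A.e l).open_source.measurableSet)]
  congr 2
  ext x
  exact ⟨fun hx => ⟨hx.1, hx.2.1⟩, fun hx => ⟨hx.1, hx.2, A.symm_mem l hx.1⟩⟩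

theorem mm_eq (h : A.Bas) (l l' : Λ) {t : Set Z} (ht : MeasurableSet t) (h1 : t ⊆ A.src l)
    (h2 : t ⊆ A.src l') : mm A l' t = mm A l t := by
  have e : ball (0 : E2) 4 ∩ (A.e l').symm ⁻¹' t =
      A.T l l' '' (ball (0 : E2) 4 ∩ (A.e l).symm ⁻¹' t) := by
    ext y
    constructor
    · rintro ⟨hy, hy'⟩
      have e1 := (A.e l).left_inv (h1 hy')
      refine ⟨A.e l ((A.e l').symm y), ⟨A.map_src (h1 hy'), by rwa [mem_preimage, e1]⟩, ?_⟩
      rw [KA.T, Function.comp_apply, e1, A.e_symm l' hy]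
    · rintro ⟨x, ⟨-, hx'⟩, rfl⟩
      refine ⟨A.map_src (h2 hx'), ?_⟩
      rw [mem_preimage, KA.T, Function.comp_apply, (A.e l').left_inv (h2 hx')]
      exact hx'
  rw [mm_apply h l ht, mm_apply h l' ht, e, lintegral_image_eq_lintegral_abs_det_fderiv_mul volume
    (pre_meas l ht) (f' := fun x => (fderiv ℂ (A.T l l') x).restrictScalars ℝ)]
  · refine setLIntegral_congr_fun (pre_meas l ht) fun x hx => ?_
    have := A.law l l' _ (h1 hx.2) (h2 hx.2)
    rw [A.e_symm l hx.1] at this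
    have e2 : dt (A.met l x) = Complex.normSq (jac (A.T l l') x).det *
        dt (A.met l' (A.T l l' x)) := by
      rw [← dt_pull]
      exact congrArg dt this
    rw [det_jac, abs_of_nonneg (Complex.normSq_nonneg _), e2,
      ENNReal.ofReal_mul (Complex.normSq_nonneg _)]
  · intro x hx
    have := A.an l l' _ (h1 hx.2) (h2 hx.2)
    rw [A.e_symm l hx.1] at this
    exact (this.differentiableAt.hasFDerivAt.restrictScalars ℝ).hasFDerivWithinAt
  · intro x hx y hy e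
    have := congrArg (A.e l) ((A.e l').injOn (h2 hx.2) (h2 hy.2) e)
    rwa [A.e_symm l hx.1, A.e_symm l hy.1] at this

theorem mm_restrict (h : A.Bas) (l l' : Λ) :
    (mm A l').restrict (A.src l) = (mm A l).restrict (A.src l') := by
  have m : ∀ j, MeasurableSet (A.src j) := fun j => (A.e j).open_source.measurableSet
  ext t ht
  rw [Measure.restrict_apply ht, Measure.restrict_apply ht, ← mm_src h l' (ht.inter (m l)),
    ← mm_src h l (ht.inter (m l')), inter_right_comm t (A.src l') (A.src l)]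
  exact mm_eq h l l' ((ht.inter (m l)).inter (m l')) (fun _ hz => hz.1.2) fun _ hz => hz.2

omit [MeasurableSpace Z] [BorelSpace Z] in
theorem phi_tsum (z : Z) : ∑' l, ENNReal.ofReal (A.phi l z) = 1 := by
  have h1 : ∑ᶠ l, A.phi l z = 1 := A.ph_sum z
  have h2 : (Function.support fun l => A.phi l z).Finite := by
    by_contra hc
    rw [finsum_of_infinite_support hc] at h1
    exact zero_ne_one h1
  have h3 : ∀ l, 0 ≤ A.phi l z := fun l => indicator_nonneg (fun _ _ => A.ph_nn _ _) z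
  rw [finsum_eq_sum _ h2] at h1
  rw [tsum_eq_sum (s := h2.toFinset), ← ENNReal.ofReal_sum_of_nonneg fun l _ => h3 l, h1,
    ENNReal.ofReal_one]
  intro l hl
  rw [Finite.mem_toFinset, Function.mem_support, not_not] at hl
  rw [hl, ENNReal.ofReal_zero]

theorem phi_meas (h : A.Bas) (hb : A.Bump) (l : Λ) :
    Measurable fun z => ENNReal.ofReal (A.phi l z) :=
  (continuous_iff_continuousAt.2 fun z =>
    h.sm_cont _ z ((hb.phi_D l).1.1 z)).measurable.ennreal_ofReal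

theorem mu_eq (h : A.Bas) :
    A.μ = Measure.sum fun l => (mm A l).withDensity fun z => ENNReal.ofReal (A.phi l z) := by
  refine congrArg Measure.sum (funext fun l => ?_)
  change (wd (ball 0 4) fun x => A.ph (A.ty l) x * dt (A.met l x)).map (A.e l).symm = _
  ext t ht
  rw [withDensity_apply _ ht, ← lintegral_indicator ht, ← lintegral_indicator_one ht, mm,
    lint_wd l subset_rfl (dt_am h l subset_rfl), lint_wd l subset_rfl
      ((A.ph_sm _).continuous.measurable.aemeasurable.fun_mul (dt_am h l subset_rfl))]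
  refine setLIntegral_congr_fun measurableSet_ball fun x hx => ?_
  have e : A.phi l ((A.e l).symm x) = A.ph (A.ty l) x := by
    rw [KA.phi, indicator_of_mem (A.symm_mem l hx), A.e_symm l hx]
  by_cases h2 : (A.e l).symm x ∈ t
  · simp only [indicator_of_mem h2, Pi.one_apply, one_mul, e, ENNReal.ofReal_mul (A.ph_nn _ _)]
  · simp only [indicator_of_notMem h2, zero_mul]

theorem cv (h : A.Bas) (hb : A.Bump) (l : Λ) : A.μ.restrict (A.src l) = mm A l := by
  have := A.cnt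
  have m : ∀ j, MeasurableSet (A.src j) := fun j => (A.e j).open_source.measurableSet
  have e : ∀ l', ((mm A l').withDensity fun z => ENNReal.ofReal (A.phi l' z)).restrict (A.src l) =
      (mm A l).withDensity fun z => ENNReal.ofReal (A.phi l' z) := fun l' => by
    rw [restrict_withDensity (m l), mm_restrict h, ← withDensity_indicator (m l')]
    congr 1
    ext z
    by_cases hz : z ∈ A.src l'
    · rw [indicator_of_mem hz]
    · rw [indicator_of_notMem hz, KA.phi, indicator_of_notMem hz, ENNReal.ofReal_zero]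
  rw [mu_eq h, Measure.restrict_sum _ (m l)]
  simp only [e]
  rw [← withDensity_tsum (phi_meas h hb)]
  have : (∑' l', fun z => ENNReal.ofReal (A.phi l' z)) = 1 := by
    ext z
    rw [tsum_apply (Pi.summable.2 fun _ => ENNReal.summable), phi_tsum]
    rfl
  rw [this, withDensity_one]

theorem res (h : A.Bas) (hb : A.Bump) (l : Λ) {s : Set E2} (hm : MeasurableSet s)
    (hs : s ⊆ ball 0 4) : A.μ.restrict ((A.e l).symm '' s) =
      (wd s fun x => dt (A.met l x)).map (A.e l).symm := by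
  rw [← map_restrict l hm hs, ← mm, ← cv h hb l, Measure.restrict_restrict (img_meas l hm hs),
    inter_eq_left.2 (img_src l hs)]

theorem lint (h : A.Bas) (hb : A.Bump) (l : Λ) {s : Set E2} (hm : MeasurableSet s)
    (hs : s ⊆ ball 0 4) (F : Z → ENNReal) : ∫⁻ z in (A.e l).symm '' s, F z ∂A.μ =
      ∫⁻ x in s, F ((A.e l).symm x) * ENNReal.ofReal (dt (A.met l x)) := by
  rw [res h hb l hm hs, lint_wd l hs (dt_am h l hs)]

theorem mu_img (h : A.Bas) (hb : A.Bump) (l : Λ) {s : Set E2} (hm : MeasurableSet s)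
    (hs : s ⊆ ball 0 4) :
    A.μ ((A.e l).symm '' s) = ∫⁻ x in s, ENNReal.ofReal (dt (A.met l x)) := by
  rw [← setLIntegral_one, lint h hb l hm hs]
  simp only [one_mul]

theorem int (h : A.Bas) (hb : A.Bump) (l : Λ) {s : Set E2} (hm : MeasurableSet s)
    (hs : s ⊆ ball 0 4) (F : Z → ℝ) : (IntegrableOn F ((A.e l).symm '' s) A.μ ↔
      IntegrableOn (fun x => F ((A.e l).symm x) * dt (A.met l x)) s) ∧
    ∫ z in (A.e l).symm '' s, F z ∂A.μ = ∫ x in s, F ((A.e l).symm x) * dt (A.met l x) := by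
  have H := int_map _ (wd_src (A := A) l hs fun x => dt (A.met l x)) F
  have h1 := (dt_am h l hs).ennreal_ofReal
  have h2 : ∀ᵐ x ∂(volume.restrict s), ENNReal.ofReal (dt (A.met l x)) < ⊤ :=
    Eventually.of_forall fun _ => ENNReal.ofReal_lt_top
  have h3 : (fun x => (ENNReal.ofReal (dt (A.met l x))).toReal • F ((A.e l).symm x))
      =ᵐ[volume.restrict s] fun x => F ((A.e l).symm x) * dt (A.met l x) :=
    (ae_restrict_mem hm).mono fun x hx => by
      simp only [ENNReal.toReal_ofReal (dt_pos l (hs hx)).le, smul_eq_mul, mul_comm]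
  rw [IntegrableOn, res h hb l hm hs, H.1, H.2, wd,
    integrable_withDensity_iff_integrable_smul₀' h1 h2,
    integral_withDensity_eq_integral_toReal_smul₀ h1 h2, integrable_congr h3,
    integral_congr_ae h3]
  exact ⟨Iff.rfl, rfl⟩

theorem fin (h : A.Bas) (hb : A.Bump) : IsFiniteMeasureOnCompacts A.μ := by
  have b1 : ball (0 : E2) 1 ⊆ ball 0 4 := ball_subset_ball (by norm_num)
  have : IsLocallyFiniteMeasure A.μ := ⟨fun z => by
    refine ⟨(A.e (A.i z)).symm '' ball 0 1, ?_, ?_⟩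
    · rw [img_eq _ b1]
      exact ((A.e _).isOpen_inter_preimage isOpen_ball).mem_nhds ⟨A.mem_i z, A.ball_i z⟩
    · rw [mu_img h hb _ measurableSet_ball b1]
      exact (lintegral_mono_set ball_subset_closedBall).trans_lt
        (((dt_cont h _).mono (closedBall_subset_ball (by norm_num))).integrableOn_compact
          (isCompact_closedBall 0 1)).lintegral_lt_top⟩
  infer_instance

theorem pos (h : A.Bas) (hb : A.Bump) : A.μ.IsOpenPosMeasure := ⟨fun U hU ⟨z, hz⟩ h0 => by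
  set l := A.i z
  have o : IsOpen (ball (0 : E2) 4 ∩ (A.e l).symm ⁻¹' U) := by
    rw [← A.tgt l]
    exact (A.e l).isOpen_inter_preimage_symm hU
  have h1 := mu_img h hb l o.measurableSet inter_subset_left
  rw [img_pre, measure_mono_null inter_subset_left h0, eq_comm,
    lintegral_eq_zero_iff' (dt_am h l inter_subset_left).ennreal_ofReal] at h1
  have h2 : ∀ᵐ x ∂(volume.restrict (ball (0 : E2) 4 ∩ (A.e l).symm ⁻¹' U)), False := by
    filter_upwards [h1, ae_restrict_mem o.measurableSet] with x hx hx'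
    exact (dt_pos l hx'.1).not_ge (ENNReal.ofReal_eq_zero.1 hx)
  rw [eventually_false_iff_eq_bot, ae_eq_bot, Measure.restrict_eq_zero] at h2
  refine (o.measure_pos volume ⟨A.e l z, A.map_src (A.mem_i z), ?_⟩).ne' h2
  rwa [mem_preimage, (A.e l).left_inv (A.mem_i z)]⟩

theorem nul (h : A.Bas) (hb : A.Bump) : A.μ A.E = 0 := by
  have := A.cnt
  have c : A.E ⊆ ⋃ l, ⋃ k : Fin 2, (A.e l).symm '' (ball 0 4 ∩ {x | x k = 0}) := fun z hz => by
    obtain ⟨k, -, hk⟩ := (A.hE _ z (A.mem_i z)).1 hz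
    exact mem_iUnion₂.2 ⟨A.i z, k, A.e _ z, ⟨A.map_src (A.mem_i z), hk⟩,
      (A.e _).left_inv (A.mem_i z)⟩
  refine measure_mono_null c (measure_iUnion_null fun l => measure_iUnion_null fun k => ?_)
  rw [mu_img h hb l (measurableSet_ball.inter
    (measurableSet_eq_fun (measurable_pi_apply k) measurable_const)) inter_subset_left]
  exact setLIntegral_measure_zero _ _
    (measure_mono_null inter_subset_right (Measure.pi_hyperplane (fun _ => volume) k 0))

theorem sum : ∃ k : ℝ, ∀ F : Z → ℝ, (∀ z, 0 ≤ F z) → Integrable F A.μ →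
    Summable (fun l => ∫ z in A.src l, F z ∂A.μ) ∧
      ∑' l, ∫ z in A.src l, F z ∂A.μ ≤ k * ∫ z, F z ∂A.μ := by
  have := A.cnt
  obtain ⟨k, hk⟩ := A.mult
  refine ⟨k, fun F h0 hF => ?_⟩
  have m : ∀ j, MeasurableSet (A.src j) := fun j => (A.e j).open_source.measurableSet
  have hm := hF.aemeasurable.ennreal_ofReal
  have e : ∀ l, ∫ z in A.src l, F z ∂A.μ = (∫⁻ z in A.src l, ENNReal.ofReal (F z) ∂A.μ).toReal :=
    fun l => integral_eq_lintegral_of_nonneg_ae (Eventually.of_forall h0)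
      hF.integrableOn.aestronglyMeasurable
  have b : ∑' l, ∫⁻ z in A.src l, ENNReal.ofReal (F z) ∂A.μ ≤
      k * ENNReal.ofReal (∫ z, F z ∂A.μ) := by
    simp only [← lintegral_indicator (m _)]
    rw [← lintegral_tsum fun l => hm.indicator (m l),
      ofReal_integral_eq_lintegral_ofReal hF (Eventually.of_forall h0),
      ← lintegral_const_mul'' _ hm]
    refine lintegral_mono fun z => ?_
    obtain ⟨s, hs, hs'⟩ := hk (A.i z)
    rw [tsum_eq_sum (s := s) fun l hl => indicator_of_notMem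
      (fun hz => hl (hs' l ⟨z, A.mem_i z, hz⟩)) _]
    refine (Finset.sum_le_card_nsmul s _ (ENNReal.ofReal (F z)) fun l _ =>
      indicator_le_self _ _ z).trans ?_
    rw [nsmul_eq_mul]
    gcongr
  have b' : (k : ENNReal) * ENNReal.ofReal (∫ z, F z ∂A.μ) ≠ ⊤ :=
    ENNReal.mul_ne_top (ENNReal.natCast_ne_top k) ENNReal.ofReal_ne_top
  have f := ne_top_of_le_ne_top b' b
  simp only [e]
  refine ⟨ENNReal.summable_toReal f, ?_⟩
  rw [← ENNReal.tsum_toReal_eq (ENNReal.ne_top_of_tsum_ne_top f)]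
  refine (ENNReal.toReal_mono b' b).trans_eq ?_
  rw [ENNReal.toReal_mul, ENNReal.toReal_natCast, ENNReal.toReal_ofReal (integral_nonneg h0)]

omit [BorelSpace Z] in
theorem cov (F : Z → ENNReal) :
    ∫⁻ z, F z ∂A.μ ≤ ∑' l, ∫⁻ z in (A.e l).symm '' ball 0 1, F z ∂A.μ := by
  have := A.cnt
  have c : ⋃ l, (A.e l).symm '' ball 0 1 = univ := eq_univ_of_forall fun z =>
    mem_iUnion.2 ⟨A.i z, A.e _ z, A.ball_i z, (A.e _).left_inv (A.mem_i z)⟩
  have := lintegral_iUnion_le (μ := A.μ) (fun l => (A.e l).symm '' ball 0 1) F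
  rwa [c, Measure.restrict_univ] at this

end PMeas

theorem meas (h : A.Bas) (hb : A.Bump) : A.Meas :=
  ⟨PMeas.fin h hb, PMeas.pos h hb, PMeas.nul h hb, PMeas.cv h hb,
    fun l _ hm hs => PMeas.int h hb l hm hs, fun l _ hm hs => PMeas.lint h hb l hm hs,
    PMeas.sum, PMeas.cov⟩

end Pool.Agent.Lib.MP_356dfe_ag.S
end
end
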