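import Pool.Agent.Lib.MP_356dfe_ag.S.Basic
import Pool.Agent.Lib.MP_7906d6_an.Holo

/-! Vanishing of residues: comparison of two charts on the model space. -/

set_option autoImplicit false

open Set Filter Topology Metric MeasureTheory
open scoped ContDiff ComplexConjugate Matrix Pointwise

noncomputable section

namespace Pool.Agent.Lib.MP_356dfe_ag.S

namespace PRes

open Complex in
theorem arg_mul_ev {X : Type*} [TopologicalSpace X] {p q : X → ℂ} {y : X} (hp : ContinuousAt p y)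
    (hq : ContinuousAt q y) (h1 : p y ∈ slitPlane) (h2 : q y = 1) :
    ∀ᶠ x in 𝓝 y, arg (p x * q x) = arg (p x) + arg (q x) := by
  have h3 : q y ∈ slitPlane := h2 ▸ one_mem_slitPlane
  have hc : ContinuousAt (fun x => arg (p x) + arg (q x)) y :=
    ((continuousAt_arg h1).comp hp).add ((continuousAt_arg h3).comp hq)
  have h4 : arg (p y) + arg (q y) ∈ Ioo (-Real.pi) Real.pi := by
    rw [h2, arg_one, add_zero]
    exact ⟨neg_pi_lt_arg _, (arg_le_pi _).lt_of_ne (slitPlane_arg_ne_pi h1)⟩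
  filter_upwards [hc.eventually (isOpen_Ioo.mem_nhds h4),
    hp.eventually_ne (slitPlane_ne_zero h1), hq.eventually_ne (slitPlane_ne_zero h3)] with x a b c
  exact (arg_mul_eq_add_arg_iff b c).2 (Ioo_subset_Ioc_self a)

open Complex in
theorem ar_mul {X : Type*} [TopologicalSpace X] {p q : X → ℂ} {y : X} (hp : ContinuousAt p y)
    (hq : ContinuousAt q y) (h1 : p y ≠ 0) (h2 : q y ≠ 0) :
    ∀ᶠ x in 𝓝 y, arg (p x * q x / (p y * q y)) = arg (p x / p y) + arg (q x / q y) := by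
  filter_upwards [arg_mul_ev (hp.div_const (p y)) (hq.div_const (q y))
    (by rw [div_self h1]; exact one_mem_slitPlane) (div_self h2)] with x hx
  rw [← hx, div_mul_div_comm]

open Complex in
theorem ar_pow {X : Type*} [TopologicalSpace X] {p : X → ℂ} {y : X} (hp : ContinuousAt p y)
    (h1 : p y ≠ 0) (m : ℕ) : ∀ᶠ x in 𝓝 y, arg (p x ^ m / p y ^ m) = m * arg (p x / p y) := by
  induction m with
  | zero => simp
  | succ m ih =>
    filter_upwards [ih, ar_mul (hp.pow m) hp (pow_ne_zero m h1) h1] with x a b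
    simp only [Pi.pow_apply] at b
    rw [pow_succ, pow_succ, b, a]; push_cast; ring

/-- holomorphic near the point and not zero there -/
def Un (p : E2 → ℂ) (x₀ : E2) : Prop := p x₀ ≠ 0 ∧ ∀ᶠ x in 𝓝 x₀, DifferentiableAt ℂ p x

theorem Un.cont {p : E2 → ℂ} {x₀ : E2} (h : Un p x₀) : ContinuousAt p x₀ :=
  h.2.self_of_nhds.continuousAt

theorem Un.ev {p : E2 → ℂ} {x₀ : E2} (h : Un p x₀) : ∀ᶠ y in 𝓝 x₀, Un p y :=
  (h.cont.eventually_ne h.1).and h.2.eventually_nhds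

open Complex in
theorem Un.shift {p : E2 → ℂ} {x₀ : E2} (h : Un p x₀) : ∀ᶠ y in 𝓝 x₀, ∀ᶠ x in 𝓝 y,
    arg (p x / p x₀) = arg (p y / p x₀) + arg (p x / p y) := by
  have h1 : p x₀ / p x₀ ∈ slitPlane := by rw [div_self h.1]; exact one_mem_slitPlane
  filter_upwards [h.ev, (h.cont.div_const (p x₀)).eventually (isOpen_slitPlane.mem_nhds h1)]
    with y hy hy'
  filter_upwards [arg_mul_ev (p := fun _ => p y / p x₀) continuousAt_const
    (hy.cont.div_const (p y)) hy' (div_self hy.1)] with x hx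
  rw [← hx]
  congr 1
  field_simp [hy.1]

theorem Un.sm {p : E2 → ℂ} {x₀ : E2} (h : Un p x₀) :
    ContDiffAt ℝ ∞ (fun x => Complex.arg (p x / p x₀)) x₀ := by
  obtain ⟨U, hU, ho, hx⟩ := _root_.eventually_nhds_iff.1 h.2
  have h1 : ContDiffAt ℂ ∞ p x₀ := contDiffAt_infty.2 fun n =>
    (Pool.Agent.Lib.MP_7906d6_an.contDiffOn_of_differentiableOn ho n
      fun x hx => (hU x hx).differentiableWithinAt).contDiffAt (ho.mem_nhds hx)
  have h2 : ContDiffAt ℂ ∞ (fun x => Complex.log (p x / p x₀)) x₀ :=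
    ContDiffAt.comp (g := Complex.log) x₀
      (Complex.contDiffAt_log (by rw [div_self h.1]; exact Complex.one_mem_slitPlane))
      (h1.div_const _)
  simp only [← Complex.log_im]
  exact Complex.imCLM.contDiff.contDiffAt.comp x₀ (h2.restrict_scalars ℝ)

theorem dense_ax (k : Fin 2) : Dense {x : E2 | x k ≠ 0} :=
  (dense_compl_singleton (0 : ℂ)).preimage (isOpenMap_eval (X := fun _ : Fin 2 => ℂ) k)

theorem single_rev {x : E2} {k : Fin 2} (h : x k = 0) : Pi.single k.rev (x k.rev) = x := by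
  ext j
  fin_cases k <;> fin_cases j <;> simp_all

theorem single_k (k : Fin 2) (w : ℂ) : (Pi.single k.rev w : E2) k = 0 := by
  fin_cases k <;> simp

theorem single_ball {k : Fin 2} {w : ℂ} {R : ℝ} :
    (Pi.single k w : E2) ∈ ball (0 : E2) R ↔ w ∈ ball (0 : ℂ) R := by
  simp only [mem_ball_zero_iff, Pi.norm_single]

theorem coord_ball {x : E2} {R : ℝ} (h : x ∈ ball (0 : E2) R) (k : Fin 2) :
    x k ∈ ball (0 : ℂ) R :=
  mem_ball_zero_iff.2 ((norm_le_pi_norm x k).trans_lt (mem_ball_zero_iff.1 h))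

theorem diff_single (k : Fin 2) : Differentiable ℂ fun w : ℂ => (Pi.single k w : E2) :=
  (ContinuousLinearMap.single ℂ (fun _ : Fin 2 => ℂ) k).differentiable

theorem hol_ax {u : E2 → ℂ} (hu : DifferentiableOn ℂ u (ball 0 4)) (k : Fin 2) :
    DifferentiableOn ℂ (fun w : ℂ => u (Pi.single k w)) (ball 0 4) :=
  hu.comp (diff_single k).differentiableOn fun _ hw => single_ball.2 hw

theorem freq_ax {u : E2 → ℂ} (hu : DifferentiableOn ℂ u (ball 0 4)) {k : Fin 2}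
    (h : ∃ x ∈ ball (0 : E2) 4, x k = 0 ∧ u x ≠ 0) {x₀ : E2} (h₀ : x₀ ∈ ball (0 : E2) 4)
    (hk : x₀ k = 0) : ∃ᶠ x in 𝓝 x₀, x k = 0 ∧ u x ≠ 0 := by
  intro hc
  obtain ⟨x, hx, hxk, hux⟩ := h
  have ht : Tendsto (fun w : ℂ => (Pi.single k.rev w : E2)) (𝓝 (x₀ k.rev)) (𝓝 x₀) := by
    have := (diff_single k.rev).continuous.tendsto (x₀ k.rev)
    rwa [single_rev hk] at this
  have := ((hol_ax hu k.rev).analyticOnNhd isOpen_ball).eqOn_zero_of_preconnected_of_eventuallyEq_zero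
    (convex_ball _ _).isPreconnected (coord_ball h₀ k.rev) ((ht.eventually hc).mono fun w hw => by
      by_contra h'
      exact hw ⟨single_k k w, h'⟩) (coord_ball hx k.rev)
  exact hux (by simpa only [single_rev hxk, Pi.zero_apply] using this)

theorem cancel {a b : E2 → ℂ} {x₀ : E2} {k : Fin 2} {m : ℕ}
    (ha : ∀ᶠ x in 𝓝 x₀, ContinuousAt a x) (hb : ∀ᶠ x in 𝓝 x₀, ContinuousAt b x)
    (h : ∀ᶠ x in 𝓝 x₀, x k ^ m * a x = x k ^ m * b x) : ∀ᶠ x in 𝓝 x₀, a x = b x := by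
  filter_upwards [ha, hb, h.eventually_nhds] with y h1 h2 h3
  have := mem_closure_iff_nhdsWithin_neBot.1 (dense_ax k y)
  refine tendsto_nhds_unique_of_eventuallyEq (l := 𝓝[{x : E2 | x k ≠ 0}] y)
    (h1.tendsto.mono_left nhdsWithin_le_nhds) (h2.tendsto.mono_left nhdsWithin_le_nhds) ?_
  filter_upwards [h3.filter_mono nhdsWithin_le_nhds, self_mem_nhdsWithin] with x hx hx'
  exact mul_left_cancel₀ (pow_ne_zero m hx') hx

theorem ord_le {a b : E2 → ℂ} {x₀ : E2} {k : Fin 2} {m m' : ℕ}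
    (ha : ∀ᶠ x in 𝓝 x₀, ContinuousAt a x) (hb : ∀ᶠ x in 𝓝 x₀, ContinuousAt b x)
    (fa : ∃ᶠ x in 𝓝 x₀, x k = 0 ∧ a x ≠ 0)
    (h : ∀ᶠ x in 𝓝 x₀, x k ^ m * a x = x k ^ m' * b x) : m' ≤ m := by
  by_contra hc
  obtain ⟨j, rfl⟩ := Nat.exists_eq_add_of_lt (not_le.1 hc)
  have := cancel (k := k) (m := m) (b := fun x => x k ^ (j + 1) * b x) ha
    (hb.mono fun x hx => ((continuous_apply k).continuousAt.pow _).mul hx)
    (h.mono fun x hx => by rw [hx]; ring)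
  obtain ⟨x, ⟨h1, h2⟩, h3⟩ := (fa.and_eventually this).exists
  exact h2 (by rw [h3, h1]; simp)

theorem lc_const {X : Type*} [TopologicalSpace X] {s : Set X} (hs : IsPreconnected s) {D : X → ℝ}
    (h : ∀ y ∈ s, ∃ c, ∀ᶠ x in 𝓝 y, D x = c) : ∃ C, ∀ x ∈ s, D x = C := by
  rcases s.eq_empty_or_nonempty with rfl | ⟨x₀, h₀⟩
  · exact ⟨0, fun _ h => h.elim⟩
  refine ⟨D x₀, fun x hx => hs.induction₂' (fun a b => D a = D b) (fun y hy => ?_)
    (fun _ _ _ _ _ _ => Eq.trans) hx h₀⟩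
  obtain ⟨c, hc⟩ := h y hy
  exact (hc.filter_mono nhdsWithin_le_nhds).mono fun x hx =>
    ⟨hc.self_of_nhds.trans hx.symm, hx.trans hc.self_of_nhds.symm⟩

theorem wind_loc (hn : NF) {D : E2 → ℝ} {x₀ : E2} {k : Fin 2} {r : ℝ} (hk : x₀ k = 0)
    (h : ∀ᶠ y in 𝓝 x₀, y k ≠ 0 → ∃ c, ∀ᶠ x in 𝓝 y, D x = r * Complex.arg (x k / y k) + c) :
    r = 0 ∧ ∃ C, ∀ᶠ x in 𝓝 x₀, x k ≠ 0 → D x = C := by
  obtain ⟨δ, hδ, h⟩ := Metric.eventually_nhds_iff_ball.1 h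
  obtain rfl : r = 0 := hn.wind x₀ k δ r D hk hδ fun y hy => h y hy.1 hy.2
  obtain ⟨C, hC⟩ := lc_const (hn.conn x₀ δ {k}) (D := D) fun y hy => by
    simpa using h y hy.1 (hy.2 k (Finset.mem_singleton_self k))
  exact ⟨rfl, C, mem_of_superset (ball_mem_nhds x₀ hδ) fun x hx hx' =>
    hC x ⟨hx, by simpa using hx'⟩⟩

/-- the other coordinate, if it is active -/
def oth (s : Finset (Fin 2)) (k : Fin 2) (x : E2) : ℂ := if k.rev ∈ s then x k.rev else 1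

theorem oth_diff (s : Finset (Fin 2)) (k : Fin 2) : Differentiable ℂ (oth s k) := by
  unfold oth
  split_ifs <;> fun_prop

theorem mem_cases {s : Finset (Fin 2)} {k : Fin 2} (hk : k ∈ s) :
    (k.rev ∈ s ∧ s = {k, k.rev}) ∨ (k.rev ∉ s ∧ s = {k}) := by
  revert s k
  decide

theorem rev_ne (k : Fin 2) : k ≠ k.rev := by revert k; decide

theorem eq_or_rev (j k : Fin 2) : j = k ∨ j = k.rev := by revert j k; decide

/-- the normal forms in one chart -/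
structure Dat (s : Finset (Fin 2)) (F : E2 → E2 → ℝ) (ℓ : E2 → ℂ) (r : Fin 2 → ℝ) (g : E2 → ℝ)
    (m : Fin 2 → ℕ) (u : E2 → ℂ) : Prop where
  prim : Prim {x ∈ ball (0 : E2) 4 | ∀ k ∈ s, x k ≠ 0} (fun y x => F y x - AG r s y x) g
  hol : DifferentiableOn ℂ u (ball 0 4)
  fac : ∀ x ∈ ball (0 : E2) 4, ℓ x = (∏ k ∈ s, x k ^ m k) * u x
  ax : ∀ k ∈ s, ∃ x ∈ ball (0 : E2) 4, x k = 0 ∧ u x ≠ 0
  pos : ∀ k ∈ s, 0 < m k
  r0 : ∀ k ∉ s, r k = 0
  m0 : ∀ k ∉ s, m k = 0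

section

variable {s s' : Finset (Fin 2)} {F F' : E2 → E2 → ℝ} {ℓ ℓ' : E2 → ℂ} {r r' : Fin 2 → ℝ}
  {g g' : E2 → ℝ} {m m' : Fin 2 → ℕ} {u u' : E2 → ℂ} {k k' : Fin 2}

theorem Dat.ag (h : Dat s F ℓ r g m u) (hk : k ∈ s) (y x : E2) : AG r s y x =
    r k * Complex.arg (x k / y k) + r k.rev * Complex.arg (oth s k x / oth s k y) := by
  rcases mem_cases hk with ⟨h1, h2⟩ | ⟨h1, h2⟩
  · rw [oth, oth, if_pos h1, if_pos h1, AG, h2, Finset.sum_pair (rev_ne k)]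
  · rw [h.r0 _ h1, AG, h2, Finset.sum_singleton, zero_mul, add_zero]

theorem Dat.fac' (h : Dat s F ℓ r g m u) (hk : k ∈ s) {x : E2} (hx : x ∈ ball (0 : E2) 4) :
    ℓ x = x k ^ m k * (oth s k x ^ m k.rev * u x) := by
  rw [h.fac x hx, ← mul_assoc]
  rcases mem_cases hk with ⟨h1, h2⟩ | ⟨h1, h2⟩
  · rw [oth, if_pos h1, h2, Finset.prod_pair (rev_ne k)]
  · rw [h.m0 _ h1, h2, Finset.prod_singleton, pow_zero, mul_one]

theorem Dat.coef (h : Dat s F ℓ r g m u) (t : ℝ) (y x : E2) :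
    (t * m k.rev - r k.rev) * Complex.arg (oth s k x / oth s k y) =
      (t * m k.rev - r k.rev) * Complex.arg (x k.rev / y k.rev) := by
  by_cases e : k.rev ∈ s
  · rw [oth, oth, if_pos e, if_pos e]
  · simp [h.r0 _ e, h.m0 _ e]

theorem act_iff (hk : k ∈ s) {x : E2} (hx : oth s k x ≠ 0) : (∃ j ∈ s, x j = 0) ↔ x k = 0 := by
  refine ⟨fun ⟨j, hj, h⟩ => ?_, fun h => ⟨k, hk, h⟩⟩
  rcases eq_or_rev j k with rfl | rfl
  · exact h
  · exact absurd (by rw [oth, if_pos hj, h]) hx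

theorem ovf (hn : NF) (hd : Div) (h : Dat s F ℓ r g m u) (h' : Dat s' F' ℓ' r' g' m' u')
    {T S : E2 → E2} {x₀ : E2} (hT : AnalyticAt ℂ T x₀) (hS : AnalyticAt ℂ S (T x₀))
    (ST : ∀ᶠ x in 𝓝 x₀, S (T x) = x) (TS : ∀ᶠ y in 𝓝 (T x₀), T (S y) = y)
    (b : x₀ ∈ ball (0 : E2) 4) (b' : T x₀ ∈ ball (0 : E2) 4) (hk : k ∈ s) (hk' : k' ∈ s')
    (z : x₀ k = 0) (z' : T x₀ k' = 0) (o : oth s k x₀ ≠ 0) (o' : oth s' k' (T x₀) ≠ 0)
    (hE : ∀ᶠ x in 𝓝 x₀, (∃ j ∈ s, x j = 0) ↔ ∃ j ∈ s', T x j = 0)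
    (hF : ∀ᶠ y in 𝓝 x₀, ∀ᶠ x in 𝓝 y, F y x = F' (T y) (T x))
    (hl : ∀ᶠ x in 𝓝 x₀, ℓ x = ℓ' (T x)) :
    r k = r' k' ∧ m k = m' k' ∧ ∃ ν : E2 → ℝ, ContDiffAt ℝ ∞ ν x₀ ∧
      (∀ᶠ x in 𝓝 x₀, x k ≠ 0 → g x - g' (T x) = ν x) ∧
      ∀ t : ℝ, r k = t * m k → u x₀ ≠ 0 → u' (T x₀) ≠ 0 → ∃ C, ∀ᶠ x in 𝓝 x₀,
        ν x - (t * m k.rev - r k.rev) * Complex.arg (oth s k x / oth s k x₀) -
          t * Complex.arg (u x / u x₀) =
        C - (t * m' k'.rev - r' k'.rev) * Complex.arg (oth s' k' (T x) / oth s' k' (T x₀)) -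
          t * Complex.arg (u' (T x) / u' (T x₀)) := by
  have dT : ∀ᶠ x in 𝓝 x₀, DifferentiableAt ℂ T x :=
    hT.eventually_analyticAt.mono fun _ hx => hx.differentiableAt
  have up : Un (oth s k) x₀ := ⟨o, .of_forall (oth_diff s k)⟩
  have up' : Un (fun x => oth s' k' (T x)) x₀ :=
    ⟨o', dT.mono fun x hx => (oth_diff s' k' _).comp x hx⟩
  have eb : ∀ᶠ x in 𝓝 x₀, x ∈ ball (0 : E2) 4 := isOpen_ball.mem_nhds b
  have eb' : ∀ᶠ x in 𝓝 x₀, T x ∈ ball (0 : E2) 4 := hT.continuousAt (isOpen_ball.mem_nhds b')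
  have hE' : ∀ᶠ x in 𝓝 x₀, T x k' = 0 ↔ x k = 0 := by
    filter_upwards [hE, up.ev, up'.ev] with x h1 h2 h3
    rw [← act_iff hk h2.1, ← act_iff hk' h3.1, h1]
  obtain ⟨v, hv0, hv⟩ := hd.unit T S x₀ k k' hT hS ST TS z hE'
  have uv : Un v x₀ := ⟨hv0, hv.mono fun _ hx => hx.1⟩
  have du : ∀ᶠ x in 𝓝 x₀, DifferentiableAt ℂ u x :=
    eb.mono fun x hx => h.hol.differentiableAt (isOpen_ball.mem_nhds hx)
  have du' : ∀ᶠ x in 𝓝 x₀, DifferentiableAt ℂ (fun x => u' (T x)) x :=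
    (eb'.and dT).mono fun x hx =>
      (h'.hol.differentiableAt (isOpen_ball.mem_nhds hx.1)).comp x hx.2
  obtain ⟨hr, C, hC⟩ := wind_loc hn (k := k) (r := r' k' - r k) (D := fun x => g x - g' (T x) -
      (r' k' * Complex.arg (v x / v x₀) +
        r' k'.rev * Complex.arg (oth s' k' (T x) / oth s' k' (T x₀)) -
        r k.rev * Complex.arg (oth s k x / oth s k x₀))) z (by
    filter_upwards [up.ev, up'.ev, uv.ev, up.shift, up'.shift, uv.shift, eb, eb', hE', hF, dT,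
      hv.eventually_nhds] with y a1 a2 a3 a4 a5 a6 a7 a8 a9 a10 a11 a12 hy
    obtain ⟨c, hc⟩ := h.prim y ⟨a7, fun j hj e => hy ((act_iff hk a1.1).1 ⟨j, hj, e⟩)⟩
    obtain ⟨c', hc'⟩ := h'.prim (T y)
      ⟨a8, fun j hj e => hy (a9.1 ((act_iff hk' a2.1).1 ⟨j, hj, e⟩))⟩
    refine ⟨c - c' - (r' k' * Complex.arg (v y / v x₀) +
      r' k'.rev * Complex.arg (oth s' k' (T y) / oth s' k' (T x₀)) -
      r k.rev * Complex.arg (oth s k y / oth s k x₀)), ?_⟩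
    filter_upwards [hc, a11.continuousAt.eventually hc', a4, a5, a6, a10, a12,
      ar_mul a3.cont (continuous_apply k).continuousAt a3.1 hy] with x c1 c2 c3 c4 c5 c6 c7 c8
    rw [c1, c2, c3, c4, c5, c6, h.ag hk, h'.ag hk', c7.2, a12.self_of_nhds.2, c8]
    ring)
  have hr' : r k = r' k' := by linarith
  have ca : ∀ᶠ x in 𝓝 x₀, ContinuousAt (fun x => oth s k x ^ m k.rev * u x) x :=
    du.mono fun x hx => ((oth_diff s k x).continuousAt.pow _).mul hx.continuousAt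
  have cb : ∀ᶠ x in 𝓝 x₀, ContinuousAt
      (fun x => v x ^ m' k' * (oth s' k' (T x) ^ m' k'.rev * u' (T x))) x := by
    filter_upwards [du', uv.ev, up'.ev] with x h1 h2 h3
    exact (h2.cont.pow _).mul ((h3.cont.pow _).mul h1.continuousAt)
  have e1 : ∀ᶠ x in 𝓝 x₀, x k ^ m k * (oth s k x ^ m k.rev * u x) =
      x k ^ m' k' * (v x ^ m' k' * (oth s' k' (T x) ^ m' k'.rev * u' (T x))) := by
    filter_upwards [eb, eb', hl, hv] with x h1 h2 h3 h4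
    rw [← h.fac' hk h1, h3, h'.fac' hk' h2, h4.2]
    ring
  have tS : Tendsto S (𝓝 (T x₀)) (𝓝 x₀) := by
    have := hS.continuousAt.tendsto
    rwa [ST.self_of_nhds] at this
  have hm : m k = m' k' := by
    refine le_antisymm (ord_le cb ca ?_ (e1.mono fun _ hx => hx.symm)) (ord_le ca cb ?_ e1)
    · have : ∃ᶠ x in 𝓝 x₀, T x k' = 0 ∧ u' (T x) ≠ 0 := tS.frequently
        (((freq_ax h'.hol (h'.ax k' hk') b' z').and_eventually TS).mono fun y hy => by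
          rw [hy.2]; exact hy.1)
      exact (this.and_eventually (hE'.and (uv.ev.and up'.ev))).mono fun x hx =>
        ⟨hx.2.1.1 hx.1.1, mul_ne_zero (pow_ne_zero _ hx.2.2.1.1)
          (mul_ne_zero (pow_ne_zero _ hx.2.2.2.1) hx.1.2)⟩
    · exact ((freq_ax h.hol (h.ax k hk) b z).and_eventually up.ev).mono fun x hx =>
        ⟨hx.1.1, mul_ne_zero (pow_ne_zero _ hx.2.1) hx.1.2⟩
  refine ⟨hr', hm, fun x => C + (r' k' * Complex.arg (v x / v x₀) +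
    r' k'.rev * Complex.arg (oth s' k' (T x) / oth s' k' (T x₀)) -
    r k.rev * Complex.arg (oth s k x / oth s k x₀)), contDiffAt_const.add
      (((contDiffAt_const.mul uv.sm).add (contDiffAt_const.mul up'.sm)).sub
        (contDiffAt_const.mul up.sm)), hC.mono fun x hx hx' => by linarith [hx hx'],
    fun t ht hu hu' => ⟨C, ?_⟩⟩
  rw [hm] at e1
  have e2 := cancel ca cb e1
  have c1 := du.self_of_nhds.continuousAt
  have c2 := du'.self_of_nhds.continuousAt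
  filter_upwards [e2, ar_mul (up.cont.pow (m k.rev)) c1 (pow_ne_zero _ o) hu,
    ar_mul (uv.cont.pow (m' k')) ((up'.cont.pow (m' k'.rev)).mul c2) (pow_ne_zero _ hv0)
      (mul_ne_zero (pow_ne_zero _ o') hu'),
    ar_mul (up'.cont.pow (m' k'.rev)) c2 (pow_ne_zero _ o') hu', ar_pow up.cont o (m k.rev),
    ar_pow up'.cont o' (m' k'.rev), ar_pow uv.cont hv0 (m' k')] with x a1 a2 a3 a4 a5 a6 a7
  simp only [Pi.pow_apply, Pi.mul_apply] at a2 a3 a4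
  rw [a1, e2.self_of_nhds, a3, a4, a5, a6, a7] at a2
  rw [← hr', ht, hm]
  linear_combination t * a2

end

theorem fac_ex (hd : Div) (s : Finset (Fin 2)) : ∀ ℓ : E2 → ℂ, DifferentiableOn ℂ ℓ (ball 0 4) →
    (∃ x ∈ ball (0 : E2) 4, ℓ x ≠ 0) → ∃ (m : Fin 2 → ℕ) (u : E2 → ℂ),
      DifferentiableOn ℂ u (ball 0 4) ∧ (∀ x ∈ ball (0 : E2) 4, ℓ x = (∏ k ∈ s, x k ^ m k) * u x) ∧
      (∀ k ∈ s, ∃ x ∈ ball (0 : E2) 4, x k = 0 ∧ u x ≠ 0) ∧ ∀ k ∉ s, m k = 0 := by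
  induction s using Finset.induction_on with
  | empty => exact fun ℓ h _ => ⟨0, ℓ, h, by simp, by simp, by simp⟩
  | insert k s hk ih =>
    intro ℓ h ⟨x₁, hx₁, h₁⟩
    obtain ⟨m, u, a1, a2, a3, a4⟩ := ih ℓ h ⟨x₁, hx₁, h₁⟩
    obtain ⟨j, u', b1, b2, b3⟩ := hd.ord u 0 4 k rfl a1
      ⟨x₁, hx₁, fun e => h₁ (by rw [a2 x₁ hx₁, e, mul_zero])⟩
    refine ⟨Function.update m k j, u', b1, fun x hx => ?_, fun i hi => ?_, fun i hi => ?_⟩
    · have : ∏ i ∈ s, x i ^ Function.update m k j i = ∏ i ∈ s, x i ^ m i := Finset.prod_congr rfl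
        fun i hi => by rw [Function.update_of_ne (ne_of_mem_of_not_mem hi hk)]
      rw [Finset.prod_insert hk, Function.update_self, a2 x hx, b2 x hx, this]
      ring
    · rcases Finset.mem_insert.1 hi with rfl | hi
      · exact b3
      · obtain ⟨x, hx, c1, c2⟩ := a3 i hi
        exact ⟨x, hx, c1, fun e => c2 (by rw [b2 x hx, e, mul_zero])⟩
    · rw [Finset.mem_insert, not_or] at hi
      rw [Function.update_of_ne hi.1, a4 i hi.2]

theorem dat_ex (hn : NF) (hd : Div) (s : Finset (Fin 2)) {F : E2 → E2 → ℝ} {ℓ : E2 → ℂ}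
    (hF : LPS {x ∈ ball (0 : E2) 4 | ∀ k ∈ s, x k ≠ 0} F) (hl : DifferentiableOn ℂ ℓ (ball 0 4))
    (h1 : ∃ x ∈ ball (0 : E2) 4, ℓ x ≠ 0)
    (h0 : ∀ x ∈ ball (0 : E2) 4, (∃ k ∈ s, x k = 0) → ℓ x = 0) :
    ∃ r g m u, Dat s F ℓ r g m u := by
  obtain ⟨r, g, hg⟩ := hn.ex s F hF
  obtain ⟨m, u, a1, a2, a3, a4⟩ := fac_ex hd s ℓ hl h1
  have e : AG (fun k => if k ∈ s then r k else 0) s = AG r s := by
    ext y x
    exact Finset.sum_congr rfl fun k hk => by simp only [if_pos hk]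
  refine ⟨fun k => if k ∈ s then r k else 0, g, m, u, e ▸ hg, a1, a2, a3, fun k hk => ?_,
    fun k hk => if_neg hk, a4⟩
  have hb : (Pi.single k.rev 1 : E2) ∈ ball (0 : E2) 4 := single_ball.2 (by simp)
  have e1 : ∀ᶠ x in 𝓝 (Pi.single k.rev 1 : E2), x k.rev ≠ 0 :=
    (continuous_apply k.rev).continuousAt.eventually_ne (by simp)
  obtain ⟨x, ⟨c1, c2⟩, c3, c4⟩ := ((freq_ax a1 (a3 k hk) hb (single_k k 1)).and_eventually
    (e1.and (isOpen_ball.mem_nhds hb))).exists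
  have := h0 x c4 ⟨k, hk, c1⟩
  rw [a2 x c4, mul_eq_zero, or_iff_left c2, Finset.prod_eq_zero_iff] at this
  obtain ⟨j, -, hj⟩ := this
  rcases eq_or_rev j k with rfl | rfl
  · exact Nat.pos_of_ne_zero (pow_eq_zero_iff'.1 hj).2
  · exact absurd (pow_eq_zero_iff'.1 hj).1 c3

theorem Dat.neg {s : Finset (Fin 2)} {F : E2 → E2 → ℝ} {ℓ : E2 → ℂ} {r : Fin 2 → ℝ} {g : E2 → ℝ}
    {m : Fin 2 → ℕ} {u : E2 → ℂ} (h : Dat s F ℓ r g m u) : Dat s (-F) ℓ (-r) (-g) m u := by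
  refine ⟨fun y hy => ?_, h.hol, h.fac, h.ax, h.pos, fun k hk => by simp [h.r0 k hk], h.m0⟩
  obtain ⟨c, hc⟩ := h.prim y hy
  refine ⟨-c, hc.mono fun x hx => ?_⟩
  simp only [Pi.neg_apply, hx, AG, neg_mul, Finset.sum_neg_distrib]
  ring

end PRes

end Pool.Agent.Lib.MP_356dfe_ag.S
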