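import Pool.Agent.Lib.MP_356dfe_ag.S.Defs

/-! Statements on the model space and abstract statements. -/

set_option autoImplicit false

open Set Filter Topology Metric MeasureTheory
open scoped ContDiff ComplexConjugate Matrix Pointwise

noncomputable section

namespace Pool.Agent.Lib.MP_356dfe_ag.S

/-- pointwise algebra -/
structure Alg : Prop where
  md_pull : ∀ J S T : M2, md (pull J S) (pull J T) = Complex.normSq J.det * md S T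
  ot_pull : ∀ (J : M2) (a b : E2), ot (a ᵥ* J) (b ᵥ* J) = pull J (ot a b)
  pull_herm : ∀ J S : M2, S.IsHermitian → (pull J S).IsHermitian
  det_pull : ∀ (J : M2) (L : List E2),
    det4 (L.map fun a => rc (a ᵥ* J)) = Complex.normSq J.det * det4 (L.map rc)
  n1_nn : ∀ g a, PD g → 0 ≤ n1 g a a
  n1_zero : ∀ g a, PD g → n1 g a a = 0 → a = 0
  n1_comm : ∀ g a b, PD g → n1 g a b = n1 g b a
  n1_cs : ∀ g a b, PD g → |n1 g a b| ≤ √(n1 g a a) * √(n1 g b b)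
  n1_add : ∀ g a b, PD g → n1 g (a + b) (a + b) ≤ 2 * n1 g a a + 2 * n1 g b b
  ip_nn : ∀ g S, PD g → S.IsHermitian → 0 ≤ ip g S S
  ip_add : ∀ g S T, PD g → S.IsHermitian → T.IsHermitian →
    ip g (S + T) (S + T) ≤ 2 * ip g S S + 2 * ip g T T
  tr_le : ∀ g S, PD g → S.IsHermitian → |tr g S| ≤ 2 * √(ip g S S)
  md_le : ∀ g S T, PD g → S.IsHermitian → T.IsHermitian →
    |md S T / dt g| ≤ 3 * √(ip g S S) * √(ip g T T)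
  md_ot_le : ∀ g S a b, PD g → S.IsHermitian →
    |md S (ot a b) / dt g| ≤ 3 * √(ip g S S) * √(n1 g a a) * √(n1 g b b)
  md_ot_ot : ∀ a b : E2, md (ot a a) (ot b b) = Complex.normSq (a 0 * b 1 - a 1 * b 0)
  had : ∀ g a b c d, PD g → |det4 [rc a, rc b, rc c, rc d] / dt g| ≤
    16 * √(n1 g a a) * √(n1 g b b) * √(n1 g c c) * √(n1 g d d)
  cmp : ∀ (K : Set E2) (g : E2 → M2), IsCompact K → (∀ j k, ContinuousOn (fun x => g x j k) K) →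
    (∀ x ∈ K, PD (g x)) → ∃ c > 0, ∀ x ∈ K, c ≤ dt (g x) ∧ dt (g x) ≤ c⁻¹ ∧
      (∀ a, c * ‖a‖ ^ 2 ≤ n1 (g x) a a ∧ n1 (g x) a a ≤ c⁻¹ * ‖a‖ ^ 2) ∧
      ∀ S : M2, S.IsHermitian → c * ∑ j, ∑ k, ‖S j k‖ ^ 2 ≤ ip (g x) S S ∧
        ip (g x) S S ≤ c⁻¹ * ∑ j, ∑ k, ‖S j k‖ ^ 2
  ip_le : ∀ (K : Set E2) (g : E2 → M2), IsCompact K → (∀ j k, ContinuousOn (fun x => g x j k) K) →
    (∀ x ∈ K, PD (g x)) → ∃ C, ∀ x ∈ K, ∀ S : M2, |ip (g x) S S| ≤ C * ∑ j, ∑ k, ‖S j k‖ ^ 2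

/-- calculus on the model space -/
structure Calc : Prop where
  du_comp : ∀ (u : E2 → ℝ) (T : E2 → E2) x, DifferentiableAt ℝ u (T x) → DifferentiableAt ℂ T x →
    du (u ∘ T) x = du u (T x) ᵥ* jac T x
  dba_comp : ∀ (a T : E2 → E2) x, DifferentiableAt ℝ a (T x) → AnalyticAt ℂ T x →
    dba (fun y => a (T y) ᵥ* jac T y) x = pull (jac T x) (dba a (T x))
  jac_comp : ∀ (S T : E2 → E2) x, DifferentiableAt ℂ S (T x) → DifferentiableAt ℂ T x →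
    jac (S ∘ T) x = jac S (T x) * jac T x
  jac_id : ∀ (T : E2 → E2) x, (∀ᶠ y in 𝓝 x, T y = y) → jac T x = 1
  sm_jac : ∀ (T : E2 → E2) x, AnalyticAt ℂ T x → ∀ i j, AnalyticAt ℂ (fun y => jac T y i j) x
  c1_du : ∀ (u : E2 → ℝ) x, ContDiffAt ℝ 2 u x → C1 (du u) x
  c2_dba : ∀ (a : E2 → E2) x, ContDiffAt ℝ 2 a x → (∀ᶠ y in 𝓝 x, C1 a y) → C2 (dba a) x
  c2_ot : ∀ (a : E2 → E2) x, DifferentiableAt ℂ a x → C1 a x → C2 (fun y => ot (a y) (a y)) x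
  sm_du : ∀ (u : E2 → ℝ) x, ContDiffAt ℝ ∞ u x → ContDiffAt ℝ ∞ (du u) x
  sm_dba : ∀ (a : E2 → E2) x, ContDiffAt ℝ ∞ a x → ∀ j k, ContDiffAt ℝ ∞ (fun y => dba a y j k) x
  du_add : ∀ (u v : E2 → ℝ) x, DifferentiableAt ℝ u x → DifferentiableAt ℝ v x →
    du (fun y => u y + v y) x = du u x + du v x
  du_mul : ∀ (u v : E2 → ℝ) x, DifferentiableAt ℝ u x → DifferentiableAt ℝ v x →
    du (fun y => u y * v y) x = u x • du v x + v x • du u x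
  du_chain : ∀ (φ : ℝ → ℝ) (u : E2 → ℝ) x, DifferentiableAt ℝ φ (u x) → DifferentiableAt ℝ u x →
    du (fun y => φ (u y)) x = deriv φ (u x) • du u x
  dba_add : ∀ (a b : E2 → E2) x, DifferentiableAt ℝ a x → DifferentiableAt ℝ b x →
    dba (fun y => a y + b y) x = dba a x + dba b x
  dba_smul : ∀ (u : E2 → ℝ) (a : E2 → E2) x, DifferentiableAt ℝ u x → DifferentiableAt ℝ a x →
    dba (fun y => u y • a y) x = u x • dba a x + ot (a x) (du u x)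
  dba_hol : ∀ (a : E2 → E2) x, DifferentiableAt ℂ a x → dba a x = 0
  hol_of_db : ∀ (f : E2 → ℂ) x, DifferentiableAt ℝ f x → (∀ k, db f x k = 0) →
    DifferentiableAt ℂ f x
  dh_hol : ∀ (f : E2 → ℂ) x, DifferentiableAt ℂ f x → ∀ j,
    dh f x j = fderiv ℂ f x (Pi.single j 1) ∧ db f x j = 0
  db_real : ∀ (u : E2 → ℝ) x k, db (fun y => (u y : ℂ)) x k = conj (du u x k)
  rc_du : ∀ (u : E2 → ℝ) x, DifferentiableAt ℝ u x → rc (du u x) = gr u x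
  du_re : ∀ (F : E2 → ℂ) x, DifferentiableAt ℂ F x → du (fun y => 2 * (F y).re) x = dh F x
  du_log : ∀ (f : E2 → ℂ) x, DifferentiableAt ℂ f x → f x ≠ 0 →
    du (fun y => Real.log (Complex.normSq (f y))) x = fun j => dh f x j / f x
  gr_co : ∀ i x, gr (fun y => co y i) x = Pi.single i 1
  poin : ∀ (O : Set E2) (a : E2 → E2), IsOpen O → Convex ℝ O → ContDiffOn ℝ ∞ a O →
    (∀ x ∈ O, C1 a x) → ∃ u, ContDiffOn ℝ ∞ u O ∧ ∀ x ∈ O, du u x = a x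
  hpoin : ∀ (O : Set E2) (a : E2 → E2), IsOpen O → Convex ℝ O → DifferentiableOn ℂ a O →
    (∀ x ∈ O, C1 a x) → ∃ F, DifferentiableOn ℂ F O ∧ ∀ x ∈ O, dh F x = a x

/-- Stokes formula of first order -/
def St1 : Prop := ∀ (U : E2 → ℝ) (T : E2 → M2) (b : E2 → E2) (O : Set E2), CS U → IsOpen O →
  tsupport U ⊆ O → (∀ j k, ContDiffOn ℝ ∞ (fun x => T x j k) O) → (∀ x ∈ O, C2 T x) →
  ContDiffOn ℝ ∞ b O → (∀ x ∈ O, (dba b x).IsHermitian) →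
  ∫ x, (md (T x) (ot (du U x) (b x)) + U x * md (T x) (dba b x)) = 0

/-- Stokes formula for determinants -/
def St4 : Prop := ∀ (V : E2 → ℝ) (L : List (E2 → ℝ)) (O : Set E2), CS V → IsOpen O →
  tsupport V ⊆ O → (∀ p ∈ L, ContDiffOn ℝ ∞ p O) →
  ∫ x, det4 ((V :: L).map fun p => gr p x) = 0

/-- density for constant coefficients -/
def PE1 : Prop := ∀ (g : M2) (M : ℝ) (f : E2 → ℝ), PD g → 0 < M → MemLp f 2 volume →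
  ∀ η > 0, ∃ u, CS u ∧ ∫ x, (M * u x - tr g (lev u x) - f x) ^ 2 ≤ η

/-- a priori estimates for constant coefficients -/
def PE2 : Prop := ∀ (g : M2) (M : ℝ) (u : E2 → ℝ), PD g → 0 < M → CS u →
  ∫ x, ip g (lev u x) (lev u x) ≤ ∫ x, (M * u x - tr g (lev u x)) ^ 2 ∧
  M * ∫ x, n1 g (du u x) (du u x) ≤ ∫ x, (M * u x - tr g (lev u x)) ^ 2 ∧
  M ^ 2 * ∫ x, u x ^ 2 ≤ ∫ x, (M * u x - tr g (lev u x)) ^ 2

/-- local decay of weak solutions -/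
def PE3 : Prop := ∀ g : E2 → M2, (∀ j k, ContinuousOn (fun x => g x j k) (ball 0 4)) →
  (∀ x ∈ ball (0 : E2) 4, PD (g x)) → ∀ q > 0, ∃ M₀, ∀ M ≥ M₀, ∀ h : E2 → ℝ,
  MemLp h 2 (volume.restrict (ball 0 2)) →
  (∀ U, CS U → tsupport U ⊆ ball 0 2 →
    ∫ x in ball 0 2, h x * (M * U x - tr (g x) (lev U x)) = 0) →
  ∫ x in ball 0 1, h x ^ 2 ≤ q * ∫ x in ball 0 2, h x ^ 2

/-- mean value inequality -/
def Mean : Prop := ∀ r > 0, ∃ C, ∀ (h : E2 → ℂ) (x : E2), DifferentiableOn ℂ h (ball x (2 * r)) →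
  ‖h x‖ ^ 2 ≤ C * ∫ y in ball x r, ‖h y‖ ^ 2

/-- Weyl lemma -/
def Weyl : Prop := ∀ (O : Set E2) (b : ℕ → E2 → ℂ), IsOpen O → (∀ n, ContDiffOn ℝ 1 (b n) O) →
  (∀ K, IsCompact K → K ⊆ O → ∀ ε > 0, ∃ N, ∀ m ≥ N, ∀ n ≥ N, ∫ x in K, ‖b m x - b n x‖ ^ 2 ≤ ε) →
  (∀ k, LL O (fun n x => db (b n) x k) 0) → ∃ h, DifferentiableOn ℂ h O ∧ LL O b h

/-- linear relations between derivatives pass to the limit -/
def Weak : Prop := ∀ (O : Set E2) (b c : ℕ → E2 → ℂ) (h h' : E2 → ℂ) (i j : Fin 2), IsOpen O →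
  (∀ n, ContDiffOn ℝ 1 (b n) O) → (∀ n, ContDiffOn ℝ 1 (c n) O) → ContDiffOn ℝ 1 h O →
  ContDiffOn ℝ 1 h' O → LL O b h → LL O c h' →
  LL O (fun n x => dh (b n) x i - dh (c n) x j) 0 → ∀ x ∈ O, dh h x i = dh h' x j

/-- critical values of holomorphic functions -/
def Sard : Prop := ∀ (O : Set E2) (F : E2 → ℂ), IsOpen O → DifferentiableOn ℂ F O →
  volume (F '' {x ∈ O | fderiv ℂ F x = 0}) = 0

/-- concentration on a shell around an axis -/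
def Shell : Prop := ∀ (η : E2 → ℝ) (β a : E2 → E2) (x₀ : E2) (k : Fin 2), ContinuousAt η x₀ →
  ContinuousAt β x₀ → ContinuousAt a x₀ → x₀ k = 0 → a x₀ k.rev ≠ 0 → ∀ r > 0, ∃ c > 0,
  ∀ᶠ ε in 𝓝[>] (0 : ℝ), ENNReal.ofReal c ≤ ∫⁻ x in ball x₀ r, ENNReal.ofReal
    (ε * (Complex.normSq (x k) * Real.exp (η x)) /
      (Complex.normSq (x k) * Real.exp (η x) + ε) ^ 2 *
      md (ot (a x) (a x)) (ot (β x + Pi.single k (x k)⁻¹) (β x + Pi.single k (x k)⁻¹)))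

/-- primitives on simply connected spaces -/
def PrimS : Prop := ∀ (Y V : Type) [TopologicalSpace Y] [SimplyConnectedSpace Y]
  [LocallyPathConnectedSpace Y] [AddCommGroup V] (f : Y → Y → V), LPS univ f → ∃ F, Prim univ f F

/-- division by a coordinate -/
structure Div : Prop where
  one : ∀ (f : E2 → ℂ) (c : E2) (R : ℝ) (k : Fin 2), c k = 0 → DifferentiableOn ℂ f (ball c R) →
    (∀ x ∈ ball c R, x k = 0 → f x = 0) →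
    ∃ u, DifferentiableOn ℂ u (ball c R) ∧ ∀ x ∈ ball c R, f x = x k * u x
  ord : ∀ (f : E2 → ℂ) (c : E2) (R : ℝ) (k : Fin 2), c k = 0 → DifferentiableOn ℂ f (ball c R) →
    (∃ x ∈ ball c R, f x ≠ 0) → ∃ (m : ℕ) (u : E2 → ℂ), DifferentiableOn ℂ u (ball c R) ∧
      (∀ x ∈ ball c R, f x = x k ^ m * u x) ∧ ∃ x ∈ ball c R, x k = 0 ∧ u x ≠ 0
  unit : ∀ (T S : E2 → E2) (x₀ : E2) (k k' : Fin 2), AnalyticAt ℂ T x₀ → AnalyticAt ℂ S (T x₀) →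
    (∀ᶠ x in 𝓝 x₀, S (T x) = x) → (∀ᶠ y in 𝓝 (T x₀), T (S y) = y) → x₀ k = 0 →
    (∀ᶠ x in 𝓝 x₀, T x k' = 0 ↔ x k = 0) →
    ∃ u : E2 → ℂ, u x₀ ≠ 0 ∧ ∀ᶠ x in 𝓝 x₀, DifferentiableAt ℂ u x ∧ T x k' = u x * x k

/-- normal form of systems on a punctured polydisc; uniqueness of residues -/
structure NF : Prop where
  ex : ∀ (s : Finset (Fin 2)) (f : E2 → E2 → ℝ), LPS {x ∈ ball (0 : E2) 4 | ∀ k ∈ s, x k ≠ 0} f →
    ∃ r g, Prim {x ∈ ball (0 : E2) 4 | ∀ k ∈ s, x k ≠ 0} (fun y x => f y x - AG r s y x) g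
  wind : ∀ (x₀ : E2) (k : Fin 2) (δ r : ℝ) (g : E2 → ℝ), x₀ k = 0 → 0 < δ →
    Prim {x ∈ ball x₀ δ | x k ≠ 0} (fun y x => r * Complex.arg (x k / y k)) g → r = 0
  conn : ∀ (x₀ : E2) (δ : ℝ) (s : Finset (Fin 2)), IsPreconnected {x ∈ ball x₀ δ | ∀ k ∈ s, x k ≠ 0}

/-- the residue inequality on a disc -/
structure DegF : Prop where
  sm : ∀ V G : ℂ → ℝ, ContDiff ℝ ∞ V → HasCompactSupport V → tsupport V ⊆ ball 0 4 →
    ContDiffOn ℝ ∞ G (ball 0 4) → ∫ w, (d1 V w * conj (d1 G w)).im = 0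
  pole : ∀ (V : ℂ → ℝ) (h : ℂ → ℂ), ContDiff ℝ ∞ V → HasCompactSupport V →
    tsupport V ⊆ ball 0 4 → (∀ w, 0 ≤ V w) → DifferentiableOn ℂ h (ball 0 4) →
    (∃ w ∈ ball (0 : ℂ) 4, h w ≠ 0) →
    (∀ p ∈ ball (0 : ℂ) 4, h p = 0 → ∀ᶠ w in 𝓝 p, V w = V p) →
    ∫ w, (d1 V w * conj (deriv h w / h w)).re ≤ 0 ∧
      ∀ p ∈ ball (0 : ℂ) 4, h p = 0 → 0 < V p → ∫ w, (d1 V w * conj (deriv h w / h w)).re < 0

/-- exactness of the Koszul complex -/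
def Kos : Prop := ∀ (R : Type) [AddCommGroup R] (D H P : Fin 4 → R →+ R), Kz D H P →
  ∀ η : Finset (Fin 4) → R, (∀ S, dK D η S = 0) → P 0 (P 1 (P 2 (P 3 (η Finset.univ)))) = 0 →
  ∃ ζ, ∀ S, dK D ζ S = η S

/-- integration along lines -/
def Fibi : Prop := ∃ D H P : Fin 4 → CSm →+ CSm, Kz D H P ∧ (∀ i u x, (D i u).1 x = gr u.1 x i) ∧
  ∀ u : CSm, ∫ x, u.1 x = 0 → P 0 (P 1 (P 2 (P 3 u))) = 0

/-- Poincare lemma with compact supports on the model space -/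
def Fpl : Prop := ∀ (k : ℕ) (ξ : FF E2), FIn k ξ →
  (∀ f L, ContDiff ℝ ∞ f → (∀ p ∈ L, ContDiff ℝ ∞ p) → fev ξ 1 (f :: L) = 0) → fev ξ 1 [] = 0 →
  ∃ ξ', FIn (k + 1) ξ' ∧
    ∀ f L, ContDiff ℝ ∞ f → (∀ p ∈ L, ContDiff ℝ ∞ p) → fev ξ' 1 (f :: L) = fev ξ f L

/-- convex sublevel sets are diffeomorphic to the model space -/
def GC : Prop := ∀ (W K : Set E2) (s : Finset (E2 → ℝ)), IsOpen W → IsCompact K → K ⊆ W →
  (∀ F ∈ s, ContDiffOn ℝ ∞ F W ∧ ConvexOn ℝ W F) → Convex ℝ W →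
  {u ∈ W | ∀ F ∈ s, F u < 0} ⊆ K → {u ∈ W | ∀ F ∈ s, F u < 0}.Nonempty →
  ∃ T : OpenPartialHomeomorph E2 E2, T.source = {u ∈ W | ∀ F ∈ s, F u < 0} ∧ T.target = univ ∧
    ContDiffOn ℝ ∞ T T.source ∧ ContDiff ℝ ∞ T.symm

/-- positivity of the Fubini and Study form -/
def FS : Prop := ∀ (N : ℕ) (s : E2 → Fin (N + 1) → ℂ) (x : E2), AnalyticAt ℂ s x → s x ≠ 0 →
  (∀ (v : E2) (c : ℂ), fderiv ℂ s x v = c • s x → v = 0) →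
  PD (lev (fun y => Real.log (∑ i, ‖s y i‖ ^ 2)) x)

section Hilb

variable {G F H : Type} [Group G] [Fintype F] [NormedAddCommGroup H] [InnerProductSpace ℝ H]
  [CompleteSpace H]

/-- the von Neumann dimension -/
def dimG (b : HilbertBasis (G × F) ℝ H) (V : Submodule ℝ H) : ℝ :=
  ∑ i, ‖V.topologicalClosure.starProjection (b (1, i))‖ ^ 2

/-- invariant closed subspaces -/
def InvS (u : G →* (H ≃ₗᵢ[ℝ] H)) (V : Submodule ℝ H) : Prop :=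
  IsClosed (V : Set H) ∧ ∀ g, ∀ x ∈ V, u g x ∈ V

end Hilb

/-- the rank theorem for von Neumann dimensions -/
def RN : Prop := ∀ (G F H : Type) [Group G] [Fintype F] [NormedAddCommGroup H]
  [InnerProductSpace ℝ H] [CompleteSpace H] (b : HilbertBasis (G × F) ℝ H)
  (u : G →* (H ≃ₗᵢ[ℝ] H)), (∀ g h i, u g (b (h, i)) = b (g * h, i)) →
  ∀ (T : H →L[ℝ] H) (V : Submodule ℝ H), (∀ g x, T (u g x) = u g (T x)) → InvS u V →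
  dimG b V = dimG b (V ⊓ LinearMap.ker T.toLinearMap) + dimG b (V.map T.toLinearMap)

/-- the sign of the Euler characteristic of a Hilbert complex -/
def Eul : Prop := ∀ (G F H : Type) [Group G] [Fintype F] [NormedAddCommGroup H]
  [InnerProductSpace ℝ H] [CompleteSpace H] (b : HilbertBasis (G × F) ℝ H)
  (u : G →* (H ≃ₗᵢ[ℝ] H)), (∀ g h i, u g (b (h, i)) = b (g * h, i)) →
  ∀ (T : H →L[ℝ] H) (V : ℕ → Submodule ℝ H) (k : ℕ), (∀ g x, T (u g x) = u g (T x)) →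
  (∀ q, InvS u (V q)) → (∀ q, ∀ x ∈ V q, T x ∈ V (q + 1) ∧ T (T x) = 0) → V k = ⊥ →
  (∀ q, Even q → ∀ x ∈ V (q + 1), T x = 0 → (∀ y ∈ V q, inner ℝ x (T y) = 0) → x = 0) →
  0 ≤ ∑ q ∈ Finset.range k, (-1) ^ q * dimG b (V q)

/-- the sign of the Euler characteristic of the truncated complex -/
def L2E : Prop := ∀ (G : Type) [Group G] (n : ℕ) (𝒜 ℬ : Set (Finset (Vx G n)))
  (NA NB : Finset (Finset (Fin n))), Cx 𝒜 → Cx ℬ → ℬ ⊆ 𝒜 → Quo 𝒜 ℬ NA NB → H1 𝒜 →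
  (∀ k, 4 ≤ k → Even k → HR 𝒜 ℬ k) → 0 ≤ icN NA NB

/-- a class of test functions -/
structure Cls {X : Type} (𝒮 : Set (X → ℝ)) : Prop where
  one : (1 : X → ℝ) ∈ 𝒮
  add : ∀ f ∈ 𝒮, ∀ g ∈ 𝒮, f + g ∈ 𝒮
  neg : ∀ f ∈ 𝒮, -f ∈ 𝒮
  mul : ∀ f ∈ 𝒮, ∀ g ∈ 𝒮, f * g ∈ 𝒮

/-- the global form of a cochain, paired with a current -/
def GW {G X : Type} [Group G] {n : ℕ} (𝒜 : Set (Finset (Vx G n))) (ψ : Vx G n → X → ℝ)
    (c : Finset (Vx G n) → ℝ) (q : ℕ) (T : (X → ℝ) → List (X → ℝ) → ℝ) : ℝ :=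
  ∑ᶠ i, Pr 𝒜 ψ c q {i} (T (ψ i))

/-- the identities of the zigzag -/
structure Zig {G X : Type} [Group G] [TopologicalSpace X] {n : ℕ} (𝒮 : Set (X → ℝ))
    (𝒜 : Set (Finset (Vx G n))) (V : Vx G n → Set X) (ψ : Vx G n → X → ℝ) (O : Set X)
    (c : Finset (Vx G n) → ℝ) (q : ℕ) : Prop where
  hom : ∀ k, ∀ τ ∈ 𝒜, τ.card + k = q + 1 → 2 ≤ τ.card → ∀ K T, Cur 𝒮 K T → K ⊆ VV V τ ∩ O →
    ∑ i ∈ τ, sg i τ * ∑ j ∈ nb 𝒜 (τ.erase i), sg j (insert j (τ.erase i)) *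
      Pr 𝒜 ψ c k (insert j (τ.erase i)) (T (ψ j)) = Pr 𝒜 ψ c k τ (T 1)
  one : ∀ i K T, Cur 𝒮 K T → K ⊆ V i ∩ O → GW 𝒜 ψ c q T = Pr 𝒜 ψ c q {i} (T 1)
  bd : ∀ K T, Cur 𝒮 K T → IsCompact K → K ⊆ O → GW 𝒜 ψ c q (fun f L => T 1 (f :: L)) = 0
  van : ∀ B : Set X, (∀ σ, σ.Nonempty → (VV V σ ∩ B).Nonempty → c σ = 0) →
    ∀ K T, Cur 𝒮 K T → K ⊆ B → (∀ k τ, τ.Nonempty → K ⊆ VV V τ → ∀ f ∈ 𝒮,
      Pr 𝒜 ψ c k τ (T f) = 0) ∧ GW 𝒜 ψ c q T = 0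

/-- the identities hold for cocycles -/
def ZZ : Prop := ∀ (G X : Type) [Group G] [TopologicalSpace X] (n : ℕ) (𝒮 : Set (X → ℝ))
  (𝒜 : Set (Finset (Vx G n))) (V : Vx G n → Set X) (ψ : Vx G n → X → ℝ) (O : Set X)
  (c : Finset (Vx G n) → ℝ) (q : ℕ), Cls 𝒮 → Cx 𝒜 → (∀ l, IsOpen (V l)) → IsOpen O →
  (∀ σ, σ.Nonempty → (VV V σ).Nonempty → σ ∈ 𝒜) → (∀ l, ψ l ∈ 𝒮 ∧ tsupport (ψ l) ⊆ V l) →
  (∀ x ∈ O, ∑ᶠ l, ψ l x = 1) → (∀ K, IsCompact K → {l | (V l ∩ K).Nonempty}.Finite) →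
  (∀ σ ∈ 𝒜, σ.card = q + 2 → cob c σ = 0) → Zig 𝒮 𝒜 V ψ O c q

end Pool.Agent.Lib.MP_356dfe_ag.S
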