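import Pool.Agent.Lib.MP_356dfe_ag.S.Stm1

/-! Statements on Kaehler atlases and on the covering space. -/

set_option autoImplicit false

open Set Filter Topology Metric MeasureTheory
open scoped ContDiff ComplexConjugate Matrix Pointwise

noncomputable section

namespace Pool.Agent.Lib.MP_356dfe_ag.S

namespace KA

variable {Z Λ : Type} [TopologicalSpace Z] (A : KA Z Λ)

/-- calculus on the atlas: functions and one-forms -/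
structure Bas1 : Prop where
  sm_of : ∀ U z l, z ∈ A.src l → ContDiffAt ℝ ∞ (U ∘ (A.e l).symm) (A.e l z) → A.Sm U z
  an_of : ∀ h z l, z ∈ A.src l → DifferentiableAt ℂ (h ∘ (A.e l).symm) (A.e l z) → A.An h z
  sm_cont : ∀ U z, A.Sm U z → ContinuousAt U z
  an_cont : ∀ h z, A.An h z → ContinuousAt h z
  s1_d : ∀ U z, A.Sm U z → A.S1 (A.d U) z
  s1_sm1 : ∀ U a z, A.Sm U z → A.S1 a z → A.S1 (A.sm1 U a) z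
  s1_congr : ∀ a b z, A.S1 a z → (∀ᶠ w in 𝓝 z, A.Eq1 b a w) → A.S1 b z
  d_add : ∀ U V z, A.Sm U z → A.Sm V z → A.Eq1 (A.d (U + V)) (A.d U + A.d V) z
  d_mul : ∀ U V z, A.Sm U z → A.Sm V z →
    A.Eq1 (A.d (U * V)) (A.sm1 U (A.d V) + A.sm1 V (A.d U)) z
  d_smul : ∀ (c : ℝ) U, A.d (c • U) = c • A.d U
  d_congr : ∀ U V z (c : ℝ), (∀ᶠ w in 𝓝 z, U w = V w + c) → ∀ᶠ w in 𝓝 z, A.Eq1 (A.d U) (A.d V) w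
  ex_s1 : ∀ a z, A.Ex a z → A.S1 a z
  ex_c1 : ∀ a z, A.Ex a z → ∀ l, z ∈ A.src l → C1 (a l) (A.e l z)
  ex_add : ∀ a b z, A.Ex a z → A.Ex b z → A.Ex (a + b) z
  ex_smul : ∀ (c : ℝ) a z, A.Ex a z → A.Ex (c • a) z
  ex_congr : ∀ a b z, A.Ex a z → (∀ᶠ w in 𝓝 z, A.Eq1 b a w) → A.Ex b z
  ex_of : ∀ a (O : Set Z), IsOpen O → (∀ z ∈ O, A.S1 a z) →
    (∀ z ∈ O, ∀ l, z ∈ A.src l → C1 (a l) (A.e l z)) → ∀ z ∈ O, A.Ex a z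
  ex_lps : ∀ (u : Z → Z → ℝ) (O : Set Z), IsOpen O → LPS O u →
    (∀ y ∈ O, ∀ᶠ w in 𝓝 y, A.Sm (u y) w) →
    ∃ a, ∀ y ∈ O, ∀ᶠ w in 𝓝 y, A.Eq1 a (A.d (u y)) w
  lps_ex : ∀ a (O : Set Z), IsOpen O → (∀ z ∈ O, A.Ex a z) → ∃ u : Z → Z → ℝ, LPS O u ∧
    ∀ y ∈ O, ∀ᶠ w in 𝓝 y, A.Sm (u y) w ∧ A.Eq1 a (A.d (u y)) w

/-- calculus on the atlas: two-forms and invariants -/
structure Bas2 : Prop where
  s2_bar : ∀ a z, (∀ᶠ w in 𝓝 z, A.S1 a w) → A.S2 (bar a) z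
  cl2_bar : ∀ a z, A.Ex a z → A.Cl2 (bar a) z
  cl2_met : ∀ z, A.Cl2 A.met z
  cl2_ot : ∀ a, A.Hol1 a → ∀ z, A.Cl2 (OT a a) z
  s2_ot : ∀ a b z, A.S1 a z → A.S1 b z → A.S2 (OT a b) z
  at2_ot : ∀ a b z, A.At1 a z → A.At1 b z → A.At2 (OT a b) z
  bar_add : ∀ a b z, A.S1 a z → A.S1 b z → A.v2 (bar (a + b)) z = A.v2 (bar a) z + A.v2 (bar b) z
  bar_smul : ∀ (c : ℝ) (a : F1 Λ), bar (c • a) = c • bar a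
  bar_sm1 : ∀ U a z, A.Sm U z → A.S1 a z →
    A.v2 (bar (A.sm1 U a)) z = U z • A.v2 (bar a) z + ot (A.v1 a z) (A.v1 (A.d U) z)
  bar_congr : ∀ a b z, (∀ᶠ w in 𝓝 z, A.Eq1 a b w) → ∀ l, z ∈ A.src l →
    bar a l (A.e l z) = bar b l (A.e l z)
  pd : ∀ z, PD (A.g z)
  W_eq : ∀ S T z l, A.At2 S z → A.At2 T z → z ∈ A.src l →
    A.W S T z = md (S l (A.e l z)) (T l (A.e l z)) / dt (A.met l (A.e l z))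
  P_eq : ∀ a b z l, A.At1 a z → A.At1 b z → z ∈ A.src l →
    A.P a b z = n1 (A.met l (A.e l z)) (a l (A.e l z)) (b l (A.e l z))
  Tr_eq : ∀ S z l, A.At2 S z → z ∈ A.src l → A.Tr S z = tr (A.met l (A.e l z)) (S l (A.e l z))
  NN_eq : ∀ S z l, A.At2 S z → z ∈ A.src l →
    A.NN S z = ip (A.met l (A.e l z)) (S l (A.e l z)) (S l (A.e l z))
  Dt_eq : ∀ (L : List (F1 Λ)) z l, (∀ a ∈ L, A.At1 a z) → z ∈ A.src l →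
    A.Dt L z = det4 (L.map fun a => rc (a l (A.e l z))) / dt (A.met l (A.e l z))
  W_sm : ∀ S T z, (∀ᶠ w in 𝓝 z, A.S2 S w ∧ A.S2 T w) → A.Sm (A.W S T) z
  P_sm : ∀ a b z, (∀ᶠ w in 𝓝 z, A.S1 a w ∧ A.S1 b w) → A.Sm (A.P a b) z
  Tr_sm : ∀ S z, (∀ᶠ w in 𝓝 z, A.S2 S w) → A.Sm (A.Tr S) z
  NN_sm : ∀ S z, (∀ᶠ w in 𝓝 z, A.S2 S w) → A.Sm (A.NN S) z
  Dt_sm : ∀ (L : List (F1 Λ)) z, (∀ᶠ w in 𝓝 z, ∀ a ∈ L, A.S1 a w) → A.Sm (A.Dt L) z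
  L_D : ∀ U, A.D U → A.D (A.L U) ∧ A.D1 (A.d U) ∧ A.sp1 (A.d U) ⊆ tsupport U

/-- calculus on the atlas -/
structure Bas : Prop extends A.Bas1, A.Bas2

/-- topology of the space and cut-off functions -/
structure Bump : Prop where
  lc : LocallyCompactSpace Z
  sc : SecondCountableTopology Z
  lpc : LocallyPathConnectedSpace Z
  clE : IsClosed A.E
  dense : Dense A.Eᶜ
  lf : ∀ K, IsCompact K → {l | (A.src l ∩ K).Nonempty}.Finite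
  ext_D : ∀ l u, CS u → tsupport u ⊆ ball 0 4 →
    A.D (A.ext l u) ∧ tsupport (A.ext l u) = (A.e l).symm '' tsupport u
  phi_D : ∀ l, A.D (A.phi l) ∧ tsupport (A.phi l) ⊆ (A.e l).symm '' ball 0 2
  phi_sum : ∀ K, IsCompact K → ∃ s : Finset Λ, ∀ᶠ z in 𝓝ˢ K, ∑ l ∈ s, A.phi l z = 1
  bump : ∀ K O, IsCompact K → IsOpen O → K ⊆ O → ∃ χ, A.D χ ∧ (∀ z, 0 ≤ χ z ∧ χ z ≤ 1) ∧
    (∀ᶠ z in 𝓝ˢ K, χ z = 1) ∧ tsupport χ ⊆ O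
  part : ∀ (ι : Type) (s : Finset ι) (K : Set Z) (O : ι → Set Z), IsCompact K →
    (∀ i, IsOpen (O i)) → K ⊆ ⋃ i ∈ s, O i → ∃ χ : ι → Z → ℝ,
      (∀ i, A.D (χ i) ∧ (∀ z, 0 ≤ χ i z) ∧ tsupport (χ i) ⊆ O i) ∧
      ∀ᶠ z in 𝓝ˢ K, ∑ i ∈ s, χ i z = 1
  cut : ∃ (χ : ℕ → Z → ℝ) (C : ℝ), (∀ n, A.D (χ n) ∧ ∀ z, 0 ≤ χ n z ∧ χ n z ≤ 1 ∧
    A.N (A.d (χ n)) z ≤ C) ∧ ∀ z, ∀ᶠ n in atTop, ∀ᶠ w in 𝓝 z, χ n w = 1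

variable [MeasurableSpace Z]

/-- the volume measure in charts -/
structure Meas : Prop where
  fin : IsFiniteMeasureOnCompacts A.μ
  pos : A.μ.IsOpenPosMeasure
  nul : A.μ A.E = 0
  cv : ∀ l, A.μ.restrict (A.src l) = Measure.map (A.e l).symm
    ((volume.restrict (ball 0 4)).withDensity fun x => ENNReal.ofReal (dt (A.met l x)))
  int : ∀ l (s : Set E2), MeasurableSet s → s ⊆ ball 0 4 → ∀ F : Z → ℝ,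
    (IntegrableOn F ((A.e l).symm '' s) A.μ ↔
      IntegrableOn (fun x => F ((A.e l).symm x) * dt (A.met l x)) s) ∧
    ∫ z in (A.e l).symm '' s, F z ∂A.μ = ∫ x in s, F ((A.e l).symm x) * dt (A.met l x)
  lint : ∀ l (s : Set E2), MeasurableSet s → s ⊆ ball 0 4 → ∀ F : Z → ENNReal,
    ∫⁻ z in (A.e l).symm '' s, F z ∂A.μ =
      ∫⁻ x in s, F ((A.e l).symm x) * ENNReal.ofReal (dt (A.met l x))
  sum : ∃ k : ℝ, ∀ F : Z → ℝ, (∀ z, 0 ≤ F z) → Integrable F A.μ →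
    Summable (fun l => ∫ z in A.src l, F z ∂A.μ) ∧
      ∑' l, ∫ z in A.src l, F z ∂A.μ ≤ k * ∫ z, F z ∂A.μ
  cov : ∀ F : Z → ENNReal, ∫⁻ z, F z ∂A.μ ≤ ∑' l, ∫⁻ z in (A.e l).symm '' ball 0 1, F z ∂A.μ

/-- the standing facts -/
structure Std : Prop where
  alg : Alg
  clc : Calc
  bas : A.Bas
  bump : A.Bump
  meas : A.Meas

/-- global Stokes formula of first order -/
def GS1 : Prop := ∀ T b U, (∀ z, A.Cl2 T z) → (∀ z, A.Ex b z) → A.D U →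
  ∫ z, (A.W T (OT (A.d U) b) z + U z * A.W T (bar b) z) ∂A.μ = 0

/-- global Stokes formula for determinants -/
def GS4 : Prop := ∀ V (L : List (Z → ℝ)), A.D V → (∀ p ∈ L, A.SM p) →
  ∫ z, A.Dt ((V :: L).map A.d) z ∂A.μ = 0

/-- density of the range of `ε - L` -/
def LA (ε : ℝ) : Prop := ∀ f, MemLp f 2 A.μ → ∀ η > 0, ∃ U, A.D U ∧
  ∫ z, (ε * U z - A.L U z - f z) ^ 2 ∂A.μ ≤ η

/-- limits of closed forms with small conjugate derivative -/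
def Lim : Prop := ∀ b : ℕ → F1 Λ, (∀ n z, A.Ex (b n) z) → (∀ n, Integrable (A.N (b n)) A.μ) →
  (∀ n, Integrable (A.NN (bar (b n))) A.μ) →
  (∀ ε > 0, ∃ k, ∀ m ≥ k, ∀ n ≥ k, ∫ z, A.N (b m - b n) z ∂A.μ ≤ ε) →
  Tendsto (fun n => ∫ z, A.NN (bar (b n)) z ∂A.μ) atTop (𝓝 0) →
  ∃ h, A.Hol1 h ∧ Integrable (A.N h) A.μ ∧
    Tendsto (fun n => ∫ z, A.N (b n - h) z ∂A.μ) atTop (𝓝 0)

/-- the Hodge and Riemann identity -/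
def HRi : Prop := ∀ b, (∀ z, A.Ex b z) → Integrable (A.N b) A.μ →
  Integrable (A.NN (bar b)) A.μ → ∫ z, A.NN (bar b) z ∂A.μ = ∫ z, A.Tr (bar b) z ^ 2 ∂A.μ

/-- a minimizing sequence with small trace -/
def Seq : Prop := ∀ a, (∀ z, A.Ex a z) → Integrable (A.N a) A.μ →
  Integrable (A.NN (bar a)) A.μ → ∃ U : ℕ → Z → ℝ, (∀ n, A.D (U n)) ∧
  (∀ ε > 0, ∃ k, ∀ m ≥ k, ∀ n ≥ k, ∫ z, A.N (A.d (U m) - A.d (U n)) z ∂A.μ ≤ ε) ∧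
  Tendsto (fun n => ∫ z, (A.Tr (bar a) z - A.L (U n) z) ^ 2 ∂A.μ) atTop (𝓝 0)

/-- holomorphic representatives -/
def V1 : Prop := ∀ a, (∀ z, A.Ex a z) → Integrable (A.N a) A.μ → Integrable (A.NN (bar a)) A.μ →
  ∃ h, A.Hol1 h ∧ Integrable (A.N h) A.μ ∧
    ∀ η > 0, ∃ U, A.D U ∧ ∫ z, A.N (a - h - A.d U) z ∂A.μ ≤ η

/-- sup bounds for holomorphic forms -/
def MV : Prop := ∀ h, A.Hol1 h → Integrable (A.N h) A.μ →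
  (∃ C, ∀ l, ∀ x ∈ ball (0 : E2) 1, ‖h l x‖ ^ 2 ≤ C * ∫ z in A.src l, A.N h z ∂A.μ) ∧
    ∃ C, ∀ z, A.N h z ≤ C

/-- the Hodge index identity -/
def HI : Prop := ∀ a, A.Hol1 a → Integrable (A.N a) A.μ → ∀ T, (∀ z, A.Cl2 T z) →
  IsCompact (A.sp2 T) → ∫ z, A.W (OT a a) T z ∂A.μ = 0

omit [MeasurableSpace Z] in
/-- `ϱ` is a square norm of a local equation of `E` -/
def IsRho (η : Λ → E2 → ℝ) (ϱ : Z → ℝ) : Prop := (∀ l, ContDiffOn ℝ ∞ (η l) (ball 0 4)) ∧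
  ∀ l, ∀ z ∈ A.src l,
    ϱ z = (∏ k ∈ A.act (A.ty l), Complex.normSq (A.e l z k)) * Real.exp (η l (A.e l z))

/-- no concentration along `E` -/
def Conc : Prop := ∀ η ϱ, A.IsRho η ϱ → ∀ a, A.Hol1 a → Integrable (A.N a) A.μ → ∀ κ, A.D κ →
  (∀ w, 0 ≤ κ w) → (∀ y ∈ A.E, ∀ᶠ w in 𝓝 y, κ w = κ y) →
  Tendsto (fun ε : ℝ => ∫⁻ z, ENNReal.ofReal (κ z * (ε * ϱ z / (ϱ z + ε) ^ 2) *
    A.W (OT a a) (OT (A.d (Real.log ∘ ϱ)) (A.d (Real.log ∘ ϱ))) z) ∂A.μ) (𝓝[>] 0) (𝓝 0)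

/-- square integrable holomorphic forms vanish along `E` -/
def EV : Prop := ∀ a, A.Hol1 a → Integrable (A.N a) A.μ → ∀ l, ∀ k ∈ A.act (A.ty l),
  ∀ x ∈ ball (0 : E2) 4, x k = 0 → a l x k.rev = 0

omit [MeasurableSpace Z] in
/-- no holomorphic function has many compact fibres -/
def Fib : Prop := ∀ (O : Set Z) (F : Z → ℂ) (S : Set ℂ), IsOpen O → (∀ z ∈ O, A.An F z) →
  (∀ w ∈ S, IsCompact (O ∩ F ⁻¹' {w}) ∧ (O ∩ F ⁻¹' {w}).Nonempty ∧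
    Disjoint (O ∩ F ⁻¹' {w}) A.E) → volume S = 0

/-- square integrable holomorphic forms vanish -/
def HZ : Prop := ∀ h, A.Hol1 h → Integrable (A.N h) A.μ → ∀ z, A.N h z = 0

/-- vanishing of the first reduced cohomology -/
def Van : Prop := ∀ a, (∀ z, A.Ex a z) → Integrable (A.N a) A.μ →
  Integrable (A.NN (bar a)) A.μ → ∀ η > 0, ∃ U, A.D U ∧ ∫ z, A.N (a - A.d U) z ∂A.μ ≤ η

omit [MeasurableSpace Z] in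
/-- the residue theorem on a union of branches of `E` -/
def Deg : Prop := ∀ (K : Finset (Λ × Fin 2)) (G : Λ × Fin 2 → ℂ → ℝ) (s : Λ × Fin 2 → ℝ)
  (h : Λ × Fin 2 → ℂ → ℂ) (t : ℝ), 0 < t →
  (∀ c ∈ K, c.2 ∈ A.act (A.ty c.1) ∧ ContDiffOn ℝ ∞ (G c) (ball 0 4) ∧ 0 ≤ s c ∧
    (s c ≠ 0 → A.act (A.ty c.1) = Finset.univ) ∧ DifferentiableOn ℂ (h c) (ball 0 4) ∧
    ∃ w ∈ ball (0 : ℂ) 4, h c w ≠ 0) →
  (∀ c ∈ K, ∀ w ∈ ball (0 : ℂ) 4, ∀ c' : Λ × Fin 2, c'.1 ≠ c.1 → c'.2 ∈ A.act (A.ty c'.1) →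
    ∀ w' ∈ ball (0 : ℂ) 4, A.br c w = A.br c' w' → c' ∈ K ∧ (h c w ≠ 0 → h c' w' ≠ 0 →
      ∃ C, ∀ᶠ v in 𝓝 w, G c v - s c * Complex.arg (v / w) - t * Complex.arg (h c v / h c w) =
        G c' (A.e c'.1 (A.br c v) c'.2.rev) -
          s c' * Complex.arg (A.e c'.1 (A.br c v) c'.2.rev / w') -
          t * Complex.arg (h c' (A.e c'.1 (A.br c v) c'.2.rev) / h c' w') + C)) →
  ∀ c ∈ K, s c = 0 ∧ ∀ w ∈ ball (0 : ℂ) 1, h c w ≠ 0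

omit [MeasurableSpace Z] in
/-- systems near `E` have no residues -/
def Res (ρ : Z → ℝ) (a : ℝ) (N : Set Z) : Prop := ∀ f : Z → Z → ℝ,
  LPS ((N ∩ {z | ρ z < a}) \ A.E) f → ∀ l, A.src l ⊆ N → (A.act (A.ty l)).Nonempty →
  ∃ F, Prim (A.src l \ A.E) f F

omit [MeasurableSpace Z] in
/-- extension of closed forms over `E` -/
def Loc (ρ : Z → ℝ) (a b : ℝ) (N : Set Z) : Prop := ∀ a₁ a₃ b₂ b₁, a ≤ a₁ → a₁ < a₃ → a₃ < b₂ →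
  b₂ < b₁ → b₁ ≤ b → ∀ θ, (∀ z ∈ N, a₁ < ρ z → ρ z < b₁ → A.Ex θ z) →
  ∃ θ', (∀ z ∈ N, ρ z < b₂ → A.Ex θ' z) ∧ ∀ z ∈ N, a₃ ≤ ρ z → ρ z < b₂ → A.Eq1 θ' θ z

/-- weakly closed forms are closed -/
def Cl3 : Prop := ∀ (θ : F1 Λ) (O : Set Z), IsOpen O → (∀ z ∈ O, A.S1 θ z) →
  (∀ f g g', A.D f → tsupport f ⊆ O → A.SM g → A.SM g' →
    ∫ z, A.Dt [A.d f, A.d g, A.d g', θ] z ∂A.μ = 0) → ∀ z ∈ O, A.Ex θ z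

/-- change of variables to a real chart -/
def Cvk : Prop := ∀ κ, A.RCh κ → κ.target = univ → ∃ s : ℝ, (s = 1 ∨ s = -1) ∧
  ∀ (F : Z → ℝ) (L : List (Z → ℝ)), A.D F → tsupport F ⊆ κ.source → (∀ p ∈ L, A.SM p) →
    ∫ z, F z * A.Dt (L.map A.d) z ∂A.μ =
      s * ∫ y, F (κ.symm y) * det4 (L.map fun p => gr (p ∘ κ.symm) y)

/-- Poincare lemma with compact supports on good sets -/
def Plz : Prop := ∀ C, A.Good C → (∃ ξ, A.In C 0 ξ ∧ A.cur ξ 1 [] = 1) ∧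
  ∀ k ξ, A.In C k ξ → (∀ f L, A.SM f → (∀ p ∈ L, A.SM p) → A.cur ξ 1 (f :: L) = 0) →
    A.cur ξ 1 [] = 0 → ∃ ξ', A.In C (k + 1) ξ' ∧
      ∀ f L, A.SM f → (∀ p ∈ L, A.SM p) → A.cur ξ' 1 (f :: L) = A.cur ξ f L

/-- linearity and locality of currents -/
structure Evl : Prop where
  cls : Cls {U | A.SM U}
  cur : ∀ C k ξ, A.In C k ξ → Cur {U | A.SM U} (⋃ q ∈ ξ.support, tsupport q.1) (A.cur ξ)
  val : ∀ C k ξ f (L : List (F1 Λ)), A.In C k ξ → A.SM f → (∀ a ∈ L, ∀ z, A.S1 a z) →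
    Integrable (fun z => f z * A.val ξ L z) A.μ ∧ A.ev ξ f L = ∫ z, f z * A.val ξ L z ∂A.μ
  th : ∀ C ξ, A.In C 3 ξ → A.D1 (A.th ξ) ∧ A.sp1 (A.th ξ) ⊆ ⋃ q ∈ ξ.support, tsupport q.1 ∧
    ∀ (L : List (F1 Λ)) z, A.val ξ L z = A.Dt (L ++ [A.th ξ]) z
  sum : ∀ (ι : Type) (s : Finset ι) (c : ι → ℝ) (w : ι → F1 Λ) (b : F1 Λ) C k ξ f
    (L L' : List (F1 Λ)), A.In C k ξ → A.SM f → (∀ a ∈ L ++ L', ∀ z, A.S1 a z) →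
    (∀ i ∈ s, ∀ z, A.S1 (w i) z) →
    (∀ q ∈ ξ.support, ∀ z ∈ tsupport q.1, A.Eq1 b (∑ i ∈ s, c i • w i) z) →
    A.ev ξ f (L ++ b :: L') = ∑ i ∈ s, c i * A.ev ξ f (L ++ w i :: L')
  mul : ∀ C k ξ f U (a : F1 Λ) (L L' : List (F1 Λ)), A.In C k ξ →
    A.ev ξ f (L ++ A.sm1 U a :: L') = A.ev ξ (f * U) (L ++ a :: L')

omit [MeasurableSpace Z] in
/-- a smooth injective immersion into an inner product space -/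
def Emb {F : Type} [NormedAddCommGroup F] [InnerProductSpace ℝ F] (Φ : Z → F) : Prop :=
  Function.Injective Φ ∧ ∀ l, ∀ z ∈ A.src l, ContDiffAt ℝ ∞ (Φ ∘ (A.e l).symm) (A.e l z) ∧
    Function.Injective (fderiv ℝ (Φ ∘ (A.e l).symm) (A.e l z))

omit [MeasurableSpace Z] in
/-- `c` is a regular value of `ρ` -/
def RegL (ρ : Z → ℝ) (c : ℝ) : Prop :=
  ∀ z, ρ z = c → ∃ l, z ∈ A.src l ∧ fderiv ℝ (ρ ∘ (A.e l).symm) (A.e l z) ≠ 0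

omit [MeasurableSpace Z] in
/-- charts in which small balls and the two level sets are convex -/
def Cvx : Prop := ∀ (F : Type) [NormedAddCommGroup F] [InnerProductSpace ℝ F] (Φ : Z → F)
  (ρ : Z → ℝ) (a b : ℝ), A.Emb Φ → A.SM ρ → A.RegL ρ a → A.RegL ρ b → ∀ x,
  ∃ (κ : OpenPartialHomeomorph Z E2) (W : Set E2) (δ : ℝ), A.RCh κ ∧ x ∈ κ.source ∧ κ x ∈ W ∧
    IsOpen W ∧ Convex ℝ W ∧ W ⊆ κ.target ∧ 0 < δ ∧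
    (∀ y ∈ ball (Φ x) δ, ConvexOn ℝ W fun u => ‖Φ (κ.symm u) - y‖ ^ 2) ∧
    ((ConvexOn ℝ W (ρ ∘ κ.symm) ∧ ConcaveOn ℝ W (ρ ∘ κ.symm)) ∨
      ∀ u ∈ W, ρ (κ.symm u) ≠ a ∧ ρ (κ.symm u) ≠ b)

omit [MeasurableSpace Z] in
/-- existence of fine good covers -/
def GoodE : Prop := ∀ (ρ : Z → ℝ) (a b : ℝ) (U : Z → Set Z), A.SM ρ → A.RegL ρ a → A.RegL ρ b →
  (∀ x, U x ∈ 𝓝 x) → ∃ (n : ℕ) (V : Fin n → Set Z), Down A ρ a b V ∧ ∀ i, ∃ x, V i ⊆ U x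

end KA

/-- a chart at every point of a compact space gives an atlas -/
def PreK : Prop := ∀ (M : Type) [TopologicalSpace M] [T2Space M] [CompactSpace M] (E : Set M)
  (e : M → OpenPartialHomeomorph M E2) (pot : M → E2 → ℝ) (act : M → Finset (Fin 2)),
  (∀ x, (e x).target = ball 0 4 ∧ x ∈ (e x).source ∧ e x x = 0 ∧
    ContDiffOn ℝ ∞ (pot x) (ball 0 4) ∧ (∀ u ∈ ball (0 : E2) 4, PD (lev (pot x) u)) ∧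
    ∀ z ∈ (e x).source, z ∈ E ↔ ∃ k ∈ act x, e x z k = 0) →
  (∀ x y z, z ∈ (e x).source → z ∈ (e y).source → AnalyticAt ℂ (e y ∘ (e x).symm) (e x z) ∧
    lev (pot x) (e x z) = pull (jac (e y ∘ (e x).symm) (e x z)) (lev (pot y) (e y z))) →
  (∀ x y, act x = Finset.univ → x ∈ (e y).source → y = x) →
  ∃ (m : ℕ) (A : KA M (Fin m)) (c : Fin m → M), A.E = E ∧
    ∀ l, A.e l = e (c l) ∧ A.act (A.ty l) = act (c l)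

namespace Geo

variable {G Z : Type} [Group G] [TopologicalSpace Z] [MulAction G Z] {m n : ℕ} (Γ : Geo G Z m n)

/-- invariance under the group -/
structure Inv : Prop where
  sm : ∀ (g : G) U z, Γ.A.Sm U z → Γ.A.Sm (act0 g U) (g • z)
  dd : ∀ (g : G) U, Γ.A.D U → Γ.A.D (act0 g U) ∧ tsupport (act0 g U) = g • tsupport U
  d : ∀ (g : G) U, Γ.A.d (act0 g U) = act1 g (Γ.A.d U)
  sm1 : ∀ (g : G) U a, Γ.A.sm1 (act0 g U) (act1 g a) = act1 g (Γ.A.sm1 U a)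
  eq1 : ∀ (g : G) a b z, Γ.A.Eq1 (act1 g a) (act1 g b) (g • z) ↔ Γ.A.Eq1 a b z
  s1 : ∀ (g : G) a z, Γ.A.S1 a z → Γ.A.S1 (act1 g a) (g • z)
  ex : ∀ (g : G) a z, Γ.A.Ex a z → Γ.A.Ex (act1 g a) (g • z)
  sp1 : ∀ (g : G) a, Γ.A.sp1 (act1 g a) = g • Γ.A.sp1 a
  N : ∀ (g : G) a z, Γ.A.At1 a z → Γ.A.N (act1 g a) (g • z) = Γ.A.N a z
  NN : ∀ (g : G) S z, Γ.A.At2 S z → Γ.A.NN (act1 g S) (g • z) = Γ.A.NN S z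
  Dt : ∀ (g : G) (L : List (F1 (Vx G m))) z, (∀ a ∈ L, Γ.A.At1 a z) →
    Γ.A.Dt (L.map (act1 g)) (g • z) = Γ.A.Dt L z
  E : ∀ (g : G) z, g • z ∈ Γ.A.E ↔ z ∈ Γ.A.E
  In : ∀ (g : G) C k ξ, Γ.A.In C k ξ → Γ.A.In (g • C) k (actF g ξ)
  th : ∀ (g : G) ξ, Γ.A.th (actF g ξ) = act1 g (Γ.A.th ξ)
  VV : ∀ (g : G) σ, VV Γ.V (g • σ) = g • VV Γ.V σ
  prop : ∀ K K' : Set Z, IsCompact K → IsCompact K' → {g : G | (g • K ∩ K').Nonempty}.Finite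
  fin : ∀ (ι : Type) [MulAction G ι] (𝒮 : Set ι) (K : ι → Set Z), Orb G 𝒮 →
    (∀ i ∈ 𝒮, IsCompact (K i) ∧ ∀ g : G, K (g • i) = g • K i) →
    (∀ C, IsCompact C → {i ∈ 𝒮 | (K i ∩ C).Nonempty}.Finite) ∧
    ∀ C, IsCompact C → ∃ k : ℕ, ∀ g : G, {i ∈ 𝒮 | (K i ∩ g • C).Nonempty}.ncard ≤ k
  cocpt : ∃ C : Set Z, IsCompact C ∧ ∀ z, ∃ g : G, z ∈ g • C
  lfV : ∀ K, IsCompact K → {l | (Γ.V l ∩ K).Nonempty}.Finite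
  cxA : Cx Γ.𝒜
  cxB : Cx Γ.ℬ
  orb : Orb G Γ.𝒜
  ek : Γ.A.EK

variable [MeasurableSpace Z]

/-- invariance of integrals -/
structure InvM : Prop where
  mp : ∀ g : G, MeasurePreserving (fun z : Z => g • z) Γ.A.μ Γ.A.μ
  int : ∀ (g : G) (F : Z → ℝ), ∫ z, F (g • z) ∂Γ.A.μ = ∫ z, F z ∂Γ.A.μ
  ev : ∀ (g : G) C k ξ f (L : List (F1 (Vx G m))), Γ.A.In C k ξ → (∀ a ∈ L, ∀ z, Γ.A.At1 a z) →
    Γ.A.ev (actF g ξ) (act0 g f) (L.map (act1 g)) = Γ.A.ev ξ f L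
  cur : ∀ (g : G) C k ξ f (L : List (Z → ℝ)), Γ.A.In C k ξ → (∀ p ∈ L, Γ.A.SM p) →
    Γ.A.cur (actF g ξ) (act0 g f) (L.map (act0 g)) = Γ.A.cur ξ f L

/-- the standing facts on the covering space -/
structure Std : Prop where
  std : Γ.A.Std
  inv : Γ.Inv
  invm : Γ.InvM
  evl : Γ.A.Evl

/-- square summable combinations of equivariant families -/
def Sum : Prop := ∀ (ι : Type) [MulAction G ι] (𝒮 : Set ι) (w : ι → F1 (Vx G m)) (c : ι → ℝ),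
  Orb G 𝒮 → Γ.Fam 𝒮 w → (∀ i, c i ≠ 0 → i ∈ 𝒮) →
  (∀ K, IsCompact K → ∃ s : Finset ι, (∀ i ∈ s, i ∈ 𝒮 ∧ (Γ.A.sp1 (w i) ∩ K).Nonempty) ∧
    ∀ z ∈ K, Γ.A.Eq1 (sumF c w) (∑ i ∈ s, c i • w i) z) ∧
  (∀ z, Γ.A.S1 (sumF c w) z) ∧ (Summable (fun i => c i ^ 2) →
    Integrable (Γ.A.N (sumF c w)) Γ.A.μ ∧ Integrable (Γ.A.NN (bar (sumF c w))) Γ.A.μ)

omit [MeasurableSpace Z] in
/-- equivariant extension over `E` -/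
def Ext : Prop := ∀ (ι : Type) [MulAction G ι] (𝒮 : Set ι) (w : ι → F1 (Vx G m)) (a₁ a₃ : ℝ),
  Orb G 𝒮 → Γ.Fam 𝒮 w → Γ.a ≤ a₁ → a₁ < a₃ → a₃ < Γ.b → ∃ w', Γ.Fam 𝒮 w' ∧
  ∀ c : ι → ℝ, (∀ i, c i ≠ 0 → i ∈ 𝒮) → (∀ z, a₁ < Γ.ρ z → Γ.A.Ex (sumF c w) z) →
    (∀ z, Γ.A.Ex (sumF c w') z) ∧ ∀ z, a₃ ≤ Γ.ρ z → Γ.A.Eq1 (sumF c w') (sumF c w) z

/-- equivariant families of currents of dimension one are bounded -/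
def Bnd : Prop := ∀ (ι : Type) [MulAction G ι] (𝒮 : Set ι) (ξ : ι → FF Z) (y : ι → ℝ),
  Orb G 𝒮 → (∀ i ∈ 𝒮, Γ.A.In univ 1 (ξ i) ∧ ∀ g : G, ξ (g • i) = actF g (ξ i)) →
  (∀ i, y i ≠ 0 → i ∈ 𝒮) → Summable (fun i => y i ^ 2) →
  (∃ C, ∀ b, (∀ z, Γ.A.S1 b z) → Integrable (Γ.A.N b) Γ.A.μ →
    Summable (fun i => y i * Γ.A.ev (ξ i) 1 [b]) ∧
      |∑' i, y i * Γ.A.ev (ξ i) 1 [b]| ≤ C * √(∫ z, Γ.A.N b z ∂Γ.A.μ)) ∧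
  ∀ (ι' : Type) [MulAction G ι'] (𝒮' : Set ι') (w : ι' → F1 (Vx G m)) (x : ι' → ℝ),
    Orb G 𝒮' → Γ.Fam 𝒮' w → (∀ i, x i ≠ 0 → i ∈ 𝒮') → Summable (fun i => x i ^ 2) →
    HasSum (fun p : ι × ι' => y p.1 * x p.2 * Γ.A.ev (ξ p.1) 1 [w p.2])
      (∑' i, y i * Γ.A.ev (ξ i) 1 [sumF x w])

/-- closed one-forms and closed three-forms are orthogonal -/
def Pair : Prop := ∀ (ι ι' : Type) [MulAction G ι] [MulAction G ι'] (𝒮 : Set ι) (𝒮' : Set ι')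
  (ξ : ι → FF Z) (y : ι → ℝ) (w : ι' → F1 (Vx G m)) (x : ι' → ℝ) (a₁ a₃ : ℝ),
  Orb G 𝒮 → (∀ i ∈ 𝒮, Γ.A.In univ 1 (ξ i) ∧ ∀ g : G, ξ (g • i) = actF g (ξ i)) →
  (∀ i, y i ≠ 0 → i ∈ 𝒮) → Summable (fun i => y i ^ 2) →
  Orb G 𝒮' → Γ.Fam 𝒮' w → (∀ i, x i ≠ 0 → i ∈ 𝒮') → Summable (fun i => x i ^ 2) →
  Γ.a ≤ a₁ → a₁ < a₃ → a₃ < Γ.b → (∀ z, a₁ < Γ.ρ z → Γ.A.Ex (sumF x w) z) →
  (∀ U, Γ.A.D U → ∑' i, y i * Γ.A.ev (ξ i) 1 [Γ.A.d U] = 0) →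
  (∀ i, y i ≠ 0 → ∀ z, Γ.ρ z < a₃ → ∀ b, Γ.A.val (ξ i) [b] z = 0) →
  HasSum (fun p : ι × ι' => y p.1 * x p.2 * Γ.A.ev (ξ p.1) 1 [w p.2]) 0

/-- the currents live between two levels -/
def Lev (γ : Finset (Vx G n) → Finset (Vx G n) → FF Z) (a' b' : ℝ) : Prop :=
  Γ.a < a' ∧ a' < b' ∧ b' < Γ.b ∧ ∀ σ ∈ Γ.𝒜, ∀ τ, τ ⊆ σ → τ.Nonempty →
    ∀ q ∈ (γ τ σ).support, ∀ z ∈ tsupport q.1, a' < Γ.ρ z ∧ (σ ∈ Γ.ℬ → Γ.ρ z < b')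

/-- existence of the cubical currents -/
def CubeE : Prop := ∃ γ a' b', Γ.Cube γ ∧ Γ.Lev γ a' b'

omit [MeasurableSpace Z] in
/-- existence of partitions of unity -/
def PartE : Prop := ∀ a' > Γ.a, ∃ ψ, Γ.Part a' ψ

/-- the pairing of cycles and cocycles is computed by currents and forms -/
def ZC : Prop := ∀ γ a' b' a₀ ψ, Γ.Cube γ → Γ.Lev γ a' b' → a₀ ≤ a' → Γ.Part a₀ ψ →
  ∀ q c z, L2 Γ.𝒜 (q + 1) c → L2 Γ.𝒜 (q + 1) z → (∀ σ ∈ Γ.𝒜, cob c σ = 0) →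
  (∀ τ ∈ Γ.𝒜, bdy Γ.𝒜 z τ = 0 ∨ (τ ∈ Γ.ℬ ∧ ∀ σ ∈ Γ.ℬ, c σ = 0)) →
  HasSum (fun σ => z σ * GW Γ.𝒜 ψ c q (Γ.A.cur (Gam γ σ))) (∑' σ, z σ * c σ)

/-- the boundary of the current of a chain -/
def Gbd : Prop := ∀ γ, Γ.Cube γ → (∀ σ ∈ Γ.𝒜, Γ.A.In univ (σ.card - 1) (Gam γ σ) ∧
    ∀ g : G, Gam γ (g • σ) = actF g (Gam γ σ)) ∧
  ∀ k z, L2 Γ.𝒜 (k + 2) z → ∀ f L, Γ.A.D f → (∀ p ∈ L, Γ.A.SM p) →
    (∀ τ ∈ Γ.𝒜, bdy Γ.𝒜 z τ = 0 ∨ Γ.A.cur (Gam γ τ) f L = 0) →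
    ∑' σ, z σ * Γ.A.cur (Gam γ σ) 1 (f :: L) = 0

end Geo

/-- the sign of the truncated Euler characteristic of the nerves -/
def UP : Prop := ∀ (G Z : Type) [Group G] [TopologicalSpace Z] [T2Space Z] [MulAction G Z]
  (m n : ℕ) (Γ : Geo G Z m n) (NA NB : Finset (Finset (Fin n))), Quo Γ.𝒜 Γ.ℬ NA NB → 0 ≤ icN NA NB

end Pool.Agent.Lib.MP_356dfe_ag.S
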